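import Pool.Agent.Helper462.Cb.Defs

namespace Cb

universe u v


theorem cb_zero (X : Type u) [TopologicalSpace X] : cb X (0 : Ordinal.{v}) = Set.univ := by
  unfold cb
  rw [Ordinal.limitRecOn_zero]

theorem cb_succ (X : Type u) [TopologicalSpace X] (α : Ordinal.{v}) :
    cb X (Order.succ α) = derive (cb X α) := by
  unfold cb
  rw [Ordinal.limitRecOn_succ]

theorem cb_limit (X : Type u) [TopologicalSpace X] (α : Ordinal.{v}) (h : Order.IsSuccLimit α) :
    cb X α = ⋂ β : Set.Iio α, cb X β.1 := by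
  conv_lhs => unfold cb
  rw [Ordinal.limitRecOn_limit _ _ _ _ h]
  ext x
  simp only [Set.mem_ofPred_eq, Set.mem_iInter, Subtype.forall, Set.mem_Iio]
  rfl

theorem isClosed_derive {X : Type u} [TopologicalSpace X] {S : Set X} (hS : IsClosed S) :
    IsClosed (derive S) := by
  rw [← isOpen_compl_iff, isOpen_iff_forall_mem_open]
  intro x hx
  by_cases hxS : x ∈ S
  · have h1 : ∃ U : Set X, IsOpen U ∧ x ∈ U ∧ ∀ y, y ∈ U → y ∈ S → y = x := by
      by_contra hcon
      apply hx
      refine ⟨hxS, fun U hU hxU => ?_⟩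
      by_contra h2
      apply hcon
      refine ⟨U, hU, hxU, fun y hy hyS => ?_⟩
      by_contra hyx
      exact h2 ⟨y, hy, hyS, hyx⟩
    obtain ⟨U, hU, hxU, h1⟩ := h1
    refine ⟨U, ?_, hU, hxU⟩
    intro z hz hzd
    have h2 := h1 z hz hzd.1
    rw [h2] at hzd
    exact hx hzd
  · refine ⟨Sᶜ, ?_, hS.isOpen_compl, hxS⟩
    intro z hz hzd
    exact hz hzd.1

theorem isClosed_cb (X : Type u) [TopologicalSpace X] (α : Ordinal.{v}) : IsClosed (cb X α) := by
  induction α using Ordinal.limitRecOn with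
  | zero => rw [cb_zero]; exact isClosed_univ
  | add_one o ih =>
    rw [show o + 1 = Order.succ o from (Order.succ_eq_add_one o).symm, cb_succ]
    exact isClosed_derive ih
  | limit o ho ih =>
    rw [cb_limit X o ho]
    exact isClosed_iInter fun β => ih β.1 β.2

theorem cb_antitone (X : Type u) [TopologicalSpace X] {α β : Ordinal.{v}} (h : α ≤ β) :
    cb X β ⊆ cb X α := by
  induction β using Ordinal.limitRecOn with
  | zero =>
    have h1 : α = 0 := le_antisymm h (zero_le)
    rw [h1]
  | add_one o ih =>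
    rw [show o + 1 = Order.succ o from (Order.succ_eq_add_one o).symm] at h ⊢
    rcases h.lt_or_eq with h1 | h1
    · rw [cb_succ]
      intro x hx
      exact ih (Order.lt_succ_iff.1 h1) hx.1
    · rw [h1]
  | limit o ho ih =>
    rcases h.lt_or_eq with h1 | h1
    · rw [cb_limit X o ho]
      exact Set.iInter_subset (fun β : Set.Iio o => cb X β.1) ⟨α, h1⟩
    · rw [h1]

theorem rank_one_aux {X : Type u} [TopologicalSpace X] (q : X) (a : Ordinal.{v})
    (h : cb X a = {q}) : IsCBRank X (a : WithTop Ordinal.{v}) := by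
  have h0 : cb X (Order.succ a) = ∅ := by
    rw [cb_succ, h]
    ext x
    simp only [Set.mem_empty_iff_false, iff_false]
    rintro ⟨hx, h1⟩
    obtain ⟨y, -, hy, hyx⟩ := h1 Set.univ isOpen_univ (Set.mem_univ x)
    exact hyx ((Set.mem_singleton_iff.1 hy).trans (Set.mem_singleton_iff.1 hx).symm)
  refine Or.inl ⟨⟨Order.succ a, h0⟩, a, rfl, ⟨q, ?_, ?_⟩, ?_⟩
  · rw [h]; exact Set.mem_singleton q
  · rw [h0]; exact Set.notMem_empty q
  · rintro α ⟨x, hx, -⟩
    by_contra hlt
    have h1 := cb_antitone X (Order.succ_le_of_lt (not_le.1 hlt)) hx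
    rw [h0] at h1
    exact h1

theorem rank_one {X : Type u} [TopologicalSpace X] (q : X) (h : cb X (1 : Ordinal.{v}) = {q}) :
    IsCBRank X (1 : WithTop Ordinal.{v}) := by
  exact rank_one_aux q 1 h

theorem rank_two {X : Type u} [TopologicalSpace X] (q : X) (h : cb X (2 : Ordinal.{v}) = {q}) :
    IsCBRank X (2 : WithTop Ordinal.{v}) := by
  exact rank_one_aux q 2 h

end Cb
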