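import Pool.Agent.Helper462.Cb.Defs

namespace Cb

universe u


section CbD1

variable {k : Type u} [Field k] {δ : Derivation ℤ k k} {A : Type u} [Ring A]

theorem cbd1_conn (h : DiffPoly δ A) (V : Type u) [AddCommGroup V] [Module k V] [Module A V]
    (hc : ∀ (a : k) (v : V), h.i a • v = a • v) : IsConn δ (fun v : V => h.X • v) := by
  constructor
  · intro v w
    exact smul_add _ _ _
  · intro a v
    show h.X • (a • v) = δ a • v + a • (h.X • v)
    rw [← hc a v, ← mul_smul, h.comm, add_smul, mul_smul, hc, hc, add_comm]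

theorem cbd1_SS (h : DiffPoly δ A)
    (hsub : ∀ (V : Type u) [AddCommGroup V] [Module k V] [Module A V],
      (∀ (a : k) (v : V), h.i a • v = a • v) → ∀ W : Submodule k V,
      (∀ w ∈ W, h.X • w ∈ W) → ∃ W' : Submodule A V, ∀ v, v ∈ W' ↔ v ∈ W)
    (V : Type u) [AddCommGroup V] [Module k V] [Module A V]
    (hc : ∀ (a : k) (v : V), h.i a • v = a • v) (hV : IsSimpleModule A V) :
    SS k (fun v : V => h.X • v) := by
  intro W hW
  obtain ⟨W', hW'⟩ := hsub V hc W hW
  rcases hV.1.eq_bot_or_eq_top W' with h1 | h1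
  · have h2 : W = ⊥ := by
      ext v
      rw [← hW', h1]
      simp
    refine ⟨⊤, fun _ _ => trivial, ?_⟩
    rw [h2]
    exact isCompl_bot_top
  · have h2 : W = ⊤ := by
      ext v
      rw [← hW', h1]
      simp
    refine ⟨⊥, fun w hw => ?_, ?_⟩
    · rw [Submodule.mem_bot] at hw ⊢
      show h.X • w = 0
      rw [hw, smul_zero]
    · rw [h2]
      exact isCompl_top_bot

/-- the connection on `Hom_k(S, V)` -/
def cbd1_DH (h : DiffPoly δ A) (S V : Type u) [AddCommGroup V] [Module k V] [Module A V]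
    [AddCommGroup S] [Module k S] [Module A S]
    (hc : ∀ (a : k) (v : V), h.i a • v = a • v) (hc' : ∀ (a : k) (v : S), h.i a • v = a • v)
    (φ : S →ₗ[k] V) : S →ₗ[k] V where
  toFun s := h.X • φ s - φ (h.X • s)
  map_add' s t := by
    rw [smul_add, map_add, map_add, smul_add]
    abel
  map_smul' c s := by
    have h1 := (cbd1_conn h S hc').smul c s
    have h2 := (cbd1_conn h V hc).smul c (φ s)
    rw [map_smul, h1, h2, map_add, map_smul, map_smul, RingHom.id_apply, smul_sub]
    abel

theorem cbd1_DH_conn (h : DiffPoly δ A) (S V : Type u) [AddCommGroup V] [Module k V] [Module A V]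
    [AddCommGroup S] [Module k S] [Module A S]
    (hc : ∀ (a : k) (v : V), h.i a • v = a • v) (hc' : ∀ (a : k) (v : S), h.i a • v = a • v) :
    IsConn δ (cbd1_DH h S V hc hc') := by
  constructor
  · intro φ ψ
    ext s
    show h.X • (φ s + ψ s) - (φ (h.X • s) + ψ (h.X • s)) =
      (h.X • φ s - φ (h.X • s)) + (h.X • ψ s - ψ (h.X • s))
    rw [smul_add]
    abel
  · intro a φ
    ext s
    show h.X • (a • φ s) - a • φ (h.X • s) = δ a • φ s + a • (h.X • φ s - φ (h.X • s))
    have h2 := (cbd1_conn h V hc).smul a (φ s)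
    rw [h2, smul_sub]
    abel

end CbD1

theorem simple_divisible {k : Type u} [Field k] {δ : Derivation ℤ k k} {A : Type u} [Ring A]
    {d : A → ℕ} (he : Euclid A d) (h : DiffPoly δ A)
    (hss : ∀ {V W : Type u} [AddCommGroup V] [Module k V] [FiniteDimensional k V]
      [AddCommGroup W] [Module k W] [FiniteDimensional k W]
      {DV : V → V} {DW : W → W}, IsConn δ DV → IsConn δ DW →
      SS k DV → SS k DW → ∀ DH : (V →ₗ[k] W) → (V →ₗ[k] W),
      (∀ φ v, DH φ v = DW (φ v) - φ (DV v)) → SS k DH)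
    (hfd : ∀ (V : Type u) [AddCommGroup V] [Module k V] [Module A V],
      (∀ (a : k) (v : V), h.i a • v = a • v) → IsSimpleModule A V → FiniteDimensional k V)
    (hsub : ∀ (V : Type u) [AddCommGroup V] [Module k V] [Module A V],
      (∀ (a : k) (v : V), h.i a • v = a • v) → ∀ W : Submodule k V,
      (∀ w ∈ W, h.X • w ∈ W) → ∃ W' : Submodule A V, ∀ v, v ∈ W' ↔ v ∈ W)
    (hlin : ∀ (V W : Type u) [AddCommGroup V] [Module k V] [Module A V] [AddCommGroup W]
      [Module k W] [Module A W], (∀ (a : k) (v : V), h.i a • v = a • v) →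
      (∀ (a : k) (v : W), h.i a • v = a • v) → ∀ f : V →ₗ[k] W,
      (∀ v, f (h.X • v) = h.X • f v) → ∃ g : V →ₗ[A] W, ∀ v, g v = f v)
    (hfactor : ∀ P : A → Prop, (∀ u, IsUnit u → P u) → (∀ a b, P a → P b → P (a * b)) →
      (∀ p, p ≠ 0 → IsSimpleModule A (A ⧸ Submodule.span A {p}) → P p) → ∀ a, a ≠ 0 → P a)
    (hA : HA δ) (V : Type u) [AddCommGroup V] [Module A V] (hV : IsSimpleModule A V)
    (p : A) (hp : p ≠ 0) (x : V) : ∃ y : V, p • y = x := by
  classical
  refine hfactor (fun a => ∀ x : V, ∃ y : V, a • y = x) ?_ ?_ ?_ p hp x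
  · rintro _ ⟨a, rfl⟩ x
    exact ⟨(↑a⁻¹ : A) • x, by rw [← mul_smul, Units.mul_inv, one_smul]⟩
  · intro a b ha hb x
    obtain ⟨y1, h1⟩ := ha x
    obtain ⟨y2, h2⟩ := hb y1
    exact ⟨y2, by rw [mul_smul, h2, h1]⟩
  clear hp x p
  intro p hp hS x
  let mkV : Module k V := Module.compHom V h.i
  let S := A ⧸ Submodule.span A {p}
  let mkS : Module k S := Module.compHom S h.i
  let N : Submodule A (A × V) := Submodule.span A {(p, -x)}
  let Y := (A × V) ⧸ N
  let mkY : Module k Y := Module.compHom Y h.i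
  have cV : ∀ (a : k) (v : V), h.i a • v = a • v := fun _ _ => rfl
  have cS : ∀ (a : k) (v : S), h.i a • v = a • v := fun _ _ => rfl
  have cY : ∀ (a : k) (v : Y), h.i a • v = a • v := fun _ _ => rfl
  have fV : FiniteDimensional k V := hfd V cV hV
  have fS : FiniteDimensional k S := hfd S cS hS
  have connV := cbd1_conn h V cV
  have connS := cbd1_conn h S cS
  have ssV := cbd1_SS h hsub V cV hV
  have ssS := cbd1_SS h hsub S cS hS
  -- the extension
  let j : V →ₗ[A] Y := N.mkQ.comp (LinearMap.inr A A V)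
  have hN : N ≤ LinearMap.ker ((Submodule.span A {p}).mkQ.comp (LinearMap.fst A A V)) := by
    rw [Submodule.span_singleton_le_iff_mem, LinearMap.mem_ker]
    show (Submodule.span A {p}).mkQ p = 0
    rw [Submodule.mkQ_apply, Submodule.Quotient.mk_eq_zero]
    exact Submodule.mem_span_singleton_self p
  let q : Y →ₗ[A] S := N.liftQ ((Submodule.span A {p}).mkQ.comp (LinearMap.fst A A V)) hN
  have hqm : ∀ (a : A) (v : V), q (N.mkQ (a, v)) = (Submodule.span A {p}).mkQ a := fun a v => rfl
  have hj : Function.Injective j := by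
    rw [injective_iff_map_eq_zero]
    intro v hv
    have h1 : N.mkQ ((0 : A), v) = 0 := hv
    rw [Submodule.mkQ_apply, Submodule.Quotient.mk_eq_zero] at h1
    obtain ⟨a, ha⟩ := Submodule.mem_span_singleton.1 h1
    have h2 : a * p = 0 := congrArg Prod.fst ha
    have h3 : a • (-x) = v := congrArg Prod.snd ha
    have h4 : a = 0 := by
      by_contra hne
      exact he.mul_ne a p hne hp h2
    rw [← h3, h4, zero_smul]
  have hqj : ∀ v, q (j v) = 0 := by
    intro v
    show (Submodule.span A {p}).mkQ 0 = 0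
    exact map_zero _
  have hex : ∀ y : Y, q y = 0 → ∃ v, j v = y := by
    intro y hy
    obtain ⟨⟨a, v⟩, rfl⟩ := N.mkQ_surjective y
    rw [hqm, Submodule.mkQ_apply, Submodule.Quotient.mk_eq_zero] at hy
    obtain ⟨b, hb⟩ := Submodule.mem_span_singleton.1 hy
    refine ⟨v + b • x, ?_⟩
    show N.mkQ ((0 : A), v + b • x) = N.mkQ (a, v)
    rw [← sub_eq_zero, ← map_sub, Submodule.mkQ_apply, Submodule.Quotient.mk_eq_zero]
    refine Submodule.mem_span_singleton.2 ⟨-b, ?_⟩
    refine Prod.ext ?_ ?_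
    · show -b • p = 0 - a
      rw [← hb, zero_sub, neg_smul]
    · show -b • (-x) = v + b • x - v
      rw [neg_smul, smul_neg, neg_neg]
      abel
  have hqs : Function.Surjective q := by
    intro s
    obtain ⟨a, rfl⟩ := (Submodule.span A {p}).mkQ_surjective s
    exact ⟨N.mkQ (a, 0), rfl⟩
  let qk : Y →ₗ[k] S :=
    { toFun := q
      map_add' := fun y z => map_add q y z
      map_smul' := fun c y => q.map_smul (h.i c) y }
  let jk : V →ₗ[k] Y :=
    { toFun := j
      map_add' := fun y z => map_add j y z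
      map_smul' := fun c y => j.map_smul (h.i c) y }
  obtain ⟨σ, hσ⟩ := qk.exists_rightInverse_of_surjective (LinearMap.range_eq_top.2 hqs)
  have hσ' : ∀ s, q (σ s) = s := fun s => LinearMap.congr_fun hσ s
  have hw : ∀ s : S, ∃ v : V, j v = h.X • σ s - σ (h.X • s) := by
    intro s
    apply hex
    rw [map_sub, map_smul, hσ', hσ', sub_self]
  choose w hw using hw
  have connY := cbd1_conn h Y cY
  let ω : S →ₗ[k] V :=
    { toFun := w
      map_add' := by
        intro s t
        apply hj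
        rw [map_add, hw, hw, hw, map_add, smul_add, smul_add, map_add]
        abel
      map_smul' := by
        intro c s
        apply hj
        have e1 : j ((RingHom.id k) c • w s) = c • j (w s) := j.map_smul (h.i c) (w s)
        have h1 := connS.smul c s
        have h2 := connY.smul c (σ s)
        rw [e1, hw, hw, map_smul, h1, h2, map_add, map_smul, map_smul, smul_sub]
        abel }
  have hSS : SS k (cbd1_DH h S V cV cS) :=
    hss connS connV ssS ssV (cbd1_DH h S V cV cS) (fun φ v => rfl)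
  obtain ⟨g, hg⟩ := hA (S →ₗ[k] V) (cbd1_DH h S V cV cS) (cbd1_DH_conn h S V cV cS) hSS ω
  have hg' : ∀ s, w s = h.X • g s - g (h.X • s) := fun s => LinearMap.congr_fun hg s
  obtain ⟨τ, hτ⟩ := hlin S Y cS cY (σ - jk.comp g) (by
    intro s
    show σ (h.X • s) - j (g (h.X • s)) = h.X • (σ s - j (g s))
    have e1 := hw s
    rw [hg', map_sub, map_smul] at e1
    rw [smul_sub]
    have e2 : σ (h.X • s) = h.X • σ s - (h.X • j (g s) - j (g (h.X • s))) := by
      rw [e1]; abel
    rw [e2]
    abel)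
  have hqτ : ∀ s, q (τ s) = s := by
    intro s
    rw [hτ]
    show q (σ s - j (g s)) = s
    rw [map_sub, hσ', hqj, sub_zero]
  set y0 : Y := N.mkQ ((1 : A), (0 : V)) with hy0
  obtain ⟨v, hv⟩ := hex (y0 - τ (q y0)) (by rw [map_sub, hqτ, sub_self])
  have hpy : p • y0 = j x := by
    show p • N.mkQ ((1 : A), (0 : V)) = N.mkQ ((0 : A), x)
    rw [← map_smul, ← sub_eq_zero, ← map_sub, Submodule.mkQ_apply, Submodule.Quotient.mk_eq_zero]
    refine Submodule.mem_span_singleton.2 ⟨1, ?_⟩
    refine Prod.ext ?_ ?_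
    · show (1 : A) • p = p • (1 : A) - 0
      rw [one_smul, smul_eq_mul, mul_one, sub_zero]
    · show (1 : A) • (-x) = p • (0 : V) - x
      rw [one_smul, smul_zero, zero_sub]
  have e3 : p • τ (q y0) = 0 := by
    have e4 : p • τ (q y0) = τ (q (p • y0)) := by rw [q.map_smul, τ.map_smul]
    rw [e4, hpy, hqj, map_zero]
  refine ⟨v, hj ?_⟩
  rw [map_smul, hv, smul_sub, e3, hpy, sub_zero]

end Cb
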