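import Pool.Agent.Helper462.Cb.Defs

namespace Cb

universe u


section UBaux

variable {k : Type u} [Field k] {δ : Derivation ℤ k k} {A : Type u} [Ring A]

/-- compatibility -/
def UBc (h : DiffPoly δ A) (V : Type u) [AddCommGroup V] [Module k V] [Module A V] : Prop :=
  ∀ (a : k) (v : V), h.i a • v = a • v

theorem ub_X_smul (h : DiffPoly δ A) {V : Type u} [AddCommGroup V] [Module k V] [Module A V]
    (hc : UBc h V) (a : k) (v : V) : h.X • (a • v) = δ a • v + a • (h.X • v) := by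
  rw [← hc a v, smul_smul, h.comm, add_smul, mul_smul, hc, hc, add_comm]

theorem ub_conn (h : DiffPoly δ A) {V : Type u} [AddCommGroup V] [Module k V] [Module A V]
    (hc : UBc h V) : IsConn δ (fun v : V => h.X • v) :=
  ⟨fun v w => smul_add _ _ _, fun a v => ub_X_smul h hc a v⟩

/-- the hypothesis `hsub` -/
def UBsub (h : DiffPoly δ A) : Prop := ∀ (V : Type u) [AddCommGroup V] [Module k V] [Module A V],
      (∀ (a : k) (v : V), h.i a • v = a • v) → ∀ W : Submodule k V,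
      (∀ w ∈ W, h.X • w ∈ W) → ∃ W' : Submodule A V, ∀ v, v ∈ W' ↔ v ∈ W

theorem ub_simple (h : DiffPoly δ A) (hsub : UBsub h) {V : Type u} [AddCommGroup V] [Module k V]
    [Module A V] (hc : UBc h V) (hV : IsSimpleModule A V) (W : Submodule k V)
    (hW : ∀ w ∈ W, h.X • w ∈ W) : W = ⊥ ∨ W = ⊤ := by
  obtain ⟨W', hW'⟩ := hsub V hc W hW
  rcases eq_bot_or_eq_top W' with e | e
  · left
    rw [Submodule.eq_bot_iff]
    intro v hv
    have := (hW' v).2 hv
    rw [e] at this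
    exact (Submodule.mem_bot A).1 this
  · right
    rw [Submodule.eq_top_iff']
    intro v
    rw [← hW' v, e]
    exact Submodule.mem_top

theorem ub_SS (h : DiffPoly δ A) (hsub : UBsub h) {V : Type u} [AddCommGroup V] [Module k V]
    [Module A V] (hc : UBc h V) (hV : IsSimpleModule A V) : SS k (fun v : V => h.X • v) := by
  intro W hW
  rcases ub_simple h hsub hc hV W hW with rfl | rfl
  · exact ⟨⊤, fun _ _ => Submodule.mem_top, isCompl_bot_top⟩
  · exact ⟨⊥, fun w hw => by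
      rw [(Submodule.mem_bot k).1 hw]
      simp, isCompl_top_bot⟩

/-- an `A`-linear map as a `k`-linear map -/
def ubK (h : DiffPoly δ A) {V W : Type u} [AddCommGroup V] [Module k V] [Module A V]
    [AddCommGroup W] [Module k W] [Module A W] (hV : UBc h V) (hW : UBc h W) (f : V →ₗ[A] W) :
    V →ₗ[k] W where
  toFun := f
  map_add' := f.map_add
  map_smul' := fun a v => by
    rw [← hV, f.map_smul, hW]
    rfl

theorem ubK_apply (h : DiffPoly δ A) {V W : Type u} [AddCommGroup V] [Module k V] [Module A V]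
    [AddCommGroup W] [Module k W] [Module A W] (hV : UBc h V) (hW : UBc h W) (f : V →ₗ[A] W)
    (v : V) : ubK h hV hW f v = f v := rfl

/-- the connection on homomorphisms -/
def ubD (h : DiffPoly δ A) {V W : Type u} [AddCommGroup V] [Module k V] [Module A V]
    [AddCommGroup W] [Module k W] [Module A W] (hV : UBc h V) (hW : UBc h W) (f : V →ₗ[k] W) :
    V →ₗ[k] W where
  toFun := fun v => h.X • f v - f (h.X • v)
  map_add' := fun v w => by
    rw [map_add, smul_add, smul_add, map_add]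
    abel
  map_smul' := fun a v => by
    rw [map_smul, ub_X_smul h hW, ub_X_smul h hV, map_add, map_smul, map_smul, RingHom.id_apply,
      smul_sub]
    abel

theorem ubD_apply (h : DiffPoly δ A) {V W : Type u} [AddCommGroup V] [Module k V] [Module A V]
    [AddCommGroup W] [Module k W] [Module A W] (hV : UBc h V) (hW : UBc h W) (f : V →ₗ[k] W)
    (v : V) : ubD h hV hW f v = h.X • f v - f (h.X • v) := rfl

theorem ubD_conn (h : DiffPoly δ A) {V W : Type u} [AddCommGroup V] [Module k V] [Module A V]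
    [AddCommGroup W] [Module k W] [Module A W] (hV : UBc h V) (hW : UBc h W) :
    IsConn δ (ubD h hV hW) := by
  constructor
  · intro f g
    ext v
    simp only [ubD_apply, LinearMap.add_apply, smul_add]
    abel
  · intro a f
    ext v
    simp only [ubD_apply, LinearMap.add_apply, LinearMap.smul_apply, ub_X_smul h hW, smul_sub]
    abel

/-- the hypothesis `hlin` -/
def UBlin (h : DiffPoly δ A) : Prop := ∀ (V W : Type u) [AddCommGroup V] [Module k V] [Module A V]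
      [AddCommGroup W] [Module k W] [Module A W], (∀ (a : k) (v : V), h.i a • v = a • v) →
      (∀ (a : k) (v : W), h.i a • v = a • v) → ∀ f : V →ₗ[k] W,
      (∀ v, f (h.X • v) = h.X • f v) → ∃ g : V →ₗ[A] W, ∀ v, g v = f v

/-- normal form of an extension -/
theorem ub_ext (h : DiffPoly δ A)
    (hss : ∀ {V W : Type u} [AddCommGroup V] [Module k V] [FiniteDimensional k V]
      [AddCommGroup W] [Module k W] [FiniteDimensional k W]
      {DV : V → V} {DW : W → W}, IsConn δ DV → IsConn δ DW →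
      SS k DV → SS k DW → ∀ DH : (V →ₗ[k] W) → (V →ₗ[k] W),
      (∀ φ v, DH φ v = DW (φ v) - φ (DV v)) → SS k DH)
    (hfd : ∀ (V : Type u) [AddCommGroup V] [Module k V] [Module A V],
      (∀ (a : k) (v : V), h.i a • v = a • v) → IsSimpleModule A V → FiniteDimensional k V)
    (hsub : UBsub h) (hlin : UBlin h) (a b : k) (hB : HB δ a b)
    {V Y S : Type u} [AddCommGroup V] [Module k V] [Module A V]
    [AddCommGroup Y] [Module k Y] [Module A Y] [AddCommGroup S] [Module k S] [Module A S]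
    (hcV : UBc h V) (hcY : UBc h Y) (hcS : UBc h S) (j : V →ₗ[A] Y) (q : Y →ₗ[A] S)
    (hj : Function.Injective j) (hq : Function.Surjective q)
    (hex : ∀ y, q y = 0 ↔ ∃ v, j v = y) (hV : IsSimpleModule A V) (hS : IsSimpleModule A S)
    (hns : ¬ ∃ r : Y →ₗ[A] V, r ∘ₗ j = LinearMap.id) :
    ∃ (σ : S →ₗ[k] Y) (Ψ : S →ₗ[k] V), (∀ s, q (σ s) = s) ∧
      (∀ s, h.X • σ s = σ (h.X • s) + j (b • Ψ s)) ∧
      (∀ s, h.X • Ψ s = Ψ (h.X • s) + a • Ψ s) ∧ Function.Bijective Ψ := by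
  have fV : FiniteDimensional k V := hfd V hcV hV
  have fS : FiniteDimensional k S := hfd S hcS hS
  have hsm : ∀ (c : k) (v : V), j (c • v) = c • j v := (ubK h hcV hcY j).map_smul
  -- sections
  obtain ⟨σ₀, hσ₀⟩ := (ubK h hcY hcS q).exists_rightInverse_of_surjective
    (LinearMap.range_eq_top.2 hq)
  have hσ₀' : ∀ s, q (σ₀ s) = s := fun s => LinearMap.congr_fun hσ₀ s
  obtain ⟨ρ, hρ⟩ := (ubK h hcV hcY j).exists_leftInverse_of_injective
    (LinearMap.ker_eq_bot.2 hj)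
  have hρ' : ∀ v, ρ (j v) = v := fun v => LinearMap.congr_fun hρ v
  set ω : S →ₗ[k] V := ρ ∘ₗ (ubD h hcS hcY σ₀) with hω
  have hω' : ∀ s, j (ω s) = h.X • σ₀ s - σ₀ (h.X • s) := by
    intro s
    have h0 : q (ubD h hcS hcY σ₀ s) = 0 := by
      rw [ubD_apply, map_sub, map_smul, hσ₀', hσ₀', sub_self]
    obtain ⟨v, hv⟩ := (hex _).1 h0
    have : ω s = v := by
      show ρ (ubD h hcS hcY σ₀ s) = v
      rw [← hv, hρ']
    rw [this, hv, ubD_apply]
  -- cohomology
  have hSSD : SS k (ubD h hcS hcV) :=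
    hss (ub_conn h hcS) (ub_conn h hcV) (ub_SS h hsub hcS hS) (ub_SS h hsub hcV hV)
      (ubD h hcS hcV) (fun φ v => rfl)
  obtain ⟨Ψ, g, hΨ, hωg⟩ := hB.2 (S →ₗ[k] V) (ubD h hcS hcV) (ubD_conn h hcS hcV) hSSD ω
  have hΨ' : ∀ s, h.X • Ψ s = Ψ (h.X • s) + a • Ψ s := by
    intro s
    have := LinearMap.congr_fun hΨ s
    rw [ubD_apply, LinearMap.smul_apply] at this
    rw [← this]
    abel
  set σ : S →ₗ[k] Y := σ₀ - (ubK h hcV hcY j) ∘ₗ g with hσ
  have hσa : ∀ s, σ s = σ₀ s - j (g s) := fun s => rfl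
  have hqj : ∀ v, q (j v) = 0 := fun v => (hex _).2 ⟨v, rfl⟩
  have hσq : ∀ s, q (σ s) = s := by
    intro s
    rw [hσa, map_sub, hσ₀', hqj, sub_zero]
  have hσX : ∀ s, h.X • σ s = σ (h.X • s) + j (b • Ψ s) := by
    intro s
    have h1 := LinearMap.congr_fun hωg s
    rw [LinearMap.add_apply, LinearMap.smul_apply, ubD_apply] at h1
    have h2 : b • Ψ s = ω s - (h.X • g s - g (h.X • s)) := by
      rw [h1]; abel
    rw [h2, map_sub, map_sub, hω', hσa, hσa, smul_sub, map_smul j]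
    abel
  refine ⟨σ, Ψ, hσq, hσX, hΨ', ?_⟩
  have hΨ0 : Ψ ≠ 0 := by
    intro h0
    apply hns
    obtain ⟨g', hg'⟩ := hlin S Y hcS hcY σ (by
      intro s
      rw [hσX s, h0]
      simp)
    have hmem : ∀ y, (LinearMap.id - g' ∘ₗ q : Y →ₗ[A] Y) y ∈ LinearMap.range j := by
      intro y
      have : q ((LinearMap.id - g' ∘ₗ q : Y →ₗ[A] Y) y) = 0 := by
        simp only [LinearMap.sub_apply, LinearMap.id_apply, LinearMap.comp_apply, map_sub]
        rw [hg', hσq, sub_self]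
      exact (hex _).1 this
    refine ⟨(LinearEquiv.ofInjective j hj).symm.toLinearMap ∘ₗ
      (LinearMap.codRestrict (LinearMap.range j) (LinearMap.id - g' ∘ₗ q) hmem), ?_⟩
    ext v
    simp only [LinearMap.comp_apply, LinearEquiv.coe_coe, LinearMap.id_apply]
    rw [LinearEquiv.symm_apply_eq]
    apply Subtype.ext
    rw [LinearEquiv.ofInjective_apply, LinearMap.codRestrict_apply]
    simp [hqj]
  constructor
  · rw [← LinearMap.ker_eq_bot]
    rcases ub_simple h hsub hcS hS (LinearMap.ker Ψ) (by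
      intro s hs
      rw [LinearMap.mem_ker] at hs ⊢
      have := hΨ' s
      rw [hs] at this
      simpa using this.symm) with e | e
    · exact e
    · exact absurd (LinearMap.ker_eq_top.1 e) hΨ0
  · rw [← LinearMap.range_eq_top]
    rcases ub_simple h hsub hcV hV (LinearMap.range Ψ) (by
      rintro _ ⟨s, rfl⟩
      refine ⟨h.X • s + a • s, ?_⟩
      rw [map_add, map_smul Ψ a s, hΨ']) with e | e
    · exact absurd (LinearMap.range_eq_bot.1 e) hΨ0
    · exact e

theorem ub_bij {V Y S : Type u} [AddCommGroup V] [Module k V] [Module A V]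
    [AddCommGroup Y] [Module k Y] [Module A Y] [AddCommGroup S] [Module k S] [Module A S]
    (h : DiffPoly δ A) (hcV : UBc h V) (hcY : UBc h Y) (j : V →ₗ[A] Y) (q : Y →ₗ[A] S)
    (hj : Function.Injective j) (hex : ∀ y, q y = 0 ↔ ∃ v, j v = y) (σ : S →ₗ[k] Y)
    (hσ : ∀ s, q (σ s) = s) :
    Function.Bijective ((ubK h hcV hcY j).coprod σ) := by
  have hqj : ∀ v, q (j v) = 0 := fun v => (hex _).2 ⟨v, rfl⟩
  constructor
  · rintro ⟨v, s⟩ ⟨v', s'⟩ he
    rw [LinearMap.coprod_apply, LinearMap.coprod_apply, ubK_apply, ubK_apply] at he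
    have h1 := congrArg q he
    rw [map_add, map_add, hqj, hqj, hσ, hσ, zero_add, zero_add] at h1
    simp only at h1
    subst h1
    have h2 := hj (add_right_cancel he)
    simp only at h2
    rw [h2]
  · intro y
    obtain ⟨v, hv⟩ := (hex (y - σ (q y))).1 (by rw [map_sub, hσ, sub_self])
    refine ⟨(v, q y), ?_⟩
    rw [LinearMap.coprod_apply, ubK_apply, hv]
    simp

end UBaux

theorem uniBot_of_HB {k : Type u} [Field k] {δ : Derivation ℤ k k} {A : Type u} [Ring A]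
    (h : DiffPoly δ A)
    (hss : ∀ {V W : Type u} [AddCommGroup V] [Module k V] [FiniteDimensional k V]
      [AddCommGroup W] [Module k W] [FiniteDimensional k W]
      {DV : V → V} {DW : W → W}, IsConn δ DV → IsConn δ DW →
      SS k DV → SS k DW → ∀ DH : (V →ₗ[k] W) → (V →ₗ[k] W),
      (∀ φ v, DH φ v = DW (φ v) - φ (DV v)) → SS k DH)
    (hfd : ∀ (V : Type u) [AddCommGroup V] [Module k V] [Module A V],
      (∀ (a : k) (v : V), h.i a • v = a • v) → IsSimpleModule A V → FiniteDimensional k V)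
    (hsub : ∀ (V : Type u) [AddCommGroup V] [Module k V] [Module A V],
      (∀ (a : k) (v : V), h.i a • v = a • v) → ∀ W : Submodule k V,
      (∀ w ∈ W, h.X • w ∈ W) → ∃ W' : Submodule A V, ∀ v, v ∈ W' ↔ v ∈ W)
    (hlin : ∀ (V W : Type u) [AddCommGroup V] [Module k V] [Module A V] [AddCommGroup W]
      [Module k W] [Module A W], (∀ (a : k) (v : V), h.i a • v = a • v) →
      (∀ (a : k) (v : W), h.i a • v = a • v) → ∀ f : V →ₗ[k] W,
      (∀ v, f (h.X • v) = h.X • f v) → ∃ g : V →ₗ[A] W, ∀ v, g v = f v)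
    (a b : k) (hB : HB δ a b) : UniBot A := by
  intro V Y₁ Y₂ _ _ _ _ _ _ j₁ j₂ hV hj₁ hj₂ hS₁ hS₂ hn₁ hn₂
  letI : Module k V := Module.compHom V h.i
  letI : Module k Y₁ := Module.compHom Y₁ h.i
  letI : Module k Y₂ := Module.compHom Y₂ h.i
  letI : Module k (Y₁ ⧸ LinearMap.range j₁) := Module.compHom (Y₁ ⧸ LinearMap.range j₁) h.i
  letI : Module k (Y₂ ⧸ LinearMap.range j₂) := Module.compHom (Y₂ ⧸ LinearMap.range j₂) h.i
  have hcV : UBc h V := fun _ _ => rfl
  have hc₁ : UBc h Y₁ := fun _ _ => rfl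
  have hc₂ : UBc h Y₂ := fun _ _ => rfl
  have hcS₁ : UBc h (Y₁ ⧸ LinearMap.range j₁) := fun _ _ => rfl
  have hcS₂ : UBc h (Y₂ ⧸ LinearMap.range j₂) := fun _ _ => rfl
  have hex₁ : ∀ y, (LinearMap.range j₁).mkQ y = 0 ↔ ∃ v, j₁ v = y := by
    intro y
    rw [Submodule.mkQ_apply, Submodule.Quotient.mk_eq_zero, LinearMap.mem_range]
  have hex₂ : ∀ y, (LinearMap.range j₂).mkQ y = 0 ↔ ∃ v, j₂ v = y := by
    intro y
    rw [Submodule.mkQ_apply, Submodule.Quotient.mk_eq_zero, LinearMap.mem_range]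
  obtain ⟨σ₁, Ψ₁, hs₁, hX₁, hΨ₁, hb₁⟩ := ub_ext h (fun {V W} => hss) hfd hsub hlin a b hB hcV hc₁ hcS₁
    j₁ (LinearMap.range j₁).mkQ hj₁ (Submodule.mkQ_surjective _) hex₁ hV hS₁ hn₁
  obtain ⟨σ₂, Ψ₂, hs₂, hX₂, hΨ₂, hb₂⟩ := ub_ext h (fun {V W} => hss) hfd hsub hlin a b hB hcV hc₂ hcS₂
    j₂ (LinearMap.range j₂).mkQ hj₂ (Submodule.mkQ_surjective _) hex₂ hV hS₂ hn₂
  have hB₁ := ub_bij h hcV hc₁ j₁ (LinearMap.range j₁).mkQ hj₁ hex₁ σ₁ hs₁
  have hB₂ := ub_bij h hcV hc₂ j₂ (LinearMap.range j₂).mkQ hj₂ hex₂ σ₂ hs₂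
  set E₁ := LinearEquiv.ofBijective _ hB₁ with hE₁
  set E₂ := LinearEquiv.ofBijective _ hB₂ with hE₂
  have hE₁a : ∀ v s, E₁ (v, s) = j₁ v + σ₁ s := fun v s => rfl
  have hE₂a : ∀ v s, E₂ (v, s) = j₂ v + σ₂ s := fun v s => rfl
  set P₁ := LinearEquiv.ofBijective Ψ₁ hb₁ with hP₁
  set P₂ := LinearEquiv.ofBijective Ψ₂ hb₂ with hP₂
  set τ := P₁.trans P₂.symm with hτ
  have hτ' : ∀ s, Ψ₂ (τ s) = Ψ₁ s := by
    intro s
    show P₂ (P₂.symm (P₁ s)) = P₁ s
    exact P₂.apply_symm_apply _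
  have hτX : ∀ s, h.X • τ s = τ (h.X • s) := by
    intro s
    apply hb₂.1
    have h1 := hΨ₂ (τ s)
    rw [hτ'] at h1
    have h2 := hΨ₁ s
    rw [hτ']
    have h3 : Ψ₂ (h.X • τ s) + a • Ψ₁ s = Ψ₁ (h.X • s) + a • Ψ₁ s := by rw [← h1, ← h2]
    exact add_right_cancel h3
  set F : Y₁ ≃ₗ[k] Y₂ := E₁.symm.trans (((LinearEquiv.refl k V).prodCongr τ).trans E₂) with hF
  have hFa : ∀ v s, F (j₁ v + σ₁ s) = j₂ v + σ₂ (τ s) := by
    intro v s
    show E₂ (((LinearEquiv.refl k V).prodCongr τ) (E₁.symm (j₁ v + σ₁ s))) = _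
    rw [← hE₁a, E₁.symm_apply_apply]
    rfl
  have hFX : ∀ y, F (h.X • y) = h.X • F y := by
    intro y
    obtain ⟨⟨v, s⟩, rfl⟩ := E₁.surjective y
    rw [hE₁a, hFa, smul_add, smul_add, hX₁, hX₂, hτX, hτ']
    have e1 : h.X • j₁ v + (σ₁ (h.X • s) + j₁ (b • Ψ₁ s)) =
        j₁ (h.X • v + b • Ψ₁ s) + σ₁ (h.X • s) := by
      rw [map_add, map_smul j₁ h.X v]; abel
    rw [e1, hFa, map_add, map_smul j₂ h.X v]
    abel
  obtain ⟨g, hg⟩ := hlin Y₁ Y₂ hc₁ hc₂ F.toLinearMap hFX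
  have hgb : Function.Bijective g := by
    have : (g : Y₁ → Y₂) = F := funext hg
    rw [this]
    exact F.bijective
  refine ⟨LinearEquiv.ofBijective g hgb, ?_⟩
  intro v
  rw [LinearEquiv.ofBijective_apply, hg]
  have := hFa v 0
  simpa using this

end Cb
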