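import Pool.Agent.Helper462.Cb.Defs

namespace Cb

universe u


/-- type synonym for `V × V` -/
def YY79 (V : Type u) : Type u := V × V

instance YY79.instAddCommGroup (V : Type u) [AddCommGroup V] : AddCommGroup (YY79 V) :=
  inferInstanceAs (AddCommGroup (V × V))

instance YY79.instModule (k : Type u) (V : Type u) [Field k] [AddCommGroup V] [Module k V] :
    Module k (YY79 V) :=
  inferInstanceAs (Module k (V × V))

theorem IsConn.sub79 {k : Type u} [Field k] {δ : Derivation ℤ k k} {V : Type u} [AddCommGroup V]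
    [Module k V] {D : V → V} (hD : IsConn δ D) (v w : V) : D (v - w) = D v - D w := by
  have := hD.add (v - w) w
  rw [sub_add_cancel] at this
  rw [this]; abel

theorem IsConn.zero79 {k : Type u} [Field k] {δ : Derivation ℤ k k} {V : Type u} [AddCommGroup V]
    [Module k V] {D : V → V} (hD : IsConn δ D) : D 0 = 0 := by
  have := hD.add 0 0
  rw [add_zero] at this
  exact left_eq_add.1 this

theorem conn_shift79 {k : Type u} [Field k] {δ : Derivation ℤ k k} {V : Type u} [AddCommGroup V]
    [Module k V] {D : V → V} (hD : IsConn δ D) (a : k) : IsConn δ (fun v => D v - a • v) := by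
  refine ⟨fun v w => ?_, fun c v => ?_⟩
  · simp only [hD.add, smul_add]; abel
  · simp only [hD.smul, smul_sub, smul_smul, mul_comm a c]; abel

theorem ss_shift79 {k : Type u} [Field k] {V : Type u} [AddCommGroup V]
    [Module k V] {D : V → V} (hs : SS k D) (a : k) : SS k (fun v => D v - a • v) := by
  intro W hW
  obtain ⟨W', h1, h2⟩ := hs W (fun w hw => by
    have := W.add_mem (hW w hw) (W.smul_mem a hw)
    simpa using this)
  exact ⟨W', fun w hw => W'.sub_mem (h1 w hw) (W'.smul_mem a hw), h2⟩

/-- the connection on `V × V` -/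
def DD79 {k : Type u} [Field k] {V : Type u} [AddCommGroup V]
    [Module k V] (D : V → V) (a b : k) : YY79 V → YY79 V :=
  fun y => ((D y.1 + b • y.2, D y.2 - a • y.2) : V × V)

theorem conn_DD79 {k : Type u} [Field k] {δ : Derivation ℤ k k} {V : Type u} [AddCommGroup V]
    [Module k V] {D : V → V} (hD : IsConn δ D) (a b : k) : IsConn δ (DD79 D a b) := by
  have hD' := conn_shift79 hD a
  refine ⟨?_, ?_⟩
  · rintro ⟨v1, v2⟩ ⟨w1, w2⟩
    refine Prod.ext ?_ ?_
    · change D (v1 + w1) + b • (v2 + w2) = (D v1 + b • v2) + (D w1 + b • w2)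
      rw [hD.add, smul_add]; abel
    · exact hD'.add v2 w2
  · rintro c ⟨v1, v2⟩
    refine Prod.ext ?_ ?_
    · change D (c • v1) + b • (c • v2) = δ c • v1 + c • (D v1 + b • v2)
      rw [hD.smul, smul_add, smul_smul, smul_smul, mul_comm b c]; abel
    · exact hD'.smul c v2

/-- the connection on `Hom` -/
def DH79 {k : Type u} [Field k] {δ : Derivation ℤ k k} {V : Type u} [AddCommGroup V]
    [Module k V] {D D' : V → V} (hD : IsConn δ D) (hD' : IsConn δ D') (φ : V →ₗ[k] V) :
    V →ₗ[k] V where
  toFun v := D (φ v) - φ (D' v)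
  map_add' v w := by
    rw [map_add, hD.add, hD'.add, map_add]; abel
  map_smul' c v := by
    rw [map_smul, hD.smul, hD'.smul, map_add, map_smul, map_smul, RingHom.id_apply, smul_sub]
    abel


/-- constructor -/
def mk79 {V : Type u} (v s : V) : YY79 V := ((v, s) : V × V)

theorem mk79_add {V : Type u} [AddCommGroup V] (v s v' s' : V) :
    mk79 v s + mk79 v' s' = mk79 (v + v') (s + s') := rfl

theorem mk79_smul {k : Type u} [Field k] {V : Type u} [AddCommGroup V] [Module k V] (c : k) (v s : V) :
    c • mk79 v s = mk79 (c • v) (c • s) := rfl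

theorem mk79_DD {k : Type u} [Field k] {V : Type u} [AddCommGroup V]
    [Module k V] (D : V → V) (a b : k) (v s : V) :
    DD79 D a b (mk79 v s) = mk79 (D v + b • s) (D s - a • s) := rfl

theorem mk79_inj {V : Type u} {v s v' s' : V} (h : mk79 v s = mk79 v' s') : v = v' :=
  congrArg Prod.fst h

/-- inclusion -/
def inl79 (k : Type u) [Field k] (V : Type u) [AddCommGroup V] [Module k V] : V →ₗ[k] YY79 V where
  toFun v := mk79 v 0
  map_add' v w := by rw [mk79_add, add_zero]
  map_smul' c v := by rw [RingHom.id_apply, mk79_smul, smul_zero]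

theorem not_divisible_of_HB {k : Type u} [Field k] {δ : Derivation ℤ k k} {A : Type u} [Ring A]
    {d : A → ℕ} (he : Euclid A d) (h : DiffPoly δ A)
    (hss : ∀ {V W : Type u} [AddCommGroup V] [Module k V] [FiniteDimensional k V]
      [AddCommGroup W] [Module k W] [FiniteDimensional k W]
      {DV : V → V} {DW : W → W}, IsConn δ DV → IsConn δ DW →
      SS k DV → SS k DW → ∀ DH : (V →ₗ[k] W) → (V →ₗ[k] W),
      (∀ φ v, DH φ v = DW (φ v) - φ (DV v)) → SS k DH)
    (hfd : ∀ (V : Type u) [AddCommGroup V] [Module k V] [Module A V],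
      (∀ (a : k) (v : V), h.i a • v = a • v) → IsSimpleModule A V → FiniteDimensional k V)
    (hsub : ∀ (V : Type u) [AddCommGroup V] [Module k V] [Module A V],
      (∀ (a : k) (v : V), h.i a • v = a • v) → ∀ W : Submodule k V,
      (∀ w ∈ W, h.X • w ∈ W) → ∃ W' : Submodule A V, ∀ v, v ∈ W' ↔ v ∈ W)
    (hlin : ∀ (V W : Type u) [AddCommGroup V] [Module k V] [Module A V] [AddCommGroup W]
      [Module k W] [Module A W], (∀ (a : k) (v : V), h.i a • v = a • v) →
      (∀ (a : k) (v : W), h.i a • v = a • v) → ∀ f : V →ₗ[k] W,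
      (∀ v, f (h.X • v) = h.X • f v) → ∃ g : V →ₗ[A] W, ∀ v, g v = f v)
    (htomod : ∀ (V : Type u) [AddCommGroup V] [Module k V] (D : V → V), IsConn δ D →
      ∃ _ : Module A V, (∀ (a : k) (v : V), h.i a • v = a • v) ∧ ∀ v : V, h.X • v = D v)
    (hbaer : ∀ (E : Type u) [AddCommGroup E] [Module A E],
      (∀ p : A, p ≠ 0 → ∀ x : E, ∃ y : E, p • y = x) →
      ∀ (M N : Type u) [AddCommGroup M] [Module A M] [AddCommGroup N] [Module A N]
      (i : M →ₗ[A] N), Function.Injective i → ∀ g : M →ₗ[A] E, ∃ f : N →ₗ[A] E, f ∘ₗ i = g)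
    (a b : k) (hB : HB δ a b) (V : Type u) [AddCommGroup V] [Module A V]
    (hV : IsSimpleModule A V) : ∃ p : A, p ≠ 0 ∧ ∃ x : V, ∀ y : V, p • y ≠ x := by
  classical
  by_contra hcon
  have hdiv : ∀ p : A, p ≠ 0 → ∀ x : V, ∃ y : V, p • y = x := by
    intro p hp x
    by_contra hx
    exact hcon ⟨p, hp, x, fun y hy => hx ⟨y, hy⟩⟩
  letI : Module k V := Module.compHom V h.i
  have hk : ∀ (c : k) (v : V), h.i c • v = c • v := fun _ _ => rfl
  haveI : FiniteDimensional k V := hfd V hk hV
  haveI := hV
  haveI : Nontrivial V := IsSimpleModule.nontrivial A V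
  let D : V → V := fun v => h.X • v
  have hDX : ∀ v, h.X • v = D v := fun _ => rfl
  have hD : IsConn δ D := by
    refine ⟨fun v w => smul_add _ _ _, fun c v => ?_⟩
    change h.X • (h.i c • v) = h.i (δ c) • v + h.i c • (h.X • v)
    rw [smul_smul, smul_smul, h.comm, add_smul]
    abel
  have hssD : SS k D := by
    intro W hW
    obtain ⟨W', hW'⟩ := hsub V hk W hW
    rcases eq_bot_or_eq_top W' with h0 | h0
    · refine ⟨⊤, fun _ _ => Submodule.mem_top, ?_⟩
      have : W = ⊥ := by
        rw [Submodule.eq_bot_iff]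
        intro x hx
        have := (hW' x).2 hx
        rw [h0] at this
        simpa using this
      rw [this]
      exact isCompl_bot_top
    · refine ⟨⊥, fun w hw => ?_, ?_⟩
      · rw [Submodule.mem_bot] at hw ⊢
        rw [hw, hD.zero79]
      · have : W = ⊤ := by
          rw [Submodule.eq_top_iff']
          intro x
          rw [← hW', h0]
          exact Submodule.mem_top
        rw [this]
        exact isCompl_top_bot
  have hD' : IsConn δ (fun v => D v - a • v) := conn_shift79 hD a
  have hssD' : SS k (fun v => D v - a • v) := ss_shift79 hssD a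
  obtain ⟨mA, hmi, hmX⟩ := htomod (YY79 V) (DD79 D a b) (conn_DD79 hD a b)
  letI := mA
  obtain ⟨g', hg'⟩ := hlin V (YY79 V) hk hmi (inl79 k V) (fun v => by
    rw [hmX, hDX]
    change mk79 (D v) 0 = DD79 D a b (mk79 v 0)
    rw [mk79_DD, smul_zero, smul_zero, hD.zero79, add_zero, sub_zero])
  have hj : ∀ v, inl79 k V v = mk79 v 0 := fun _ => rfl
  have hinj : Function.Injective g' := by
    intro x y hxy
    rw [hg', hg', hj, hj] at hxy
    exact mk79_inj hxy
  obtain ⟨r, hr⟩ := hbaer V hdiv V (YY79 V) g' hinj LinearMap.id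
  have hr1 : ∀ v : V, r (mk79 v 0) = v := by
    intro v
    have := LinearMap.congr_fun hr v
    rw [LinearMap.comp_apply, hg', hj] at this
    exact this
  have hrk : ∀ (c : k) (y : YY79 V), r (c • y) = c • r y := by
    intro c y
    rw [← hmi, map_smul]
    rfl
  let g : V →ₗ[k] V :=
    { toFun := fun s => r (mk79 0 s)
      map_add' := fun s t => by
        rw [← map_add, mk79_add, add_zero]
      map_smul' := fun c s => by
        rw [RingHom.id_apply, ← hrk, mk79_smul, smul_zero] }
  have hg : ∀ s, g s = r (mk79 0 s) := fun _ => rfl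
  have hkey : ∀ s, D (g s) - g (D s - a • s) = b • s := by
    intro s
    have e1 : D (g s) = r (DD79 D a b (mk79 0 s)) := by
      rw [← hmX, map_smul]
      rfl
    have e2 : DD79 D a b (mk79 0 s) = mk79 (b • s) 0 + mk79 0 (D s - a • s) := by
      rw [mk79_DD, mk79_add, hD.zero79, zero_add, add_zero, zero_add]
    rw [e1, e2, map_add, hr1, hg]
    abel
  have hSSH := hss (V := V) (W := V) hD' hD hssD' hssD (DH79 hD hD') (fun φ v => rfl)
  have hDHid : ∀ c : k, DH79 hD hD' (c • LinearMap.id) = (δ c + a * c) • LinearMap.id := by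
    intro c
    ext v
    change D (c • v) - c • (D v - a • v) = (δ c + a * c) • v
    rw [hD.smul, smul_sub, add_smul, smul_smul, mul_comm a c]
    abel
  obtain ⟨L', hL', hcompl⟩ := hSSH (Submodule.span k {(LinearMap.id : V →ₗ[k] V)}) (by
    intro w hw
    obtain ⟨c, rfl⟩ := Submodule.mem_span_singleton.1 hw
    rw [hDHid]
    exact Submodule.smul_mem _ _ (Submodule.mem_span_singleton_self _))
  have hgtop : g ∈ (Submodule.span k {(LinearMap.id : V →ₗ[k] V)}) ⊔ L' := by
    rw [hcompl.sup_eq_top]
    exact Submodule.mem_top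
  obtain ⟨y, hy, z, hz, hyz⟩ := Submodule.mem_sup.1 hgtop
  obtain ⟨c, rfl⟩ := Submodule.mem_span_singleton.1 hy
  have hDHg : DH79 hD hD' g = b • LinearMap.id := by
    ext s
    exact hkey s
  have hadd : DH79 hD hD' (c • LinearMap.id + z) =
      DH79 hD hD' (c • LinearMap.id) + DH79 hD hD' z := by
    ext v
    change D (c • v + z v) - (c • (D v - a • v) + z (D v - a • v)) =
      (D (c • v) - c • (D v - a • v)) + (D (z v) - z (D v - a • v))
    rw [hD.add]
    abel
  rw [← hyz, hadd, hDHid] at hDHg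
  have hz2 : DH79 hD hD' z = (b - (δ c + a * c)) • LinearMap.id := by
    rw [sub_smul, ← hDHg]
    abel
  have hz3 : DH79 hD hD' z ∈ (Submodule.span k {(LinearMap.id : V →ₗ[k] V)}) := by
    rw [hz2]
    exact Submodule.smul_mem _ _ (Submodule.mem_span_singleton_self _)
  have hz4 : DH79 hD hD' z = 0 := by
    have := hcompl.disjoint
    rw [Submodule.disjoint_def] at this
    exact this _ hz3 (hL' z hz)
  rw [hz4] at hz2
  obtain ⟨v, hv⟩ := exists_ne (0 : V)
  have h5 := LinearMap.congr_fun hz2 v
  rw [LinearMap.zero_apply, LinearMap.smul_apply, LinearMap.id_apply] at h5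
  rcases smul_eq_zero.1 h5.symm with h6 | h6
  · exact hB.1 c (by rw [sub_eq_zero] at h6; exact h6.symm)
  · exact hv h6


end Cb
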