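import Pool.Agent.Helper462.Cb.Defs

namespace Cb

universe u


section
variable {k : Type u} [Field k] {δ : Derivation ℤ k k} {A : Type u} [Ring A]

theorem j21435_expand (h : DiffPoly δ A) (x : A) :
    ∃ p : ℕ →₀ k, x = p.sum fun n a => h.i a * h.X ^ n := by
  obtain ⟨p, hp⟩ := h.bij.2 x
  exact ⟨p, hp.symm⟩

theorem j21435_act (h : DiffPoly δ A) (V : Type u) [AddCommGroup V] [Module k V]
    [Module A V] (hV : ∀ (a : k) (v : V), h.i a • v = a • v) (p : ℕ →₀ k) (v : V) :
    (p.sum fun n a => h.i a * h.X ^ n) • v = ∑ n ∈ p.support, p n • (h.X ^ n • v) := by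
  rw [Finsupp.sum, Finset.sum_smul]
  refine Finset.sum_congr rfl fun n _ => ?_
  rw [mul_smul, hV]

theorem DiffPoly.isConn (h : DiffPoly δ A) (V : Type u) [AddCommGroup V] [Module k V]
    [Module A V] (hV : ∀ (a : k) (v : V), h.i a • v = a • v) :
    IsConn δ (fun v : V => h.X • v) := by
  refine ⟨fun v w => smul_add _ _ _, fun a v => ?_⟩
  show h.X • (a • v) = δ a • v + a • (h.X • v)
  rw [← hV a v, ← mul_smul, h.comm, add_smul, mul_smul, hV, hV, add_comm]

theorem DiffPoly.sub (h : DiffPoly δ A) (V : Type u) [AddCommGroup V] [Module k V]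
    [Module A V] (hV : ∀ (a : k) (v : V), h.i a • v = a • v) (W : Submodule k V)
    (hW : ∀ w ∈ W, h.X • w ∈ W) : ∃ W' : Submodule A V, ∀ v, v ∈ W' ↔ v ∈ W := by
  have hpow : ∀ n : ℕ, ∀ w ∈ W, h.X ^ n • w ∈ W := by
    intro n
    induction n with
    | zero => intro w hw; rw [pow_zero, one_smul]; exact hw
    | succ n ih => intro w hw; rw [pow_succ, mul_smul]; exact ih _ (hW w hw)
  refine ⟨{ carrier := W
            add_mem' := fun ha hb => W.add_mem ha hb
            zero_mem' := W.zero_mem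
            smul_mem' := ?_ }, fun v => Iff.rfl⟩
  intro x w hw
  obtain ⟨p, rfl⟩ := j21435_expand h x
  rw [j21435_act h V hV]
  exact W.sum_mem fun n _ => W.smul_mem _ (hpow n w hw)

theorem DiffPoly.lin (h : DiffPoly δ A) (V W : Type u) [AddCommGroup V] [Module k V]
    [Module A V] [AddCommGroup W] [Module k W] [Module A W]
    (hV : ∀ (a : k) (v : V), h.i a • v = a • v) (hW : ∀ (a : k) (v : W), h.i a • v = a • v)
    (f : V →ₗ[k] W) (hf : ∀ v, f (h.X • v) = h.X • f v) : ∃ g : V →ₗ[A] W, ∀ v, g v = f v := by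
  have hpow : ∀ n : ℕ, ∀ v, f (h.X ^ n • v) = h.X ^ n • f v := by
    intro n
    induction n with
    | zero => intro v; rw [pow_zero, one_smul, one_smul]
    | succ n ih => intro v; rw [pow_succ, mul_smul, ih, hf, mul_smul]
  refine ⟨{ toFun := f
            map_add' := f.map_add
            map_smul' := ?_ }, fun v => rfl⟩
  intro x v
  obtain ⟨p, rfl⟩ := j21435_expand h x
  rw [RingHom.id_apply, j21435_act h V hV, j21435_act h W hW, map_sum]
  refine Finset.sum_congr rfl fun n _ => ?_
  rw [map_smul, hpow]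

theorem DiffPoly.fd_of_simple (h : DiffPoly δ A) (V : Type u) [AddCommGroup V] [Module k V]
    [Module A V] (hV : ∀ (a : k) (v : V), h.i a • v = a • v) (hs : IsSimpleModule A V) :
    FiniteDimensional k V := by
  have hnt : Nontrivial V := IsSimpleModule.nontrivial A V
  obtain ⟨x, hx⟩ := exists_ne (0 : V)
  have claim : ∃ N : ℕ, h.X ^ (N + 1) • x ∈
      Submodule.span k (Set.range fun j : Fin (N + 1) => h.X ^ (j : ℕ) • x) := by
    by_cases h0 : h.X • x = 0
    · refine ⟨0, ?_⟩
      rw [zero_add, pow_one, h0]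
      exact Submodule.zero_mem _
    · obtain ⟨z, hz⟩ := IsSimpleModule.toSpanSingleton_surjective A h0 x
      have hz' : z • (h.X • x) = x := hz
      obtain ⟨p, rfl⟩ := j21435_expand h z
      rw [j21435_act h V hV] at hz'
      have hp : p ≠ 0 := by
        rintro rfl
        rw [Finsupp.support_zero, Finset.sum_empty] at hz'
        exact hx hz'.symm
      have hne : p.support.Nonempty := Finsupp.support_nonempty_iff.2 hp
      obtain ⟨N, hNdef⟩ : ∃ N, N = p.support.max' hne := ⟨_, rfl⟩
      have hN : N ∈ p.support := by rw [hNdef]; exact Finset.max'_mem _ _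
      refine ⟨N, ?_⟩
      have hpw : ∀ n : ℕ, h.X ^ (n + 1) • x = h.X ^ n • (h.X • x) := fun n => by
        rw [pow_succ, mul_smul]
      have h1 : p N • (h.X ^ (N + 1) • x) =
          x - ∑ n ∈ p.support.erase N, p n • (h.X ^ (n + 1) • x) := by
        rw [eq_sub_iff_add_eq]
        simp only [hpw]
        rw [Finset.add_sum_erase p.support (fun n => p n • (h.X ^ n • (h.X • x))) hN]
        exact hz'
      have hgen : ∀ n : ℕ, n < N + 1 → h.X ^ n • x ∈
          Submodule.span k (Set.range fun j : Fin (N + 1) => h.X ^ (j : ℕ) • x) :=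
        fun n hn => Submodule.subset_span ⟨⟨n, hn⟩, rfl⟩
      have h2 : x - ∑ n ∈ p.support.erase N, p n • (h.X ^ (n + 1) • x) ∈
          Submodule.span k (Set.range fun j : Fin (N + 1) => h.X ^ (j : ℕ) • x) := by
        refine Submodule.sub_mem _ ?_ (Submodule.sum_mem _ fun n hn => Submodule.smul_mem _ _ ?_)
        · have := hgen 0 (Nat.succ_pos N)
          rwa [pow_zero, one_smul] at this
        · apply hgen
          have h3 := Finset.mem_erase.1 hn
          have h4 : n ≤ N := by rw [hNdef]; exact Finset.le_max' _ _ h3.2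
          have h5 := h3.1
          omega
      rw [← h1] at h2
      exact (Submodule.smul_mem_iff _ (Finsupp.mem_support_iff.1 hN)).1 h2
  obtain ⟨N, hN⟩ := claim
  obtain ⟨W, hWdef⟩ : ∃ W : Submodule k V,
      W = Submodule.span k (Set.range fun j : Fin (N + 1) => h.X ^ (j : ℕ) • x) := ⟨_, rfl⟩
  rw [← hWdef] at hN
  have hstab : ∀ w ∈ W, h.X • w ∈ W := by
    intro w hw
    rw [hWdef] at hw
    induction hw using Submodule.span_induction with
    | mem w hw =>
      obtain ⟨j, rfl⟩ := hw
      show h.X • (h.X ^ (j : ℕ) • x) ∈ W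
      rw [← mul_smul, ← pow_succ']
      rcases Nat.lt_or_ge ((j : ℕ) + 1) (N + 1) with hj | hj
      · rw [hWdef]
        exact Submodule.subset_span ⟨⟨(j : ℕ) + 1, hj⟩, rfl⟩
      · have h5 : (j : ℕ) = N := by
          have := j.2
          omega
        rw [h5]
        exact hN
    | zero => rw [smul_zero]; exact W.zero_mem
    | add a b _ _ ha hb => rw [smul_add]; exact W.add_mem ha hb
    | smul c a ha' ha =>
      have h6 : h.X • (c • a) = δ c • a + c • (h.X • a) := (h.isConn V hV).smul c a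
      rw [h6]
      refine W.add_mem (W.smul_mem _ ?_) (W.smul_mem _ ha)
      rw [hWdef]
      exact ha'
  obtain ⟨W', hW'⟩ := h.sub V hV W hstab
  have hWtop : W' = ⊤ := by
    rcases eq_bot_or_eq_top W' with hb | ht
    · exfalso
      have h7 : x ∈ W' := by
        rw [hW', hWdef]
        exact Submodule.subset_span ⟨0, by simp⟩
      rw [hb] at h7
      exact hx ((Submodule.mem_bot A).1 h7)
    · exact ht
  have hW : W = ⊤ := by
    rw [Submodule.eq_top_iff']
    intro v
    rw [← hW', hWtop]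
    exact Submodule.mem_top
  have hfg : W.FG := by
    rw [hWdef]
    exact Submodule.fg_span (Set.finite_range _)
  rw [hW] at hfg
  exact Module.finite_def.2 hfg

theorem DiffPoly.simpleC (h : DiffPoly δ A) (V : Type u) [AddCommGroup V] [Module k V]
    [Module A V] (hV : ∀ (a : k) (v : V), h.i a • v = a • v) (hs : IsSimpleModule A V) :
    SimpleC k (fun v : V => h.X • v) := by
  have hnt : Nontrivial V := IsSimpleModule.nontrivial A V
  refine ⟨exists_ne (0 : V), fun W hW => ?_⟩
  obtain ⟨W', hW'⟩ := h.sub V hV W hW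
  rcases eq_bot_or_eq_top W' with hb | ht
  · left
    rw [Submodule.eq_bot_iff]
    intro v hv
    rw [← hW', hb] at hv
    exact (Submodule.mem_bot A).1 hv
  · right
    rw [Submodule.eq_top_iff']
    intro v
    rw [← hW', ht]
    exact Submodule.mem_top

/-- CHANGED: the hypothesis `h0` is added (without it the statement is false: `k = V = ℚ`,
`D v = 1` for all `v`). -/
theorem SimpleC.ss {V : Type u} [AddCommGroup V] [Module k V] {D : V → V} (h : SimpleC k D)
    (h0 : D 0 = 0) : SS k D := by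
  intro W hW
  rcases h.2 W hW with hb | ht
  · exact ⟨⊤, fun _ _ => Submodule.mem_top, by rw [hb]; exact isCompl_bot_top⟩
  · refine ⟨⊥, fun w hw => ?_, by rw [ht]; exact isCompl_top_bot⟩
    rw [(Submodule.mem_bot k).1 hw, h0]
    exact Submodule.zero_mem _

/-- evaluation of a skew polynomial -/
noncomputable def j21435_ev {B : Type u} [Ring B] (j : k →+* B) (Y : B) : (ℕ →₀ k) →+ B :=
  Finsupp.liftAddHom fun n => (AddMonoidHom.mulRight (Y ^ n)).comp j.toAddMonoidHom

theorem j21435_ev_apply {B : Type u} [Ring B] (j : k →+* B) (Y : B) (p : ℕ →₀ k) :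
    j21435_ev j Y p = p.sum fun n a => j a * Y ^ n := rfl

theorem j21435_ev_single {B : Type u} [Ring B] (j : k →+* B) (Y : B) (n : ℕ) (a : k) :
    j21435_ev j Y (Finsupp.single n a) = j a * Y ^ n := by
  rw [j21435_ev_apply, Finsupp.sum_single_index]
  rw [map_zero, zero_mul]

theorem j21435_ev_smul {B : Type u} [Ring B] (j : k →+* B) (Y : B) (a : k) (p : ℕ →₀ k) :
    j21435_ev j Y (a • p) = j a * j21435_ev j Y p := by
  induction p using Finsupp.induction_linear with
  | zero => rw [smul_zero, map_zero, mul_zero]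
  | add p q hp hq => rw [smul_add, map_add, map_add, hp, hq, mul_add]
  | single n b =>
    rw [Finsupp.smul_single, j21435_ev_single, j21435_ev_single, smul_eq_mul, map_mul, mul_assoc]

/-- left multiplication by the indeterminate on coefficients -/
noncomputable def j21435_M (δ : Derivation ℤ k k) : (ℕ →₀ k) →+ (ℕ →₀ k) :=
  Finsupp.liftAddHom fun n =>
    Finsupp.singleAddHom (n + 1) + (Finsupp.singleAddHom n).comp (δ : k →+ k)

theorem j21435_M_single (δ : Derivation ℤ k k) (n : ℕ) (b : k) :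
    j21435_M δ (Finsupp.single n b) = Finsupp.single (n + 1) b + Finsupp.single n (δ b) := by
  unfold j21435_M
  rw [Finsupp.liftAddHom_apply_single]
  rfl

theorem j21435_ev_M {B : Type u} [Ring B] (j : k →+* B) (Y : B)
    (hc : ∀ a, Y * j a = j a * Y + j (δ a)) (p : ℕ →₀ k) :
    j21435_ev j Y (j21435_M δ p) = Y * j21435_ev j Y p := by
  induction p using Finsupp.induction_linear with
  | zero => rw [map_zero, map_zero, mul_zero]
  | add p q hp hq => rw [map_add, map_add, map_add, hp, hq, mul_add]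
  | single n b =>
    rw [j21435_M_single, map_add, j21435_ev_single, j21435_ev_single, j21435_ev_single,
      ← mul_assoc, hc, add_mul, pow_succ', mul_assoc]

/-- every finite-dimensional connection comes from a module -/
theorem DiffPoly.toModule (h : DiffPoly δ A) (V : Type u) [AddCommGroup V] [Module k V]
    (D : V → V) (hD : IsConn δ D) : ∃ _ : Module A V, (∀ (a : k) (v : V), h.i a • v = a • v) ∧
      ∀ v : V, h.X • v = D v := by
  obtain ⟨ρ, hρ⟩ : ∃ ρ : k →+* AddMonoid.End V, ∀ a v, ρ a v = a • v :=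
    ⟨Module.toAddMonoidEnd k V, fun a v => rfl⟩
  have hD0 : D 0 = 0 := by
    have h1 := hD.add 0 0
    rw [add_zero] at h1
    exact left_eq_add.1 h1
  obtain ⟨Dm, hDm⟩ : ∃ Dm : AddMonoid.End V, ∀ v, Dm v = D v :=
    ⟨{ toFun := D, map_zero' := hD0, map_add' := hD.add }, fun v => rfl⟩
  have hc : ∀ a, Dm * ρ a = ρ a * Dm + ρ (δ a) := by
    intro a
    refine DFunLike.ext _ _ fun v => ?_
    show Dm (ρ a v) = ρ a (Dm v) + ρ (δ a) v
    rw [hρ, hρ, hρ, hDm, hDm, hD.smul, add_comm]
  have hbij : Function.Bijective (j21435_ev h.i h.X) := h.bij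
  obtain ⟨e, he⟩ : ∃ e : (ℕ →₀ k) ≃+ A, ∀ p, e p = j21435_ev h.i h.X p :=
    ⟨AddEquiv.ofBijective (j21435_ev h.i h.X) hbij, fun p => rfl⟩
  obtain ⟨Ψ, hΨ⟩ : ∃ Ψ : A →+ AddMonoid.End V, ∀ p, Ψ (j21435_ev h.i h.X p) = j21435_ev ρ Dm p := by
    refine ⟨(j21435_ev ρ Dm).comp e.symm.toAddMonoidHom, fun p => ?_⟩
    show j21435_ev ρ Dm (e.symm (j21435_ev h.i h.X p)) = _
    rw [← he, AddEquiv.symm_apply_apply]
  have hsurj : ∀ y : A, ∃ p, y = j21435_ev h.i h.X p := fun y => by
    obtain ⟨p, hp⟩ := hbij.2 y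
    exact ⟨p, hp.symm⟩
  have hΨi : ∀ (a : k) (y : A), Ψ (h.i a * y) = ρ a * Ψ y := by
    intro a y
    obtain ⟨p, rfl⟩ := hsurj y
    rw [← j21435_ev_smul, hΨ, hΨ, j21435_ev_smul]
  have hΨX : ∀ y : A, Ψ (h.X * y) = Dm * Ψ y := by
    intro y
    obtain ⟨p, rfl⟩ := hsurj y
    rw [← j21435_ev_M (δ := δ) h.i h.X h.comm, hΨ, hΨ, j21435_ev_M ρ Dm hc]
  have hΨXn : ∀ (n : ℕ) (y : A), Ψ (h.X ^ n * y) = Dm ^ n * Ψ y := by
    intro n
    induction n with
    | zero => intro y; rw [pow_zero, pow_zero, one_mul, one_mul]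
    | succ n ih => intro y; rw [pow_succ, mul_assoc, ih, hΨX, pow_succ, mul_assoc]
  have hΨmul : ∀ (p : ℕ →₀ k) (y : A), Ψ (j21435_ev h.i h.X p * y) = j21435_ev ρ Dm p * Ψ y := by
    intro p y
    induction p using Finsupp.induction_linear with
    | zero => rw [map_zero, map_zero, zero_mul, zero_mul, map_zero]
    | add p q hp hq => rw [map_add, map_add, add_mul, add_mul, map_add, hp, hq]
    | single n b =>
      rw [j21435_ev_single, j21435_ev_single, mul_assoc, hΨi, hΨXn, mul_assoc]
  have hone : Ψ 1 = 1 := by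
    have h1 : (1 : A) = j21435_ev h.i h.X (Finsupp.single 0 1) := by
      rw [j21435_ev_single, map_one, pow_zero, one_mul]
    rw [h1, hΨ, j21435_ev_single, map_one, pow_zero, one_mul]
  let Φ : A →+* AddMonoid.End V :=
    { toFun := Ψ
      map_one' := hone
      map_mul' := by
        intro x y
        obtain ⟨p, rfl⟩ := hsurj x
        rw [hΨmul, hΨ]
      map_zero' := map_zero Ψ
      map_add' := map_add Ψ }
  refine ⟨Module.compHom V Φ, ?_, ?_⟩
  · intro a v
    show Ψ (h.i a) v = a • v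
    have h1 := hΨi a 1
    rw [mul_one, hone, mul_one] at h1
    rw [h1, hρ]
  · intro v
    show Ψ h.X v = D v
    have h1 := hΨX 1
    rw [mul_one, hone, mul_one] at h1
    rw [h1, hDm]
end

end Cb
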