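import Pool.Agent.Helper462.Cb.Defs

namespace Cb

universe u


section
variable {A : Type u} [Ring A] {d : A → ℕ}

theorem Euclid.principal (h : Euclid A d) (I : Submodule A A) : ∃ g : A, I = Submodule.span A {g} := by
  classical
  by_cases hI : ∃ g ∈ I, g ≠ 0
  · have hex : ∃ n, ∃ g ∈ I, g ≠ 0 ∧ d g = n := by
      obtain ⟨g, hg, hg0⟩ := hI
      exact ⟨d g, g, hg, hg0, rfl⟩
    obtain ⟨g, hg, hg0, hgn⟩ := Nat.find_spec hex
    have hmin : ∀ r ∈ I, r ≠ 0 → ¬ d r < d g := by
      intro r hr hr0 hlt
      rw [hgn] at hlt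
      exact Nat.find_min hex hlt ⟨r, hr, hr0, rfl⟩
    refine ⟨g, le_antisymm ?_ ?_⟩
    · intro q hq
      obtain ⟨c, r, hqr, hr⟩ := h.left_div q g hg0
      have hrI : r ∈ I := by
        have h1 : r = q - c • g := by rw [hqr, smul_eq_mul]; abel
        rw [h1]
        exact I.sub_mem hq (I.smul_mem c hg)
      have hr0 : r = 0 := by
        by_contra hne
        rcases hr with hr | hr
        · exact hne hr
        · exact hmin r hrI hne hr
      rw [Submodule.mem_span_singleton]
      refine ⟨c, ?_⟩
      rw [hqr, hr0, add_zero, smul_eq_mul]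
    · rw [Submodule.span_singleton_le_iff_mem]
      exact hg
  · refine ⟨0, ?_⟩
    rw [Submodule.span_zero_singleton, eq_bot_iff]
    intro q hq
    rw [Submodule.mem_bot]
    by_contra hne
    exact hI ⟨q, hq, hne⟩

theorem Euclid.noeth (h : Euclid A d) : IsNoetherianRing A := by
  refine ⟨fun I => ?_⟩
  obtain ⟨g, hg⟩ := h.principal I
  rw [hg]
  exact Submodule.fg_span_singleton g

theorem Euclid.d_one (h : Euclid A d) : d (1 : A) = 0 := by
  have h1 := h.d_mul 1 1 h.nontriv h.nontriv
  rw [mul_one] at h1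
  omega

theorem Euclid.isUnit (h : Euclid A d) (a : A) (ha : a ≠ 0) (hd : d a = 0) : IsUnit a := by
  obtain ⟨x, r, hx, hr⟩ := h.right_div 1 a ha
  obtain ⟨y, s, hy, hs⟩ := h.left_div 1 a ha
  have hr0 : r = 0 := by
    rcases hr with hr | hr
    · exact hr
    · omega
  have hs0 : s = 0 := by
    rcases hs with hs | hs
    · exact hs
    · omega
  rw [hr0, add_zero] at hx
  rw [hs0, add_zero] at hy
  have hxy : y = x := by
    calc y = y * (a * x) := by rw [← hx, mul_one]
      _ = (y * a) * x := by rw [mul_assoc]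
      _ = x := by rw [← hy, one_mul]
  exact ⟨⟨a, x, hx.symm, by rw [← hxy]; exact hy.symm⟩, rfl⟩

theorem Euclid.isUnit_of_left (h : Euclid A d) {a y : A} (hy : y * a = 1) : IsUnit a := by
  have ha : a ≠ 0 := by
    rintro rfl
    rw [mul_zero] at hy
    exact h.nontriv hy.symm
  have hy0 : y ≠ 0 := by
    rintro rfl
    rw [zero_mul] at hy
    exact h.nontriv hy.symm
  have h1 := h.d_mul y a hy0 ha
  rw [hy, h.d_one] at h1
  exact h.isUnit a ha (by omega)

theorem Euclid.d_pos (h : Euclid A d) {a : A} (ha : a ≠ 0) (hu : ¬ IsUnit a) : 0 < d a := by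
  rcases Nat.eq_zero_or_pos (d a) with h0 | h0
  · exact absurd (h.isUnit a ha h0) hu
  · exact h0

theorem Euclid.cancel_left (h : Euclid A d) {a b c : A} (ha : a ≠ 0) (hh : a * b = a * c) :
    b = c := by
  by_contra hne
  have h1 : b - c ≠ 0 := sub_ne_zero.2 hne
  exact h.mul_ne a (b - c) ha h1 (by rw [mul_sub, hh, sub_self])

theorem Euclid.cancel_right (h : Euclid A d) {a b c : A} (ha : a ≠ 0) (hh : b * a = c * a) :
    b = c := by
  by_contra hne
  have h1 : b - c ≠ 0 := sub_ne_zero.2 hne
  exact h.mul_ne (b - c) a h1 ha (by rw [sub_mul, hh, sub_self])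

/-- strict inclusion of principal left ideals decreases the degree -/
theorem Euclid.d_lt_of_span_lt (h : Euclid A d) {g g' : A} (hg : g ≠ 0)
    (hlt : Submodule.span A {g} < Submodule.span A {g'}) :
    g' ≠ 0 ∧ d g' < d g := by
  have hmem : g ∈ Submodule.span A {g'} := hlt.le (Submodule.mem_span_singleton_self g)
  obtain ⟨y, hy⟩ := Submodule.mem_span_singleton.1 hmem
  rw [smul_eq_mul] at hy
  have hy0 : y ≠ 0 := by rintro rfl; rw [zero_mul] at hy; exact hg hy.symm
  have hg' : g' ≠ 0 := by rintro rfl; rw [mul_zero] at hy; exact hg hy.symm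
  have hyu : ¬ IsUnit y := by
    rintro ⟨u, rfl⟩
    have h1 : g' ∈ Submodule.span A {g} := by
      rw [Submodule.mem_span_singleton]
      refine ⟨((u⁻¹ : Aˣ) : A), ?_⟩
      rw [smul_eq_mul, ← hy, ← mul_assoc, Units.inv_mul, one_mul]
    exact absurd ((Submodule.span_singleton_le_iff_mem _ _).2 h1) (not_le_of_gt hlt)
  have h1 := h.d_mul y g' hy0 hg'
  rw [hy] at h1
  have h2 := h.d_pos hy0 hyu
  exact ⟨hg', by omega⟩

theorem Euclid.span_ne_top (h : Euclid A d) {a : A} (hu : ¬ IsUnit a) :
    Submodule.span A {a} ≠ ⊤ := by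
  intro htop
  have h1 : (1 : A) ∈ Submodule.span A {a} := by rw [htop]; exact Submodule.mem_top
  obtain ⟨y, hy⟩ := Submodule.mem_span_singleton.1 h1
  exact hu (h.isUnit_of_left hy)

theorem Euclid.ore (h : Euclid A d) (a b : A) (ha : a ≠ 0) (hb : b ≠ 0) :
    ∃ x y : A, x * a = y * b ∧ x * a ≠ 0 := by
  have key : ∀ n : ℕ, ∀ a b : A, a ≠ 0 → b ≠ 0 → d b = n →
      ∃ x y : A, x * a = y * b ∧ x * a ≠ 0 := by
    intro n
    induction n using Nat.strong_induction_on with
    | _ n ih =>
      intro a b ha hb hn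
      obtain ⟨c, r, hcr, hr⟩ := h.left_div a b hb
      by_cases hr0 : r = 0
      · refine ⟨1, c, ?_, ?_⟩
        · rw [one_mul]; rw [hr0, add_zero] at hcr; exact hcr
        · rw [one_mul]; exact ha
      · have hlt : d r < d b := hr.resolve_left hr0
        obtain ⟨x', y', hxy, hne⟩ := ih (d r) (by omega) b r hb hr0 rfl
        have hy' : y' ≠ 0 := by
          rintro rfl
          rw [zero_mul] at hxy
          exact hne hxy
        refine ⟨y', y' * c + x', ?_, h.mul_ne y' a hy' ha⟩
        rw [add_mul, hxy, mul_assoc, ← mul_add, ← hcr]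
  exact key (d b) a b ha hb rfl

theorem Euclid.right_gcd (h : Euclid A d) {n : ℕ} (q : Fin n → A) :
    ∃ (g : A) (u v : Fin n → A), g = ∑ i, q i * u i ∧ ∀ i, q i = g * v i := by
  classical
  by_cases hI : ∃ u : Fin n → A, ∑ i, q i * u i ≠ 0
  · have hex : ∃ m, ∃ u : Fin n → A, ∑ i, q i * u i ≠ 0 ∧ d (∑ i, q i * u i) = m := by
      obtain ⟨u, hu⟩ := hI
      exact ⟨_, u, hu, rfl⟩
    obtain ⟨u, hu0, hun⟩ := Nat.find_spec hex
    have hmin : ∀ w : Fin n → A, ∑ i, q i * w i ≠ 0 →
        ¬ d (∑ i, q i * w i) < d (∑ i, q i * u i) := by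
      intro w hw hlt
      rw [hun] at hlt
      exact Nat.find_min hex hlt ⟨w, hw, rfl⟩
    have hv : ∀ i, ∃ v : A, q i = (∑ j, q j * u j) * v := by
      intro i
      obtain ⟨c, r, hqr, hr⟩ := h.right_div (q i) _ hu0
      refine ⟨c, ?_⟩
      have hr0 : r = 0 := by
        by_contra hne
        have hr' := hr.resolve_left hne
        have h1 : r = ∑ j, q j * ((Pi.single i (1 : A) : Fin n → A) j - u j * c) := by
          have h2 : ∑ j, q j * ((Pi.single i (1 : A) : Fin n → A) j - u j * c)
              = ∑ j, q j * (Pi.single i (1 : A) : Fin n → A) j - (∑ j, q j * u j) * c := by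
            rw [Finset.sum_mul, ← Finset.sum_sub_distrib]
            refine Finset.sum_congr rfl fun j _ => ?_
            rw [mul_sub, mul_assoc]
          have h3 : ∑ j, q j * (Pi.single i (1 : A) : Fin n → A) j = q i := by
            rw [Finset.sum_eq_single i]
            · simp
            · intro j _ hj
              simp [Pi.single_eq_of_ne hj]
            · intro hi
              exact absurd (Finset.mem_univ i) hi
          rw [h2, h3, eq_sub_iff_add_eq, add_comm]
          exact hqr.symm
        rw [h1] at hne hr'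
        exact hmin _ hne hr'
      rw [hr0, add_zero] at hqr
      exact hqr
    choose v hv using hv
    exact ⟨_, u, v, rfl, hv⟩
  · push Not at hI
    refine ⟨0, 0, 0, by simp, ?_⟩
    intro i
    have h1 := hI (Pi.single i 1)
    rw [Finset.sum_eq_single i] at h1
    · simpa using h1
    · intro j _ hj
      simp [Pi.single_eq_of_ne hj]
    · intro hi
      exact absurd (Finset.mem_univ i) hi

/-- finitely generated torsion modules have finite length -/
theorem Euclid.fl_of_torsion (h : Euclid A d) (M : Type u) [AddCommGroup M] [Module A M]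
    [Module.Finite A M] (hM : ∀ x : M, ∃ p : A, p ≠ 0 ∧ p • x = 0) : IsFiniteLength A M := by
  classical
  haveI := h.noeth
  rw [isFiniteLength_iff_isNoetherian_isArtinian]
  refine ⟨inferInstance, ?_⟩
  have hcyc : ∀ p : A, p ≠ 0 → IsArtinian A (A ⧸ Submodule.span A {p}) := by
    intro p hp
    let g : Submodule A (A ⧸ Submodule.span A {p}) → A := fun N =>
      Classical.choose (h.principal (N.comap (Submodule.mkQ (Submodule.span A {p}))))
    have hg : ∀ N : Submodule A (A ⧸ Submodule.span A {p}),
        N.comap (Submodule.mkQ (Submodule.span A {p})) = Submodule.span A {g N} := fun N =>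
      Classical.choose_spec (h.principal (N.comap (Submodule.mkQ (Submodule.span A {p}))))
    have hg0 : ∀ N, g N ≠ 0 := by
      intro N hN
      have h1 : p ∈ N.comap (Submodule.mkQ (Submodule.span A {p})) := by
        have h2 : (Submodule.mkQ (Submodule.span A {p})) p = 0 :=
          (Submodule.Quotient.mk_eq_zero (Submodule.span A {p})).2
            (Submodule.mem_span_singleton_self p)
        rw [Submodule.mem_comap, h2]
        exact N.zero_mem
      rw [hg N, hN, Submodule.span_zero_singleton, Submodule.mem_bot] at h1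
      exact hp h1
    have hlt : ∀ N N' : Submodule A (A ⧸ Submodule.span A {p}), N < N' → d (g N') < d (g N) := by
      intro N N' hNN
      have h1 : N.comap (Submodule.mkQ (Submodule.span A {p}))
          < N'.comap (Submodule.mkQ (Submodule.span A {p})) :=
        Submodule.comap_strictMono_of_surjective (Submodule.mkQ_surjective _) hNN
      rw [hg N, hg N'] at h1
      exact (h.d_lt_of_span_lt (hg0 N) h1).2
    have hle : ∀ N, d (g N) ≤ d (g ⊥) := by
      intro N
      rcases eq_or_lt_of_le (bot_le : ⊥ ≤ N) with h1 | h1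
      · rw [← h1]
      · exact (hlt _ _ h1).le
    have hmono : ∀ N N' : Submodule A (A ⧸ Submodule.span A {p}), N < N' →
        d (g ⊥) - d (g N) < d (g ⊥) - d (g N') := by
      intro N N' hNN
      have h1 := hlt N N' hNN
      have h2 := hle N
      omega
    exact ⟨(Subrelation.wf (fun {a b} hab => hmono a b hab)
      (InvImage.wf (fun N : Submodule A (A ⧸ Submodule.span A {p}) => d (g ⊥) - d (g N))
        Nat.lt_wfRel.wf))⟩
  have hspan : ∀ x : M, IsArtinian A (Submodule.span A {x}) := by
    intro x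
    obtain ⟨p, hp, hpx⟩ := hM x
    haveI := hcyc p hp
    have hker : Submodule.span A {p} ≤ LinearMap.ker (LinearMap.toSpanSingleton A M x) := by
      rw [Submodule.span_singleton_le_iff_mem, LinearMap.mem_ker,
        LinearMap.toSpanSingleton_apply]
      exact hpx
    have h1 := isArtinian_range (Submodule.liftQ _ (LinearMap.toSpanSingleton A M x) hker)
    rw [Submodule.range_liftQ, LinearMap.range_toSpanSingleton] at h1
    exact h1
  obtain ⟨s, hs⟩ := (Module.Finite.fg_top : (⊤ : Submodule A M).FG)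
  have h2 : (⨆ x : s, Submodule.span A {(x : M)}) = ⊤ := by
    rw [← hs, ← Submodule.span_iUnion]
    congr 1
    ext x
    simp
  haveI : ∀ x : s, IsArtinian A (Submodule.span A {(x : M)}) := fun x => hspan x
  have h3 : IsArtinian A ↥(⨆ x : s, Submodule.span A {(x : M)}) := isArtinian_iSup
  rw [h2] at h3
  exact isArtinian_of_linearEquiv Submodule.topEquiv

/-- if `A` is not a division ring, modules of finite length are torsion -/
theorem Euclid.torsion_of_fl (h : Euclid A d) (hX : ∃ a : A, a ≠ 0 ∧ ¬ IsUnit a) (M : Type u)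
    [AddCommGroup M] [Module A M] (hM : IsFiniteLength A M) (x : M) :
    ∃ p : A, p ≠ 0 ∧ p • x = 0 := by
  classical
  by_contra hcon
  push Not at hcon
  obtain ⟨a, ha, hau⟩ := hX
  haveI : IsArtinian A M := (isFiniteLength_iff_isNoetherian_isArtinian.1 hM).2
  have hinj : Function.Injective (LinearMap.toSpanSingleton A M x) := by
    rw [← LinearMap.ker_eq_bot, eq_bot_iff]
    intro p hp
    rw [LinearMap.mem_ker, LinearMap.toSpanSingleton_apply] at hp
    rw [Submodule.mem_bot]
    by_contra hne
    exact hcon p hne hp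
  haveI : IsArtinian A A := isArtinian_of_injective _ hinj
  have hpow : ∀ n : ℕ, a ^ n ≠ 0 := by
    intro n
    induction n with
    | zero => rw [pow_zero]; exact h.nontriv
    | succ n ih => rw [pow_succ]; exact h.mul_ne _ _ ih ha
  have hanti : ∀ n : ℕ, Submodule.span A {a ^ (n + 1)} ≤ Submodule.span A {a ^ n} := by
    intro n
    rw [Submodule.span_singleton_le_iff_mem, Submodule.mem_span_singleton]
    exact ⟨a, by rw [smul_eq_mul, pow_succ']⟩
  let f : ℕ →o (Submodule A A)ᵒᵈ :=
    ⟨fun n => OrderDual.toDual (Submodule.span A {a ^ n}),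
      monotone_nat_of_le_succ (fun n => hanti n)⟩
  obtain ⟨n, hn⟩ := IsArtinian.monotone_stabilizes f
  have h1 : Submodule.span A {a ^ n} = Submodule.span A {a ^ (n + 1)} := hn (n + 1) (Nat.le_succ n)
  have h2 : a ^ n ∈ Submodule.span A {a ^ (n + 1)} := by
    rw [← h1]; exact Submodule.mem_span_singleton_self _
  obtain ⟨y, hy⟩ := Submodule.mem_span_singleton.1 h2
  rw [smul_eq_mul, pow_succ', ← mul_assoc] at hy
  have h3 : y * a = 1 := by
    apply h.cancel_right (hpow n)
    rw [one_mul]; exact hy
  exact hau (h.isUnit_of_left h3)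

/-- every nonzero element is a product of a unit and elements `p` with `A/Ap` simple -/
theorem Euclid.factor (h : Euclid A d) (P : A → Prop) (h1 : ∀ u, IsUnit u → P u)
    (hmul : ∀ a b, P a → P b → P (a * b))
    (hs : ∀ p, p ≠ 0 → IsSimpleModule A (A ⧸ Submodule.span A {p}) → P p) (a : A) (ha : a ≠ 0) :
    P a := by
  have key : ∀ n : ℕ, ∀ a : A, a ≠ 0 → d a = n → P a := by
    intro n
    induction n using Nat.strong_induction_on with
    | _ n ih =>
      intro a ha hn
      by_cases hu : IsUnit a
      · exact h1 a hu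
      by_cases hsim : IsSimpleModule A (A ⧸ Submodule.span A {a})
      · exact hs a ha hsim
      rw [isSimpleModule_iff_isCoatom] at hsim
      have hnt := h.span_ne_top hu
      have hex : ∃ I : Submodule A A, Submodule.span A {a} < I ∧ I ≠ ⊤ := by
        by_contra hcon
        push Not at hcon
        exact hsim ⟨hnt, fun I hI => hcon I hI⟩
      obtain ⟨I, hI, hItop⟩ := hex
      obtain ⟨g, rfl⟩ := h.principal I
      obtain ⟨hg0, hdlt⟩ := h.d_lt_of_span_lt ha hI
      have hmem : a ∈ Submodule.span A {g} := hI.le (Submodule.mem_span_singleton_self a)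
      obtain ⟨x, hx⟩ := Submodule.mem_span_singleton.1 hmem
      rw [smul_eq_mul] at hx
      have hx0 : x ≠ 0 := by rintro rfl; rw [zero_mul] at hx; exact ha hx.symm
      have hgu : ¬ IsUnit g := by
        rintro ⟨u, rfl⟩
        apply hItop
        rw [eq_top_iff]
        intro z _
        rw [Submodule.mem_span_singleton]
        exact ⟨z * ((u⁻¹ : Aˣ) : A), by rw [smul_eq_mul, mul_assoc, Units.inv_mul, mul_one]⟩
      have hdg := h.d_pos hg0 hgu
      have hda := h.d_mul x g hx0 hg0
      rw [hx] at hda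
      rw [← hx]
      exact hmul x g (ih (d x) (by omega) x hx0 rfl) (ih (d g) (by omega) g hg0 rfl)
  exact key (d a) a ha rfl

/-- `A/Ap` simple implies `pA` maximal among right ideals: for q not in pA, pA + qA = A -/
theorem Euclid.right_max (h : Euclid A d) (p : A) (hp0 : p ≠ 0)
    (hp : IsSimpleModule A (A ⧸ Submodule.span A {p})) (q : A) (hq : ∀ b, q ≠ p * b) :
    ∃ a b : A, p * a + q * b = 1 := by
  obtain ⟨g, u, v, hg, hv⟩ := h.right_gcd (![p, q] : Fin 2 → A)
  have hp1 : p = g * v 0 := hv 0
  have hq1 : q = g * v 1 := hv 1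
  have hg1 : g = p * u 0 + q * u 1 := by
    rw [hg, Fin.sum_univ_two]; rfl
  have hg0 : g ≠ 0 := by rintro rfl; rw [zero_mul] at hp1; exact hp0 hp1
  have hc0 : v 0 ≠ 0 := by intro h0; rw [h0, mul_zero] at hp1; exact hp0 hp1
  have hcu : ¬ IsUnit (v 0) := by
    rintro ⟨w, hw⟩
    apply hq (((w⁻¹ : Aˣ) : A) * v 1)
    rw [← mul_assoc]
    have h2 : p * ((w⁻¹ : Aˣ) : A) = g := by
      rw [hp1, ← hw, mul_assoc, Units.mul_inv, mul_one]
    rw [h2]; exact hq1
  have hle : Submodule.span A {p} ≤ Submodule.span A {v 0} := by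
    rw [Submodule.span_singleton_le_iff_mem, Submodule.mem_span_singleton]
    exact ⟨g, by rw [smul_eq_mul]; exact hp1.symm⟩
  rw [isSimpleModule_iff_isCoatom] at hp
  have heq : Submodule.span A {p} = Submodule.span A {v 0} := by
    rcases eq_or_lt_of_le hle with h2 | h2
    · exact h2
    · exact absurd (hp.2 _ h2) (h.span_ne_top hcu)
  have hmem : v 0 ∈ Submodule.span A {p} := by
    rw [heq]; exact Submodule.mem_span_singleton_self _
  obtain ⟨y, hy⟩ := Submodule.mem_span_singleton.1 hmem
  rw [smul_eq_mul] at hy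
  have h3 : g * y = 1 := by
    apply h.cancel_right hp0
    rw [one_mul, mul_assoc, hy]; exact hp1.symm
  refine ⟨u 0 * y, u 1 * y, ?_⟩
  rw [← mul_assoc, ← mul_assoc, ← add_mul, ← hg1]
  exact h3

theorem Euclid.exists_simple (h : Euclid A d) (hX : ∃ a : A, a ≠ 0 ∧ ¬ IsUnit a) :
    ∃ p : A, p ≠ 0 ∧ IsSimpleModule A (A ⧸ Submodule.span A {p}) := by
  by_contra hcon
  push Not at hcon
  obtain ⟨a, ha, hau⟩ := hX
  exact hau (h.factor (fun x => IsUnit x) (fun _ hu => hu) (fun _ _ hx hy => hx.mul hy)
    (fun p hp hsim => absurd hsim (hcon p hp)) a ha)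
end

end Cb
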