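import Pool.Agent.Helper462.Cb.Defs

namespace Cb

universe u


section
variable {A : Type u} [Ring A] {d : A → ℕ}

theorem Euclid.baer (h : Euclid A d)
    (hpr : ∀ I : Submodule A A, ∃ g : A, I = Submodule.span A {g})
    (E : Type u) [AddCommGroup E] [Module A E]
    (hE : ∀ p : A, p ≠ 0 → ∀ x : E, ∃ y : E, p • y = x)
    {M N : Type u} [AddCommGroup M] [Module A M] [AddCommGroup N] [Module A N]
    (i : M →ₗ[A] N) (hi : Function.Injective i) (g : M →ₗ[A] E) :
    ∃ f : N →ₗ[A] E, f ∘ₗ i = g := by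
  have hB : Module.Baer A E := by
    intro I f
    obtain ⟨g0, hg0⟩ := hpr I
    have hmem : g0 ∈ I := by
      rw [hg0]
      exact Submodule.mem_span_singleton_self g0
    by_cases h0 : g0 = 0
    · refine ⟨0, ?_⟩
      intro x hx
      have hx' : x ∈ Submodule.span A {g0} := by
        rw [← hg0]
        exact hx
      rw [h0, Submodule.mem_span_singleton] at hx'
      obtain ⟨a, ha⟩ := hx'
      rw [smul_zero] at ha
      have : (⟨x, hx⟩ : I) = 0 := Subtype.ext ha.symm
      rw [this, map_zero]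
      rfl
    · obtain ⟨y, hy⟩ := hE g0 h0 (f ⟨g0, hmem⟩)
      refine ⟨LinearMap.toSpanSingleton A E y, ?_⟩
      intro x hx
      have hx' : x ∈ Submodule.span A {g0} := by
        rw [← hg0]
        exact hx
      rw [Submodule.mem_span_singleton] at hx'
      obtain ⟨a, ha⟩ := hx'
      have h1 : (⟨x, hx⟩ : I) = a • ⟨g0, hmem⟩ := Subtype.ext ha.symm
      rw [h1, map_smul, ← hy, LinearMap.toSpanSingleton_apply, ← ha, smul_smul, smul_eq_mul]
  exact hB.extension_property i hi g

theorem Euclid.divisible_of_injective (h : Euclid A d)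
    (E : Type u) [AddCommGroup E] [Module A E]
    (hE : ∀ (M N : Type u) [AddCommGroup M] [Module A M] [AddCommGroup N] [Module A N]
      (i : M →ₗ[A] N), Function.Injective i → ∀ g : M →ₗ[A] E, ∃ f : N →ₗ[A] E, f ∘ₗ i = g)
    (p : A) (hp : p ≠ 0) (x : E) : ∃ y : E, p • y = x := by
  have hinj : Function.Injective (LinearMap.toSpanSingleton A A p) := by
    rw [← LinearMap.ker_eq_bot, LinearMap.ker_eq_bot']
    intro a ha
    rw [LinearMap.toSpanSingleton_apply, smul_eq_mul] at ha
    by_contra hne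
    exact h.mul_ne a p hne hp ha
  obtain ⟨f, hf⟩ := hE A A (LinearMap.toSpanSingleton A A p) hinj (LinearMap.toSpanSingleton A E x)
  refine ⟨f 1, ?_⟩
  have h1 := congrArg (fun L : A →ₗ[A] E => L 1) hf
  simp only [LinearMap.comp_apply, LinearMap.toSpanSingleton_apply, one_smul] at h1
  rw [← h1, ← map_smul, smul_eq_mul, mul_one]

theorem Euclid.exists_divisible (h : Euclid A d) (M : Type u) [AddCommGroup M] [Module A M] :
    ∃ (E : Type u) (_ : AddCommGroup E) (_ : Module A E) (i : M →ₗ[A] E), Function.Injective i ∧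
      ∀ p : A, p ≠ 0 → ∀ x : E, ∃ y : E, p • y = x := by
  obtain ⟨I, hI, f, hf⟩ := CategoryTheory.EnoughInjectives.presentation (ModuleCat.of A M)
  have hinj : Module.Injective A I := Module.injective_module_of_injective_object A I
  have hfi : Function.Injective f.hom := (ModuleCat.mono_iff_injective f).mp hf
  refine ⟨I, inferInstance, inferInstance, f.hom, hfi, ?_⟩
  intro p hp x
  apply h.divisible_of_injective I _ p hp x
  intro M' N' _ _ _ _ i hi g
  exact Module.Injective.extension_property A I M' N' i hi g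

/-- injective hull of a simple module -/
theorem Euclid.exists_simple_hull (h : Euclid A d)
    (hore : ∀ a b : A, a ≠ 0 → b ≠ 0 → ∃ x y : A, x * a = y * b ∧ x * a ≠ 0)
    (p : A) (hp0 : p ≠ 0) (hp : IsSimpleModule A (A ⧸ Submodule.span A {p})) :
    ∃ (E : Type u) (_ : AddCommGroup E) (_ : Module A E) (s : E), s ≠ 0 ∧ p • s = 0 ∧
      (∀ p : A, p ≠ 0 → ∀ x : E, ∃ y : E, p • y = x) ∧
      (∀ x : E, ∃ p : A, p ≠ 0 ∧ p • x = 0) ∧
      ∀ N : Submodule A E, N ≠ ⊥ → s ∈ N := by
  obtain ⟨E0, _, _, i, hi, hdiv⟩ := h.exists_divisible (A ⧸ Submodule.span A {p})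
  obtain ⟨s0, hs0⟩ : ∃ s0, s0 = i (Submodule.Quotient.mk 1) := ⟨_, rfl⟩
  have hs0ne : s0 ≠ 0 := by
    rw [hs0]
    intro h0
    have h1 : (Submodule.Quotient.mk 1 : A ⧸ Submodule.span A {p}) = 0 := by
      apply hi
      rw [h0, map_zero]
    have hnt : Nontrivial (A ⧸ Submodule.span A {p}) := IsSimpleModule.nontrivial A _
    obtain ⟨x, y, hxy⟩ := exists_pair_ne (A ⧸ Submodule.span A {p})
    apply hxy
    have h2 : ∀ z : A ⧸ Submodule.span A {p}, z = 0 := by
      intro z
      obtain ⟨z, rfl⟩ := Submodule.Quotient.mk_surjective _ z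
      have h3 : (Submodule.Quotient.mk z : A ⧸ Submodule.span A {p}) =
          z • Submodule.Quotient.mk 1 := by
        rw [← Submodule.Quotient.mk_smul, smul_eq_mul, mul_one]
      rw [h3, h1, smul_zero]
    rw [h2 x, h2 y]
  have hps0 : p • s0 = 0 := by
    rw [hs0, ← map_smul, ← Submodule.Quotient.mk_smul, smul_eq_mul, mul_one]
    have : (Submodule.Quotient.mk p : A ⧸ Submodule.span A {p}) = 0 := by
      rw [Submodule.Quotient.mk_eq_zero]
      exact Submodule.mem_span_singleton_self p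
    rw [this, map_zero]
  obtain ⟨N, -, hN⟩ := zorn_le_nonempty₀ {N : Submodule A E0 | s0 ∉ N} (by
    intro c hc hchain y hy
    refine ⟨sSup c, ?_, fun z hz => le_sSup hz⟩
    show s0 ∉ sSup c
    rw [Submodule.mem_sSup_of_directed ⟨y, hy⟩ hchain.directedOn]
    rintro ⟨z, hz, hz'⟩
    exact hc hz hz') ⊥ (by
      show s0 ∉ (⊥ : Submodule A E0)
      rw [Submodule.mem_bot]
      exact hs0ne)
  have hNs : s0 ∉ N := hN.prop
  have hmax : ∀ N' : Submodule A (E0 ⧸ N), N' ≠ ⊥ → Submodule.Quotient.mk s0 ∈ N' := by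
    intro N' hN'
    by_contra hcon
    apply hN'
    rw [Submodule.eq_bot_iff]
    intro y hy
    obtain ⟨y, rfl⟩ := Submodule.Quotient.mk_surjective _ y
    have h1 : N ≤ N'.comap N.mkQ := by
      intro z hz
      rw [Submodule.mem_comap, Submodule.mkQ_apply, (Submodule.Quotient.mk_eq_zero N).2 hz]
      exact N'.zero_mem
    have h2 := hN.le_of_ge (show N'.comap N.mkQ ∈ {N : Submodule A E0 | s0 ∉ N} from hcon) h1
    rw [Submodule.Quotient.mk_eq_zero]
    exact h2 hy
  have hsne : (Submodule.Quotient.mk s0 : E0 ⧸ N) ≠ 0 := by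
    intro h0
    exact hNs ((Submodule.Quotient.mk_eq_zero N).1 h0)
  have hps : p • (Submodule.Quotient.mk s0 : E0 ⧸ N) = 0 := by
    rw [← Submodule.Quotient.mk_smul, hps0, Submodule.Quotient.mk_zero]
  refine ⟨E0 ⧸ N, inferInstance, inferInstance, Submodule.Quotient.mk s0, hsne, hps, ?_, ?_, hmax⟩
  · intro q hq x
    obtain ⟨x, rfl⟩ := Submodule.Quotient.mk_surjective _ x
    obtain ⟨y, hy⟩ := hdiv q hq x
    refine ⟨Submodule.Quotient.mk y, ?_⟩
    rw [← Submodule.Quotient.mk_smul, hy]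
  · intro x
    by_cases hx : x = 0
    · exact ⟨1, h.nontriv, by rw [hx, smul_zero]⟩
    · have h1 := hmax (Submodule.span A {x}) (by
        rw [Ne, Submodule.span_singleton_eq_bot]
        exact hx)
      rw [Submodule.mem_span_singleton] at h1
      obtain ⟨a, ha⟩ := h1
      have ha0 : a ≠ 0 := by
        rintro rfl
        rw [zero_smul] at ha
        exact hsne ha.symm
      exact ⟨p * a, h.mul_ne p a hp0 ha0, by rw [mul_smul, ha, hps]⟩
end

end Cb
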