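import Pool.Agent.Helper462.Cb.Defs

namespace Cb

universe u

open Zg

section
variable {R : Type u} [Ring R] {ι : Type u} (F : Filter ι) (N : ι → Type u)
  [∀ i, AddCommGroup (N i)] [∀ i, Module R (N i)]

/-- the submodule of families vanishing eventually -/
def redK : Submodule R (∀ i, N i) where
  carrier := {x | ∀ᶠ i in F, x i = 0}
  add_mem' := by
    intro x y hx hy
    filter_upwards [hx, hy] with i h1 h2
    simp [h1, h2]
  zero_mem' := Filter.Eventually.of_forall fun _ => rfl
  smul_mem' := by
    intro r x hx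
    filter_upwards [hx] with i h1
    simp [h1]

theorem solvable_redK {m l : ℕ} (B : Fin l → Fin m → R) (c : Fin l → ∀ i, N i) :
    Solvable B (fun j => (redK (R := R) F N).mkQ (c j)) ↔
      ∀ᶠ i in F, Solvable B (fun j => c j i) := by
  classical
  constructor
  · rintro ⟨z, hz⟩
    choose w hw using fun i => (redK (R := R) F N).mkQ_surjective (z i)
    have h1 : ∀ j, ∀ᶠ i in F, ∑ k, B j k • w k i = c j i := by
      intro j
      have h2 : ∑ i, B j i • z i = (redK (R := R) F N).mkQ (c j) := hz j
      have h3 : (redK (R := R) F N).mkQ (∑ k, B j k • w k - c j) = 0 := by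
        rw [map_sub, map_sum, sub_eq_zero, ← h2]
        apply Finset.sum_congr rfl
        intro k _
        rw [map_smul, hw]
      rw [Submodule.mkQ_apply, Submodule.Quotient.mk_eq_zero] at h3
      have h4 : ∀ᶠ i in F, (∑ k, B j k • w k - c j) i = 0 := h3
      filter_upwards [h4] with i hi
      have h5 : (∑ k, B j k • w k) i - c j i = 0 := hi
      rw [Finset.sum_apply] at h5
      exact sub_eq_zero.mp h5
    have h6 := Filter.eventually_all.mpr h1
    filter_upwards [h6] with i hi
    exact ⟨fun k => w k i, hi⟩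
  · intro h
    let w : Fin m → ∀ i, N i := fun k i =>
      if h : Solvable B (fun j => c j i) then Classical.choose h k else 0
    refine ⟨fun k => (redK (R := R) F N).mkQ (w k), fun j => ?_⟩
    have h3 : (redK (R := R) F N).mkQ (∑ k, B j k • w k - c j) = 0 := by
      rw [Submodule.mkQ_apply, Submodule.Quotient.mk_eq_zero]
      change ∀ᶠ i in F, (∑ k, B j k • w k - c j) i = 0
      filter_upwards [h] with i hi
      change (∑ k, B j k • w k) i - c j i = 0
      rw [Finset.sum_apply, sub_eq_zero]
      have h4 : ∑ k, B j k • Classical.choose hi k = c j i := Classical.choose_spec hi j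
      rw [← h4]
      apply Finset.sum_congr rfl
      intro k _
      change B j k • w k i = _
      simp only [w, dif_pos hi]
    rw [map_sub, map_sum, sub_eq_zero] at h3
    change ∑ k, B j k • (redK (R := R) F N).mkQ (w k) = (redK (R := R) F N).mkQ (c j)
    rw [← h3]
    apply Finset.sum_congr rfl
    intro k _
    rw [map_smul]

theorem mem_sol_redK (θ : PPFormula R) (x : ∀ i, N i) :
    (redK (R := R) F N).mkQ x ∈ θ.sol ((∀ i, N i) ⧸ redK (R := R) F N) ↔
      ∀ᶠ i in F, x i ∈ θ.sol (N i) := by
  have h := solvable_redK F N θ.B (fun j => θ.a j • x)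
  have h1 : (fun j => (redK (R := R) F N).mkQ (θ.a j • x))
      = (fun j => θ.a j • (redK (R := R) F N).mkQ x) := by
    funext j
    rw [map_smul]
  rw [h1] at h
  exact h

theorem sol_subset_redK (θ θ' : PPFormula R) (h : ∀ᶠ i in F, θ.sol (N i) ⊆ θ'.sol (N i)) :
    θ.sol ((∀ i, N i) ⧸ redK (R := R) F N) ⊆ θ'.sol ((∀ i, N i) ⧸ redK (R := R) F N) := by
  intro v hv
  obtain ⟨x, rfl⟩ := (redK (R := R) F N).mkQ_surjective v
  rw [mem_sol_redK] at hv ⊢
  filter_upwards [h, hv] with i h1 h2
  exact h1 h2
end

end Cb
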