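import Pool.Agent.Helper462.Zg.Exist
import Pool.Agent.Helper462.Cb.ZR

/-!
# Existence of indecomposable pure-injectives in a closed set, and hulls of elements
-/

namespace Cb

open Zg

universe u

variable {R : Type u} [Ring R]

/-- all implications in `T` hold in `Q` -/
def Cl (T : Set (PPFormula R × PPFormula R)) (Q : Type u) [AddCommGroup Q] [Module R Q] : Prop :=
  ∀ p ∈ T, p.1.sol Q ⊆ p.2.sol Q

section Reduced

variable {P : Type u} [AddCommGroup P] [Module R P]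

theorem exists_reduced_cl (T : Set (PPFormula R × PPFormula R)) {c : Set (Set (Sys R P))}
    (hc : IsChain (· ⊆ ·) c) (hne : c.Nonempty)
    (h : ∀ D ∈ c, ∃ F : HomFrom R P, Cl T F.Q ∧ Delta F.g = D) :
    ∃ F : HomFrom R P, Cl T F.Q ∧ Delta F.g = ⋃₀ c := by
  classical
  choose F hF hFD using (fun D : c => h D.1 D.2)
  have hdir : IsDirected c (· ≤ ·) := ⟨fun a b => by
    rcases hc.total a.2 b.2 with h | h
    · exact ⟨b, h, le_rfl⟩
    · exact ⟨a, le_rfl, h⟩⟩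
  have hnec : Nonempty c := ⟨⟨hne.some, hne.some_mem⟩⟩
  let g : P →ₗ[R] (∀ D : c, (F D).Q) := LinearMap.pi (fun D => (F D).g)
  let K := redK (R := R) (Filter.atTop : Filter c) (fun D : c => (F D).Q)
  refine ⟨⟨(∀ D : c, (F D).Q) ⧸ K, K.mkQ ∘ₗ g⟩, ?_, ?_⟩
  · intro p hp
    exact sol_subset_redK _ _ p.1 p.2 (Filter.Eventually.of_forall fun D => hF D p hp)
  · ext χ
    have h1 := solvable_redK (R := R) (Filter.atTop : Filter c) (fun D : c => (F D).Q) χ.B
      (fun j => g (χ.c j))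
    change Solvable χ.B (fun j => K.mkQ (g (χ.c j))) ↔ _
    rw [h1, Filter.eventually_atTop]
    constructor
    · rintro ⟨D, hD⟩
      have h2 : χ ∈ Delta (F D).g := hD D le_rfl
      rw [hFD] at h2
      exact ⟨D.1, D.2, h2⟩
    · rintro ⟨D, hD, hχ⟩
      refine ⟨⟨D, hD⟩, fun D' hD' => ?_⟩
      have h2 : χ ∈ Delta (F D').g := by
        rw [hFD]
        exact hD' hχ
      exact h2

theorem exists_maximal_hom_cl (T : Set (PPFormula R × PPFormula R)) (Φ : Set (Sys R P))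
    {Q₀ : Type u} [AddCommGroup Q₀] [Module R Q₀] (hQ₀ : Cl T Q₀)
    (g₀ : P →ₗ[R] Q₀) (h₀ : Avoids Φ g₀) :
    ∃ F : HomFrom R P, Cl T F.Q ∧ Avoids Φ F.g ∧ Delta g₀ ⊆ Delta F.g ∧
      ∀ (Q' : Type u) [AddCommGroup Q'] [Module R Q'] (g' : P →ₗ[R] Q'), Cl T Q' →
        Avoids Φ g' → Delta F.g ⊆ Delta g' → Delta g' ⊆ Delta F.g := by
  let S : Set (Set (Sys R P)) :=
    {D | (∃ F : HomFrom R P, Cl T F.Q ∧ Delta F.g = D) ∧ ∀ χ ∈ Φ, χ ∉ D}
  have key : ∀ c ⊆ S, IsChain (· ⊆ ·) c → c.Nonempty → ∃ ub ∈ S, ∀ s ∈ c, s ⊆ ub := by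
    intro c hcS hc hne
    refine ⟨⋃₀ c, ⟨exists_reduced_cl T hc hne (fun D hD => (hcS hD).1), ?_⟩,
      fun s hs => Set.subset_sUnion_of_mem hs⟩
    rintro χ hχ ⟨D, hD, hχD⟩
    exact (hcS hD).2 χ hχ hχD
  have hx : Delta g₀ ∈ S := ⟨⟨⟨Q₀, g₀⟩, hQ₀, rfl⟩, h₀⟩
  obtain ⟨D, hsub, hmax⟩ := zorn_subset_nonempty S key (Delta g₀) hx
  obtain ⟨⟨F, hFT, hF⟩, hΦ⟩ := hmax.prop
  refine ⟨F, hFT, ?_, ?_, ?_⟩
  · intro χ hχ
    rw [hF]
    exact hΦ χ hχ
  · rw [hF]
    exact hsub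
  · intro Q' _ _ g' hQ' h1 h2
    rw [hF] at h2 ⊢
    exact hmax.le_of_ge ⟨⟨⟨Q', g'⟩, hQ', rfl⟩, h1⟩ h2

end Reduced

section Small

variable {P : Type u} [AddCommGroup P] [Module R P]

/-- `W` is small for `Φ`: every homomorphism avoiding `Φ` reflects solvability of systems with
constants in `W`. -/
def SmallT (T : Set (PPFormula R × PPFormula R)) (Φ : Set (Sys R P)) (W : Submodule R P) : Prop :=
  ∀ (Q : Type u) [AddCommGroup Q] [Module R Q] (g : P →ₗ[R] Q), Cl T Q → Avoids Φ g →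
    ∀ χ : Sys R P, (∀ j, χ.c j ∈ W) → χ ∈ Delta g → χ ∈ Delta (LinearMap.id : P →ₗ[R] P)

theorem exists_maximal_smallT (T : Set (PPFormula R × PPFormula R)) (Φ : Set (Sys R P)) (W₀ : Submodule R P) (h₀ : SmallT T Φ W₀) :
    ∃ W : Submodule R P, W₀ ≤ W ∧ SmallT T Φ W ∧ ∀ W' : Submodule R P, SmallT T Φ W' → W ≤ W' →
      W' ≤ W := by
  have key : ∀ c ⊆ {W : Submodule R P | SmallT T Φ W}, IsChain (· ≤ ·) c → ∀ y ∈ c,
      ∃ ub ∈ {W : Submodule R P | SmallT T Φ W}, ∀ z ∈ c, z ≤ ub := by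
    intro c hcS hc y hy
    refine ⟨sSup c, ?_, fun z hz => le_sSup hz⟩
    intro Q _ _ g hQT hg χ hχ hD
    have hdir : DirectedOn (· ≤ ·) c := hc.directedOn
    have hmem : ∀ j, ∃ V ∈ c, χ.c j ∈ V := fun j =>
      (Submodule.mem_sSup_of_directed ⟨y, hy⟩ hdir).1 (hχ j)
    choose V hVc hV using hmem
    have hbound : ∃ V₀ ∈ c, ∀ j, V j ≤ V₀ := by
      have : ∀ (l : ℕ) (V : Fin l → Submodule R P), (∀ j, V j ∈ c) → ∃ V₀ ∈ c, ∀ j, V j ≤ V₀ := by
        intro l
        induction l with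
        | zero => exact fun V _ => ⟨y, hy, fun j => j.elim0⟩
        | succ l ih =>
          intro V hV
          obtain ⟨V₀, hV₀, h₀⟩ := ih (fun j => V j.castSucc) (fun j => hV _)
          obtain ⟨V₁, hV₁, h1, h2⟩ := hdir V₀ hV₀ (V (Fin.last l)) (hV _)
          refine ⟨V₁, hV₁, fun j => ?_⟩
          refine Fin.lastCases ?_ (fun j => ?_) j
          · exact h2
          · exact (h₀ j).trans h1
      exact this _ V hVc
    obtain ⟨V₀, hV₀, hle⟩ := hbound
    exact hcS hV₀ Q g hQT hg χ (fun j => hle j (hV j)) hD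
  obtain ⟨W, hle, hmax⟩ := zorn_le_nonempty₀ _ key W₀ h₀
  exact ⟨W, hle, hmax.prop, fun W' h1 h2 => hmax.le_of_ge h1 h2⟩

/-- a maximal small submodule containing the constants of `Φ` is a direct summand -/
theorem exists_retraction_cl (T : Set (PPFormula R × PPFormula R)) (hPT : Cl T P) (hP : IsPureInjective R P) (Φ : Set (Sys R P))
    (hΦ : Avoids Φ (LinearMap.id : P →ₗ[R] P)) (W : Submodule R P) (hW : SmallT T Φ W)
    (hmax : ∀ W' : Submodule R P, SmallT T Φ W' → W ≤ W' → W' ≤ W)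
    (hc : ∀ χ ∈ Φ, ∀ j, χ.c j ∈ W) :
    ∃ g : P →ₗ[R] P, (∀ w ∈ W, g w = w) ∧ LinearMap.range g = W := by
  obtain ⟨F, hFT, hF, -, hFmax⟩ := exists_maximal_hom_cl T Φ hPT (LinearMap.id : P →ₗ[R] P) hΦ
  obtain ⟨s, hs⟩ := exists_section hP W F.g (hW F.Q F.g hFT hF)
  let g := s ∘ₗ F.g
  have hg : ∀ w ∈ W, g w = w := hs
  have hav : ∀ {Q : Type u} [AddCommGroup Q] [Module R Q] (h : P →ₗ[R] Q), Avoids Φ h →
      Avoids Φ (h ∘ₗ g) := by
    intro Q _ _ h hh χ hχ hD
    refine hh χ hχ ?_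
    obtain ⟨z, hz⟩ := hD
    refine ⟨z, fun j => ?_⟩
    rw [hz j]
    change h (g (χ.c j)) = h (χ.c j)
    rw [hg _ (hc χ hχ j)]
  have hsmall : SmallT T Φ (LinearMap.range g) := by
    intro Q' _ _ h hQT hh χ hχ hD
    choose p hp using hχ
    let χ' : Sys R P := ⟨χ.m, χ.l, χ.B, p⟩
    have h1 : χ' ∈ Delta (h ∘ₗ g) := by
      obtain ⟨z, hz⟩ := hD
      refine ⟨z, fun j => ?_⟩
      change _ = h (g (p j))
      rw [hp j]
      exact hz j
    have h2 : Delta F.g ⊆ Delta (h ∘ₗ g) := by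
      change Delta F.g ⊆ Delta ((h ∘ₗ s) ∘ₗ F.g)
      exact Delta_mono _ _
    have h3 := hFmax Q' (h ∘ₗ g) hQT (hav h hh) h2 h1
    have h4 : χ' ∈ Delta g := Delta_mono F.g s h3
    obtain ⟨z, hz⟩ := h4
    refine ⟨z, fun j => ?_⟩
    change _ = χ.c j
    rw [← hp j]
    exact hz j
  have hle : W ≤ LinearMap.range g := fun w hw => ⟨w, hg w hw⟩
  exact ⟨g, hg, le_antisymm (hmax _ hsmall hle) hle⟩

end Small

section

/-- **Existence of indecomposable pure-injectives** (Ziegler). -/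
theorem exists_indecomposable_cl (T : Set (PPFormula R × PPFormula R)) (k : Type u) [Field k] [Algebra k R] {Y : Type u} [AddCommGroup Y]
    [Module R Y] (hYT : Cl T Y) (χ₀ : Sys R Y) (hχ₀ : ¬ Solvable χ₀.B χ₀.c) :
    ∃ F : HomFrom R Y, Cl T F.Q ∧ IsPureInjective R F.Q ∧ IsIndecomposable R F.Q ∧
      ¬ Solvable χ₀.B (fun j => F.g (χ₀.c j)) := by
  classical
  obtain ⟨F, hFT, hF, -, hFmax⟩ := exists_maximal_hom_cl T {χ₀} hYT (LinearMap.id : Y →ₗ[R] Y)
    (by rintro χ rfl h; exact hχ₀ h)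
  obtain ⟨⟨P, κ⟩, hκ, hP, hPP⟩ := exists_pureInjective (R := R) k F.Q
  simp only at κ hκ hP hPP
  have hPT : Cl T P := fun p hp => hPP p.1 p.2 (hFT p hp)
  let f : Y →ₗ[R] P := κ ∘ₗ F.g
  let χ₁ : Sys R P := ⟨χ₀.m, χ₀.l, χ₀.B, fun j => f (χ₀.c j)⟩
  have hΦ : Avoids {χ₁} (LinearMap.id : P →ₗ[R] P) := by
    rintro χ rfl h
    exact hF χ₀ rfl (hκ.2 _ _ _ _ h)
  have hsmall : SmallT T {χ₁} (LinearMap.range f) := by
    intro Q' _ _ h hQT hh χ hχ hD
    choose y hy using hχ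
    let χ' : Sys R Y := ⟨χ.m, χ.l, χ.B, y⟩
    have h1 : χ' ∈ Delta (h ∘ₗ f) := by
      obtain ⟨z, hz⟩ := hD
      refine ⟨z, fun j => ?_⟩
      change _ = h (f (y j))
      rw [hy j]
      exact hz j
    have h2 : Avoids {χ₀} (h ∘ₗ f) := by
      rintro χ rfl h
      exact hh χ₁ rfl h
    have h3 : χ' ∈ Delta F.g := hFmax Q' (h ∘ₗ f) hQT h2 (Delta_mono F.g (h ∘ₗ κ)) h1
    obtain ⟨z, hz⟩ := Delta_mono F.g κ h3
    refine ⟨z, fun j => ?_⟩
    change _ = χ.c j
    rw [← hy j]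
    exact hz j
  obtain ⟨W, hW0, hW, hmax⟩ := exists_maximal_smallT T {χ₁} (LinearMap.range f) hsmall
  have hcW : ∀ j, f (χ₀.c j) ∈ W := fun j => hW0 ⟨_, rfl⟩
  obtain ⟨g, hg, hgr⟩ := exists_retraction_cl T hPT hP {χ₁} hΦ W hW hmax (by
    rintro χ rfl j
    exact hcW j)
  let r : P →ₗ[R] W := LinearMap.codRestrict W g (fun x => by rw [← hgr]; exact ⟨x, rfl⟩)
  have hr : r ∘ₗ W.subtype = LinearMap.id := by
    ext w
    exact hg w w.2
  have hrW : ∀ w : W, r w = w := fun w => LinearMap.congr_fun hr w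
  have hzero : ∀ (h : P →ₗ[R] P), Avoids {χ₁} h → ∀ w ∈ W, h w = 0 → w = 0 := by
    intro h hh w hw h0
    obtain ⟨z, hz⟩ := hW P h hPT hh ⟨0, 1, fun _ i => i.elim0, fun _ => w⟩ (fun _ => hw)
      ⟨fun i => i.elim0, fun j => by simp [h0]⟩
    simpa using (hz 0).symm
  have hWT : Cl T W := by
    intro p hp v hv
    have h1 := mem_sol_map p.2 r (hPT p hp (mem_sol_map p.1 W.subtype hv))
    have h2 : r (W.subtype v) = v := hrW v
    rwa [h2] at h1
  refine ⟨⟨W, r ∘ₗ f⟩, hWT, hP.retract W.subtype r hr, ⟨?_, ?_⟩, ?_⟩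
  · by_contra hnt
    rw [not_nontrivial_iff_subsingleton] at hnt
    refine hΦ χ₁ rfl ⟨fun _ => 0, fun j => ?_⟩
    have : (⟨f (χ₀.c j), hcW j⟩ : W) = 0 := Subsingleton.elim _ _
    have h2 : f (χ₀.c j) = 0 := congrArg Subtype.val this
    simp [χ₁, h2]
  · intro N₁ N₂ hN
    let p₁ : W →ₗ[R] W := N₁.subtype ∘ₗ N₁.projectionOnto N₂ hN
    let p₂ : W →ₗ[R] W := N₂.subtype ∘ₗ N₂.projectionOnto N₁ hN.symm
    have hsum : ∀ w : W, p₁ w + p₂ w = w := by
      intro w
      have := LinearMap.congr_fun (Submodule.projection_add_projection_eq_id hN) w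
      simpa [p₁, p₂] using this
    let h₁ : P →ₗ[R] P := W.subtype ∘ₗ p₁ ∘ₗ r
    let h₂ : P →ₗ[R] P := W.subtype ∘ₗ p₂ ∘ₗ r
    have hh : ∀ w ∈ W, h₁ w + h₂ w = w := by
      intro w hw
      have h1 : r w = ⟨w, hw⟩ := hrW ⟨w, hw⟩
      have h2 := hsum ⟨w, hw⟩
      have h3 := congrArg Subtype.val h2
      simpa [h₁, h₂, h1] using h3
    by_cases h1 : χ₁ ∈ Delta h₁
    · by_cases h2 : χ₁ ∈ Delta h₂
      · exfalso
        refine hΦ χ₁ rfl ?_
        have h3 := Solvable.add h1 h2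
        have h4 : (fun j => h₁ (χ₁.c j) + h₂ (χ₁.c j)) =
            fun j => (LinearMap.id : P →ₗ[R] P) (χ₁.c j) := by
          funext j
          exact hh _ (hcW j)
        rw [h4] at h3
        exact h3
      · left
        rw [Submodule.eq_bot_iff]
        intro x hx
        have h3 : p₂ x = 0 := by
          change ((N₂.projectionOnto N₁ hN.symm x : N₂) : W) = 0
          rw [(Submodule.projectionOnto_apply_eq_zero_iff hN.symm).2 hx]
          rfl
        have h4 : h₂ (x : P) = 0 := by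
          change ((p₂ (r (x : P)) : W) : P) = 0
          rw [hrW x, h3]
          rfl
        have := hzero h₂ (by rintro χ rfl; exact h2) x x.2 h4
        exact Subtype.ext this
    · right
      rw [Submodule.eq_bot_iff]
      intro x hx
      have h3 : p₁ x = 0 := by
        change ((N₁.projectionOnto N₂ hN x : N₁) : W) = 0
        rw [(Submodule.projectionOnto_apply_eq_zero_iff hN).2 hx]
        rfl
      have h4 : h₁ (x : P) = 0 := by
        change ((p₁ (r (x : P)) : W) : P) = 0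
        rw [hrW x, h3]
        rfl
      have := hzero h₁ (by rintro χ rfl; exact h1) x x.2 h4
      exact Subtype.ext this
  · intro hcon
    refine hΦ χ₁ rfl ?_
    have h1 := Solvable.map hcon W.subtype
    have h2 : (fun j => W.subtype ((r ∘ₗ f) (χ₀.c j))) =
        fun j => (LinearMap.id : P →ₗ[R] P) (χ₁.c j) := by
      funext j
      exact hg _ (hcW j)
    rw [h2] at h1
    exact h1

/-- existence of a point of a closed set in a basic open set -/
theorem exists_point_cl (k : Type u) [Field k] [Algebra k R]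
    (T : Set (PPFormula R × PPFormula R)) (Y : Type u) [AddCommGroup Y] [Module R Y]
    (φ ψ : PPFormula R) (hT : ∀ p ∈ T, p.1.sol Y ⊆ p.2.sol Y) (hn : ¬ φ.sol Y ⊆ ψ.sol Y) :
    ∃ N : IndecPureInjective R, (∀ p ∈ T, p.1.sol N.carrier ⊆ p.2.sol N.carrier) ∧
      ¬ φ.sol N.carrier ⊆ ψ.sol N.carrier := by
  obtain ⟨v, hv, hv'⟩ := Set.not_subset.1 hn
  obtain ⟨F, hFT, hFp, hFi, hF⟩ := exists_indecomposable_cl T k hT
    (⟨ψ.m, ψ.l, ψ.B, fun j => ψ.a j • v⟩ : Sys R Y) hv'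
  refine ⟨⟨F.Q, hFp, hFi⟩, hFT, ?_⟩
  intro hcon
  refine hF ?_
  have h1 : F.g v ∈ ψ.sol F.Q := hcon (mem_sol_map φ F.g hv)
  have h2 : Solvable ψ.B (fun j => ψ.a j • F.g v) := h1
  simpa using h2

/-- a hom out of an indecomposable pure-injective module which preserves the pp type of a nonzero
element is a pure embedding -/
theorem star {N Q : Type u} [AddCommGroup N] [Module R N] [AddCommGroup Q] [Module R Q]
    (hN : IsPureInjective R N) (hNi : IsIndecomposable R N) (x : N) (hx : x ≠ 0) (h : N →ₗ[R] Q)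
    (hh : ∀ θ : PPFormula R, h x ∈ θ.sol Q → x ∈ θ.sol N) : IsPureEmbedding h := by
  classical
  let W₀ : Submodule R N := Submodule.span R {x}
  let Φ : Set (Sys R N) := {χ | (∀ j, χ.c j ∈ W₀) ∧ χ ∉ Delta (LinearMap.id : N →ₗ[R] N)}
  have hΦ : Avoids Φ (LinearMap.id : N →ₗ[R] N) := fun χ hχ => hχ.2
  have hsmall : Small Φ W₀ := by
    intro Q' _ _ g hg χ hχ hD
    by_contra hcon
    exact hg χ ⟨hχ, hcon⟩ hD
  obtain ⟨W, hW0, hW, hmax⟩ := exists_maximal_small Φ W₀ hsmall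
  obtain ⟨g, hg, hgr⟩ := exists_retraction hN Φ hΦ W hW hmax (fun χ hχ j => hW0 (hχ.1 j))
  have hcompl : IsCompl (LinearMap.range g) (LinearMap.ker g) := by
    refine LinearMap.IsIdempotentElem.isCompl ?_
    ext y
    have : g y ∈ W := by rw [← hgr]; exact ⟨y, rfl⟩
    exact hg _ this
  have hWtop : W = ⊤ := by
    rcases hNi.2 _ _ hcompl with h1 | h1
    · exfalso
      rw [hgr] at h1
      have : x ∈ W := hW0 (Submodule.mem_span_singleton_self x)
      rw [h1] at this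
      exact hx ((Submodule.mem_bot R).1 this)
    · rw [h1] at hcompl
      have := hcompl.codisjoint.eq_top
      rw [sup_bot_eq, hgr] at this
      exact this
  have hav : Avoids Φ h := by
    rintro ⟨m, l, B, c⟩ ⟨hc, hs⟩ hD
    apply hs
    have hc' : ∀ j, ∃ a : R, a • x = c j := fun j => Submodule.mem_span_singleton.1 (hc j)
    choose a ha using hc'
    have h1 : h x ∈ (⟨m, l, B, a⟩ : PPFormula R).sol Q := by
      change Solvable B (fun j => a j • h x)
      have h2 : (fun j => a j • h x) = fun j => h (c j) := by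
        funext j
        rw [← ha j, map_smul]
      rw [h2]
      exact hD
    have h3 : Solvable B (fun j => a j • x) := hh _ h1
    change Solvable B (fun j => (LinearMap.id : N →ₗ[R] N) (c j))
    have h4 : (fun j => (LinearMap.id : N →ₗ[R] N) (c j)) = fun j => a j • x := by
      funext j
      exact (ha j).symm
    rw [h4]
    exact h3
  have hsys : ∀ (m l : ℕ) (r : Fin l → Fin m → R) (c : Fin l → N),
      Solvable r (fun j => h (c j)) → Solvable r c := by
    intro m l r c hs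
    exact hW Q h hav ⟨m, l, r, c⟩ (fun j => by rw [hWtop]; trivial) hs
  refine ⟨?_, hsys⟩
  rw [injective_iff_map_eq_zero]
  intro a ha
  obtain ⟨z, hz⟩ := hsys 0 1 (fun _ i => i.elim0) (fun _ => a)
    ⟨fun i => i.elim0, fun j => by simp [ha]⟩
  simpa using (hz 0).symm

/-- pure-injective modules are algebraically compact -/
theorem compact_of_pureInjective (k : Type u) [Field k] [Algebra k R] (P : Type u)
    [AddCommGroup P] [Module R P] (hP : IsPureInjective R P) (I J : Type u)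
    (a : J → (I →₀ R)) (c : J → P)
    (h : ∀ s : Finset J, ∃ z : I → P, ∀ j ∈ s, (a j).sum (fun i r => r • z i) = c j) :
    ∃ z : I → P, ∀ j, (a j).sum (fun i r => r • z i) = c j := by
  let _ := kmod k R P
  have := kmod_tower (k := k) (R := R) P
  obtain ⟨r, hr⟩ := hP P (DD k P) kap (kap_isPureEmbedding (k := k) (R := R)) LinearMap.id
  have hr' : ∀ p : P, r ((kap (k := k) (R := R) : P →ₗ[R] DD k P) p) = p :=
    fun p => LinearMap.congr_fun hr p
  obtain ⟨z, hz⟩ := DD.compact (k := k) (R := R) (Y := P) a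
      (fun j => (kap (k := k) (R := R) : P →ₗ[R] DD k P) (c j)) (by
    intro S
    obtain ⟨z, hz⟩ := h S
    refine ⟨fun i => (kap (k := k) (R := R) : P →ₗ[R] DD k P) (z i), fun j hj => ?_⟩
    rw [← hz j hj, Finsupp.linearCombination_apply, Finsupp.sum, Finsupp.sum, map_sum]
    refine Finset.sum_congr rfl fun i _ => ?_
    rw [map_smul])
  refine ⟨fun i => r (z i), fun j => ?_⟩
  have h1 := hz j
  rw [Finsupp.linearCombination_apply, Finsupp.sum] at h1
  rw [← hr' (c j), ← h1, Finsupp.sum, map_sum]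
  refine Finset.sum_congr rfl fun i _ => ?_
  rw [map_smul]

end

end Cb
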