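import Pool.Agent.Helper462.Cb.Defs

namespace Cb

universe u


open Zg

theorem sol_torsionFree {A : Type u} [Ring A] {d : A → ℕ} (h : Euclid A d)
    (hpf : ∀ θ : PPFormula A, ∃ (F : Type u) (_ : AddCommGroup F) (_ : Module A F)
      (_ : Module.Finite A F) (e : F), ∀ (N : Type u) [AddCommGroup N] [Module A N] (v : N),
        v ∈ θ.sol N ↔ ∃ f : F →ₗ[A] N, f e = v)
    (hstr : ∀ (M : Type u) [AddCommGroup M] [Module A M] [Module.Finite A M],
      ∃ (n : ℕ) (q : M →ₗ[A] (Fin n → A)) (s : (Fin n → A) →ₗ[A] M),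
        (∀ x, q x = 0 → ∃ p : A, p ≠ 0 ∧ p • x = 0) ∧ q ∘ₗ s = LinearMap.id)
    (hgcd : ∀ {n : ℕ} (q : Fin n → A),
      ∃ (g : A) (u v : Fin n → A), g = ∑ i, q i * u i ∧ ∀ i, q i = g * v i)
    (θ : PPFormula A) :
    ∃ g : A, ∀ (N : Type u) [AddCommGroup N] [Module A N],
      (∀ p : A, p ≠ 0 → ∀ x : N, p • x = 0 → x = 0) →
      ∀ v : N, v ∈ θ.sol N ↔ ∃ w : N, v = g • w := by
  obtain ⟨F, _, _, _, e, hF⟩ := hpf θ
  obtain ⟨n, q, s, hq, hs⟩ := hstr F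
  obtain ⟨g, u, w0, hg, hv⟩ := hgcd (q e)
  refine ⟨g, fun N _ _ hN v => ?_⟩
  rw [hF]
  constructor
  · rintro ⟨f, rfl⟩
    have hsq : ∀ x, q (x - s (q x)) = 0 := by
      intro x
      rw [map_sub]
      have : q (s (q x)) = q x := LinearMap.congr_fun hs (q x)
      rw [this, sub_self]
    have hf : f e = f (s (q e)) := by
      obtain ⟨p, hp, hp2⟩ := hq _ (hsq e)
      have h1 : p • f (e - s (q e)) = 0 := by rw [← map_smul, hp2, map_zero]
      have h2 := hN p hp _ h1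
      rw [map_sub, sub_eq_zero] at h2
      exact h2
    have hsum : q e = ∑ i, q e i • (Pi.single i 1 : Fin n → A) := by
      funext j
      rw [Finset.sum_apply]
      simp [Pi.single_apply]
    refine ⟨∑ i, w0 i • f (s (Pi.single i 1)), ?_⟩
    rw [hf, hsum, map_sum, map_sum, Finset.smul_sum]
    refine Finset.sum_congr rfl (fun i _ => ?_)
    rw [map_smul, map_smul, smul_smul, ← hv i]
  · rintro ⟨w, rfl⟩
    refine ⟨(∑ i, (LinearMap.toSpanSingleton A N (u i • w)) ∘ₗ (LinearMap.proj i)) ∘ₗ q, ?_⟩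
    rw [LinearMap.comp_apply, LinearMap.sum_apply, hg, Finset.sum_smul]
    refine Finset.sum_congr rfl (fun i _ => ?_)
    rw [LinearMap.comp_apply, LinearMap.toSpanSingleton_apply, LinearMap.proj_apply, smul_smul]

theorem sol_zero_one {A : Type u} [Ring A] {d : A → ℕ} (h : Euclid A d)
    (hpf : ∀ θ : PPFormula A, ∃ (F : Type u) (_ : AddCommGroup F) (_ : Module A F)
      (_ : Module.Finite A F) (e : F), ∀ (N : Type u) [AddCommGroup N] [Module A N] (v : N),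
        v ∈ θ.sol N ↔ ∃ f : F →ₗ[A] N, f e = v)
    (hstr : ∀ (M : Type u) [AddCommGroup M] [Module A M] [Module.Finite A M],
      ∃ (n : ℕ) (q : M →ₗ[A] (Fin n → A)) (s : (Fin n → A) →ₗ[A] M),
        (∀ x, q x = 0 → ∃ p : A, p ≠ 0 ∧ p • x = 0) ∧ q ∘ₗ s = LinearMap.id)
    (θ : PPFormula A) :
    (∃ q : A, q ≠ 0 ∧ ∀ (N : Type u) [AddCommGroup N] [Module A N] (v : N),
      v ∈ θ.sol N → q • v = 0) ∨
    (∃ r : A, r ≠ 0 ∧ ∀ (N : Type u) [AddCommGroup N] [Module A N] (v : N),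
      r • v ∈ θ.sol N) := by
  obtain ⟨F, _, _, _, e, hF⟩ := hpf θ
  obtain ⟨n, q, s, hq, hs⟩ := hstr F
  by_cases h0 : q e = 0
  · left
    obtain ⟨p, hp, hp2⟩ := hq _ h0
    refine ⟨p, hp, fun N _ _ v hv => ?_⟩
    obtain ⟨f, rfl⟩ := (hF N v).1 hv
    rw [← map_smul, hp2, map_zero]
  · right
    obtain ⟨i, hi⟩ : ∃ i, q e i ≠ 0 := by
      by_contra hcon
      push Not at hcon
      exact h0 (funext hcon)
    refine ⟨q e i, hi, fun N _ _ v => ?_⟩
    rw [hF]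
    refine ⟨(LinearMap.toSpanSingleton A N v) ∘ₗ (LinearMap.proj i) ∘ₗ q, ?_⟩
    rfl

end Cb
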