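import Pool.Agent.Helper462.Cb.Defs

namespace Cb

universe u v


open Zg

section AlphaTopAux

variable {A : Type u} [Ring A]

theorem at_sol_iso (φ : PPFormula A) {N N' : Type u} [AddCommGroup N] [Module A N]
    [AddCommGroup N'] [Module A N'] (e : N ≃ₗ[A] N') (v : N) :
    v ∈ φ.sol N ↔ e v ∈ φ.sol N' := by
  constructor
  · rintro ⟨z, hz⟩
    refine ⟨fun i => e (z i), fun j => ?_⟩
    have := congrArg e (hz j)
    rw [map_sum] at this
    show _ = φ.a j • e v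
    rw [← map_smul, ← this]
    apply Finset.sum_congr rfl
    intro i _
    rw [map_smul]
  · rintro ⟨z, hz⟩
    refine ⟨fun i => e.symm (z i), fun j => ?_⟩
    have := congrArg e.symm (hz j)
    simp only [map_sum, map_smul, LinearEquiv.symm_apply_apply] at this
    show _ = φ.a j • v
    rw [← this]

theorem at_sol_ne_iso (φ ψ : PPFormula A) {N N' : Type u} [AddCommGroup N] [Module A N]
    [AddCommGroup N'] [Module A N'] (e : N ≃ₗ[A] N') (h : φ.sol N ≠ ψ.sol N) :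
    φ.sol N' ≠ ψ.sol N' := by
  intro h2
  apply h
  ext v
  rw [at_sol_iso φ e, at_sol_iso ψ e, h2]

theorem at_mem_basic (φ ψ : PPFormula A) (N : IndecPureInjective A) :
    zgPoint N ∈ basicSet φ ψ ↔ φ.sol N.carrier ≠ ψ.sol N.carrier := by
  constructor
  · rintro ⟨N', hN', h⟩
    have : N' ≈ N := Quotient.exact hN'
    obtain ⟨e⟩ := this
    exact at_sol_ne_iso φ ψ e h
  · intro h
    exact ⟨N, rfl, h⟩

theorem at_open (φ ψ : PPFormula A) (h : ψ.Le φ) :
    IsOpen (basicSet φ ψ : Set (ZieglerSpectrum A)) :=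
  TopologicalSpace.isOpen_generateFrom_of_mem ⟨φ, ψ, h, rfl⟩

theorem at_open_of {P Q : ZieglerSpectrum A}
    (h : ∀ φ ψ : PPFormula A, ψ.Le φ → Q ∈ basicSet φ ψ → P ∈ basicSet φ ψ)
    (U : Set (ZieglerSpectrum A)) (hU : IsOpen U) (hQ : Q ∈ U) : P ∈ U := by
  have hU' : TopologicalSpace.GenerateOpen
    {S | ∃ φ ψ : PPFormula A, ψ.Le φ ∧ S = basicSet φ ψ} U := hU
  induction hU' with
  | basic s hs =>
    obtain ⟨φ, ψ, hle, rfl⟩ := hs
    exact h φ ψ hle hQ
  | univ => trivial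
  | inter s t hs ht ihs iht =>
    exact ⟨ihs hs hQ.1, iht ht hQ.2⟩
  | sUnion S hS ih =>
    obtain ⟨s, hs, hQs⟩ := hQ
    exact ⟨s, hs, ih s hs (hS s hs) hQs⟩

theorem at_zero_mem (φ : PPFormula A) (N : Type u) [AddCommGroup N] [Module A N] :
    (0 : N) ∈ φ.sol N := ⟨fun _ => 0, fun j => by simp⟩

/-- an injective map from a simple (divisible) module to an indecomposable one is bijective -/
theorem at_simple_inj
    (hbaer : ∀ (E : Type u) [AddCommGroup E] [Module A E],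
      (∀ p : A, p ≠ 0 → ∀ x : E, ∃ y : E, p • y = x) →
      ∀ (M N : Type u) [AddCommGroup M] [Module A M] [AddCommGroup N] [Module A N]
      (i : M →ₗ[A] N), Function.Injective i → ∀ g : M →ₗ[A] E, ∃ f : N →ₗ[A] E, f ∘ₗ i = g)
    (hdiv : ∀ (V : Type u) [AddCommGroup V] [Module A V], IsSimpleModule A V →
      ∀ p : A, p ≠ 0 → ∀ x : V, ∃ y : V, p • y = x)
    {V N : Type u} [AddCommGroup V] [Module A V] [AddCommGroup N] [Module A N]
    (hV : IsSimpleModule A V) (hN : IsIndecomposable A N) (j : V →ₗ[A] N)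
    (hj : Function.Injective j) : Function.Bijective j := by
  obtain ⟨f, hf⟩ := hbaer V (hdiv V hV) V N j hj LinearMap.id
  have hf' : ∀ v, f (j v) = v := fun v => by
    have := LinearMap.congr_fun hf v
    simpa using this
  have hc : IsCompl (LinearMap.range j) (LinearMap.ker f) := by
    constructor
    · rw [Submodule.disjoint_def]
      rintro x ⟨v, rfl⟩ hx
      rw [LinearMap.mem_ker, hf'] at hx
      rw [hx, map_zero]
    · rw [codisjoint_iff, eq_top_iff]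
      intro x _
      rw [Submodule.mem_sup]
      refine ⟨j (f x), ⟨f x, rfl⟩, x - j (f x), ?_, by abel⟩
      rw [LinearMap.mem_ker, map_sub, hf', sub_self]
  refine ⟨hj, ?_⟩
  rcases hN.2 _ _ hc with h0 | h0
  · exfalso
    have := hV.nontrivial
    obtain ⟨v, hv⟩ := exists_ne (0 : V)
    have : j v ∈ LinearMap.range j := ⟨v, rfl⟩
    rw [h0, Submodule.mem_bot] at this
    apply hv
    apply hj
    rw [this, map_zero]
  · intro x
    refine ⟨f x, ?_⟩
    have : j (f x) - x ∈ LinearMap.ker f := by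
      rw [LinearMap.mem_ker, map_sub, hf', sub_self]
    rw [h0, Submodule.mem_bot, sub_eq_zero] at this
    exact this

theorem at_torsion_simple {d : A → ℕ} (h : Euclid A d)
    (hbaer : ∀ (E : Type u) [AddCommGroup E] [Module A E],
      (∀ p : A, p ≠ 0 → ∀ x : E, ∃ y : E, p • y = x) →
      ∀ (M N : Type u) [AddCommGroup M] [Module A M] [AddCommGroup N] [Module A N]
      (i : M →ₗ[A] N), Function.Injective i → ∀ g : M →ₗ[A] E, ∃ f : N →ₗ[A] E, f ∘ₗ i = g)
    (hore : ∀ a b : A, a ≠ 0 → b ≠ 0 → ∃ x y : A, x * a = y * b ∧ x * a ≠ 0)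
    (hfl : ∀ (M : Type u) [AddCommGroup M] [Module A M] [Module.Finite A M],
      (∀ x : M, ∃ p : A, p ≠ 0 ∧ p • x = 0) → IsFiniteLength A M)
    (hdiv : ∀ (V : Type u) [AddCommGroup V] [Module A V], IsSimpleModule A V →
      ∀ p : A, p ≠ 0 → ∀ x : V, ∃ y : V, p • y = x)
    {N : Type u} [AddCommGroup N] [Module A N] (hN : IsIndecomposable A N)
    (x : N) (hx : x ≠ 0) (p : A) (hp : p ≠ 0) (hpx : p • x = 0) : IsSimpleModule A N := by
  have : Module.Finite A (Submodule.span A {x}) :=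
    Module.Finite.iff_fg.mpr (Submodule.fg_span_singleton x)
  have hlen : IsFiniteLength A (Submodule.span A {x}) := by
    apply hfl
    rintro ⟨m, hm⟩
    obtain ⟨a, rfl⟩ := Submodule.mem_span_singleton.mp hm
    by_cases ha : a = 0
    · refine ⟨1, h.nontriv, ?_⟩
      apply Subtype.ext
      simp [ha]
    · obtain ⟨y, z, hyz, hne⟩ := hore a p ha hp
      refine ⟨y, ?_, ?_⟩
      · rintro rfl
        exact hne (zero_mul a)
      · apply Subtype.ext
        show y • (a • x) = 0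
        rw [smul_smul, hyz, ← smul_smul, hpx, smul_zero]
  have hart : IsArtinian A (Submodule.span A {x}) :=
    (isFiniteLength_iff_isNoetherian_isArtinian.mp hlen).2
  have : Nontrivial (Submodule.span A {x}) := by
    refine ⟨⟨⟨x, Submodule.mem_span_singleton_self x⟩, 0, ?_⟩⟩
    intro h0
    exact hx (congrArg Subtype.val h0)
  obtain ⟨S, hS⟩ := IsAtomic.exists_atom (Submodule A (Submodule.span A {x}))
  have hSs : IsSimpleModule A S := isSimpleModule_iff_isAtom.mpr hS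
  have hb := at_simple_inj hbaer hdiv hSs hN
    ((Submodule.span A {x}).subtype.comp S.subtype) (by
      intro u v huv
      exact Subtype.ext (Subtype.ext huv))
  exact (IsSimpleModule.congr (LinearEquiv.ofBijective _ hb).symm)

theorem at_iso_of_kill
    (hbaer : ∀ (E : Type u) [AddCommGroup E] [Module A E],
      (∀ p : A, p ≠ 0 → ∀ x : E, ∃ y : E, p • y = x) →
      ∀ (M N : Type u) [AddCommGroup M] [Module A M] [AddCommGroup N] [Module A N]
      (i : M →ₗ[A] N), Function.Injective i → ∀ g : M →ₗ[A] E, ∃ f : N →ₗ[A] E, f ∘ₗ i = g)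
    (hdiv : ∀ (V : Type u) [AddCommGroup V] [Module A V], IsSimpleModule A V →
      ∀ p : A, p ≠ 0 → ∀ x : V, ∃ y : V, p • y = x)
    {p : A} (hp : IsSimpleModule A (A ⧸ Submodule.span A {p}))
    {N : Type u} [AddCommGroup N] [Module A N] (hN : IsIndecomposable A N)
    (y : N) (hy : y ≠ 0) (hpy : p • y = 0) :
    Nonempty ((A ⧸ Submodule.span A {p}) ≃ₗ[A] N) := by
  have hle : Submodule.span A {p} ≤ LinearMap.ker (LinearMap.toSpanSingleton A N y) := by
    rw [Submodule.span_le]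
    rintro a ha
    rw [Set.mem_singleton_iff] at ha
    rw [ha, SetLike.mem_coe, LinearMap.mem_ker, LinearMap.toSpanSingleton_apply, hpy]
  let j : (A ⧸ Submodule.span A {p}) →ₗ[A] N :=
    (Submodule.span A {p}).liftQ (LinearMap.toSpanSingleton A N y) hle
  have hj1 : j (Submodule.Quotient.mk 1) = y := by
    show (Submodule.span A {p}).liftQ (LinearMap.toSpanSingleton A N y) hle
      (Submodule.Quotient.mk 1) = y
    rw [Submodule.liftQ_apply, LinearMap.toSpanSingleton_apply, one_smul]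
  have hinj : Function.Injective j := by
    rcases LinearMap.injective_or_eq_zero j with h0 | h0
    · exact h0
    · exfalso
      apply hy
      rw [← hj1, h0, LinearMap.zero_apply]
  exact ⟨LinearEquiv.ofBijective j (at_simple_inj hbaer hdiv hp hN j hinj)⟩

theorem at_ne_basic (hann : ∀ p : A, ∃ κ : PPFormula A,
      ∀ (N : Type u) [AddCommGroup N] [Module A N] (v : N), v ∈ κ.sol N ↔ p • v = 0)
    (p : A) : ∃ φ ψ : PPFormula A, ψ.Le φ ∧ ∀ (N : Type u) [AddCommGroup N] [Module A N],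
      φ.sol N ≠ ψ.sol N ↔ ∃ y : N, y ≠ 0 ∧ p • y = 0 := by
  obtain ⟨φ, hφ⟩ := hann p
  obtain ⟨ψ, hψ⟩ := hann 1
  refine ⟨φ, ψ, ?_, ?_⟩
  · intro Q _ _ v hv
    rw [hψ, one_smul] at hv
    rw [hφ, hv, smul_zero]
  · intro N _ _
    constructor
    · intro hne
      by_contra hcon
      apply hne
      ext v
      rw [hφ, hψ, one_smul]
      constructor
      · intro h1
        by_contra h2
        exact hcon ⟨v, h2, h1⟩
      · rintro rfl
        exact smul_zero p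
    · rintro ⟨y, hy, hpy⟩ heq
      have : y ∈ φ.sol N := (hφ N y).mpr hpy
      rw [heq, hψ, one_smul] at this
      exact hy this

theorem at_isolated_torsion {d : A → ℕ} (h : Euclid A d)
    (hann : ∀ p : A, ∃ κ : PPFormula A,
      ∀ (N : Type u) [AddCommGroup N] [Module A N] (v : N), v ∈ κ.sol N ↔ p • v = 0)
    (hbaer : ∀ (E : Type u) [AddCommGroup E] [Module A E],
      (∀ p : A, p ≠ 0 → ∀ x : E, ∃ y : E, p • y = x) →
      ∀ (M N : Type u) [AddCommGroup M] [Module A M] [AddCommGroup N] [Module A N]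
      (i : M →ₗ[A] N), Function.Injective i → ∀ g : M →ₗ[A] E, ∃ f : N →ₗ[A] E, f ∘ₗ i = g)
    (hfactor : ∀ P : A → Prop, (∀ u, IsUnit u → P u) → (∀ a b, P a → P b → P (a * b)) →
      (∀ p, p ≠ 0 → IsSimpleModule A (A ⧸ Submodule.span A {p}) → P p) → ∀ a, a ≠ 0 → P a)
    (hdiv : ∀ (V : Type u) [AddCommGroup V] [Module A V], IsSimpleModule A V →
      ∀ p : A, p ≠ 0 → ∀ x : V, ∃ y : V, p • y = x)
    (N : IndecPureInjective A) (x : N.carrier) (hx : x ≠ 0) (p : A) (hp : p ≠ 0)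
    (hpx : p • x = 0) :
    ∃ φ ψ : PPFormula A, ψ.Le φ ∧ (basicSet φ ψ : Set (ZieglerSpectrum A)) = {zgPoint N} := by
  have key : ∀ a : A, a ≠ 0 → ∀ y : N.carrier, y ≠ 0 → a • y = 0 →
      ∃ p' : A, p' ≠ 0 ∧ IsSimpleModule A (A ⧸ Submodule.span A {p'}) ∧
        ∃ y' : N.carrier, y' ≠ 0 ∧ p' • y' = 0 := by
    apply hfactor
    · intro u hu y hy huy
      exfalso
      obtain ⟨u, rfl⟩ := hu
      apply hy
      have := congrArg (fun t => (↑u⁻¹ : A) • t) huy
      simpa [smul_smul] using this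
    · intro a b ha hb y hy haby
      by_cases hby : b • y = 0
      · exact hb y hy hby
      · exact ha (b • y) hby (by rw [smul_smul, haby])
    · intro p hp hs y hy hpy
      exact ⟨p, hp, hs, y, hy, hpy⟩
  obtain ⟨p', hp', hs, y', hy', hpy'⟩ := key p hp x hx hpx
  obtain ⟨φ, ψ, hle, hφψ⟩ := at_ne_basic hann p'
  refine ⟨φ, ψ, hle, ?_⟩
  ext t
  rw [Set.mem_singleton_iff]
  constructor
  · rintro ⟨N', rfl, hN'⟩
    obtain ⟨y, hy, hpy⟩ := (hφψ _).mp hN'
    obtain ⟨e⟩ := at_iso_of_kill hbaer hdiv hs N'.indecomposable y hy hpy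
    obtain ⟨e'⟩ := at_iso_of_kill hbaer hdiv hs N.indecomposable y' hy' hpy'
    exact Quotient.sound ⟨e.symm.trans e'⟩
  · rintro rfl
    rw [at_mem_basic, hφψ]
    exact ⟨y', hy', hpy'⟩

theorem at_isolated_tf {d : A → ℕ} (h : Euclid A d)
    (hann : ∀ p : A, ∃ κ : PPFormula A,
      ∀ (N : Type u) [AddCommGroup N] [Module A N] (v : N), v ∈ κ.sol N ↔ p • v = 0)
    (hdvd : ∀ p : A, ∃ κ : PPFormula A,
      ∀ (N : Type u) [AddCommGroup N] [Module A N] (v : N), v ∈ κ.sol N ↔ ∃ w : N, p • w = v)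
    (hbaer : ∀ (E : Type u) [AddCommGroup E] [Module A E],
      (∀ p : A, p ≠ 0 → ∀ x : E, ∃ y : E, p • y = x) →
      ∀ (M N : Type u) [AddCommGroup M] [Module A M] [AddCommGroup N] [Module A N]
      (i : M →ₗ[A] N), Function.Injective i → ∀ g : M →ₗ[A] E, ∃ f : N →ₗ[A] E, f ∘ₗ i = g)
    (hore : ∀ a b : A, a ≠ 0 → b ≠ 0 → ∃ x y : A, x * a = y * b ∧ x * a ≠ 0)
    (hfl : ∀ (M : Type u) [AddCommGroup M] [Module A M] [Module.Finite A M],
      (∀ x : M, ∃ p : A, p ≠ 0 ∧ p • x = 0) → IsFiniteLength A M)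
    (hfactor : ∀ P : A → Prop, (∀ u, IsUnit u → P u) → (∀ a b, P a → P b → P (a * b)) →
      (∀ p, p ≠ 0 → IsSimpleModule A (A ⧸ Submodule.span A {p}) → P p) → ∀ a, a ≠ 0 → P a)
    (hmax : ∀ p : A, p ≠ 0 → IsSimpleModule A (A ⧸ Submodule.span A {p}) → ∀ q : A,
      (∀ b, q ≠ p * b) → ∃ a b : A, p * a + q * b = 1)
    (htf : ∀ θ : PPFormula A, ∃ g : A, ∀ (N : Type u) [AddCommGroup N] [Module A N],
      (∀ p : A, p ≠ 0 → ∀ x : N, p • x = 0 → x = 0) →
      ∀ v : N, v ∈ θ.sol N ↔ ∃ w : N, v = g • w)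
    (huniq : ∀ (N N' : IndecPureInjective A) (φ ψ : PPFormula A),
      ψ.sol N.carrier ⊆ φ.sol N.carrier → ψ.sol N'.carrier ⊆ φ.sol N'.carrier →
      ¬ φ.sol N.carrier ⊆ ψ.sol N.carrier → ¬ φ.sol N'.carrier ⊆ ψ.sol N'.carrier →
      (∀ θ : PPFormula A,
        ((∀ v ∈ φ.sol N.carrier, v ∈ θ.sol N.carrier → v ∈ ψ.sol N.carrier) ∧
          (∀ v ∈ φ.sol N'.carrier, v ∈ θ.sol N'.carrier → v ∈ ψ.sol N'.carrier)) ∨
        ((∀ v ∈ φ.sol N.carrier, ∃ w ∈ θ.sol N.carrier, v - w ∈ ψ.sol N.carrier) ∧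
          (∀ v ∈ φ.sol N'.carrier, ∃ w ∈ θ.sol N'.carrier, v - w ∈ ψ.sol N'.carrier))) →
      zgPoint N = zgPoint N')
    (hdiv : ∀ (V : Type u) [AddCommGroup V] [Module A V], IsSimpleModule A V →
      ∀ p : A, p ≠ 0 → ∀ x : V, ∃ y : V, p • y = x)
    (N : IndecPureInjective A)
    (htfN : ∀ p : A, p ≠ 0 → ∀ x : N.carrier, p • x = 0 → x = 0)
    (hnd : ¬ ∀ p : A, p ≠ 0 → ∀ x : N.carrier, ∃ y : N.carrier, p • y = x) :
    ∃ φ ψ : PPFormula A, ψ.Le φ ∧ (basicSet φ ψ : Set (ZieglerSpectrum A)) = {zgPoint N} := by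
  have key : ∃ p : A, p ≠ 0 ∧ IsSimpleModule A (A ⧸ Submodule.span A {p}) ∧
      ∃ x : N.carrier, ∀ y : N.carrier, p • y ≠ x := by
    by_contra hcon
    apply hnd
    apply hfactor
    · intro u hu x
      obtain ⟨u, rfl⟩ := hu
      refine ⟨(↑u⁻¹ : A) • x, ?_⟩
      simp [smul_smul]
    · intro a b ha hb x
      obtain ⟨y, hy⟩ := ha x
      obtain ⟨z, hz⟩ := hb y
      exact ⟨z, by rw [← smul_smul, hz, hy]⟩
    · intro p hp hs x
      by_contra hx
      push Not at hx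
      exact hcon ⟨p, hp, hs, x, hx⟩
  obtain ⟨p, hp, hs, x, hx⟩ := key
  obtain ⟨φ, hφ⟩ := hann 0
  obtain ⟨ψ, hψ⟩ := hdvd p
  have hφ' : ∀ (N : Type u) [AddCommGroup N] [Module A N] (v : N), v ∈ φ.sol N := by
    intro N _ _ v
    rw [hφ, zero_smul]
  refine ⟨φ, ψ, fun Q _ _ v _ => hφ' Q v, ?_⟩
  ext t
  rw [Set.mem_singleton_iff]
  constructor
  · rintro ⟨N', rfl, hN'⟩
    have hx' : ∃ x' : N'.carrier, ∀ y : N'.carrier, p • y ≠ x' := by
      by_contra hcon
      push Not at hcon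
      apply hN'
      ext v
      rw [hψ]
      exact ⟨fun _ => hcon v, fun _ => hφ' _ v⟩
    obtain ⟨x', hx'⟩ := hx'
    have htfN' : ∀ p : A, p ≠ 0 → ∀ x : N'.carrier, p • x = 0 → x = 0 := by
      intro q hq y hqy
      by_contra hy
      have hsim := at_torsion_simple h hbaer hore hfl hdiv N'.indecomposable y hy q hq hqy
      obtain ⟨z, hz⟩ := hdiv _ hsim p hp x'
      exact hx' z hz
    apply huniq N' N φ ψ
    · intro v _
      exact hφ' _ v
    · intro v _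
      exact hφ' _ v
    · intro hsub
      obtain ⟨w, hw⟩ := (hψ _ _).mp (hsub (hφ' _ x'))
      exact hx' w hw
    · intro hsub
      obtain ⟨w, hw⟩ := (hψ _ _).mp (hsub (hφ' _ x))
      exact hx w hw
    · intro θ
      obtain ⟨g, hg⟩ := htf θ
      have hgN := hg _ htfN
      have hgN' := hg _ htfN'
      by_cases hgb : ∀ b, g ≠ p * b
      · right
        obtain ⟨a, b, hab⟩ := hmax p hp hs g hgb
        have gen : ∀ (N : Type u) [AddCommGroup N] [Module A N],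
            (∀ v : N, v ∈ θ.sol N ↔ ∃ w : N, v = g • w) →
            ∀ v ∈ φ.sol N, ∃ w ∈ θ.sol N, v - w ∈ ψ.sol N := by
          intro N _ _ hgN v _
          refine ⟨g • (b • v), (hgN _).mpr ⟨_, rfl⟩, ?_⟩
          rw [hψ]
          refine ⟨a • v, ?_⟩
          have : (p * a + g * b) • v = v := by rw [hab, one_smul]
          rw [add_smul, ← smul_smul, ← smul_smul] at this
          rw [eq_sub_iff_add_eq]
          exact this
        exact ⟨gen _ hgN', gen _ hgN⟩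
      · left
        push Not at hgb
        obtain ⟨b, hb⟩ := hgb
        have gen : ∀ (N : Type u) [AddCommGroup N] [Module A N],
            (∀ v : N, v ∈ θ.sol N ↔ ∃ w : N, v = g • w) →
            ∀ v ∈ φ.sol N, v ∈ θ.sol N → v ∈ ψ.sol N := by
          intro N _ _ hgN v _ hv
          obtain ⟨w, rfl⟩ := (hgN v).mp hv
          rw [hψ]
          exact ⟨b • w, by rw [smul_smul, hb]⟩
        exact ⟨gen _ hgN', gen _ hgN⟩
  · rintro rfl
    rw [at_mem_basic]
    intro heq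
    have : x ∈ φ.sol N.carrier := hφ' _ x
    rw [heq, hψ] at this
    obtain ⟨w, hw⟩ := this
    exact hx w hw

theorem at_tfdiv_exists {d : A → ℕ} (h : Euclid A d)
    (hdivex : ∀ (M : Type u) [AddCommGroup M] [Module A M],
      ∃ (E : Type u) (_ : AddCommGroup E) (_ : Module A E) (i : M →ₗ[A] E),
        Function.Injective i ∧ ∀ p : A, p ≠ 0 → ∀ x : E, ∃ y : E, p • y = x)
    (hore : ∀ a b : A, a ≠ 0 → b ≠ 0 → ∃ x y : A, x * a = y * b ∧ x * a ≠ 0) :
    ∃ (Y : Type u) (_ : AddCommGroup Y) (_ : Module A Y),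
      (∃ y : Y, y ≠ 0) ∧ (∀ p : A, p ≠ 0 → ∀ x : Y, p • x = 0 → x = 0) ∧
      (∀ p : A, p ≠ 0 → ∀ x : Y, ∃ y : Y, p • y = x) := by
  obtain ⟨E, _, _, i, hi, hE⟩ := hdivex A
  let T : Submodule A E :=
    { carrier := {x | ∃ p : A, p ≠ 0 ∧ p • x = 0}
      zero_mem' := ⟨1, h.nontriv, smul_zero 1⟩
      add_mem' := by
        rintro x y ⟨p, hp, hpx⟩ ⟨q, hq, hqy⟩
        obtain ⟨a, b, hab, hne⟩ := hore p q hp hq
        refine ⟨a * p, hne, ?_⟩
        rw [smul_add]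
        nth_rewrite 2 [hab]
        rw [← smul_smul, ← smul_smul, hpx, hqy, smul_zero, smul_zero, add_zero]
      smul_mem' := by
        rintro c x ⟨p, hp, hpx⟩
        by_cases hc : c = 0
        · refine ⟨1, h.nontriv, ?_⟩
          rw [hc, zero_smul, smul_zero]
        · obtain ⟨a, b, hab, hne⟩ := hore c p hc hp
          refine ⟨a, ?_, ?_⟩
          · rintro rfl
            exact hne (zero_mul c)
          · rw [smul_smul, hab, ← smul_smul, hpx, smul_zero] }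
  refine ⟨E ⧸ T, inferInstance, inferInstance, ⟨T.mkQ (i 1), ?_⟩, ?_, ?_⟩
  · intro h0
    rw [Submodule.mkQ_apply, Submodule.Quotient.mk_eq_zero] at h0
    obtain ⟨p, hp, hp1⟩ := h0
    apply hp
    apply hi
    rw [map_zero, ← hp1, ← map_smul, smul_eq_mul, mul_one]
  · intro p hp x hx
    obtain ⟨x, rfl⟩ := T.mkQ_surjective x
    rw [← map_smul, Submodule.mkQ_apply, Submodule.Quotient.mk_eq_zero] at hx
    obtain ⟨q, hq, hqx⟩ := hx
    rw [Submodule.mkQ_apply, Submodule.Quotient.mk_eq_zero]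
    exact ⟨q * p, h.mul_ne q p hq hp, by rw [← smul_smul, hqx]⟩
  · intro p hp x
    obtain ⟨x, rfl⟩ := T.mkQ_surjective x
    obtain ⟨y, hy⟩ := hE p hp x
    exact ⟨T.mkQ y, by rw [← map_smul, hy]⟩

theorem at_generic {d : A → ℕ} (h : Euclid A d)
    (hann : ∀ p : A, ∃ κ : PPFormula A,
      ∀ (N : Type u) [AddCommGroup N] [Module A N] (v : N), v ∈ κ.sol N ↔ p • v = 0)
    (hdvd : ∀ p : A, ∃ κ : PPFormula A,
      ∀ (N : Type u) [AddCommGroup N] [Module A N] (v : N), v ∈ κ.sol N ↔ ∃ w : N, p • w = v)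
    (hex : ∀ (T : Set (PPFormula A × PPFormula A)) (Y : Type u) [AddCommGroup Y] [Module A Y]
      (φ ψ : PPFormula A), (∀ p ∈ T, p.1.sol Y ⊆ p.2.sol Y) → ¬ φ.sol Y ⊆ ψ.sol Y →
      ∃ N : IndecPureInjective A, (∀ p ∈ T, p.1.sol N.carrier ⊆ p.2.sol N.carrier) ∧
        ¬ φ.sol N.carrier ⊆ ψ.sol N.carrier)
    (hdivex : ∀ (M : Type u) [AddCommGroup M] [Module A M],
      ∃ (E : Type u) (_ : AddCommGroup E) (_ : Module A E) (i : M →ₗ[A] E),
        Function.Injective i ∧ ∀ p : A, p ≠ 0 → ∀ x : E, ∃ y : E, p • y = x)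
    (hore : ∀ a b : A, a ≠ 0 → b ≠ 0 → ∃ x y : A, x * a = y * b ∧ x * a ≠ 0) :
    ∃ N : IndecPureInjective A,
      (∀ p : A, p ≠ 0 → ∀ x : N.carrier, p • x = 0 → x = 0) ∧
      (∀ p : A, p ≠ 0 → ∀ x : N.carrier, ∃ y : N.carrier, p • y = x) := by
  obtain ⟨Y, _, _, ⟨y, hy⟩, htf, hdv⟩ := at_tfdiv_exists h hdivex hore
  choose κ hκ using hann
  choose δ hδ using hdvd
  obtain ⟨N, hN, -⟩ := hex ({t | ∃ r : A, r ≠ 0 ∧ t = (κ r, κ 1)} ∪
    {t | ∃ r : A, r ≠ 0 ∧ t = (κ 0, δ r)}) Y (κ 0) (κ 1) (by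
      rintro t (⟨r, hr, rfl⟩ | ⟨r, hr, rfl⟩)
      · intro v hv
        rw [hκ] at hv ⊢
        rw [one_smul]
        exact htf r hr v hv
      · intro v _
        rw [hδ]
        exact hdv r hr v) (by
      intro hsub
      have := hsub ((hκ 0 Y y).mpr (zero_smul A y))
      rw [hκ, one_smul] at this
      exact hy this)
  refine ⟨N, ?_, ?_⟩
  · intro p hp x hx
    have := hN (κ p, κ 1) (Or.inl ⟨p, hp, rfl⟩) ((hκ p _ x).mpr hx)
    rw [hκ, one_smul] at this
    exact this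
  · intro p hp x
    have := hN (κ 0, δ p) (Or.inr ⟨p, hp, rfl⟩) ((hκ 0 _ x).mpr (zero_smul A x))
    rwa [hδ] at this

theorem at_generic_type
    (h01 : ∀ θ : PPFormula A,
      (∃ q : A, q ≠ 0 ∧ ∀ (N : Type u) [AddCommGroup N] [Module A N] (v : N),
        v ∈ θ.sol N → q • v = 0) ∨
      (∃ r : A, r ≠ 0 ∧ ∀ (N : Type u) [AddCommGroup N] [Module A N] (v : N),
        r • v ∈ θ.sol N))
    (θ : PPFormula A) :
    (∀ (N : Type u) [AddCommGroup N] [Module A N],
      (∀ p : A, p ≠ 0 → ∀ x : N, p • x = 0 → x = 0) → ∀ x : N, x ∈ θ.sol N → x = 0) ∨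
    (∀ (N : Type u) [AddCommGroup N] [Module A N],
      (∀ p : A, p ≠ 0 → ∀ x : N, ∃ y : N, p • y = x) → ∀ x : N, x ∈ θ.sol N) := by
  rcases h01 θ with ⟨q, hq, h1⟩ | ⟨r, hr, h1⟩
  · left
    intro N _ _ htf x hx
    exact htf q hq x (h1 N x hx)
  · right
    intro N _ _ hdv x
    obtain ⟨y, rfl⟩ := hdv r hr x
    exact h1 N y

theorem at_simple_point
    (hbaer : ∀ (E : Type u) [AddCommGroup E] [Module A E],
      (∀ p : A, p ≠ 0 → ∀ x : E, ∃ y : E, p • y = x) →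
      ∀ (M N : Type u) [AddCommGroup M] [Module A M] [AddCommGroup N] [Module A N]
      (i : M →ₗ[A] N), Function.Injective i → ∀ g : M →ₗ[A] E, ∃ f : N →ₗ[A] E, f ∘ₗ i = g)
    (hdiv : ∀ (V : Type u) [AddCommGroup V] [Module A V], IsSimpleModule A V →
      ∀ p : A, p ≠ 0 → ∀ x : V, ∃ y : V, p • y = x)
    {p : A} (hs : IsSimpleModule A (A ⧸ Submodule.span A {p})) :
    ∃ S : IndecPureInjective A, S.carrier = (A ⧸ Submodule.span A {p}) ∧
      (∃ s : S.carrier, s ≠ 0 ∧ p • s = 0) ∧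
      (∀ q : A, q ≠ 0 → ∀ x : S.carrier, ∃ y : S.carrier, q • y = x) := by
  refine ⟨⟨A ⧸ Submodule.span A {p}, ?_, ⟨hs.nontrivial, ?_⟩⟩, rfl, ?_, hdiv _ hs⟩
  · intro M N _ _ _ _ i hi g
    exact hbaer _ (hdiv _ hs) M N i hi.1 g
  · intro N₁ N₂ hc
    rcases eq_bot_or_eq_top N₁ with h0 | h0
    · exact Or.inl h0
    · right
      rw [h0] at hc
      exact (disjoint_top.mp hc.disjoint.symm)
  · refine ⟨(Submodule.span A {p}).mkQ 1, ?_, ?_⟩
    · intro h0
      obtain ⟨s, hs'⟩ := @exists_ne _ hs.nontrivial (0 : A ⧸ Submodule.span A {p})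
      apply hs'
      obtain ⟨a, rfl⟩ := (Submodule.span A {p}).mkQ_surjective s
      have : (Submodule.span A {p}).mkQ a = a • (Submodule.span A {p}).mkQ 1 := by
        rw [← map_smul, smul_eq_mul, mul_one]
      rw [this, h0, smul_zero]
    · show p • (Submodule.span A {p}).mkQ 1 = 0
      rw [← map_smul, smul_eq_mul, mul_one, Submodule.mkQ_apply, Submodule.Quotient.mk_eq_zero]
      exact Submodule.mem_span_singleton_self p

end AlphaTopAux

theorem alpha_top {A : Type u} [Ring A] {d : A → ℕ} (h : Euclid A d)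
    (hX : ∃ a : A, a ≠ 0 ∧ ¬ IsUnit a)
    (hone : cb (ZieglerSpectrum A) (1 : Ordinal.{v}) =
      derive (Set.univ : Set (ZieglerSpectrum A)))
    (hann : ∀ p : A, ∃ κ : PPFormula A,
      ∀ (N : Type u) [AddCommGroup N] [Module A N] (v : N), v ∈ κ.sol N ↔ p • v = 0)
    (hdvd : ∀ p : A, ∃ κ : PPFormula A,
      ∀ (N : Type u) [AddCommGroup N] [Module A N] (v : N), v ∈ κ.sol N ↔ ∃ w : N, p • w = v)
    (hex : ∀ (T : Set (PPFormula A × PPFormula A)) (Y : Type u) [AddCommGroup Y] [Module A Y]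
      (φ ψ : PPFormula A), (∀ p ∈ T, p.1.sol Y ⊆ p.2.sol Y) → ¬ φ.sol Y ⊆ ψ.sol Y →
      ∃ N : IndecPureInjective A, (∀ p ∈ T, p.1.sol N.carrier ⊆ p.2.sol N.carrier) ∧
        ¬ φ.sol N.carrier ⊆ ψ.sol N.carrier)
    (hbaer : ∀ (E : Type u) [AddCommGroup E] [Module A E],
      (∀ p : A, p ≠ 0 → ∀ x : E, ∃ y : E, p • y = x) →
      ∀ (M N : Type u) [AddCommGroup M] [Module A M] [AddCommGroup N] [Module A N]
      (i : M →ₗ[A] N), Function.Injective i → ∀ g : M →ₗ[A] E, ∃ f : N →ₗ[A] E, f ∘ₗ i = g)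
    (hdivex : ∀ (M : Type u) [AddCommGroup M] [Module A M],
      ∃ (E : Type u) (_ : AddCommGroup E) (_ : Module A E) (i : M →ₗ[A] E),
        Function.Injective i ∧ ∀ p : A, p ≠ 0 → ∀ x : E, ∃ y : E, p • y = x)
    (hore : ∀ a b : A, a ≠ 0 → b ≠ 0 → ∃ x y : A, x * a = y * b ∧ x * a ≠ 0)
    (hfl : ∀ (M : Type u) [AddCommGroup M] [Module A M] [Module.Finite A M],
      (∀ x : M, ∃ p : A, p ≠ 0 ∧ p • x = 0) → IsFiniteLength A M)
    (hsimple : ∃ p : A, p ≠ 0 ∧ IsSimpleModule A (A ⧸ Submodule.span A {p}))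
    (hfactor : ∀ P : A → Prop, (∀ u, IsUnit u → P u) → (∀ a b, P a → P b → P (a * b)) →
      (∀ p, p ≠ 0 → IsSimpleModule A (A ⧸ Submodule.span A {p}) → P p) → ∀ a, a ≠ 0 → P a)
    (hmax : ∀ p : A, p ≠ 0 → IsSimpleModule A (A ⧸ Submodule.span A {p}) → ∀ q : A,
      (∀ b, q ≠ p * b) → ∃ a b : A, p * a + q * b = 1)
    (htf : ∀ θ : PPFormula A, ∃ g : A, ∀ (N : Type u) [AddCommGroup N] [Module A N],
      (∀ p : A, p ≠ 0 → ∀ x : N, p • x = 0 → x = 0) →
      ∀ v : N, v ∈ θ.sol N ↔ ∃ w : N, v = g • w)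
    (h01 : ∀ θ : PPFormula A,
      (∃ q : A, q ≠ 0 ∧ ∀ (N : Type u) [AddCommGroup N] [Module A N] (v : N),
        v ∈ θ.sol N → q • v = 0) ∨
      (∃ r : A, r ≠ 0 ∧ ∀ (N : Type u) [AddCommGroup N] [Module A N] (v : N),
        r • v ∈ θ.sol N))
    (huniq : ∀ (N N' : IndecPureInjective A) (φ ψ : PPFormula A),
      ψ.sol N.carrier ⊆ φ.sol N.carrier → ψ.sol N'.carrier ⊆ φ.sol N'.carrier →
      ¬ φ.sol N.carrier ⊆ ψ.sol N.carrier → ¬ φ.sol N'.carrier ⊆ ψ.sol N'.carrier →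
      (∀ θ : PPFormula A,
        ((∀ v ∈ φ.sol N.carrier, v ∈ θ.sol N.carrier → v ∈ ψ.sol N.carrier) ∧
          (∀ v ∈ φ.sol N'.carrier, v ∈ θ.sol N'.carrier → v ∈ ψ.sol N'.carrier)) ∨
        ((∀ v ∈ φ.sol N.carrier, ∃ w ∈ θ.sol N.carrier, v - w ∈ ψ.sol N.carrier) ∧
          (∀ v ∈ φ.sol N'.carrier, ∃ w ∈ θ.sol N'.carrier, v - w ∈ ψ.sol N'.carrier))) →
      zgPoint N = zgPoint N')
    (huniqt : ∀ (N N' : IndecPureInjective A) (x : N.carrier), x ≠ 0 → ∀ x' : N'.carrier,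
      (∀ θ : PPFormula A, x ∈ θ.sol N.carrier ↔ x' ∈ θ.sol N'.carrier) →
      zgPoint N = zgPoint N')
    (hdiv : ∀ (V : Type u) [AddCommGroup V] [Module A V], IsSimpleModule A V →
      ∀ p : A, p ≠ 0 → ∀ x : V, ∃ y : V, p • y = x) :
    ∃ q : ZieglerSpectrum A, cb (ZieglerSpectrum A) (1 : Ordinal.{v}) = {q} := by
  obtain ⟨Q, hQtf, hQdv⟩ := at_generic h hann hdvd hex hdivex hore
  obtain ⟨p, hp, hs⟩ := hsimple
  obtain ⟨S, -, ⟨s, hs0, hps⟩, hSdv⟩ := at_simple_point hbaer hdiv hs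
  refine ⟨zgPoint Q, ?_⟩
  rw [hone]
  ext t
  rw [Set.mem_singleton_iff]
  constructor
  · rintro ⟨-, ht⟩
    obtain ⟨N, rfl⟩ : ∃ N : IndecPureInjective A, zgPoint N = t := Quotient.exists_rep t
    have hni : ¬ ∃ φ ψ : PPFormula A, ψ.Le φ ∧
        (basicSet φ ψ : Set (ZieglerSpectrum A)) = {zgPoint N} := by
      rintro ⟨φ, ψ, hle, hU⟩
      obtain ⟨y, hy, -, hne⟩ := ht (basicSet φ ψ) (at_open φ ψ hle) (by rw [hU]; rfl)
      rw [hU] at hy
      exact hne hy
    by_cases htor : ∃ (p : A) (x : N.carrier), p ≠ 0 ∧ x ≠ 0 ∧ p • x = 0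
    · obtain ⟨p, x, hp, hx, hpx⟩ := htor
      exact absurd (at_isolated_torsion h hann hbaer hfactor hdiv N x hx p hp hpx) hni
    · have htfN : ∀ p : A, p ≠ 0 → ∀ x : N.carrier, p • x = 0 → x = 0 := by
        intro p hp x hpx
        by_contra hx
        exact htor ⟨p, x, hp, hx, hpx⟩
      by_cases hdv : ∀ p : A, p ≠ 0 → ∀ x : N.carrier, ∃ y : N.carrier, p • y = x
      · obtain ⟨x, hx⟩ := @exists_ne _ N.indecomposable.1 (0 : N.carrier)
        obtain ⟨x', hx'⟩ := @exists_ne _ Q.indecomposable.1 (0 : Q.carrier)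
        apply huniqt N Q x hx x'
        intro θ
        rcases at_generic_type h01 θ with h1 | h1
        · constructor
          · intro h2
            exact absurd (h1 _ htfN x h2) hx
          · intro h2
            exact absurd (h1 _ hQtf x' h2) hx'
        · exact ⟨fun _ => h1 _ hQdv x', fun _ => h1 _ hdv x⟩
      · exact absurd (at_isolated_tf h hann hdvd hbaer hore hfl hfactor hmax htf huniq hdiv N
          htfN hdv) hni
  · rintro rfl
    refine ⟨trivial, fun U hU hQU => ⟨zgPoint S, ?_, trivial, ?_⟩⟩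
    · refine at_open_of ?_ U hU hQU
      intro φ ψ hle hmem
      rw [at_mem_basic] at hmem ⊢
      intro heq
      apply hmem
      rcases at_generic_type h01 φ with h1 | h1
      · apply Set.Subset.antisymm
        · intro v hv
          rw [h1 _ hQtf v hv]
          exact at_zero_mem ψ _
        · exact hle _
      · rcases h01 ψ with ⟨q, hq, h2⟩ | ⟨r, hr, h2⟩
        · exfalso
          obtain ⟨y, hy⟩ := hSdv q hq s
          have hyψ : y ∈ ψ.sol S.carrier := by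
            rw [← heq]
            exact h1 _ hSdv y
          exact hs0 (by rw [← hy]; exact h2 _ y hyψ)
        · apply Set.Subset.antisymm
          · intro v _
            obtain ⟨y, rfl⟩ := hQdv r hr v
            exact h2 _ y
          · exact hle _
    · intro heq
      obtain ⟨e⟩ : Nonempty (S.carrier ≃ₗ[A] Q.carrier) := Quotient.exact heq
      apply hs0
      apply e.injective
      rw [map_zero]
      apply hQtf p hp
      rw [← map_smul, hps, map_zero]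

end Cb
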