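import Pool.Agent.Helper462.Cb.Defs

namespace Cb

universe u v


open Zg

section BetaTopAux

variable {A : Type u} [Ring A]

theorem bt_map (φ : PPFormula A) {M N : Type u} [AddCommGroup M] [Module A M] [AddCommGroup N]
    [Module A N] (f : M →ₗ[A] N) {v : M} (hv : v ∈ φ.sol M) : f v ∈ φ.sol N := by
  obtain ⟨z, hz⟩ := hv
  refine ⟨fun i => f (z i), fun j => ?_⟩
  have := congrArg f (hz j)
  simpa [map_sum, map_smul] using this

theorem bt_zero (φ : PPFormula A) (N : Type u) [AddCommGroup N] [Module A N] :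
    (0 : N) ∈ φ.sol N :=
  ⟨fun _ => 0, by simp⟩

theorem bt_iso (φ : PPFormula A) {M N : Type u} [AddCommGroup M] [Module A M] [AddCommGroup N]
    [Module A N] (e : M ≃ₗ[A] N) (v : M) : e v ∈ φ.sol N ↔ v ∈ φ.sol M := by
  constructor
  · intro h
    have := bt_map φ (e.symm : N →ₗ[A] M) h
    simpa using this
  · exact bt_map φ (e : M →ₗ[A] N)

theorem bt_mem (φ ψ : PPFormula A) (N : IndecPureInjective A) (hle : ψ.Le φ) :
    zgPoint N ∈ basicSet φ ψ ↔ ¬ φ.sol N.carrier ⊆ ψ.sol N.carrier := by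
  constructor
  · rintro ⟨N', h1, h2⟩ hsub
    obtain ⟨e⟩ := Quotient.exact h1
    apply h2
    apply Set.Subset.antisymm
    · intro v hv
      rw [← bt_iso ψ e]
      exact hsub ((bt_iso φ e v).mpr hv)
    · exact hle _
  · intro h
    exact ⟨N, rfl, fun he => h he.subset⟩

theorem bt_open (φ ψ : PPFormula A) (hle : ψ.Le φ) : IsOpen (basicSet φ ψ) :=
  TopologicalSpace.isOpen_generateFrom_of_mem ⟨φ, ψ, hle, rfl⟩

theorem bt_nhds (x : ZieglerSpectrum A) (y : ℕ → ZieglerSpectrum A)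
    (h : ∀ φ ψ : PPFormula A, ψ.Le φ → x ∈ basicSet φ ψ →
      ∃ m₀, ∀ m, m₀ ≤ m → y m ∈ basicSet φ ψ)
    (U : Set (ZieglerSpectrum A))
    (hU : TopologicalSpace.GenerateOpen {S | ∃ φ ψ : PPFormula A, ψ.Le φ ∧ S = basicSet φ ψ} U)
    (hx : x ∈ U) : ∃ m₀, ∀ m, m₀ ≤ m → y m ∈ U := by
  induction hU with
  | basic s hs =>
    obtain ⟨φ, ψ, hle, rfl⟩ := hs
    exact h φ ψ hle hx
  | univ => exact ⟨0, fun _ _ => trivial⟩
  | inter s t _ _ ih1 ih2 =>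
    obtain ⟨m1, h1⟩ := ih1 hx.1
    obtain ⟨m2, h2⟩ := ih2 hx.2
    exact ⟨max m1 m2, fun m hm => ⟨h1 m (le_of_max_le_left hm), h2 m (le_of_max_le_right hm)⟩⟩
  | sUnion S _ ih =>
    obtain ⟨s, hs, hxs⟩ := hx
    obtain ⟨m0, h0⟩ := ih s hs hxs
    exact ⟨m0, fun m hm => ⟨s, hs, h0 m hm⟩⟩

/-- the point of the chain of `p` -/
def BtCh (p : A) (Φ : ℕ → PPFormula A) : Prop :=
  (∀ (N : Type u) [AddCommGroup N] [Module A N] (v : N), v ∈ (Φ 0).sol N ↔ p • v = 0) ∧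
  (∀ n (N : Type u) [AddCommGroup N] [Module A N], (Φ (n + 1)).sol N ⊆ (Φ n).sol N) ∧
  (∀ θ : PPFormula A,
    (∀ (N : Type u) [AddCommGroup N] [Module A N] (v : N),
      p • v = 0 → v ∈ θ.sol N → v = 0) ∨
    ∃ n, ∀ (N : Type u) [AddCommGroup N] [Module A N] (v : N), p • v = 0 →
      (v ∈ θ.sol N ↔ v ∈ (Φ n).sol N))

/-- limit points -/
def BtPL (Φ : ℕ → PPFormula A) (N : Type u) [AddCommGroup N] [Module A N] : Prop :=
  (∃ v : N, v ≠ 0 ∧ v ∈ (Φ 0).sol N) ∧ ∀ n, (Φ 0).sol N ⊆ (Φ n).sol N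

theorem bt_anti {p : A} {Φ : ℕ → PPFormula A} (hch : BtCh p Φ) {m n : ℕ} (hmn : m ≤ n)
    (N : Type u) [AddCommGroup N] [Module A N] : (Φ n).sol N ⊆ (Φ m).sol N := by
  induction hmn with
  | refl => exact subset_rfl
  | step _ ih => exact (hch.2.1 _ N).trans ih

/-- uniqueness by types -/
def BtUT (A : Type u) [Ring A] : Prop :=
  ∀ (N N' : IndecPureInjective A) (x : N.carrier), x ≠ 0 → ∀ x' : N'.carrier,
      (∀ θ : PPFormula A, x ∈ θ.sol N.carrier ↔ x' ∈ θ.sol N'.carrier) →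
      zgPoint N = zgPoint N'

theorem bt_pl_unique {p : A} {Φ : ℕ → PPFormula A} (hch : BtCh p Φ) (huniqt : BtUT A)
    (N N' : IndecPureInjective A) (hN : BtPL Φ N.carrier) (hN' : BtPL Φ N'.carrier) :
    zgPoint N = zgPoint N' := by
  obtain ⟨⟨x, hx, hx0⟩, hxn⟩ := hN
  obtain ⟨⟨x', hx', hx0'⟩, hxn'⟩ := hN'
  have hpx := (hch.1 _ x).mp hx0
  have hpx' := (hch.1 _ x').mp hx0'
  refine huniqt N N' x hx x' fun θ => ?_
  rcases hch.2.2 θ with h1 | ⟨m, hm⟩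
  · constructor
    · intro h; exact absurd (h1 _ x hpx h) hx
    · intro h; exact absurd (h1 _ x' hpx' h) hx'
  · rw [hm _ x hpx, hm _ x' hpx']
    exact ⟨fun _ => hxn' m hx0', fun _ => hxn m hx0⟩

theorem bt_iso_or_pl {p : A} {Φ : ℕ → PPFormula A} (hch : BtCh p Φ) (huniqt : BtUT A)
    (N : IndecPureInjective A) (hN : ∃ v : N.carrier, v ≠ 0 ∧ p • v = 0)
    (hd : zgPoint N ∈ derive (Set.univ : Set (ZieglerSpectrum A))) : BtPL Φ N.carrier := by
  obtain ⟨v, hv, hpv⟩ := hN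
  refine ⟨⟨v, hv, (hch.1 _ v).mpr hpv⟩, ?_⟩
  have key : ∀ n, (Φ n).sol N.carrier ⊆ (Φ (n + 1)).sol N.carrier := by
    intro n
    by_contra hc
    have hle : (Φ (n + 1)).Le (Φ n) := fun Q _ _ => hch.2.1 n Q
    have hmem : zgPoint N ∈ basicSet (Φ n) (Φ (n + 1)) := (bt_mem _ _ N hle).mpr hc
    obtain ⟨y, hyU, _, hyne⟩ := hd.2 _ (bt_open _ _ hle) hmem
    apply hyne
    obtain ⟨N', rfl⟩ : ∃ N' : IndecPureInjective A, zgPoint N' = y := by
      obtain ⟨N', h, _⟩ := hyU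
      exact ⟨N', h⟩
    have hc' := (bt_mem _ _ N' hle).mp hyU
    obtain ⟨x, hx1, hx2⟩ := Set.not_subset.mp hc
    obtain ⟨x', hx1', hx2'⟩ := Set.not_subset.mp hc'
    have hx0 : x ≠ 0 := fun h => hx2 (h ▸ bt_zero _ _)
    have hx0' : x' ≠ 0 := fun h => hx2' (h ▸ bt_zero _ _)
    have hpx : p • x = 0 := (hch.1 _ x).mp (bt_anti hch (Nat.zero_le n) _ hx1)
    have hpx' : p • x' = 0 := (hch.1 _ x').mp (bt_anti hch (Nat.zero_le n) _ hx1')
    symm
    refine huniqt N N' x hx0 x' fun θ => ?_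
    rcases hch.2.2 θ with h1 | ⟨m, hm⟩
    · constructor
      · intro h; exact absurd (h1 _ x hpx h) hx0
      · intro h; exact absurd (h1 _ x' hpx' h) hx0'
    · rw [hm _ x hpx, hm _ x' hpx']
      rcases Nat.lt_or_ge n m with hnm | hnm
      · constructor
        · intro h; exact absurd (bt_anti hch hnm _ h) hx2
        · intro h; exact absurd (bt_anti hch hnm _ h) hx2'
      · exact ⟨fun _ => bt_anti hch hnm _ hx1', fun _ => bt_anti hch hnm _ hx1⟩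
  intro n
  induction n with
  | zero => exact subset_rfl
  | succ n ih => exact ih.trans (key n)

theorem bt_tors
    (hfactor : ∀ P : A → Prop, (∀ u, IsUnit u → P u) → (∀ a b, P a → P b → P (a * b)) →
      (∀ p, p ≠ 0 → IsSimpleModule A (A ⧸ Submodule.span A {p}) → P p) → ∀ a, a ≠ 0 → P a)
    (N : Type u) [AddCommGroup N] [Module A N] (x : N) (hx : x ≠ 0) (a : A) (ha : a ≠ 0)
    (hax : a • x = 0) :
    ∃ p : A, p ≠ 0 ∧ IsSimpleModule A (A ⧸ Submodule.span A {p}) ∧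
      ∃ y : N, y ≠ 0 ∧ p • y = 0 := by
  refine hfactor (fun a => ∀ x : N, x ≠ 0 → a • x = 0 →
    ∃ p : A, p ≠ 0 ∧ IsSimpleModule A (A ⧸ Submodule.span A {p}) ∧
      ∃ y : N, y ≠ 0 ∧ p • y = 0) ?_ ?_ ?_ a ha x hx hax
  · rintro _ ⟨w, rfl⟩ x hx h
    exfalso
    apply hx
    calc x = (1 : A) • x := (one_smul _ _).symm
      _ = ((w⁻¹ : Aˣ) : A) • ((w : A) • x) := by rw [← mul_smul, Units.inv_mul]
      _ = 0 := by rw [h, smul_zero]
  · intro a b iha ihb x hx h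
    rw [mul_smul] at h
    by_cases hb : b • x = 0
    · exact ihb x hx hb
    · exact iha _ hb h
  · intro p hp hs x hx h
    exact ⟨p, hp, hs, x, hx, h⟩

theorem bt_div
    (hfactor : ∀ P : A → Prop, (∀ u, IsUnit u → P u) → (∀ a b, P a → P b → P (a * b)) →
      (∀ p, p ≠ 0 → IsSimpleModule A (A ⧸ Submodule.span A {p}) → P p) → ∀ a, a ≠ 0 → P a)
    (N : Type u) [AddCommGroup N] [Module A N]
    (hN : ∀ p : A, p ≠ 0 → IsSimpleModule A (A ⧸ Submodule.span A {p}) →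
      ∀ x : N, ∃ y : N, p • y = x) :
    ∀ a : A, a ≠ 0 → ∀ x : N, ∃ y : N, a • y = x := by
  refine hfactor (fun a => ∀ x : N, ∃ y : N, a • y = x) ?_ ?_ hN
  · rintro _ ⟨w, rfl⟩ x
    exact ⟨((w⁻¹ : Aˣ) : A) • x, by rw [← mul_smul, Units.mul_inv, one_smul]⟩
  · intro a b iha ihb x
    obtain ⟨y, rfl⟩ := iha x
    obtain ⟨z, rfl⟩ := ihb y
    exact ⟨z, mul_smul _ _ _⟩

theorem bt_indec (M : Type u) [AddCommGroup M] [Module A M] (hu : Uniserial A M)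
    (hn : ∃ s : M, s ≠ 0) : IsIndecomposable A M := by
  obtain ⟨s, hs⟩ := hn
  refine ⟨⟨s, 0, hs⟩, ?_⟩
  intro N₁ N₂ hc
  rcases hu N₁ N₂ with h | h
  · left
    exact (hc.disjoint.eq_bot_of_le h)
  · right
    exact (hc.disjoint.symm.eq_bot_of_le h)


theorem bt_limit
    (hann : ∀ p : A, ∃ κ : PPFormula A,
      ∀ (N : Type u) [AddCommGroup N] [Module A N] (v : N), v ∈ κ.sol N ↔ p • v = 0)
    (hdvd : ∀ p : A, ∃ κ : PPFormula A,
      ∀ (N : Type u) [AddCommGroup N] [Module A N] (v : N), v ∈ κ.sol N ↔ ∃ w : N, p • w = v)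
    (hex : ∀ (T : Set (PPFormula A × PPFormula A)) (Y : Type u) [AddCommGroup Y] [Module A Y]
      (φ ψ : PPFormula A), (∀ p ∈ T, p.1.sol Y ⊆ p.2.sol Y) → ¬ φ.sol Y ⊆ ψ.sol Y →
      ∃ N : IndecPureInjective A, (∀ p ∈ T, p.1.sol N.carrier ⊆ p.2.sol N.carrier) ∧
        ¬ φ.sol N.carrier ⊆ ψ.sol N.carrier)
    (hhull : ∀ (M : Type u) [AddCommGroup M] [Module A M], IsFiniteLength A M →
      IsIndecomposable A M → ∃ H : IndecPureInjective A, ∀ φ ψ : PPFormula A,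
        φ.sol M ⊆ ψ.sol M ↔ φ.sol H.carrier ⊆ ψ.sol H.carrier)
    (p : A)
    (E : Type u) [AddCommGroup E] [Module A E] (s : E) (En : ℕ → Submodule A E)
    (Φ : ℕ → PPFormula A) (hs : s ≠ 0) (hps : p • s = 0)
    (hEd : ∀ p : A, p ≠ 0 → ∀ x : E, ∃ y : E, p • y = x)
    (hmono : Monotone En) (hcov : ∀ x, ∃ m, x ∈ En m) (hsm : ∀ m, s ∈ En m)
    (hfl : ∀ m, IsFiniteLength A (En m)) (hun : ∀ m, Uniserial A (En m))
    (hch : BtCh p Φ)
    (hdivΦ : ∀ (N : Type u) [AddCommGroup N] [Module A N],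
          (∀ p : A, p ≠ 0 → ∀ x : N, ∃ y : N, p • y = x) → ∀ n (v : N), p • v = 0 →
          v ∈ (Φ n).sol N)
    (hfin : ∀ (N : Type u) [AddCommGroup N] [Module A N], IsFiniteLength A N →
          ∃ n, ∀ v : N, v ∈ (Φ n).sol N → v = 0) :
    ∃ L : IndecPureInjective A, (∀ q : A, q ≠ 0 → ∀ x : L.carrier, ∃ y, q • y = x) ∧
      BtPL Φ L.carrier ∧ zgPoint L ∈ derive (Set.univ : Set (ZieglerSpectrum A)) := by
  obtain ⟨ζ, hζ⟩ := hann 1
  obtain ⟨τ, hτ⟩ := hann 0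
  have hζ' : ∀ (N : Type u) [AddCommGroup N] [Module A N] (v : N), v ∈ ζ.sol N ↔ v = 0 := by
    intro N _ _ v
    rw [hζ, one_smul]
  have hτ' : ∀ (N : Type u) [AddCommGroup N] [Module A N] (v : N), v ∈ τ.sol N := by
    intro N _ _ v
    rw [hτ, zero_smul]
  obtain ⟨L, hLT, hL0⟩ := hex {q | q.1.sol E ⊆ q.2.sol E} E (Φ 0) ζ (fun q hq => hq) (by
    intro hc
    exact hs ((hζ' E s).mp (hc ((hch.1 E s).mpr hps))))
  have hLd : ∀ q : A, q ≠ 0 → ∀ x : L.carrier, ∃ y, q • y = x := by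
    intro q hq x
    obtain ⟨δ, hδ⟩ := hdvd q
    have h1 : τ.sol L.carrier ⊆ δ.sol L.carrier := by
      refine hLT (τ, δ) ?_
      intro v _
      rw [hδ]
      exact hEd q hq v
    exact (hδ _ x).mp (h1 (hτ' _ x))
  obtain ⟨v0, hv0, hv0'⟩ := Set.not_subset.mp hL0
  have hv0n : v0 ≠ 0 := fun h => hv0' ((hζ' _ _).mpr h)
  have hPL : BtPL Φ L.carrier := by
    refine ⟨⟨v0, hv0n, hv0⟩, fun n v hv => hdivΦ _ hLd n v ((hch.1 _ v).mp hv)⟩
  refine ⟨L, hLd, hPL, Set.mem_univ _, ?_⟩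
  intro U hU hLU
  have hind : ∀ m, IsIndecomposable A (En m) := by
    intro m
    refine bt_indec _ (hun m) ⟨⟨s, hsm m⟩, ?_⟩
    intro h
    exact hs (congrArg Subtype.val h)
  choose H hH using fun m => hhull (En m) (hfl m) (hind m)
  obtain ⟨m₀, hm₀⟩ := bt_nhds (zgPoint L) (fun m => zgPoint (H m)) (by
    intro φ ψ hle hmem
    have h1 := (bt_mem _ _ L hle).mp hmem
    have h2 : ¬ φ.sol E ⊆ ψ.sol E := fun hc => h1 (hLT (φ, ψ) hc)
    obtain ⟨v, hv, hv'⟩ := Set.not_subset.mp h2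
    obtain ⟨z, hz⟩ := hv
    choose mz hmz using fun i => hcov (z i)
    obtain ⟨mv, hmv⟩ := hcov v
    refine ⟨max mv (Finset.univ.sup mz), fun m hm => ?_⟩
    have hvm : v ∈ En m := hmono (le_of_max_le_left hm) hmv
    have hzm : ∀ i, z i ∈ En m := fun i =>
      hmono ((Finset.le_sup (Finset.mem_univ i)).trans (le_of_max_le_right hm)) (hmz i)
    rw [bt_mem _ _ _ hle, ← hH m]
    intro hc
    have h3 : (⟨v, hvm⟩ : En m) ∈ φ.sol (En m) := by
      refine ⟨fun i => ⟨z i, hzm i⟩, fun j => ?_⟩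
      apply Subtype.ext
      have := hz j
      simpa using this
    have h4 := bt_map ψ (En m).subtype (hc h3)
    exact hv' h4) U hU hLU
  refine ⟨zgPoint (H m₀), hm₀ m₀ le_rfl, Set.mem_univ _, ?_⟩
  intro he
  obtain ⟨n, hn⟩ := hfin (En m₀) (hfl m₀)
  have h5 : (Φ n).sol (En m₀) ⊆ ζ.sol (En m₀) := fun v hv => (hζ' _ v).mpr (hn v hv)
  have h6 := (hH m₀ _ _).mp h5
  obtain ⟨e⟩ := Quotient.exact he
  have h7 : v0 ∈ (Φ n).sol L.carrier := hPL.2 n hv0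
  have h8 : e.symm v0 ∈ (Φ n).sol (H m₀).carrier := (bt_iso _ e.symm v0).mpr h7
  have h9 := (hζ' _ _).mp (h6 h8)
  apply hv0n
  simpa using h9

end BetaTopAux

theorem beta_top {A : Type u} [Ring A] {d : A → ℕ} (h : Euclid A d)
    (hX : ∃ a : A, a ≠ 0 ∧ ¬ IsUnit a)
    (htwo : cb (ZieglerSpectrum A) (2 : Ordinal.{v}) =
      derive (derive (Set.univ : Set (ZieglerSpectrum A))))
    (hann : ∀ p : A, ∃ κ : PPFormula A,
      ∀ (N : Type u) [AddCommGroup N] [Module A N] (v : N), v ∈ κ.sol N ↔ p • v = 0)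
    (hdvd : ∀ p : A, ∃ κ : PPFormula A,
      ∀ (N : Type u) [AddCommGroup N] [Module A N] (v : N), v ∈ κ.sol N ↔ ∃ w : N, p • w = v)
    (hex : ∀ (T : Set (PPFormula A × PPFormula A)) (Y : Type u) [AddCommGroup Y] [Module A Y]
      (φ ψ : PPFormula A), (∀ p ∈ T, p.1.sol Y ⊆ p.2.sol Y) → ¬ φ.sol Y ⊆ ψ.sol Y →
      ∃ N : IndecPureInjective A, (∀ p ∈ T, p.1.sol N.carrier ⊆ p.2.sol N.carrier) ∧
        ¬ φ.sol N.carrier ⊆ ψ.sol N.carrier)
    (hdivex : ∀ (M : Type u) [AddCommGroup M] [Module A M],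
      ∃ (E : Type u) (_ : AddCommGroup E) (_ : Module A E) (i : M →ₗ[A] E),
        Function.Injective i ∧ ∀ p : A, p ≠ 0 → ∀ x : E, ∃ y : E, p • y = x)
    (hore : ∀ a b : A, a ≠ 0 → b ≠ 0 → ∃ x y : A, x * a = y * b ∧ x * a ≠ 0)
    (hsimple : ∃ p : A, p ≠ 0 ∧ IsSimpleModule A (A ⧸ Submodule.span A {p}))
    (hfactor : ∀ P : A → Prop, (∀ u, IsUnit u → P u) → (∀ a b, P a → P b → P (a * b)) →
      (∀ p, p ≠ 0 → IsSimpleModule A (A ⧸ Submodule.span A {p}) → P p) → ∀ a, a ≠ 0 → P a)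
    (hmax : ∀ p : A, p ≠ 0 → IsSimpleModule A (A ⧸ Submodule.span A {p}) → ∀ q : A,
      (∀ b, q ≠ p * b) → ∃ a b : A, p * a + q * b = 1)
    (htf : ∀ θ : PPFormula A, ∃ g : A, ∀ (N : Type u) [AddCommGroup N] [Module A N],
      (∀ p : A, p ≠ 0 → ∀ x : N, p • x = 0 → x = 0) →
      ∀ v : N, v ∈ θ.sol N ↔ ∃ w : N, v = g • w)
    (h01 : ∀ θ : PPFormula A,
      (∃ q : A, q ≠ 0 ∧ ∀ (N : Type u) [AddCommGroup N] [Module A N] (v : N),
        v ∈ θ.sol N → q • v = 0) ∨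
      (∃ r : A, r ≠ 0 ∧ ∀ (N : Type u) [AddCommGroup N] [Module A N] (v : N),
        r • v ∈ θ.sol N))
    (huniq : ∀ (N N' : IndecPureInjective A) (φ ψ : PPFormula A),
      ψ.sol N.carrier ⊆ φ.sol N.carrier → ψ.sol N'.carrier ⊆ φ.sol N'.carrier →
      ¬ φ.sol N.carrier ⊆ ψ.sol N.carrier → ¬ φ.sol N'.carrier ⊆ ψ.sol N'.carrier →
      (∀ θ : PPFormula A,
        ((∀ v ∈ φ.sol N.carrier, v ∈ θ.sol N.carrier → v ∈ ψ.sol N.carrier) ∧
          (∀ v ∈ φ.sol N'.carrier, v ∈ θ.sol N'.carrier → v ∈ ψ.sol N'.carrier)) ∨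
        ((∀ v ∈ φ.sol N.carrier, ∃ w ∈ θ.sol N.carrier, v - w ∈ ψ.sol N.carrier) ∧
          (∀ v ∈ φ.sol N'.carrier, ∃ w ∈ θ.sol N'.carrier, v - w ∈ ψ.sol N'.carrier))) →
      zgPoint N = zgPoint N')
    (huniqt : ∀ (N N' : IndecPureInjective A) (x : N.carrier), x ≠ 0 → ∀ x' : N'.carrier,
      (∀ θ : PPFormula A, x ∈ θ.sol N.carrier ↔ x' ∈ θ.sol N'.carrier) →
      zgPoint N = zgPoint N')
    (hhull : ∀ (M : Type u) [AddCommGroup M] [Module A M], IsFiniteLength A M →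
      IsIndecomposable A M → ∃ H : IndecPureInjective A, ∀ φ ψ : PPFormula A,
        φ.sol M ⊆ ψ.sol M ↔ φ.sol H.carrier ⊆ ψ.sol H.carrier)
    (hchain : ∀ p : A, p ≠ 0 → IsSimpleModule A (A ⧸ Submodule.span A {p}) →
      ∃ (E : Type u) (_ : AddCommGroup E) (_ : Module A E) (s : E) (En : ℕ → Submodule A E)
        (Φ : ℕ → PPFormula A), s ≠ 0 ∧ p • s = 0 ∧
        (∀ p : A, p ≠ 0 → ∀ x : E, ∃ y : E, p • y = x) ∧
        Monotone En ∧ (∀ x, ∃ m, x ∈ En m) ∧ (∀ m, s ∈ En m) ∧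
        (∀ m, IsFiniteLength A (En m)) ∧ (∀ m, Uniserial A (En m)) ∧
        (∀ (N : Type u) [AddCommGroup N] [Module A N] (v : N),
          v ∈ (Φ 0).sol N ↔ p • v = 0) ∧
        (∀ n (N : Type u) [AddCommGroup N] [Module A N], (Φ (n + 1)).sol N ⊆ (Φ n).sol N) ∧
        (∀ θ : PPFormula A,
          (∀ (N : Type u) [AddCommGroup N] [Module A N] (v : N),
            p • v = 0 → v ∈ θ.sol N → v = 0) ∨
          ∃ n, ∀ (N : Type u) [AddCommGroup N] [Module A N] (v : N), p • v = 0 →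
            (v ∈ θ.sol N ↔ v ∈ (Φ n).sol N)) ∧
        (∀ (N : Type u) [AddCommGroup N] [Module A N],
          (∀ p : A, p ≠ 0 → ∀ x : N, ∃ y : N, p • y = x) → ∀ n (v : N), p • v = 0 →
          v ∈ (Φ n).sol N) ∧
        (∀ (N : Type u) [AddCommGroup N] [Module A N], IsFiniteLength A N →
          ∃ n, ∀ v : N, v ∈ (Φ n).sol N → v = 0)) :
    ∃ q : ZieglerSpectrum A, cb (ZieglerSpectrum A) (2 : Ordinal.{v}) = {q} := by
  obtain ⟨ζ, hζ⟩ := hann 1
  obtain ⟨τ, hτ⟩ := hann 0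
  have hζ' : ∀ (N : Type u) [AddCommGroup N] [Module A N] (v : N), v ∈ ζ.sol N ↔ v = 0 := by
    intro N _ _ v
    rw [hζ, one_smul]
  have hτ' : ∀ (N : Type u) [AddCommGroup N] [Module A N] (v : N), v ∈ τ.sol N := by
    intro N _ _ v
    rw [hτ, zero_smul]
  have hUT : BtUT A := huniqt
  have hlim : ∀ p : A, p ≠ 0 → IsSimpleModule A (A ⧸ Submodule.span A {p}) →
      ∃ Φ : ℕ → PPFormula A, BtCh p Φ ∧ ∃ L : IndecPureInjective A,
        (∀ q : A, q ≠ 0 → ∀ x : L.carrier, ∃ y, q • y = x) ∧ BtPL Φ L.carrier ∧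
        zgPoint L ∈ derive (Set.univ : Set (ZieglerSpectrum A)) := by
    intro p hp hs
    obtain ⟨E, i1, i2, s, En, Φ, c1, c2, c3, c4, c5, c6, c7, c8, c9, c10, c11, c12, c13⟩ :=
      hchain p hp hs
    have hch : BtCh p Φ := ⟨c9, c10, c11⟩
    exact ⟨Φ, hch, bt_limit hann hdvd hex hhull p E s En Φ c1 c2 c3 c4 c5 c6 c7 c8 hch c12 c13⟩
  have hsurj : ∀ y : ZieglerSpectrum A, ∃ N : IndecPureInjective A, zgPoint N = y := by
    intro y
    exact Quotient.exists_rep y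
  -- torsion points
  have hT : ∀ N : IndecPureInjective A, ∀ x : N.carrier, x ≠ 0 → ∀ a : A, a ≠ 0 → a • x = 0 →
      zgPoint N ∈ derive (Set.univ : Set (ZieglerSpectrum A)) →
      ∃ (p : A) (Φ : ℕ → PPFormula A), BtCh p Φ ∧ BtPL Φ N.carrier ∧
        ∃ L : IndecPureInjective A, (∀ q : A, q ≠ 0 → ∀ x : L.carrier, ∃ y, q • y = x) ∧
          BtPL Φ L.carrier := by
    intro N x hx a ha hax hd
    obtain ⟨p, hp, hs, y, hy, hpy⟩ := bt_tors hfactor N.carrier x hx a ha hax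
    obtain ⟨Φ, hch, L, hL1, hL2, _⟩ := hlim p hp hs
    exact ⟨p, Φ, hch, bt_iso_or_pl hch hUT N ⟨y, hy, hpy⟩ hd, L, hL1, hL2⟩
  have hiii : ∀ N : IndecPureInjective A, ∀ x : N.carrier, x ≠ 0 → ∀ a : A, a ≠ 0 → a • x = 0 →
      zgPoint N ∉ derive (derive (Set.univ : Set (ZieglerSpectrum A))) := by
    intro N x hx a ha hax hN
    obtain ⟨p, Φ, hch, hPL, _⟩ := hT N x hx a ha hax hN.1
    have hle : ζ.Le (Φ 0) := by
      intro Q _ _ v hv
      rw [(hζ' Q v).mp hv]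
      exact bt_zero _ _
    have hmem : zgPoint N ∈ basicSet (Φ 0) ζ := by
      rw [bt_mem _ _ _ hle]
      obtain ⟨⟨v, hv, hv0⟩, _⟩ := hPL
      exact fun hc => hv ((hζ' _ v).mp (hc hv0))
    obtain ⟨y, hyU, hyd, hyne⟩ := hN.2 _ (bt_open _ _ hle) hmem
    obtain ⟨N', rfl⟩ := hsurj y
    obtain ⟨v, hv, hv'⟩ := Set.not_subset.mp ((bt_mem _ _ N' hle).mp hyU)
    have hPL' := bt_iso_or_pl hch hUT N' ⟨v, fun h => hv' ((hζ' _ v).mpr h), (hch.1 _ v).mp hv⟩ hyd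
    exact hyne (bt_pl_unique hch hUT N' N hPL' hPL)
  have hTFne : ∀ N : IndecPureInjective A,
      zgPoint N ∈ derive (derive (Set.univ : Set (ZieglerSpectrum A))) →
      ∀ p : A, p ≠ 0 → ∀ x : N.carrier, p • x = 0 → x = 0 := by
    intro N hN p hp x hpx
    by_contra hx
    exact hiii N x hx p hp hpx hN
  have hiv : ∀ N : IndecPureInjective A,
      zgPoint N ∈ derive (derive (Set.univ : Set (ZieglerSpectrum A))) →
      ∀ a : A, a ≠ 0 → ∀ x : N.carrier, ∃ y : N.carrier, a • y = x := by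
    intro N hN
    have hTF := hTFne N hN
    by_contra hcon
    have h1 : ¬ ∀ p : A, p ≠ 0 → IsSimpleModule A (A ⧸ Submodule.span A {p}) →
      ∀ x : N.carrier, ∃ y : N.carrier, p • y = x := fun h => hcon (bt_div hfactor N.carrier h)
    push Not at h1
    obtain ⟨p, hp, hs, x, hx⟩ := h1
    obtain ⟨δ, hδ⟩ := hdvd p
    have hle : δ.Le τ := fun Q _ _ v _ => hτ' Q v
    have hmem : zgPoint N ∈ basicSet τ δ := by
      rw [bt_mem _ _ _ hle]
      intro hc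
      obtain ⟨w, hw⟩ := (hδ _ x).mp (hc (hτ' _ x))
      exact hx w hw
    obtain ⟨y, hyU, hyd, hyne⟩ := hN.2 _ (bt_open _ _ hle) hmem
    obtain ⟨N', rfl⟩ := hsurj y
    have hU' := (bt_mem _ _ N' hle).mp hyU
    have hTF' : ∀ p : A, p ≠ 0 → ∀ x : N'.carrier, p • x = 0 → x = 0 := by
      intro p' hp' x' hpx'
      by_contra hx'
      obtain ⟨p2, Φ, hch, hPL, L, hLd, hLP⟩ := hT N' x' hx' p' hp' hpx' hyd
      have he := bt_pl_unique hch hUT N' L hPL hLP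
      rw [he] at hyU
      apply (bt_mem _ _ L hle).mp hyU
      intro v _
      exact (hδ _ v).mpr (hLd p hp v)
    apply hyne
    symm
    refine huniq N N' τ δ (hle _) (hle _) ((bt_mem _ _ N hle).mp hmem) hU' fun θ => ?_
    obtain ⟨g, hg⟩ := htf θ
    by_cases hb : ∃ b, g = p * b
    · left
      obtain ⟨b, rfl⟩ := hb
      constructor
      · intro v _ hv
        obtain ⟨w, rfl⟩ := (hg _ hTF v).mp hv
        exact (hδ _ _).mpr ⟨b • w, (mul_smul _ _ _).symm⟩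
      · intro v _ hv
        obtain ⟨w, rfl⟩ := (hg _ hTF' v).mp hv
        exact (hδ _ _).mpr ⟨b • w, (mul_smul _ _ _).symm⟩
    · right
      push Not at hb
      obtain ⟨a, b, hab⟩ := hmax p hp hs g hb
      constructor
      · intro v _
        refine ⟨g • (b • v), (hg _ hTF _).mpr ⟨b • v, rfl⟩, (hδ _ _).mpr ⟨a • v, ?_⟩⟩
        rw [← mul_smul, ← mul_smul, eq_sub_iff_add_eq, ← add_smul, hab, one_smul]
      · intro v _
        refine ⟨g • (b • v), (hg _ hTF' _).mpr ⟨b • v, rfl⟩, (hδ _ _).mpr ⟨a • v, ?_⟩⟩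
        rw [← mul_smul, ← mul_smul, eq_sub_iff_add_eq, ← add_smul, hab, one_smul]
  -- uniqueness of the torsion-free divisible point
  have hv1 : ∀ N N' : IndecPureInjective A,
      (∀ p : A, p ≠ 0 → ∀ x : N.carrier, p • x = 0 → x = 0) →
      (∀ p : A, p ≠ 0 → ∀ x : N'.carrier, p • x = 0 → x = 0) →
      (∀ a : A, a ≠ 0 → ∀ x : N.carrier, ∃ y : N.carrier, a • y = x) →
      (∀ a : A, a ≠ 0 → ∀ x : N'.carrier, ∃ y : N'.carrier, a • y = x) →
      zgPoint N = zgPoint N' := by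
    intro N N' hTF hTF' hD hD'
    haveI := N.indecomposable.1
    haveI := N'.indecomposable.1
    obtain ⟨x, hx⟩ := exists_ne (0 : N.carrier)
    obtain ⟨x', hx'⟩ := exists_ne (0 : N'.carrier)
    refine hUT N N' x hx x' fun θ => ?_
    rcases h01 θ with ⟨q, hq, h1⟩ | ⟨r, hr, h1⟩
    · constructor
      · intro h; exact absurd (hTF q hq x (h1 _ x h)) hx
      · intro h; exact absurd (hTF' q hq x' (h1 _ x' h)) hx'
    · obtain ⟨y, rfl⟩ := hD r hr x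
      obtain ⟨y', rfl⟩ := hD' r hr x'
      exact ⟨fun _ => h1 _ y', fun _ => h1 _ y⟩
  -- existence
  have hv2 : ∃ Q : IndecPureInjective A,
      (∀ p : A, p ≠ 0 → ∀ x : Q.carrier, p • x = 0 → x = 0) ∧
      (∀ a : A, a ≠ 0 → ∀ x : Q.carrier, ∃ y : Q.carrier, a • y = x) := by
    obtain ⟨E₀, i1, i2, i, hi, hE₀⟩ := hdivex A
    have h1ne : (1 : A) ≠ 0 := h.nontriv
    let T : Submodule A E₀ :=
      { carrier := {x | ∃ a : A, a ≠ 0 ∧ a • x = 0}
        zero_mem' := ⟨1, h1ne, smul_zero _⟩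
        add_mem' := by
          rintro x y ⟨a, ha, hax⟩ ⟨b, hb, hby⟩
          obtain ⟨c, d', hcd, hne⟩ := hore a b ha hb
          refine ⟨c * a, hne, ?_⟩
          rw [smul_add]
          conv_lhs => rw [show (c * a) • y = (d' * b) • y by rw [hcd]]
          rw [mul_smul, mul_smul, hax, hby, smul_zero, smul_zero, add_zero]
        smul_mem' := by
          rintro r x ⟨a, ha, hax⟩
          by_cases hr : r = 0
          · exact ⟨1, h1ne, by rw [hr, zero_smul, smul_zero]⟩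
          · obtain ⟨c, d', hcd, hne⟩ := hore r a hr ha
            refine ⟨c, ?_, ?_⟩
            · rintro rfl
              exact hne (zero_mul _)
            · rw [← mul_smul, hcd, mul_smul, hax, smul_zero] }
    have hTmem : ∀ x : E₀, x ∈ T ↔ ∃ a : A, a ≠ 0 ∧ a • x = 0 := fun x => Iff.rfl
    have hYtf : ∀ p : A, p ≠ 0 → ∀ x : E₀ ⧸ T, p • x = 0 → x = 0 := by
      intro p hp x
      induction x using Submodule.Quotient.induction_on with
      | H x =>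
        rw [← Submodule.Quotient.mk_smul, Submodule.Quotient.mk_eq_zero,
          Submodule.Quotient.mk_eq_zero, hTmem, hTmem]
        rintro ⟨b, hb, hbx⟩
        exact ⟨b * p, h.mul_ne b p hb hp, by rw [mul_smul]; exact hbx⟩
    have hYd : ∀ p : A, p ≠ 0 → ∀ x : E₀ ⧸ T, ∃ y, p • y = x := by
      intro p hp x
      induction x using Submodule.Quotient.induction_on with
      | H x =>
        obtain ⟨y, rfl⟩ := hE₀ p hp x
        exact ⟨Submodule.Quotient.mk y, (Submodule.Quotient.mk_smul _ _ _).symm⟩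
    have hYn : (Submodule.Quotient.mk (i 1) : E₀ ⧸ T) ≠ 0 := by
      rw [Ne, Submodule.Quotient.mk_eq_zero, hTmem]
      rintro ⟨a, ha, h0⟩
      rw [← map_smul, smul_eq_mul, mul_one] at h0
      exact ha (hi (h0.trans (map_zero i).symm))
    choose κ hκ using hann
    choose δ hδ using hdvd
    obtain ⟨Q, hQT, hQ0⟩ := hex
      ({q | ∃ r : A, r ≠ 0 ∧ (q = (κ r, ζ) ∨ q = (τ, δ r))}) (E₀ ⧸ T) τ ζ (by
        rintro q ⟨r, hr, rfl | rfl⟩
        · intro v hv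
          exact (hζ' _ v).mpr (hYtf r hr v ((hκ r _ v).mp hv))
        · intro v _
          exact (hδ r _ v).mpr (hYd r hr v)) (by
        intro hc
        exact hYn ((hζ' _ _).mp (hc (hτ' _ _))))
    refine ⟨Q, ?_, ?_⟩
    · intro p hp x hpx
      exact (hζ' _ x).mp (hQT (κ p, ζ) ⟨p, hp, Or.inl rfl⟩ ((hκ p _ x).mpr hpx))
    · intro a ha x
      exact (hδ a _ x).mp (hQT (τ, δ a) ⟨a, ha, Or.inr rfl⟩ (hτ' _ x))
  obtain ⟨Q, hQtf, hQd⟩ := hv2
  haveI := Q.indecomposable.1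
  obtain ⟨xQ, hxQ⟩ := exists_ne (0 : Q.carrier)
  obtain ⟨p, hp, hs⟩ := hsimple
  obtain ⟨Φ, hch, L, hLd, hLP, hLder⟩ := hlim p hp hs
  haveI := L.indecomposable.1
  obtain ⟨xL, hxL⟩ := exists_ne (0 : L.carrier)
  have hLne : zgPoint L ≠ zgPoint Q := by
    intro he
    obtain ⟨e⟩ := Quotient.exact he
    obtain ⟨⟨v, hv, hv0⟩, _⟩ := hLP
    have h1 := (hch.1 _ v).mp hv0
    have h2 : p • e v = 0 := by rw [← map_smul, h1, map_zero]
    have h3 := hQtf p hp _ h2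
    exact hv (e.map_eq_zero_iff.mp h3)
  have hQL : ∀ U : Set (ZieglerSpectrum A), IsOpen U → zgPoint Q ∈ U → zgPoint L ∈ U := by
    intro U hU hQU
    obtain ⟨m₀, hm₀⟩ := bt_nhds (zgPoint Q) (fun _ => zgPoint L) (by
      intro φ ψ hle hmem
      refine ⟨0, fun _ _ => ?_⟩
      have h1 := (bt_mem _ _ Q hle).mp hmem
      rw [bt_mem _ _ L hle]
      rcases h01 φ with ⟨q, hq, hφ⟩ | ⟨r, hr, hφ⟩
      · exfalso
        apply h1
        intro v hv
        rw [hQtf q hq v (hφ _ v hv)]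
        exact bt_zero _ _
      rcases h01 ψ with ⟨q, hq, hψ⟩ | ⟨r', hr', hψ⟩
      · intro hc
        obtain ⟨y, hy⟩ := hLd q hq xL
        obtain ⟨y', hy'⟩ := hLd r hr y
        have h2 : y ∈ φ.sol L.carrier := by
          rw [← hy']; exact hφ _ y'
        have h3 := hψ _ y (hc h2)
        rw [hy] at h3
        exact hxL h3
      · exfalso
        apply h1
        intro v _
        obtain ⟨y, rfl⟩ := hQd r' hr' v
        exact hψ _ y) U hU hQU
    exact hm₀ m₀ le_rfl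
  have hQ1 : zgPoint Q ∈ derive (Set.univ : Set (ZieglerSpectrum A)) :=
    ⟨Set.mem_univ _, fun U hU hQU => ⟨zgPoint L, hQL U hU hQU, Set.mem_univ _, hLne⟩⟩
  have hQ2 : zgPoint Q ∈ derive (derive (Set.univ : Set (ZieglerSpectrum A))) :=
    ⟨hQ1, fun U hU hQU => ⟨zgPoint L, hQL U hU hQU, hLder, hLne⟩⟩
  refine ⟨zgPoint Q, ?_⟩
  rw [htwo]
  ext y
  rw [Set.mem_singleton_iff]
  constructor
  · intro hy
    obtain ⟨N, rfl⟩ := hsurj y
    exact hv1 N Q (hTFne N hy) hQtf (hiv N hy) hQd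
  · rintro rfl
    exact hQ2


end Cb

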