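import Pool.Agent.Helper462.Cb.Defs

namespace Cb

universe u


section DPaux

variable {k : Type u} [Field k] (δ : Derivation ℤ k k)

/-- the operator `X + δ` on finitely supported sequences -/
noncomputable def dpT : AddMonoid.End (ℕ →₀ k) :=
  (Finsupp.mapDomain.addMonoidHom (fun n : ℕ => n + 1) : (ℕ →₀ k) →+ (ℕ →₀ k)) +
    Finsupp.mapRange.addMonoidHom (δ : k →ₗ[ℤ] k).toAddMonoidHom

theorem dpT_single (n : ℕ) (a : k) :
    dpT δ (Finsupp.single n a) = Finsupp.single (n + 1) a + Finsupp.single n (δ a) := by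
  have h : dpT δ (Finsupp.single n a) = Finsupp.mapDomain (fun n : ℕ => n + 1) (Finsupp.single n a) +
    Finsupp.mapRange.addMonoidHom (δ : k →ₗ[ℤ] k).toAddMonoidHom (Finsupp.single n a) := rfl
  rw [h, Finsupp.mapDomain_single, Finsupp.mapRange.addMonoidHom_apply, Finsupp.mapRange_single]
  rfl

/-- scalar multiplication -/
noncomputable def dpI : k →+* AddMonoid.End (ℕ →₀ k) := Module.toAddMonoidEnd k (ℕ →₀ k)

theorem dpI_apply (a : k) (f : ℕ →₀ k) : dpI a f = a • f := rfl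

theorem dp_comm (a : k) : dpT δ * dpI a = dpI a * dpT δ + dpI (δ a) := by
  refine Finsupp.addHom_ext fun n b => ?_
  show dpT δ (dpI a (Finsupp.single n b)) = dpI a (dpT δ (Finsupp.single n b)) +
    dpI (δ a) (Finsupp.single n b)
  rw [dpI_apply, dpI_apply, dpI_apply, Finsupp.smul_single, Finsupp.smul_single, dpT_single,
    dpT_single, smul_add, Finsupp.smul_single, Finsupp.smul_single, add_assoc,
    ← Finsupp.single_add]
  congr 2
  simp only [smul_eq_mul, Derivation.leibniz]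
  ring

theorem dpT_pow (n : ℕ) : (dpT δ ^ n) (Finsupp.single 0 1) = Finsupp.single n 1 := by
  induction n with
  | zero => rfl
  | succ n ih =>
    rw [pow_succ']
    show dpT δ ((dpT δ ^ n) (Finsupp.single 0 1)) = _
    rw [ih, dpT_single, Derivation.map_one_eq_zero, Finsupp.single_zero, add_zero]

/-- the evaluation of a polynomial -/
noncomputable def dpPhi : (ℕ →₀ k) →+ AddMonoid.End (ℕ →₀ k) :=
  Finsupp.liftAddHom (fun n => (AddMonoidHom.mulRight (dpT δ ^ n)).comp
    (dpI (k := k)).toAddMonoidHom)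

theorem dpPhi_apply (p : ℕ →₀ k) : dpPhi δ p = p.sum fun n a => dpI a * dpT δ ^ n := rfl

theorem dpPhi_single (n : ℕ) (a : k) : dpPhi δ (Finsupp.single n a) = dpI a * dpT δ ^ n := by
  rw [dpPhi_apply, Finsupp.sum_single_index]
  rw [map_zero, zero_mul]

theorem dpPhi_ev (p : ℕ →₀ k) : (dpPhi δ p) (Finsupp.single 0 1) = p := by
  induction p using Finsupp.induction_linear with
  | zero => rw [map_zero]; rfl
  | add p q hp hq =>
    rw [map_add]
    show (dpPhi δ p) (Finsupp.single 0 1) + (dpPhi δ q) (Finsupp.single 0 1) = _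
    rw [hp, hq]
  | single n a =>
    rw [dpPhi_single]
    show dpI a ((dpT δ ^ n) (Finsupp.single 0 1)) = _
    rw [dpT_pow, dpI_apply, Finsupp.smul_single, smul_eq_mul, mul_one]

theorem dp_mulI (a : k) (p : ℕ →₀ k) : ∃ q, dpPhi δ q = dpI a * dpPhi δ p := by
  induction p using Finsupp.induction_linear with
  | zero => exact ⟨0, by rw [map_zero, mul_zero]⟩
  | add p q hp hq =>
    obtain ⟨x, hx⟩ := hp
    obtain ⟨y, hy⟩ := hq
    exact ⟨x + y, by rw [map_add, hx, hy, map_add, mul_add]⟩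
  | single n b =>
    exact ⟨Finsupp.single n (a * b), by rw [dpPhi_single, dpPhi_single, map_mul, mul_assoc]⟩

theorem dp_mulT (p : ℕ →₀ k) : ∃ q, dpPhi δ q = dpT δ * dpPhi δ p := by
  induction p using Finsupp.induction_linear with
  | zero => exact ⟨0, by rw [map_zero, mul_zero]⟩
  | add p q hp hq =>
    obtain ⟨x, hx⟩ := hp
    obtain ⟨y, hy⟩ := hq
    exact ⟨x + y, by rw [map_add, hx, hy, map_add, mul_add]⟩
  | single n b =>
    refine ⟨Finsupp.single (n + 1) b + Finsupp.single n (δ b), ?_⟩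
    rw [map_add, dpPhi_single, dpPhi_single, dpPhi_single, ← mul_assoc, dp_comm, add_mul,
      pow_succ', ← mul_assoc]

theorem dp_mulTn (n : ℕ) (p : ℕ →₀ k) : ∃ q, dpPhi δ q = dpT δ ^ n * dpPhi δ p := by
  induction n with
  | zero => exact ⟨p, by rw [pow_zero, one_mul]⟩
  | succ n ih =>
    obtain ⟨q, hq⟩ := ih
    obtain ⟨r, hr⟩ := dp_mulT δ q
    exact ⟨r, by rw [hr, hq, pow_succ', mul_assoc]⟩

theorem dp_mul (p q : ℕ →₀ k) : ∃ r, dpPhi δ r = dpPhi δ p * dpPhi δ q := by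
  induction p using Finsupp.induction_linear with
  | zero => exact ⟨0, by rw [map_zero, zero_mul]⟩
  | add p p' hp hq =>
    obtain ⟨x, hx⟩ := hp
    obtain ⟨y, hy⟩ := hq
    exact ⟨x + y, by rw [map_add, hx, hy, map_add, add_mul]⟩
  | single n b =>
    obtain ⟨x, hx⟩ := dp_mulTn δ n q
    obtain ⟨y, hy⟩ := dp_mulI δ b x
    exact ⟨y, by rw [hy, hx, dpPhi_single, mul_assoc]⟩

/-- the differential polynomial ring -/
noncomputable def dpA : Subring (AddMonoid.End (ℕ →₀ k)) where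
  carrier := {e | ∃ p, dpPhi δ p = e}
  mul_mem' := by
    rintro a b ⟨p, rfl⟩ ⟨q, rfl⟩
    exact dp_mul δ p q
  one_mem' := ⟨Finsupp.single 0 1, by rw [dpPhi_single, map_one, pow_zero, mul_one]⟩
  add_mem' := by
    rintro a b ⟨p, rfl⟩ ⟨q, rfl⟩
    exact ⟨p + q, map_add _ _ _⟩
  zero_mem' := ⟨0, map_zero _⟩
  neg_mem' := by
    rintro a ⟨p, rfl⟩
    exact ⟨-p, map_neg _ _⟩

end DPaux

theorem exists_diffPoly {k : Type u} [Field k] (δ : Derivation ℤ k k) :
    ∃ (A : Type u) (_ : Ring A), Nonempty (DiffPoly δ A) := by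
  refine ⟨dpA δ, inferInstance, ⟨?_⟩⟩
  have hI : ∀ a : k, dpI a ∈ dpA δ := fun a =>
    ⟨Finsupp.single 0 a, by rw [dpPhi_single, pow_zero, mul_one]⟩
  have hT : dpT δ ∈ dpA δ := ⟨Finsupp.single 1 1, by rw [dpPhi_single, pow_one, map_one, one_mul]⟩
  have hval : ∀ p : ℕ →₀ k, (((p.sum fun n a =>
      (dpI (k := k)).codRestrict (dpA δ) hI a * (⟨dpT δ, hT⟩ : dpA δ) ^ n) : dpA δ) :
        AddMonoid.End (ℕ →₀ k)) = dpPhi δ p := by
    intro p
    have h1 := map_finsuppSum (dpA δ).subtype p (fun n a =>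
      (dpI (k := k)).codRestrict (dpA δ) hI a * (⟨dpT δ, hT⟩ : dpA δ) ^ n)
    exact h1
  exact
    { i := (dpI (k := k)).codRestrict (dpA δ) hI
      X := ⟨dpT δ, hT⟩
      comm := fun a => Subtype.ext (dp_comm δ a)
      bij := by
        refine ⟨fun p q hpq => ?_, fun e => ?_⟩
        · have h1 := congrArg (fun z : dpA δ => (z : AddMonoid.End (ℕ →₀ k))) hpq
          simp only [hval] at h1
          rw [← dpPhi_ev δ p, ← dpPhi_ev δ q, h1]
        · obtain ⟨p, hp⟩ := e.2
          exact ⟨p, Subtype.ext ((hval p).trans hp)⟩ }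

end Cb
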