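import Pool.Agent.Helper462.Cb.Defs

namespace Cb

universe u


section opaux

variable {k : Type u} [Field k] {δ : Derivation ℤ k k} {A : Type u} [Ring A]

/-- lower terms -/
def DiffPoly.low (h : DiffPoly δ A) (n : ℕ) : AddSubgroup A :=
  AddSubgroup.closure {x | ∃ m < n, ∃ b : k, x = h.i b * h.X ^ m}

theorem DiffPoly.low_mono (h : DiffPoly δ A) {m n : ℕ} (hmn : m ≤ n) : h.low m ≤ h.low n :=
  AddSubgroup.closure_mono fun _ ⟨j, hj, b, hb⟩ => ⟨j, hj.trans_le hmn, b, hb⟩

theorem DiffPoly.low_gen (h : DiffPoly δ A) {m n : ℕ} (hmn : m < n) (b : k) :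
    h.i b * h.X ^ m ∈ h.low n := AddSubgroup.subset_closure ⟨m, hmn, b, rfl⟩

theorem DiffPoly.X_low (h : DiffPoly δ A) {n : ℕ} {x : A} (hx : x ∈ h.low n) :
    h.X * x ∈ h.low (n + 1) := by
  induction hx using AddSubgroup.closure_induction with
  | mem x hx =>
    obtain ⟨m, hm, b, rfl⟩ := hx
    have e : h.X * (h.i b * h.X ^ m) = h.i b * h.X ^ (m + 1) + h.i (δ b) * h.X ^ m := by
      rw [← mul_assoc, h.comm, add_mul, pow_succ' h.X m, mul_assoc]
    rw [e]
    exact (h.low _).add_mem (h.low_gen (by omega) _) (h.low_gen (by omega) _)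
  | zero => simp
  | add x y _ _ hx hy => rw [mul_add]; exact (h.low _).add_mem hx hy
  | neg x _ hx => rw [mul_neg]; exact (h.low _).neg_mem hx

theorem DiffPoly.pow_low (h : DiffPoly δ A) (n : ℕ) (b : k) :
    h.X ^ n * h.i b - h.i b * h.X ^ n ∈ h.low n := by
  induction n with
  | zero => simp
  | succ n ih =>
    have e : h.X ^ (n + 1) * h.i b - h.i b * h.X ^ (n + 1) =
        h.X * (h.X ^ n * h.i b - h.i b * h.X ^ n) + h.i (δ b) * h.X ^ n := by
      have h1 : h.X * (h.i b * h.X ^ n) = h.i b * h.X ^ (n + 1) + h.i (δ b) * h.X ^ n := by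
        rw [← mul_assoc, h.comm, add_mul, pow_succ' h.X n, mul_assoc]
      rw [mul_sub, h1, pow_succ' h.X n]
      simp only [mul_assoc]
      abel
    rw [e]
    exact (h.low _).add_mem (h.X_low ih) (h.low_gen (by omega) _)

theorem DiffPoly.negpow_low (h : DiffPoly δ A) (n : ℕ) (b : k) :
    (-h.X) ^ n * h.i b - h.i ((-1) ^ n * b) * h.X ^ n ∈ h.low n := by
  have h1 := h.pow_low n b
  rcases Nat.even_or_odd n with hn | hn
  · rw [hn.neg_pow, hn.neg_one_pow, one_mul]
    exact h1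
  · rw [hn.neg_pow, hn.neg_one_pow]
    have e : -h.X ^ n * h.i b - h.i (-1 * b) * h.X ^ n = -(h.X ^ n * h.i b - h.i b * h.X ^ n) := by
      rw [neg_one_mul, map_neg]
      simp only [neg_mul]
      abel
    rw [e]
    exact (h.low _).neg_mem h1

/-- the expansion map -/
noncomputable def DiffPoly.Phi (h : DiffPoly δ A) : (ℕ →₀ k) →+ A :=
  Finsupp.liftAddHom fun n => (AddMonoidHom.mulRight (h.X ^ n)).comp h.i.toAddMonoidHom

/-- the opposite expansion map -/
noncomputable def DiffPoly.Psi (h : DiffPoly δ A) : (ℕ →₀ k) →+ A :=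
  Finsupp.liftAddHom fun n => (AddMonoidHom.mulLeft ((-h.X) ^ n)).comp h.i.toAddMonoidHom

theorem DiffPoly.Phi_apply (h : DiffPoly δ A) (p : ℕ →₀ k) :
    h.Phi p = p.sum fun n a => h.i a * h.X ^ n := by
  unfold DiffPoly.Phi
  rw [Finsupp.liftAddHom_apply]
  rfl

theorem DiffPoly.Psi_apply (h : DiffPoly δ A) (p : ℕ →₀ k) :
    h.Psi p = p.sum fun n a => (-h.X) ^ n * h.i a := by
  unfold DiffPoly.Psi
  rw [Finsupp.liftAddHom_apply]
  rfl

theorem DiffPoly.Phi_single (h : DiffPoly δ A) (n : ℕ) (b : k) :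
    h.Phi (Finsupp.single n b) = h.i b * h.X ^ n := by
  rw [h.Phi_apply, Finsupp.sum_single_index]
  simp

theorem DiffPoly.Psi_single (h : DiffPoly δ A) (n : ℕ) (b : k) :
    h.Psi (Finsupp.single n b) = (-h.X) ^ n * h.i b := by
  rw [h.Psi_apply, Finsupp.sum_single_index]
  simp

theorem DiffPoly.Phi_bij (h : DiffPoly δ A) : Function.Bijective h.Phi := by
  have e : (h.Phi : (ℕ →₀ k) → A) = fun p : ℕ →₀ k => p.sum fun n a => h.i a * h.X ^ n :=
    funext h.Phi_apply
  rw [e]
  exact h.bij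

theorem DiffPoly.low_Phi (h : DiffPoly δ A) {n : ℕ} {x : A} (hx : x ∈ h.low n) :
    ∃ q : ℕ →₀ k, (∀ m, n ≤ m → q m = 0) ∧ h.Phi q = x := by
  induction hx using AddSubgroup.closure_induction with
  | mem x hx =>
    obtain ⟨m, hm, b, rfl⟩ := hx
    refine ⟨Finsupp.single m b, fun j hj => ?_, h.Phi_single m b⟩
    rw [Finsupp.single_apply, if_neg (by omega)]
  | zero => exact ⟨0, fun _ _ => rfl, map_zero _⟩
  | add x y _ _ hx hy =>
    obtain ⟨p, hp, rfl⟩ := hx
    obtain ⟨q, hq, rfl⟩ := hy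
    exact ⟨p + q, fun m hm => by rw [Finsupp.add_apply, hp m hm, hq m hm, add_zero], map_add _ _ _⟩
  | neg x _ hx =>
    obtain ⟨p, hp, rfl⟩ := hx
    exact ⟨-p, fun m hm => by rw [Finsupp.neg_apply, hp m hm, neg_zero], map_neg _ _⟩

theorem DiffPoly.low_le_Psi (h : DiffPoly δ A) (n : ℕ) : h.low n ≤ h.Psi.range := by
  induction n with
  | zero =>
    refine (AddSubgroup.closure_le _).2 ?_
    rintro x ⟨m, hm, -⟩
    omega
  | succ n ih =>
    refine (AddSubgroup.closure_le _).2 ?_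
    rintro x ⟨m, hm, b, rfl⟩
    rcases Nat.lt_succ_iff_lt_or_eq.1 hm with h1 | rfl
    · exact ih (h.low_gen h1 b)
    · have h2 := h.negpow_low m ((-1) ^ m * b)
      have e : (-1 : k) ^ m * ((-1) ^ m * b) = b := by
        rw [← mul_assoc, ← mul_pow]
        simp
      rw [e] at h2
      have h3 : h.i b * h.X ^ m = h.Psi (Finsupp.single m ((-1) ^ m * b)) -
          ((-h.X) ^ m * h.i ((-1) ^ m * b) - h.i b * h.X ^ m) := by
        rw [h.Psi_single]
        abel
      show h.i b * h.X ^ m ∈ h.Psi.range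
      rw [h3]
      exact AddSubgroup.sub_mem _ ⟨_, rfl⟩ (ih h2)

theorem DiffPoly.Psi_bij (h : DiffPoly δ A) : Function.Bijective h.Psi := by
  constructor
  · rw [injective_iff_map_eq_zero]
    intro p hp
    by_contra hne
    have hs : p.support.Nonempty := Finsupp.support_nonempty_iff.2 hne
    set N := p.support.max' hs with hN
    have hpN : p N ≠ 0 := Finsupp.mem_support_iff.1 (p.support.max'_mem hs)
    -- the rest
    have h1 : h.Psi p - h.i ((-1) ^ N * p N) * h.X ^ N ∈ h.low N := by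
      have e : h.Psi p = (∑ n ∈ p.support.erase N, (-h.X) ^ n * h.i (p n)) +
          (-h.X) ^ N * h.i (p N) := by
        rw [h.Psi_apply, Finsupp.sum,
          ← Finset.sum_erase_add _ _ (p.support.max'_mem hs)]
      rw [e, add_sub_assoc]
      refine (h.low N).add_mem (AddSubgroup.sum_mem _ fun n hn => ?_) (h.negpow_low N (p N))
      obtain ⟨hn1, hn2⟩ := Finset.mem_erase.1 hn
      have hnN : n < N := lt_of_le_of_ne (p.support.le_max' n hn2) hn1
      have h2 : (-h.X) ^ n * h.i (p n) = ((-h.X) ^ n * h.i (p n) -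
          h.i ((-1) ^ n * p n) * h.X ^ n) + h.i ((-1) ^ n * p n) * h.X ^ n := by abel
      rw [h2]
      exact (h.low N).add_mem (h.low_mono hnN.le (h.negpow_low n (p n))) (h.low_gen hnN _)
    rw [hp, zero_sub] at h1
    obtain ⟨q, hq, hqe⟩ := h.low_Phi h1
    have h2 : h.Phi (q + Finsupp.single N ((-1) ^ N * p N)) = 0 := by
      rw [map_add, hqe, h.Phi_single, neg_add_cancel]
    have h3 := h.Phi_bij.1 (h2.trans (map_zero h.Phi).symm)
    have h4 := DFunLike.congr_fun h3 N
    rw [Finsupp.add_apply, hq N le_rfl, Finsupp.single_eq_same, zero_add, Finsupp.zero_apply] at h4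
    exact hpN ((mul_eq_zero.1 h4).resolve_left (pow_ne_zero _ (neg_ne_zero.2 one_ne_zero)))
  · intro a
    obtain ⟨p, rfl⟩ := h.Phi_bij.2 a
    rw [h.Phi_apply]
    have h1 : (p.sum fun n a => h.i a * h.X ^ n) ∈ h.Psi.range :=
      AddSubgroup.sum_mem _ fun n _ => h.low_le_Psi (n + 1) (h.low_gen (Nat.lt_succ_self n) _)
    exact h1

end opaux

theorem DiffPoly.op {k : Type u} [Field k] {δ : Derivation ℤ k k} {A : Type u} [Ring A]
    (h : DiffPoly δ A) : Nonempty (DiffPoly δ Aᵐᵒᵖ) := by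
  refine ⟨{ i := h.i.toOpposite fun x y => (Commute.all x y).map h.i
            X := MulOpposite.op (-h.X)
            comm := fun a => ?_
            bij := ?_ }⟩
  · apply MulOpposite.unop_injective
    show h.i a * (-h.X) = (-h.X) * h.i a + h.i (δ a)
    rw [neg_mul, mul_neg, h.comm]
    abel
  · have e : (fun p : ℕ →₀ k => p.sum fun n a =>
        (h.i.toOpposite fun x y => (Commute.all x y).map h.i) a * MulOpposite.op (-h.X) ^ n) =
        MulOpposite.op ∘ h.Psi := by
      funext p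
      simp only [Function.comp_apply]
      rw [h.Psi_apply, Finsupp.sum, Finsupp.sum, Finset.op_sum]
      refine Finset.sum_congr rfl fun n _ => ?_
      rw [MulOpposite.op_mul, MulOpposite.op_pow]
      rfl
    rw [e]
    exact MulOpposite.op_bijective.comp h.Psi_bij

end Cb
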