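import Pool.Agent.Helper462.Cb.Defs

namespace Cb

universe u


theorem DiffPoly.lift_auxmap {k : Type u} [Field k] {A : Type u} [Ring A] (i : k →+* A) (X : A) :
    ∃ ev : (ℕ →₀ k) →+ A, (∀ p, ev p = p.sum fun n a => i a * X ^ n) ∧
      ∀ n a, ev (Finsupp.single n a) = i a * X ^ n := by
  refine ⟨Finsupp.liftAddHom (fun n => (AddMonoidHom.mulRight (X ^ n)).comp i.toAddMonoidHom), ?_, ?_⟩
  · intro p
    rw [Finsupp.liftAddHom_apply]
    rfl
  · intro n a
    rw [Finsupp.liftAddHom_apply_single]
    rfl

theorem DiffPoly.lift_induction {k : Type u} [Field k] {δ : Derivation ℤ k k} {A : Type u} [Ring A]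
    (h : DiffPoly δ A) (P : A → Prop) (h0 : P 0) (hadd : ∀ x y, P x → P y → P (x + y))
    (hs : ∀ (n : ℕ) a, P (h.i a * h.X ^ n)) (x : A) : P x := by
  obtain ⟨ev, hev, hsingle⟩ := DiffPoly.lift_auxmap h.i h.X
  obtain ⟨p, hp⟩ := h.bij.2 x
  have hp' : ev p = x := by rw [hev]; exact hp
  rw [← hp']
  induction p using Finsupp.induction_linear generalizing x with
  | zero => rw [map_zero]; exact h0
  | add p q ihp ihq =>
    rw [map_add]
    exact hadd _ _ (ihp (ev p) (by rw [hev]) rfl) (ihq (ev q) (by rw [hev]) rfl)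
  | single n a => rw [hsingle]; exact hs n a

theorem DiffPoly.lift {k : Type u} [Field k] {δ : Derivation ℤ k k} {A : Type u} [Ring A]
    (h : DiffPoly δ A) {E : Type u} [Ring E] (f : k →+* E) (y : E)
    (hy : ∀ a, y * f a = f a * y + f (δ a)) :
    ∃ F : A →+* E, (∀ a, F (h.i a) = f a) ∧ F h.X = y := by
  obtain ⟨ev, hev, hsingle⟩ := DiffPoly.lift_auxmap h.i h.X
  obtain ⟨ev', hev', hsingle'⟩ := DiffPoly.lift_auxmap f y
  have hbij : Function.Bijective ev := by
    have : (ev : (ℕ →₀ k) → A) = (fun p : ℕ →₀ k => p.sum fun n a => h.i a * h.X ^ n) := by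
      funext p
      exact hev p
    rw [this]
    exact h.bij
  obtain ⟨e, he⟩ : ∃ e : (ℕ →₀ k) ≃+ A, ∀ p, e p = ev p := ⟨AddEquiv.ofBijective ev hbij, fun p => rfl⟩
  obtain ⟨F, hF⟩ : ∃ F : A →+ E, ∀ p, F (ev p) = ev' p :=
    ⟨ev'.comp e.symm.toAddMonoidHom, fun p => by
      show ev' (e.symm (ev p)) = ev' p
      rw [← he p, e.symm_apply_apply]⟩
  have hFs : ∀ n a, F (h.i a * h.X ^ n) = f a * y ^ n := by
    intro n a
    rw [← hsingle, hF, hsingle']
  have hFi : ∀ a z, F (h.i a * z) = f a * F z := by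
    intro a z
    refine DiffPoly.lift_induction h (fun z => F (h.i a * z) = f a * F z) ?_ ?_ ?_ z
    · show F (h.i a * 0) = f a * F 0
      rw [mul_zero, map_zero, mul_zero]
    · intro x z hx hz
      show F (h.i a * (x + z)) = f a * F (x + z)
      have hx' : F (h.i a * x) = f a * F x := hx
      have hz' : F (h.i a * z) = f a * F z := hz
      rw [mul_add, map_add, map_add, hx', hz', mul_add]
    · intro n b
      show F (h.i a * (h.i b * h.X ^ n)) = f a * F (h.i b * h.X ^ n)
      rw [← mul_assoc, ← map_mul, hFs, hFs, map_mul, mul_assoc]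
  have hFX : ∀ z, F (h.X * z) = y * F z := by
    intro z
    refine DiffPoly.lift_induction h (fun z => F (h.X * z) = y * F z) ?_ ?_ ?_ z
    · show F (h.X * 0) = y * F 0
      rw [mul_zero, map_zero, mul_zero]
    · intro x z hx hz
      show F (h.X * (x + z)) = y * F (x + z)
      have hx' : F (h.X * x) = y * F x := hx
      have hz' : F (h.X * z) = y * F z := hz
      rw [mul_add, map_add, map_add, hx', hz', mul_add]
    · intro n b
      show F (h.X * (h.i b * h.X ^ n)) = y * F (h.i b * h.X ^ n)
      rw [← mul_assoc, h.comm, add_mul, map_add, mul_assoc, ← pow_succ', hFs, hFs, hFs, ← mul_assoc, hy,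
        add_mul, mul_assoc, ← pow_succ']
  have hFXn : ∀ (n : ℕ) z, F (h.X ^ n * z) = y ^ n * F z := by
    intro n
    induction n with
    | zero => intro z; rw [pow_zero, pow_zero, one_mul, one_mul]
    | succ n ih => intro z; rw [pow_succ', mul_assoc, hFX, ih, pow_succ', mul_assoc]
  have hmul : ∀ x z, F (x * z) = F x * F z := by
    intro x z
    refine DiffPoly.lift_induction h (fun x => F (x * z) = F x * F z) ?_ ?_ ?_ x
    · show F (0 * z) = F 0 * F z
      rw [zero_mul, map_zero, zero_mul]
    · intro x w hx hw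
      show F ((x + w) * z) = F (x + w) * F z
      have hx' : F (x * z) = F x * F z := hx
      have hw' : F (w * z) = F w * F z := hw
      rw [add_mul, map_add, map_add, hx', hw', add_mul]
    · intro n a
      show F (h.i a * h.X ^ n * z) = F (h.i a * h.X ^ n) * F z
      rw [mul_assoc, hFi, hFXn, hFs, mul_assoc]
  have hone : F 1 = 1 := by
    have := hFs 0 1
    rw [pow_zero, pow_zero, map_one, map_one, one_mul, one_mul] at this
    exact this
  refine ⟨{ toFun := F, map_one' := hone, map_mul' := hmul, map_zero' := map_zero F, map_add' := map_add F }, ?_, ?_⟩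
  · intro a
    show F (h.i a) = f a
    have := hFs 0 a
    rw [pow_zero, pow_zero, mul_one, mul_one] at this
    exact this
  · show F h.X = y
    have := hFX 1
    rw [mul_one, hone, mul_one] at this
    exact this

/-- two ring homs agreeing on `k` and `X` are equal -/
theorem DiffPoly.hom_ext {k : Type u} [Field k] {δ : Derivation ℤ k k} {A : Type u} [Ring A]
    (h : DiffPoly δ A) {E : Type u} [Ring E] (F G : A →+* E) (h1 : ∀ a, F (h.i a) = G (h.i a))
    (h2 : F h.X = G h.X) : F = G := by
  apply RingHom.ext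
  intro x
  refine DiffPoly.lift_induction h (fun x => F x = G x) ?_ ?_ ?_ x
  · show F 0 = G 0
    rw [map_zero, map_zero]
  · intro x y hx hy
    show F (x + y) = G (x + y)
    have hx' : F x = G x := hx
    have hy' : F y = G y := hy
    rw [map_add, map_add, hx', hy']
  · intro n a
    show F (h.i a * h.X ^ n) = G (h.i a * h.X ^ n)
    rw [map_mul, map_mul, map_pow, map_pow, h1, h2]

/-- induction principle -/
theorem DiffPoly.induction {k : Type u} [Field k] {δ : Derivation ℤ k k} {A : Type u} [Ring A]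
    (h : DiffPoly δ A) (P : A → Prop) (h0 : P 0) (hadd : ∀ x y, P x → P y → P (x + y))
    (hi : ∀ a x, P x → P (h.i a * x)) (hX : ∀ x, P x → P (h.X * x)) (h1 : P 1) (x : A) : P x := by
  refine DiffPoly.lift_induction h P h0 hadd ?_ x
  intro n a
  apply hi
  induction n with
  | zero => rw [pow_zero]; exact h1
  | succ n ih => rw [pow_succ']; exact hX _ ih

end Cb
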