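import Pool.Agent.Helper462.Cb.Defs

namespace Cb

universe u


namespace DiffPoly

variable {k : Type u} [Field k] {δ : Derivation ℤ k k} {A : Type u} [Ring A] (h : DiffPoly δ A)

/-- the sum as an additive map -/
noncomputable def Ph : (ℕ →₀ k) →+ A :=
  Finsupp.liftAddHom (fun n => (AddMonoidHom.mulRight (h.X ^ n)).comp h.i.toAddMonoidHom)

theorem Ph_eq (p : ℕ →₀ k) : h.Ph p = p.sum fun n a => h.i a * h.X ^ n := by
  unfold Ph
  rw [Finsupp.liftAddHom_apply]
  rfl

theorem Ph_bij : Function.Bijective h.Ph := by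
  have : (fun p : ℕ →₀ k => p.sum fun n a => h.i a * h.X ^ n) = h.Ph :=
    funext fun p => (h.Ph_eq p).symm
  rw [← this]
  exact h.bij

/-- the additive equivalence with the coefficient sequences -/
noncomputable def Eq' : (ℕ →₀ k) ≃+ A := AddEquiv.ofBijective h.Ph h.Ph_bij

/-- coefficients -/
noncomputable def c (x : A) : ℕ →₀ k := h.Eq'.symm x

theorem c_add (x y : A) : h.c (x + y) = h.c x + h.c y := map_add h.Eq'.symm x y
theorem c_sub (x y : A) : h.c (x - y) = h.c x - h.c y := map_sub h.Eq'.symm x y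
theorem c_zero : h.c 0 = 0 := map_zero h.Eq'.symm
theorem c_sum {ι : Type*} (s : Finset ι) (f : ι → A) : h.c (∑ j ∈ s, f j) = ∑ j ∈ s, h.c (f j) :=
  map_sum h.Eq'.symm f s
theorem c_inj {x : A} (hx : h.c x = 0) : x = 0 := by
  have : h.Eq'.symm x = h.Eq'.symm 0 := by rw [map_zero]; exact hx
  exact h.Eq'.symm.injective this

theorem Ph_single (n : ℕ) (a : k) : h.Ph (Finsupp.single n a) = h.i a * h.X ^ n := by
  rw [Ph_eq, Finsupp.sum_single_index]
  simp

theorem c_mono (n : ℕ) (a : k) : h.c (h.i a * h.X ^ n) = Finsupp.single n a := by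
  unfold c
  rw [AddEquiv.symm_apply_eq]
  exact (h.Ph_single n a).symm

theorem Ph_c (x : A) : h.Ph (h.c x) = x := h.Eq'.apply_symm_apply x

theorem induct {P : A → Prop} (h0 : P 0) (hadd : ∀ x y, P x → P y → P (x + y))
    (hs : ∀ n a, P (h.i a * h.X ^ n)) (x : A) : P x := by
  rw [← h.Ph_c x]
  induction h.c x using Finsupp.induction_linear with
  | zero => rw [map_zero]; exact h0
  | add f g hf hg => rw [map_add]; exact hadd _ _ hf hg
  | single n a => rw [h.Ph_single]; exact hs n a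

theorem c_imul (a : k) (x : A) (n : ℕ) : h.c (h.i a * x) n = a * h.c x n := by
  induction x using h.induct with
  | h0 => rw [mul_zero, c_zero]; simp
  | hadd x y hx hy => rw [mul_add, c_add, c_add, Finsupp.add_apply, Finsupp.add_apply, hx, hy,
      mul_add]
  | hs m b =>
    rw [← mul_assoc, ← map_mul, c_mono, c_mono, Finsupp.single_apply, Finsupp.single_apply]
    split_ifs <;> simp

theorem X_mono (n : ℕ) (a : k) : h.X * (h.i a * h.X ^ n) =
    h.i a * h.X ^ (n + 1) + h.i (δ a) * h.X ^ n := by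
  rw [← mul_assoc, h.comm, add_mul, mul_assoc, pow_succ']

theorem c_Xmul (x : A) (n : ℕ) : h.c (h.X * x) (n + 1) = h.c x n + δ (h.c x (n + 1)) := by
  induction x using h.induct with
  | h0 => rw [mul_zero, c_zero]; simp
  | hadd x y hx hy =>
    have h3 := map_add δ (h.c x (n + 1)) (h.c y (n + 1))
    rw [mul_add, c_add, c_add, Finsupp.add_apply, Finsupp.add_apply, Finsupp.add_apply, hx, hy,
      h3]
    abel
  | hs m b =>
    rw [X_mono, c_add, c_mono, c_mono, c_mono, Finsupp.add_apply, Finsupp.single_apply,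
      Finsupp.single_apply, Finsupp.single_apply, Finsupp.single_apply]
    by_cases h1 : m = n
    · subst h1
      simp
    · by_cases h2 : m = n + 1
      · subst h2
        simp
      · simp [h1, h2]

/-- degree at most `n`, coefficient `a` at `n` -/
def LC (n : ℕ) (a : k) (x : A) : Prop := h.c x n = a ∧ ∀ m, n < m → h.c x m = 0

theorem LC.up {h : DiffPoly δ A} {n m : ℕ} {a : k} {x : A} (hx : h.LC n a x) (hnm : n < m) :
    h.LC m 0 x := ⟨hx.2 m hnm, fun l hl => hx.2 l (hnm.trans hl)⟩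

theorem LC.X_mul {h : DiffPoly δ A} {n : ℕ} {a : k} {x : A} (hx : h.LC n a x) :
    h.LC (n + 1) a (h.X * x) := by
  refine ⟨?_, ?_⟩
  · rw [c_Xmul, hx.1, hx.2 (n + 1) (Nat.lt_succ_self n), map_zero, add_zero]
  · intro m hm
    obtain ⟨l, rfl⟩ : ∃ l, m = l + 1 := ⟨m - 1, by omega⟩
    rw [c_Xmul, hx.2 l (by omega), hx.2 (l + 1) (by omega), map_zero, add_zero]

theorem LC.Xpow_mul {h : DiffPoly δ A} {n : ℕ} {a : k} {x : A} (hx : h.LC n a x) (j : ℕ) :
    h.LC (n + j) a (h.X ^ j * x) := by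
  induction j with
  | zero => simpa using hx
  | succ j ih =>
    rw [pow_succ', mul_assoc]
    exact ih.X_mul

theorem LC.i_mul {h : DiffPoly δ A} {n : ℕ} {a : k} {x : A} (b : k) (hx : h.LC n a x) :
    h.LC n (b * a) (h.i b * x) := by
  refine ⟨by rw [c_imul, hx.1], fun m hm => by rw [c_imul, hx.2 m hm, mul_zero]⟩

theorem LC.sum {h : DiffPoly δ A} {n : ℕ} {ι : Type*} (s : Finset ι) (f : ι → A) (a : ι → k)
    (hf : ∀ j ∈ s, h.LC n (a j) (f j)) : h.LC n (∑ j ∈ s, a j) (∑ j ∈ s, f j) := by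
  refine ⟨?_, fun m hm => ?_⟩
  · rw [c_sum, Finsupp.finsetSum_apply]
    exact Finset.sum_congr rfl fun j hj => (hf j hj).1
  · rw [c_sum, Finsupp.finsetSum_apply]
    exact Finset.sum_eq_zero fun j hj => (hf j hj).2 m hm

theorem LC.mul {h : DiffPoly δ A} {n m : ℕ} {a b : k} {x y : A} (hx : h.LC n a x)
    (hy : h.LC m b y) : h.LC (n + m) (a * b) (x * y) := by
  have h1 : x * y = ∑ j ∈ (h.c x).support, h.i (h.c x j) * (h.X ^ j * y) := by
    conv_lhs => rw [← h.Ph_c x, Ph_eq, Finsupp.sum, Finset.sum_mul]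
    exact Finset.sum_congr rfl fun j _ => by rw [mul_assoc]
  have h2 : a * b = ∑ j ∈ (h.c x).support, (if j = n then a * b else 0) := by
    rw [Finset.sum_ite_eq']
    split_ifs with h3
    · rfl
    · rw [Finsupp.mem_support_iff, not_not, hx.1] at h3
      rw [h3, zero_mul]
  rw [h1, h2]
  apply LC.sum
  intro j hj
  have hjn : j ≤ n := by
    by_contra hc
    push Not at hc
    rw [Finsupp.mem_support_iff] at hj
    exact hj (hx.2 j hc)
  have h4 := (hy.Xpow_mul j).i_mul (h.c x j)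
  split_ifs with h5
  · rw [h5, hx.1, add_comm] at h4
    rw [h5, hx.1]
    exact h4
  · exact h4.up (by omega)

/-- degree -/
noncomputable def dg (x : A) : ℕ := (h.c x).support.sup id

theorem LC_dg {x : A} (hx : x ≠ 0) : ∃ a, a ≠ 0 ∧ h.LC (h.dg x) a x := by
  have hne : (h.c x).support.Nonempty := by
    rw [Finsupp.support_nonempty_iff]
    intro h0
    exact hx (h.c_inj h0)
  obtain ⟨j, hj, hj2⟩ := Finset.exists_mem_eq_sup _ hne id
  refine ⟨h.c x (h.dg x), ?_, rfl, fun m hm => ?_⟩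
  · unfold dg
    rw [hj2]
    exact Finsupp.mem_support_iff.1 hj
  · by_contra hc
    have h1 : m ∈ (h.c x).support := Finsupp.mem_support_iff.2 hc
    have h2 : id m ≤ (h.c x).support.sup id := Finset.le_sup h1
    unfold dg at hm
    exact absurd h2 (not_le.2 hm)

theorem LC.dg_eq {h : DiffPoly δ A} {n : ℕ} {a : k} {x : A} (hx : h.LC n a x) (ha : a ≠ 0) :
    h.dg x = n := by
  unfold dg
  apply le_antisymm
  · apply Finset.sup_le
    intro m hm
    by_contra hc
    push Not at hc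
    exact Finsupp.mem_support_iff.1 hm (hx.2 m hc)
  · have h1 : n ∈ (h.c x).support := Finsupp.mem_support_iff.2 (by rw [hx.1]; exact ha)
    exact Finset.le_sup (f := id) h1

theorem LC.ne_zero {h : DiffPoly δ A} {n : ℕ} {a : k} {x : A} (hx : h.LC n a x) (ha : a ≠ 0) :
    x ≠ 0 := by
  intro h0
  apply ha
  rw [← hx.1, h0, c_zero]
  rfl

theorem LC_mono (n : ℕ) (a : k) : h.LC n a (h.i a * h.X ^ n) := by
  refine ⟨by rw [c_mono]; simp, fun m hm => ?_⟩
  rw [c_mono, Finsupp.single_apply, if_neg (by omega)]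

theorem low_dg {x : A} {n : ℕ} (hx : ∀ m, n ≤ m → h.c x m = 0) : x = 0 ∨ h.dg x < n := by
  by_cases h0 : x = 0
  · exact Or.inl h0
  · right
    obtain ⟨a, ha, hl⟩ := h.LC_dg h0
    by_contra hc
    push Not at hc
    exact ha (by rw [← hl.1, hx _ hc])

theorem ldiv {g : A} (hg : g ≠ 0) (n : ℕ) : ∀ q : A, (∀ m, n ≤ m → h.c q m = 0) →
    ∃ s r, q = s * g + r ∧ (r = 0 ∨ h.dg r < h.dg g) := by
  obtain ⟨b, hb, hl⟩ := h.LC_dg hg
  induction n with
  | zero =>
    intro q hq
    rcases h.low_dg hq with h0 | h0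
    · exact ⟨0, q, by simp, Or.inl h0⟩
    · exact absurd h0 (Nat.not_lt_zero _)
  | succ n ih =>
    intro q hq
    by_cases hn : n < h.dg g
    · refine ⟨0, q, by simp, ?_⟩
      rcases h.low_dg hq with h0 | h0
      · exact Or.inl h0
      · right; omega
    · push Not at hn
      have h1 := (h.LC_mono (n - h.dg g) (h.c q n * b⁻¹)).mul hl
      rw [Nat.sub_add_cancel hn, inv_mul_cancel_right₀ hb] at h1
      obtain ⟨s, r, h2, h3⟩ := ih (q - h.i (h.c q n * b⁻¹) * h.X ^ (n - h.dg g) * g) (by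
        intro m hm
        rw [c_sub, Finsupp.sub_apply]
        rcases hm.lt_or_eq with h4 | h4
        · rw [h1.2 m h4, hq m (by omega), sub_zero]
        · rw [← h4, h1.1, sub_self])
      refine ⟨s + h.i (h.c q n * b⁻¹) * h.X ^ (n - h.dg g), r, ?_, h3⟩
      rw [sub_eq_iff_eq_add] at h2
      rw [add_mul]
      refine h2.trans ?_
      abel

theorem rdiv {g : A} (hg : g ≠ 0) (n : ℕ) : ∀ q : A, (∀ m, n ≤ m → h.c q m = 0) →
    ∃ s r, q = g * s + r ∧ (r = 0 ∨ h.dg r < h.dg g) := by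
  obtain ⟨b, hb, hl⟩ := h.LC_dg hg
  induction n with
  | zero =>
    intro q hq
    rcases h.low_dg hq with h0 | h0
    · exact ⟨0, q, by simp, Or.inl h0⟩
    · exact absurd h0 (Nat.not_lt_zero _)
  | succ n ih =>
    intro q hq
    by_cases hn : n < h.dg g
    · refine ⟨0, q, by simp, ?_⟩
      rcases h.low_dg hq with h0 | h0
      · exact Or.inl h0
      · right; omega
    · push Not at hn
      have h1 := hl.mul (h.LC_mono (n - h.dg g) (b⁻¹ * h.c q n))
      rw [Nat.add_sub_cancel' hn, mul_inv_cancel_left₀ hb] at h1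
      obtain ⟨s, r, h2, h3⟩ := ih (q - g * (h.i (b⁻¹ * h.c q n) * h.X ^ (n - h.dg g))) (by
        intro m hm
        rw [c_sub, Finsupp.sub_apply]
        rcases hm.lt_or_eq with h4 | h4
        · rw [h1.2 m h4, hq m (by omega), sub_zero]
        · rw [← h4, h1.1, sub_self])
      refine ⟨s + h.i (b⁻¹ * h.c q n) * h.X ^ (n - h.dg g), r, ?_, h3⟩
      rw [sub_eq_iff_eq_add] at h2
      rw [mul_add]
      refine h2.trans ?_
      abel

theorem low_all (q : A) : ∃ n, ∀ m, n ≤ m → h.c q m = 0 := by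
  refine ⟨h.dg q + 1, fun m hm => ?_⟩
  by_cases h0 : q = 0
  · rw [h0, c_zero]
    rfl
  · obtain ⟨a, _, hl⟩ := h.LC_dg h0
    exact hl.2 m (by omega)

end DiffPoly

theorem DiffPoly.euclid {k : Type u} [Field k] {δ : Derivation ℤ k k} {A : Type u} [Ring A]
    (h : DiffPoly δ A) : ∃ d : A → ℕ, Euclid A d ∧ d h.X = 1 := by
  refine ⟨h.dg, ⟨?_, ?_, ?_, ?_, ?_⟩, ?_⟩
  · have h1 := (h.LC_mono 0 1).ne_zero one_ne_zero
    simpa using h1
  · intro a b ha hb
    obtain ⟨u, hu, hl⟩ := h.LC_dg ha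
    obtain ⟨v, hv, hl'⟩ := h.LC_dg hb
    exact (hl.mul hl').ne_zero (mul_ne_zero hu hv)
  · intro a b ha hb
    obtain ⟨u, hu, hl⟩ := h.LC_dg ha
    obtain ⟨v, hv, hl'⟩ := h.LC_dg hb
    exact (hl.mul hl').dg_eq (mul_ne_zero hu hv)
  · intro q g hg
    obtain ⟨n, hn⟩ := h.low_all q
    exact h.ldiv hg n q hn
  · intro q g hg
    obtain ⟨n, hn⟩ := h.low_all q
    exact h.rdiv hg n q hn
  · have h1 := (h.LC_mono 1 1).dg_eq one_ne_zero
    simpa using h1

end Cb
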