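import Pool.Agent.Helper462.Cb.Defs

namespace Cb

universe u

open Zg

section
variable {R : Type u} [Ring R]

theorem lc833 {n : ℕ} {N : Type u} [AddCommGroup N] [Module R N] (f : (Fin n → R) →ₗ[R] N)
    (x : Fin n → R) : ∑ i, x i • f (Pi.single i 1) = f x := by
  conv_rhs => rw [← Finset.univ_sum_single x, map_sum]
  refine Finset.sum_congr rfl fun i _ => ?_
  rw [← map_smul]
  congr 1
  ext j
  by_cases h : j = i
  · subst h; simp
  · simp [Pi.single_eq_of_ne h]

theorem exists_free_realization (θ : PPFormula R) :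
    ∃ (F : Type u) (_ : AddCommGroup F) (_ : Module R F) (_ : Module.Finite R F) (e : F),
      ∀ (N : Type u) [AddCommGroup N] [Module R N] (v : N),
        v ∈ θ.sol N ↔ ∃ f : F →ₗ[R] N, f e = v := by
  obtain ⟨K, hK⟩ : ∃ K : Submodule R ((Fin θ.m → R) × R),
    K = Submodule.span R (Set.range fun j => ((θ.B j, -θ.a j) : (Fin θ.m → R) × R)) := ⟨_, rfl⟩
  refine ⟨((Fin θ.m → R) × R) ⧸ K, inferInstance, inferInstance, inferInstance,
    K.mkQ (0, 1), ?_⟩
  intro N _ _ v
  constructor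
  · rintro ⟨z, hz⟩
    let g : ((Fin θ.m → R) × R) →ₗ[R] N :=
      (Fintype.linearCombination R z).coprod (LinearMap.toSpanSingleton R N v)
    have hg : ∀ p, g p = ∑ i, p.1 i • z i + p.2 • v := fun p => rfl
    have hle : K ≤ LinearMap.ker g := by
      rw [hK, Submodule.span_le]
      rintro _ ⟨j, rfl⟩
      show g _ = 0
      rw [hg]
      simp only
      rw [hz j, neg_smul, add_neg_cancel]
    refine ⟨K.liftQ g hle, ?_⟩
    rw [Submodule.mkQ_apply, Submodule.liftQ_apply, hg]
    simp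
  · rintro ⟨f, hf⟩
    obtain ⟨g, hg⟩ : ∃ g : ((Fin θ.m → R) × R) →ₗ[R] N, g = f.comp K.mkQ := ⟨_, rfl⟩
    have hrel : ∀ j, g (θ.B j, -θ.a j) = 0 := by
      intro j
      rw [hg, LinearMap.comp_apply]
      have : K.mkQ (θ.B j, -θ.a j) = 0 := by
        rw [Submodule.mkQ_apply, Submodule.Quotient.mk_eq_zero, hK]
        exact Submodule.subset_span ⟨j, rfl⟩
      rw [this, map_zero]
    have hv : g (0, 1) = v := by rw [hg]; exact hf
    refine ⟨fun i => g (Pi.single i 1, 0), fun j => ?_⟩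
    have h1 := lc833 (g.comp (LinearMap.inl R (Fin θ.m → R) R)) (θ.B j)
    have h2 : g (θ.B j, 0) = θ.a j • v := by
      have h3 : ((θ.B j, 0) : (Fin θ.m → R) × R) = (θ.B j, -θ.a j) + θ.a j • (0, 1) := by
        ext <;> simp
      rw [h3, map_add, map_smul, hrel, hv, zero_add]
    exact h1.trans h2

theorem exists_formula_of_pointed [IsNoetherianRing R] (F : Type u) [AddCommGroup F]
    [Module R F] [Module.Finite R F] (e : F) :
    ∃ θ : PPFormula R, ∀ (N : Type u) [AddCommGroup N] [Module R N] (v : N),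
      v ∈ θ.sol N ↔ ∃ f : F →ₗ[R] N, f e = v := by
  obtain ⟨n, π, hπ⟩ := Module.Finite.exists_fin' R F
  obtain ⟨c, hc⟩ := hπ e
  obtain ⟨l, r, hr⟩ := Submodule.fg_iff_exists_fin_generating_family.1
    (IsNoetherian.noetherian (LinearMap.ker π))
  refine ⟨⟨n, l + 1, Fin.cons c r, Fin.cons 1 (fun _ => 0)⟩, ?_⟩
  intro N _ _ v
  constructor
  · rintro ⟨z, hz⟩
    have hz0 := hz 0
    have hzs := fun j : Fin l => hz j.succ
    simp only [Fin.cons_zero, one_smul] at hz0
    simp only [Fin.cons_succ, zero_smul] at hzs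
    let g : (Fin n → R) →ₗ[R] N := Fintype.linearCombination R z
    have hg : ∀ p, g p = ∑ i, p i • z i := fun p => rfl
    have hle : LinearMap.ker π ≤ LinearMap.ker g := by
      rw [← hr, Submodule.span_le]
      rintro _ ⟨j, rfl⟩
      show g _ = 0
      rw [hg]
      exact hzs j
    refine ⟨((LinearMap.ker π).liftQ g hle).comp
      (π.quotKerEquivOfSurjective hπ).symm.toLinearMap, ?_⟩
    have h1 : (π.quotKerEquivOfSurjective hπ).symm e = Submodule.Quotient.mk c := by
      rw [LinearEquiv.symm_apply_eq]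
      exact hc.symm
    rw [LinearMap.comp_apply, LinearEquiv.coe_coe, h1, Submodule.liftQ_apply, hg]
    exact hz0
  · rintro ⟨f, hf⟩
    refine ⟨fun i => f (π (Pi.single i 1)), fun j => ?_⟩
    have h1 := fun x : Fin n → R => lc833 (f.comp π) x
    refine Fin.cases ?_ (fun j => ?_) j
    · simp only [Fin.cons_zero, one_smul]
      refine (h1 c).trans ?_
      rw [LinearMap.comp_apply, hc, hf]
    · simp only [Fin.cons_succ, zero_smul]
      refine (h1 (r j)).trans ?_
      have h2 : r j ∈ LinearMap.ker π := by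
        rw [← hr]
        exact Submodule.subset_span ⟨j, rfl⟩
      rw [LinearMap.comp_apply, LinearMap.mem_ker.1 h2, map_zero]

theorem exists_conj (θ θ' : PPFormula R) : ∃ κ : PPFormula R,
    ∀ (N : Type u) [AddCommGroup N] [Module R N] (v : N),
      v ∈ κ.sol N ↔ v ∈ θ.sol N ∧ v ∈ θ'.sol N := by
  refine ⟨⟨θ.m + θ'.m, θ.l + θ'.l,
    Fin.append (fun j => Fin.append (θ.B j) 0) (fun j => Fin.append 0 (θ'.B j)),
    Fin.append θ.a θ'.a⟩, ?_⟩
  intro N _ _ v
  constructor
  · rintro ⟨z, hz⟩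
    refine ⟨⟨fun i => z (Fin.castAdd _ i), fun j => ?_⟩, ⟨fun i => z (Fin.natAdd _ i), fun j => ?_⟩⟩
    · have h := hz (Fin.castAdd _ j)
      simp only [Fin.append_left, Fin.sum_univ_add, Fin.append_right, Pi.zero_apply, zero_smul,
        Finset.sum_const_zero, add_zero] at h
      exact h
    · have h := hz (Fin.natAdd _ j)
      simp only [Fin.append_left, Fin.sum_univ_add, Fin.append_right, Pi.zero_apply, zero_smul,
        Finset.sum_const_zero, zero_add] at h
      exact h
  · rintro ⟨⟨z, hz⟩, ⟨z', hz'⟩⟩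
    refine ⟨Fin.append z z', fun j => ?_⟩
    refine Fin.addCases (fun j => ?_) (fun j => ?_) j
    · simp only [Fin.append_left, Fin.sum_univ_add, Fin.append_right, Pi.zero_apply, zero_smul,
        Finset.sum_const_zero, add_zero]
      exact hz j
    · simp only [Fin.append_left, Fin.sum_univ_add, Fin.append_right, Pi.zero_apply, zero_smul,
        Finset.sum_const_zero, zero_add]
      exact hz' j

/-- the formula `p v = 0` -/
theorem exists_ann (p : R) : ∃ κ : PPFormula R,
    ∀ (N : Type u) [AddCommGroup N] [Module R N] (v : N), v ∈ κ.sol N ↔ p • v = 0 := by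
  refine ⟨⟨0, 1, fun _ i => i.elim0, fun _ => p⟩, ?_⟩
  intro N _ _ v
  constructor
  · rintro ⟨z, hz⟩
    have h := hz 0
    simp only [Finset.univ_eq_empty, Finset.sum_empty] at h
    exact h.symm
  · intro h
    refine ⟨fun i => i.elim0, fun j => ?_⟩
    simp only [Finset.univ_eq_empty, Finset.sum_empty]
    exact h.symm

/-- the formula `p ∣ v` -/
theorem exists_div (p : R) : ∃ κ : PPFormula R,
    ∀ (N : Type u) [AddCommGroup N] [Module R N] (v : N), v ∈ κ.sol N ↔ ∃ w : N, p • w = v := by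
  refine ⟨⟨1, 1, fun _ _ => p, fun _ => 1⟩, ?_⟩
  intro N _ _ v
  constructor
  · rintro ⟨z, hz⟩
    have h := hz 0
    refine ⟨z 0, ?_⟩
    simpa using h
  · rintro ⟨w, hw⟩
    refine ⟨fun _ => w, fun j => ?_⟩
    simpa using hw

theorem sol_map' (φ : PPFormula R) {Q Q' : Type u} [AddCommGroup Q] [Module R Q]
    [AddCommGroup Q'] [Module R Q'] (f : Q →ₗ[R] Q') {v : Q} (hv : v ∈ φ.sol Q) :
    f v ∈ φ.sol Q' := by
  obtain ⟨z, hz⟩ := hv
  refine ⟨fun i => f (z i), fun j => ?_⟩
  have h := congrArg f (hz j)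
  simpa only [map_sum, map_smul] using h

theorem sol_add' (φ : PPFormula R) {Q : Type u} [AddCommGroup Q] [Module R Q]
    {v w : Q} (hv : v ∈ φ.sol Q) (hw : w ∈ φ.sol Q) : v + w ∈ φ.sol Q := by
  obtain ⟨z, hz⟩ := hv
  obtain ⟨y, hy⟩ := hw
  refine ⟨fun i => z i + y i, fun j => ?_⟩
  simp only [smul_add, Finset.sum_add_distrib]
  rw [hz j, hy j]

theorem sol_neg' (φ : PPFormula R) {Q : Type u} [AddCommGroup Q] [Module R Q]
    {v : Q} (hv : v ∈ φ.sol Q) : -v ∈ φ.sol Q := by
  obtain ⟨z, hz⟩ := hv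
  refine ⟨fun i => -z i, fun j => ?_⟩
  simp only [smul_neg, Finset.sum_neg_distrib]
  rw [hz j]

theorem sol_zero' (φ : PPFormula R) (Q : Type u) [AddCommGroup Q] [Module R Q] :
    (0 : Q) ∈ φ.sol Q := by
  refine ⟨fun _ => 0, fun j => ?_⟩
  simp
end

end Cb
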