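import Pool.Agent.Helper462.Cb.Defs

namespace Cb

universe u


theorem ind_ss_aux {k : Type u} [Field k] (δ : Derivation ℤ k k) (a b : k)
    (hs : ∀ (Q : Type u) [AddCommGroup Q] [Module k Q] [FiniteDimensional k Q] (D : Q → Q),
      IsConn δ D → SimpleC k D → ∀ ω : Q, ∃ Ψ g : Q, D Ψ = a • Ψ ∧ ω = b • Ψ + D g)
    (Q : Type u) [AddCommGroup Q] [Module k Q] [FiniteDimensional k Q] (D : Q → Q)
    (hD : IsConn δ D) (hQ : SS k D) (n : ℕ) :
    ∀ W : Submodule k Q, (∀ w ∈ W, D w ∈ W) → Module.finrank k W = n →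
      ∀ ω ∈ W, ∃ Ψ g : Q, D Ψ = a • Ψ ∧ ω = b • Ψ + D g := by
  have hD0 : D 0 = 0 := by
    have h := hD.add 0 0
    rw [add_zero] at h
    exact left_eq_add.mp h
  induction n using Nat.strong_induction_on with
  | _ n ih =>
    intro W hW hn ω hω
    by_cases hbot : W = ⊥
    · rw [hbot, Submodule.mem_bot] at hω
      exact ⟨0, 0, by rw [hD0, smul_zero], by rw [hω, hD0, smul_zero, add_zero]⟩
    · obtain ⟨W0, ⟨h1, h2, h3⟩, hmin⟩ := (wellFounded_lt (α := Submodule k Q)).has_min
        {U : Submodule k Q | (∀ w ∈ U, D w ∈ U) ∧ U ≠ ⊥ ∧ U ≤ W} ⟨W, hW, hbot, le_rfl⟩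
      obtain ⟨D0, hD0def⟩ : ∃ D0 : W0 → W0, ∀ w, (D0 w : Q) = D w :=
        ⟨fun w => ⟨D w, h1 w w.2⟩, fun w => rfl⟩
      have hc : IsConn δ D0 := by
        constructor
        · intro v w
          apply Subtype.ext
          rw [hD0def, Submodule.coe_add, hD.add, Submodule.coe_add, hD0def, hD0def]
        · intro c v
          apply Subtype.ext
          rw [hD0def, Submodule.coe_smul, hD.smul, Submodule.coe_add, Submodule.coe_smul,
            Submodule.coe_smul, hD0def]
      have hsimple : SimpleC k D0 := by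
        constructor
        · obtain ⟨v, hv, hv0⟩ := Submodule.exists_mem_ne_zero_of_ne_bot h2
          exact ⟨⟨v, hv⟩, fun h => hv0 (congrArg Subtype.val h)⟩
        · intro U hU
          by_cases hUb : U = ⊥
          · exact Or.inl hUb
          · right
            have hst : ∀ w ∈ U.map W0.subtype, D w ∈ U.map W0.subtype := by
              intro w hw
              obtain ⟨u, hu, rfl⟩ := Submodule.mem_map.mp hw
              refine Submodule.mem_map.mpr ⟨D0 u, hU u hu, ?_⟩
              exact hD0def u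
            have hne : U.map W0.subtype ≠ ⊥ := by
              intro h
              apply hUb
              rw [eq_bot_iff]
              intro u hu
              have h8 : (u : Q) ∈ U.map W0.subtype := Submodule.mem_map_of_mem hu
              rw [h, Submodule.mem_bot] at h8
              rw [Submodule.mem_bot]
              exact Subtype.ext h8
            have hle : U.map W0.subtype ≤ W0 := Submodule.map_subtype_le W0 U
            have h4 := hmin (U.map W0.subtype) ⟨hst, hne, hle.trans h3⟩
            have h5 : U.map W0.subtype = W0 := by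
              by_contra hcon
              exact h4 (lt_of_le_of_ne hle hcon)
            rw [eq_top_iff]
            intro x _
            have h6 : (x : Q) ∈ U.map W0.subtype := by rw [h5]; exact x.2
            obtain ⟨u, hu, hux⟩ := Submodule.mem_map.mp h6
            have : u = x := Subtype.ext hux
            rw [← this]
            exact hu
      obtain ⟨W', hW', hcompl⟩ := hQ W0 h1
      have hst1 : ∀ w ∈ W ⊓ W', D w ∈ W ⊓ W' := fun w hw =>
        ⟨hW w hw.1, hW' w hw.2⟩
      have hlt : W ⊓ W' < W := by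
        refine lt_of_le_of_ne inf_le_left ?_
        intro h
        apply h2
        have h7 : W ≤ W' := inf_eq_left.mp h
        exact le_bot_iff.mp (hcompl.disjoint le_rfl (h3.trans h7))
      have hfr := Submodule.finrank_lt_finrank_of_lt hlt
      have hωt : ω ∈ W0 ⊔ W' := by rw [hcompl.sup_eq_top]; trivial
      obtain ⟨w0, hw0, w', hw', hsum⟩ := Submodule.mem_sup.mp hωt
      have hw'W : w' ∈ W := by
        have : w' = ω - w0 := by rw [← hsum]; abel
        rw [this]
        exact W.sub_mem hω (h3 hw0)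
      obtain ⟨Ψ', g', e1, e2⟩ := ih _ (by rw [← hn]; exact hfr) (W ⊓ W') hst1 rfl w' ⟨hw'W, hw'⟩
      obtain ⟨Ψ0, g0, e3, e4⟩ := hs W0 D0 hc hsimple ⟨w0, hw0⟩
      refine ⟨Ψ0 + Ψ', g0 + g', ?_, ?_⟩
      · rw [hD.add, ← hD0def, e3, e1, smul_add, Submodule.coe_smul]
      · have e5 : w0 = b • (Ψ0 : Q) + D (g0 : Q) := by
          have := congrArg Subtype.val e4
          rw [Submodule.coe_add, Submodule.coe_smul, hD0def] at this
          exact this
        rw [hD.add, ← hsum, e2, e5, smul_add]
        abel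

theorem ind_ss {k : Type u} [Field k] (δ : Derivation ℤ k k) (a b : k)
    (hs : ∀ (Q : Type u) [AddCommGroup Q] [Module k Q] [FiniteDimensional k Q] (D : Q → Q),
      IsConn δ D → SimpleC k D → ∀ ω : Q, ∃ Ψ g : Q, D Ψ = a • Ψ ∧ ω = b • Ψ + D g)
    (Q : Type u) [AddCommGroup Q] [Module k Q] [FiniteDimensional k Q] (D : Q → Q)
    (hD : IsConn δ D) (hQ : SS k D) (ω : Q) : ∃ Ψ g : Q, D Ψ = a • Ψ ∧ ω = b • Ψ + D g :=
  ind_ss_aux δ a b hs Q D hD hQ _ ⊤ (fun _ _ => trivial) rfl ω trivial

end Cb
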