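import Pool.Agent.Helper462.Cb.Defs

namespace Cb

universe u


theorem tri_simple_zero {k : Type*} [Field k] {δ : Derivation ℤ k k} {Q : Type*}
    [AddCommGroup Q] [Module k Q] {D : Q → Q} (hD : IsConn δ D) : D 0 = 0 := by
  have h := hD.add 0 0
  rw [add_zero] at h
  exact left_eq_add.1 h

theorem tri_simple_transport {k : Type*} [Field k] {δ : Derivation ℤ k k} {Q : Type*}
    [AddCommGroup Q] [Module k Q] {D : Q → Q} (hD : IsConn δ D) {n : ℕ}
    (e : Module.Basis (Fin n) k Q) (q : Q) :
    e.equivFun (D q) = connM δ (fun i j => e.repr (D (e j)) i) (e.equivFun q) := by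
  have hD' : ∀ q, D q = AddMonoidHom.mk' D hD.add q := fun q => rfl
  have h1 : D q = ∑ j, (δ (e.repr q j) • e j + e.repr q j • D (e j)) := by
    conv_lhs => rw [← e.sum_repr q]
    rw [hD', map_sum]
    refine Finset.sum_congr rfl (fun j _ => ?_)
    rw [← hD']
    exact hD.smul _ _
  funext i
  rw [h1, map_sum, Finset.sum_apply]
  unfold connM
  simp only [map_add, map_smul, Pi.add_apply, Pi.smul_apply, smul_eq_mul, Finset.sum_add_distrib,
    Module.Basis.equivFun_apply, Module.Basis.repr_self]
  congr 1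
  · rw [Finset.sum_eq_single i]
    · simp
    · intro j _ hj
      rw [Finsupp.single_eq_of_ne' hj]
      simp
    · simp
  · exact Finset.sum_congr rfl (fun j _ => mul_comm _ _)

theorem tri_simple_rank {k : Type u} [Field k] (δ : Derivation ℤ k k) (hG : ¬ HG δ)
    (Q : Type u) [AddCommGroup Q] [Module k Q] [FiniteDimensional k Q] (D : Q → Q)
    (hD : IsConn δ D) (hs : SimpleC k D) (ω : Q) (hω : ¬ ∃ g : Q, ω = D g) :
    Module.finrank k Q = 1 := by
  by_contra hne
  apply hG
  obtain ⟨v, hv⟩ := hs.1
  have hnt : Nontrivial Q := ⟨v, 0, hv⟩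
  have hpos : 0 < Module.finrank k Q := Module.finrank_pos
  let e := Module.finBasis k Q
  have htr := tri_simple_transport hD e
  have hst : ∀ W : Submodule k (Fin (Module.finrank k Q) → k),
      (∀ w ∈ W, connM δ (fun i j => e.repr (D (e j)) i) w ∈ W) → W = ⊥ ∨ W = ⊤ := by
    intro W hW
    have h1 := hs.2 (W.comap (e.equivFun : Q →ₗ[k] _)) (by
      intro w hw
      rw [Submodule.mem_comap] at hw ⊢
      have := hW _ hw
      show e.equivFun (D w) ∈ W
      rw [htr]
      exact this)
    have h2 : W = (W.comap (e.equivFun : Q →ₗ[k] _)).map (e.equivFun : Q →ₗ[k] _) := by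
      rw [Submodule.map_comap_eq_of_surjective e.equivFun.surjective]
    rcases h1 with h1 | h1
    · left
      rw [h2, h1, Submodule.map_bot]
    · right
      rw [h2, h1, Submodule.map_top]
      exact LinearEquiv.range _
  refine ⟨Module.finrank k Q, (fun i j => e.repr (D (e j)) i), e.equivFun ω, by omega, ?_, ?_⟩
  · intro W hW
    rcases hst W hW with h | h
    · refine ⟨⊤, fun _ _ => Submodule.mem_top, ?_⟩
      rw [h]; exact isCompl_bot_top
    · refine ⟨⊥, fun w hw => ?_, ?_⟩
      · rw [Submodule.mem_bot] at hw ⊢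
        rw [hw]
        funext i
        simp [connM]
      · rw [h]; exact isCompl_top_bot
  · intro W hW hne w hw g heq
    rcases hst W hW with h | h
    · rw [h, Submodule.mem_bot] at hw
      rw [hw, zero_add] at heq
      apply hω
      refine ⟨e.equivFun.symm g, ?_⟩
      apply e.equivFun.injective
      rw [htr, heq, LinearEquiv.apply_symm_apply]
    · exact hne h

theorem tri_simple_diag {k : Type*} [Field k] (δ : Derivation ℤ k k) (a a' : k)
    (v : Fin 2 → k) (i : Fin 2) :
    connM δ (Matrix.diagonal ![a, a']) v i = δ (v i) + ![a, a'] i * v i := by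
  unfold connM
  congr 1
  rw [Finset.sum_eq_single i]
  · rw [Matrix.diagonal_apply_eq]
  · intro j _ hj
    rw [Matrix.diagonal_apply_ne' _ hj, zero_mul]
  · simp

theorem tri_simple_top {k : Type*} [Field k] (W : Submodule k (Fin 2 → k))
    (h0 : (![1, 0] : Fin 2 → k) ∈ W) (h1 : (![0, 1] : Fin 2 → k) ∈ W) : W = ⊤ := by
  rw [Submodule.eq_top_iff']
  intro x
  have : x = x 0 • (![1, 0] : Fin 2 → k) + x 1 • (![0, 1] : Fin 2 → k) := by
    funext i
    fin_cases i <;> simp
  rw [this]
  exact W.add_mem (W.smul_mem _ h0) (W.smul_mem _ h1)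

theorem tri_simple_SS {k : Type*} [Field k] (δ : Derivation ℤ k k) (a a' : k) :
    SS k (connM δ (Matrix.diagonal ![a, a'])) := by
  intro W hW
  by_cases hT : W = ⊤
  · refine ⟨⊥, fun w hw => ?_, ?_⟩
    · rw [Submodule.mem_bot] at hw ⊢
      rw [hw]
      funext i
      simp [connM]
    · rw [hT]; exact isCompl_top_bot
  by_cases hB : W = ⊥
  · refine ⟨⊤, fun _ _ => Submodule.mem_top, ?_⟩
    rw [hB]; exact isCompl_bot_top
  by_cases h10 : (![1, 0] : Fin 2 → k) ∈ W
  · refine ⟨LinearMap.ker (LinearMap.proj 0 : (Fin 2 → k) →ₗ[k] k), ?_, ?_, ?_⟩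
    · intro w hw
      rw [LinearMap.mem_ker, LinearMap.proj_apply] at hw ⊢
      rw [tri_simple_diag, hw]
      simp
    · rw [Submodule.disjoint_def]
      intro x hx hx0
      rw [LinearMap.mem_ker, LinearMap.proj_apply] at hx0
      by_contra hne
      have h1 : x 1 ≠ 0 := by
        intro h1
        apply hne
        funext i
        fin_cases i
        · exact hx0
        · exact h1
      apply hT
      apply tri_simple_top W h10
      have : (![0, 1] : Fin 2 → k) = (x 1)⁻¹ • x := by
        funext i
        fin_cases i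
        · simp [hx0]
        · simp [h1]
      rw [this]
      exact W.smul_mem _ hx
    · rw [codisjoint_iff]
      apply tri_simple_top
      · exact Submodule.mem_sup_left h10
      · apply Submodule.mem_sup_right
        rw [LinearMap.mem_ker, LinearMap.proj_apply]
        simp
  · refine ⟨LinearMap.ker (LinearMap.proj 1 : (Fin 2 → k) →ₗ[k] k), ?_, ?_, ?_⟩
    · intro w hw
      rw [LinearMap.mem_ker, LinearMap.proj_apply] at hw ⊢
      rw [tri_simple_diag, hw]
      simp
    · rw [Submodule.disjoint_def]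
      intro x hx hx0
      rw [LinearMap.mem_ker, LinearMap.proj_apply] at hx0
      by_contra hne
      have h1 : x 0 ≠ 0 := by
        intro h1
        apply hne
        funext i
        fin_cases i
        · exact h1
        · exact hx0
      apply h10
      have : (![1, 0] : Fin 2 → k) = (x 0)⁻¹ • x := by
        funext i
        fin_cases i
        · simp [h1]
        · simp [hx0]
      rw [this]
      exact W.smul_mem _ hx
    · rw [codisjoint_iff]
      have hL0 : (![1, 0] : Fin 2 → k) ∈ W ⊔ LinearMap.ker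
          (LinearMap.proj 1 : (Fin 2 → k) →ₗ[k] k) := by
        apply Submodule.mem_sup_right
        rw [LinearMap.mem_ker, LinearMap.proj_apply]
        simp
      apply tri_simple_top _ hL0
      obtain ⟨x, hx, hx0⟩ := Submodule.exists_mem_ne_zero_of_ne_bot hB
      have h1 : x 1 ≠ 0 := by
        intro h1
        have h2 : x 0 ≠ 0 := by
          intro h2
          apply hx0
          funext i
          fin_cases i
          · exact h2
          · exact h1
        apply h10
        have : (![1, 0] : Fin 2 → k) = (x 0)⁻¹ • x := by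
          funext i
          fin_cases i
          · simp [h2]
          · simp [h1]
        rw [this]
        exact W.smul_mem _ hx
      have : (![0, 1] : Fin 2 → k) = (x 1)⁻¹ • x - ((x 1)⁻¹ * x 0) • (![1, 0] : Fin 2 → k) := by
        funext i
        fin_cases i
        · simp
        · simp [h1]
      rw [this]
      exact Submodule.sub_mem _ (Submodule.smul_mem _ _ (Submodule.mem_sup_left hx))
        (Submodule.smul_mem _ _ hL0)

theorem tri_simple {k : Type u} [Field k] [CharZero k] (δ : Derivation ℤ k k) (hG : ¬ HG δ) :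
    (∀ (Q : Type u) [AddCommGroup Q] [Module k Q] [FiniteDimensional k Q] (D : Q → Q),
      IsConn δ D → SimpleC k D → ∀ ω : Q, ∃ g : Q, ω = D g) ∨
    ∃ a b : k, (∀ g : k, δ g + a * g ≠ b) ∧
      ∀ (Q : Type u) [AddCommGroup Q] [Module k Q] [FiniteDimensional k Q] (D : Q → Q),
      IsConn δ D → SimpleC k D → ∀ ω : Q, ∃ Ψ g : Q, D Ψ = a • Ψ ∧ ω = b • Ψ + D g := by
  by_cases hA : ∀ (Q : Type u) [AddCommGroup Q] [Module k Q] [FiniteDimensional k Q] (D : Q → Q),
      IsConn δ D → SimpleC k D → ∀ ω : Q, ∃ g : Q, ω = D g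
  · exact Or.inl hA
  right
  push Not at hA
  obtain ⟨Q₀, _, _, _, D₀, hD₀, hs₀, ω₀, hω₀⟩ := hA
  have hr₀ := tri_simple_rank δ hG Q₀ D₀ hD₀ hs₀ ω₀ (fun ⟨g, hg⟩ => hω₀ g hg)
  obtain ⟨e, he, hall⟩ := finrank_eq_one_iff'.1 hr₀
  obtain ⟨a, ha⟩ := hall (D₀ e)
  obtain ⟨b, hb⟩ := hall ω₀
  have hb1 : ∀ g : k, δ g + a * g ≠ b := by
    intro g hg
    apply hω₀ (g • e)
    rw [hD₀.smul, ← ha, ← hb, ← hg, add_smul, smul_smul, mul_comm]
  refine ⟨a, b, hb1, ?_⟩
  intro Q _ _ _ D hD hs ω
  by_cases hω : ∃ g : Q, ω = D g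
  · obtain ⟨g, hg⟩ := hω
    refine ⟨0, g, ?_, ?_⟩
    · rw [tri_simple_zero hD, smul_zero]
    · rw [smul_zero, zero_add, hg]
  · have hr := tri_simple_rank δ hG Q D hD hs ω hω
    obtain ⟨e', he', hall'⟩ := finrank_eq_one_iff'.1 hr
    obtain ⟨a', ha'⟩ := hall' (D e')
    obtain ⟨b', hb'⟩ := hall' ω
    have hb1' : ∀ g : k, δ g + a' * g ≠ b' := by
      intro g hg
      apply hω
      refine ⟨g • e', ?_⟩
      rw [hD.smul, ← ha', ← hb', ← hg, add_smul, smul_smul, mul_comm]
    have hex : ∃ W : Submodule k (Fin 2 → k), (∀ w ∈ W,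
        connM δ (Matrix.diagonal ![a, a']) w ∈ W) ∧ W ≠ ⊤ ∧ ∃ w ∈ W, ∃ g : Fin 2 → k,
        ![b, b'] = w + connM δ (Matrix.diagonal ![a, a']) g := by
      by_contra hcon
      apply hG
      refine ⟨2, Matrix.diagonal ![a, a'], ![b, b'], le_refl _, tri_simple_SS δ a a', ?_⟩
      intro W hW hne w hw g heq
      exact hcon ⟨W, hW, hne, w, hw, g, heq⟩
    obtain ⟨W, hW, hne, w, hw, g, heq⟩ := hex
    have heq0 : b = w 0 + (δ (g 0) + a * g 0) := by
      have := congrFun heq 0
      rw [Pi.add_apply, tri_simple_diag] at this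
      simpa using this
    have heq1 : b' = w 1 + (δ (g 1) + a' * g 1) := by
      have := congrFun heq 1
      rw [Pi.add_apply, tri_simple_diag] at this
      simpa using this
    have hw0 : w 0 ≠ 0 := by
      intro h
      rw [h, zero_add] at heq0
      exact hb1 (g 0) heq0.symm
    have hw1 : w 1 ≠ 0 := by
      intro h
      rw [h, zero_add] at heq1
      exact hb1' (g 1) heq1.symm
    obtain ⟨y, hy⟩ : ∃ y, y = w 1 / w 0 := ⟨_, rfl⟩
    have hwy : w 1 = w 0 * y := by rw [hy]; field_simp
    have hu : (![1, y] : Fin 2 → k) ∈ W := by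
      have : (![1, y] : Fin 2 → k) = (w 0)⁻¹ • w := by
        funext i
        fin_cases i
        · simp [hw0]
        · simp only [hy]
          simp [div_eq_inv_mul]
      rw [this]
      exact W.smul_mem _ hw
    have hcu : connM δ (Matrix.diagonal ![a, a']) ![1, y] = ![a, δ y + a' * y] := by
      funext i
      rw [tri_simple_diag]
      fin_cases i
      · simp
      · simp
    have hu2 := hW _ hu
    rw [hcu] at hu2
    have hyeq : δ y + a' * y = a * y := by
      by_contra hc
      have hc' : δ y + a' * y - a * y ≠ 0 := sub_ne_zero.2 hc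
      have h01 : (![0, 1] : Fin 2 → k) ∈ W := by
        have : (![0, 1] : Fin 2 → k) = (δ y + a' * y - a * y)⁻¹ •
            ((![a, δ y + a' * y] : Fin 2 → k) - a • ![1, y]) := by
          funext i
          fin_cases i
          · simp
          · simp [hc']
        rw [this]
        exact W.smul_mem _ (W.sub_mem hu2 (W.smul_mem _ hu))
      apply hne
      apply tri_simple_top W _ h01
      have : (![1, 0] : Fin 2 → k) = ![1, y] - y • ![0, 1] := by
        funext i
        fin_cases i <;> simp
      rw [this]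
      exact W.sub_mem hu (W.smul_mem _ h01)
    refine ⟨y • e', (g 1 - g 0 * y) • e', ?_, ?_⟩
    · rw [hD.smul, ← ha', smul_smul, ← add_smul, smul_smul]
      congr 1
      rw [← hyeq]; ring
    · rw [hD.smul, ← ha', ← hb', smul_smul, smul_smul, ← add_smul, ← add_smul]
      congr 1
      have hleib : δ (g 1 - g 0 * y) = δ (g 1) - (g 0 * δ y + y * δ (g 0)) := by
        rw [map_sub, Derivation.leibniz]
        simp [smul_eq_mul]
      rw [hleib, heq1, heq0, hwy]
      linear_combination (g 0) * hyeq

end Cb
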