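import Pool.Agent.Helper462.Cb.Defs

namespace Cb

universe u v


theorem tree_top {X : Type u} [TopologicalSpace X]
    (hzero : cb X (0 : Ordinal.{v}) = Set.univ)
    (hsucc : ∀ α : Ordinal.{v}, cb X (Order.succ α) = derive (cb X α))
    (hlim : ∀ α : Ordinal.{v}, Order.IsSuccLimit α → cb X α = ⋂ β : Set.Iio α, cb X β.1)
    (hclosed : ∀ α : Ordinal.{v}, IsClosed (cb X α))
    (hanti : ∀ {α β : Ordinal.{v}}, α ≤ β → cb X β ⊆ cb X α)
    (K : Set X) (hK : IsCompact K) (C : (ℕ → Bool) → ℕ → Set X)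
    (hC : ∀ χ n, IsClosed (C χ n))
    (hpre : ∀ χ χ' n, (∀ m < n, χ m = χ' m) → C χ n = C χ' n)
    (hdisj : ∀ χ χ', χ ≠ χ' → ∀ x ∈ K, ¬ ((∀ n, x ∈ C χ n) ∧ ∀ n, x ∈ C χ' n))
    (hne : ∀ χ, ∃ x ∈ K, ∀ n, x ∈ C χ n) (α : Ordinal.{v}) : (cb X α).Nonempty := by
  classical
  have key : ∀ α : Ordinal.{v}, ∀ χ : ℕ → Bool, ∃ x ∈ K, (∀ n, x ∈ C χ n) ∧ x ∈ cb X α := by
    intro α
    induction α using Ordinal.limitRecOn with
    | zero =>
      intro χ
      obtain ⟨x, hx, hxn⟩ := hne χ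
      exact ⟨x, hx, hxn, by rw [hzero]; exact Set.mem_univ x⟩
    | add_one α ih =>
      intro χ
      by_contra hcon
      have h1 : ∀ x ∈ K, (∀ n, x ∈ C χ n) → x ∈ cb X α →
          ∃ U : Set X, IsOpen U ∧ x ∈ U ∧ ∀ y ∈ U, y ∈ cb X α → y = x := by
        intro x hxK hxC hxα
        by_contra hno
        apply hcon
        refine ⟨x, hxK, hxC, ?_⟩
        have h2 : x ∈ derive (cb X α) := by
          refine ⟨hxα, fun U hU hxU => ?_⟩
          by_contra hn
          apply hno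
          refine ⟨U, hU, hxU, fun y hy hyα => ?_⟩
          by_contra hyx
          exact hn ⟨y, hy, hyα, hyx⟩
        rw [← hsucc, Order.succ_eq_add_one] at h2
        exact h2
      set O : Set X := ⋃₀ {U : Set X | IsOpen U ∧
        ∀ y ∈ U, y ∈ cb X α → y ∈ K ∧ ∀ n, y ∈ C χ n} with hO
      have hOo : IsOpen O := isOpen_sUnion fun U hU => hU.1
      have hcl : IsClosed (cb X α ∩ Oᶜ) := (hclosed α).inter hOo.isClosed_compl
      have hs : IsCompact (K ∩ (cb X α ∩ Oᶜ)) := hK.inter_right hcl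
      obtain ⟨u, hu⟩ := hs.elim_finite_subfamily_closed (fun n => C χ n) (fun n => hC χ n) (by
        rw [Set.eq_empty_iff_forall_notMem]
        rintro x ⟨⟨hxK, hxα, hxO⟩, hxC⟩
        have hxC' : ∀ n, x ∈ C χ n := fun n => Set.mem_iInter.1 hxC n
        obtain ⟨U, hU, hxU, hUy⟩ := h1 x hxK hxC' hxα
        apply hxO
        refine Set.mem_sUnion.2 ⟨U, ⟨hU, ?_⟩, hxU⟩
        intro y hy hyα
        rw [hUy y hy hyα]
        exact ⟨hxK, hxC'⟩)
      set N : ℕ := u.sup id + 1 with hN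
      set χ' : ℕ → Bool := Function.update χ N (!χ N) with hχ'
      have hne' : χ ≠ χ' := by
        intro h
        have h3 := congrFun h N
        rw [hχ', Function.update_self] at h3
        cases hc : χ N <;> rw [hc] at h3 <;> exact absurd h3 (by decide)
      obtain ⟨x, hxK, hxC, hxα⟩ := ih χ'
      have hxu : ∀ n ∈ u, x ∈ C χ n := by
        intro n hn
        have hnN : n < N := by
          have : n ≤ u.sup id := Finset.le_sup (f := id) hn
          omega
        rw [hpre χ χ' n (fun m hm => by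
          rw [hχ', Function.update_of_ne (by omega)])]
        exact hxC n
      have hxO : x ∈ O := by
        by_contra hxO
        have h4 : x ∈ K ∩ (cb X α ∩ Oᶜ) ∩ ⋂ i ∈ u, C χ i :=
          ⟨⟨hxK, hxα, hxO⟩, Set.mem_iInter₂.2 hxu⟩
        rw [hu] at h4
        exact h4
      obtain ⟨U, ⟨hU, hUy⟩, hxU⟩ := Set.mem_sUnion.1 hxO
      obtain ⟨_, hxCχ⟩ := hUy x hxU hxα
      exact hdisj χ χ' hne' x hxK ⟨hxCχ, hxC⟩
    | limit α hα ih =>
      intro χ
      by_contra hcon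
      have hs : IsCompact (K ∩ ⋂ n, C χ n) := hK.inter_right (isClosed_iInter fun n => hC χ n)
      have hnon : Nonempty (Set.Iio α) := ⟨⟨0, hα.bot_lt⟩⟩
      obtain ⟨u, hu⟩ := hs.elim_finite_subfamily_closed (fun β : Set.Iio α => cb X β.1)
        (fun β => hclosed β.1) (by
          rw [Set.eq_empty_iff_forall_notMem]
          rintro x ⟨⟨hxK, hxC⟩, hxα⟩
          apply hcon
          refine ⟨x, hxK, fun n => Set.mem_iInter.1 hxC n, ?_⟩
          rw [hlim α hα]
          exact hxα)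
      obtain ⟨β, hβ⟩ := Finset.exists_le u
      obtain ⟨x, hxK, hxC, hxβ⟩ := ih β.1 β.2 χ
      have h4 : x ∈ (K ∩ ⋂ n, C χ n) ∩ ⋂ i ∈ u, cb X (i : Set.Iio α).1 := by
        refine ⟨⟨hxK, Set.mem_iInter.2 hxC⟩, Set.mem_iInter₂.2 fun γ hγ => ?_⟩
        exact hanti (hβ γ hγ) hxβ
      rw [hu] at h4
      exact h4
  obtain ⟨x, _, _, hx⟩ := key α (fun _ => true)
  exact ⟨x, hx⟩

end Cb
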