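import Pool.Agent.Helper462.Cb.Defs

namespace Cb

universe u


theorem covers_eq {A : Type u} [Ring A] (hU : UniBot A) (M : Type u) [AddCommGroup M]
    [Module A M] (S : Submodule A M) (hS : IsSimpleModule A S)
    (hess : ∀ N : Submodule A M, N ≠ ⊥ → S ≤ N) (Y₁ Y₂ : Submodule A M) (h₁ : S ⋖ Y₁) (h₂ : S ⋖ Y₂) :
    Y₁ ≤ Y₂ := by
  have hSbot : S ≠ ⊥ := (isSimpleModule_iff_isAtom.mp hS).1
  have hsimp : ∀ Y : Submodule A M, (h : S ⋖ Y) →
      IsSimpleModule A (Y ⧸ LinearMap.range (Submodule.inclusion h.le)) := by
    intro Y h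
    rw [Submodule.range_inclusion]
    exact (covBy_iff_quot_is_simple h.le).mp h
  have hns : ∀ Y : Submodule A M, (h : S ⋖ Y) →
      ¬ ∃ r : Y →ₗ[A] S, r ∘ₗ (Submodule.inclusion h.le) = LinearMap.id := by
    rintro Y h ⟨r, hr⟩
    have hr' : ∀ s : S, r (Submodule.inclusion h.le s) = s := fun s => LinearMap.congr_fun hr s
    by_cases hK : (LinearMap.ker r).map Y.subtype = ⊥
    · have hk : LinearMap.ker r = ⊥ :=
        Submodule.map_injective_of_injective (Submodule.injective_subtype Y)
          (hK.trans (Submodule.map_bot _).symm)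
      apply h.lt.not_ge
      intro y hy
      have h1 : r (⟨y, hy⟩ - Submodule.inclusion h.le (r ⟨y, hy⟩)) = 0 := by
        rw [map_sub, hr', sub_self]
      have h2 := (LinearMap.ker_eq_bot.mp hk) (h1.trans (map_zero r).symm)
      have h3 := sub_eq_zero.mp h2
      have h4 := congrArg Subtype.val h3
      simp only [Submodule.coe_inclusion] at h4
      rw [h4]; exact (r ⟨y, hy⟩).2
    · have h1 := hess _ hK
      apply hSbot
      rw [eq_bot_iff]
      intro s hs
      obtain ⟨y, hy, hys⟩ := h1 hs
      have h2 : y = Submodule.inclusion h.le ⟨s, hs⟩ := Subtype.ext hys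
      have h3 := hr' ⟨s, hs⟩
      rw [← h2, LinearMap.mem_ker.mp hy] at h3
      have h4 := congrArg Subtype.val h3
      simpa using h4.symm
  obtain ⟨e, he⟩ := hU S Y₁ Y₂ (Submodule.inclusion h₁.le) (Submodule.inclusion h₂.le) hS
    (Submodule.inclusion_injective _) (Submodule.inclusion_injective _)
    (hsimp Y₁ h₁) (hsimp Y₂ h₂) (hns Y₁ h₁) (hns Y₂ h₂)
  set g : Y₁ →ₗ[A] M := Y₁.subtype - Y₂.subtype ∘ₗ e.toLinearMap with hg
  have hgy : ∀ y : Y₁, (y : M) = g y + (e y : M) := by
    intro y; simp [hg]
  have hJ : IsCoatom (LinearMap.range (Submodule.inclusion h₁.le)) :=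
    isSimpleModule_iff_isCoatom.mp (hsimp Y₁ h₁)
  have hJker : LinearMap.range (Submodule.inclusion h₁.le) ≤ LinearMap.ker g := by
    rintro _ ⟨s, rfl⟩
    rw [LinearMap.mem_ker]
    simp [hg, he]
  have hrange : LinearMap.range g ≤ S := by
    by_cases hr : LinearMap.range g = ⊥
    · rw [hr]; exact bot_le
    · have h1 := hess _ hr
      rcases hJ.le_iff.mp (hJker.trans (Submodule.comap_mono bot_le : LinearMap.ker g ≤ S.comap g)) with h | h
      · rintro _ ⟨y, rfl⟩
        have : y ∈ S.comap g := by rw [h]; trivial
        exact this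
      · exfalso
        apply hSbot
        have h2 : S.comap g ≤ LinearMap.ker g := by rw [h]; exact hJker
        rw [eq_bot_iff]
        intro s hs
        obtain ⟨y, rfl⟩ := h1 hs
        have h3 : y ∈ S.comap g := hs
        exact (h2 h3)
  intro y hy
  rw [show y = ((⟨y, hy⟩ : Y₁) : M) from rfl, hgy]
  exact Y₂.add_mem (h₂.le (hrange ⟨_, rfl⟩)) (e _).2

theorem uniserial_of_socle {A : Type u} [Ring A] (hU : UniBot A) (M : Type u) [AddCommGroup M]
    [Module A M] (hM : IsFiniteLength A M) (S : Submodule A M) (hS : IsSimpleModule A S)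
    (hess : ∀ N : Submodule A M, N ≠ ⊥ → S ≤ N) : Uniserial A M := by
  have main : ∀ n : ℕ, ∀ (M : Type u) [AddCommGroup M] [Module A M], IsFiniteLength A M →
      Module.length A M ≤ n → ∀ S : Submodule A M, IsSimpleModule A S →
      (∀ N : Submodule A M, N ≠ ⊥ → S ≤ N) → Uniserial A M := by
    intro n
    induction n with
    | zero =>
      intro M _ _ hM hn S hS hess
      have : Subsingleton M := Module.length_eq_zero_iff.mp (le_antisymm (by simpa using hn) bot_le)
      intro N₁ N₂
      left
      intro x _
      rw [Subsingleton.elim x 0]; exact N₂.zero_mem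
    | succ n ih =>
      intro M _ _ hM hn S hS hess
      obtain ⟨hN, hA⟩ := isFiniteLength_iff_isNoetherian_isArtinian.mp hM
      have hSbot : S ≠ ⊥ := (isSimpleModule_iff_isAtom.mp hS).1
      have hlt := Submodule.length_quotient_lt S hSbot
      have hMS : IsFiniteLength A (M ⧸ S) := hM.of_surjective (Submodule.mkQ_surjective S)
      have hUQ : Uniserial A (M ⧸ S) := by
        rcases IsAtomic.eq_bot_or_exists_atom_le (⊤ : Submodule A (M ⧸ S)) with h | ⟨T, hT, -⟩
        · intro N₁ N₂
          left
          have : N₁ ≤ ⊥ := h ▸ le_top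
          exact this.trans bot_le
        · apply ih (M ⧸ S) hMS ?_ T (isSimpleModule_iff_isAtom.mpr hT)
          · intro N hN
            rcases IsAtomic.eq_bot_or_exists_atom_le N with h | ⟨T', hT', hle⟩
            · exact absurd h hN
            · have hcov : ∀ T : Submodule A (M ⧸ S), IsAtom T → S ⋖ T.comap S.mkQ := by
                intro T hT
                have h1 := bot_covBy_iff.mpr hT
                refine ⟨?_, ?_⟩
                · have h2 := (Submodule.comap_strictMono_of_surjective (Submodule.mkQ_surjective S)) h1.lt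
                  simpa using h2
                · intro Z hSZ hZ
                  have h3 : (Z.map S.mkQ).comap S.mkQ = Z := by
                    rw [Submodule.comap_map_mkQ]; exact sup_eq_right.mpr hSZ.le
                  apply h1.2 (c := Z.map S.mkQ)
                  · rw [bot_lt_iff_ne_bot]
                    intro h0
                    rw [h0] at h3
                    simp at h3
                    exact hSZ.ne h3
                  · refine lt_of_le_of_ne (Submodule.map_le_iff_le_comap.mpr hZ.le) ?_
                    intro h0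
                    rw [h0] at h3
                    exact hZ.ne h3.symm
              have h1 := covers_eq hU M S hS hess _ _ (hcov T hT) (hcov T' hT')
              have h2 : T ≤ T' := by
                intro x hx
                obtain ⟨y, rfl⟩ := Submodule.mkQ_surjective S x
                exact h1 hx
              exact h2.trans hle
          · have h1 : Module.length A (M ⧸ S) < ((n + 1 : ℕ) : ℕ∞) := lt_of_lt_of_le hlt hn
            exact ENat.lt_coe_add_one_iff.mp (by simpa using h1)
      intro N₁ N₂
      by_cases h1 : N₁ = ⊥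
      · left; rw [h1]; exact bot_le
      by_cases h2 : N₂ = ⊥
      · right; rw [h2]; exact bot_le
      have e1 : (N₁.map S.mkQ).comap S.mkQ = N₁ := by
        rw [Submodule.comap_map_mkQ]; exact sup_eq_right.mpr (hess N₁ h1)
      have e2 : (N₂.map S.mkQ).comap S.mkQ = N₂ := by
        rw [Submodule.comap_map_mkQ]; exact sup_eq_right.mpr (hess N₂ h2)
      rcases hUQ (N₁.map S.mkQ) (N₂.map S.mkQ) with h | h
      · left; rw [← e1, ← e2]; exact Submodule.comap_mono h
      · right; rw [← e1, ← e2]; exact Submodule.comap_mono h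
  obtain ⟨hN, hA⟩ := isFiniteLength_iff_isNoetherian_isArtinian.mp hM
  obtain ⟨n, hn⟩ := ENat.ne_top_iff_exists.mp (Module.length_ne_top (R := A) (M := M))
  exact main n M hM hn.ge S hS hess

end Cb
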