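import Pool.Agent.Helper462.Cb.Defs

namespace Cb

universe u


theorem cover_unique {A : Type u} [Ring A] (hU : UniTop A) (M : Type u) [AddCommGroup M]
    [Module A M] (P : Submodule A M) (hP : P ≠ ⊤)
    (hmax : ∀ N : Submodule A M, N ≠ ⊤ → N ≤ P) (hs : IsSimpleModule A (M ⧸ P))
    (P₁ P₂ : Submodule A M) (h1 : P₁ ⋖ P) (h2 : P₂ ⋖ P) : P₁ = P₂ := by
  have hcomap : ∀ (K : Submodule A M) (h : K ≤ P), Submodule.comap K.mkQ
      (LinearMap.ker (Submodule.mapQ K P LinearMap.id h)) = P := by
    intro K h
    ext x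
    rw [Submodule.mem_comap, LinearMap.mem_ker]
    simp
  have hatom : ∀ (K : Submodule A M) (h : K ⋖ P),
      IsAtom (LinearMap.ker (Submodule.mapQ K P LinearMap.id h.le)) := by
    intro K h
    rw [← (Submodule.comapMkQRelIso K).isAtom_iff, Set.Ici.isAtom_iff]
    show K ⋖ Submodule.comap K.mkQ (LinearMap.ker (Submodule.mapQ K P LinearMap.id h.le))
    rw [hcomap K h.le]
    exact h
  have hsurj : ∀ (K : Submodule A M) (h : K ≤ P),
      Function.Surjective (Submodule.mapQ K P LinearMap.id h) := by
    intro K h y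
    obtain ⟨x, rfl⟩ := Submodule.Quotient.mk_surjective _ y
    exact ⟨Submodule.Quotient.mk x, rfl⟩
  have hns : ∀ (K : Submodule A M) (h : K ⋖ P),
      ¬ ∃ s : (M ⧸ P) →ₗ[A] (M ⧸ K), Submodule.mapQ K P LinearMap.id h.le ∘ₗ s =
        LinearMap.id := by
    rintro K h ⟨s, hsq⟩
    have hsq' : ∀ v, Submodule.mapQ K P LinearMap.id h.le (s v) = v := fun v =>
      LinearMap.congr_fun hsq v
    set N := Submodule.comap K.mkQ (LinearMap.range s) with hN
    have hNtop : N = ⊤ := by
      by_contra hne
      have hNP := hmax N hne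
      apply hP
      rw [eq_top_iff]
      intro m _
      obtain ⟨n, hn⟩ := Submodule.Quotient.mk_surjective _ (s (Submodule.Quotient.mk m))
      have hnN : n ∈ N := ⟨Submodule.Quotient.mk m, hn.symm⟩
      have h3 := hsq' (Submodule.Quotient.mk m)
      rw [← hn] at h3
      have h4 : (Submodule.Quotient.mk n : M ⧸ P) = Submodule.Quotient.mk m := h3
      rw [Submodule.Quotient.eq] at h4
      have := P.sub_mem (hNP hnN) h4
      rwa [sub_sub_cancel] at this
    obtain ⟨p, hpP, hpK⟩ := SetLike.exists_of_lt h.lt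
    have hpN : p ∈ N := by rw [hNtop]; trivial
    obtain ⟨v, hv⟩ := hpN
    have h5 := hsq' v
    rw [hv] at h5
    have h6 : (Submodule.Quotient.mk p : M ⧸ P) = v := h5
    rw [(Submodule.Quotient.mk_eq_zero P).2 hpP] at h6
    rw [← h6, map_zero] at hv
    exact hpK ((Submodule.Quotient.mk_eq_zero K).1 hv.symm)
  obtain ⟨e, he⟩ := hU (M ⧸ P) (M ⧸ P₁) (M ⧸ P₂) (Submodule.mapQ P₁ P LinearMap.id h1.le)
    (Submodule.mapQ P₂ P LinearMap.id h2.le) hs (hsurj P₁ h1.le) (hsurj P₂ h2.le)
    (isSimpleModule_iff_isAtom.2 (hatom P₁ h1)) (isSimpleModule_iff_isAtom.2 (hatom P₂ h2))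
    (hns P₁ h1) (hns P₂ h2)
  set g : M →ₗ[A] (M ⧸ P₂) := (e : (M ⧸ P₁) →ₗ[A] (M ⧸ P₂)) ∘ₗ P₁.mkQ - P₂.mkQ with hg
  have hgval : ∀ m, g m = e (Submodule.Quotient.mk m) - Submodule.Quotient.mk m := fun m => rfl
  have hrange : LinearMap.range g ≤ LinearMap.ker (Submodule.mapQ P₂ P LinearMap.id h2.le) := by
    rintro _ ⟨m, rfl⟩
    rw [LinearMap.mem_ker, hgval, map_sub, he]
    exact sub_self (Submodule.Quotient.mk m : M ⧸ P)
  have hPg : P ≤ LinearMap.ker g := by
    rcases (hatom P₂ h2).le_iff.1 hrange with h0 | h0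
    · rw [LinearMap.range_eq_bot.1 h0, LinearMap.ker_zero]
      exact le_top
    · have hsr : IsSimpleModule A (LinearMap.range g) := by
        rw [h0]; exact isSimpleModule_iff_isAtom.2 (hatom P₂ h2)
      have hsk : IsSimpleModule A (M ⧸ LinearMap.ker g) :=
        IsSimpleModule.congr g.quotKerEquivRange
      have hco := isSimpleModule_iff_isCoatom.1 hsk
      rcases hco.le_iff.1 (hmax _ hco.1) with h | h
      · exact absurd h hP
      · exact h.le
  have hle : P₁ ≤ P₂ := by
    intro m hm
    have h3 := hPg (h1.le hm)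
    rw [LinearMap.mem_ker, hgval, (Submodule.Quotient.mk_eq_zero P₁).2 hm, map_zero,
      zero_sub, neg_eq_zero] at h3
    exact (Submodule.Quotient.mk_eq_zero P₂).1 h3
  rcases h1.eq_or_eq hle h2.le with h | h
  · exact h.symm
  · exact absurd h h2.lt.ne

theorem uniserial_of_top {A : Type u} [Ring A] (hU : UniTop A) (M : Type u) [AddCommGroup M]
    [Module A M] (hM : IsFiniteLength A M) (P : Submodule A M) (hP : P ≠ ⊤)
    (hmax : ∀ N : Submodule A M, N ≠ ⊤ → N ≤ P) : Uniserial A M := by
  induction hM with
  | of_subsingleton => exact absurd (Subsingleton.elim _ _) hP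
  | @of_simple_quotient M _ _ N hs hN ih =>
    have hco : IsCoatom N := isSimpleModule_iff_isCoatom.1 hs
    have hNP : P = N := by
      rcases hco.le_iff.1 (hmax N hco.1) with h | h
      · exact absurd h hP
      · exact h
    subst hNP
    have huN : Uniserial A P := by
      by_cases hb : P = ⊥
      · subst hb
        intro N₁ N₂
        left
        rw [Subsingleton.elim N₁ N₂]
      · obtain ⟨hnoe, -⟩ := isFiniteLength_iff_isNoetherian_isArtinian.1 hN
        have hbt : (⊥ : Submodule A P) ≠ ⊤ := by
          intro h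
          apply hb
          rw [eq_bot_iff]
          intro x hx
          have : (⟨x, hx⟩ : P) ∈ (⊥ : Submodule A P) := by rw [h]; trivial
          rw [Submodule.mem_bot] at this
          exact congrArg Subtype.val this
        -- covers
        have hcov : ∀ K : Submodule A P, IsCoatom K → K.map P.subtype ⋖ P := by
          intro K hK
          have hcm : (K.map P.subtype).comap P.subtype = K :=
            Submodule.comap_map_eq_of_injective P.subtype_injective K
          refine ⟨lt_of_le_of_ne (Submodule.map_subtype_le P K) ?_, ?_⟩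
          · intro h
            apply hK.1
            rw [← hcm, h, Submodule.comap_subtype_self]
          · intro c hc1 hc2
            have h3 : K ≤ c.comap P.subtype := by
              rw [← hcm]; exact Submodule.comap_mono hc1.le
            rcases hK.le_iff.1 h3 with h | h
            · rw [Submodule.comap_subtype_eq_top] at h
              exact absurd (le_antisymm h hc2.le) hc2.ne'
            · have h4 : (c.comap P.subtype).map P.subtype = P ⊓ c :=
                Submodule.map_comap_subtype P c
              rw [inf_eq_right.2 hc2.le, h] at h4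
              exact hc1.ne h4
        obtain ⟨K₀, hK₀, -⟩ := (eq_top_or_exists_le_coatom (⊥ : Submodule A P)).resolve_left hbt
        refine ih K₀ hK₀.1 fun K hK => ?_
        obtain ⟨K₁, hK₁, hKK⟩ := (eq_top_or_exists_le_coatom K).resolve_left hK
        have := cover_unique hU M P hP hmax hs _ _ (hcov K₁ hK₁) (hcov K₀ hK₀)
        rw [← Submodule.map_injective_of_injective P.subtype_injective this]
        exact hKK
    intro N₁ N₂
    by_cases h1 : N₁ = ⊤
    · right; rw [h1]; exact le_top
    by_cases h2 : N₂ = ⊤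
    · left; rw [h2]; exact le_top
    have g1 := hmax N₁ h1
    have g2 := hmax N₂ h2
    rcases huN (N₁.comap P.subtype) (N₂.comap P.subtype) with h | h
    · left
      intro x hx
      exact h (show (⟨x, g1 hx⟩ : P) ∈ N₁.comap P.subtype from hx)
    · right
      intro x hx
      exact h (show (⟨x, g2 hx⟩ : P) ∈ N₂.comap P.subtype from hx)

end Cb
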