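import Pool.Agent.Helper462.Cb.Defs

namespace Cb

universe u


theorem us_quot {A : Type*} [Ring A] {M : Type*} [AddCommGroup M] [Module A M]
    {K : Submodule A M} (h : Uniserial A (M ⧸ K)) (L₁ L₂ : Submodule A M) (h1 : K ≤ L₁)
    (h2 : K ≤ L₂) : L₁ ≤ L₂ ∨ L₂ ≤ L₁ := by
  have e : ∀ L : Submodule A M, K ≤ L → (L.map K.mkQ).comap K.mkQ = L := by
    intro L hL
    rw [Submodule.comap_map_mkQ, sup_eq_right.2 hL]
  rcases h (L₁.map K.mkQ) (L₂.map K.mkQ) with h3 | h3
  · left
    rw [← e L₁ h1, ← e L₂ h2]
    exact Submodule.comap_mono h3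
  · right
    rw [← e L₁ h1, ← e L₂ h2]
    exact Submodule.comap_mono h3

theorem us_sub {A : Type*} [Ring A] {M : Type*} [AddCommGroup M] [Module A M]
    {P : Submodule A M} (h : Uniserial A P) (L₁ L₂ : Submodule A M) (h1 : L₁ ≤ P)
    (h2 : L₂ ≤ P) : L₁ ≤ L₂ ∨ L₂ ≤ L₁ := by
  have e : ∀ L : Submodule A M, L ≤ P → (L.comap P.subtype).map P.subtype = L := by
    intro L hL
    rw [Submodule.map_comap_subtype, inf_eq_right.2 hL]
  rcases h (L₁.comap P.subtype) (L₂.comap P.subtype) with h3 | h3
  · left
    rw [← e L₁ h1, ← e L₂ h2]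
    exact Submodule.map_mono h3
  · right
    rw [← e L₁ h1, ← e L₂ h2]
    exact Submodule.map_mono h3

theorem us_simple {A : Type*} [Ring A] {M : Type*} [AddCommGroup M] [Module A M]
    [IsSimpleModule A M] : Uniserial A M := by
  intro N₁ N₂
  rcases eq_bot_or_eq_top N₁ with h | h
  · left; rw [h]; exact bot_le
  · right; rw [h]; exact le_top

theorem us_equiv {A : Type*} [Ring A] {M M' : Type*} [AddCommGroup M] [Module A M]
    [AddCommGroup M'] [Module A M'] (e : M ≃ₗ[A] M') (h : Uniserial A M) : Uniserial A M' := by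
  intro N₁ N₂
  have e1 : ∀ N : Submodule A M', (N.comap e.toLinearMap).map e.toLinearMap = N := by
    intro N
    exact Submodule.map_comap_eq_of_surjective e.surjective N
  rcases h (N₁.comap e.toLinearMap) (N₂.comap e.toLinearMap) with h3 | h3
  · left
    rw [← e1 N₁, ← e1 N₂]
    exact Submodule.map_mono h3
  · right
    rw [← e1 N₁, ← e1 N₂]
    exact Submodule.map_mono h3

theorem us_len {A : Type*} [Ring A] {M : Type*} [AddCommGroup M] [Module A M]
    (K : Submodule A M) :
    Module.length A M = Module.length A K + Module.length A (M ⧸ K) :=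
  Module.length_eq_add_of_exact K.subtype K.mkQ K.injective_subtype K.mkQ_surjective
    (LinearMap.exact_subtype_mkQ K)

theorem exists_uniserial_summand {A : Type u} [Ring A]
    (h1 : ∀ (M : Type u) [AddCommGroup M] [Module A M], IsFiniteLength A M →
      ∀ S : Submodule A M, IsSimpleModule A S → (∀ N : Submodule A M, N ≠ ⊥ → S ≤ N) →
      Uniserial A M)
    (h2 : ∀ (M : Type u) [AddCommGroup M] [Module A M], IsFiniteLength A M →
      ∀ P : Submodule A M, P ≠ ⊤ → (∀ N : Submodule A M, N ≠ ⊤ → N ≤ P) → Uniserial A M)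
    (M : Type u) [AddCommGroup M] [Module A M] (hM : IsFiniteLength A M) [Nontrivial M] :
    ∃ P N : Submodule A M, IsCompl P N ∧ P ≠ ⊥ ∧ Uniserial A P := by
  obtain ⟨iN, iA⟩ := isFiniteLength_iff_isNoetherian_isArtinian.1 hM
  have hco : IsCoatomic (Submodule A M) := inferInstance
  have hat : IsAtomic (Submodule A M) := inferInstance
  obtain ⟨C, hC, -⟩ := (IsCoatomic.eq_top_or_exists_le_coatom (⊥ : Submodule A M)).resolve_left
    bot_ne_top
  have hCs : IsSimpleModule A (M ⧸ C) := isSimpleModule_iff_isCoatom.2 hC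
  obtain ⟨K, ⟨hKt, hKu⟩, hKmin⟩ :=
    (InvImage.wf (fun K : Submodule A M => Module.length A K) wellFounded_lt).has_min
      {K | K ≠ ⊤ ∧ Uniserial A (M ⧸ K)} ⟨C, hC.1, us_simple⟩
  obtain ⟨K', hK', hKK'⟩ := (IsCoatomic.eq_top_or_exists_le_coatom K).resolve_left hKt
  obtain ⟨P, hPK, hPmin⟩ := (wellFounded_lt (α := Submodule A M)).has_min
      {P | P ⊔ K = ⊤} ⟨⊤, top_sup_eq K⟩
  have hPK' : P ⊔ K = ⊤ := hPK
  have hPfl : IsFiniteLength A P := hM.of_injective P.injective_subtype
  have hPu : Uniserial A P := by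
    apply h2 P hPfl (K'.comap P.subtype)
    · intro h
      rw [Submodule.comap_subtype_eq_top] at h
      apply hK'.1
      rw [eq_top_iff, ← hPK']
      exact sup_le h hKK'
    · intro N' hN'
      rw [← Submodule.map_le_iff_le_comap]
      have hlt : N'.map P.subtype < P := by
        rw [lt_iff_le_and_ne]
        refine ⟨Submodule.map_subtype_le P N', ?_⟩
        intro h
        apply hN'
        rw [eq_top_iff]
        intro x _
        have hx : (x : M) ∈ N'.map P.subtype := by rw [h]; exact x.2
        obtain ⟨y, hy, hyx⟩ := hx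
        have : y = x := Subtype.ext hyx
        rw [← this]; exact hy
      have hne : N'.map P.subtype ⊔ K ≠ ⊤ := by
        intro h
        exact hPmin _ h hlt
      have h4 : N'.map P.subtype ⊔ K ≤ K' := by
        rcases us_quot hKu (N'.map P.subtype ⊔ K) K' le_sup_right hKK' with h5 | h5
        · exact h5
        · rcases h5.lt_or_eq with h6 | h6
          · exact absurd (hK'.2 _ h6) hne
          · exact h6.symm.le
      exact le_sup_left.trans h4
  have hPne : P ≠ ⊥ := by
    intro h
    rw [h, bot_sup_eq] at hPK'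
    exact hKt hPK'
  -- the length of `P`
  have hsurj : Function.Surjective (K.mkQ ∘ₗ P.subtype) := by
    rw [← LinearMap.range_eq_top, LinearMap.range_comp, Submodule.range_subtype]
    have h4 : (P.map K.mkQ).comap K.mkQ = ⊤ := by
      rw [Submodule.comap_map_mkQ, sup_comm, hPK']
    rw [← Submodule.map_comap_eq_of_surjective K.mkQ_surjective (P.map K.mkQ), h4,
      Submodule.map_top, Submodule.range_mkQ]
  have hlen1 : Module.length A (M ⧸ K) ≤ Module.length A P := Module.length_le_of_surjective _ hsurj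
  -- the complement
  obtain ⟨N, hPN, hNmax⟩ := (wellFounded_gt (α := Submodule A M)).has_min
      {N | P ⊓ N = ⊥} ⟨⊥, inf_bot_eq P⟩
  have hPN' : P ⊓ N = ⊥ := hPN
  obtain ⟨S₀, hS₀, hS₀P⟩ := (IsAtomic.eq_bot_or_exists_atom_le P).resolve_left hPne
  have hleast : ∀ T : Submodule A (M ⧸ N), T ≠ ⊥ → S₀.map N.mkQ ≤ T := by
    intro T hT
    rw [Submodule.map_le_iff_le_comap]
    have h4 : N ≤ T.comap N.mkQ := by
      intro x hx
      show N.mkQ x ∈ T
      have : N.mkQ x = 0 := by simpa using hx
      rw [this]; exact T.zero_mem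
    have h5 : N < T.comap N.mkQ := by
      refine lt_of_le_of_ne h4 ?_
      intro h
      apply hT
      rw [← Submodule.map_comap_eq_of_surjective N.mkQ_surjective T, ← h, Submodule.mkQ_map_self]
    have h6 : P ⊓ T.comap N.mkQ ≠ ⊥ := fun h => hNmax _ h h5
    rcases us_sub hPu S₀ (P ⊓ T.comap N.mkQ) hS₀P inf_le_left with h7 | h7
    · exact h7.trans inf_le_right
    · rcases h7.lt_or_eq with h8 | h8
      · exact absurd (hS₀.2 _ h8) h6
      · exact h8.symm.le.trans inf_le_right
  have hSne : S₀.map N.mkQ ≠ ⊥ := by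
    intro h
    have h4 : S₀ ≤ N := by
      intro x hx
      have h5 : N.mkQ x ∈ S₀.map N.mkQ := ⟨x, hx, rfl⟩
      rw [h, Submodule.mem_bot] at h5
      simpa using h5
    apply hS₀.1
    rw [eq_bot_iff, ← hPN']
    exact le_inf hS₀P h4
  have hSat : IsAtom (S₀.map N.mkQ) := by
    refine ⟨hSne, fun T hT => ?_⟩
    by_contra h
    exact absurd (hleast T h) (not_le_of_gt hT)
  have hQfl : IsFiniteLength A (M ⧸ N) := hM.of_surjective N.mkQ_surjective
  have hNu : Uniserial A (M ⧸ N) := h1 (M ⧸ N) hQfl _ (isSimpleModule_iff_isAtom.2 hSat) hleast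
  have hNt : N ≠ ⊤ := by
    intro h
    rw [h, inf_top_eq] at hPN'
    exact hPne hPN'
  have hlen2 : Module.length A K ≤ Module.length A N := by
    have := hKmin N ⟨hNt, hNu⟩
    simpa [InvImage] using this
  have hlen3 : Module.length A (M ⧸ N) ≤ Module.length A (M ⧸ K) := by
    have e1 := us_len (A := A) K
    have e2 := us_len (A := A) N
    have hf : Module.length A M ≠ ⊤ := Module.length_ne_top
    have fN : Module.length A N ≠ ⊤ := Module.length_ne_top
    have fK : Module.length A K ≠ ⊤ := Module.length_ne_top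
    have e3 : Module.length A N + Module.length A (M ⧸ N)
        ≤ Module.length A N + Module.length A (M ⧸ K) := by
      rw [← e2, e1]
      gcongr
    exact (ENat.add_le_add_iff_left fN).1 e3
  -- conclude
  have hinj : Function.Injective (N.mkQ ∘ₗ P.subtype) := by
    rw [← LinearMap.ker_eq_bot, LinearMap.ker_comp, Submodule.ker_mkQ]
    rw [← Submodule.disjoint_iff_comap_eq_bot]
    exact disjoint_iff.2 hPN'
  have hrange : LinearMap.range (N.mkQ ∘ₗ P.subtype) = ⊤ := by
    by_contra h
    have h4 := Submodule.length_lt h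
    have h5 : Module.length A P = Module.length A (LinearMap.range (N.mkQ ∘ₗ P.subtype)) :=
      (LinearEquiv.ofInjective _ hinj).length_eq
    rw [← h5] at h4
    exact absurd (hlen3.trans hlen1) (not_le_of_gt h4)
  have hsup : P ⊔ N = ⊤ := by
    rw [LinearMap.range_comp, Submodule.range_subtype] at hrange
    have h4 : (P.map N.mkQ).comap N.mkQ = ⊤ := by rw [hrange, Submodule.comap_top]
    rw [Submodule.comap_map_mkQ, sup_comm] at h4
    exact h4
  exact ⟨P, N, ⟨disjoint_iff.2 hPN', codisjoint_iff.2 hsup⟩, hPne, hPu⟩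

/-- every finite length module is a finite (internal) direct sum of uniserial modules: for every
element `e` there are finitely many uniserial modules `U i` of finite length with maps
`p i : M → U i`, `j i : U i → M`, `∑ j i (p i e) = e`. -/
theorem exists_uniserial_decomposition {A : Type u} [Ring A]
    (h : ∀ (M : Type u) [AddCommGroup M] [Module A M], IsFiniteLength A M → Nontrivial M →
      ∃ P N : Submodule A M, IsCompl P N ∧ P ≠ ⊥ ∧ Uniserial A P)
    (M : Type u) [AddCommGroup M] [Module A M] (hM : IsFiniteLength A M) :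
    ∃ (n : ℕ) (U : Fin n → Submodule A M) (p : ∀ i, M →ₗ[A] U i),
      (∀ i, Uniserial A (U i)) ∧ ∀ x : M, ∑ i, ((p i x : U i) : M) = x := by
  have key : ∀ (k : ℕ) (M : Type u) [AddCommGroup M] [Module A M], IsFiniteLength A M →
      Module.length A M = k →
      ∃ (n : ℕ) (U : Fin n → Submodule A M) (p : ∀ i, M →ₗ[A] U i),
      (∀ i, Uniserial A (U i)) ∧ ∀ x : M, ∑ i, ((p i x : U i) : M) = x := by
    intro k
    induction k using Nat.strong_induction_on with
    | _ k ih =>
      intro M _ _ hM hk
      rcases subsingleton_or_nontrivial M with hs | hn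
      · refine ⟨0, Fin.elim0, fun i => i.elim0, fun i => i.elim0, fun x => Subsingleton.elim _ _⟩
      obtain ⟨iN, iA⟩ := isFiniteLength_iff_isNoetherian_isArtinian.1 hM
      obtain ⟨P, N, hPN, hP, hPu⟩ := h M hM hn
      have hNt : N ≠ ⊤ := by
        intro h4
        have h5 := hPN.inf_eq_bot
        rw [h4, inf_top_eq] at h5
        exact hP h5
      have hNfl : IsFiniteLength A N := hM.of_injective N.injective_subtype
      have hlt := Submodule.length_lt hNt
      obtain ⟨j, hj⟩ := ENat.ne_top_iff_exists.1 (Module.length_ne_top (R := A) (M := N))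
      rw [hk, ← hj] at hlt
      have hjk : j < k := by exact_mod_cast hlt
      obtain ⟨n, U, p, hU, hp⟩ := ih j hjk N hNfl hj.symm
      let V : Fin (n + 1) → Submodule A M := Fin.cons P (fun i => (U i).map N.subtype)
      let e : ∀ i, U i ≃ₗ[A] (U i).map N.subtype := fun i =>
        Submodule.equivMapOfInjective N.subtype N.injective_subtype (U i)
      let r : ∀ i : Fin (n + 1), M →ₗ[A] V i := Fin.cons (P.projectionOnto N hPN)
        (fun i => (e i).toLinearMap ∘ₗ (p i) ∘ₗ (N.projectionOnto P hPN.symm))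
      refine ⟨n + 1, V, r, ?_, ?_⟩
      · intro i
        refine Fin.cases ?_ ?_ i
        · exact hPu
        · intro i
          exact us_equiv (e i) (hU i)
      · intro x
        rw [Fin.sum_univ_succ]
        have h6 : ((r 0 x : V 0) : M) = P.projection N hPN x := rfl
        have h7 : ∀ i : Fin n, ((r i.succ x : V i.succ) : M)
            = (((p i (N.projectionOnto P hPN.symm x) : U i) : N) : M) := fun i => rfl
        rw [h6]
        simp only [h7]
        have h8 := hp (N.projectionOnto P hPN.symm x)
        have h9 : (∑ i, (((p i (N.projectionOnto P hPN.symm x) : U i) : N) : M))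
            = ((N.projectionOnto P hPN.symm x : N) : M) := by
          conv_rhs => rw [← h8]
          push_cast
          rfl
        rw [h9]
        exact Submodule.projection_add_projection_eq_self hPN x
  have hft : Module.length A M ≠ ⊤ := Module.length_ne_top_iff.2 hM
  obtain ⟨k, hk⟩ := ENat.ne_top_iff_exists.1 hft
  exact key k M hM hk.symm

end Cb
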