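import Pool.Agent.Helper462.Cb.Defs

namespace Cb

universe u


section hullaux

variable {A : Type u} [Ring A] {E : Type u} [AddCommGroup E] [Module A E]

theorem hull_uni (h1 : ∀ (M : Type u) [AddCommGroup M] [Module A M], IsFiniteLength A M →
      ∀ S : Submodule A M, IsSimpleModule A S → (∀ N : Submodule A M, N ≠ ⊥ → S ≤ N) →
      Uniserial A M) {s : E} (hs : s ≠ 0) (hess : ∀ N : Submodule A E, N ≠ ⊥ → s ∈ N)
    (N : Submodule A E) (hN : IsFiniteLength A N) : Uniserial A N := by
  by_cases hb : N = ⊥
  · subst hb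
    intro N₁ N₂
    left
    intro x _
    have : x = 0 := Subsingleton.elim _ _
    rw [this]
    exact N₂.zero_mem
  · have hsN := hess N hb
    have hmin : ∀ K : Submodule A N, K ≠ ⊥ → Submodule.span A {(⟨s, hsN⟩ : N)} ≤ K := by
      intro K hK
      rw [Submodule.span_singleton_le_iff_mem]
      have h2 : K.map N.subtype ≠ ⊥ := by
        intro h3
        exact hK (Submodule.map_injective_of_injective N.subtype_injective
          (h3.trans (Submodule.map_bot _).symm))
      obtain ⟨y, hy, hys⟩ := Submodule.mem_map.1 (hess _ h2)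
      have : y = ⟨s, hsN⟩ := Subtype.ext hys
      rwa [this] at hy
    refine h1 N hN (Submodule.span A {(⟨s, hsN⟩ : N)}) ?_ hmin
    rw [isSimpleModule_iff_isAtom]
    refine ⟨?_, fun b hb => ?_⟩
    · intro h2
      rw [Submodule.span_singleton_eq_bot] at h2
      exact hs (congrArg Subtype.val h2)
    · by_contra h3
      exact absurd (hmin b h3) (not_le_of_gt hb)

theorem hull_fl (hfl : ∀ (M : Type u) [AddCommGroup M] [Module A M] [Module.Finite A M],
      (∀ x : M, ∃ p : A, p ≠ 0 ∧ p • x = 0) → IsFiniteLength A M)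
    (htor : ∀ x : E, ∃ p : A, p ≠ 0 ∧ p • x = 0) (N : Submodule A E) (hN : N.FG) :
    IsFiniteLength A N := by
  have : Module.Finite A N := Module.Finite.iff_fg.2 hN
  refine hfl N fun x => ?_
  obtain ⟨p, hp, hpx⟩ := htor x
  exact ⟨p, hp, Subtype.ext hpx⟩

theorem hull_fg {N : Submodule A E} (hN : IsFiniteLength A N) : N.FG := by
  have h := (isFiniteLength_iff_isNoetherian_isArtinian.1 hN).1
  have h2 : Module.Finite A N := inferInstance
  exact Module.Finite.iff_fg.1 h2

theorem hull_cmp {N N' : Submodule A E} (hu : Uniserial A ↥(N ⊔ N')) : N ≤ N' ∨ N' ≤ N := by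
  rcases hu (N.comap (N ⊔ N').subtype) (N'.comap (N ⊔ N').subtype) with h | h
  · left
    intro x hx
    exact h (show (⟨x, Submodule.mem_sup_left hx⟩ : ↥(N ⊔ N')) ∈ _ from hx)
  · right
    intro x hx
    exact h (show (⟨x, Submodule.mem_sup_right hx⟩ : ↥(N ⊔ N')) ∈ _ from hx)

theorem hull_next {N M : Submodule A E} (hM : IsFiniteLength A M) (hNM : N < M) :
    ∃ N' : Submodule A E, IsFiniteLength A N' ∧
      Module.length A N' = Module.length A N + 1 := by
  obtain ⟨hM1, hM2⟩ := isFiniteLength_iff_isNoetherian_isArtinian.1 hM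
  have hne : ¬ IsMax (N.comap M.subtype) := by
    intro h
    have h2 : N.comap M.subtype = ⊤ := h.eq_top
    rw [Submodule.comap_subtype_eq_top] at h2
    exact absurd h2 (not_le_of_gt hNM)
  obtain ⟨N₂, hcov⟩ := exists_covBy_of_wellFoundedLT hne
  have hsimple : IsSimpleModule A (N₂ ⧸ Submodule.comap N₂.subtype (N.comap M.subtype)) :=
    (covBy_iff_quot_is_simple hcov.le).1 hcov
  refine ⟨N₂.map M.subtype, ?_, ?_⟩
  · have h2 : IsFiniteLength A N₂ := hM.of_injective (Submodule.subtype_injective N₂)
    exact (Submodule.equivMapOfInjective M.subtype M.subtype_injective N₂).isFiniteLength h2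
  · have e1 := (Submodule.equivMapOfInjective M.subtype M.subtype_injective N₂).length_eq
    have e2 : Module.length A N₂ =
        Module.length A ↥(Submodule.comap N₂.subtype (N.comap M.subtype)) +
        Module.length A (N₂ ⧸ Submodule.comap N₂.subtype (N.comap M.subtype)) :=
      Module.length_eq_add_of_exact _ _
        (Submodule.subtype_injective (Submodule.comap N₂.subtype (N.comap M.subtype)))
        (Submodule.mkQ_surjective (Submodule.comap N₂.subtype (N.comap M.subtype)))
        (LinearMap.exact_subtype_mkQ (Submodule.comap N₂.subtype (N.comap M.subtype)))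
    have e3 : Module.length A ↥(Submodule.comap N₂.subtype (N.comap M.subtype)) =
        Module.length A ↥(N.comap M.subtype) :=
      LinearEquiv.length_eq (R := A) (M := ↥(Submodule.comap N₂.subtype (N.comap M.subtype)))
        (N := ↥(N.comap M.subtype)) (Submodule.comapSubtypeEquivOfLe hcov.le)
    have e4 : Module.length A ↥(N.comap M.subtype) = Module.length A N :=
      LinearEquiv.length_eq (R := A) (M := ↥(N.comap M.subtype)) (N := ↥N)
        (Submodule.comapSubtypeEquivOfLe hNM.le)
    rw [← e1, e2, e3, e4, Module.length_eq_one_iff.2 hsimple]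

theorem hull_eq {N N' : Submodule A E} (hN : IsFiniteLength A N) (hle : N ≤ N')
    (h : Module.length A N = Module.length A N') : N = N' := by
  by_contra hne
  have hlt : N < N' := lt_of_le_of_ne hle hne
  rw [Module.length_submodule, Module.length_submodule] at h
  have h2 : Order.height N < ⊤ := by
    rw [← Module.length_submodule]
    exact (Module.length_ne_top_iff.2 hN).lt_top
  exact absurd h (Order.height_strictMono hlt h2).ne

end hullaux

theorem hull_filtration {A : Type u} [Ring A] {d : A → ℕ} (h : Euclid A d)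
    (hnoeth : IsNoetherianRing A)
    (hfl : ∀ (M : Type u) [AddCommGroup M] [Module A M] [Module.Finite A M],
      (∀ x : M, ∃ p : A, p ≠ 0 ∧ p • x = 0) → IsFiniteLength A M)
    (h1 : ∀ (M : Type u) [AddCommGroup M] [Module A M], IsFiniteLength A M →
      ∀ S : Submodule A M, IsSimpleModule A S → (∀ N : Submodule A M, N ≠ ⊥ → S ≤ N) →
      Uniserial A M)
    (hnd : ∀ (V : Type u) [AddCommGroup V] [Module A V], IsSimpleModule A V →
      ∃ p : A, p ≠ 0 ∧ ∃ x : V, ∀ y : V, p • y ≠ x)
    (E : Type u) [AddCommGroup E] [Module A E] (s : E) (hs : s ≠ 0)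
    (hdiv : ∀ p : A, p ≠ 0 → ∀ x : E, ∃ y : E, p • y = x)
    (htor : ∀ x : E, ∃ p : A, p ≠ 0 ∧ p • x = 0)
    (hess : ∀ N : Submodule A E, N ≠ ⊥ → s ∈ N) :
    ∃ En : ℕ → Submodule A E, Monotone En ∧ (∀ x, ∃ m, x ∈ En m) ∧ (∀ m, s ∈ En m) ∧
      (∀ m, IsFiniteLength A (En m)) ∧ (∀ m, Module.length A (En m) = m + 1) ∧
      (∀ m, Uniserial A (En m)) ∧
      ∀ N : Submodule A E, IsFiniteLength A N → ∀ m : ℕ, Module.length A N = m + 1 → N = En m := by
  have hnontriv : Nontrivial E := ⟨⟨s, 0, hs⟩⟩
  -- E is not of finite length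
  have hE : ¬ IsFiniteLength A E := by
    intro hE
    obtain ⟨hE1, hE2⟩ := isFiniteLength_iff_isNoetherian_isArtinian.1 hE
    obtain ⟨P, hP⟩ := IsCoatomic.exists_coatom (Submodule A E)
    have hsimp : IsSimpleModule A (E ⧸ P) := isSimpleModule_iff_isCoatom.2 hP
    obtain ⟨p, hp, x, hx⟩ := hnd (E ⧸ P) hsimp
    obtain ⟨x', rfl⟩ := Submodule.mkQ_surjective P x
    obtain ⟨y, hy⟩ := hdiv p hp x'
    exact hx (P.mkQ y) (by rw [← map_smul, hy])
  have hcmp : ∀ N N' : Submodule A E, IsFiniteLength A N → IsFiniteLength A N' →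
      N ≤ N' ∨ N' ≤ N := fun N N' hN hN' =>
    hull_cmp (hull_uni h1 hs hess _ (hull_fl hfl htor _ ((hull_fg hN).sup (hull_fg hN'))))
  have hex : ∀ n : ℕ, ∃ N : Submodule A E, IsFiniteLength A N ∧ Module.length A N = n := by
    intro n
    induction n with
    | zero =>
      refine ⟨⊥, IsFiniteLength.of_subsingleton, ?_⟩
      rw [Module.length_bot]
      rfl
    | succ n ih =>
      obtain ⟨N, hN, hNn⟩ := ih
      have hNt : ∃ x, x ∉ N := by
        by_contra hcon
        push Not at hcon
        have htop : N = ⊤ := eq_top_iff.2 fun x _ => hcon x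
        rw [htop] at hN
        exact hE (Submodule.topEquiv.isFiniteLength hN)
      obtain ⟨x, hx⟩ := hNt
      have hM : IsFiniteLength A ↥(N ⊔ Submodule.span A {x}) :=
        hull_fl hfl htor _ ((hull_fg hN).sup (Submodule.fg_span_singleton x))
      have hlt : N < N ⊔ Submodule.span A {x} := by
        refine lt_of_le_of_ne le_sup_left fun h2 => hx ?_
        rw [h2]
        exact Submodule.mem_sup_right (Submodule.mem_span_singleton_self x)
      obtain ⟨N', hN', hl⟩ := hull_next hM hlt
      exact ⟨N', hN', by rw [hl, hNn]; push_cast; rfl⟩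
  choose En hEn hlen using fun m : ℕ => hex (m + 1)
  have hlen' : ∀ m : ℕ, Module.length A (En m) = m + 1 := fun m => by
    rw [hlen]; push_cast; rfl
  have huniq : ∀ N : Submodule A E, IsFiniteLength A N → ∀ m : ℕ,
      Module.length A N = m + 1 → N = En m := by
    intro N hN m hm
    rcases hcmp N (En m) hN (hEn m) with h2 | h2
    · exact hull_eq hN h2 (hm.trans (hlen' m).symm)
    · exact (hull_eq (hEn m) h2 ((hlen' m).trans hm.symm)).symm
  have hne : ∀ m, En m ≠ ⊥ := by
    intro m h2
    have h3 := hlen' m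
    rw [h2, Module.length_bot] at h3
    exact absurd h3.symm (by simp)
  refine ⟨En, ?_, ?_, fun m => hess _ (hne m), hEn, hlen', fun m => hull_uni h1 hs hess _ (hEn m),
    huniq⟩
  · refine monotone_nat_of_le_succ fun m => ?_
    rcases hcmp (En m) (En (m + 1)) (hEn m) (hEn (m + 1)) with h2 | h2
    · exact h2
    · exfalso
      have h3 : Module.length A (En (m + 1)) ≤ Module.length A (En m) := by
        rw [Module.length_submodule, Module.length_submodule]
        exact Order.height_mono h2
      rw [hlen, hlen] at h3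
      have h4 := Nat.cast_le.1 h3
      omega
  · intro x
    have hM : IsFiniteLength A ↥(Submodule.span A {x} ⊔ Submodule.span A {s}) :=
      hull_fl hfl htor _ ((Submodule.fg_span_singleton x).sup (Submodule.fg_span_singleton s))
    have hsM : s ∈ Submodule.span A {x} ⊔ Submodule.span A {s} :=
      Submodule.mem_sup_right (Submodule.mem_span_singleton_self s)
    have hxM : x ∈ Submodule.span A {x} ⊔ Submodule.span A {s} :=
      Submodule.mem_sup_left (Submodule.mem_span_singleton_self x)
    obtain ⟨k, hk⟩ := ENat.ne_top_iff_exists.1 (Module.length_ne_top_iff.2 hM)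
    have hk0 : k ≠ 0 := by
      rintro rfl
      have h3 : Subsingleton ↥(Submodule.span A {x} ⊔ Submodule.span A {s}) :=
        Module.length_eq_zero_iff.1 hk.symm
      have h4 : (⟨s, hsM⟩ : ↥(Submodule.span A {x} ⊔ Submodule.span A {s})) = 0 :=
        Subsingleton.elim _ _
      exact hs (congrArg Subtype.val h4)
    obtain ⟨m, rfl⟩ := Nat.exists_eq_succ_of_ne_zero hk0
    refine ⟨m, ?_⟩
    rw [← huniq _ hM m (by rw [← hk]; push_cast; rfl)]
    exact hxM

end Cb
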