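import Pool.Agent.Helper462.Cb.Defs

namespace Cb

universe u


open Zg

theorem h170_qmap {A : Type u} [Ring A] (p : A) {M : Type u} [AddCommGroup M] [Module A M] (x : M)
    (hx : p • x = 0) :
    ∃ q : (A ⧸ Submodule.span A {p}) →ₗ[A] M, q (Submodule.Quotient.mk 1) = x := by
  refine ⟨Submodule.liftQ _ (LinearMap.toSpanSingleton A M x) ?_, ?_⟩
  · rw [Submodule.span_le]
    rintro a ha
    rw [Set.mem_singleton_iff] at ha
    subst ha
    show LinearMap.toSpanSingleton A M x a = 0
    rw [LinearMap.toSpanSingleton_apply]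
    exact hx
  · rw [Submodule.liftQ_apply, LinearMap.toSpanSingleton_apply, one_smul]

/-- extension of `x ↦ v` to a divisible module -/
theorem h170_ext {A : Type u} [Ring A]
    (hbaer : ∀ (E : Type u) [AddCommGroup E] [Module A E],
      (∀ p : A, p ≠ 0 → ∀ x : E, ∃ y : E, p • y = x) →
      ∀ (M N : Type u) [AddCommGroup M] [Module A M] [AddCommGroup N] [Module A N]
      (i : M →ₗ[A] N), Function.Injective i → ∀ g : M →ₗ[A] E, ∃ f : N →ₗ[A] E, f ∘ₗ i = g)
    (p : A) (hp : IsSimpleModule A (A ⧸ Submodule.span A {p}))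
    (D : Type u) [AddCommGroup D] [Module A D]
    (hdiv : ∀ p : A, p ≠ 0 → ∀ x : D, ∃ y : D, p • y = x)
    (M : Type u) [AddCommGroup M] [Module A M] (x : M) (hx : x ≠ 0) (hpx : p • x = 0)
    (v : D) (hv : p • v = 0) : ∃ f : M →ₗ[A] D, f x = v := by
  obtain ⟨q, hq⟩ := h170_qmap p x hpx
  obtain ⟨g, hg⟩ := h170_qmap p v hv
  have hq0 : q ≠ 0 := by
    intro h
    rw [h] at hq
    exact hx (by simpa using hq.symm)
  obtain ⟨f, hf⟩ := hbaer D hdiv _ M q (LinearMap.injective_of_ne_zero hq0) g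
  refine ⟨f, ?_⟩
  rw [← hq, ← hg, ← hf]
  rfl

theorem h170_sol_uni {A : Type u} [Ring A]
    (hbaer : ∀ (E : Type u) [AddCommGroup E] [Module A E],
      (∀ p : A, p ≠ 0 → ∀ x : E, ∃ y : E, p • y = x) →
      ∀ (M N : Type u) [AddCommGroup M] [Module A M] [AddCommGroup N] [Module A N]
      (i : M →ₗ[A] N), Function.Injective i → ∀ g : M →ₗ[A] E, ∃ f : N →ₗ[A] E, f ∘ₗ i = g)
    (p : A) (hp : IsSimpleModule A (A ⧸ Submodule.span A {p}))
    (E : Type u) [AddCommGroup E] [Module A E] (s : E) (hs : s ≠ 0) (hps : p • s = 0)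
    (hdiv : ∀ p : A, p ≠ 0 → ∀ x : E, ∃ y : E, p • y = x)
    (En : ℕ → Submodule A E) (hsEn : ∀ m, s ∈ En m)
    (huniq : ∀ N : Submodule A E, IsFiniteLength A N →
      ∀ m : ℕ, Module.length A N = m + 1 → N = En m)
    (U : Type u) [AddCommGroup U] [Module A U] (hU : Uniserial A U) (hUf : IsFiniteLength A U)
    (x : U) (hx : x ≠ 0) (hpx : p • x = 0) :
    ∃ n : ℕ, ∀ (N : Type u) [AddCommGroup N] [Module A N] (v : N),
      (∃ g : U →ₗ[A] N, g x = v) ↔ ∃ g : En n →ₗ[A] N, g ⟨s, hsEn n⟩ = v := by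
  obtain ⟨f, hf⟩ := h170_ext hbaer p hp E hdiv U x hx hpx s hps
  -- every nonzero submodule contains `x`
  have hsoc : ∀ K : Submodule A U, K ≠ ⊥ → x ∈ K := by
    intro K hK
    rcases hU K (Submodule.span A {x}) with h | h
    · -- `K ≤ span x`
      obtain ⟨q, hq⟩ := h170_qmap p x hpx
      have hr : LinearMap.range q = Submodule.span A {x} := by
        apply le_antisymm
        · rintro _ ⟨y, rfl⟩
          obtain ⟨a, rfl⟩ := Submodule.Quotient.mk_surjective _ y
          have h1 : (Submodule.Quotient.mk a : A ⧸ Submodule.span A {p}) =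
              a • Submodule.Quotient.mk 1 := by
            rw [← Submodule.Quotient.mk_smul, smul_eq_mul, mul_one]
          rw [h1, map_smul, hq]
          exact Submodule.smul_mem _ _ (Submodule.mem_span_singleton_self x)
        · rw [Submodule.span_singleton_le_iff_mem]
          exact ⟨_, hq⟩
      -- preimage of `K` is everything
      have hc : K.comap q = ⊤ := by
        rcases eq_bot_or_eq_top (K.comap q) with h1 | h1
        · exfalso
          apply hK
          rw [eq_bot_iff]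
          intro y hy
          have h2 : y ∈ LinearMap.range q := by
            rw [hr]
            exact h hy
          obtain ⟨z, rfl⟩ := h2
          have h3 : z ∈ K.comap q := hy
          rw [h1, Submodule.mem_bot] at h3
          rw [h3, map_zero]
          exact Submodule.zero_mem _
        · exact h1
      have h4 : (Submodule.Quotient.mk 1 : A ⧸ Submodule.span A {p}) ∈ K.comap q := by
        rw [hc]
        exact Submodule.mem_top
      have h5 : q (Submodule.Quotient.mk 1) ∈ K := h4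
      rwa [hq] at h5
    · exact h (Submodule.mem_span_singleton_self x)
  have hinj : Function.Injective f := by
    rw [← LinearMap.ker_eq_bot]
    by_contra hcon
    have h1 := hsoc _ hcon
    rw [LinearMap.mem_ker, hf] at h1
    exact hs h1
  have hrf : IsFiniteLength A (LinearMap.range f) :=
    (LinearEquiv.ofInjective f hinj).isFiniteLength hUf
  obtain ⟨n, hn⟩ : ∃ n : ℕ, Module.length A (LinearMap.range f) = n + 1 := by
    have h1 := Module.length_ne_top_iff.2 hrf
    obtain ⟨k, hk⟩ := ENat.ne_top_iff_exists.1 h1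
    have h2 : Module.length A (LinearMap.range f) ≠ 0 := by
      intro h
      rw [Module.length_eq_zero_iff] at h
      have h3 : (⟨f x, ⟨x, rfl⟩⟩ : LinearMap.range f) = 0 := Subsingleton.elim _ _
      have h4 : f x = 0 := congrArg Subtype.val h3
      rw [hf] at h4
      exact hs h4
    have h3 : k ≠ 0 := by
      rintro rfl
      apply h2
      rw [← hk]
      rfl
    obtain ⟨m, rfl⟩ := Nat.exists_eq_succ_of_ne_zero h3
    refine ⟨m, ?_⟩
    rw [← hk]
    push_cast
    rfl
  have hEn := huniq _ hrf n hn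
  refine ⟨n, ?_⟩
  intro N _ _ v
  constructor
  · rintro ⟨g, rfl⟩
    refine ⟨g ∘ₗ (LinearEquiv.ofInjective f hinj).symm.toLinearMap ∘ₗ
      (LinearEquiv.ofEq _ _ hEn.symm).toLinearMap, ?_⟩
    show g ((LinearEquiv.ofInjective f hinj).symm ((LinearEquiv.ofEq _ _ hEn.symm) ⟨s, hsEn n⟩)) =
      g x
    congr 1
    rw [LinearEquiv.symm_apply_eq]
    apply Subtype.ext
    rw [LinearEquiv.ofInjective_apply, hf]
    rfl
  · rintro ⟨g, rfl⟩
    refine ⟨g ∘ₗ (LinearEquiv.ofEq _ _ hEn).toLinearMap ∘ₗ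
      (LinearEquiv.ofInjective f hinj).toLinearMap, ?_⟩
    show g ((LinearEquiv.ofEq _ _ hEn) ((LinearEquiv.ofInjective f hinj) x)) = g ⟨s, hsEn n⟩
    congr 1
    apply Subtype.ext
    show f x = s
    exact hf

/-- data: the hull `E` with filtration `En`; formulas `Φ n` defined by `(En n, s)`. -/
theorem exists_chain {A : Type u} [Ring A] {d : A → ℕ} (h : Euclid A d)
    (hnoeth : IsNoetherianRing A)
    (hpf : ∀ θ : PPFormula A, ∃ (F : Type u) (_ : AddCommGroup F) (_ : Module A F)
      (_ : Module.Finite A F) (e : F), ∀ (N : Type u) [AddCommGroup N] [Module A N] (v : N),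
        v ∈ θ.sol N ↔ ∃ f : F →ₗ[A] N, f e = v)
    (hpg : ∀ (F : Type u) [AddCommGroup F] [Module A F] [Module.Finite A F] (e : F),
      ∃ θ : PPFormula A, ∀ (N : Type u) [AddCommGroup N] [Module A N] (v : N),
        v ∈ θ.sol N ↔ ∃ f : F →ₗ[A] N, f e = v)
    (hstr : ∀ (M : Type u) [AddCommGroup M] [Module A M] [Module.Finite A M],
      ∃ (T : Submodule A M) (t : M →ₗ[A] M), (∀ x, x ∈ T ↔ ∃ p : A, p ≠ 0 ∧ p • x = 0) ∧
      (∀ x, t x ∈ T) ∧ ∀ x ∈ T, t x = x)
    (hfl : ∀ (M : Type u) [AddCommGroup M] [Module A M] [Module.Finite A M],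
      (∀ x : M, ∃ p : A, p ≠ 0 ∧ p • x = 0) → IsFiniteLength A M)
    (hdec : ∀ (M : Type u) [AddCommGroup M] [Module A M], IsFiniteLength A M →
      ∃ (n : ℕ) (U : Fin n → Submodule A M) (p : ∀ i, M →ₗ[A] U i),
      (∀ i, Uniserial A (U i)) ∧ ∀ x : M, ∑ i, ((p i x : U i) : M) = x)
    (hbaer : ∀ (E : Type u) [AddCommGroup E] [Module A E],
      (∀ p : A, p ≠ 0 → ∀ x : E, ∃ y : E, p • y = x) →
      ∀ (M N : Type u) [AddCommGroup M] [Module A M] [AddCommGroup N] [Module A N]
      (i : M →ₗ[A] N), Function.Injective i → ∀ g : M →ₗ[A] E, ∃ f : N →ₗ[A] E, f ∘ₗ i = g)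
    (p : A) (hp0 : p ≠ 0) (hp : IsSimpleModule A (A ⧸ Submodule.span A {p}))
    (E : Type u) [AddCommGroup E] [Module A E] (s : E) (hs : s ≠ 0) (hps : p • s = 0)
    (hdiv : ∀ p : A, p ≠ 0 → ∀ x : E, ∃ y : E, p • y = x)
    (hess : ∀ N : Submodule A E, N ≠ ⊥ → s ∈ N)
    (En : ℕ → Submodule A E) (hmono : Monotone En) (hsEn : ∀ m, s ∈ En m)
    (hEfl : ∀ m, IsFiniteLength A (En m)) (hElen : ∀ m, Module.length A (En m) = m + 1)
    (huniq : ∀ N : Submodule A E, IsFiniteLength A N →
      ∀ m : ℕ, Module.length A N = m + 1 → N = En m) :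
    ∃ Φ : ℕ → PPFormula A,
      (∀ (N : Type u) [AddCommGroup N] [Module A N] (v : N), v ∈ (Φ 0).sol N ↔ p • v = 0) ∧
      (∀ n (N : Type u) [AddCommGroup N] [Module A N], (Φ (n + 1)).sol N ⊆ (Φ n).sol N) ∧
      (∀ θ : PPFormula A,
        (∀ (N : Type u) [AddCommGroup N] [Module A N] (v : N), p • v = 0 → v ∈ θ.sol N → v = 0) ∨
        ∃ n, ∀ (N : Type u) [AddCommGroup N] [Module A N] (v : N), p • v = 0 →
          (v ∈ θ.sol N ↔ v ∈ (Φ n).sol N)) ∧
      (∀ (N : Type u) [AddCommGroup N] [Module A N],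
        (∀ p : A, p ≠ 0 → ∀ x : N, ∃ y : N, p • y = x) → ∀ n (v : N), p • v = 0 →
        v ∈ (Φ n).sol N) ∧
      (∀ (N : Type u) [AddCommGroup N] [Module A N], IsFiniteLength A N →
        ∃ n, ∀ v : N, v ∈ (Φ n).sol N → v = 0) := by
  classical
  have hfin : ∀ m, Module.Finite A (En m) := by
    intro m
    have h1 := (isFiniteLength_iff_isNoetherian_isArtinian.1 (hEfl m)).1
    infer_instance
  have hex : ∀ n : ℕ, ∃ θ : PPFormula A, ∀ (N : Type u) [AddCommGroup N] [Module A N] (v : N),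
        v ∈ θ.sol N ↔ ∃ f : En n →ₗ[A] N, f ⟨s, hsEn n⟩ = v := by
    intro n
    haveI := hfin n
    exact hpg (En n) ⟨s, hsEn n⟩
  choose Φ hΦ using hex
  have hsne : ∀ n, (⟨s, hsEn n⟩ : En n) ≠ 0 := by
    intro n h0
    exact hs (congrArg Subtype.val h0)
  have hspn : ∀ n, p • (⟨s, hsEn n⟩ : En n) = 0 := by
    intro n
    apply Subtype.ext
    exact hps
  have hstep : ∀ n (N : Type u) [AddCommGroup N] [Module A N],
      (Φ (n + 1)).sol N ⊆ (Φ n).sol N := by
    intro n N _ _ v hv
    rw [hΦ] at hv ⊢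
    obtain ⟨f, hf⟩ := hv
    refine ⟨f ∘ₗ Submodule.inclusion (hmono (Nat.le_succ n)), ?_⟩
    rw [← hf]
    rfl
  have hanti : ∀ (N : Type u) [AddCommGroup N] [Module A N] (m n : ℕ), m ≤ n →
      (Φ n).sol N ⊆ (Φ m).sol N := by
    intro N _ _ m n hmn
    induction n, hmn using Nat.le_induction with
    | base => exact subset_rfl
    | succ k _ ih => exact (hstep k N).trans ih
  refine ⟨Φ, ?_, hstep, ?_, ?_, ?_⟩
  · -- (0)
    intro N _ _ v
    rw [hΦ]
    constructor
    · rintro ⟨f, rfl⟩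
      rw [← map_smul, hspn, map_zero]
    · intro hv
      have h1 : IsSimpleModule A (En 0) := by
        rw [← Module.length_eq_one_iff, hElen 0]
        simp
      obtain ⟨q, hq⟩ := h170_qmap p (⟨s, hsEn 0⟩ : En 0) (hspn 0)
      obtain ⟨g, hg⟩ := h170_qmap p v hv
      have hq0 : q ≠ 0 := by
        intro h
        rw [h] at hq
        exact hsne 0 hq.symm
      refine ⟨g ∘ₗ (LinearEquiv.ofBijective q (LinearMap.bijective_of_ne_zero hq0)).symm.toLinearMap,
        ?_⟩
      show g ((LinearEquiv.ofBijective q (LinearMap.bijective_of_ne_zero hq0)).symm ⟨s, hsEn 0⟩) = v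
      rw [← hg]
      congr 1
      rw [LinearEquiv.symm_apply_eq]
      exact hq.symm
  · -- (2)
    intro θ
    obtain ⟨F, _, _, _, e, hF⟩ := hpf θ
    -- the quotient
    obtain ⟨F', hF'⟩ : ∃ F' : Type u, F' = (F ⧸ Submodule.span A {p • e}) := ⟨_, rfl⟩
    have hpe : p • (Submodule.Quotient.mk e : F ⧸ Submodule.span A {p • e}) = 0 := by
      rw [← Submodule.Quotient.mk_smul, Submodule.Quotient.mk_eq_zero]
      exact Submodule.mem_span_singleton_self _
    have hθ1 : ∀ (N : Type u) [AddCommGroup N] [Module A N] (v : N), p • v = 0 →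
        (v ∈ θ.sol N ↔ ∃ f : (F ⧸ Submodule.span A {p • e}) →ₗ[A] N,
          f (Submodule.Quotient.mk e) = v) := by
      intro N _ _ v hv
      rw [hF]
      constructor
      · rintro ⟨f, hf⟩
        refine ⟨Submodule.liftQ _ f ?_, ?_⟩
        · rw [Submodule.span_singleton_le_iff_mem, LinearMap.mem_ker, map_smul, hf, hv]
        · rw [Submodule.liftQ_apply, hf]
      · rintro ⟨f, hf⟩
        exact ⟨f ∘ₗ Submodule.mkQ _, hf⟩
    obtain ⟨T, t, hT1, hT2, hT3⟩ := hstr (F ⧸ Submodule.span A {p • e})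
    have heT : (Submodule.Quotient.mk e : F ⧸ Submodule.span A {p • e}) ∈ T :=
      (hT1 _).2 ⟨p, hp0, hpe⟩
    have hθ2 : ∀ (N : Type u) [AddCommGroup N] [Module A N] (v : N), p • v = 0 →
        (v ∈ θ.sol N ↔ ∃ f : T →ₗ[A] N, f ⟨Submodule.Quotient.mk e, heT⟩ = v) := by
      intro N _ _ v hv
      rw [hθ1 N v hv]
      constructor
      · rintro ⟨f, hf⟩
        exact ⟨f ∘ₗ T.subtype, hf⟩
      · rintro ⟨f, hf⟩
        refine ⟨f ∘ₗ (t.codRestrict T hT2), ?_⟩
        rw [← hf]
        show f (t.codRestrict T hT2 (Submodule.Quotient.mk e)) = f ⟨Submodule.Quotient.mk e, heT⟩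
        congr 1
        apply Subtype.ext
        exact hT3 _ heT
    haveI : IsNoetherian A (F ⧸ Submodule.span A {p • e}) := isNoetherian_of_isNoetherianRing_of_finite _ _
    have hTfin : Module.Finite A T := inferInstance
    have hTfl : IsFiniteLength A T := by
      apply hfl
      intro x
      obtain ⟨r, hr0, hr⟩ := (hT1 x.1).1 x.2
      exact ⟨r, hr0, Subtype.ext hr⟩
    obtain ⟨k, U, π, hU, hπ⟩ := hdec T hTfl
    obtain ⟨e', he'⟩ : ∃ e' : T, e' = ⟨Submodule.Quotient.mk e, heT⟩ := ⟨_, rfl⟩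
    rw [← he'] at hθ2
    have hpe' : p • e' = 0 := by
      rw [he']
      exact Subtype.ext hpe
    have hpei : ∀ i, p • (π i e') = 0 := by
      intro i
      rw [← map_smul, hpe', map_zero]
    by_cases hall : ∀ i, π i e' = 0
    · left
      intro N _ _ v hv hvθ
      have h0 : e' = 0 := by
        rw [← hπ e']
        apply Finset.sum_eq_zero
        intro i _
        rw [hall i]
        rfl
      obtain ⟨f, hf⟩ := (hθ2 N v hv).1 hvθ
      rw [← hf, h0, map_zero]
    · right
      push Not at hall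
      have hUfl : ∀ i, IsFiniteLength A (U i) := fun i =>
        IsFiniteLength.of_injective hTfl (Submodule.subtype_injective (U i))
      have hn : ∀ i, ∃ n : ℕ, π i e' ≠ 0 → ∀ (N : Type u) [AddCommGroup N] [Module A N] (v : N),
          (∃ g : U i →ₗ[A] N, g (π i e') = v) ↔ ∃ g : En n →ₗ[A] N, g ⟨s, hsEn n⟩ = v := by
        intro i
        by_cases hi : π i e' = 0
        · exact ⟨0, fun h => absurd hi h⟩
        · obtain ⟨n, hn⟩ := h170_sol_uni hbaer p hp E s hs hps hdiv En hsEn huniq (U i) (hU i)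
            (hUfl i) (π i e') hi (hpei i)
          exact ⟨n, fun _ => hn⟩
      choose ν hν using hn
      -- the minimum
      obtain ⟨i0, hi0, hmin⟩ : ∃ i0, π i0 e' ≠ 0 ∧ ∀ i, π i e' ≠ 0 → ν i0 ≤ ν i := by
        obtain ⟨i1, hi1⟩ := hall
        have hne : (Finset.univ.filter (fun i => π i e' ≠ 0)).Nonempty :=
          ⟨i1, by simp [hi1]⟩
        obtain ⟨i0, hi0, hmin⟩ := Finset.exists_min_image _ ν hne
        refine ⟨i0, (Finset.mem_filter.1 hi0).2, ?_⟩
        intro i hi
        exact hmin i (Finset.mem_filter.2 ⟨Finset.mem_univ _, hi⟩)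
      refine ⟨ν i0, ?_⟩
      intro N _ _ v hv
      rw [hθ2 N v hv]
      constructor
      · rintro ⟨f, rfl⟩
        -- closed under sums
        have hadd : ∀ (S : Finset (Fin k)), f (∑ i ∈ S, ((π i e' : U i) : T)) ∈ (Φ (ν i0)).sol N := by
          intro S
          induction S using Finset.induction_on with
          | empty =>
            rw [hΦ]
            exact ⟨0, by simp⟩
          | insert i S hi ih =>
            rw [Finset.sum_insert hi, map_add]
            have h1 : f ((π i e' : U i) : T) ∈ (Φ (ν i0)).sol N := by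
              by_cases hi' : π i e' = 0
              · rw [hi', hΦ]
                exact ⟨0, by simp⟩
              · apply hanti N (ν i0) (ν i) (hmin i hi')
                rw [hΦ, ← hν i hi' N]
                exact ⟨f ∘ₗ (U i).subtype, rfl⟩
            rw [hΦ] at h1 ih ⊢
            obtain ⟨g1, hg1⟩ := h1
            obtain ⟨g2, hg2⟩ := ih
            exact ⟨g1 + g2, by rw [LinearMap.add_apply, hg1, hg2]⟩
        have h2 := hadd Finset.univ
        rwa [hπ e'] at h2
      · intro hv2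
        rw [hΦ, ← hν i0 hi0 N] at hv2
        obtain ⟨g, hg⟩ := hv2
        exact ⟨g ∘ₗ π i0, hg⟩
  · -- (3)
    intro N _ _ hN n v hv
    rw [hΦ]
    exact h170_ext hbaer p hp N hN (En n) ⟨s, hsEn n⟩ (hsne n) (hspn n) v hv
  · -- (4)
    intro N _ _ hN
    have h1 := Module.length_ne_top_iff.2 hN
    obtain ⟨n, hn⟩ := ENat.ne_top_iff_exists.1 h1
    refine ⟨n, ?_⟩
    intro v hv
    by_contra hv0
    rw [hΦ] at hv
    obtain ⟨f, hf⟩ := hv
    have hker : LinearMap.ker f = ⊥ := by
      by_contra hcon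
      have h2 : (LinearMap.ker f).map (En n).subtype ≠ ⊥ := by
        intro h3
        apply hcon
        rw [eq_bot_iff]
        intro y hy
        have h4 : (En n).subtype y ∈ (LinearMap.ker f).map (En n).subtype :=
          Submodule.mem_map_of_mem hy
        rw [h3, Submodule.mem_bot] at h4
        rw [Submodule.mem_bot]
        exact Subtype.ext h4
      have h3 := hess _ h2
      obtain ⟨y, hy, hys⟩ := h3
      have h4 : y = ⟨s, hsEn n⟩ := Subtype.ext hys
      rw [h4] at hy
      have h5 : f ⟨s, hsEn n⟩ = 0 := hy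
      rw [hf] at h5
      exact hv0 h5
    have hle := Module.length_le_of_injective f (LinearMap.ker_eq_bot.1 hker)
    rw [hElen n, ← hn] at hle
    have h6 : n + 1 ≤ n := by exact_mod_cast hle
    omega

end Cb
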