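import Pool.Agent.Helper462.Cb.Defs

namespace Cb

universe u

open Zg

section
variable {R : Type u} [Ring R]

theorem sol_map_aux {N N' : Type u} [AddCommGroup N] [Module R N] [AddCommGroup N'] [Module R N']
    (f : N →ₗ[R] N') (φ : PPFormula R) (v : N) (hv : v ∈ φ.sol N) : f v ∈ φ.sol N' := by
  obtain ⟨z, hz⟩ := hv
  refine ⟨fun i => f (z i), fun j => ?_⟩
  have h := congrArg f (hz j)
  simp only [map_sum, map_smul] at h
  exact h

theorem sol_iff_aux {N N' : Type u} [AddCommGroup N] [Module R N] [AddCommGroup N'] [Module R N']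
    (e : N ≃ₗ[R] N') (φ : PPFormula R) (v : N) : e v ∈ φ.sol N' ↔ v ∈ φ.sol N := by
  constructor
  · intro h
    have := sol_map_aux e.symm.toLinearMap φ _ h
    simpa using this
  · intro h
    exact sol_map_aux e.toLinearMap φ _ h

theorem sol_sub_aux {N N' : Type u} [AddCommGroup N] [Module R N] [AddCommGroup N'] [Module R N']
    (e : N ≃ₗ[R] N') (φ ψ : PPFormula R) (h : φ.sol N ⊆ ψ.sol N) : φ.sol N' ⊆ ψ.sol N' := by
  intro v hv
  have h1 : e (e.symm v) ∈ φ.sol N' := by simpa using hv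
  have h2 := h ((sol_iff_aux e φ _).1 h1)
  have h3 := (sol_iff_aux e ψ _).2 h2
  simpa using h3

theorem zg_exact_aux {N N' : IndecPureInjective R} (h : zgPoint N = zgPoint N') :
    Nonempty (N.carrier ≃ₗ[R] N'.carrier) := Quotient.exact h

theorem mem_basicSet_aux (N : IndecPureInjective R) (φ ψ : PPFormula R) :
    zgPoint N ∈ basicSet φ ψ ↔ φ.sol N.carrier ≠ ψ.sol N.carrier := by
  constructor
  · rintro ⟨N', hN', hne⟩ heq
    obtain ⟨e⟩ := zg_exact_aux hN'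
    apply hne
    exact Set.Subset.antisymm (sol_sub_aux e.symm φ ψ heq.le) (sol_sub_aux e.symm ψ φ heq.ge)
  · intro h
    exact ⟨N, rfl, h⟩

theorem isCompact_basicK
    (hred : ∀ (ι : Type u) (F : Filter ι) (N : ι → Type u) [∀ i, AddCommGroup (N i)]
      [∀ i, Module R (N i)], ∃ (M : Type u) (_ : AddCommGroup M) (_ : Module R M)
      (q : (∀ i, N i) →ₗ[R] M), Function.Surjective q ∧
        ∀ (θ : PPFormula R) (x : ∀ i, N i), q x ∈ θ.sol M ↔ ∀ᶠ i in F, x i ∈ θ.sol (N i))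
    (hex : ∀ (T : Set (PPFormula R × PPFormula R)) (Y : Type u) [AddCommGroup Y] [Module R Y]
      (φ ψ : PPFormula R), (∀ p ∈ T, p.1.sol Y ⊆ p.2.sol Y) → ¬ φ.sol Y ⊆ ψ.sol Y →
      ∃ N : IndecPureInjective R, (∀ p ∈ T, p.1.sol N.carrier ⊆ p.2.sol N.carrier) ∧
        ¬ φ.sol N.carrier ⊆ ψ.sol N.carrier)
    (T : Set (PPFormula R × PPFormula R)) (φ ψ : PPFormula R) :
    IsCompact (basicK T φ ψ) := by
  classical
  apply isCompact_generateFrom
    (S := {S | ∃ φ ψ : PPFormula R, ψ.Le φ ∧ S = basicSet φ ψ}) rfl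
  intro P hP hcov
  by_contra hno
  push Not at hno
  let I : Type u := {p : PPFormula R × PPFormula R // p.2.Le p.1 ∧ basicSet p.1 p.2 ∈ P}
  have hN : ∀ J : Finset I, ∃ N : IndecPureInjective R,
      (∀ p ∈ T, p.1.sol N.carrier ⊆ p.2.sol N.carrier) ∧
      ¬ φ.sol N.carrier ⊆ ψ.sol N.carrier ∧
      ∀ i ∈ J, i.1.1.sol N.carrier = i.1.2.sol N.carrier := by
    intro J
    have h1 := hno ((fun i : I => basicSet i.1.1 i.1.2) '' (J : Set I)) (by
      rintro _ ⟨i, _, rfl⟩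
      exact i.2.2) (J.finite_toSet.image _)
    rw [Set.not_subset] at h1
    obtain ⟨x, ⟨N, rfl, hNT, hNφ⟩, hx⟩ := h1
    refine ⟨N, hNT, hNφ, fun i hi => ?_⟩
    by_contra hne
    apply hx
    exact ⟨_, ⟨i, hi, rfl⟩, (mem_basicSet_aux N _ _).2 hne⟩
  choose NJ hT hφψ hJ using hN
  obtain ⟨M, _, _, q, hq, hcrit⟩ := hred (Finset I) Filter.atTop (fun J => (NJ J).carrier)
  have hv : ∀ J, ∃ v, v ∈ φ.sol (NJ J).carrier ∧ v ∉ ψ.sol (NJ J).carrier := by
    intro J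
    exact Set.not_subset.mp (hφψ J)
  choose v hv1 hv2 using hv
  have h1 : ¬ φ.sol M ⊆ ψ.sol M := by
    intro h
    have g1 : q v ∈ φ.sol M := (hcrit φ v).2 (Filter.Eventually.of_forall hv1)
    have g2 := (hcrit ψ v).1 (h g1)
    obtain ⟨J, hJ⟩ := g2.exists
    exact hv2 J hJ
  have h2 : ∀ p ∈ T ∪ {p | p.2.Le p.1 ∧ basicSet p.1 p.2 ∈ P}, p.1.sol M ⊆ p.2.sol M := by
    rintro p (hp | hp) y hy
    · obtain ⟨x, rfl⟩ := hq y
      rw [hcrit] at hy ⊢
      filter_upwards [hy] with J hJ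
      exact hT J p hp hJ
    · obtain ⟨x, rfl⟩ := hq y
      rw [hcrit] at hy ⊢
      filter_upwards [hy, Filter.eventually_ge_atTop ({(⟨p, hp⟩ : I)} : Finset I)] with J hJ1 hJ2
      have g := hJ J ⟨p, hp⟩ (hJ2 (Finset.mem_singleton_self _))
      have g' : p.1.sol (NJ J).carrier = p.2.sol (NJ J).carrier := g
      rw [← g']
      exact hJ1
  obtain ⟨N, hN1, hN2⟩ := hex _ M φ ψ h2 h1
  obtain ⟨B, hB, hNB⟩ := hcov (show zgPoint N ∈ basicK T φ ψ from
    ⟨N, rfl, fun p hp => hN1 p (Or.inl hp), hN2⟩)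
  obtain ⟨φ', ψ', hle, rfl⟩ := hP hB
  rw [mem_basicSet_aux] at hNB
  exact hNB (Set.Subset.antisymm (hN1 (φ', ψ') (Or.inr ⟨hle, hB⟩)) (hle N.carrier))
end

end Cb
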