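import Pool.Agent.Helper462.Cb.Defs

namespace Cb

universe u v


open Zg

section Aux

variable {R : Type u} [Ring R]

/-- the formula v = 0 -/
def zetaF (R : Type u) [Ring R] : PPFormula R :=
  { m := 0, l := 1, B := fun _ _ => 0, a := fun _ => 1 }

/-- conjunction -/
def conjF (θ θ' : PPFormula R) : PPFormula R :=
  { m := θ.m + θ'.m
    l := θ.l + θ'.l
    B := Fin.addCases (fun j => Fin.addCases (θ.B j) (fun _ => 0))
      (fun j => Fin.addCases (fun _ => 0) (θ'.B j))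
    a := Fin.addCases θ.a θ'.a }

theorem mem_zetaF {N : Type u} [AddCommGroup N] [Module R N] (v : N) :
    v ∈ (zetaF R).sol N ↔ v = 0 := by
  constructor
  · rintro ⟨z, hz⟩
    have h := hz (0 : Fin 1)
    have h' : (0 : N) = (1 : R) • v := by
      refine Eq.trans ?_ h
      exact (Finset.sum_eq_zero (fun i _ => by exact (Fin.elim0 i))).symm
    rw [one_smul] at h'
    exact h'.symm
  · rintro rfl
    refine ⟨fun _ => 0, fun j => ?_⟩
    simp

theorem mem_conjF {N : Type u} [AddCommGroup N] [Module R N] (θ θ' : PPFormula R) (v : N) :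
    v ∈ (conjF θ θ').sol N ↔ v ∈ θ.sol N ∧ v ∈ θ'.sol N := by
  constructor
  · rintro ⟨z, hz⟩
    refine ⟨⟨fun i => z (Fin.castAdd _ i), fun j => ?_⟩, ⟨fun i => z (Fin.natAdd _ i), fun j => ?_⟩⟩
    · have h := hz (Fin.castAdd _ j)
      have h1 : ∑ i : Fin (θ.m + θ'.m), (conjF θ θ').B (Fin.castAdd _ j) i • z i =
        (conjF θ θ').a (Fin.castAdd _ j) • v := h
      rw [Fin.sum_univ_add] at h1
      simpa [conjF] using h1
    · have h := hz (Fin.natAdd _ j)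
      have h1 : ∑ i : Fin (θ.m + θ'.m), (conjF θ θ').B (Fin.natAdd _ j) i • z i =
        (conjF θ θ').a (Fin.natAdd _ j) • v := h
      rw [Fin.sum_univ_add] at h1
      simpa [conjF] using h1
  · rintro ⟨⟨z, hz⟩, ⟨z', hz'⟩⟩
    refine ⟨(Fin.addCases z z' : Fin (θ.m + θ'.m) → N), fun j => ?_⟩
    change ∑ i : Fin (θ.m + θ'.m), (conjF θ θ').B j i • (Fin.addCases z z' : Fin (θ.m + θ'.m) → N) i
      = (conjF θ θ').a j • v
    rw [Fin.sum_univ_add]
    refine Fin.addCases (m := θ.l) (n := θ'.l) (fun j => ?_) (fun j => ?_) j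
    · have := hz j
      simpa [conjF] using this
    · have := hz' j
      simpa [conjF] using this

theorem solv_equiv {A B : Type u} [AddCommGroup A] [Module R A] [AddCommGroup B] [Module R B]
    (e : A ≃ₗ[R] B) (φ : PPFormula R) {v : A} (h : v ∈ φ.sol A) : e v ∈ φ.sol B := by
  obtain ⟨z, hz⟩ := h
  refine ⟨fun i => e (z i), fun j => ?_⟩
  have h1 := congrArg e (hz j)
  simpa [map_sum] using h1

theorem sub_equiv {A B : Type u} [AddCommGroup A] [Module R A] [AddCommGroup B] [Module R B]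
    (e : A ≃ₗ[R] B) (φ ψ : PPFormula R) (h : φ.sol A ⊆ ψ.sol A) : φ.sol B ⊆ ψ.sol B := by
  intro v hv
  have h1 := solv_equiv e.symm φ hv
  have h2 := solv_equiv e ψ (h h1)
  simpa using h2

end Aux

theorem crit_tree {R : Type u} [Ring R]
    (htop : ∀ (X : Type (u + 1)) [TopologicalSpace X] (K : Set X), IsCompact K →
      ∀ C : (ℕ → Bool) → ℕ → Set X, (∀ χ n, IsClosed (C χ n)) →
      (∀ χ χ' n, (∀ m < n, χ m = χ' m) → C χ n = C χ' n) →
      (∀ χ χ', χ ≠ χ' → ∀ x ∈ K, ¬ ((∀ n, x ∈ C χ n) ∧ ∀ n, x ∈ C χ' n)) →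
      (∀ χ, ∃ x ∈ K, ∀ n, x ∈ C χ n) → ∀ α : Ordinal.{v}, (cb X α).Nonempty)
    (hcpt : ∀ (T : Set (PPFormula R × PPFormula R)) (φ ψ : PPFormula R),
      IsCompact (basicK T φ ψ))
    (hex : ∀ (T : Set (PPFormula R × PPFormula R)) (Y : Type u) [AddCommGroup Y] [Module R Y]
      (φ ψ : PPFormula R), (∀ p ∈ T, p.1.sol Y ⊆ p.2.sol Y) → ¬ φ.sol Y ⊆ ψ.sol Y →
      ∃ N : IndecPureInjective R, (∀ p ∈ T, p.1.sol N.carrier ⊆ p.2.sol N.carrier) ∧
        ¬ φ.sol N.carrier ⊆ ψ.sol N.carrier)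
    (φ : PPFormula R) (θ : List Bool → PPFormula R) (M : (ℕ → Bool) → Type u)
    [∀ χ, AddCommGroup (M χ)] [∀ χ, Module R (M χ)]
    (h1 : ∀ χ, ∃ v ∈ φ.sol (M χ), v ≠ 0)
    (h2 : ∀ χ n, φ.sol (M χ) ⊆ (θ (List.ofFn fun i : Fin n => χ i)).sol (M χ))
    (h3 : ∀ χ σ σ', σ.length = σ'.length → σ ≠ σ' → ∀ v : M χ,
      v ∈ (θ σ).sol (M χ) → v ∈ (θ σ').sol (M χ) → v = 0) (α : Ordinal.{v}) :
    (cb (ZieglerSpectrum R) α).Nonempty := by
  classical
  let rs : (ℕ → Bool) → ℕ → List Bool := fun χ n => List.ofFn fun i : Fin n => χ i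
  have hrsl : ∀ χ n, (rs χ n).length = n := fun χ n => by simp [rs]
  let T : Set (PPFormula R × PPFormula R) :=
    {p | ∃ σ σ' : List Bool, σ.length = σ'.length ∧ σ ≠ σ' ∧ p = (conjF (θ σ) (θ σ'), zetaF R)}
  let K : Set (ZieglerSpectrum R) := basicK T φ (zetaF R)
  let C : (ℕ → Bool) → ℕ → Set (ZieglerSpectrum R) := fun χ n =>
    {x | x ∉ basicSet φ (conjF φ (θ (rs χ n)))}
  have hCmem : ∀ (N : IndecPureInjective R) χ n,
      zgPoint N ∈ C χ n ↔ φ.sol N.carrier ⊆ (θ (rs χ n)).sol N.carrier := by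
    intro N χ n
    constructor
    · intro h v hv
      by_contra hc
      apply h
      refine ⟨N, rfl, fun heq => hc ?_⟩
      rw [heq] at hv
      exact ((mem_conjF _ _ _).1 hv).2
    · rintro h ⟨N', hN', hne⟩
      obtain ⟨e⟩ : Nonempty (N'.carrier ≃ₗ[R] N.carrier) := Quotient.exact hN'
      have h' := sub_equiv e.symm _ _ h
      apply hne
      ext v
      rw [mem_conjF]
      exact ⟨fun hv => ⟨hv, h' hv⟩, fun hv => hv.1⟩
  refine htop (ZieglerSpectrum R) K (hcpt T φ (zetaF R)) C ?_ ?_ ?_ ?_ α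
  · intro χ n
    have : C χ n = (basicSet φ (conjF φ (θ (rs χ n))))ᶜ := rfl
    rw [this, isClosed_compl_iff]
    apply TopologicalSpace.isOpen_generateFrom_of_mem
    refine ⟨φ, conjF φ (θ (rs χ n)), ?_, rfl⟩
    intro Q _ _ v hv
    exact ((mem_conjF _ _ _).1 hv).1
  · intro χ χ' n h
    have : rs χ n = rs χ' n := by
      simp only [rs]
      congr 1
      funext i
      exact h i i.2
    simp only [C, this]
  · rintro χ χ' hne x ⟨N, rfl, hT, hN⟩ ⟨h, h'⟩
    obtain ⟨m, hm⟩ := Function.ne_iff.1 hne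
    have ha := (hCmem N χ (m + 1)).1 (h (m + 1))
    have hb := (hCmem N χ' (m + 1)).1 (h' (m + 1))
    apply hN
    intro v hv
    have hd : rs χ (m + 1) ≠ rs χ' (m + 1) := by
      intro hc
      apply hm
      have := List.ofFn_injective hc
      exact congrFun this ⟨m, Nat.lt_succ_self m⟩
    have := hT (conjF (θ (rs χ (m + 1))) (θ (rs χ' (m + 1))), zetaF R)
      ⟨_, _, by rw [hrsl, hrsl], hd, rfl⟩
    exact this ((mem_conjF _ _ _).2 ⟨ha hv, hb hv⟩)
  · intro χ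
    obtain ⟨N, hN, hN'⟩ := hex (T ∪ {p | ∃ n, p = (φ, θ (rs χ n))}) (M χ) φ (zetaF R)
      (by
        rintro p (⟨σ, σ', hl, hne, rfl⟩ | ⟨n, rfl⟩)
        · intro v hv
          have := (mem_conjF _ _ _).1 hv
          exact (mem_zetaF v).2 (h3 χ σ σ' hl hne v this.1 this.2)
        · exact h2 χ n)
      (by
        intro hc
        obtain ⟨v, hv, hv0⟩ := h1 χ
        exact hv0 ((mem_zetaF v).1 (hc hv)))
    refine ⟨zgPoint N, ⟨N, rfl, fun p hp => hN p (Or.inl hp), hN'⟩, fun n => ?_⟩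
    rw [hCmem]
    exact hN (φ, θ (rs χ n)) (Or.inr ⟨n, rfl⟩)

end Cb
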