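import Pool.Agent.Helper462.Cb.Defs

namespace Cb

universe u

open Zg

section
variable {R : Type u} [Ring R]


/-- pp formula attached to a finite system of linear equations with finitely supported
coefficients -/
theorem exists_pp {L : Type*} [Finite L] {I : Type*} (a : L → (I →₀ R)) (b : L → R) :
    ∃ θ : PPFormula R, ∀ (Q : Type u) [AddCommGroup Q] [Module R Q] (v : Q),
      v ∈ θ.sol Q ↔ ∃ z : I → Q, ∀ j, (a j).sum (fun i r => r • z i) = b j • v := by
  classical
  have := Fintype.ofFinite L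
  let T : Finset I := Finset.univ.biUnion fun j => (a j).support
  let eL := Fintype.equivFin L
  let eT := Fintype.equivFin T
  refine ⟨⟨Fintype.card T, Fintype.card L, fun j i => a (eL.symm j) (eT.symm i),
    fun j => b (eL.symm j)⟩, ?_⟩
  intro Q _ _ v
  have key : ∀ (z : I → Q) (j : L),
      (a j).sum (fun i r => r • z i) = ∑ i : Fin (Fintype.card T), a j (eT.symm i) • z (eT.symm i) := by
    intro z j
    rw [Finsupp.sum_of_support_subset (s := T)]
    · rw [← Finset.sum_coe_sort T (fun i => a j i • z i)]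
      exact (Equiv.sum_comp eT.symm (fun i : T => a j i • z i)).symm
    · exact Finset.subset_biUnion_of_mem (fun j => (a j).support) (Finset.mem_univ j)
    · intro i _
      simp
  constructor
  · rintro ⟨z, hz⟩
    refine ⟨fun i => if h : i ∈ T then z (eT ⟨i, h⟩) else 0, fun j => ?_⟩
    rw [key]
    have := hz (eL j)
    simp only [Equiv.symm_apply_apply] at this
    rw [← this]
    refine Finset.sum_congr rfl fun i _ => ?_
    have h2 : (eT.symm i : I) ∈ T := (eT.symm i).2
    simp only [h2, dite_true]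
    simp
  · rintro ⟨z, hz⟩
    refine ⟨fun i => z (eT.symm i), fun j => ?_⟩
    have := hz (eL.symm j)
    rw [key] at this
    exact this

theorem sol_zero {N : Type u} [AddCommGroup N] [Module R N] (θ : PPFormula R) :
    (0 : N) ∈ θ.sol N := ⟨fun _ => 0, fun j => by simp⟩

theorem sol_sub {N : Type u} [AddCommGroup N] [Module R N] (θ : PPFormula R) {v w : N}
    (hv : v ∈ θ.sol N) (hw : w ∈ θ.sol N) : v - w ∈ θ.sol N := by
  obtain ⟨z, hz⟩ := hv
  obtain ⟨y, hy⟩ := hw
  refine ⟨fun i => z i - y i, fun j => ?_⟩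
  simp only [smul_sub, Finset.sum_sub_distrib]
  rw [hz j, hy j]

theorem sol_neg {N : Type u} [AddCommGroup N] [Module R N] (θ : PPFormula R) {v : N}
    (hv : v ∈ θ.sol N) : -v ∈ θ.sol N := by
  simpa using sol_sub θ (sol_zero θ) hv

theorem sol_add {N : Type u} [AddCommGroup N] [Module R N] (θ : PPFormula R) {v w : N}
    (hv : v ∈ θ.sol N) (hw : w ∈ θ.sol N) : v + w ∈ θ.sol N := by
  simpa using sol_sub θ hv (sol_neg θ hw)

theorem solvable_map {N N' : Type u} [AddCommGroup N] [Module R N] [AddCommGroup N']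
    [Module R N'] (f : N →ₗ[R] N') {m l : ℕ} (B : Fin l → Fin m → R) {c : Fin l → N}
    (h : Solvable B c) : Solvable B (fun j => f (c j)) := by
  obtain ⟨z, hz⟩ := h
  refine ⟨fun i => f (z i), fun j => ?_⟩
  change ∑ i, B j i • f (z i) = f (c j)
  rw [← hz j, map_sum]
  simp

theorem sol_map {N N' : Type u} [AddCommGroup N] [Module R N] [AddCommGroup N'] [Module R N']
    (f : N →ₗ[R] N') (θ : PPFormula R) {v : N} (hv : v ∈ θ.sol N) : f v ∈ θ.sol N' := by
  have := solvable_map f θ.B hv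
  simpa [PPFormula.sol] using this

/-- homomorphisms into a pure-injective module, prescribed up to `ψ` -/
theorem exists_hom_of_types
    (hcomp : ∀ (P : Type u) [AddCommGroup P] [Module R P], IsPureInjective R P →
      ∀ (I J : Type u) (a : J → (I →₀ R)) (c : J → P),
      (∀ s : Finset J, ∃ z : I → P, ∀ j ∈ s, (a j).sum (fun i r => r • z i) = c j) →
      ∃ z : I → P, ∀ j, (a j).sum (fun i r => r • z i) = c j)
    {N N' : Type u} [AddCommGroup N] [Module R N] [AddCommGroup N'] [Module R N']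
    (hN' : IsPureInjective R N') (ψ : PPFormula R) (x : N) (x' : N')
    (h : ∀ θ : PPFormula R, x ∈ θ.sol N → ∃ y ∈ ψ.sol N', x' - y ∈ θ.sol N') :
    ∃ f : N →ₗ[R] N', ∃ y ∈ ψ.sol N', f x = x' - y := by
  classical
  -- the linear relations of `N`
  let a' : (N × N) ⊕ (R × N) → (N →₀ R) := Sum.elim
    (fun p => Finsupp.single (p.1 + p.2) 1 - Finsupp.single p.1 1 - Finsupp.single p.2 1)
    (fun p => Finsupp.single (p.1 • p.2) 1 - Finsupp.single p.2 p.1)
  let emb : N → N ⊕ Option (Fin ψ.m) := Sum.inl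
  let a : ((N × N) ⊕ (R × N)) ⊕ Option (Fin ψ.l) → (N ⊕ Option (Fin ψ.m) →₀ R) := Sum.elim
    (fun j => (a' j).mapDomain emb)
    (fun o => o.elim (Finsupp.single (Sum.inl x) 1 + Finsupp.single (Sum.inr none) 1)
      (fun j => (∑ i, Finsupp.single (Sum.inr (some i)) (ψ.B j i))
        - Finsupp.single (Sum.inr none) (ψ.a j)))
  let c : ((N × N) ⊕ (R × N)) ⊕ Option (Fin ψ.l) → N' := Sum.elim (fun _ => 0)
    (fun o => o.elim x' (fun _ => 0))
  have hl : ∀ (j : (N × N) ⊕ (R × N)) (z : N ⊕ Option (Fin ψ.m) → N'),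
      (a (Sum.inl j)).sum (fun i r => r • z i) = (a' j).sum (fun i r => r • z (Sum.inl i)) := by
    intro j z
    change ((a' j).mapDomain emb).sum (fun i r => r • z i) = _
    rw [Finsupp.sum_mapDomain_index (by simp) (by intros; exact add_smul _ _ _)]
  have hr0 : ∀ (z : N ⊕ Option (Fin ψ.m) → N'),
      (a (Sum.inr none)).sum (fun i r => r • z i) = z (Sum.inl x) + z (Sum.inr none) := by
    intro z
    change Finsupp.linearCombination R z
      (Finsupp.single (Sum.inl x) 1 + Finsupp.single (Sum.inr none) 1) = _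
    simp [map_add, Finsupp.linearCombination_single]
  have hr1 : ∀ (j : Fin ψ.l) (z : N ⊕ Option (Fin ψ.m) → N'),
      (a (Sum.inr (some j))).sum (fun i r => r • z i)
        = (∑ i, ψ.B j i • z (Sum.inr (some i))) - ψ.a j • z (Sum.inr none) := by
    intro j z
    change Finsupp.linearCombination R z
      ((∑ i, Finsupp.single (Sum.inr (some i)) (ψ.B j i))
        - Finsupp.single (Sum.inr none) (ψ.a j)) = _
    simp [map_sub, map_sum, Finsupp.linearCombination_single]
  have h1 : ∀ {M : Type u} [AddCommGroup M] [Module R M] (p q : N) (z : N → M),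
      (a' (Sum.inl (p, q))).sum (fun i r => r • z i) = z (p + q) - z p - z q := by
    intro M _ _ p q z
    change Finsupp.linearCombination R z
      (Finsupp.single (p + q) 1 - Finsupp.single p 1 - Finsupp.single q 1) = _
    simp [map_sub, Finsupp.linearCombination_single]
  have h2 : ∀ {M : Type u} [AddCommGroup M] [Module R M] (r : R) (q : N) (z : N → M),
      (a' (Sum.inr (r, q))).sum (fun i r => r • z i) = z (r • q) - r • z q := by
    intro M _ _ r q z
    change Finsupp.linearCombination R z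
      (Finsupp.single (r • q) 1 - Finsupp.single q r) = _
    simp [map_sub, Finsupp.linearCombination_single]
  obtain ⟨z, hz⟩ := hcomp N' hN' _ _ a c (by
    intro s
    let s' := s.toLeft
    obtain ⟨θ, hθ⟩ := exists_pp (R := R) (L := Option s') (I := N)
      (fun o => o.elim (Finsupp.single x 1) (fun j => a' j)) (fun o => o.elim 1 (fun _ => 0))
    have hx : x ∈ θ.sol N := by
      rw [hθ]
      refine ⟨id, ?_⟩
      rintro (_ | ⟨j, hj⟩)
      · simp
      · rcases j with ⟨p, q⟩ | ⟨r, q⟩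
        · simpa using h1 (M := N) p q id
        · simpa using h2 (M := N) r q id
    obtain ⟨y, ⟨w, hw⟩, hy⟩ := h θ hx
    rw [hθ] at hy
    obtain ⟨z, hz⟩ := hy
    refine ⟨Sum.elim z (fun o => o.elim y w), ?_⟩
    rintro (j | (_ | j)) hj
    · rw [hl]
      have := hz (some ⟨j, Finset.mem_toLeft.2 hj⟩)
      simpa [c] using this
    · rw [hr0]
      have := hz none
      simp at this
      simp [this, c]
    · rw [hr1]
      have := hw j
      simp [this, c])
  have hz1 : ∀ p q, z (Sum.inl (p + q)) = z (Sum.inl p) + z (Sum.inl q) := by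
    intro p q
    have := hz (Sum.inl (Sum.inl (p, q)))
    rw [hl, h1 p q (fun n => z (Sum.inl n))] at this
    have h0 : c (Sum.inl (Sum.inl (p, q))) = 0 := rfl
    rw [h0, sub_sub, sub_eq_zero] at this
    exact this
  have hz2 : ∀ (r : R) q, z (Sum.inl (r • q)) = r • z (Sum.inl q) := by
    intro r q
    have := hz (Sum.inl (Sum.inr (r, q)))
    rw [hl, h2 r q (fun n => z (Sum.inl n))] at this
    have h0 : c (Sum.inl (Sum.inr (r, q))) = 0 := rfl
    rw [h0, sub_eq_zero] at this
    exact this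
  refine ⟨⟨⟨fun n => z (Sum.inl n), hz1⟩, hz2⟩, z (Sum.inr none),
    ⟨fun i => z (Sum.inr (some i)), fun j => ?_⟩, ?_⟩
  · have := hz (Sum.inr (some j))
    rw [hr1] at this
    have h0 : c (Sum.inr (some j)) = 0 := rfl
    rw [h0, sub_eq_zero] at this
    exact this
  · have := hz (Sum.inr none)
    rw [hr0] at this
    have h0 : c (Sum.inr none) = x' := rfl
    rw [h0] at this
    exact eq_sub_of_add_eq this

/-- an element of the coset `x + ψ(N)` with maximal pp type -/
theorem exists_maximal_type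
    (hcomp : ∀ (P : Type u) [AddCommGroup P] [Module R P], IsPureInjective R P →
      ∀ (I J : Type u) (a : J → (I →₀ R)) (c : J → P),
      (∀ s : Finset J, ∃ z : I → P, ∀ j ∈ s, (a j).sum (fun i r => r • z i) = c j) →
      ∃ z : I → P, ∀ j, (a j).sum (fun i r => r • z i) = c j)
    {N : Type u} [AddCommGroup N] [Module R N]
    (hN : IsPureInjective R N) (ψ : PPFormula R) (x : N) :
    ∃ x₀ : N, x - x₀ ∈ ψ.sol N ∧ ∀ x₁ : N, x₀ - x₁ ∈ ψ.sol N →
      (∀ θ : PPFormula R, x₀ ∈ θ.sol N → x₁ ∈ θ.sol N) →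
      ∀ θ : PPFormula R, x₁ ∈ θ.sol N → x₀ ∈ θ.sol N := by
  classical
  obtain ⟨m, hm⟩ := exists_maximal_of_chains_bounded
    (α := {z : N // x - z ∈ ψ.sol N})
    (r := fun z z' => ∀ θ : PPFormula R, z.1 ∈ θ.sol N → z'.1 ∈ θ.sol N) (by
      intro C hC
      by_cases hne : C.Nonempty
      swap
      · refine ⟨⟨x, by simpa using sol_zero ψ⟩, fun a ha => absurd ⟨a, ha⟩ hne⟩
      let Θ := {θ : PPFormula R // ∃ a ∈ C, a.1 ∈ θ.sol N}
      have hfin : ∀ t : Finset Θ, ∃ a ∈ C, ∀ θ ∈ t, a.1 ∈ θ.1.sol N := by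
        intro t
        induction t using Finset.induction_on with
        | empty => obtain ⟨a, ha⟩ := hne; exact ⟨a, ha, by simp⟩
        | insert θ t _ ih =>
          obtain ⟨a, ha, hat⟩ := ih
          obtain ⟨b, hb, hbθ⟩ := θ.2
          by_cases hab : a = b
          · subst hab
            refine ⟨a, ha, ?_⟩
            intro θ' hθ'
            rcases Finset.mem_insert.1 hθ' with rfl | h
            · exact hbθ
            · exact hat _ h
          · rcases hC ha hb hab with h | h
            · refine ⟨b, hb, ?_⟩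
              intro θ' hθ'
              rcases Finset.mem_insert.1 hθ' with rfl | h'
              · exact hbθ
              · exact h _ (hat _ h')
            · refine ⟨a, ha, ?_⟩
              intro θ' hθ'
              rcases Finset.mem_insert.1 hθ' with rfl | h'
              · exact h _ hbθ
              · exact hat _ h'
      let a : Fin ψ.l ⊕ (Σ θ : Θ, Fin θ.1.l) → (Option (Fin ψ.m) ⊕ (Σ θ : Θ, Fin θ.1.m) →₀ R) :=
        Sum.elim
          (fun j => (∑ i, Finsupp.single (Sum.inl (some i)) (ψ.B j i))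
            + Finsupp.single (Sum.inl none) (ψ.a j))
          (fun p => (∑ i, Finsupp.single (Sum.inr ⟨p.1, i⟩) (p.1.1.B p.2 i))
            - Finsupp.single (Sum.inl none) (p.1.1.a p.2))
      let c : Fin ψ.l ⊕ (Σ θ : Θ, Fin θ.1.l) → N := Sum.elim (fun j => ψ.a j • x) (fun _ => 0)
      have ha1 : ∀ (j : Fin ψ.l) (z : Option (Fin ψ.m) ⊕ (Σ θ : Θ, Fin θ.1.m) → N),
          (a (Sum.inl j)).sum (fun i r => r • z i)
            = (∑ i, ψ.B j i • z (Sum.inl (some i))) + ψ.a j • z (Sum.inl none) := by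
        intro j z
        change Finsupp.linearCombination R z
          ((∑ i, Finsupp.single (Sum.inl (some i)) (ψ.B j i))
            + Finsupp.single (Sum.inl none) (ψ.a j)) = _
        simp [map_add, map_sum, Finsupp.linearCombination_single]
      have ha2 : ∀ (p : Σ θ : Θ, Fin θ.1.l) (z : Option (Fin ψ.m) ⊕ (Σ θ : Θ, Fin θ.1.m) → N),
          (a (Sum.inr p)).sum (fun i r => r • z i)
            = (∑ i, p.1.1.B p.2 i • z (Sum.inr ⟨p.1, i⟩)) - p.1.1.a p.2 • z (Sum.inl none) := by
        intro p z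
        change Finsupp.linearCombination R z
          ((∑ i, Finsupp.single (Sum.inr ⟨p.1, i⟩) (p.1.1.B p.2 i))
            - Finsupp.single (Sum.inl none) (p.1.1.a p.2)) = _
        simp [map_sub, map_sum, Finsupp.linearCombination_single]
      obtain ⟨z, hz⟩ := hcomp N hN _ _ a c (by
        intro s
        obtain ⟨b, hb, hbt⟩ := hfin (s.toRight.image Sigma.fst)
        obtain ⟨w, hw⟩ := b.2
        refine ⟨Sum.elim (fun o => o.elim b.1 w)
          (fun p => if h : b.1 ∈ p.1.1.sol N then Classical.choose h p.2 else 0), ?_⟩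
        rintro (j | p) hj
        · rw [ha1]
          have h1 := hw j
          simp only [Sum.elim_inl, Option.elim_some, Option.elim_none]
          rw [h1]
          simp [c, smul_sub]
        · rw [ha2]
          have h1 : b.1 ∈ p.1.1.sol N := hbt p.1
            (Finset.mem_image.2 ⟨p, Finset.mem_toRight.2 hj, rfl⟩)
          have h2 := Classical.choose_spec h1 p.2
          simp only [Sum.elim_inr, Sum.elim_inl, Option.elim_none, h1, dite_true]
          rw [h2]
          simp [c])
      refine ⟨⟨z (Sum.inl none), ⟨fun i => z (Sum.inl (some i)), fun j => ?_⟩⟩, ?_⟩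
      · have := hz (Sum.inl j)
        rw [ha1] at this
        have h0 : c (Sum.inl j) = ψ.a j • x := rfl
        rw [h0] at this
        change ∑ i, ψ.B j i • z (Sum.inl (some i)) = ψ.a j • (x - z (Sum.inl none))
        rw [smul_sub]
        exact eq_sub_of_add_eq this
      · intro b hb θ hθ
        refine ⟨fun i => z (Sum.inr ⟨⟨θ, b, hb, hθ⟩, i⟩), fun j => ?_⟩
        have := hz (Sum.inr ⟨⟨θ, b, hb, hθ⟩, j⟩)
        rw [ha2] at this
        have h0 : c (Sum.inr ⟨⟨θ, b, hb, hθ⟩, j⟩) = 0 := rfl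
        rw [h0, sub_eq_zero] at this
        exact this)
    (by intro a b c hab hbc θ h; exact hbc θ (hab θ h))
  refine ⟨m.1, m.2, ?_⟩
  intro x₁ hx₁ h01
  have hx : x - x₁ ∈ ψ.sol N := by
    have := sol_add ψ m.2 hx₁
    simpa using this
  exact hm ⟨x₁, hx⟩ h01

/-- a pure embedding of a pure-injective into an indecomposable module is an isomorphism -/
theorem equiv_of_pure
    {N N' : Type u} [AddCommGroup N] [Module R N] [AddCommGroup N'] [Module R N']
    (hN : IsPureInjective R N) (hNi : IsIndecomposable R N)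
    (hNi' : IsIndecomposable R N') (f : N →ₗ[R] N') (hf : IsPureEmbedding f) :
    Nonempty (N ≃ₗ[R] N') := by
  obtain ⟨r, hr⟩ := hN N N' f hf LinearMap.id
  have hr' : ∀ n, r (f n) = n := fun n => LinearMap.congr_fun hr n
  have hc : IsCompl (LinearMap.range f) (LinearMap.ker r) := by
    constructor
    · rw [Submodule.disjoint_def]
      rintro _ ⟨n, rfl⟩ h
      rw [LinearMap.mem_ker, hr'] at h
      rw [h, map_zero]
    · rw [codisjoint_iff, eq_top_iff]
      intro v _
      rw [Submodule.mem_sup]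
      refine ⟨f (r v), ⟨r v, rfl⟩, v - f (r v), ?_, by abel⟩
      rw [LinearMap.mem_ker, map_sub, hr', sub_self]
  rcases hNi'.2 _ _ hc with h | h
  · exfalso
    have := hNi.1
    obtain ⟨n, hn⟩ := exists_ne (0 : N)
    apply hn
    have h1 : f n ∈ LinearMap.range f := ⟨n, rfl⟩
    rw [h, Submodule.mem_bot] at h1
    exact hf.1 (by rw [h1, map_zero])
  · refine ⟨(LinearEquiv.ofBijective r ⟨LinearMap.ker_eq_bot.1 h, fun n => ⟨f n, hr' n⟩⟩).symm⟩

theorem uniq_pair
    (hcomp : ∀ (P : Type u) [AddCommGroup P] [Module R P], IsPureInjective R P →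
      ∀ (I J : Type u) (a : J → (I →₀ R)) (c : J → P),
      (∀ s : Finset J, ∃ z : I → P, ∀ j ∈ s, (a j).sum (fun i r => r • z i) = c j) →
      ∃ z : I → P, ∀ j, (a j).sum (fun i r => r • z i) = c j)
    (hstar : ∀ (N Q : Type u) [AddCommGroup N] [Module R N] [AddCommGroup Q] [Module R Q],
      IsPureInjective R N → IsIndecomposable R N → ∀ x : N, x ≠ 0 → ∀ h : N →ₗ[R] Q,
      (∀ θ : PPFormula R, h x ∈ θ.sol Q → x ∈ θ.sol N) → IsPureEmbedding h)
    {N N' : Type u} [AddCommGroup N] [Module R N] [AddCommGroup N'] [Module R N']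
    (hN : IsPureInjective R N) (hNi : IsIndecomposable R N)
    (hN' : IsPureInjective R N') (hNi' : IsIndecomposable R N')
    (φ ψ : PPFormula R) (hle : ψ.sol N ⊆ φ.sol N) (hle' : ψ.sol N' ⊆ φ.sol N')
    (ho : ¬ φ.sol N ⊆ ψ.sol N) (ho' : ¬ φ.sol N' ⊆ ψ.sol N')
    (hd : ∀ θ : PPFormula R,
      ((∀ v ∈ φ.sol N, v ∈ θ.sol N → v ∈ ψ.sol N) ∧
        (∀ v ∈ φ.sol N', v ∈ θ.sol N' → v ∈ ψ.sol N')) ∨
      ((∀ v ∈ φ.sol N, ∃ w ∈ θ.sol N, v - w ∈ ψ.sol N) ∧
        (∀ v ∈ φ.sol N', ∃ w ∈ θ.sol N', v - w ∈ ψ.sol N'))) :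
    Nonempty (N ≃ₗ[R] N') := by
  obtain ⟨x, hxφ, hxψ⟩ := Set.not_subset.1 ho
  obtain ⟨x', hxφ', hxψ'⟩ := Set.not_subset.1 ho'
  obtain ⟨x₀, hx₀, hmax⟩ := exists_maximal_type hcomp hN ψ x
  have hx₀φ : x₀ ∈ φ.sol N := by
    have := sol_sub φ hxφ (hle hx₀)
    simpa using this
  have hx₀ψ : x₀ ∉ ψ.sol N := by
    intro h
    have := sol_add ψ hx₀ h
    exact hxψ (by simpa using this)
  have hx₀0 : x₀ ≠ 0 := by
    rintro rfl
    exact hx₀ψ (sol_zero ψ)
  obtain ⟨f, y', hy', hf⟩ := exists_hom_of_types hcomp hN' ψ x₀ x' (by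
    intro θ hθ
    rcases hd θ with h | h
    · exact absurd (h.1 x₀ hx₀φ hθ) hx₀ψ
    · obtain ⟨w, hw, hw2⟩ := h.2 x' hxφ'
      exact ⟨x' - w, hw2, by simpa using hw⟩)
  have hfφ : f x₀ ∈ φ.sol N' := by
    rw [hf]
    exact sol_sub φ hxφ' (hle' hy')
  have hfψ : f x₀ ∉ ψ.sol N' := by
    intro h
    rw [hf] at h
    have := sol_add ψ h hy'
    exact hxψ' (by simpa using this)
  obtain ⟨g, y, hy, hg⟩ := exists_hom_of_types hcomp hN ψ (f x₀) x₀ (by
    intro θ hθ
    rcases hd θ with h | h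
    · exact absurd (h.2 _ hfφ hθ) hfψ
    · obtain ⟨w, hw, hw2⟩ := h.1 x₀ hx₀φ
      exact ⟨x₀ - w, hw2, by simpa using hw⟩)
  have hpure : IsPureEmbedding (g ∘ₗ f) := by
    apply hstar N N hN hNi x₀ hx₀0
    apply hmax
    · rw [LinearMap.comp_apply, hg]
      simpa using hy
    · intro θ hθ
      exact sol_map _ θ hθ
  have hfp : IsPureEmbedding f := by
    refine ⟨fun p q hpq => hpure.1 (by simp [hpq]), ?_⟩
    intro m l r c hc
    exact hpure.2 m l r c (solvable_map g r hc)
  exact equiv_of_pure hN hNi hNi' f hfp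

theorem uniq_type
    (hcomp : ∀ (P : Type u) [AddCommGroup P] [Module R P], IsPureInjective R P →
      ∀ (I J : Type u) (a : J → (I →₀ R)) (c : J → P),
      (∀ s : Finset J, ∃ z : I → P, ∀ j ∈ s, (a j).sum (fun i r => r • z i) = c j) →
      ∃ z : I → P, ∀ j, (a j).sum (fun i r => r • z i) = c j)
    (hstar : ∀ (N Q : Type u) [AddCommGroup N] [Module R N] [AddCommGroup Q] [Module R Q],
      IsPureInjective R N → IsIndecomposable R N → ∀ x : N, x ≠ 0 → ∀ h : N →ₗ[R] Q,
      (∀ θ : PPFormula R, h x ∈ θ.sol Q → x ∈ θ.sol N) → IsPureEmbedding h)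
    {N N' : Type u} [AddCommGroup N] [Module R N] [AddCommGroup N'] [Module R N']
    (hN : IsPureInjective R N) (hNi : IsIndecomposable R N)
    (hN' : IsPureInjective R N') (hNi' : IsIndecomposable R N')
    (x : N) (hx : x ≠ 0) (x' : N') (ht : ∀ θ : PPFormula R, x ∈ θ.sol N ↔ x' ∈ θ.sol N') :
    Nonempty (N ≃ₗ[R] N') := by
  obtain ⟨f, y, hy, hf⟩ := exists_hom_of_types hcomp hN'
    (⟨0, 1, fun _ _ => 0, fun _ => 1⟩ : PPFormula R) x x' (by
    intro θ hθ
    exact ⟨0, sol_zero _, by simpa using (ht θ).1 hθ⟩)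
  have hy0 : y = 0 := by
    obtain ⟨z, hz⟩ := hy
    have := hz 0
    simpa using this.symm
  rw [hy0, sub_zero] at hf
  refine equiv_of_pure hN hNi hNi' f (hstar N N' hN hNi x hx f ?_)
  intro θ hθ
  rw [hf] at hθ
  exact (ht θ).2 hθ
end

end Cb

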