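import Pool.Agent.Helper462.Cb.Chev
import Pool.Agent.Helper462.Cb.ExistClosed
import Pool.Agent.Helper462.Cb.TA
import Pool.Agent.Helper462.Cb.TT
import Pool.Agent.Helper462.Cb.ZC
import Pool.Agent.Helper462.Cb.ZU
import Pool.Agent.Helper462.Cb.ZK
import Pool.Agent.Helper462.Cb.M1
import Pool.Agent.Helper462.Cb.M2
import Pool.Agent.Helper462.Cb.M3
import Pool.Agent.Helper462.Cb.M4
import Pool.Agent.Helper462.Cb.E1
import Pool.Agent.Helper462.Cb.E3
import Pool.Agent.Helper462.Cb.E6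
import Pool.Agent.Helper462.Cb.PF
import Pool.Agent.Helper462.Cb.U1
import Pool.Agent.Helper462.Cb.U2
import Pool.Agent.Helper462.Cb.U3
import Pool.Agent.Helper462.Cb.U4
import Pool.Agent.Helper462.Cb.U5
import Pool.Agent.Helper462.Cb.F1
import Pool.Agent.Helper462.Cb.H1
import Pool.Agent.Helper462.Cb.H2
import Pool.Agent.Helper462.Cb.R1
import Pool.Agent.Helper462.Cb.R2
import Pool.Agent.Helper462.Cb.DM
import Pool.Agent.Helper462.Cb.D1
import Pool.Agent.Helper462.Cb.D2
import Pool.Agent.Helper462.Cb.D3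
import Pool.Agent.Helper462.Cb.D4
import Pool.Agent.Helper462.Zg.Final

/-!
# The three cases
-/

namespace Cb

open Zg

universe u v

/-- trichotomy for differential fields of characteristic zero -/
theorem trichotomy {k : Type u} [Field k] [CharZero k] (δ : Derivation ℤ k k) :
    HA δ ∨ (∃ a b, HB δ a b) ∨ HG δ := by
  by_cases hG : HG δ
  · exact Or.inr (Or.inr hG)
  rcases tri_simple δ hG with h | ⟨a, b, hab, h⟩
  · left
    intro Q _ _ _ D hD hQ ω
    obtain ⟨Ψ, g, -, hg⟩ := ind_ss δ 0 0 (fun Q _ _ _ D hD hs ω => by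
      obtain ⟨g, hg⟩ := h Q D hD hs ω
      exact ⟨0, g, by rw [zero_smul]; exact (by simpa using hD.smul 0 0), by simpa using hg⟩)
      Q D hD hQ ω
    exact ⟨g, by simpa using hg⟩
  · exact Or.inr (Or.inl ⟨a, b, hab, fun Q _ _ _ D hD hQ ω => ind_ss δ a b h Q D hD hQ ω⟩)

section Gen

variable {A : Type u} [Ring A]

theorem uniq_pair_zg (C : Type u) [Field C] [Algebra C A] (N N' : IndecPureInjective A)
    (φ ψ : PPFormula A)
    (h1 : ψ.sol N.carrier ⊆ φ.sol N.carrier) (h2 : ψ.sol N'.carrier ⊆ φ.sol N'.carrier)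
    (h3 : ¬ φ.sol N.carrier ⊆ ψ.sol N.carrier) (h4 : ¬ φ.sol N'.carrier ⊆ ψ.sol N'.carrier)
    (h5 : ∀ θ : PPFormula A,
        ((∀ v ∈ φ.sol N.carrier, v ∈ θ.sol N.carrier → v ∈ ψ.sol N.carrier) ∧
          (∀ v ∈ φ.sol N'.carrier, v ∈ θ.sol N'.carrier → v ∈ ψ.sol N'.carrier)) ∨
        ((∀ v ∈ φ.sol N.carrier, ∃ w ∈ θ.sol N.carrier, v - w ∈ ψ.sol N.carrier) ∧
          (∀ v ∈ φ.sol N'.carrier, ∃ w ∈ θ.sol N'.carrier, v - w ∈ ψ.sol N'.carrier))) :
    zgPoint N = zgPoint N' :=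
  (zgPoint_eq_iff N N').2 (uniq_pair (fun P _ _ hP I J a c h => compact_of_pureInjective C P hP I J a c h)
    (fun N Q _ _ _ _ hN hNi x hx h hh => star hN hNi x hx h hh)
    N.pureInjective N.indecomposable N'.pureInjective N'.indecomposable φ ψ h1 h2 h3 h4 h5)

theorem uniq_type_zg (C : Type u) [Field C] [Algebra C A] (N N' : IndecPureInjective A)
    (x : N.carrier) (hx : x ≠ 0) (x' : N'.carrier)
    (h : ∀ θ : PPFormula A, x ∈ θ.sol N.carrier ↔ x' ∈ θ.sol N'.carrier) :
    zgPoint N = zgPoint N' :=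
  (zgPoint_eq_iff N N').2 (uniq_type (fun P _ _ hP I J a c h => compact_of_pureInjective C P hP I J a c h)
    (fun N Q _ _ _ _ hN hNi x hx h hh => star hN hNi x hx h hh)
    N.pureInjective N.indecomposable N'.pureInjective N'.indecomposable x hx x' h)

end Gen

theorem cb_one (X : Type u) [TopologicalSpace X] :
    cb X (1 : Ordinal.{v}) = derive (Set.univ : Set X) := by
  have := cb_succ X (0 : Ordinal.{v})
  rw [cb_zero] at this
  rw [← this]
  congr 1
  simp

theorem cb_two (X : Type u) [TopologicalSpace X] :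
    cb X (2 : Ordinal.{v}) = derive (derive (Set.univ : Set X)) := by
  have := cb_succ X (1 : Ordinal.{v})
  rw [cb_one] at this
  rw [← this]
  congr 1
  rw [← Ordinal.add_one_eq_succ]
  norm_num

end Cb
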