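import Pool.Agent.Helper462.Cb.Defs

namespace Cb

universe u


theorem h208_connM_isConn {k : Type*} [Field k] (δ : Derivation ℤ k k) {ι : Type*} [Fintype ι]
    (A : Matrix ι ι k) : IsConn δ (connM δ A) where
  add v w := by
    funext i
    simp only [connM, Pi.add_apply, map_add, mul_add, Finset.sum_add_distrib]
    ring
  smul a v := by
    funext i
    simp only [connM, Pi.add_apply, Pi.smul_apply, smul_eq_mul, Derivation.leibniz, mul_add,
      Finset.mul_sum]
    have : ∀ j, A i j * (a * v j) = a * (A i j * v j) := fun j => by ring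
    simp only [this]
    ring

section Lat

variable {K : Type*} [Field K] {d : Derivation ℤ K K} {V : Type*} [AddCommGroup V] [Module K V]
  {D : V → V}

/-- stable -/
def h208Stab (D : V → V) (W : Submodule K V) : Prop := ∀ w ∈ W, D w ∈ W

/-- minimal stable -/
def h208Min (D : V → V) (S : Submodule K V) : Prop :=
  h208Stab D S ∧ S ≠ ⊥ ∧ ∀ T, T ≤ S → h208Stab D T → T ≠ ⊥ → T = S

theorem h208D_zero (hD : IsConn d D) : D 0 = 0 := by
  have := hD.add 0 0
  rw [add_zero] at this
  exact left_eq_add.1 this

/-- the part of `W` mapped to `W` -/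
def h208Core (hD : IsConn d D) (W : Submodule K V) : Submodule K V where
  carrier := {w | w ∈ W ∧ D w ∈ W}
  add_mem' := by
    rintro a b ⟨ha, ha'⟩ ⟨hb, hb'⟩
    exact ⟨W.add_mem ha hb, by rw [hD.add]; exact W.add_mem ha' hb'⟩
  zero_mem' := ⟨W.zero_mem, by rw [h208D_zero hD]; exact W.zero_mem⟩
  smul_mem' := by
    rintro c a ⟨ha, ha'⟩
    refine ⟨W.smul_mem c ha, ?_⟩
    rw [hD.smul]
    exact W.add_mem (W.smul_mem _ ha) (W.smul_mem _ ha')

theorem h208Stab_sSup (hD : IsConn d D) (𝒮 : Set (Submodule K V)) (h : ∀ S ∈ 𝒮, h208Stab D S) :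
    h208Stab D (sSup 𝒮) := by
  have h1 : sSup 𝒮 ≤ h208Core hD (sSup 𝒮) := by
    apply sSup_le
    intro S hS w hw
    have h2 : S ≤ sSup 𝒮 := le_sSup hS
    exact ⟨h2 hw, h2 (h S hS w hw)⟩
  intro w hw
  exact (h1 hw).2

theorem h208Stab_sup (hD : IsConn d D) {W W' : Submodule K V} (h : h208Stab D W) (h' : h208Stab D W') :
    h208Stab D (W ⊔ W') := by
  rw [← sSup_pair]
  apply h208Stab_sSup hD
  rintro S (rfl | rfl)
  · exact h
  · exact h'

theorem h208Stab_inf {W W' : Submodule K V} (h : h208Stab D W) (h' : h208Stab D W') :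
    h208Stab D (W ⊓ W') := fun w hw => ⟨h w hw.1, h' w hw.2⟩

theorem h208Stab_span (hD : IsConn d D) (X : Set V) (h : ∀ x ∈ X, D x ∈ Submodule.span K X) :
    h208Stab D (Submodule.span K X) := by
  have h1 : Submodule.span K X ≤ h208Core hD (Submodule.span K X) := by
    rw [Submodule.span_le]
    intro x hx
    exact ⟨Submodule.subset_span hx, h x hx⟩
  intro w hw
  exact (h1 hw).2

theorem h208Min_exists [FiniteDimensional K V] (W : Submodule K V) (hW : h208Stab D W) (hne : W ≠ ⊥) :
    ∃ S, S ≤ W ∧ h208Min D S := by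
  obtain ⟨S, ⟨hS1, hS2, hS3⟩, hmin⟩ := (wellFounded_lt (α := Submodule K V)).has_min
    {T | T ≤ W ∧ h208Stab D T ∧ T ≠ ⊥} ⟨W, le_rfl, hW, hne⟩
  refine ⟨S, hS1, hS2, hS3, ?_⟩
  intro T hTS hT hT'
  by_contra hne
  exact hmin T ⟨hTS.trans hS1, hT, hT'⟩ (lt_of_le_of_ne hTS hne)

theorem h208SS_of_soc [FiniteDimensional K V] (hD : IsConn d D)
    (hsoc : sSup {S : Submodule K V | h208Min D S} = ⊤) : SS K D := by
  intro W hW
  have hstab_bot : h208Stab D (⊥ : Submodule K V) := by
    intro w hw
    rw [Submodule.mem_bot] at hw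
    rw [hw, h208D_zero hD]
    exact Submodule.zero_mem _
  obtain ⟨W', ⟨hW'1, hW'2⟩, hmax⟩ := (wellFounded_gt (α := Submodule K V)).has_min
    {T | h208Stab D T ∧ Disjoint W T} ⟨⊥, hstab_bot, disjoint_bot_right⟩
  refine ⟨W', hW'1, hW'2, ?_⟩
  rw [codisjoint_iff]
  by_contra hne
  have hex : ∃ S, h208Min D S ∧ ¬ S ≤ W ⊔ W' := by
    by_contra hcon
    push Not at hcon
    apply hne
    rw [eq_top_iff, ← hsoc]
    exact sSup_le hcon
  obtain ⟨S, hS, hSn⟩ := hex
  have hdis : Disjoint (W ⊔ W') S := by
    rw [disjoint_iff]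
    by_contra hcon
    have h1 : (W ⊔ W') ⊓ S = S := hS.2.2 _ inf_le_right
      (h208Stab_inf (h208Stab_sup hD hW hW'1) hS.1) hcon
    exact hSn (inf_eq_right.1 h1)
  refine hmax (W' ⊔ S) ⟨h208Stab_sup hD hW'1 hS.1,
    hW'2.disjoint_sup_right_of_disjoint_sup_left hdis⟩ ?_
  show W' < W' ⊔ S
  rw [lt_iff_le_and_ne]
  refine ⟨le_sup_left, fun heq => ?_⟩
  have h1 : S ≤ W' := by rw [heq]; exact le_sup_right
  exact hSn (h1.trans le_sup_right)

end Lat

theorem bc_up
    (hech : ∀ (K : Type u) [Field K] (ι : Type) [Fintype ι] [DecidableEq ι]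
      (W : Submodule K (ι → K)), ∃ B : Set (ι → K), Submodule.span K B = W ∧
        ∀ f : K →+ K, f 1 = 0 → (∀ w ∈ W, (fun i => f (w i)) ∈ W) → ∀ e ∈ B, ∀ i, f (e i) = 0)
    (haut : ∀ {k K : Type u} [Field k] [Field K] [CharZero k] [Algebra k K]
      [Algebra.IsAlgebraic k K] (δ : Derivation ℤ k k) (d : Derivation ℤ K K),
      (∀ a : k, d (algebraMap k K a) = algebraMap k K (δ a)) → ∀ (σ : K ≃ₐ[k] K) (x : K),
      d (σ x) = σ (d x))
    {k K : Type u} [Field k] [Field K] [CharZero k] [IsAlgClosed K] [Algebra k K]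
    [Algebra.IsAlgebraic k K] (δ : Derivation ℤ k k) (d : Derivation ℤ K K)
    (hd : ∀ a : k, d (algebraMap k K a) = algebraMap k K (δ a))
    {ι : Type} [Fintype ι] [DecidableEq ι] (A : Matrix ι ι k) (h : SS k (connM δ A)) :
    SS K (connM d (A.map (algebraMap k K))) := by
  set D := connM d (A.map (algebraMap k K)) with hDdef
  have hD : IsConn d D := h208_connM_isConn d _
  have : IsAlgClosure k K := ⟨inferInstance, inferInstance⟩
  have : Normal k K := IsAlgClosure.normal k K
  have : IsGalois k K := { }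
  apply h208SS_of_soc hD
  set Soc : Submodule K (ι → K) := sSup {S | h208Min D S} with hSoc
  have hSocStab : h208Stab D Soc := h208Stab_sSup hD _ (fun S hS => hS.1)
  -- D commutes with σ
  have hDσ : ∀ (σ : K ≃ₐ[k] K) (v : ι → K), D (fun i => σ (v i)) = fun i => σ (D v i) := by
    intro σ v
    funext i
    simp only [hDdef, connM, Matrix.map_apply, map_add, map_sum, map_mul, haut δ d hd σ,
      AlgEquiv.commutes]
  -- D and algebraMap
  have hDa : ∀ v : ι → k, D (fun i => algebraMap k K (v i)) =
      fun i => algebraMap k K (connM δ A v i) := by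
    intro v
    funext i
    simp only [hDdef, connM, Matrix.map_apply, map_add, map_sum, map_mul, hd]
  -- twist
  let tw : (K ≃ₐ[k] K) → Submodule K (ι → K) → Submodule K (ι → K) := fun σ W =>
    { carrier := {v | (fun i => σ.symm (v i)) ∈ W}
      add_mem' := by
        intro a b ha hb
        have : (fun i => σ.symm ((a + b) i)) =
            (fun i => σ.symm (a i)) + (fun i => σ.symm (b i)) := by
          funext i; simp
        show (fun i => σ.symm ((a + b) i)) ∈ W
        rw [this]
        exact W.add_mem ha hb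
      zero_mem' := by
        have : (fun i => σ.symm ((0 : ι → K) i)) = 0 := by
          funext i; simp
        show (fun i => σ.symm ((0 : ι → K) i)) ∈ W
        rw [this]
        exact W.zero_mem
      smul_mem' := by
        intro c a ha
        have : (fun i => σ.symm ((c • a) i)) = σ.symm c • (fun i => σ.symm (a i)) := by
          funext i; simp
        show (fun i => σ.symm ((c • a) i)) ∈ W
        rw [this]
        exact W.smul_mem _ ha }
  have htw : ∀ σ W v, v ∈ tw σ W ↔ (fun i => σ.symm (v i)) ∈ W := fun σ W v => Iff.rfl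
  have htw_mono : ∀ σ W W', W ≤ W' → tw σ W ≤ tw σ W' := fun σ W W' hWW v hv => hWW hv
  have htw_stab : ∀ σ W, h208Stab D W → h208Stab D (tw σ W) := by
    intro σ W hW v hv
    rw [htw] at hv ⊢
    have := hW _ hv
    rw [hDσ] at this
    exact this
  have htw_symm : ∀ (σ : K ≃ₐ[k] K) W, tw σ (tw σ.symm W) = W := by
    intro σ W
    ext v
    rw [htw, htw]
    have : (fun i => σ.symm.symm (σ.symm (v i))) = v := by
      funext i; simp
    rw [this]
  have htw_symm' : ∀ (σ : K ≃ₐ[k] K) W, tw σ.symm (tw σ W) = W := by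
    intro σ W
    ext v
    rw [htw, htw]
    have : (fun i => σ.symm (σ.symm.symm (v i))) = v := by
      funext i; simp
    rw [this]
  have htw_bot : ∀ (σ : K ≃ₐ[k] K), tw σ ⊥ = ⊥ := by
    intro σ
    ext v
    rw [htw, Submodule.mem_bot, Submodule.mem_bot]
    constructor
    · intro hv
      funext i
      have := congrFun hv i
      simpa using this
    · rintro rfl
      funext i
      simp
  have htw_min : ∀ σ S, h208Min D S → h208Min D (tw σ S) := by
    intro σ S hS
    refine ⟨htw_stab σ S hS.1, ?_, ?_⟩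
    · intro hcon
      apply hS.2.1
      rw [← htw_symm' σ S, hcon, htw_bot]
    · intro T hT hTs hTne
      have h1 := hS.2.2 (tw σ.symm T) (by
        have := htw_mono σ.symm _ _ hT
        rwa [htw_symm'] at this) (htw_stab _ _ hTs) (by
        intro hcon
        apply hTne
        rw [← htw_symm σ T, hcon, htw_bot])
      rw [← h1, htw_symm]
  have hSocσ : ∀ (σ : K ≃ₐ[k] K), ∀ v ∈ Soc, (fun i => σ (v i)) ∈ Soc := by
    intro σ
    have h1 : Soc ≤ tw σ.symm Soc := by
      rw [hSoc]
      apply sSup_le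
      intro S hS
      have h2 : tw σ S ≤ Soc := le_sSup (htw_min σ S hS)
      have h3 := htw_mono σ.symm _ _ h2
      rwa [htw_symm'] at h3
    intro v hv
    exact h1 hv
  obtain ⟨B, hB, hBf⟩ := hech K ι Soc
  have hBk : ∀ e ∈ B, ∃ w : ι → k, (fun i => algebraMap k K (w i)) = e := by
    intro e he
    have h1 : ∀ i, ∃ a : k, algebraMap k K a = e i := by
      intro i
      have h2 : e i ∈ (⊥ : IntermediateField k K) := by
        rw [InfiniteGalois.mem_bot_iff_fixed]
        intro σ
        have h3 := hBf ((σ : K →+* K).toAddMonoidHom - AddMonoidHom.id K) (by simp) (by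
          intro w hw
          exact Soc.sub_mem (hSocσ σ w hw) hw) e he i
        exact sub_eq_zero.1 h3
      exact IntermediateField.mem_bot.1 h2
    choose w hw using h1
    exact ⟨w, funext hw⟩
  -- W₀
  let W₀ : Submodule k (ι → k) :=
    { carrier := {w | (fun i => algebraMap k K (w i)) ∈ Soc}
      add_mem' := by
        intro a b ha hb
        have : (fun i => algebraMap k K ((a + b) i)) =
            (fun i => algebraMap k K (a i)) + (fun i => algebraMap k K (b i)) := by
          funext i; simp
        show (fun i => algebraMap k K ((a + b) i)) ∈ Soc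
        rw [this]
        exact Soc.add_mem ha hb
      zero_mem' := by
        have : (fun i => algebraMap k K ((0 : ι → k) i)) = 0 := by
          funext i; simp
        show (fun i => algebraMap k K ((0 : ι → k) i)) ∈ Soc
        rw [this]
        exact Soc.zero_mem
      smul_mem' := by
        intro c a ha
        have : (fun i => algebraMap k K ((c • a) i)) =
            algebraMap k K c • (fun i => algebraMap k K (a i)) := by
          funext i; simp
        show (fun i => algebraMap k K ((c • a) i)) ∈ Soc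
        rw [this]
        exact Soc.smul_mem _ ha }
  have hW₀ : ∀ w, w ∈ W₀ ↔ (fun i => algebraMap k K (w i)) ∈ Soc := fun w => Iff.rfl
  have hW₀s : ∀ w ∈ W₀, connM δ A w ∈ W₀ := by
    intro w hw
    rw [hW₀] at hw ⊢
    rw [← hDa]
    exact hSocStab _ hw
  obtain ⟨W₁, hW₁s, hcompl⟩ := h W₀ hW₀s
  -- projection onto W₀ along W₁
  let p : (ι → k) →ₗ[k] (ι → k) := W₀.subtype ∘ₗ W₀.projectionOnto W₁ hcompl
  have hp0 : ∀ w ∈ W₀, p w = w := by
    intro w hw
    show ((W₀.projectionOnto W₁ hcompl w : W₀) : ι → k) = w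
    have := Submodule.projectionOnto_apply_left hcompl ⟨w, hw⟩
    rw [this]
  have hp1 : ∀ w ∈ W₁, p w = 0 := by
    intro w hw
    show ((W₀.projectionOnto W₁ hcompl w : W₀) : ι → k) = 0
    have := Submodule.projectionOnto_apply_right hcompl ⟨w, hw⟩
    rw [this]
    rfl
  let P : Matrix ι ι K := (LinearMap.toMatrix' p).map (algebraMap k K)
  have hP : ∀ w : ι → k, P.mulVec (fun i => algebraMap k K (w i)) =
      fun i => algebraMap k K (p w i) := by
    intro w
    funext i
    have h1 := RingHom.map_mulVec (algebraMap k K) (LinearMap.toMatrix' p) w i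
    rw [LinearMap.toMatrix'_mulVec] at h1
    exact h1.symm
  have hfix : ∀ v ∈ Soc, P.mulVec v = v := by
    intro v hv
    rw [← hB] at hv
    induction hv using Submodule.span_induction with
    | mem e he =>
      obtain ⟨w, rfl⟩ := hBk e he
      rw [hP]
      have hw : w ∈ W₀ := by
        rw [hW₀, ← hB]
        exact Submodule.subset_span he
      rw [hp0 w hw]
    | zero => exact Matrix.mulVec_zero _
    | add x y _ _ hx hy => rw [Matrix.mulVec_add, hx, hy]
    | smul a x _ hx => rw [Matrix.mulVec_smul, hx]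
  let X : Set (ι → K) := {v | ∃ w ∈ W₁, (fun i => algebraMap k K (w i)) = v}
  have hzero : ∀ v ∈ Submodule.span K X, P.mulVec v = 0 := by
    intro v hv
    induction hv using Submodule.span_induction with
    | mem e he =>
      obtain ⟨w, hw, rfl⟩ := he
      rw [hP, hp1 w hw]
      funext i
      simp
    | zero => exact Matrix.mulVec_zero _
    | add x y _ _ hx hy => rw [Matrix.mulVec_add, hx, hy, add_zero]
    | smul a x _ hx => rw [Matrix.mulVec_smul, hx, smul_zero]
  have hW₁bot : W₁ = ⊥ := by
    by_contra hne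
    have hXs : h208Stab D (Submodule.span K X) := by
      apply h208Stab_span hD
      rintro _ ⟨w, hw, rfl⟩
      rw [hDa]
      exact Submodule.subset_span ⟨_, hW₁s w hw, rfl⟩
    have hXne : Submodule.span K X ≠ ⊥ := by
      intro hcon
      apply hne
      rw [eq_bot_iff]
      intro w hw
      have h1 : (fun i => algebraMap k K (w i)) ∈ Submodule.span K X :=
        Submodule.subset_span ⟨w, hw, rfl⟩
      rw [hcon, Submodule.mem_bot] at h1
      rw [Submodule.mem_bot]
      funext i
      have h2 := congrFun h1 i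
      simpa using h2
    obtain ⟨S, hSX, hS⟩ := h208Min_exists _ hXs hXne
    have hSSoc : S ≤ Soc := le_sSup hS
    apply hS.2.1
    rw [eq_bot_iff]
    intro v hv
    have h1 := hfix v (hSSoc hv)
    have h2 : P.mulVec v = 0 := hzero v (hSX hv)
    rw [h2] at h1
    rw [Submodule.mem_bot]
    exact h1.symm
  have hW₀top : W₀ = ⊤ := by
    have := hcompl.sup_eq_top
    rwa [hW₁bot, sup_bot_eq] at this
  rw [eq_top_iff]
  intro v _
  have h1 : v = ∑ i, v i • (Pi.single i (1 : K) : ι → K) := by
    funext j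
    simp [Finset.sum_apply, Pi.single_apply]
  rw [h1]
  refine Submodule.sum_mem _ fun i _ => Submodule.smul_mem _ _ ?_
  have h2 : (Pi.single i (1 : k) : ι → k) ∈ W₀ := by rw [hW₀top]; trivial
  rw [hW₀] at h2
  have h3 : (fun j => algebraMap k K ((Pi.single i (1 : k) : ι → k) j)) = Pi.single i (1 : K) := by
    funext j
    by_cases hj : j = i
    · subst hj; simp
    · simp [Pi.single_apply, hj]
  rwa [h3] at h2

end Cb
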