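import Pool.Agent.Helper462.Cb.Defs

namespace Cb

universe u


theorem bc_down
    {k K : Type u} [Field k] [Field K] [CharZero k] [Algebra k K]
    (δ : Derivation ℤ k k) (d : Derivation ℤ K K)
    (hd : ∀ a : k, d (algebraMap k K a) = algebraMap k K (δ a))
    (τ : K →ₗ[k] k) (hτ1 : τ 1 = 1) (hτd : ∀ x, τ (d x) = δ (τ x))
    {ι : Type} [Fintype ι] [DecidableEq ι] (A : Matrix ι ι k)
    (h : SS K (connM d (A.map (algebraMap k K)))) :
    SS k (connM δ A) := by
  intro W hW
  have hsm : ∀ (a : k) (x : K), algebraMap k K a * x = a • x := fun a x => (Algebra.smul_def a x).symm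
  let φ : (ι → k) → (ι → K) := fun v i => algebraMap k K (v i)
  set DK : (ι → K) → (ι → K) := connM d (A.map (algebraMap k K)) with hDK
  have hφD : ∀ v, φ (connM δ A v) = DK (φ v) := by
    intro v
    funext i
    simp only [φ, hDK, connM, map_add, map_sum, map_mul, hd, Matrix.map_apply]
  have hDadd : ∀ x y, DK (x + y) = DK x + DK y := by
    intro x y
    funext i
    simp only [hDK, connM, Pi.add_apply, map_add, mul_add, Finset.sum_add_distrib]
    ring
  have hDsmul : ∀ (a : K) x, DK (a • x) = d a • x + a • DK x := by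
    intro a x
    funext i
    simp only [hDK, connM, Pi.add_apply, Pi.smul_apply, smul_eq_mul, Derivation.leibniz]
    rw [mul_add, Finset.mul_sum]
    have : ∀ j, (A.map (algebraMap k K)) i j * (a * x j) = a * ((A.map (algebraMap k K)) i j * x j) :=
      fun j => by ring
    simp only [this]
    ring
  have hD0 : DK 0 = 0 := by
    have := hDsmul 0 0
    simpa using this
  set WK : Submodule K (ι → K) := Submodule.span K (φ '' (W : Set (ι → k))) with hWK
  have hφW : ∀ w ∈ W, φ w ∈ WK := fun w hw => Submodule.subset_span ⟨w, hw, rfl⟩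
  have hWKs : ∀ w ∈ WK, DK w ∈ WK := by
    intro w hw
    induction hw using Submodule.span_induction with
    | mem x hx =>
      obtain ⟨v, hv, rfl⟩ := hx
      rw [← hφD]
      exact hφW _ (hW v hv)
    | zero => rw [hD0]; exact WK.zero_mem
    | add x y _ _ hx hy => rw [hDadd]; exact WK.add_mem hx hy
    | smul a x hx hx' =>
      rw [hDsmul]
      exact WK.add_mem (WK.smul_mem _ hx) (WK.smul_mem _ hx')
  obtain ⟨W', hW's, hc⟩ := h WK hWKs
  let p : (ι → K) →ₗ[K] (ι → K) := WK.projection W' hc
  have hpmem : ∀ x, p x ∈ WK := fun x => Submodule.projection_apply_mem hc x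
  have hpl : ∀ x ∈ WK, p x = x := fun x hx => Submodule.projection_apply_of_mem_left hc hx
  have hpr : ∀ x ∈ W', p x = 0 := fun x hx => (Submodule.projection_apply_eq_zero_iff hc).2 hx
  have hpD : ∀ x, p (DK x) = DK (p x) := by
    intro x
    have h1 : x - p x ∈ W' := Submodule.sub_projection_mem hc x
    have h2 : DK x = DK (p x) + DK (x - p x) := by rw [← hDadd]; congr 1; abel
    rw [h2, map_add, hpl _ (hWKs _ (hpmem x)), hpr _ (hW's _ h1), add_zero]
  have hφadd : ∀ v w, φ (v + w) = φ v + φ w := fun v w => by
    funext i; simp [φ]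
  have hφsmul : ∀ (a : k) v, φ (a • v) = algebraMap k K a • φ v := fun a v => by
    funext i; simp [φ]
  let q : (ι → k) →ₗ[k] (ι → k) :=
    { toFun := fun v i => τ (p (φ v) i)
      map_add' := by
        intro v w
        funext i
        simp only [hφadd, map_add, Pi.add_apply]
      map_smul' := by
        intro a v
        funext i
        simp only [hφsmul, map_smul, Pi.smul_apply, smul_eq_mul, RingHom.id_apply, hsm] }
  have hq1 : ∀ x ∈ WK, ∀ a : K, (fun i => τ (a * x i)) ∈ W := by
    intro x hx
    induction hx using Submodule.span_induction with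
    | mem x hx =>
      obtain ⟨v, hv, rfl⟩ := hx
      intro a
      have h1 : (fun i => τ (a * φ v i)) = τ a • v := by
        funext i
        simp only [φ, Pi.smul_apply, smul_eq_mul]
        rw [mul_comm a, hsm, map_smul, smul_eq_mul, mul_comm]
      rw [h1]
      exact W.smul_mem _ hv
    | zero =>
      intro a
      have h1 : (fun i => τ (a * (0 : ι → K) i)) = 0 := by
        funext i; simp
      rw [h1]; exact W.zero_mem
    | add x y _ _ hx hy =>
      intro a
      have h1 : (fun i => τ (a * (x + y) i)) = (fun i => τ (a * x i)) + fun i => τ (a * y i) := by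
        funext i; simp [mul_add]
      rw [h1]; exact W.add_mem (hx a) (hy a)
    | smul b x _ hx =>
      intro a
      have h1 : (fun i => τ (a * (b • x) i)) = fun i => τ ((a * b) * x i) := by
        funext i; simp [mul_assoc]
      rw [h1]; exact hx _
  have hqW : ∀ v, q v ∈ W := by
    intro v
    have h1 := hq1 (p (φ v)) (hpmem _) 1
    simp only [one_mul] at h1
    exact h1
  have hqid : ∀ w ∈ W, q w = w := by
    intro w hw
    funext i
    show τ (p (φ w) i) = w i
    rw [hpl _ (hφW w hw)]
    show τ (algebraMap k K (w i)) = w i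
    have h1 : algebraMap k K (w i) = w i • (1 : K) := by rw [← hsm, mul_one]
    rw [h1, map_smul, hτ1, smul_eq_mul, mul_one]
  have hqD : ∀ v, q (connM δ A v) = connM δ A (q v) := by
    intro v
    funext i
    show τ (p (φ (connM δ A v)) i) = _
    rw [hφD, hpD]
    simp only [hDK, connM, map_add, map_sum, hτd, Matrix.map_apply, hsm, map_smul, smul_eq_mul]
    rfl
  refine ⟨LinearMap.ker q, ?_, ?_⟩
  · intro w hw
    rw [LinearMap.mem_ker] at hw ⊢
    rw [hqD, hw]
    funext i
    simp [connM]
  · constructor
    · rw [Submodule.disjoint_def]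
      intro x hx hx'
      rw [LinearMap.mem_ker, hqid x hx] at hx'
      exact hx'
    · rw [codisjoint_iff, eq_top_iff]
      intro v _
      rw [Submodule.mem_sup]
      refine ⟨q v, hqW v, v - q v, ?_, by abel⟩
      rw [LinearMap.mem_ker, map_sub, hqid _ (hqW v), sub_self]

end Cb
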