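import Pool.Agent.Helper462.Cb.Alpha

/-!
# Cases alpha and beta
-/

namespace Cb

open Zg

universe u v

section Const

variable {k : Type u} [Field k] (δ : Derivation ℤ k k)

/-- the field of constants -/
def constF : Subfield k where
  carrier := {a | δ a = 0}
  mul_mem' := by
    intro a b ha hb
    change δ (a * b) = 0
    rw [Derivation.leibniz, ha, hb]
    simp
  one_mem' := δ.map_one_eq_zero
  add_mem' := by
    intro a b ha hb
    change δ (a + b) = 0
    rw [map_add, ha, hb, add_zero]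
  zero_mem' := map_zero δ
  neg_mem' := by
    intro a ha
    change δ (-a) = 0
    rw [map_neg, ha, neg_zero]
  inv_mem' := by
    intro a ha
    change δ (a⁻¹) = 0
    by_cases h0 : a = 0
    · simp [h0]
    · have h1 : δ (a * a⁻¹) = 0 := by rw [mul_inv_cancel₀ h0]; exact δ.map_one_eq_zero
      rw [Derivation.leibniz, show δ a = 0 from ha, smul_zero, add_zero, smul_eq_mul] at h1
      exact (mul_eq_zero.1 h1).resolve_left h0

end Const

section

variable {k : Type u} [Field k] {δ : Derivation ℤ k k} {A : Type u} [Ring A]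

theorem DiffPoly.const_comm (h : DiffPoly δ A) (c : k) (hc : δ c = 0) (x : A) :
    h.i c * x = x * h.i c := by
  refine h.induction (fun x => h.i c * x = x * h.i c) ?_ ?_ ?_ ?_ ?_ x
  · simp
  · intro x y hx hy
    rw [mul_add, hx, hy, add_mul]
  · intro a x hx
    rw [← mul_assoc, ← map_mul, mul_comm c a, map_mul, mul_assoc, hx, mul_assoc]
  · intro x hx
    have h1 := h.comm c
    rw [hc, map_zero, add_zero] at h1
    rw [← mul_assoc, ← h1, mul_assoc, hx, mul_assoc]
  · simp

/-- the algebra structure over the constants -/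
@[reducible] noncomputable def DiffPoly.algC (h : DiffPoly δ A) : Algebra (constF δ) A :=
  RingHom.toAlgebra' (h.i.comp (constF δ).subtype) (fun c x => h.const_comm c c.2 x)

theorem DiffPoly.nonunit (h : DiffPoly δ A) {d : A → ℕ} (he : Euclid A d) (hd : d h.X = 1) :
    ∃ a : A, a ≠ 0 ∧ ¬ IsUnit a := by
  have h1 : (1 : A) ≠ 0 := he.nontriv
  have hd1 : d 1 = 0 := by
    have := he.d_mul 1 1 h1 h1
    rw [mul_one] at this
    omega
  by_cases hX : h.X = 0
  · exfalso
    have h2 := (h.bij.1 (a₁ := Finsupp.single 1 1) (a₂ := 0) (by simp [hX]))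
    have := congrArg (fun p : ℕ →₀ k => p 1) h2
    simp at this
  · refine ⟨h.X, hX, ?_⟩
    rintro ⟨u, hu⟩
    have h2 : h.X * (↑u⁻¹ : A) = 1 := by rw [← hu]; exact u.mul_inv
    have h3 : (↑u⁻¹ : A) ≠ 0 := by
      intro h0
      rw [h0, mul_zero] at h2
      exact h1 h2.symm
    have h4 := he.d_mul h.X _ hX h3
    rw [h2, hd1, hd] at h4
    omega

variable [CharZero k]

theorem cb_alpha (h : DiffPoly δ A) (hA : HA δ) :
    ∃ q : ZieglerSpectrum A, cb (ZieglerSpectrum A) (1 : Ordinal.{v}) = {q} := by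
  obtain ⟨d, he, hd⟩ := h.euclid
  have hX := h.nonunit he hd
  have hn : IsNoetherianRing A := he.noeth
  let _ := h.algC
  have hpr := he.principal
  have hore := he.ore
  refine alpha_top he hX (cb_one _) (fun p => exists_ann p) (fun p => exists_div p)
    (fun T Y _ _ φ ψ hT hn => exists_point_cl (constF δ) T Y φ ψ hT hn)
    (fun E _ _ hE M N _ _ _ _ i hi g => he.baer hpr E hE i hi g)
    (fun M _ _ => he.exists_divisible M) hore
    (fun M _ _ _ hM => he.fl_of_torsion M hM) (he.exists_simple hX)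
    he.factor he.right_max ?_ ?_
    (fun N N' φ ψ h1 h2 h3 h4 h5 => uniq_pair_zg (constF δ) N N' φ ψ h1 h2 h3 h4 h5)
    (fun N N' x hx x' hxx => uniq_type_zg (constF δ) N N' x hx x' hxx) ?_
  · intro θ
    refine sol_torsionFree he (fun θ => exists_free_realization θ) ?_
      (fun q => he.right_gcd q) θ
    intro M _ _ _
    obtain ⟨T, n, q, s, t, h1, h2, h3, -⟩ := he.structure hore M
    exact ⟨n, q, s, fun x hx => (h1 x).1 ((h2 x).2 hx), h3⟩
  · intro θ
    refine sol_zero_one he (fun θ => exists_free_realization θ) ?_ θ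
    intro M _ _ _
    obtain ⟨T, n, q, s, t, h1, h2, h3, -⟩ := he.structure hore M
    exact ⟨n, q, s, fun x hx => (h1 x).1 ((h2 x).2 hx), h3⟩
  · intro V _ _ hV p hp x
    refine simple_divisible he h (fun hV hW sV sW DH hDH => ss_hom_all δ hV hW sV sW DH hDH)
      (fun V _ _ _ hV hs => h.fd_of_simple V hV hs) (fun V _ _ _ hV W hW => h.sub V hV W hW)
      (fun V W _ _ _ _ _ _ hV hW f hf => h.lin V W hV hW f hf) he.factor hA V hV p hp x

theorem rank_alpha (h : DiffPoly δ A) (hA : HA δ) :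
    IsCBRank (ZieglerSpectrum A) (1 : WithTop Ordinal.{v}) := by
  obtain ⟨q, hq⟩ := cb_alpha.{u, v} h hA
  exact rank_one q hq

theorem cb_beta (h : DiffPoly δ A) (a b : k) (hB : HB δ a b) :
    ∃ q : ZieglerSpectrum A, cb (ZieglerSpectrum A) (2 : Ordinal.{v}) = {q} := by
  obtain ⟨d, he, hd⟩ := h.euclid
  have hX := h.nonunit he hd
  have hn : IsNoetherianRing A := he.noeth
  let _ := h.algC
  have hpr := he.principal
  have hore := he.ore
  have hss : ∀ {V W : Type u} [AddCommGroup V] [Module k V] [FiniteDimensional k V]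
      [AddCommGroup W] [Module k W] [FiniteDimensional k W]
      {DV : V → V} {DW : W → W}, IsConn δ DV → IsConn δ DW →
      SS k DV → SS k DW → ∀ DH : (V →ₗ[k] W) → (V →ₗ[k] W),
      (∀ φ v, DH φ v = DW (φ v) - φ (DV v)) → SS k DH :=
    fun hV hW sV sW DH hDH => ss_hom_all δ hV hW sV sW DH hDH
  have hfd : ∀ (V : Type u) [AddCommGroup V] [Module k V] [Module A V],
      (∀ (a : k) (v : V), h.i a • v = a • v) → IsSimpleModule A V → FiniteDimensional k V :=
    fun V _ _ _ hV hs => h.fd_of_simple V hV hs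
  have hsub : ∀ (V : Type u) [AddCommGroup V] [Module k V] [Module A V],
      (∀ (a : k) (v : V), h.i a • v = a • v) → ∀ W : Submodule k V,
      (∀ w ∈ W, h.X • w ∈ W) → ∃ W' : Submodule A V, ∀ v, v ∈ W' ↔ v ∈ W :=
    fun V _ _ _ hV W hW => h.sub V hV W hW
  have hlin : ∀ (V W : Type u) [AddCommGroup V] [Module k V] [Module A V] [AddCommGroup W]
      [Module k W] [Module A W], (∀ (a : k) (v : V), h.i a • v = a • v) →
      (∀ (a : k) (v : W), h.i a • v = a • v) → ∀ f : V →ₗ[k] W,
      (∀ v, f (h.X • v) = h.X • f v) → ∃ g : V →ₗ[A] W, ∀ v, g v = f v :=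
    fun V W _ _ _ _ _ _ hV hW f hf => h.lin V W hV hW f hf
  have hBot : UniBot A := uniBot_of_HB h hss hfd hsub hlin a b hB
  have hTop : UniTop A := uniTop_of_HB h hss hfd hsub hlin a b hB
  have hbaer : ∀ (E : Type u) [AddCommGroup E] [Module A E],
      (∀ p : A, p ≠ 0 → ∀ x : E, ∃ y : E, p • y = x) →
      ∀ (M N : Type u) [AddCommGroup M] [Module A M] [AddCommGroup N] [Module A N]
      (i : M →ₗ[A] N), Function.Injective i → ∀ g : M →ₗ[A] E, ∃ f : N →ₗ[A] E, f ∘ₗ i = g :=
    fun E _ _ hE M N _ _ _ _ i hi g => he.baer hpr E hE i hi g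
  have hfl : ∀ (M : Type u) [AddCommGroup M] [Module A M] [Module.Finite A M],
      (∀ x : M, ∃ p : A, p ≠ 0 ∧ p • x = 0) → IsFiniteLength A M :=
    fun M _ _ _ hM => he.fl_of_torsion M hM
  have hnd : ∀ (V : Type u) [AddCommGroup V] [Module A V], IsSimpleModule A V →
      ∃ p : A, p ≠ 0 ∧ ∃ x : V, ∀ y : V, p • y ≠ x :=
    fun V _ _ hV => not_divisible_of_HB he h hss hfd hsub hlin
      (fun V _ _ D hD => h.toModule V D hD) hbaer a b hB V hV
  have h1 : ∀ (M : Type u) [AddCommGroup M] [Module A M], IsFiniteLength A M →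
      ∀ S : Submodule A M, IsSimpleModule A S → (∀ N : Submodule A M, N ≠ ⊥ → S ≤ N) →
      Uniserial A M := fun M _ _ hM S hS hess => uniserial_of_socle hBot M hM S hS hess
  have h2 : ∀ (M : Type u) [AddCommGroup M] [Module A M], IsFiniteLength A M →
      ∀ P : Submodule A M, P ≠ ⊤ → (∀ N : Submodule A M, N ≠ ⊤ → N ≤ P) → Uniserial A M :=
    fun M _ _ hM P hP hmax => uniserial_of_top hTop M hM P hP hmax
  have hstr := fun (M : Type u) [AddCommGroup M] [Module A M] [Module.Finite A M] =>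
    he.structure hore M
  refine beta_top he hX (cb_two _) (fun p => exists_ann p) (fun p => exists_div p)
    (fun T Y _ _ φ ψ hT hn => exists_point_cl (constF δ) T Y φ ψ hT hn)
    (fun M _ _ => he.exists_divisible M) hore (he.exists_simple hX)
    he.factor he.right_max ?_ ?_
    (fun N N' φ ψ h1 h2 h3 h4 h5 => uniq_pair_zg (constF δ) N N' φ ψ h1 h2 h3 h4 h5)
    (fun N N' x hx x' hxx => uniq_type_zg (constF δ) N N' x hx x' hxx) ?_ ?_
  · intro θ
    refine sol_torsionFree he (fun θ => exists_free_realization θ) ?_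
      (fun q => he.right_gcd q) θ
    intro M _ _ _
    obtain ⟨T, n, q, s, t, h1, h2, h3, -⟩ := hstr M
    exact ⟨n, q, s, fun x hx => (h1 x).1 ((h2 x).2 hx), h3⟩
  · intro θ
    refine sol_zero_one he (fun θ => exists_free_realization θ) ?_ θ
    intro M _ _ _
    obtain ⟨T, n, q, s, t, h1, h2, h3, -⟩ := hstr M
    exact ⟨n, q, s, fun x hx => (h1 x).1 ((h2 x).2 hx), h3⟩
  · intro M _ _ hM hMi
    obtain ⟨H, i, hi⟩ := exists_point (constF δ) M hM hMi
    refine ⟨H, fun φ ψ => ⟨fun hs => sol_subset_of_hull (constF δ) i hi φ ψ hs, ?_⟩⟩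
    intro hs v hv
    have h3 : i v ∈ ψ.sol H.carrier := hs (mem_sol_map φ i hv)
    have h4 : Solvable ψ.B (fun j => i (ψ.a j • v)) := by
      have h5 : Solvable ψ.B (fun j => ψ.a j • i v) := h3
      simpa using h5
    exact hi.1.2 _ _ _ _ h4
  · intro p hp0 hp
    obtain ⟨E, _, _, s, hs, hps, hdiv, htor, hess⟩ := he.exists_simple_hull hore p hp0 hp
    obtain ⟨En, hmono, hexh, hsEn, hEfl, hElen, hEuni, huniq⟩ :=
      hull_filtration he hn hfl h1 hnd E s hs hdiv htor hess
    obtain ⟨Φ, hΦ0, hΦs, hΦd, hΦdiv, hΦfl⟩ := exists_chain he hn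
      (fun θ => exists_free_realization θ) (fun F _ _ _ e => exists_formula_of_pointed F e)
      (fun M _ _ _ => by
        obtain ⟨T, n, q, s, t, h1, h2, h3, h4, h5, -⟩ := hstr M
        exact ⟨T, t, h1, h4, h5⟩) hfl
      (fun M _ _ hM => exists_uniserial_decomposition
        (fun M _ _ hM hnt => exists_uniserial_summand h1 h2 M hM) M hM)
      hbaer p hp0 hp E s hs hps hdiv hess En hmono hsEn hEfl hElen huniq
    exact ⟨E, _, _, s, En, Φ, hs, hps, hdiv, hmono, hexh, hsEn, hEfl, hEuni, hΦ0, hΦs, hΦd,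
      hΦdiv, hΦfl⟩

theorem rank_beta (h : DiffPoly δ A) (a b : k) (hB : HB δ a b) :
    IsCBRank (ZieglerSpectrum A) (2 : WithTop Ordinal.{v}) := by
  obtain ⟨q, hq⟩ := cb_beta.{u, v} h a b hB
  exact rank_two q hq

end

end Cb
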