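import Pool.Agent.Helper462.Cb.Defs

namespace Cb

universe u


section CorOne

variable {k K : Type*} [Field k] [Field K] [Algebra k K] {ι : Type*} [Fintype ι]

theorem co_mem {W : Submodule k (ι → k)} {w : ι → k} (hw : w ∈ W) :
    (fun i => algebraMap k K (w i)) ∈ extS K W :=
  Submodule.subset_span ⟨w, hw, rfl⟩

/-- contraction -/
def co_con (M : Submodule K (ι → K)) : Submodule k (ι → k) where
  carrier := {w | (fun i => algebraMap k K (w i)) ∈ M}
  zero_mem' := by
    show (fun i => algebraMap k K ((0 : ι → k) i)) ∈ M
    have : (fun i => algebraMap k K ((0 : ι → k) i)) = 0 := by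
      funext i; simp
    rw [this]; exact M.zero_mem
  add_mem' := by
    intro a b ha hb
    show (fun i => algebraMap k K ((a + b) i)) ∈ M
    have : (fun i => algebraMap k K ((a + b) i)) =
        (fun i => algebraMap k K (a i)) + (fun i => algebraMap k K (b i)) := by
      funext i; simp
    rw [this]; exact M.add_mem ha hb
  smul_mem' := by
    intro c a ha
    show (fun i => algebraMap k K ((c • a) i)) ∈ M
    have : (fun i => algebraMap k K ((c • a) i)) =
        (algebraMap k K c) • (fun i => algebraMap k K (a i)) := by
      funext i; simp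
    rw [this]; exact M.smul_mem _ ha

theorem co_mem_con (M : Submodule K (ι → K)) (w : ι → k) :
    w ∈ co_con (k := k) M ↔ (fun i => algebraMap k K (w i)) ∈ M := Iff.rfl

theorem co_finrank (W : Submodule k (ι → k)) :
    Module.finrank K (extS K W) ≤ Module.finrank k W := by
  classical
  let b := Module.finBasis k W
  let c : Fin (Module.finrank k W) → (ι → K) := fun j i => algebraMap k K ((b j : ι → k) i)
  have hle : extS K W ≤ Submodule.span K (Set.range c) := by
    refine Submodule.span_le.2 ?_
    rintro _ ⟨u, hu, rfl⟩
    have h1 := b.sum_repr ⟨u, hu⟩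
    have h2 : u = ∑ j, (b.repr ⟨u, hu⟩ j) • (b j : ι → k) := by
      have h3 := congrArg (fun x : W => (x : ι → k)) h1
      simp only [Submodule.coe_sum, Submodule.coe_smul] at h3
      exact h3.symm
    have h4 : (fun i => algebraMap k K (u i)) =
        ∑ j, (algebraMap k K (b.repr ⟨u, hu⟩ j)) • c j := by
      funext i
      rw [Finset.sum_apply]
      conv_lhs => rw [h2]
      rw [Finset.sum_apply, map_sum]
      exact Finset.sum_congr rfl fun j _ => by
        rw [Pi.smul_apply, smul_eq_mul, map_mul, Pi.smul_apply, smul_eq_mul]
    show (fun i => algebraMap k K (u i)) ∈ Submodule.span K (Set.range c)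
    rw [h4]
    exact Submodule.sum_mem _ fun j _ =>
      Submodule.smul_mem _ _ (Submodule.subset_span ⟨j, rfl⟩)
  refine (Submodule.finrank_mono hle).trans ?_
  have h5 := finrank_range_le_card (R := K) c
  rw [Fintype.card_fin] at h5
  exact h5

theorem co_isCompl {W W' : Submodule k (ι → k)} (h : IsCompl W W') :
    IsCompl (extS K W) (extS K W') := by
  classical
  have htop : extS K W ⊔ extS K W' = ⊤ := by
    rw [eq_top_iff]
    intro v _
    have h1 : v = ∑ i, v i • (Pi.single i (1 : K) : ι → K) := by
      funext j
      simp [Finset.sum_apply, Pi.single_apply]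
    rw [h1]
    refine Submodule.sum_mem _ fun i _ => Submodule.smul_mem _ _ ?_
    have h2 : (Pi.single i (1 : k) : ι → k) ∈ W ⊔ W' := by
      rw [h.sup_eq_top]; exact Submodule.mem_top
    obtain ⟨a, ha, b, hb, hab⟩ := Submodule.mem_sup.1 h2
    have h3 : (Pi.single i (1 : K) : ι → K) =
        (fun i => algebraMap k K (a i)) + (fun i => algebraMap k K (b i)) := by
      funext j
      rw [Pi.add_apply, ← map_add]
      have h4 : a j + b j = (Pi.single i (1 : k) : ι → k) j := by rw [← hab]; rfl
      rw [h4]
      by_cases hj : j = i
      · subst hj; simp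
      · simp [Pi.single_apply, hj]
    rw [h3]
    exact Submodule.add_mem_sup (co_mem ha) (co_mem hb)
  refine IsCompl.of_eq ?_ htop
  have h1 := Submodule.finrank_sup_add_finrank_inf_eq (extS K W) (extS K W')
  rw [htop, finrank_top] at h1
  have h2 := Submodule.finrank_add_eq_of_isCompl h
  have h3 := co_finrank (K := K) W
  have h4 := co_finrank (K := K) W'
  rw [Module.finrank_fintype_fun_eq_card] at h1 h2
  have h5 : Module.finrank K ↥(extS K W ⊓ extS K W') = 0 := by omega
  exact Submodule.finrank_eq_zero.1 h5

theorem co_con_ext {W : Submodule k (ι → k)} {w : ι → k}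
    (hw : (fun i => algebraMap k K (w i)) ∈ extS K W) : w ∈ W := by
  obtain ⟨W', hW'⟩ := Submodule.exists_isCompl W
  have h2 : w ∈ W ⊔ W' := by
    rw [hW'.sup_eq_top]; exact Submodule.mem_top
  obtain ⟨a, ha, b, hb, hab⟩ := Submodule.mem_sup.1 h2
  have h3 : (fun i => algebraMap k K (b i)) ∈ extS K W := by
    have h4 : (fun i => algebraMap k K (b i)) =
        (fun i => algebraMap k K (w i)) - (fun i => algebraMap k K (a i)) := by
      funext i
      rw [Pi.sub_apply, ← map_sub, ← hab]
      simp
    rw [h4]
    exact Submodule.sub_mem _ hw (co_mem ha)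
  have h5 : (fun i => algebraMap k K (b i)) ∈ extS K W ⊓ extS K W' := ⟨h3, co_mem hb⟩
  rw [(co_isCompl (K := K) hW').inf_eq_bot, Submodule.mem_bot] at h5
  have h6 : b = 0 := by
    funext i
    have h7 := congrFun h5 i
    simpa using h7
  rw [← hab, h6, add_zero]
  exact ha

theorem co_conn_j (δ : Derivation ℤ k k) (d : Derivation ℤ K K)
    (hd : ∀ a : k, d (algebraMap k K a) = algebraMap k K (δ a)) (B : Matrix ι ι k) (w : ι → k) :
    connM d (B.map (algebraMap k K)) (fun i => algebraMap k K (w i)) =
      fun i => algebraMap k K (connM δ B w i) := by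
  funext i
  unfold connM
  rw [hd, map_add, map_sum]
  congr 1
  exact Finset.sum_congr rfl fun j _ => by rw [Matrix.map_apply, map_mul]

theorem co_con_stable (δ : Derivation ℤ k k) (d : Derivation ℤ K K)
    (hd : ∀ a : k, d (algebraMap k K a) = algebraMap k K (δ a)) (B : Matrix ι ι k)
    (M : Submodule K (ι → K)) (hM : StM d B M) :
    ∀ w ∈ co_con (k := k) M, connM δ B w ∈ co_con (k := k) M := by
  intro w hw
  rw [co_mem_con] at hw ⊢
  have h := hM.1 _ hw
  rw [co_conn_j δ d hd] at h
  exact h

theorem co_ext_stable (δ : Derivation ℤ k k) (d : Derivation ℤ K K)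
    (hd : ∀ a : k, d (algebraMap k K a) = algebraMap k K (δ a)) (B : Matrix ι ι k)
    (W : Submodule k (ι → k)) (hW : ∀ w ∈ W, connM δ B w ∈ W) : StM d B (extS K W) := by
  constructor
  · intro m hm
    induction hm using Submodule.span_induction with
    | mem x hx =>
      obtain ⟨u, hu, rfl⟩ := hx
      rw [co_conn_j δ d hd]
      exact co_mem (hW u hu)
    | zero =>
      have : connM d (B.map (algebraMap k K)) (0 : ι → K) = 0 := by
        funext i; simp [connM]
      rw [this]; exact Submodule.zero_mem _
    | add x y _ _ hx hy =>
      have : connM d (B.map (algebraMap k K)) (x + y) =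
          connM d (B.map (algebraMap k K)) x + connM d (B.map (algebraMap k K)) y := by
        funext i
        simp only [connM, Pi.add_apply, map_add, mul_add, Finset.sum_add_distrib]
        ring
      rw [this]; exact Submodule.add_mem _ hx hy
    | smul a x hx' hx =>
      have : connM d (B.map (algebraMap k K)) (a • x) =
          d a • x + a • connM d (B.map (algebraMap k K)) x := by
        funext i
        simp only [connM, Pi.add_apply, Pi.smul_apply, smul_eq_mul, Derivation.leibniz, mul_add,
          Finset.mul_sum]
        have : ∀ j, B.map (algebraMap k K) i j * (a * x j) =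
            a * (B.map (algebraMap k K) i j * x j) := fun j => by ring
        rw [Finset.sum_congr rfl (fun j _ => this j)]
        ring
      rw [this]
      exact Submodule.add_mem _ (Submodule.smul_mem _ _ hx') (Submodule.smul_mem _ _ hx)
  · intro D m hm
    induction hm using Submodule.span_induction with
    | mem x hx =>
      obtain ⟨u, hu, rfl⟩ := hx
      have : (fun i => D (algebraMap k K (u i))) = (0 : ι → K) := by
        funext i; simp
      rw [this]; exact Submodule.zero_mem _
    | zero =>
      have : (fun i => D ((0 : ι → K) i)) = (0 : ι → K) := by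
        funext i; simp
      rw [this]; exact Submodule.zero_mem _
    | add x y _ _ hx hy =>
      have : (fun i => D ((x + y) i)) = (fun i => D (x i)) + (fun i => D (y i)) := by
        funext i; simp
      rw [this]; exact Submodule.add_mem _ hx hy
    | smul a x hx' hx =>
      have : (fun i => D ((a • x) i)) = D a • x + a • (fun i => D (x i)) := by
        funext i
        simp only [Pi.add_apply, Pi.smul_apply, smul_eq_mul, Derivation.leibniz]
        ring
      rw [this]
      exact Submodule.add_mem _ (Submodule.smul_mem _ _ hx') (Submodule.smul_mem _ _ hx)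

end CorOne

theorem cor_one
    (hech : ∀ (K : Type u) [Field K] (ι : Type) [Fintype ι] [DecidableEq ι]
      (W : Submodule K (ι → K)), ∃ B : Set (ι → K), Submodule.span K B = W ∧
        ∀ f : K →+ K, f 1 = 0 → (∀ w ∈ W, (fun i => f (w i)) ∈ W) → ∀ e ∈ B, ∀ i, f (e i) = 0)
    {k K : Type u} [Field k] [Field K] [CharZero k] [Algebra k K]
    (δ : Derivation ℤ k k) (d : Derivation ℤ K K)
    (hd : ∀ a : k, d (algebraMap k K a) = algebraMap k K (δ a))
    (hD : ∀ x : K, (∀ D : Derivation k K K, D x = 0) → ∃ c : k, algebraMap k K c = x)
    {ι : Type} [Fintype ι] [DecidableEq ι] (B : Matrix ι ι k) :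
    SS k (connM δ B) ↔
      ∀ M : Submodule K (ι → K), StM d B M → ∃ M' : Submodule K (ι → K), StM d B M' ∧
        IsCompl M M' := by
  constructor
  · intro hSS M hM
    obtain ⟨W', hW's, hW'c⟩ := hSS (co_con (k := k) M) (co_con_stable δ d hd B M hM)
    refine ⟨extS K W', co_ext_stable δ d hd B W' hW's, ?_⟩
    have hM2 : extS K (co_con (k := k) M) = M := by
      apply le_antisymm
      · refine Submodule.span_le.2 ?_
        rintro _ ⟨u, hu, rfl⟩
        exact hu
      · obtain ⟨S, hS, hf⟩ := hech K ι M
        have hSM : ∀ e ∈ S, e ∈ M := by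
          intro e he
          rw [← hS]; exact Submodule.subset_span he
        rw [← hS]
        refine Submodule.span_le.2 ?_
        intro e he
        have h1 : ∀ i, ∃ c : k, algebraMap k K c = e i := by
          intro i
          apply hD
          intro D
          have h2 := hf (D : K →ₗ[k] K).toAddMonoidHom (by
            show D 1 = 0
            exact D.map_one_eq_zero) (by
            intro w hw
            exact hM.2 D w hw) e he i
          exact h2
        choose c hc using h1
        have h3 : e = fun i => algebraMap k K (c i) := by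
          funext i; exact (hc i).symm
        show e ∈ extS K (co_con (k := k) (Submodule.span K S))
        rw [hS, h3]
        refine co_mem ?_
        rw [co_mem_con, ← h3]
        exact hSM e he
    have h := co_isCompl (K := K) hW'c
    rw [hM2] at h
    exact h
  · intro hR W hW
    obtain ⟨M', hM's, hM'c⟩ := hR (extS K W) (co_ext_stable δ d hd B W hW)
    refine ⟨co_con (k := k) M', co_con_stable δ d hd B M' hM's, ?_⟩
    have hW2 := co_ext_stable δ d hd B W hW
    refine IsCompl.of_eq ?_ ?_
    · rw [eq_bot_iff]
      rintro w ⟨hw1, hw2⟩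
      have h1 : (fun i => algebraMap k K (w i)) ∈ extS K W ⊓ M' := ⟨co_mem hw1, hw2⟩
      rw [hM'c.inf_eq_bot, Submodule.mem_bot] at h1
      rw [Submodule.mem_bot]
      funext i
      have h7 := congrFun h1 i
      simpa using h7
    · rw [eq_top_iff]
      intro v _
      have h1 : (fun i => algebraMap k K (v i)) ∈ extS K W ⊔ M' := by
        rw [hM'c.sup_eq_top]; exact Submodule.mem_top
      obtain ⟨m, hm, m', hm', hmm⟩ := Submodule.mem_sup.1 h1
      have hmi : ∀ i, m i + m' i = algebraMap k K (v i) := fun i => congrFun hmm i
      have hz : ∀ D : Derivation k K K, (∀ i, D (m i) = 0) ∧ ∀ i, D (m' i) = 0 := by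
        intro D
        have h2 := hW2.2 D m hm
        have h3 := hM's.2 D m' hm'
        have h4 : (fun i => D (m i)) = - (fun i => D (m' i)) := by
          funext i
          have h5 : D (m i + m' i) = 0 := by rw [hmi i]; simp
          rw [map_add] at h5
          rw [Pi.neg_apply]
          exact eq_neg_of_add_eq_zero_left h5
        have h6 : (fun i => D (m i)) ∈ extS K W ⊓ M' := by
          refine ⟨h2, ?_⟩
          rw [h4]
          exact M'.neg_mem h3
        rw [hM'c.inf_eq_bot, Submodule.mem_bot] at h6
        refine ⟨fun i => congrFun h6 i, fun i => ?_⟩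
        have h7 := congrFun h4 i
        have h8 : D (m i) = 0 := congrFun h6 i
        simp only [Pi.neg_apply] at h7
        rw [h8] at h7
        exact (neg_eq_zero.1 h7.symm)
      have h8 : ∀ i, ∃ c : k, algebraMap k K c = m i := fun i => hD _ fun D => (hz D).1 i
      have h9 : ∀ i, ∃ c : k, algebraMap k K c = m' i := fun i => hD _ fun D => (hz D).2 i
      choose a ha using h8
      choose b hb using h9
      have ha' : m = fun i => algebraMap k K (a i) := by funext i; exact (ha i).symm
      have hb' : m' = fun i => algebraMap k K (b i) := by funext i; exact (hb i).symm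
      have hv : v = a + b := by
        funext i
        apply (algebraMap k K).injective
        rw [Pi.add_apply, map_add, ha, hb]
        exact (hmi i).symm
      rw [hv]
      refine Submodule.add_mem_sup ?_ ?_
      · rw [ha'] at hm
        exact co_con_ext hm
      · rw [co_mem_con, ← hb']
        exact hm'

end Cb
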