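import Pool.Agent.Helper462.Cb.Defs

namespace Cb

universe u


section CorTwoAux

variable {C K : Type*} [Field C] [Field K] [Algebra C K] {ι : Type*} [Fintype ι] [DecidableEq ι]

theorem ct_gen {U : Submodule C (ι → C)} {u : ι → C} (hu : u ∈ U) :
    (fun i => algebraMap C K (u i)) ∈ extS K U :=
  Submodule.subset_span ⟨u, hu, rfl⟩

theorem ct_mul (M : Matrix ι ι C) (u : ι → C) :
    (M.map (algebraMap C K)).mulVec (fun i => algebraMap C K (u i)) =
      fun i => algebraMap C K (M.mulVec u i) := by
  funext i
  simp [Matrix.mulVec, dotProduct, map_sum]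

theorem ct_proj (U U' : Submodule C (ι → C)) (h : IsCompl U U') :
    ∃ M : Matrix ι ι C, (∀ u ∈ U, M.mulVec u = 0) ∧ (∀ u ∈ U', M.mulVec u = u) := by
  refine ⟨LinearMap.toMatrix' (U'.projection U h.symm), fun u hu => ?_, fun u hu => ?_⟩
  · rw [LinearMap.toMatrix'_mulVec]
    exact (Submodule.projection_apply_eq_zero_iff h.symm).2 hu
  · rw [LinearMap.toMatrix'_mulVec]
    exact Submodule.projection_apply_of_mem_left h.symm hu

theorem ct_kill {U : Submodule C (ι → C)} {M : Matrix ι ι C} (hM : ∀ u ∈ U, M.mulVec u = 0)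
    {w : ι → K} (hw : w ∈ extS K U) : (M.map (algebraMap C K)).mulVec w = 0 := by
  have : extS K U ≤ LinearMap.ker (Matrix.mulVecLin (M.map (algebraMap C K))) := by
    unfold extS
    rw [Submodule.span_le]
    rintro w ⟨u, hu, rfl⟩
    rw [SetLike.mem_coe, LinearMap.mem_ker, Matrix.mulVecLin_apply, ct_mul, hM u hu]
    funext i
    simp
  have h1 := this hw
  rwa [LinearMap.mem_ker, Matrix.mulVecLin_apply] at h1

theorem ct_id {U : Submodule C (ι → C)} {M : Matrix ι ι C} (hM : ∀ u ∈ U, M.mulVec u = u)
    {w : ι → K} (hw : w ∈ extS K U) : (M.map (algebraMap C K)).mulVec w = w := by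
  have : extS K U ≤ LinearMap.eqLocus (Matrix.mulVecLin (M.map (algebraMap C K))) LinearMap.id := by
    unfold extS
    rw [Submodule.span_le]
    rintro w ⟨u, hu, rfl⟩
    rw [SetLike.mem_coe, LinearMap.mem_eqLocus, Matrix.mulVecLin_apply, ct_mul, hM u hu]
    rfl
  have h1 := this hw
  rwa [LinearMap.mem_eqLocus, Matrix.mulVecLin_apply] at h1

theorem ct_inj {u v : ι → C} (h : (fun i => algebraMap C K (u i)) = fun i => algebraMap C K (v i)) :
    u = v := by
  funext i
  exact (algebraMap C K).injective (congrFun h i)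

theorem ct_inter {U : Submodule C (ι → C)} {u : ι → C}
    (hu : (fun i => algebraMap C K (u i)) ∈ extS K U) : u ∈ U := by
  obtain ⟨U', h⟩ := exists_isCompl U
  obtain ⟨M, hM1, hM2⟩ := ct_proj U U' h
  have h1 := ct_kill hM1 hu
  rw [ct_mul] at h1
  have h2 : M.mulVec u = 0 := by
    apply ct_inj (K := K)
    rw [h1]; funext i; simp
  have h3 : u ∈ U ⊔ U' := by rw [h.sup_eq_top]; trivial
  obtain ⟨a, ha, b, hb, rfl⟩ := Submodule.mem_sup.1 h3
  rw [Matrix.mulVec_add, hM1 a ha, hM2 b hb, zero_add] at h2
  rw [h2, add_zero]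
  exact ha

theorem ct_mono {U V : Submodule C (ι → C)} (h : U ≤ V) : extS K U ≤ extS K V := by
  unfold extS
  apply Submodule.span_mono
  rintro w ⟨u, hu, rfl⟩
  exact ⟨u, h hu, rfl⟩

theorem ct_sup (U V : Submodule C (ι → C)) : extS K (U ⊔ V) = extS K U ⊔ extS K V := by
  apply le_antisymm
  · unfold extS
    rw [Submodule.span_le]
    rintro w ⟨u, hu, rfl⟩
    obtain ⟨a, ha, b, hb, rfl⟩ := Submodule.mem_sup.1 hu
    have : (fun i => algebraMap C K ((a + b) i)) = (fun i => algebraMap C K (a i)) +
        fun i => algebraMap C K (b i) := by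
      funext i; simp
    rw [this]
    exact Submodule.add_mem_sup (ct_gen ha) (ct_gen hb)
  · exact sup_le (ct_mono le_sup_left) (ct_mono le_sup_right)

theorem ct_top : extS K (⊤ : Submodule C (ι → C)) = ⊤ := by
  rw [eq_top_iff]
  intro w _
  have : w = ∑ i, w i • (fun j => algebraMap C K ((Pi.single i (1 : C) : ι → C) j)) := by
    funext j
    simp only [Finset.sum_apply, Pi.smul_apply, smul_eq_mul]
    rw [Finset.sum_eq_single j]
    · simp
    · intro i _ hij
      rw [Pi.single_eq_of_ne (Ne.symm hij)]; simp
    · intro h; exact absurd (Finset.mem_univ _) h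
  rw [this]
  exact Submodule.sum_mem _ fun i _ => Submodule.smul_mem _ _ (ct_gen trivial)

theorem ct_compl {U U' : Submodule C (ι → C)} : IsCompl (extS K U) (extS K U') ↔ IsCompl U U' := by
  constructor
  · intro h
    constructor
    · rw [Submodule.disjoint_def]
      intro x hx hx'
      have := Submodule.disjoint_def.1 h.disjoint _ (ct_gen (K := K) hx) (ct_gen hx')
      apply ct_inj (K := K)
      rw [this]; funext i; simp
    · rw [codisjoint_iff, eq_top_iff]
      intro u _
      apply ct_inter (K := K)
      rw [ct_sup, h.sup_eq_top]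
      trivial
  · intro h
    obtain ⟨M, hM1, hM2⟩ := ct_proj U U' h
    constructor
    · rw [Submodule.disjoint_def]
      intro x hx hx'
      rw [← ct_id hM2 hx', ct_kill hM1 hx]
    · rw [codisjoint_iff, ← ct_sup, h.sup_eq_top, ct_top]

end CorTwoAux

theorem cor_two
    (hech : ∀ (K : Type u) [Field K] (ι : Type) [Fintype ι] [DecidableEq ι]
      (W : Submodule K (ι → K)), ∃ B : Set (ι → K), Submodule.span K B = W ∧
        ∀ f : K →+ K, f 1 = 0 → (∀ w ∈ W, (fun i => f (w i)) ∈ W) → ∀ e ∈ B, ∀ i, f (e i) = 0)
    {C k K : Type u} [Field C] [Field k] [Field K] [CharZero k] [Algebra C k] [Algebra k K]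
    [Algebra C K] [IsScalarTower C k K] (d : Derivation ℤ K K)
    (hC : ∀ x : K, d x = 0 ↔ ∃ c : C, algebraMap C K c = x)
    {ι : Type} [Fintype ι] [DecidableEq ι] (B : Matrix ι ι k)
    (P Q : Matrix ι ι K) (hPQ : P * Q = 1) (hQP : Q * P = 1)
    (hP : ∀ i j, d (P i j) = - ∑ l, algebraMap k K (B i l) * P l j) :
    (∀ M : Submodule K (ι → K), StM d B M → ∃ M' : Submodule K (ι → K), StM d B M' ∧
        IsCompl M M') ↔
      ∀ U : Submodule C (ι → C), StU k P Q U → ∃ U' : Submodule C (ι → C), StU k P Q U' ∧
        IsCompl U U' := by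
  -- the linear equivalence given by `P`
  set Φ : (ι → K) ≃ₗ[K] (ι → K) := LinearEquiv.ofLinearMap (Matrix.mulVecLin P) (Matrix.mulVecLin Q)
    (by rw [← Matrix.mulVecLin_mul, hPQ, Matrix.mulVecLin_one])
    (by rw [← Matrix.mulVecLin_mul, hQP, Matrix.mulVecLin_one]) with hΦ
  have hΦa : ∀ u, Φ u = P.mulVec u := fun u => rfl
  have hPQv : ∀ u, P.mulVec (Q.mulVec u) = u := by
    intro u; rw [Matrix.mulVec_mulVec, hPQ, Matrix.one_mulVec]
  -- connection formula
  have hconn : ∀ u : ι → K, connM d (B.map (algebraMap k K)) (P.mulVec u) =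
      P.mulVec (fun i => d (u i)) := by
    intro u
    funext i
    simp only [connM, Matrix.mulVec, dotProduct, Matrix.map_apply]
    rw [map_sum]
    have h1 : ∀ j, d (P i j * u j) = P i j * d (u j) - u j * ∑ l, algebraMap k K (B i l) * P l j := by
      intro j
      rw [Derivation.leibniz, hP i j, smul_eq_mul, smul_eq_mul]; ring
    rw [Finset.sum_congr rfl fun j _ => h1 j, Finset.sum_sub_distrib]
    have h2 : ∑ j, u j * ∑ l, algebraMap k K (B i l) * P l j =
        ∑ l, algebraMap k K (B i l) * ∑ j, P l j * u j := by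
      simp only [Finset.mul_sum]
      rw [Finset.sum_comm]
      refine Finset.sum_congr rfl fun l _ => Finset.sum_congr rfl fun j _ => by ring
    rw [h2]; ring
  have hder : ∀ (D : Derivation k K K) (u : ι → K), (fun i => D (P.mulVec u i)) =
      P.mulVec ((fun i => D (u i)) + (ld P Q D).mulVec u) := by
    intro D u
    rw [Matrix.mulVec_add, ld, ← Matrix.mulVec_mulVec, hPQv]
    funext i
    simp only [Matrix.mulVec, dotProduct, Matrix.map_apply, Pi.add_apply]
    rw [map_sum, ← Finset.sum_add_distrib]
    refine Finset.sum_congr rfl fun j _ => ?_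
    rw [Derivation.leibniz, smul_eq_mul, smul_eq_mul]; ring
  -- translation of `StM`
  have hSt : ∀ W : Submodule K (ι → K), StM d B (W.map (Φ : (ι → K) →ₗ[K] (ι → K))) ↔
      (∀ w ∈ W, (fun i => d (w i)) ∈ W) ∧
      ∀ D : Derivation k K K, ∀ w ∈ W, (fun i => D (w i)) + (ld P Q D).mulVec w ∈ W := by
    intro W
    have hm : ∀ u, P.mulVec u ∈ W.map (Φ : (ι → K) →ₗ[K] (ι → K)) ↔ u ∈ W := by
      intro u
      constructor
      · rintro ⟨v, hv, he⟩
        have : v = u := Φ.injective he
        rwa [← this]
      · intro hu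
        exact ⟨u, hu, rfl⟩
    constructor
    · rintro ⟨h1, h2⟩
      refine ⟨fun w hw => ?_, fun D w hw => ?_⟩
      · have := h1 _ ((hm w).2 hw)
        rw [hconn] at this
        exact (hm _).1 this
      · have := h2 D _ ((hm w).2 hw)
        rw [hder] at this
        exact (hm _).1 this
    · rintro ⟨h1, h2⟩
      refine ⟨?_, ?_⟩
      · rintro m ⟨w, hw, rfl⟩
        show connM d (B.map (algebraMap k K)) (P.mulVec w) ∈ _
        rw [hconn]
        exact (hm _).2 (h1 w hw)
      · rintro D m ⟨w, hw, rfl⟩
        show (fun i => D (P.mulVec w i)) ∈ _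
        rw [hder]
        exact (hm _).2 (h2 D w hw)
  have hDC : ∀ (D : Derivation k K K) (c : C), D (algebraMap C K c) = 0 := by
    intro D c
    rw [IsScalarTower.algebraMap_apply C k K]
    exact D.map_algebraMap _
  have hdC : ∀ c : C, d (algebraMap C K c) = 0 := fun c => (hC _).2 ⟨c, rfl⟩
  -- from `U` to `M`
  have hG : ∀ U : Submodule C (ι → C), StU k P Q U →
      StM d B ((extS K U).map (Φ : (ι → K) →ₗ[K] (ι → K))) := by
    intro U hU
    rw [hSt]
    constructor
    · intro w hw
      unfold extS at hw
      induction hw using Submodule.span_induction with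
      | mem x hx =>
        obtain ⟨u, hu, rfl⟩ := hx
        have : (fun i => d (algebraMap C K (u i))) = 0 := by funext i; exact hdC _
        rw [this]; exact Submodule.zero_mem _
      | zero =>
        have : (fun i => d ((0 : ι → K) i)) = 0 := by funext i; simp
        rw [this]; exact Submodule.zero_mem _
      | add x y hx hy h1 h2 =>
        have : (fun i => d ((x + y) i)) = (fun i => d (x i)) + fun i => d (y i) := by
          funext i; simp
        rw [this]; exact Submodule.add_mem _ h1 h2
      | smul a x hx h1 =>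
        have : (fun i => d ((a • x) i)) = a • (fun i => d (x i)) + d a • x := by
          funext i
          simp only [Pi.smul_apply, Pi.add_apply, smul_eq_mul]
          rw [Derivation.leibniz, smul_eq_mul, smul_eq_mul]; ring
        rw [this]
        exact Submodule.add_mem _ (Submodule.smul_mem _ _ h1) (Submodule.smul_mem _ _ hx)
    · intro D w hw
      unfold extS at hw
      induction hw using Submodule.span_induction with
      | mem x hx =>
        obtain ⟨u, hu, rfl⟩ := hx
        have : (fun i => D (algebraMap C K (u i))) = 0 := by funext i; exact hDC _ _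
        rw [this, zero_add]; exact hU D u hu
      | zero =>
        have : (fun i => D ((0 : ι → K) i)) = 0 := by funext i; simp
        rw [this, Matrix.mulVec_zero, add_zero]; exact Submodule.zero_mem _
      | add x y hx hy h1 h2 =>
        have : (fun i => D ((x + y) i)) + (ld P Q D).mulVec (x + y) =
            ((fun i => D (x i)) + (ld P Q D).mulVec x) + ((fun i => D (y i)) + (ld P Q D).mulVec y) := by
          rw [Matrix.mulVec_add]
          funext i
          simp only [Pi.add_apply, map_add]
          ring
        rw [this]; exact Submodule.add_mem _ h1 h2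
      | smul a x hx h1 =>
        have : (fun i => D ((a • x) i)) + (ld P Q D).mulVec (a • x) =
            a • ((fun i => D (x i)) + (ld P Q D).mulVec x) + D a • x := by
          rw [Matrix.mulVec_smul]
          funext i
          simp only [Pi.smul_apply, Pi.add_apply, smul_eq_mul]
          rw [Derivation.leibniz, smul_eq_mul, smul_eq_mul]; ring
        rw [this]
        exact Submodule.add_mem _ (Submodule.smul_mem _ _ h1) (Submodule.smul_mem _ _ hx)
  -- from `M` to `U`
  have hF : ∀ M : Submodule K (ι → K), StM d B M → ∃ U : Submodule C (ι → C), StU k P Q U ∧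
      M = (extS K U).map (Φ : (ι → K) →ₗ[K] (ι → K)) := by
    intro M hM
    set W : Submodule K (ι → K) := M.comap (Φ : (ι → K) →ₗ[K] (ι → K)) with hW
    have hMW : M = W.map (Φ : (ι → K) →ₗ[K] (ι → K)) := by
      rw [hW, Submodule.map_comap_eq_of_surjective Φ.surjective]
    rw [hMW, hSt] at hM
    let U : Submodule C (ι → C) :=
      { carrier := {u | (fun i => algebraMap C K (u i)) ∈ W}
        add_mem' := by
          intro a b ha hb
          have : (fun i => algebraMap C K ((a + b) i)) = (fun i => algebraMap C K (a i)) +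
              fun i => algebraMap C K (b i) := by funext i; simp
          show (fun i => algebraMap C K ((a + b) i)) ∈ W
          rw [this]; exact W.add_mem ha hb
        zero_mem' := by
          have : (fun i => algebraMap C K ((0 : ι → C) i)) = 0 := by funext i; simp
          show (fun i => algebraMap C K ((0 : ι → C) i)) ∈ W
          rw [this]; exact W.zero_mem
        smul_mem' := by
          intro c a ha
          have : (fun i => algebraMap C K ((c • a) i)) = algebraMap C K c •
              fun i => algebraMap C K (a i) := by funext i; simp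
          show (fun i => algebraMap C K ((c • a) i)) ∈ W
          rw [this]; exact W.smul_mem _ ha }
    have hle : extS K U ≤ W := by
      unfold extS
      rw [Submodule.span_le]
      rintro w ⟨u, hu, rfl⟩
      exact hu
    have hge : W ≤ extS K U := by
      obtain ⟨B0, hB0, hB1⟩ := hech K ι W
      have h2 := hB1 (AddMonoidHomClass.toAddMonoidHom d) (by simp) (fun w hw => hM.1 w hw)
      rw [← hB0, Submodule.span_le]
      intro e he
      have h3 : ∀ i, ∃ c : C, algebraMap C K c = e i := fun i => (hC _).1 (h2 e he i)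
      choose c hc using h3
      have h4 : e = fun i => algebraMap C K (c i) := by funext i; exact (hc i).symm
      rw [h4]
      apply ct_gen
      show (fun i => algebraMap C K (c i)) ∈ W
      rw [← h4, ← hB0]
      exact Submodule.subset_span he
    have hWU : W = extS K U := le_antisymm hge hle
    refine ⟨U, ?_, by rw [← hWU]; exact hMW⟩
    intro D u hu
    rw [← hWU]
    have h5 := hM.2 D _ (show (fun i => algebraMap C K (u i)) ∈ W from hu)
    have : (fun i => D (algebraMap C K (u i))) = 0 := by funext i; exact hDC _ _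
    rwa [this, zero_add] at h5
  have hcompl : ∀ W W' : Submodule K (ι → K), IsCompl (W.map (Φ : (ι → K) →ₗ[K] (ι → K)))
      (W'.map (Φ : (ι → K) →ₗ[K] (ι → K))) ↔ IsCompl W W' := by
    intro W W'
    exact ((Submodule.orderIsoMapComap Φ).isCompl_iff (x := W) (y := W')).symm
  constructor
  · intro h U hU
    obtain ⟨M', hM', hc⟩ := h _ (hG U hU)
    obtain ⟨U', hU', rfl⟩ := hF M' hM'
    exact ⟨U', hU', ct_compl.1 ((hcompl _ _).1 hc)⟩
  · intro h M hM
    obtain ⟨U, hU, rfl⟩ := hF M hM
    obtain ⟨U', hU', hc⟩ := h U hU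
    exact ⟨_, hG U' hU', (hcompl _ _).2 (ct_compl.2 hc)⟩

end Cb
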