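import Pool.Agent.Helper462.Cb.Defs

namespace Cb

universe u


section ElemLemmas

open Matrix

theorem extS_inter {C K : Type*} [Field C] [Field K] [Algebra C K] {κ : Type*} [Fintype κ]
    (U : Submodule C (κ → C)) (v : κ → C)
    (hv : (fun i => algebraMap C K (v i)) ∈ extS K U) : v ∈ U := by
  classical
  by_contra hvU
  obtain ⟨φ, hφv, hφU⟩ := Submodule.exists_le_ker_of_notMem hvU
  let ψ : (κ → K) →ₗ[K] K :=
    ∑ i, algebraMap C K (φ (fun j => if i = j then 1 else 0)) • LinearMap.proj i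
  have hψ : ∀ u : κ → C, ψ (fun i => algebraMap C K (u i)) = algebraMap C K (φ u) := by
    intro u
    have h1 : ψ (fun i => algebraMap C K (u i)) =
        ∑ i, algebraMap C K (φ (fun j => if i = j then 1 else 0)) * algebraMap C K (u i) := by
      simp only [ψ, LinearMap.sum_apply, LinearMap.smul_apply, LinearMap.proj_apply, smul_eq_mul]
    rw [h1, LinearMap.pi_apply_eq_sum_univ φ u, map_sum]
    refine Finset.sum_congr rfl fun i _ => ?_
    rw [smul_eq_mul, map_mul, mul_comm]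
  have h3 : extS K U ≤ LinearMap.ker ψ := by
    unfold extS
    rw [Submodule.span_le]
    rintro w ⟨u, hu, rfl⟩
    change ψ _ = 0
    rw [hψ]
    have : φ u = 0 := hφU hu
    rw [this, map_zero]
  have h4 : ψ _ = 0 := h3 hv
  rw [hψ] at h4
  exact hφv ((map_eq_zero _).1 h4)

theorem map_mulVec' {C K : Type*} [Field C] [Field K] [Algebra C K] {κ : Type*} [Fintype κ]
    (z : Matrix κ κ C) (u : κ → C) :
    (z.map (algebraMap C K)).mulVec (fun i => algebraMap C K (u i)) =
      fun i => algebraMap C K (z.mulVec u i) := by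
  funext i
  simp [Matrix.mulVec, dotProduct]

theorem stab_iff {C K : Type*} [Field C] [Field K] [Algebra C K] {κ : Type*} [Fintype κ]
    (Y : Set (Matrix κ κ K)) (h : Set (Matrix κ κ C))
    (hspan : Submodule.span K {Z : Matrix κ κ K | ∃ x ∈ h, Z = x.map (algebraMap C K)} =
      Submodule.span K Y) (U : Submodule C (κ → C)) :
    (∀ y ∈ Y, ∀ u ∈ U, y.mulVec (fun i => algebraMap C K (u i)) ∈ extS K U) ↔
      ∀ z ∈ h, ∀ u ∈ U, z.mulVec u ∈ U := by
  let S : Submodule K (Matrix κ κ K) :=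
    { carrier := {M | ∀ u ∈ U, M.mulVec (fun i => algebraMap C K (u i)) ∈ extS K U}
      add_mem' := by
        intro a b ha hb u hu
        rw [Matrix.add_mulVec]
        exact Submodule.add_mem _ (ha u hu) (hb u hu)
      zero_mem' := by
        intro u hu
        rw [Matrix.zero_mulVec]
        exact Submodule.zero_mem _
      smul_mem' := by
        intro c a ha u hu
        rw [Matrix.smul_mulVec]
        exact Submodule.smul_mem _ _ (ha u hu) }
  have hS : ∀ M, M ∈ S ↔ ∀ u ∈ U, M.mulVec (fun i => algebraMap C K (u i)) ∈ extS K U :=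
    fun M => Iff.rfl
  have h1 : (∀ y ∈ Y, ∀ u ∈ U, y.mulVec (fun i => algebraMap C K (u i)) ∈ extS K U) ↔
      Submodule.span K Y ≤ S := by
    rw [Submodule.span_le]
    exact Iff.rfl
  rw [h1, ← hspan, Submodule.span_le]
  constructor
  · intro h2 z hz u hu
    have h3 := h2 ⟨z, hz, rfl⟩ u hu
    rw [map_mulVec'] at h3
    exact extS_inter U _ h3
  · rintro h2 _ ⟨z, hz, rfl⟩ u hu
    rw [map_mulVec']
    exact Submodule.subset_span ⟨_, h2 z hz u hu, rfl⟩

theorem adM_eq {k : Type*} [Field k] {ι : Type*} [Fintype ι] [DecidableEq ι] (A : Matrix ι ι k) :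
    adM A = kroneckerMap (· * ·) A 1 - kroneckerMap (· * ·) (1 : Matrix ι ι k) Aᵀ := by
  ext ⟨i, j⟩ ⟨p, q⟩
  simp only [adM, Matrix.sub_apply, kroneckerMap_apply, Matrix.one_apply, transpose_apply]
  by_cases h1 : j = q <;> by_cases h2 : i = p <;> simp [h1, h2]

theorem adM_map {k K : Type*} [Field k] [Field K] {ι : Type*} [Fintype ι] [DecidableEq ι]
    (f : k →+* K) (A : Matrix ι ι k) : (adM A).map f = adM (A.map f) := by
  ext ⟨i, j⟩ ⟨p, q⟩
  simp only [adM, map_apply, map_sub]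
  congr 1
  · split_ifs <;> simp
  · split_ifs <;> simp

/-- `adM` as a linear map -/
def adL (K : Type*) [Field K] (ι : Type*) [Fintype ι] [DecidableEq ι] :
    Matrix ι ι K →ₗ[K] Matrix (ι × ι) (ι × ι) K where
  toFun := adM
  map_add' := by
    intro a b
    ext ⟨i, j⟩ ⟨p, q⟩
    simp only [adM, Matrix.add_apply]
    split_ifs <;> ring
  map_smul' := by
    intro c a
    ext ⟨i, j⟩ ⟨p, q⟩
    simp only [adM, Matrix.smul_apply, RingHom.id_apply, smul_eq_mul]
    split_ifs <;> ring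

end ElemLemmas

section DerLemmas

open Matrix
open scoped Kronecker

set_option linter.unusedSectionVars false

variable {K : Type*} [Field K] {ι : Type*} [Fintype ι] [DecidableEq ι]

theorem der_mul (F : K →+ K) (hL : ∀ a b, F (a * b) = F a * b + a * F b) (M N : Matrix ι ι K) :
    (M * N).map F = M.map F * N + M * N.map F := by
  ext i j
  simp only [Matrix.map_apply, Matrix.mul_apply, Matrix.add_apply, map_sum, hL,
    Finset.sum_add_distrib]

theorem der_kron (F : K →+ K) (hL : ∀ a b, F (a * b) = F a * b + a * F b)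
    (M N : Matrix ι ι K) :
    (M ⊗ₖ N).map F = M.map F ⊗ₖ N + M ⊗ₖ N.map F := by
  ext ⟨i, j⟩ ⟨p, q⟩
  simp only [Matrix.map_apply, kroneckerMap_apply, Matrix.add_apply, hL]

theorem der_one (F : K →+ K) (hL : ∀ a b, F (a * b) = F a * b + a * F b) :
    (1 : Matrix ι ι K).map F = 0 := by
  have h1 : F 1 = 0 := by
    have := hL 1 1
    simp only [mul_one, one_mul] at this
    simpa using this
  ext i j
  simp only [Matrix.map_apply, Matrix.one_apply, Matrix.zero_apply]
  split_ifs <;> simp [h1]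

theorem der_inv (F : K →+ K) (hL : ∀ a b, F (a * b) = F a * b + a * F b) {P Q : Matrix ι ι K}
    (hPQ : P * Q = 1) (hQP : Q * P = 1) : Q.map F = -(Q * P.map F * Q) := by
  have h1 := der_mul F hL P Q
  rw [hPQ, der_one F hL] at h1
  have h2 : Q * (P.map F * Q + P * Q.map F) = 0 := by rw [← h1, Matrix.mul_zero]
  rw [Matrix.mul_add, ← Matrix.mul_assoc, ← Matrix.mul_assoc, hQP, Matrix.one_mul] at h2
  exact eq_neg_of_add_eq_zero_right h2

theorem der_ld (F : K →+ K) (hL : ∀ a b, F (a * b) = F a * b + a * F b) {P Q : Matrix ι ι K}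
    (hPQ : P * Q = 1) (hQP : Q * P = 1) :
    (Q ⊗ₖ Pᵀ) * (P ⊗ₖ Qᵀ).map F = adM (Q * P.map F) := by
  have ht : (Qᵀ).map F = (Q.map F)ᵀ := rfl
  rw [der_kron F hL, ht, Matrix.mul_add, ← mul_kronecker_mul, ← mul_kronecker_mul, hQP,
    ← Matrix.transpose_mul, ← Matrix.transpose_mul, hQP, der_inv F hL hPQ hQP, adM_eq,
    Matrix.neg_mul, Matrix.mul_assoc, Matrix.mul_assoc, hQP, Matrix.mul_one,
    Matrix.transpose_neg, Matrix.transpose_one, sub_eq_add_neg]
  congr 1
  ext ⟨i, j⟩ ⟨p, q⟩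
  simp [kroneckerMap_apply]

theorem der_P2 (F : K →+ K) (hL : ∀ a b, F (a * b) = F a * b + a * F b) {P Q A : Matrix ι ι K}
    (hPQ : P * Q = 1) (hQP : Q * P = 1) (hP : P.map F = -(A * P)) :
    (P ⊗ₖ Qᵀ).map F = -(adM A * (P ⊗ₖ Qᵀ)) := by
  have ht : (Qᵀ).map F = (Q.map F)ᵀ := rfl
  have hQ : Q.map F = Q * A := by
    rw [der_inv F hL hPQ hQP, hP, Matrix.mul_neg, Matrix.neg_mul, neg_neg, Matrix.mul_assoc,
      Matrix.mul_assoc, hPQ, Matrix.mul_one]
  rw [der_kron F hL, ht, hQ, hP, adM_eq, Matrix.sub_mul, ← mul_kronecker_mul,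
    ← mul_kronecker_mul, Matrix.one_mul, Matrix.one_mul, Matrix.transpose_mul]
  ext ⟨i, j⟩ ⟨p, q⟩
  simp [kroneckerMap_apply]
  ring

end DerLemmas

section CoreThm

open Matrix
open scoped Kronecker

theorem core {C k K : Type u} [Field C] [Field k] [Field K] [Algebra C K] [Algebra k K]
    (δ : Derivation ℤ k k) (d : Derivation ℤ K K)
    (hcor : ∀ {ι : Type} [Fintype ι] [DecidableEq ι] (B : Matrix ι ι k)
      (P Q : Matrix ι ι K), P * Q = 1 → Q * P = 1 →
      (∀ i j, d (P i j) = - ∑ l, algebraMap k K (B i l) * P l j) →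
      (SS k (connM δ B) ↔
        ∀ U : Submodule C (ι → C), StU k P Q U → ∃ U' : Submodule C (ι → C), StU k P Q U' ∧
          IsCompl U U'))
    {ι : Type} [Fintype ι] [DecidableEq ι] (A : Matrix ι ι k)
    (P Q : Matrix ι ι K) (hPQ : P * Q = 1) (hQP : Q * P = 1)
    (hdP : ∀ i j, d (P i j) = - ∑ l, algebraMap k K (A i l) * P l j)
    (g : Submodule C (Matrix ι ι C))
    (hspan : Submodule.span K {Z : Matrix ι ι K | ∃ x ∈ g, Z = x.map (algebraMap C K)} =
          Submodule.span K {Z : Matrix ι ι K | ∃ D : Derivation k K K, Z = ld P Q D})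
    (hlie : (∀ U : Submodule C (ι → C), (∀ x ∈ g, ∀ u ∈ U, x.mulVec u ∈ U) →
        ∃ U' : Submodule C (ι → C), (∀ x ∈ g, ∀ u ∈ U', x.mulVec u ∈ U') ∧ IsCompl U U') →
      ∀ U : Submodule C (ι × ι → C), (∀ x ∈ g, ∀ u ∈ U, (adM x).mulVec u ∈ U) →
        ∃ U' : Submodule C (ι × ι → C), (∀ x ∈ g, ∀ u ∈ U', (adM x).mulVec u ∈ U') ∧
          IsCompl U U')
    (hA : SS k (connM δ A)) : SS k (connM δ (adM A)) := by
  have hst : ∀ U : Submodule C (ι → C), StU k P Q U ↔ ∀ x ∈ g, ∀ u ∈ U, x.mulVec u ∈ U := by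
    intro U
    have h1 := stab_iff (C := C) (K := K) {Z : Matrix ι ι K | ∃ D : Derivation k K K, Z = ld P Q D}
      (g : Set (Matrix ι ι C)) hspan U
    have h2 : StU k P Q U ↔ ∀ y ∈ {Z : Matrix ι ι K | ∃ D : Derivation k K K, Z = ld P Q D},
        ∀ u ∈ U, y.mulVec (fun i => algebraMap C K (u i)) ∈ extS K U := by
      constructor
      · rintro h _ ⟨D, rfl⟩ u hu
        exact h D u hu
      · intro h D u hu
        exact h _ ⟨D, rfl⟩ u hu
    exact h2.trans h1
  have hss1 : ∀ U : Submodule C (ι → C), (∀ x ∈ g, ∀ u ∈ U, x.mulVec u ∈ U) →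
        ∃ U' : Submodule C (ι → C), (∀ x ∈ g, ∀ u ∈ U', x.mulVec u ∈ U') ∧ IsCompl U U' := by
    intro U hU
    obtain ⟨U', h1, h2⟩ := (hcor A P Q hPQ hQP hdP).1 hA U ((hst U).2 hU)
    exact ⟨U', (hst U').1 h1, h2⟩
  have hss2 := hlie hss1
  -- the second solution
  have hLd : ∀ a b, (d : K →ₗ[ℤ] K).toAddMonoidHom (a * b) =
      (d : K →ₗ[ℤ] K).toAddMonoidHom a * b + a * (d : K →ₗ[ℤ] K).toAddMonoidHom b := by
    intro a b
    change d (a * b) = d a * b + a * d b
    rw [d.leibniz]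
    simp only [smul_eq_mul]
    ring
  have hP2 : (P ⊗ₖ Qᵀ) * (Q ⊗ₖ Pᵀ) = 1 := by
    rw [← mul_kronecker_mul, hPQ, ← Matrix.transpose_mul, hPQ, Matrix.transpose_one,
      one_kronecker_one]
  have hQ2 : (Q ⊗ₖ Pᵀ) * (P ⊗ₖ Qᵀ) = 1 := by
    rw [← mul_kronecker_mul, hQP, ← Matrix.transpose_mul, hQP, Matrix.transpose_one,
      one_kronecker_one]
  have hdP' : P.map (d : K →ₗ[ℤ] K).toAddMonoidHom = -(A.map (algebraMap k K) * P) := by
    ext i j
    change d (P i j) = _
    rw [hdP]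
    simp [Matrix.mul_apply]
  have hd2 := der_P2 _ hLd hPQ hQP hdP'
  have hd2' : ∀ i j, d ((P ⊗ₖ Qᵀ) i j) =
      - ∑ l, algebraMap k K (adM A i l) * (P ⊗ₖ Qᵀ) l j := by
    intro i j
    have h3 := congrFun (congrFun hd2 i) j
    rw [← adM_map] at h3
    change d ((P ⊗ₖ Qᵀ) i j) = _ at h3
    rw [h3, Matrix.neg_apply, Matrix.mul_apply]
    simp only [Matrix.map_apply]
  rw [hcor (adM A) (P ⊗ₖ Qᵀ) (Q ⊗ₖ Pᵀ) hP2 hQ2 hd2']
  have hld : ∀ D : Derivation k K K, ld (P ⊗ₖ Qᵀ) (Q ⊗ₖ Pᵀ) D = adM (ld P Q D) := by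
    intro D
    have hLD : ∀ a b, (D : K →ₗ[k] K).toAddMonoidHom (a * b) =
        (D : K →ₗ[k] K).toAddMonoidHom a * b + a * (D : K →ₗ[k] K).toAddMonoidHom b := by
      intro a b
      change D (a * b) = D a * b + a * D b
      rw [D.leibniz]
      simp only [smul_eq_mul]
      ring
    exact der_ld _ hLD hPQ hQP
  have hspan2 : Submodule.span K {Z : Matrix (ι × ι) (ι × ι) K |
      ∃ x ∈ {y : Matrix (ι × ι) (ι × ι) C | ∃ x ∈ g, y = adM x}, Z = x.map (algebraMap C K)} =
      Submodule.span K {Z | ∃ D : Derivation k K K, Z = ld (P ⊗ₖ Qᵀ) (Q ⊗ₖ Pᵀ) D} := by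
    have h4 := congrArg (Submodule.map (adL K ι)) hspan
    rw [Submodule.map_span, Submodule.map_span] at h4
    convert h4 using 2
    · ext Z
      constructor
      · rintro ⟨_, ⟨x, hx, rfl⟩, rfl⟩
        refine ⟨_, ⟨x, hx, rfl⟩, ?_⟩
        exact (adM_map _ _).symm
      · rintro ⟨_, ⟨x, hx, rfl⟩, rfl⟩
        refine ⟨_, ⟨x, hx, rfl⟩, ?_⟩
        exact (adM_map _ _).symm
    · ext Z
      constructor
      · rintro ⟨D, rfl⟩
        exact ⟨_, ⟨D, rfl⟩, (hld D).symm⟩
      · rintro ⟨_, ⟨D, rfl⟩, rfl⟩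
        exact ⟨D, (hld D).symm⟩
  have hst2 : ∀ U : Submodule C (ι × ι → C), StU k (P ⊗ₖ Qᵀ) (Q ⊗ₖ Pᵀ) U ↔
      ∀ x ∈ g, ∀ u ∈ U, (adM x).mulVec u ∈ U := by
    intro U
    have h1 := stab_iff (C := C) (K := K) _ _ hspan2 U
    have h2 : StU k (P ⊗ₖ Qᵀ) (Q ⊗ₖ Pᵀ) U ↔
        ∀ y ∈ {Z | ∃ D : Derivation k K K, Z = ld (P ⊗ₖ Qᵀ) (Q ⊗ₖ Pᵀ) D},
        ∀ u ∈ U, y.mulVec (fun i => algebraMap C K (u i)) ∈ extS K U := by
      constructor
      · rintro h _ ⟨D, rfl⟩ u hu
        exact h D u hu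
      · intro h D u hu
        exact h _ ⟨D, rfl⟩ u hu
    refine (h2.trans h1).trans ?_
    constructor
    · intro h x hx u hu
      exact h _ ⟨x, hx, rfl⟩ u hu
    · rintro h _ ⟨x, hx, rfl⟩ u hu
      exact h x hx u hu
  intro U hU
  obtain ⟨U', h5, h6⟩ := hss2 U ((hst2 U).1 hU)
  exact ⟨U', (hst2 U').2 h5, h6⟩

end CoreThm

section CstPart

/-- the field of constants -/
def Cst {k : Type*} [Field k] (δ : Derivation ℤ k k) : Subfield k where
  carrier := {a | δ a = 0}
  mul_mem' := by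
    intro a b ha hb
    simp only [Set.mem_ofPred_eq] at *
    rw [δ.leibniz, ha, hb]
    simp
  one_mem' := δ.map_one_eq_zero
  add_mem' := by
    intro a b ha hb
    simp only [Set.mem_ofPred_eq] at *
    rw [map_add, ha, hb, add_zero]
  zero_mem' := map_zero δ
  neg_mem' := by
    intro a ha
    simp only [Set.mem_ofPred_eq] at *
    rw [map_neg, ha, neg_zero]
  inv_mem' := by
    intro a ha
    simp only [Set.mem_ofPred_eq] at *
    rw [δ.leibniz_inv, ha, smul_zero]

theorem cst_closed {k : Type*} [Field k] [CharZero k] [IsAlgClosed k] (δ : Derivation ℤ k k) :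
    IsAlgClosed (Cst δ) := by
  have : CharZero (Cst δ) := by
    refine charZero_of_injective_algebraMap (R := ℚ) ?_
    exact (algebraMap ℚ (Cst δ)).injective
  apply IsAlgClosed.of_exists_root
  intro p hm hirr
  have hdeg : (p.map (algebraMap (Cst δ) k)).degree ≠ 0 := by
    rw [Polynomial.degree_map]
    exact (Polynomial.degree_pos_of_irreducible hirr).ne'
  obtain ⟨r, hr⟩ := IsAlgClosed.exists_root (p.map (algebraMap (Cst δ) k)) hdeg
  have hr' : Polynomial.aeval r p = 0 := by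
    rw [Polynomial.IsRoot, Polynomial.eval_map_algebraMap] at hr
    exact hr
  let δC : Derivation (Cst δ) k k :=
    { toFun := δ
      map_add' := map_add δ
      map_smul' := by
        intro c a
        have hc : δ (c : k) = 0 := c.2
        change δ ((c : k) * a) = (c : k) * δ a
        rw [δ.leibniz, hc]
        simp
      map_one_eq_zero' := δ.map_one_eq_zero
      leibniz' := δ.leibniz }
  have h1 : δC (Polynomial.aeval r p) =
      Polynomial.aeval r (Polynomial.derivative p) • δC r := δC.map_aeval p r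
  rw [hr', map_zero] at h1
  have h2 : Polynomial.aeval r (Polynomial.derivative p) ≠ 0 :=
    (hirr.separable).aeval_derivative_ne_zero hr'
  have h3 : δ r = 0 := by
    rcases smul_eq_zero.1 h1.symm with h | h
    · exact absurd h h2
    · exact h
  refine ⟨⟨r, h3⟩, ?_⟩
  apply (algebraMap (Cst δ) k).injective
  rw [map_zero, ← hr']
  exact (Polynomial.aeval_algebraMap_apply_eq_algebraMap_eval (⟨r, h3⟩ : Cst δ) p).symm

end CstPart

/-- the setting: fields `C ⊆ k ⊆ K` -/
theorem chev_closed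
    (hpv : ∀ {k : Type u} [Field k] [CharZero k] [IsAlgClosed k] (δ : Derivation ℤ k k)
      {ι : Type} [Fintype ι] [DecidableEq ι] (A : Matrix ι ι k),
      ∃ (K : Type u) (_ : Field K) (_ : Algebra k K) (d : Derivation ℤ K K) (X Y : Matrix ι ι K),
        (∀ a : k, d (algebraMap k K a) = algebraMap k K (δ a)) ∧ X * Y = 1 ∧ Y * X = 1 ∧
        (∀ i j, d (X i j) = - ∑ l, algebraMap k K (A i l) * X l j) ∧
        ∀ x : K, d x = 0 → ∃ c : k, algebraMap k K c = x)
    (hder : ∀ {k K : Type u} [Field k] [Field K] [CharZero k] [Algebra k K]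
      (x : K), Transcendental k x → ∃ D : Derivation k K K, D x ≠ 0)
    (hcor : ∀ {C k K : Type u} [Field C] [Field k] [Field K] [CharZero k] [Algebra C k]
      [Algebra k K] [Algebra C K] [IsScalarTower C k K] (δ : Derivation ℤ k k)
      (d : Derivation ℤ K K), (∀ a : k, d (algebraMap k K a) = algebraMap k K (δ a)) →
      (∀ x : K, d x = 0 ↔ ∃ c : C, algebraMap C K c = x) →
      (∀ x : K, (∀ D : Derivation k K K, D x = 0) → ∃ c : k, algebraMap k K c = x) →
      ∀ {ι : Type} [Fintype ι] [DecidableEq ι] (B : Matrix ι ι k)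
      (P Q : Matrix ι ι K), P * Q = 1 → Q * P = 1 →
      (∀ i j, d (P i j) = - ∑ l, algebraMap k K (B i l) * P l j) →
      (SS k (connM δ B) ↔
        ∀ U : Submodule C (ι → C), StU k P Q U → ∃ U' : Submodule C (ι → C), StU k P Q U' ∧
          IsCompl U U'))
    (hg : ∀ {C k K : Type u} [Field C] [Field k] [Field K] [CharZero k] [Algebra C k]
      [Algebra k K] [Algebra C K] [IsScalarTower C k K] (δ : Derivation ℤ k k)
      (d : Derivation ℤ K K), (∀ a : k, d (algebraMap k K a) = algebraMap k K (δ a)) →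
      (∀ x : K, d x = 0 ↔ ∃ c : C, algebraMap C K c = x) →
      ∀ {ι : Type} [Fintype ι] [DecidableEq ι] (B : Matrix ι ι k)
      (P Q : Matrix ι ι K), P * Q = 1 → Q * P = 1 →
      (∀ i j, d (P i j) = - ∑ l, algebraMap k K (B i l) * P l j) →
      ∃ g : Submodule C (Matrix ι ι C), (∀ x ∈ g, ∀ y ∈ g, x * y - y * x ∈ g) ∧
        Submodule.span K {Z : Matrix ι ι K | ∃ x ∈ g, Z = x.map (algebraMap C K)} =
          Submodule.span K {Z : Matrix ι ι K | ∃ D : Derivation k K K, Z = ld P Q D})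
    (hlie : ∀ {C : Type u} [Field C] [CharZero C] [IsAlgClosed C] {ι : Type} [Fintype ι]
      [DecidableEq ι] (g : Submodule C (Matrix ι ι C)), (∀ x ∈ g, ∀ y ∈ g, x * y - y * x ∈ g) →
      (∀ U : Submodule C (ι → C), (∀ x ∈ g, ∀ u ∈ U, x.mulVec u ∈ U) →
        ∃ U' : Submodule C (ι → C), (∀ x ∈ g, ∀ u ∈ U', x.mulVec u ∈ U') ∧ IsCompl U U') →
      ∀ U : Submodule C (ι × ι → C), (∀ x ∈ g, ∀ u ∈ U, (adM x).mulVec u ∈ U) →
        ∃ U' : Submodule C (ι × ι → C), (∀ x ∈ g, ∀ u ∈ U', (adM x).mulVec u ∈ U') ∧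
          IsCompl U U')
    {k : Type u} [Field k] [CharZero k] [IsAlgClosed k] (δ : Derivation ℤ k k)
    {ι : Type} [Fintype ι] [DecidableEq ι] (A : Matrix ι ι k) (hA : SS k (connM δ A)) :
    SS k (connM δ (adM A)) := by
  obtain ⟨K, _, _, d, P, Q, hdk, hPQ, hQP, hdP, hconst⟩ := hpv δ A
  have : IsAlgClosed (Cst δ) := cst_closed δ
  have : CharZero (Cst δ) :=
    charZero_of_injective_algebraMap (R := ℚ) (algebraMap ℚ (Cst δ)).injective
  have hC : ∀ x : K, d x = 0 ↔ ∃ c : Cst δ, algebraMap (Cst δ) K c = x := by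
    intro x
    constructor
    · intro hx
      obtain ⟨c, rfl⟩ := hconst x hx
      have h1 : δ c = 0 := by
        rw [hdk] at hx
        exact (map_eq_zero _).1 hx
      exact ⟨⟨c, h1⟩, rfl⟩
    · rintro ⟨c, rfl⟩
      change d (algebraMap k K (c : k)) = 0
      rw [hdk]
      have h1 : δ (c : k) = 0 := c.2
      rw [h1, map_zero]
  have hD : ∀ x : K, (∀ D : Derivation k K K, D x = 0) → ∃ c : k, algebraMap k K c = x := by
    intro x hx
    have h1 : ¬ Transcendental k x := by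
      intro h
      obtain ⟨D, hD⟩ := hder x h
      exact hD (hx D)
    have h2 : IsAlgebraic k x := by
      by_contra h
      exact h1 h
    have h3 : IsIntegral k x := h2.isIntegral
    have h4 := IsAlgClosed.degree_eq_one_of_irreducible k (minpoly.irreducible h3)
    exact minpoly.mem_range_of_degree_eq_one k x h4
  obtain ⟨g, hgl, hgs⟩ := hg δ d hdk hC A P Q hPQ hQP hdP
  exact core δ d (fun B P Q h1 h2 h3 => hcor δ d hdk hC hD B P Q h1 h2 h3) A P Q hPQ hQP hdP g
    hgs (hlie g hgl) hA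

end Cb
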