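import Pool.Agent.Helper462.Cb.Defs

namespace Cb

universe u

open scoped TensorProduct in
theorem exists_ext_derivation {k K : Type u} [Field k] [Field K] [CharZero k] [Algebra k K]
    [Algebra.IsAlgebraic k K] (δ : Derivation ℤ k k) :
    ∃ d : Derivation ℤ K K, ∀ a : k, d (algebraMap k K a) = algebraMap k K (δ a) := by
  have h1 : Algebra.FormallyEtale k K := Algebra.FormallyEtale.of_isSeparable k K
  let δ' : Derivation ℤ k K := (Algebra.linearMap k K).compDer δ
  let g : K ⊗[k] Ω[k⁄ℤ] →ₗ[K] K := LinearMap.liftBaseChange K δ'.liftKaehlerDifferential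
  let e := KaehlerDifferential.tensorKaehlerEquivOfFormallyEtale ℤ k K
  refine ⟨(g ∘ₗ e.symm.toLinearMap).compDer (KaehlerDifferential.D ℤ K), fun a => ?_⟩
  show g (e.symm (KaehlerDifferential.D ℤ K (algebraMap k K a))) = _
  rw [KaehlerDifferential.tensorKaehlerEquivOfFormallyEtale_symm_D_algebraMap]
  show g ((1 : K) ⊗ₜ[k] KaehlerDifferential.D ℤ k a) = _
  rw [LinearMap.liftBaseChange_tmul, Derivation.liftKaehlerDifferential_comp_D, one_smul]
  rfl

theorem ext_derivation_unique {k K : Type u} [Field k] [Field K] [CharZero k] [Algebra k K]
    [Algebra.IsAlgebraic k K] (δ : Derivation ℤ k k) (d d' : Derivation ℤ K K)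
    (hd : ∀ a : k, d (algebraMap k K a) = algebraMap k K (δ a))
    (hd' : ∀ a : k, d' (algebraMap k K a) = algebraMap k K (δ a)) (x : K) : d x = d' x := by
  have h1 : Algebra.FormallyEtale k K := Algebra.FormallyEtale.of_isSeparable k K
  have h0 : ∀ a : k, (d - d') (algebraMap k K a) = 0 := by
    intro a
    rw [Derivation.sub_apply, hd, hd', sub_self]
  let D : Derivation k K K := Derivation.mk'
    { toFun := fun y => (d - d') y
      map_add' := fun a b => map_add _ a b
      map_smul' := fun a y => by
        rw [Algebra.smul_def, Derivation.leibniz, h0, smul_zero, add_zero, RingHom.id_apply,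
          algebraMap_smul] }
    (fun a b => Derivation.leibniz _ a b)
  have hD : D x = 0 := by
    rw [← Derivation.liftKaehlerDifferential_comp_D D x, Subsingleton.elim (KaehlerDifferential.D k K x) 0,
      map_zero]
  have h2 : (d - d') x = 0 := hD
  rw [Derivation.sub_apply] at h2
  exact sub_eq_zero.mp h2

theorem ext_derivation_aut {k K : Type u} [Field k] [Field K] [CharZero k] [Algebra k K]
    [Algebra.IsAlgebraic k K] (δ : Derivation ℤ k k) (d : Derivation ℤ K K)
    (hd : ∀ a : k, d (algebraMap k K a) = algebraMap k K (δ a)) (σ : K ≃ₐ[k] K) (x : K) :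
    d (σ x) = σ (d x) := by
  let d' : Derivation ℤ K K := Derivation.mk'
    { toFun := fun y => σ.symm (d (σ y))
      map_add' := fun a b => by simp
      map_smul' := fun a y => by simp }
    (fun a b => by
      show σ.symm (d (σ (a * b))) = a • σ.symm (d (σ b)) + b • σ.symm (d (σ a))
      rw [map_mul, Derivation.leibniz, map_add, smul_eq_mul, smul_eq_mul, map_mul, map_mul,
        AlgEquiv.symm_apply_apply, AlgEquiv.symm_apply_apply]
      rfl)
  have h := ext_derivation_unique δ d' d (fun a => by
    show σ.symm (d (σ (algebraMap k K a))) = _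
    rw [AlgEquiv.commutes, hd, AlgEquiv.commutes]) hd x
  have h2 : σ.symm (d (σ x)) = d x := h
  rw [← h2, AlgEquiv.apply_symm_apply]

theorem trace_derivation {k E : Type u} [Field k] [Field E] [Algebra k E]
    [FiniteDimensional k E] (δ : Derivation ℤ k k) (d : Derivation ℤ E E)
    (hd : ∀ a : k, d (algebraMap k E a) = algebraMap k E (δ a)) (y : E) :
    Algebra.trace k E (d y) = δ (Algebra.trace k E y) := by
  classical
  let b := Module.finBasis k E
  -- matrix of multiplication
  have hrep : ∀ z j, ∑ i, Algebra.leftMulMatrix b z i j • b i = z * b j := by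
    intro z j
    rw [← b.sum_repr (z * b j)]
    apply Finset.sum_congr rfl
    intro i _
    rw [Algebra.leftMulMatrix_eq_repr_mul]
  have hdsmul : ∀ (a : k) (z : E), d (a • z) = a • d z + δ a • z := by
    intro a z
    rw [Algebra.smul_def, Derivation.leibniz, hd, smul_eq_mul, smul_eq_mul, Algebra.smul_def,
      Algebra.smul_def, mul_comm z]
  let C : Matrix (Fin (Module.finrank k E)) (Fin (Module.finrank k E)) k :=
    Matrix.of fun i j => b.repr (d (b j)) i
  have hC : ∀ j, ∑ i, C i j • b i = d (b j) := by
    intro j
    exact b.sum_repr (d (b j))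
  have key : Algebra.leftMulMatrix b (d y) + Algebra.leftMulMatrix b y * C =
      (Algebra.leftMulMatrix b y).map δ + C * Algebra.leftMulMatrix b y := by
    have hlin : ∀ j, ∑ i, (Algebra.leftMulMatrix b (d y) + Algebra.leftMulMatrix b y * C) i j • b i =
        ∑ i, ((Algebra.leftMulMatrix b y).map δ + C * Algebra.leftMulMatrix b y) i j • b i := by
      intro j
      have e1 : ∑ i, (Algebra.leftMulMatrix b y * C) i j • b i = y * d (b j) := by
        calc ∑ i, (Algebra.leftMulMatrix b y * C) i j • b i
            = ∑ i, ∑ l, (Algebra.leftMulMatrix b y i l * C l j) • b i := by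
              apply Finset.sum_congr rfl
              intro i _
              rw [Matrix.mul_apply, Finset.sum_smul]
          _ = ∑ l, ∑ i, (Algebra.leftMulMatrix b y i l * C l j) • b i := Finset.sum_comm
          _ = ∑ l, C l j • (y * b l) := by
              apply Finset.sum_congr rfl
              intro l _
              rw [← hrep y l, Finset.smul_sum]
              apply Finset.sum_congr rfl
              intro i _
              rw [smul_smul, mul_comm]
          _ = y * d (b j) := by
              rw [← hC j, Finset.mul_sum]
              apply Finset.sum_congr rfl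
              intro l _
              rw [mul_smul_comm]
      have e2 : ∑ i, (C * Algebra.leftMulMatrix b y) i j • b i =
          ∑ l, Algebra.leftMulMatrix b y l j • d (b l) := by
        calc ∑ i, (C * Algebra.leftMulMatrix b y) i j • b i
            = ∑ i, ∑ l, (C i l * Algebra.leftMulMatrix b y l j) • b i := by
              apply Finset.sum_congr rfl
              intro i _
              rw [Matrix.mul_apply, Finset.sum_smul]
          _ = ∑ l, ∑ i, (C i l * Algebra.leftMulMatrix b y l j) • b i := Finset.sum_comm
          _ = _ := by
              apply Finset.sum_congr rfl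
              intro l _
              rw [← hC l, Finset.smul_sum]
              apply Finset.sum_congr rfl
              intro i _
              rw [smul_smul, mul_comm]
      have e3 : d (y * b j) = ∑ i, δ (Algebra.leftMulMatrix b y i j) • b i +
          ∑ l, Algebra.leftMulMatrix b y l j • d (b l) := by
        rw [← hrep y j, map_sum, ← Finset.sum_add_distrib]
        apply Finset.sum_congr rfl
        intro i _
        rw [hdsmul, add_comm]
      simp only [Matrix.add_apply, add_smul, Finset.sum_add_distrib, Matrix.map_apply]
      rw [hrep, e1, e2, ← e3, Derivation.leibniz, smul_eq_mul, smul_eq_mul, mul_comm (b j)]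
      ring
    ext i j
    have h1 := congrArg (fun z => b.repr z i) (hlin j)
    simpa [map_sum, Finsupp.single_apply, Finset.sum_add_distrib] using h1
  have htr := congrArg Matrix.trace key
  rw [Matrix.trace_add, Matrix.trace_add, Matrix.trace_mul_comm (Algebra.leftMulMatrix b y) C] at htr
  have htr2 := add_right_cancel htr
  rw [Algebra.trace_eq_matrix_trace b, Algebra.trace_eq_matrix_trace b, htr2]
  simp [Matrix.trace, map_sum]

/-- the normalized trace of the algebraic closure commutes with the derivation -/
theorem exists_normalized_trace {k K : Type u} [Field k] [Field K] [CharZero k] [Algebra k K]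
    [Algebra.IsAlgebraic k K] [IsAlgClosed K] (δ : Derivation ℤ k k) (d : Derivation ℤ K K)
    (hd : ∀ a : k, d (algebraMap k K a) = algebraMap k K (δ a)) :
    ∃ τ : K →ₗ[k] k, τ 1 = 1 ∧ ∀ x, τ (d x) = δ (τ x) := by
  have hint : Algebra.IsIntegral k K := Algebra.IsAlgebraic.isIntegral
  refine ⟨Algebra.normalizedTrace k K, ?_, ?_⟩
  · have := Algebra.normalizedTrace_algebraMap_apply_eq_self k K (1 : k)
    rwa [map_one] at this
  · intro x
    have hxint : IsIntegral k x := Algebra.IsIntegral.isIntegral x
    let E := IntermediateField.adjoin k {x}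
    have hfd : FiniteDimensional k E := IntermediateField.adjoin.finiteDimensional hxint
    have hEint : Algebra.IsIntegral k E := inferInstance
    have hchar : CharZero E := charZero_of_injective_algebraMap (algebraMap k E).injective
    obtain ⟨dE, hdE⟩ := exists_ext_derivation (k := k) (K := E) δ
    have hEK : Algebra.IsAlgebraic E K := inferInstance
    obtain ⟨d', hd'⟩ := exists_ext_derivation (k := E) (K := K) dE
    have huniq := ext_derivation_unique δ d' d (fun a => by
      rw [IsScalarTower.algebraMap_apply k E K a, hd', hdE, ← IsScalarTower.algebraMap_apply]) hd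
    let y : E := ⟨x, IntermediateField.mem_adjoin_simple_self k x⟩
    have hy : algebraMap E K y = x := rfl
    have h1 : d x = algebraMap E K (dE y) := by
      rw [← hy, ← huniq, hd']
    rw [h1, Algebra.normalizedTrace_algebraMap_apply k E K]
    have h2 : Algebra.normalizedTrace k K x = Algebra.normalizedTrace k E y := by
      rw [← hy, Algebra.normalizedTrace_algebraMap_apply k E K]
    rw [h2, Algebra.normalizedTrace_eq_of_finiteDimensional_apply,
      Algebra.normalizedTrace_eq_of_finiteDimensional_apply, trace_derivation δ dE hdE]
    set t := Algebra.trace k E y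
    have hn : ((Module.finrank k E : ℕ) : k) ≠ 0 := by
      have : Module.finrank k E ≠ 0 := Module.finrank_pos.ne'
      exact_mod_cast this
    have h3 : δ (((Module.finrank k E : ℕ) : k) * (((Module.finrank k E : ℕ) : k)⁻¹ * t)) =
        ((Module.finrank k E : ℕ) : k) * δ (((Module.finrank k E : ℕ) : k)⁻¹ * t) := by
      rw [Derivation.leibniz, Derivation.map_natCast, smul_zero, add_zero, smul_eq_mul]
    rw [mul_inv_cancel_left₀ hn] at h3
    simp only [smul_eq_mul]
    rw [h3, inv_mul_cancel_left₀ hn]

end Cb
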