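import Pool.Agent.Helper462.Cb.Defs

namespace Cb

universe u

section dx_section

open Polynomial TensorProduct

theorem dx_smooth (F K : Type u) [Field F] [Field K] [CharZero F] [Algebra F K] :
    Algebra.FormallySmooth F K := by
  obtain ⟨s, hs⟩ := exists_isTranscendenceBasis F K
  have h1 := hs.isAlgebraic_field
  haveI : CharZero (IntermediateField.adjoin F (Set.range ((↑) : s → K))) :=
    charZero_of_injective_algebraMap (algebraMap F _).injective
  haveI : Algebra.IsSeparable (IntermediateField.adjoin F (Set.range ((↑) : s → K))) K :=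
    inferInstance
  exact .of_algebraicIndependent_of_isSeparable hs.1

theorem dx_main {k K : Type u} [Field k] [Field K] [CharZero k] [Algebra k K]
    (x : K) (hx : Transcendental k x) : ∃ D : Derivation k K K, D x ≠ 0 := by
  letI alg : Algebra k[X] K := (aeval x).toAlgebra
  have halg : ∀ p : k[X], algebraMap k[X] K p = aeval x p := fun p => rfl
  haveI : IsScalarTower k k[X] K := IsScalarTower.of_algebraMap_eq fun r => by
    rw [halg]; simp
  have hinj : Function.Injective (algebraMap k[X] K) := transcendental_iff_injective.mp hx
  haveI : FaithfulSMul k[X] K := (faithfulSMul_iff_algebraMap_injective k[X] K).mpr hinj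
  letI : Algebra (FractionRing k[X]) K := FractionRing.liftAlgebra k[X] K
  haveI := FractionRing.isScalarTower_liftAlgebra k[X] K
  haveI : CharZero (FractionRing k[X]) :=
    charZero_of_injective_algebraMap (algebraMap k (FractionRing k[X])).injective
  haveI : Algebra.FormallySmooth (FractionRing k[X]) K := dx_smooth _ _
  haveI : Algebra.FormallySmooth k[X] (FractionRing k[X]) :=
    .of_isLocalization (nonZeroDivisors k[X])
  haveI : Algebra.FormallySmooth k[X] K := .comp _ (FractionRing k[X]) _
  haveI : Subsingleton (Algebra.H1Cotangent k[X] K) := inferInstance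
  have hinj2 : Function.Injective (KaehlerDifferential.mapBaseChange k k[X] K) := by
    rw [injective_iff_map_eq_zero]
    intro z hz
    obtain ⟨y, rfl⟩ := (Algebra.H1Cotangent.exact_δ_mapBaseChange k k[X] K z).mp hz
    rw [Subsingleton.elim y 0, map_zero]
  have hne : (1 : K) ⊗ₜ[k[X]] (KaehlerDifferential.D k k[X] X) ≠ 0 := by
    intro h0
    have e := (TensorProduct.congr (LinearEquiv.refl k[X] K) (KaehlerDifferential.polynomialEquiv k)).trans
      (TensorProduct.rid k[X] K)
    have h1 : ((TensorProduct.congr (LinearEquiv.refl k[X] K)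
      (KaehlerDifferential.polynomialEquiv k)).trans (TensorProduct.rid k[X] K))
        ((1 : K) ⊗ₜ[k[X]] (KaehlerDifferential.D k k[X] X)) = 1 := by
      simp [KaehlerDifferential.polynomialEquiv_D]
    rw [h0, map_zero] at h1
    exact zero_ne_one h1
  have hD : KaehlerDifferential.D k K x ≠ 0 := by
    intro h0
    apply hne
    apply hinj2
    rw [map_zero, KaehlerDifferential.mapBaseChange_tmul, KaehlerDifferential.map_D, halg]
    simp [h0]
  obtain ⟨f, hf⟩ : ∃ f : Module.Dual K (Ω[K⁄k]), f (KaehlerDifferential.D k K x) ≠ 0 := by
    by_contra hcon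
    push Not at hcon
    exact hD ((Module.forall_dual_apply_eq_zero_iff K _).mp hcon)
  exact ⟨f.compDer (KaehlerDifferential.D k K), hf⟩

end dx_section

theorem exists_derivation_ne_zero {k K : Type u} [Field k] [Field K] [CharZero k] [Algebra k K]
    (x : K) (hx : Transcendental k x) : ∃ D : Derivation k K K, D x ≠ 0 := by
  exact dx_main x hx

end Cb
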