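import Pool.Agent.Helper462.Cb.Defs

namespace Cb

universe u

theorem echelon {K : Type u} [Field K] {ι : Type} [Fintype ι] [DecidableEq ι]
    (W : Submodule K (ι → K)) :
    ∃ B : Set (ι → K), Submodule.span K B = W ∧
      ∀ f : K →+ K, f 1 = 0 → (∀ w ∈ W, (fun i => f (w i)) ∈ W) → ∀ e ∈ B, ∀ i, f (e i) = 0 := by
  classical
  let v : ι → (W →ₗ[K] K) := fun i => (LinearMap.proj i).comp W.subtype
  have hv : Submodule.span K (Set.range v) = ⊤ := by
    rw [eq_top_iff]
    intro ψ _
    obtain ⟨g, hg⟩ := LinearMap.exists_extend ψ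
    have hψ : ψ = ∑ i, g (fun j => if i = j then 1 else 0) • v i := by
      ext w
      rw [← hg, LinearMap.comp_apply, LinearMap.pi_apply_eq_sum_univ g, LinearMap.sum_apply]
      refine Finset.sum_congr rfl fun i _ => ?_
      rw [LinearMap.smul_apply, smul_eq_mul, smul_eq_mul, mul_comm]
      rfl
    rw [hψ]
    exact Submodule.sum_mem _ fun i _ => Submodule.smul_mem _ _ (Submodule.subset_span ⟨i, rfl⟩)
  obtain ⟨κ, a, ha, hs, hli⟩ := exists_linearIndependent' K v
  have hfκ : Finite κ := Finite.of_injective a ha
  have := Fintype.ofFinite κ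
  let P : W →ₗ[K] (κ → K) := LinearMap.pi fun k => v (a k)
  have hinj : Function.Injective P := by
    rw [injective_iff_map_eq_zero]
    intro w hw
    have h1 : ∀ k, v (a k) w = 0 := fun k => congrFun hw k
    have h2 : ∀ ψ ∈ Submodule.span K (Set.range (v ∘ a)), ψ w = 0 := by
      intro ψ hψ
      induction hψ using Submodule.span_induction with
      | mem x hx => obtain ⟨k, rfl⟩ := hx; exact h1 k
      | zero => rfl
      | add x y _ _ hx hy => rw [LinearMap.add_apply, hx, hy, add_zero]
      | smul c x _ hx => rw [LinearMap.smul_apply, hx, smul_zero]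
    rw [hs, hv] at h2
    apply Subtype.ext
    funext i
    exact h2 (v i) trivial
  have hfin : Module.finrank K W = Module.finrank K (κ → K) := by
    have b := Module.Basis.mk hli (by rw [hs, hv])
    rw [← Subspace.dual_finrank_eq, Module.finrank_eq_card_basis b,
      Module.finrank_fintype_fun_eq_card]
  have hsurj := (LinearMap.injective_iff_surjective_of_finrank_eq_finrank hfin).mp hinj
  let E : W ≃ₗ[K] (κ → K) := LinearEquiv.ofBijective P ⟨hinj, hsurj⟩
  let b : Module.Basis κ K W := Module.Basis.ofEquivFun E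
  have hb : ∀ k k', v (a k') (b k) = if k' = k then 1 else 0 := by
    intro k k'
    have h1 : P (b k) = Pi.single k 1 := by
      show E (b k) = _
      rw [Module.Basis.coe_ofEquivFun, LinearEquiv.apply_symm_apply]
    have h2 : v (a k') (b k) = P (b k) k' := rfl
    rw [h2, h1, Pi.single_apply]
  refine ⟨Set.range fun k => ((b k : W) : ι → K), ?_, ?_⟩
  · have h1 : (Set.range fun k => ((b k : W) : ι → K)) = W.subtype '' Set.range b := by
      rw [← Set.range_comp]
      rfl
    rw [h1, Submodule.span_image, b.span_eq, Submodule.map_top, Submodule.range_subtype]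
  · rintro f hf hfW _ ⟨k, rfl⟩ i
    have h1 := hfW _ (b k).2
    have h2 : P ⟨_, h1⟩ = 0 := by
      funext k'
      show f (v (a k') (b k)) = 0
      rw [hb]
      split_ifs
      · exact hf
      · exact map_zero f
    have h3 : (⟨_, h1⟩ : W) = 0 := hinj (by rw [h2, map_zero])
    exact congrFun (congrArg Subtype.val h3) i

end Cb
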