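import Pool.Agent.Helper462.Cb.Defs

namespace Cb

universe u

/-- The splitting lemma (first step of Weyl's theorem), given Casimir elements. -/
theorem splitting {C L : Type u} [Field C] [CharZero C] [IsAlgClosed C] [LieRing L]
    [LieAlgebra C L] [FiniteDimensional C L] [LieAlgebra.HasTrivialRadical C L]
    (hcas : ∀ (V : Type u) [AddCommGroup V] [Module C V] [LieRingModule L V] [LieModule C L V]
      [FiniteDimensional C V], (∃ (x : L) (v : V), ⁅x, v⁆ ≠ 0) →
      ∃ (n : ℕ) (x y : Fin n → L),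
      (∀ (V' : Type u) [AddCommGroup V'] [Module C V'] [LieRingModule L V'] [LieModule C L V'],
        ∀ (z : L) (v : V'), ⁅z, ∑ i, ⁅x i, ⁅y i, v⁆⁆⁆ = ∑ i, ⁅x i, ⁅y i, ⁅z, v⁆⁆⁆) ∧
      LinearMap.trace C V
        (∑ i, LieModule.toEnd C L V (x i) ∘ₗ LieModule.toEnd C L V (y i)) ≠ 0)
    (V : Type u) [AddCommGroup V] [Module C V] [LieRingModule L V] [LieModule C L V]
    [FiniteDimensional C V] (V₁ : LieSubmodule C L V) (h1 : V₁ ≠ ⊤)
    (h2 : ∀ (x : L) (v : V), ⁅x, v⁆ ∈ V₁) :
    ∃ v : V, v ∉ V₁ ∧ ∀ x : L, ⁅x, v⁆ = 0 := by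
  obtain ⟨E, hE⟩ : ∃ E : LieSubmodule C L V, Minimal (fun E : LieSubmodule C L V => ¬ E ≤ V₁) E := by
    haveI := LieSubmodule.wellFoundedLT_of_isArtinian C L V
    apply exists_minimal_of_wellFoundedLT
    exact ⟨⊤, fun h => h1 (top_le_iff.mp h)⟩
  by_cases htriv : ∃ (x : L) (v : E), ⁅x, v⁆ ≠ 0
  · exfalso
    obtain ⟨n, x, y, hcomm, htr⟩ := hcas E htriv
    set f : E →ₗ[C] E := ∑ i, LieModule.toEnd C L E (x i) ∘ₗ LieModule.toEnd C L E (y i) with hf
    have hfa : ∀ v : E, f v = ∑ i, ⁅x i, ⁅y i, v⁆⁆ := by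
      intro v
      simp [hf, LinearMap.sum_apply]
    have hfc : ∀ (z : L) (v : E), f ⁅z, v⁆ = ⁅z, f v⁆ := by
      intro z v
      rw [hfa, hfa, hcomm E z v]
    have hfm : ∀ (m : ℕ) (z : L) (v : E), (f ^ m) ⁅z, v⁆ = ⁅z, (f ^ m) v⁆ := by
      intro m
      induction m with
      | zero => intro z v; simp
      | succ m ih =>
        intro z v
        rw [pow_succ, Module.End.mul_apply, Module.End.mul_apply, hfc, ih]
    have hfV : ∀ v : E, ((f v : E) : V) ∈ V₁ := by
      intro v
      rw [hfa]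
      rw [← LieSubmodule.incl_apply, map_sum]
      apply sum_mem
      intro i _
      rw [LieSubmodule.incl_apply, LieSubmodule.coe_bracket]
      exact h2 _ _
    obtain ⟨m, hm1, hm⟩ : ∃ m : ℕ, 1 ≤ m ∧ Codisjoint (LinearMap.ker (f ^ m)) (LinearMap.range (f ^ m)) := by
      have := (LinearMap.eventually_codisjoint_ker_pow_range_pow f).and (Filter.eventually_ge_atTop 1)
      obtain ⟨m, h1, h2⟩ := this.exists
      exact ⟨m, h2, h1⟩
    let K : LieSubmodule C L E :=
      { LinearMap.ker (f ^ m) with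
        lie_mem := by
          intro z v hv
          have hv' : (f ^ m) v = 0 := hv
          change (f ^ m) ⁅z, v⁆ = 0
          rw [hfm, hv', lie_zero] }
    have hK : ∀ v : E, v ∈ K ↔ (f ^ m) v = 0 := fun v => Iff.rfl
    have hKE : K.map E.incl ≤ E := by
      intro v hv
      rw [LieSubmodule.mem_map] at hv
      obtain ⟨w, -, rfl⟩ := hv
      exact w.2
    have hKV : ¬ K.map E.incl ≤ V₁ := by
      intro hle
      apply hE.1
      intro v hv
      have : (⟨v, hv⟩ : E) ∈ (LinearMap.ker (f ^ m)) ⊔ (LinearMap.range (f ^ m)) := by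
        rw [codisjoint_iff.mp hm]; trivial
      obtain ⟨a, ha, b, hb, hab⟩ := Submodule.mem_sup.mp this
      have h3 : v = (a : V) + (b : V) := by
        have := congrArg (fun t : E => (t : V)) hab
        simpa using this.symm
      rw [h3]
      apply add_mem
      · apply hle
        rw [LieSubmodule.mem_map]
        exact ⟨a, ha, rfl⟩
      · obtain ⟨c, rfl⟩ := hb
        obtain ⟨k, rfl⟩ : ∃ k, m = k + 1 := ⟨m - 1, by omega⟩
        rw [pow_succ', Module.End.mul_apply]
        exact hfV _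
    have hKEq : E ≤ K.map E.incl := hE.2 hKV hKE
    have hnil : f ^ m = 0 := by
      ext v
      have h4 := hKEq v.2
      rw [LieSubmodule.mem_map] at h4
      obtain ⟨w, hw, hwv⟩ := h4
      have : w = v := by
        apply Subtype.ext
        exact hwv
      subst this
      rw [hK] at hw
      rw [hw]
      rfl
    apply htr
    have := LinearMap.isNilpotent_trace_of_isNilpotent (R := C) (M := E) (f := f) ⟨m, hnil⟩
    exact this.eq_zero
  · push Not at htriv
    obtain ⟨v, hv, hv1⟩ := Set.not_subset.mp (fun h : (E : Set V) ⊆ V₁ => hE.1 h)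
    refine ⟨v, hv1, fun x => ?_⟩
    have := htriv x ⟨v, hv⟩
    have := congrArg (fun t : E => (t : V)) this
    simpa using this

end Cb
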