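import Pool.Agent.Helper462.Cb.Defs

namespace Cb

universe u

section aux19237

open LieAlgebra

theorem a19237_quot {C : Type u} [Field C] (L : Type u) [LieRing L] [LieAlgebra C L]
    [FiniteDimensional C L] : HasTrivialRadical C (L ⧸ radical C L) := by
  set r := radical C L with hr
  let π : L →ₗ⁅C⁆ (L ⧸ r) :=
    { (r.toSubmodule).mkQ with
      toFun := LieSubmodule.Quotient.mk
      map_lie' := fun {_ _} => rfl }
  have hπ0 : ∀ x, π x = 0 ↔ x ∈ r := fun x => LieSubmodule.Quotient.mk_eq_zero'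
  have hπs : Function.Surjective π := Quot.mk_surjective
  set K := radical C (L ⧸ r) with hK
  have hKs : IsSolvable K := radicalIsSolvable C (L ⧸ r)
  have hrs : IsSolvable r := radicalIsSolvable C L
  obtain ⟨k, hk⟩ := IsSolvable.solvable (R := C) (L := K)
  obtain ⟨m, hm⟩ := IsSolvable.solvable (R := C) (L := r)
  rw [LieIdeal.derivedSeries_eq_bot_iff] at hk hm
  let J : LieIdeal C L := K.comap π
  have hJ : ∀ k, derivedSeriesOfIdeal C L k J ≤
      (derivedSeriesOfIdeal C (L ⧸ r) k K).comap π := by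
    intro k
    induction k with
    | zero => exact le_rfl
    | succ k ih =>
      rw [derivedSeriesOfIdeal_succ, derivedSeriesOfIdeal_succ]
      exact (LieSubmodule.mono_lie ih ih).trans (LieIdeal.comap_bracket_le π)
  have hJr : derivedSeriesOfIdeal C L k J ≤ r := by
    intro x hx
    have h1 := hJ k hx
    rw [hk] at h1
    have h2 : π x ∈ (⊥ : LieIdeal C (L ⧸ r)) := by simpa using h1
    rw [LieSubmodule.mem_bot] at h2
    exact (hπ0 x).mp h2
  have hJs : IsSolvable J := by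
    apply IsSolvable.mk (R := C) (k := m + k)
    rw [LieIdeal.derivedSeries_eq_bot_iff, derivedSeriesOfIdeal_add, eq_bot_iff, ← hm]
    exact derivedSeriesOfIdeal_mono hJr m
  have hJle : J ≤ r := (LieIdeal.solvable_iff_le_radical C L J).mp hJs
  refine ⟨?_⟩
  rw [eq_bot_iff]
  intro y hy
  obtain ⟨x, rfl⟩ := hπs y
  have hx : x ∈ J := by simpa [J] using hy
  rw [LieSubmodule.mem_bot]
  exact (hπ0 x).mpr (hJle hx)

/-- the splitting lemma hypothesis -/
def a19237_split (C : Type u) [Field C] : Prop :=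
    ∀ (L : Type u) [LieRing L] [LieAlgebra C L] [FiniteDimensional C L]
      [LieAlgebra.HasTrivialRadical C L]
      (V : Type u) [AddCommGroup V] [Module C V] [LieRingModule L V] [LieModule C L V]
      [FiniteDimensional C V] (V₁ : LieSubmodule C L V), V₁ ≠ ⊤ →
      (∀ (x : L) (v : V), ⁅x, v⁆ ∈ V₁) → ∃ v : V, v ∉ V₁ ∧ ∀ x : L, ⁅x, v⁆ = 0

attribute [local instance 100] LieRing.ofAssociativeRing

theorem a19237_split2 {C : Type u} [Field C] (hsplit : a19237_split C)
    (L : Type u) [LieRing L] [LieAlgebra C L] [FiniteDimensional C L]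
    (V : Type u) [AddCommGroup V] [Module C V] [LieRingModule L V] [LieModule C L V]
    [FiniteDimensional C V] (hr : ∀ x ∈ radical C L, ∀ v : V, ⁅x, v⁆ = 0)
    (V₁ : LieSubmodule C L V) (h1 : V₁ ≠ ⊤) (h2 : ∀ (x : L) (v : V), ⁅x, v⁆ ∈ V₁) :
    ∃ v : V, v ∉ V₁ ∧ ∀ x : L, ⁅x, v⁆ = 0 := by
  haveI := a19237_quot (C := C) L
  have hker : (radical C L).toSubmodule ≤ LinearMap.ker (LieModule.toEnd C L V).toLinearMap := by
    intro x hx
    rw [LinearMap.mem_ker]
    ext v
    exact hr x hx v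
  let f : (L ⧸ radical C L) →ₗ⁅C⁆ Module.End C V :=
    { (radical C L).toSubmodule.liftQ (LieModule.toEnd C L V).toLinearMap hker with
      map_lie' := by
        rintro ⟨x⟩ ⟨y⟩
        exact LieHom.map_lie (LieModule.toEnd C L V) x y }
  letI i1 : LieRingModule (L ⧸ radical C L) V := LieRingModule.compLieHom V f
  haveI i2 : LieModule C (L ⧸ radical C L) V := LieModule.compLieHom V f
  have hact : ∀ (x : L) (v : V), ⁅(LieSubmodule.Quotient.mk x : L ⧸ radical C L), v⁆ = ⁅x, v⁆ := by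
    intro x v
    rfl
  haveI : FiniteDimensional C (L ⧸ radical C L) :=
    inferInstanceAs (FiniteDimensional C (L ⧸ (radical C L).toSubmodule))
  let V₁' : LieSubmodule C (L ⧸ radical C L) V :=
    { V₁.toSubmodule with
      lie_mem := by
        rintro ⟨x⟩ m hm
        exact V₁.lie_mem hm }
  have hmem : ∀ v, v ∈ V₁' ↔ v ∈ V₁ := fun v => Iff.rfl
  obtain ⟨v, hv, hfix⟩ := hsplit (L ⧸ radical C L) V V₁' (by
    intro htop
    apply h1
    rw [eq_top_iff]
    intro v _
    rw [← hmem, htop]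
    trivial) (by
    rintro ⟨x⟩ v
    exact h2 x v)
  exact ⟨v, hv, fun x => hfix (LieSubmodule.Quotient.mk x)⟩

theorem a19237_B {C : Type u} [Field C] (hsplit : a19237_split C)
    (L : Type u) [LieRing L] [LieAlgebra C L] [FiniteDimensional C L]
    (E : Type u) [AddCommGroup E] [Module C E] [LieRingModule L E] [LieModule C L E]
    [FiniteDimensional C E] (hr : ∀ x ∈ radical C L, ∃ μ : C, ∀ v : E, ⁅x, v⁆ = μ • v)
    (W : LieSubmodule C L E) : ∃ W' : LieSubmodule C L E, IsCompl W W' := by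
  by_cases hW : W = ⊥
  · exact ⟨⊤, by rw [hW]; exact isCompl_bot_top⟩
  let 𝓔 : LieSubmodule C L (E →ₗ[C] W) :=
    { carrier := {φ | ∃ c : C, ∀ w : W, φ w = c • w}
      add_mem' := by
        rintro φ ψ ⟨c, hc⟩ ⟨d, hd⟩
        exact ⟨c + d, fun w => by rw [LinearMap.add_apply, hc, hd, add_smul]⟩
      zero_mem' := ⟨0, fun w => by simp⟩
      smul_mem' := by
        rintro a φ ⟨c, hc⟩
        exact ⟨a * c, fun w => by rw [LinearMap.smul_apply, hc, mul_smul]⟩
      lie_mem := by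
        rintro x φ ⟨c, hc⟩
        refine ⟨0, fun w => ?_⟩
        rw [LieHom.lie_apply, hc]
        have := hc ⁅x, w⁆
        rw [LieSubmodule.coe_bracket] at this
        rw [this, lie_smul, sub_self, zero_smul] }
  have h𝓔 : ∀ φ : E →ₗ[C] W, φ ∈ 𝓔 ↔ ∃ c : C, ∀ w : W, φ w = c • w := fun φ => Iff.rfl
  have hzero : ∀ (x : L) (φ : E →ₗ[C] W), φ ∈ 𝓔 → ∀ w : W, ⁅x, φ⁆ w = 0 := by
    rintro x φ ⟨c, hc⟩ w
    rw [LieHom.lie_apply, hc]
    have := hc ⁅x, w⁆
    rw [LieSubmodule.coe_bracket] at this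
    rw [this, lie_smul, sub_self]
  let 𝓔₁ : LieSubmodule C L 𝓔 :=
    { carrier := {φ | ∀ w : W, (φ : E →ₗ[C] W) w = 0}
      add_mem' := by
        intro φ ψ hφ hψ w
        show ((φ : E →ₗ[C] W) + (ψ : E →ₗ[C] W)) w = 0
        rw [LinearMap.add_apply, hφ, hψ, add_zero]
      zero_mem' := fun w => rfl
      smul_mem' := by
        intro a φ hφ w
        show (a • (φ : E →ₗ[C] W)) w = 0
        rw [LinearMap.smul_apply, hφ, smul_zero]
      lie_mem := by
        intro x φ hφ w
        rw [LieSubmodule.coe_bracket]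
        exact hzero x φ φ.2 w }
  have h𝓔₁ : ∀ φ : 𝓔, φ ∈ 𝓔₁ ↔ ∀ w : W, (φ : E →ₗ[C] W) w = 0 := fun φ => Iff.rfl
  obtain ⟨φ, hφ, hfix⟩ := a19237_split2 hsplit L 𝓔 (by
    intro x hx φ
    obtain ⟨μ, hμ⟩ := hr x hx
    apply Subtype.ext
    ext e
    rw [LieSubmodule.coe_bracket, LieHom.lie_apply, LieSubmodule.coe_sub,
      LieSubmodule.coe_bracket, hμ, hμ, map_smul]
    simp) 𝓔₁ (by
    intro htop
    obtain ⟨p, hp⟩ := LinearMap.exists_leftInverse_of_injective W.toSubmodule.subtype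
      (by simp)
    have hpw : ∀ w : W, p w = w := fun w => LinearMap.congr_fun hp w
    have hp𝓔 : p ∈ 𝓔 := ⟨1, fun w => by rw [hpw, one_smul]⟩
    have hp1 : (⟨p, hp𝓔⟩ : 𝓔) ∈ 𝓔₁ := by rw [htop]; trivial
    apply hW
    rw [eq_bot_iff]
    intro w hw
    have h3 := hp1 ⟨w, hw⟩
    have h4 : p w = (⟨w, hw⟩ : W) := hpw ⟨w, hw⟩
    have h5 : (⟨w, hw⟩ : W) = 0 := by rw [← h4]; exact h3
    rw [LieSubmodule.mem_bot]
    exact congrArg Subtype.val h5) (by
    intro x φ
    rw [h𝓔₁]
    intro w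
    rw [LieSubmodule.coe_bracket]
    exact hzero x φ φ.2 w)
  obtain ⟨c, hc⟩ := φ.2
  have hc0 : c ≠ 0 := by
    rintro rfl
    apply hφ
    intro w
    rw [hc, zero_smul]
  have hequiv : ∀ (x : L) (e : E), (φ : E →ₗ[C] W) ⁅x, e⁆ = ⁅x, (φ : E →ₗ[C] W) e⁆ := by
    intro x e
    have h1 := hfix x
    have h2 : ⁅x, (φ : E →ₗ[C] W)⁆ = 0 := by
      rw [← LieSubmodule.coe_bracket, h1]; rfl
    have h3 := LinearMap.congr_fun h2 e
    rw [LieHom.lie_apply, LinearMap.zero_apply, sub_eq_zero] at h3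
    exact h3.symm
  let W' : LieSubmodule C L E :=
    { LinearMap.ker (φ : E →ₗ[C] W) with
      lie_mem := by
        intro x e he
        have he' : (φ : E →ₗ[C] W) e = 0 := he
        show (φ : E →ₗ[C] W) ⁅x, e⁆ = 0
        rw [hequiv, he', lie_zero] }
  have hW' : ∀ e, e ∈ W' ↔ (φ : E →ₗ[C] W) e = 0 := fun e => Iff.rfl
  refine ⟨W', ?_, ?_⟩
  · rw [disjoint_iff, eq_bot_iff]
    intro e he
    rw [LieSubmodule.mem_inf] at he
    obtain ⟨he1, he2⟩ := he
    rw [hW'] at he2
    have h1 := hc ⟨e, he1⟩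
    have h2 : c • (⟨e, he1⟩ : W) = 0 := by rw [← h1]; exact he2
    have h3 : (⟨e, he1⟩ : W) = 0 := (smul_eq_zero.mp h2).resolve_left hc0
    rw [LieSubmodule.mem_bot]
    exact congrArg Subtype.val h3
  · rw [codisjoint_iff, eq_top_iff]
    intro e _
    rw [LieSubmodule.mem_sup]
    refine ⟨c⁻¹ • ((φ : E →ₗ[C] W) e : E), W.smul_mem _ ((φ : E →ₗ[C] W) e).2,
      e - c⁻¹ • ((φ : E →ₗ[C] W) e : E), ?_, by abel⟩
    rw [hW', map_sub, map_smul, hc, smul_smul, inv_mul_cancel₀ hc0, one_smul, sub_self]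

theorem a19237_S {C : Type u} [Field C] {L : Type u} [LieRing L] [LieAlgebra C L]
    {E : Type u} [AddCommGroup E] [Module C E] [LieRingModule L E] [LieModule C L E]
    [FiniteDimensional C E] (𝓗 : Set (LieSubmodule C L E)) (hsup : sSup 𝓗 = ⊤)
    (hH : ∀ H ∈ 𝓗, ∀ W : LieSubmodule C L E, W ≤ H → ∃ K : LieSubmodule C L E, K ≤ H ∧
      W ⊓ K = ⊥ ∧ W ⊔ K = H) (W : LieSubmodule C L E) : ∃ W' : LieSubmodule C L E, IsCompl W W' := by
  obtain ⟨W', hW', hmax⟩ := (wellFounded_gt (α := LieSubmodule C L E)).has_min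
    {X | Disjoint W X} ⟨⊥, disjoint_bot_right⟩
  refine ⟨W', hW', ?_⟩
  rw [codisjoint_iff]
  by_contra hne
  obtain ⟨H, hH1, hH2⟩ : ∃ H ∈ 𝓗, ¬ H ≤ W ⊔ W' := by
    by_contra hcon
    push Not at hcon
    exact hne (top_le_iff.mp (hsup ▸ sSup_le hcon))
  obtain ⟨K, hK1, hK2, hK3⟩ := hH H hH1 (H ⊓ (W ⊔ W')) inf_le_left
  have hKU : Disjoint (W ⊔ W') K := by
    rw [disjoint_iff, eq_bot_iff, ← hK2]
    exact le_inf (le_inf (inf_le_right.trans hK1) inf_le_left) inf_le_right
  have hKne : ¬ K ≤ W' := by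
    intro hle
    have h1 : K = ⊥ := by
      have := hKU.mono_right (le_refl K)
      rw [disjoint_iff] at this
      rw [eq_bot_iff, ← this]
      exact le_inf (hle.trans le_sup_right) le_rfl
    rw [h1, sup_bot_eq] at hK3
    exact hH2 (inf_eq_left.mp hK3)
  have hd : Disjoint W (W' ⊔ K) := Disjoint.disjoint_sup_right_of_disjoint_sup_left hW' hKU
  refine hmax (W' ⊔ K) hd ?_
  refine lt_of_le_of_ne le_sup_left ?_
  intro he
  apply hKne
  rw [he]
  exact le_sup_right

theorem a19237_R {C : Type u} [Field C] [CharZero C] [IsAlgClosed C]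
    {L : Type u} [LieRing L] [LieAlgebra C L] [FiniteDimensional C L]
    {V : Type u} [AddCommGroup V] [Module C V] [LieRingModule L V] [LieModule C L V]
    [FiniteDimensional C V] (S : LieSubmodule C L V) (hS : IsAtom S) (z : L)
    (hz : z ∈ radical C L) : ∃ c : C, ∀ s ∈ S, ⁅z, s⁆ = c • s := by
  haveI : Nontrivial S := by
    rw [LieSubmodule.nontrivial_iff_ne_bot]
    exact hS.1
  obtain ⟨χ, hχ⟩ : ∃ χ : Module.Dual C (radical C L), Nontrivial (LieModule.weightSpace S χ) :=
    LieModule.exists_nontrivial_weightSpace_of_isSolvable C (radical C L) S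
  let N : LieSubmodule C L S := LieModule.weightSpaceOfIsLieTower C S χ
  have hN : N ≠ ⊥ := by
    rw [← LieSubmodule.nontrivial_iff_ne_bot]
    exact hχ
  let N' : LieSubmodule C L V := N.map S.incl
  have hN'le : N' ≤ S := by
    rintro x hx
    rw [LieSubmodule.mem_map] at hx
    obtain ⟨y, _, rfl⟩ := hx
    exact y.2
  have hN'ne : N' ≠ ⊥ := by
    intro h0
    apply hN
    rw [eq_bot_iff]
    intro y hy
    have h1 : (y : V) ∈ N' := by
      rw [LieSubmodule.mem_map]
      exact ⟨y, hy, rfl⟩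
    rw [h0, LieSubmodule.mem_bot] at h1
    rw [LieSubmodule.mem_bot]
    exact Subtype.ext h1
  have hN'eq : N' = S := (hS.le_iff.mp hN'le).resolve_left hN'ne
  refine ⟨χ ⟨z, hz⟩, fun s hs => ?_⟩
  rw [← hN'eq, LieSubmodule.mem_map] at hs
  obtain ⟨y, hy, rfl⟩ := hs
  have hm : ∀ (w : L) (hw : w ∈ radical C L), ⁅w, y⁆ = χ ⟨w, hw⟩ • y := by
    simpa [N, LieModule.weightSpaceOfIsLieTower, LieModule.mem_weightSpace] using hy
  exact congrArg Subtype.val (hm z hz)


theorem a19237_sSup {C : Type u} [Field C]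
    {L : Type u} [LieRing L] [LieAlgebra C L]
    {V : Type u} [AddCommGroup V] [Module C V] [LieRingModule L V] [LieModule C L V]
    [FiniteDimensional C V] (hV : ∀ W : LieSubmodule C L V, ∃ W', IsCompl W W') :
    sSup {T : LieSubmodule C L V | IsAtom T} = ⊤ := by
  have : IsAtomic (LieSubmodule C L V) := inferInstance
  obtain ⟨Y', hY'⟩ := hV (sSup {T : LieSubmodule C L V | IsAtom T})
  rcases IsAtomic.eq_bot_or_exists_atom_le Y' with h | ⟨T, hT, hTY⟩
  · rw [h] at hY'
    exact eq_top_of_isCompl_bot hY'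
  · exfalso
    have h1 : T ≤ sSup {T : LieSubmodule C L V | IsAtom T} := le_sSup hT
    exact hT.1 (le_bot_iff.mp (hY'.disjoint h1 hTY))

theorem a19237_D {C : Type u} [Field C] [CharZero C] [IsAlgClosed C] (hsplit : a19237_split C)
    (L : Type u) [LieRing L] [LieAlgebra C L] [FiniteDimensional C L]
    (V : Type u) [AddCommGroup V] [Module C V] [LieRingModule L V] [LieModule C L V]
    [FiniteDimensional C V] (hV : ∀ W : LieSubmodule C L V, ∃ W', IsCompl W W') :
    ∀ W : LieSubmodule C L (V →ₗ[C] V), ∃ W', IsCompl W W' := by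
  have : IsAtomic (LieSubmodule C L V) := inferInstance
  let H : LieSubmodule C L V → LieSubmodule C L V → LieSubmodule C L (V →ₗ[C] V) := fun S' T =>
    { carrier := {φ | (∀ v ∈ S', φ v = 0) ∧ ∀ v, φ v ∈ T}
      add_mem' := by
        rintro φ ψ ⟨h1, h2⟩ ⟨h3, h4⟩
        exact ⟨fun v hv => by rw [LinearMap.add_apply, h1 v hv, h3 v hv, add_zero],
          fun v => T.add_mem (h2 v) (h4 v)⟩
      zero_mem' := ⟨fun v _ => rfl, fun v => T.zero_mem⟩
      smul_mem' := by
        rintro a φ ⟨h1, h2⟩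
        exact ⟨fun v hv => by rw [LinearMap.smul_apply, h1 v hv, smul_zero],
          fun v => T.smul_mem a (h2 v)⟩
      lie_mem := by
        rintro x φ ⟨h1, h2⟩
        refine ⟨fun v hv => ?_, fun v => ?_⟩
        · rw [LieHom.lie_apply, h1 v hv, h1 _ (S'.lie_mem hv), lie_zero, sub_zero]
        · rw [LieHom.lie_apply]
          exact T.sub_mem (T.lie_mem (h2 v)) (h2 _) }
  have hHmem : ∀ S' T φ, φ ∈ H S' T ↔ (∀ v ∈ S', φ v = 0) ∧ ∀ v, φ v ∈ T :=
    fun S' T φ => Iff.rfl
  let 𝓗 : Set (LieSubmodule C L (V →ₗ[C] V)) :=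
    {X | ∃ S S' T, IsAtom S ∧ IsCompl S S' ∧ IsAtom T ∧ X = H S' T}
  have hatoms := a19237_sSup hV
  -- rank one maps
  have hrank1 : ∀ (S S' : LieSubmodule C L V), IsAtom S → IsCompl S S' →
      ∀ f : V →ₗ[C] C, (∀ v ∈ S', f v = 0) → ∀ v : V, f.smulRight v ∈ sSup 𝓗 := by
    intro S S' hS hSS' f hf
    let X : Submodule C V :=
      { carrier := {v | f.smulRight v ∈ sSup 𝓗}
        add_mem' := by
          intro a b ha hb
          have e : f.smulRight (a + b) = f.smulRight a + f.smulRight b := by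
            ext v; simp
          show f.smulRight (a + b) ∈ sSup 𝓗
          rw [e]
          exact (sSup 𝓗).add_mem ha hb
        zero_mem' := by
          have e : f.smulRight (0 : V) = 0 := by ext v; simp
          show f.smulRight (0 : V) ∈ sSup 𝓗
          rw [e]
          exact (sSup 𝓗).zero_mem
        smul_mem' := by
          intro c a ha
          have e : f.smulRight (c • a) = c • f.smulRight a := by
            ext v
            simp [smul_smul, mul_comm]
          show f.smulRight (c • a) ∈ sSup 𝓗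
          rw [e]
          exact (sSup 𝓗).smul_mem c ha }
    have hX : ∀ v, v ∈ X ↔ f.smulRight v ∈ sSup 𝓗 := fun v => Iff.rfl
    have hTX : ∀ T : LieSubmodule C L V, IsAtom T → T.toSubmodule ≤ X := by
      intro T hT v hv
      rw [hX]
      have h1 : H S' T ≤ sSup 𝓗 := le_sSup ⟨S, S', T, hS, hSS', hT, rfl⟩
      apply h1
      rw [hHmem]
      refine ⟨fun w hw => by simp [hf w hw], fun w => ?_⟩
      rw [LinearMap.smulRight_apply]
      exact T.smul_mem _ hv
    have htop : (⊤ : Submodule C V) ≤ X := by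
      have h1 : (sSup {T : LieSubmodule C L V | IsAtom T}).toSubmodule ≤ X := by
        rw [LieSubmodule.sSup_toSubmodule_eq_iSup]
        exact iSup₂_le hTX
      rw [hatoms] at h1
      exact h1
    intro v
    exact (hX v).mp (htop trivial)
  -- functionals
  let F : Submodule C (Module.Dual C V) :=
    { carrier := {f | ∀ v : V, LinearMap.smulRight f v ∈ sSup 𝓗}
      add_mem' := by
        intro f g hf hg v
        have e : LinearMap.smulRight (f + g) v = LinearMap.smulRight f v +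
            LinearMap.smulRight g v := by
          ext w; simp [add_smul]
        rw [e]
        exact (sSup 𝓗).add_mem (hf v) (hg v)
      zero_mem' := by
        intro v
        have e : LinearMap.smulRight (0 : Module.Dual C V) v = 0 := by ext w; simp
        rw [e]
        exact (sSup 𝓗).zero_mem
      smul_mem' := by
        intro c f hf v
        have e : LinearMap.smulRight (c • f) v = c • LinearMap.smulRight f v := by
          ext w; simp [smul_smul]
        rw [e]
        exact (sSup 𝓗).smul_mem c (hf v) }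
  have hF : ∀ f, f ∈ F ↔ ∀ v : V, LinearMap.smulRight f v ∈ sSup 𝓗 := fun f => Iff.rfl
  have hFco : F.dualCoannihilator = ⊥ := by
    rw [eq_bot_iff]
    intro x hx
    have hxall : ∀ S S' : LieSubmodule C L V, IsAtom S → IsCompl S S' → x ∈ S' := by
      intro S S' hS hSS'
      have h1 := Subspace.forall_mem_dualAnnihilator_apply_eq_zero_iff S'.toSubmodule x
      apply h1.mp
      intro f hf
      rw [Submodule.mem_dualAnnihilator] at hf
      rw [Submodule.mem_dualCoannihilator] at hx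
      apply hx
      rw [hF]
      exact hrank1 S S' hS hSS' f hf
    let Z : LieSubmodule C L V := sInf {S' | ∃ S, IsAtom S ∧ IsCompl S S'}
    have hxZ : x ∈ Z := by
      rw [← SetLike.mem_coe, LieSubmodule.coe_sInf, Set.mem_iInter₂]
      rintro S' ⟨S, hS, hSS'⟩
      exact hxall S S' hS hSS'
    have hZ : Z = ⊥ := by
      rcases IsAtomic.eq_bot_or_exists_atom_le Z with h | ⟨S, hS, hSZ⟩
      · exact h
      · exfalso
        obtain ⟨S', hSS'⟩ := hV S
        have h1 : Z ≤ S' := sInf_le ⟨S, hS, hSS'⟩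
        exact hS.1 (le_bot_iff.mp (hSS'.disjoint le_rfl (hSZ.trans h1)))
    rw [hZ, LieSubmodule.mem_bot] at hxZ
    rw [Submodule.mem_bot]
    exact hxZ
  have hFtop : F = ⊤ := by
    have h1 : F.dualCoannihilator.dualAnnihilator = F :=
      Subspace.dualCoannihilator_dualAnnihilator_eq
    rw [hFco, Submodule.dualAnnihilator_bot] at h1
    exact h1.symm
  have hsup : sSup 𝓗 = ⊤ := by
    rw [eq_top_iff]
    intro φ _
    let b := Module.finBasis C V
    have e : φ = ∑ i, LinearMap.smulRight (b.coord i) (φ (b i)) := by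
      ext v
      rw [LinearMap.sum_apply]
      simp only [LinearMap.smulRight_apply, Module.Basis.coord_apply]
      conv_lhs => rw [← b.sum_repr v, map_sum]
      simp only [map_smul]
    rw [e]
    refine Submodule.sum_mem (sSup 𝓗).toSubmodule fun i _ => ?_
    have h1 : b.coord i ∈ F := by rw [hFtop]; trivial
    exact (hF _).mp h1 _
  apply a19237_S 𝓗 hsup
  rintro X ⟨S, S', T, hS, hSS', hT, rfl⟩ W hW
  obtain ⟨K₀, hK₀⟩ := a19237_B hsplit L (H S' T) (by
    intro z hz
    obtain ⟨cS, hcS⟩ := a19237_R S hS z hz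
    obtain ⟨cT, hcT⟩ := a19237_R T hT z hz
    refine ⟨cT - cS, fun φ => ?_⟩
    obtain ⟨h1, h2⟩ := (hHmem S' T φ).mp φ.2
    apply Subtype.ext
    ext v
    have hv : v ∈ S ⊔ S' := by rw [hSS'.sup_eq_top]; trivial
    rw [LieSubmodule.mem_sup] at hv
    obtain ⟨s, hs, s', hs', rfl⟩ := hv
    rw [LieSubmodule.coe_bracket, LieHom.lie_apply, hcT _ (h2 _), lie_add, hcS s hs, map_add,
      map_add, h1 _ (S'.lie_mem hs'), h1 s' hs', map_smul]
    show cT • ((φ : V →ₗ[C] V) s + 0) - (cS • (φ : V →ₗ[C] V) s + 0) =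
      (cT - cS) • (φ : V →ₗ[C] V) (s + s')
    rw [map_add, h1 s' hs']
    module) (W.comap (H S' T).incl)
  refine ⟨K₀.map (H S' T).incl, ?_, ?_, ?_⟩
  · rintro x hx
    rw [LieSubmodule.mem_map] at hx
    obtain ⟨y, _, rfl⟩ := hx
    exact y.2
  · rw [eq_bot_iff]
    intro x hx
    rw [LieSubmodule.mem_inf, LieSubmodule.mem_map] at hx
    obtain ⟨hxW, y, hy, rfl⟩ := hx
    have h1 : y ∈ W.comap (H S' T).incl := by
      rw [LieSubmodule.mem_comap]; exact hxW
    have h2 : y ∈ (⊥ : LieSubmodule C L (H S' T)) := by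
      rw [← hK₀.inf_eq_bot, LieSubmodule.mem_inf]
      exact ⟨h1, hy⟩
    rw [LieSubmodule.mem_bot] at h2
    rw [h2, LieSubmodule.mem_bot]
    rfl
  · apply le_antisymm
    · apply sup_le hW
      rintro x hx
      rw [LieSubmodule.mem_map] at hx
      obtain ⟨y, _, rfl⟩ := hx
      exact y.2
    · intro x hx
      have h1 : (⟨x, hx⟩ : H S' T) ∈ W.comap (H S' T).incl ⊔ K₀ := by
        rw [hK₀.sup_eq_top]; trivial
      rw [LieSubmodule.mem_sup] at h1
      obtain ⟨y, hy, z, hz, hyz⟩ := h1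
      rw [LieSubmodule.mem_sup]
      rw [LieSubmodule.mem_comap] at hy
      refine ⟨y, hy, z, ?_, congrArg Subtype.val hyz⟩
      rw [LieSubmodule.mem_map]
      exact ⟨z, hz, rfl⟩

/-- If the Lie algebra `L ⊆ gl(V)` acts semisimply on `V` (char 0, alg. closed) then it acts
semisimply on `gl(V)`. -/
theorem lie_ad {C V : Type u} [Field C] [CharZero C] [IsAlgClosed C]
    (hsplit : ∀ (L : Type u) [LieRing L] [LieAlgebra C L] [FiniteDimensional C L]
      [LieAlgebra.HasTrivialRadical C L]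
      (V : Type u) [AddCommGroup V] [Module C V] [LieRingModule L V] [LieModule C L V]
      [FiniteDimensional C V] (V₁ : LieSubmodule C L V), V₁ ≠ ⊤ →
      (∀ (x : L) (v : V), ⁅x, v⁆ ∈ V₁) → ∃ v : V, v ∉ V₁ ∧ ∀ x : L, ⁅x, v⁆ = 0)
    [AddCommGroup V] [Module C V] [FiniteDimensional C V]
    (L : Submodule C (Module.End C V)) (hL : ∀ x ∈ L, ∀ y ∈ L, x * y - y * x ∈ L)
    (hV : ∀ W : Submodule C V, (∀ x ∈ L, ∀ w ∈ W, x w ∈ W) →
      ∃ W' : Submodule C V, (∀ x ∈ L, ∀ w ∈ W', x w ∈ W') ∧ IsCompl W W') :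
    ∀ W : Submodule C (Module.End C V), (∀ x ∈ L, ∀ w ∈ W, x * w - w * x ∈ W) →
      ∃ W' : Submodule C (Module.End C V), (∀ x ∈ L, ∀ w ∈ W', x * w - w * x ∈ W') ∧
        IsCompl W W' := by
  let L' : LieSubalgebra C (Module.End C V) :=
    { L with
      lie_mem' := fun {x y} hx hy => by
        rw [Ring.lie_def]
        exact hL x hx y hy }
  haveI : FiniteDimensional C L' := inferInstanceAs (FiniteDimensional C L)
  have hVL : ∀ W : LieSubmodule C L' V, ∃ W' : LieSubmodule C L' V, IsCompl W W' := by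
    intro W
    obtain ⟨W', h1, h2⟩ := hV W.toSubmodule (fun x hx w hw => W.lie_mem (x := (⟨x, hx⟩ : L')) hw)
    refine ⟨{ W' with lie_mem := fun {x m} hm => h1 x.1 x.2 m hm }, ?_⟩
    rw [isCompl_iff, disjoint_iff, codisjoint_iff] at h2 ⊢
    constructor
    · rw [eq_bot_iff]
      intro v hv
      rw [LieSubmodule.mem_inf] at hv
      have h3 : v ∈ W.toSubmodule ⊓ W' := ⟨hv.1, hv.2⟩
      rw [h2.1, Submodule.mem_bot] at h3
      rw [LieSubmodule.mem_bot]
      exact h3
    · rw [eq_top_iff]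
      intro v _
      have h3 : v ∈ W.toSubmodule ⊔ W' := by rw [h2.2]; trivial
      rw [Submodule.mem_sup] at h3
      rw [LieSubmodule.mem_sup]
      exact h3
  have hD := a19237_D (C := C) hsplit L' V hVL
  intro W hW
  obtain ⟨W', h1, h2⟩ := hD { W with lie_mem := fun {x m} hm => hW x.1 x.2 m hm }
  refine ⟨W'.toSubmodule, fun x hx w hw => W'.lie_mem (x := (⟨x, hx⟩ : L')) hw, ?_⟩
  rw [disjoint_iff] at h1
  rw [codisjoint_iff] at h2
  rw [isCompl_iff, disjoint_iff, codisjoint_iff]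
  constructor
  · rw [eq_bot_iff]
    rintro v ⟨hv1, hv2⟩
    have h3 : v ∈ ({ W with lie_mem := fun {x m} hm => hW x.1 x.2 m hm } :
        LieSubmodule C L' (V →ₗ[C] V)) ⊓ W' := by
      rw [LieSubmodule.mem_inf]
      exact ⟨hv1, hv2⟩
    rw [h1, LieSubmodule.mem_bot] at h3
    rw [Submodule.mem_bot]
    exact h3
  · rw [eq_top_iff]
    intro v _
    have h3 : v ∈ ({ W with lie_mem := fun {x m} hm => hW x.1 x.2 m hm } :
        LieSubmodule C L' (V →ₗ[C] V)) ⊔ W' := by
      rw [h2]; trivial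
    rw [LieSubmodule.mem_sup] at h3
    rw [Submodule.mem_sup]
    exact h3

end aux19237

end Cb
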