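import Pool.Agent.Helper462.Cb.Defs

namespace Cb

universe u


theorem lie_ad_matrix_key {C : Type*} [Field C] {ι : Type} [Fintype ι] [DecidableEq ι]
    (x : Matrix ι ι C) (u : ι × ι → C) (i j : ι) :
    (adM x).mulVec u (i, j) = ∑ l, x i l * u (l, j) - ∑ l, u (i, l) * x l j := by
  have h1 : (adM x).mulVec u (i, j) = ∑ y : ι × ι,
      ((if j = y.2 then x i y.1 else 0) - (if i = y.1 then x y.2 j else 0)) * u y := rfl
  rw [h1]
  simp only [sub_mul, ite_mul, zero_mul, Finset.sum_sub_distrib]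
  congr 1
  · rw [Fintype.sum_prod_type]
    refine Finset.sum_congr rfl fun l _ => ?_
    simp
  · rw [Fintype.sum_prod_type_right]
    refine Finset.sum_congr rfl fun l _ => ?_
    simp [mul_comm]

theorem lie_ad_matrix
    (hlie : ∀ (C V : Type u) [Field C] [CharZero C] [IsAlgClosed C]
      [AddCommGroup V] [Module C V] [FiniteDimensional C V]
      (L : Submodule C (Module.End C V)), (∀ x ∈ L, ∀ y ∈ L, x * y - y * x ∈ L) →
      (∀ W : Submodule C V, (∀ x ∈ L, ∀ w ∈ W, x w ∈ W) →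
        ∃ W' : Submodule C V, (∀ x ∈ L, ∀ w ∈ W', x w ∈ W') ∧ IsCompl W W') →
      ∀ W : Submodule C (Module.End C V), (∀ x ∈ L, ∀ w ∈ W, x * w - w * x ∈ W) →
        ∃ W' : Submodule C (Module.End C V), (∀ x ∈ L, ∀ w ∈ W', x * w - w * x ∈ W') ∧
          IsCompl W W')
    {C : Type u} [Field C] [CharZero C] [IsAlgClosed C] {ι : Type} [Fintype ι] [DecidableEq ι]
    (g : Submodule C (Matrix ι ι C)) (hg : ∀ x ∈ g, ∀ y ∈ g, x * y - y * x ∈ g)
    (hV : ∀ U : Submodule C (ι → C), (∀ x ∈ g, ∀ u ∈ U, x.mulVec u ∈ U) →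
      ∃ U' : Submodule C (ι → C), (∀ x ∈ g, ∀ u ∈ U', x.mulVec u ∈ U') ∧ IsCompl U U') :
    ∀ U : Submodule C (ι × ι → C), (∀ x ∈ g, ∀ u ∈ U, (adM x).mulVec u ∈ U) →
      ∃ U' : Submodule C (ι × ι → C), (∀ x ∈ g, ∀ u ∈ U', (adM x).mulVec u ∈ U') ∧
        IsCompl U U' := by
  let e : Matrix ι ι C ≃ₐ[C] Module.End C (ι → C) := Matrix.toLinAlgEquiv'
  let f : (ι × ι → C) ≃ₗ[C] Matrix ι ι C := LinearEquiv.curry C C ι ι
  let F : (ι × ι → C) ≃ₗ[C] Module.End C (ι → C) := f.trans e.toLinearEquiv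
  have hf : ∀ (x : Matrix ι ι C) (u : ι × ι → C), f ((adM x).mulVec u) = x * f u - f u * x := by
    intro x u
    ext i j
    rw [Matrix.sub_apply, Matrix.mul_apply, Matrix.mul_apply]
    exact lie_ad_matrix_key x u i j
  have hF : ∀ (x : Matrix ι ι C) (u : ι × ι → C),
      F ((adM x).mulVec u) = e x * F u - F u * e x := by
    intro x u
    show e (f ((adM x).mulVec u)) = e x * e (f u) - e (f u) * e x
    rw [hf, map_sub, map_mul, map_mul]
  have he : ∀ (x : Matrix ι ι C) (v : ι → C), e x v = x.mulVec v := by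
    intro x v
    exact Matrix.toLinAlgEquiv'_apply x v
  intro U hU
  obtain ⟨W', hW', hc⟩ := hlie C (ι → C) (g.map e.toLinearMap)
    (by
      rintro _ ⟨x, hx, rfl⟩ _ ⟨y, hy, rfl⟩
      refine ⟨x * y - y * x, hg x hx y hy, ?_⟩
      simp)
    (by
      intro W hW
      obtain ⟨U', hU', hc⟩ := hV W (by
        intro x hx u hu
        have := hW (e x) ⟨x, hx, rfl⟩ u hu
        rwa [he] at this)
      refine ⟨U', ?_, hc⟩
      rintro _ ⟨x, hx, rfl⟩ w hw
      have := hU' x hx w hw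
      rw [← he] at this
      exact this)
    (U.map F.toLinearMap)
    (by
      rintro _ ⟨x, hx, rfl⟩ _ ⟨u, hu, rfl⟩
      refine ⟨(adM x).mulVec u, hU x hx u hu, ?_⟩
      exact hF x u)
  refine ⟨W'.comap F.toLinearMap, ?_, ?_⟩
  · intro x hx u hu
    show F ((adM x).mulVec u) ∈ W'
    rw [hF]
    exact hW' (e x) ⟨x, hx, rfl⟩ (F u) hu
  · have h1 := (Submodule.orderIsoMapComap F).symm.isCompl hc
    have h2 : (Submodule.orderIsoMapComap F).symm (U.map F.toLinearMap) = U := by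
      rw [OrderIso.symm_apply_eq]
      rfl
    rw [h2] at h1
    exact h1

end Cb
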