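import Pool.Agent.Helper462.Cb.Defs

namespace Cb

universe u

theorem simple_aux_nzd {S : Type u} [CommRing S] (d : Derivation ℤ S S)
    (hs : ∀ I : Ideal S, (∀ x ∈ I, d x ∈ I) → I = ⊥ ∨ I = ⊤) (a : S) (ha : ¬ IsNilpotent a)
    (s : S) (h : a * s = 0) : s = 0 := by
  let I : Ideal S :=
    { carrier := {s | ∃ n : ℕ, a ^ n * s = 0}
      add_mem' := by
        rintro x y ⟨n, hn⟩ ⟨m, hm⟩
        refine ⟨n + m, ?_⟩
        have e : a ^ (n + m) * (x + y) = a ^ m * (a ^ n * x) + a ^ n * (a ^ m * y) := by ring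
        rw [e, hn, hm, mul_zero, mul_zero, add_zero]
      zero_mem' := ⟨0, by simp⟩
      smul_mem' := by
        rintro c x ⟨n, hn⟩
        refine ⟨n, ?_⟩
        have e : a ^ n * (c • x) = c * (a ^ n * x) := by
          rw [smul_eq_mul]
          ring
        rw [e, hn, mul_zero] }
  have hI : ∀ x, x ∈ I ↔ ∃ n : ℕ, a ^ n * x = 0 := fun x => Iff.rfl
  have hst : ∀ x ∈ I, d x ∈ I := by
    intro x hx
    obtain ⟨n, hn⟩ := (hI x).1 hx
    refine (hI _).2 ⟨n + 1, ?_⟩
    have h1 : a ^ (n + 1) * x = 0 := by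
      rw [pow_succ, mul_assoc, mul_comm a x, ← mul_assoc, hn, zero_mul]
    have h2 : d (a ^ (n + 1) * x) = 0 := by rw [h1, map_zero]
    rw [Derivation.leibniz, Derivation.leibniz_pow, Nat.add_sub_cancel] at h2
    have h3 : x • ((n + 1) • a ^ n • d a) = 0 := by
      have e : x • ((n + 1) • a ^ n • d a) = (n + 1) • (a ^ n * x * d a) := by
        rw [smul_comm, smul_eq_mul, smul_eq_mul]
        congr 1
        ring
      rw [e, hn, zero_mul, smul_zero]
    rw [h3, add_zero, smul_eq_mul] at h2
    exact h2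
  rcases hs I hst with h1 | h1
  · have h2 : s ∈ I := (hI s).2 ⟨1, by rw [pow_one]; exact h⟩
    rw [h1] at h2
    exact (Submodule.mem_bot S).1 h2
  · exfalso
    apply ha
    have h2 : (1 : S) ∈ I := by
      rw [h1]
      trivial
    obtain ⟨n, hn⟩ := (hI 1).1 h2
    rw [mul_one] at hn
    exact ⟨n, hn⟩

theorem simple_diff_domain {S : Type u} [CommRing S] [Algebra ℚ S] [Nontrivial S]
    (d : Derivation ℤ S S)
    (hs : ∀ I : Ideal S, (∀ x ∈ I, d x ∈ I) → I = ⊥ ∨ I = ⊤) : IsDomain S := by
  have hst : ∀ x ∈ nilradical S, d x ∈ nilradical S := by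
    intro x hx
    rw [mem_nilradical] at hx ⊢
    by_contra hcon
    classical
    have hfind := Nat.find_spec hx
    have hmin := fun m => Nat.find_min hx (m := m)
    generalize Nat.find hx = n at hfind hmin
    cases n with
    | zero =>
      rw [pow_zero] at hfind
      exact one_ne_zero hfind
    | succ k =>
      apply hmin k (Nat.lt_succ_self k)
      have h2 : d (x ^ (k + 1)) = 0 := by rw [hfind, map_zero]
      rw [Derivation.leibniz_pow, Nat.add_sub_cancel, ← Nat.cast_smul_eq_nsmul ℚ,
        smul_eq_zero, smul_eq_mul] at h2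
      rcases h2 with h2 | h2
      · exact absurd h2 (by positivity)
      · exact simple_aux_nzd d hs (d x) hcon (x ^ k) (by rw [mul_comm]; exact h2)
  have hN : nilradical S = ⊥ := by
    rcases hs (nilradical S) hst with h | h
    · exact h
    · exfalso
      have h1 : (1 : S) ∈ nilradical S := by
        rw [h]
        trivial
      obtain ⟨n, hn⟩ := mem_nilradical.1 h1
      rw [one_pow] at hn
      exact one_ne_zero hn
  have : NoZeroDivisors S := by
    refine ⟨?_⟩
    intro a b hab
    by_cases ha : IsNilpotent a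
    · left
      have h1 : a ∈ nilradical S := mem_nilradical.2 ha
      rw [hN] at h1
      exact (Submodule.mem_bot S).1 h1
    · right
      exact simple_aux_nzd d hs a ha b hab
  exact NoZeroDivisors.to_isDomain S


end Cb
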