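import Pool.Agent.Helper462.Cb.Defs

namespace Cb

universe u

open Polynomial in
theorem finite_unit_shift {k S : Type u} [Field k] [CommRing S] [IsDomain S] [Algebra k S]
    [Algebra.FiniteType k S] (c : S) (hc : Transcendental k c) :
    {a : k | IsUnit (c - algebraMap k S a)}.Finite := by
  classical
  have hinj : Function.Injective (aeval c : k[X] →ₐ[k] S) := transcendental_iff_injective.1 hc
  let f : k[X] →+* S := (aeval c : k[X] →ₐ[k] S).toRingHom
  have hft : f.FiniteType := by
    have h1 : (f.comp (C : k →+* k[X])).FiniteType := by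
      have h2 : f.comp (C : k →+* k[X]) = algebraMap k S := by
        ext a
        simp [f]
      rw [h2]
      exact RingHom.finiteType_algebraMap.2 inferInstance
    exact RingHom.FiniteType.of_comp_finiteType h1
  have hfp : f.FinitePresentation := (RingHom.FinitePresentation.of_finiteType (f := f)).1 hft
  obtain ⟨T, hT⟩ := PrimeSpectrum.exists_constructibleSetData_iff.2
    (PrimeSpectrum.isConstructible_range_comap hfp)
  have hbot : (⊥ : PrimeSpectrum k[X]) ∈ Set.range (PrimeSpectrum.comap f) := by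
    refine ⟨⊥, ?_⟩
    ext x
    simp only [PrimeSpectrum.comap_asIdeal, Ideal.mem_comap]
    change f x ∈ (⊥ : Ideal S) ↔ x ∈ (⊥ : Ideal k[X])
    rw [Ideal.mem_bot, Ideal.mem_bot]
    exact map_eq_zero_iff _ hinj
  rw [← hT] at hbot
  unfold PrimeSpectrum.ConstructibleSetData.toSet at hbot hT
  rw [Set.mem_iUnion₂] at hbot
  obtain ⟨D, hD, hbD⟩ := hbot
  unfold PrimeSpectrum.BasicConstructibleSetData.toSet at hbD
  obtain ⟨hb1, hb2⟩ := hbD
  have hg : ∀ i, D.g i = 0 := by
    intro i
    have : D.g i ∈ (⊥ : Ideal k[X]) := hb1 (Set.mem_range_self i)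
    simpa using this
  have hf0 : D.f ≠ 0 := by
    intro h
    apply hb2
    intro x hx
    rw [Set.mem_singleton_iff] at hx
    rw [hx, h]
    exact Ideal.zero_mem _
  refine Set.Finite.subset (D.f.roots.toFinset.finite_toSet) ?_
  intro a ha
  rw [Finset.mem_coe, Multiset.mem_toFinset, mem_roots hf0]
  by_contra hroot
  -- the prime of `X - a`
  have hp : (Ideal.span {X - C a} : Ideal k[X]).IsPrime := by
    rw [Ideal.span_singleton_prime (X_sub_C_ne_zero a)]
    exact prime_X_sub_C a
  have hmem : (⟨Ideal.span {X - C a}, hp⟩ : PrimeSpectrum k[X]) ∈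
      Set.range (PrimeSpectrum.comap f) := by
    rw [← hT, Set.mem_iUnion₂]
    refine ⟨D, hD, ?_⟩
    unfold PrimeSpectrum.BasicConstructibleSetData.toSet
    refine ⟨?_, ?_⟩
    · rintro _ ⟨i, rfl⟩
      rw [hg i]
      exact Ideal.zero_mem _
    · intro h
      have h1 : D.f ∈ (Ideal.span {X - C a} : Ideal k[X]) := h (Set.mem_singleton _)
      rw [Ideal.mem_span_singleton, dvd_iff_isRoot] at h1
      exact hroot h1
  obtain ⟨P, hP⟩ := hmem
  have h1 : (X - C a : k[X]) ∈ (PrimeSpectrum.comap f P).asIdeal := by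
    rw [hP]
    exact Ideal.mem_span_singleton_self _
  rw [PrimeSpectrum.comap_asIdeal, Ideal.mem_comap] at h1
  have h2 : f (X - C a) = c - algebraMap k S a := by
    simp [f]
  rw [h2] at h1
  exact P.isPrime.ne_top (Ideal.eq_top_of_isUnit_mem _ h1 ha)

end Cb
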