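import Pool.Agent.Helper462.Cb.Defs

namespace Cb

universe u

/-- the dual-number homomorphism of a pair (ring homomorphism, derivation along it) -/
noncomputable def dualHom {R S : Type u} [CommRing R] [CommRing S] (φ : R →+* S) (e : R →+ S)
    (he : ∀ a b, e (a * b) = φ a * e b + φ b * e a) : R →+* DualNumber S where
  toFun := fun a => (TrivSqZeroExt.inl (φ a) : DualNumber S) + TrivSqZeroExt.inr (e a)
  map_one' := by
    have h1 : e 1 = 0 := by
      have := he 1 1
      rw [mul_one, map_one φ, one_mul] at this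
      simpa using this
    rw [map_one, h1, TrivSqZeroExt.inr_zero, add_zero]
    rfl
  map_mul' := fun a b => by
    ext
    · simp
    · simp [he, mul_comm]
  map_zero' := by simp
  map_add' := fun a b => by
    ext
    · simp
    · simp

theorem exists_der_ext {k : Type u} [Field k] (δ : Derivation ℤ k k) {σ : Type}
    (f : σ → MvPolynomial σ k) :
    ∃ D : MvPolynomial σ k →+ MvPolynomial σ k, (∀ a b, D (a * b) = a * D b + b * D a) ∧
      (∀ a, D (MvPolynomial.C a) = MvPolynomial.C (δ a)) ∧
      ∀ i, D (MvPolynomial.X i) = f i := by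
  let Φ : MvPolynomial σ k →+* DualNumber (MvPolynomial σ k) :=
    MvPolynomial.eval₂Hom
      (dualHom (MvPolynomial.C : k →+* MvPolynomial σ k)
        ((MvPolynomial.C : k →+* MvPolynomial σ k).toAddMonoidHom.comp
          (δ : k →ₗ[ℤ] k).toAddMonoidHom) (by
          intro a b
          show MvPolynomial.C (δ (a * b)) = MvPolynomial.C a * MvPolynomial.C (δ b) +
            MvPolynomial.C b * MvPolynomial.C (δ a)
          rw [Derivation.leibniz, map_add, smul_eq_mul, smul_eq_mul, map_mul, map_mul]))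
      (fun i => (TrivSqZeroExt.inl (MvPolynomial.X i) : DualNumber (MvPolynomial σ k)) +
        TrivSqZeroExt.inr (f i))
  have hC : ∀ a, Φ (MvPolynomial.C a) =
      (TrivSqZeroExt.inl (MvPolynomial.C a) : DualNumber (MvPolynomial σ k)) +
        TrivSqZeroExt.inr (MvPolynomial.C (δ a)) := by
    intro a
    show MvPolynomial.eval₂Hom _ _ (MvPolynomial.C a) = _
    rw [MvPolynomial.coe_eval₂Hom, MvPolynomial.eval₂_C]
    rfl
  have hX : ∀ i, Φ (MvPolynomial.X i) =
      (TrivSqZeroExt.inl (MvPolynomial.X i) : DualNumber (MvPolynomial σ k)) +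
        TrivSqZeroExt.inr (f i) := by
    intro i
    show MvPolynomial.eval₂Hom _ _ (MvPolynomial.X i) = _
    rw [MvPolynomial.coe_eval₂Hom, MvPolynomial.eval₂_X]
  have hfst : ∀ x, TrivSqZeroExt.fst (Φ x) = x := by
    intro x
    induction x using MvPolynomial.induction_on with
    | C a => rw [hC]; simp
    | add p q hp hq => rw [map_add, TrivSqZeroExt.fst_add, hp, hq]
    | mul_X p i hp => rw [map_mul, TrivSqZeroExt.fst_mul, hp, hX]; simp
  refine ⟨{ toFun := fun x => TrivSqZeroExt.snd (Φ x)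
            map_zero' := by rw [map_zero, TrivSqZeroExt.snd_zero]
            map_add' := fun x y => by rw [map_add, TrivSqZeroExt.snd_add] }, ?_,
    fun a => ?_, fun i => ?_⟩
  · intro a b
    show TrivSqZeroExt.snd (Φ (a * b)) = a * TrivSqZeroExt.snd (Φ b) +
      b * TrivSqZeroExt.snd (Φ a)
    rw [map_mul, TrivSqZeroExt.snd_mul, hfst, hfst, op_smul_eq_smul]
    rfl
  · show TrivSqZeroExt.snd (Φ (MvPolynomial.C a)) = _
    rw [hC]; simp
  · show TrivSqZeroExt.snd (Φ (MvPolynomial.X i)) = _
    rw [hX]; simp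

theorem exists_der_quot {P S : Type u} [CommRing P] [CommRing S] (D : P →+ P)
    (hD : ∀ a b, D (a * b) = a * D b + b * D a) (π : P →+* S) (hπ : Function.Surjective π)
    (hm : ∀ x, π x = 0 → π (D x) = 0) :
    ∃ d : Derivation ℤ S S, ∀ x, d (π x) = π (D x) := by
  have key : ∀ x y, π x = π y → π (D x) = π (D y) := by
    intro x y h
    have h1 : π (x - y) = 0 := by rw [map_sub, h, sub_self]
    have h2 := hm _ h1
    rw [map_sub, map_sub, sub_eq_zero] at h2
    exact h2
  have hs : ∀ s, π (Function.surjInv hπ s) = s := Function.surjInv_eq hπ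
  refine ⟨Derivation.mk'
    ({ toFun := fun s => π (D (Function.surjInv hπ s))
       map_zero' := by
        have := key (Function.surjInv hπ 0) 0 (by rw [hs, map_zero])
        rw [this, map_zero, map_zero]
       map_add' := fun x y => by
        have := key (Function.surjInv hπ (x + y)) (Function.surjInv hπ x + Function.surjInv hπ y)
          (by rw [map_add, hs, hs, hs])
        rw [this, map_add, map_add] } : S →+ S).toIntLinearMap ?_, ?_⟩
  · intro a b
    show π (D (Function.surjInv hπ (a * b))) = a * π (D (Function.surjInv hπ b)) +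
      b * π (D (Function.surjInv hπ a))
    have := key (Function.surjInv hπ (a * b)) (Function.surjInv hπ a * Function.surjInv hπ b)
          (by rw [map_mul, hs, hs, hs])
    rw [this, hD, map_add, map_mul, map_mul, hs, hs]
  · intro x
    show π (D (Function.surjInv hπ (π x))) = π (D x)
    exact key _ _ (hs _)

theorem map_der_mul {P : Type u} [CommRing P] (D : P →+ P)
    (hD : ∀ a b, D (a * b) = a * D b + b * D a) {ι : Type} [Fintype ι]
    (M N : Matrix ι ι P) : (M * N).map D = M * N.map D + M.map D * N := by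
  ext i j
  simp only [Matrix.map_apply, Matrix.mul_apply, Matrix.add_apply, map_sum, hD,
    Finset.sum_add_distrib]
  congr 1
  apply Finset.sum_congr rfl
  intro l _
  ring

theorem span_stable {P : Type u} [CommRing P] (D : P →+ P)
    (hD : ∀ a b, D (a * b) = a * D b + b * D a) (s : Set P)
    (hs : ∀ x ∈ s, D x ∈ Ideal.span s) : ∀ x ∈ Ideal.span s, D x ∈ Ideal.span s := by
  intro x hx
  refine Submodule.span_induction (p := fun x _ => D x ∈ Ideal.span s) ?_ ?_ ?_ ?_ hx
  · exact hs
  · rw [map_zero]; exact Ideal.zero_mem _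
  · intro x y _ _ h1 h2
    rw [map_add]; exact Ideal.add_mem _ h1 h2
  · intro a x hx h1
    rw [smul_eq_mul, hD]
    exact Ideal.add_mem _ (Ideal.mul_mem_left _ _ h1) (Ideal.mul_mem_right _ _ hx)

theorem exists_max_stable {P : Type u} [CommRing P] (D : P →+ P) (J : Ideal P)
    (hJ : ∀ x ∈ J, D x ∈ J) (hJ1 : (1 : P) ∉ J) :
    ∃ m : Ideal P, J ≤ m ∧ (1 : P) ∉ m ∧ (∀ x ∈ m, D x ∈ m) ∧
      ∀ I : Ideal P, m ≤ I → (∀ x ∈ I, D x ∈ I) → (1 : P) ∉ I → I = m := by
  obtain ⟨m, hJm, hm⟩ := zorn_le_nonempty₀ {I : Ideal P | (1 : P) ∉ I ∧ ∀ x ∈ I, D x ∈ I}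
    (by
      intro c hc hchain y hy
      refine ⟨sSup c, ⟨?_, ?_⟩, fun z hz => le_sSup hz⟩
      · intro h1
        rw [Submodule.mem_sSup_of_directed ⟨y, hy⟩ hchain.directedOn] at h1
        obtain ⟨I, hI, h2⟩ := h1
        exact (hc hI).1 h2
      · intro x hx
        rw [Submodule.mem_sSup_of_directed ⟨y, hy⟩ hchain.directedOn] at hx
        obtain ⟨I, hI, h2⟩ := hx
        exact (le_sSup hI : I ≤ sSup c) ((hc hI).2 x h2)) J ⟨hJ1, hJ⟩
  refine ⟨m, hJm, hm.prop.1, hm.prop.2, ?_⟩
  intro I hmI hI hI1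
  exact le_antisymm (hm.le_of_ge ⟨hI1, hI⟩ hmI) hmI

theorem exists_pv_ring {k : Type u} [Field k] [CharZero k] (δ : Derivation ℤ k k)
    {ι : Type} [Fintype ι] [DecidableEq ι] (A : Matrix ι ι k) :
    ∃ (S : Type u) (_ : CommRing S) (_ : Nontrivial S) (_ : Algebra k S)
      (_ : Algebra.FiniteType k S) (d : Derivation ℤ S S) (X Y : Matrix ι ι S),
      (∀ a : k, d (algebraMap k S a) = algebraMap k S (δ a)) ∧ X * Y = 1 ∧ Y * X = 1 ∧
      (∀ i j, d (X i j) = - ∑ l, algebraMap k S (A i l) * X l j) ∧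
      (∀ I : Ideal S, (∀ x ∈ I, d x ∈ I) → I = ⊥ ∨ I = ⊤) := by
  classical
  let σ : Type := (ι × ι) ⊕ (ι × ι)
  let P : Type u := MvPolynomial σ k
  let X : Matrix ι ι P := Matrix.of fun i j => MvPolynomial.X (Sum.inl (i, j))
  let Y : Matrix ι ι P := Matrix.of fun i j => MvPolynomial.X (Sum.inr (i, j))
  let B : Matrix ι ι P := A.map (MvPolynomial.C : k →+* P)
  obtain ⟨D, hDm, hDC, hDX⟩ := exists_der_ext δ (σ := σ)
    (Sum.elim (fun p => (-(B * X)) p.1 p.2) (fun p => (Y * B) p.1 p.2))
  have hX : X.map D = -(B * X) := by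
    ext1 i j
    exact hDX (Sum.inl (i, j))
  have hY : Y.map D = Y * B := by
    ext1 i j
    exact hDX (Sum.inr (i, j))
  have hXY : (X * Y).map D = X * Y * B - B * (X * Y) := by
    rw [map_der_mul D hDm, hX, hY, Matrix.neg_mul, Matrix.mul_assoc, Matrix.mul_assoc,
      sub_eq_add_neg]
  have hYX : (Y * X).map D = 0 := by
    rw [map_der_mul D hDm, hX, hY, Matrix.mul_neg, Matrix.mul_assoc, neg_add_cancel]
  let s : Set P := (Set.range fun p : ι × ι => (X * Y - 1) p.1 p.2) ∪
    (Set.range fun p : ι × ι => (Y * X - 1) p.1 p.2)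
  have hE : ∀ i j, (X * Y - 1) i j ∈ Ideal.span s := fun i j =>
    Ideal.subset_span (Or.inl ⟨(i, j), rfl⟩)
  have hE' : ∀ i j, (Y * X - 1) i j ∈ Ideal.span s := fun i j =>
    Ideal.subset_span (Or.inr ⟨(i, j), rfl⟩)
  have hDone : D (1 : P) = 0 := by
    have := hDC 1
    rw [Derivation.map_one_eq_zero, map_zero, map_one] at this
    exact this
  have hD1 : ∀ i j, D ((1 : Matrix ι ι P) i j) = 0 := by
    intro i j
    by_cases h : i = j
    · rw [h, Matrix.one_apply_eq, hDone]
    · rw [Matrix.one_apply_ne h, map_zero]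
  have hs : ∀ x ∈ s, D x ∈ Ideal.span s := by
    rintro x (⟨⟨i, j⟩, rfl⟩ | ⟨⟨i, j⟩, rfl⟩)
    · have h1 : D ((X * Y - 1) i j) = ((X * Y - 1) * B) i j - (B * (X * Y - 1)) i j := by
        rw [Matrix.sub_apply, map_sub, hD1, sub_zero]
        have h2 := congrFun (congrFun hXY i) j
        rw [Matrix.map_apply] at h2
        have h4 : (X * Y - 1) * B - B * (X * Y - 1) = X * Y * B - B * (X * Y) := by
          rw [sub_mul (X * Y), mul_sub B, one_mul, mul_one]
          abel
        rw [h2, ← h4, Matrix.sub_apply]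
      show D ((X * Y - 1) i j) ∈ Ideal.span s
      rw [h1, Matrix.mul_apply, Matrix.mul_apply]
      apply Ideal.sub_mem
      · exact Ideal.sum_mem _ fun l _ => Ideal.mul_mem_right _ _ (hE i l)
      · exact Ideal.sum_mem _ fun l _ => Ideal.mul_mem_left _ _ (hE l j)
    · show D ((Y * X - 1) i j) ∈ Ideal.span s
      have h2 := congrFun (congrFun hYX i) j
      rw [Matrix.map_apply] at h2
      rw [Matrix.sub_apply, map_sub, hD1, sub_zero, h2]
      exact Ideal.zero_mem _
  have hJ := span_stable D hDm s hs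
  have hJ1 : (1 : P) ∉ Ideal.span s := by
    intro h1
    let ev : P →+* k := MvPolynomial.eval
      (Sum.elim (fun p => (1 : Matrix ι ι k) p.1 p.2) (fun p => (1 : Matrix ι ι k) p.1 p.2))
    have hevX : X.map ev = 1 := by
      ext1 i j
      show MvPolynomial.eval _ (MvPolynomial.X (Sum.inl (i, j))) = _
      rw [MvPolynomial.eval_X]
      rfl
    have hevY : Y.map ev = 1 := by
      ext1 i j
      show MvPolynomial.eval _ (MvPolynomial.X (Sum.inr (i, j))) = _
      rw [MvPolynomial.eval_X]
      rfl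
    have h2 : Ideal.span s ≤ RingHom.ker ev := by
      rw [Ideal.span_le]
      rintro x (⟨⟨i, j⟩, rfl⟩ | ⟨⟨i, j⟩, rfl⟩)
      · show ev ((X * Y - 1) i j) = 0
        have h3 : (X * Y - 1).map ev = 0 := by
          rw [Matrix.map_sub _ (map_sub ev), Matrix.map_mul, hevX, hevY,
            Matrix.map_one _ (map_zero ev) (map_one ev), mul_one, sub_self]
        exact congrFun (congrFun h3 i) j
      · show ev ((Y * X - 1) i j) = 0
        have h3 : (Y * X - 1).map ev = 0 := by
          rw [Matrix.map_sub _ (map_sub ev), Matrix.map_mul, hevX, hevY,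
            Matrix.map_one _ (map_zero ev) (map_one ev), mul_one, sub_self]
        exact congrFun (congrFun h3 i) j
    have h3 := h2 h1
    rw [RingHom.mem_ker, map_one] at h3
    exact one_ne_zero h3
  obtain ⟨m, hJm, hm1, hmD, hmax⟩ := exists_max_stable D (Ideal.span s) hJ hJ1
  obtain ⟨d, hd⟩ := exists_der_quot (S := P ⧸ m) D hDm (Ideal.Quotient.mk m)
    Ideal.Quotient.mk_surjective (by
      intro x hx
      rw [Ideal.Quotient.eq_zero_iff_mem] at hx ⊢
      exact hmD x hx)
  have hnt : Nontrivial (P ⧸ m) := by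
    apply Ideal.Quotient.nontrivial_iff.2
    intro h
    rw [h] at hm1
    exact hm1 Submodule.mem_top
  have hft : Algebra.FiniteType k (P ⧸ m) :=
    Algebra.FiniteType.of_surjective (Ideal.Quotient.mkₐ k m) (Ideal.Quotient.mkₐ_surjective k m)
  refine ⟨P ⧸ m, inferInstance, hnt, inferInstance, hft, d,
    X.map (Ideal.Quotient.mk m), Y.map (Ideal.Quotient.mk m), ?_, ?_, ?_, ?_, ?_⟩
  · intro a
    exact (hd (MvPolynomial.C a)).trans (congrArg (Ideal.Quotient.mk m) (hDC a))
  · have h1 : (X * Y - 1).map (Ideal.Quotient.mk m) = 0 := by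
      ext1 i j
      exact Ideal.Quotient.eq_zero_iff_mem.2 (hJm (hE i j))
    rw [Matrix.map_sub _ (map_sub _), Matrix.map_mul,
      Matrix.map_one _ (map_zero _) (map_one _), sub_eq_zero] at h1
    exact h1
  · have h1 : (Y * X - 1).map (Ideal.Quotient.mk m) = 0 := by
      ext1 i j
      exact Ideal.Quotient.eq_zero_iff_mem.2 (hJm (hE' i j))
    rw [Matrix.map_sub _ (map_sub _), Matrix.map_mul,
      Matrix.map_one _ (map_zero _) (map_one _), sub_eq_zero] at h1
    exact h1
  · intro i j
    have h1 := congrFun (congrFun hX i) j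
    rw [Matrix.map_apply, Matrix.neg_apply, Matrix.mul_apply] at h1
    have h2 : d ((X.map (Ideal.Quotient.mk m)) i j) = Ideal.Quotient.mk m (D (X i j)) :=
      hd (X i j)
    rw [h2, h1, map_neg, map_sum]
    congr 1
  · intro I hI
    by_cases h1 : (1 : P ⧸ m) ∈ I
    · right
      exact (Ideal.eq_top_iff_one I).2 h1
    · left
      have h2 : Ideal.comap (Ideal.Quotient.mk m) I = m := by
        apply hmax
        · intro x hx
          rw [Ideal.mem_comap, Ideal.Quotient.eq_zero_iff_mem.2 hx]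
          exact Ideal.zero_mem _
        · intro x hx
          rw [Ideal.mem_comap] at hx ⊢
          have h3 := hI _ hx
          rw [hd] at h3
          exact h3
        · intro h3
          rw [Ideal.mem_comap, map_one] at h3
          exact h1 h3
      rw [eq_bot_iff]
      intro x hx
      obtain ⟨a, rfl⟩ := Ideal.Quotient.mk_surjective x
      have h3 : a ∈ Ideal.comap (Ideal.Quotient.mk m) I := Ideal.mem_comap.2 hx
      rw [h2] at h3
      rw [Ideal.Quotient.eq_zero_iff_mem.2 h3]
      exact Ideal.zero_mem _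

end Cb
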