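import Pool.Agent.Helper462.Cb.Defs

namespace Cb

universe u

/-- extension of a derivation to the fraction field, via dual numbers -/
theorem ext_frac_19241 (S : Type u) [CommRing S] [IsDomain S] (K : Type u) [Field K] [Algebra S K]
    [IsFractionRing S K] (d : Derivation ℤ S S) :
    ∃ D : Derivation ℤ K K, ∀ s : S, D (algebraMap S K s) = algebraMap S K (d s) := by
  let φ : S →+* TrivSqZeroExt K K :=
    { toFun := fun s => (TrivSqZeroExt.inl (algebraMap S K s) + TrivSqZeroExt.inr (algebraMap S K (d s)))
      map_one' := by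
        ext
        · simp
        · simp
      map_mul' := by
        intro a b
        ext
        · simp only [map_mul, TrivSqZeroExt.fst_add, TrivSqZeroExt.fst_inl, TrivSqZeroExt.fst_inr,
            TrivSqZeroExt.fst_mul]
          ring
        · simp only [Derivation.leibniz, map_add, map_mul, smul_eq_mul, TrivSqZeroExt.snd_add,
            TrivSqZeroExt.snd_inl, TrivSqZeroExt.snd_inr, TrivSqZeroExt.fst_add,
            TrivSqZeroExt.fst_inl, TrivSqZeroExt.fst_inr, TrivSqZeroExt.snd_mul, zero_add, add_zero,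
            MulOpposite.smul_eq_mul_unop, MulOpposite.unop_op]
          ring
      map_zero' := by
        ext
        · simp
        · simp
      map_add' := by
        intro a b
        ext
        · simp only [map_add, TrivSqZeroExt.fst_add, TrivSqZeroExt.fst_inl, TrivSqZeroExt.fst_inr]
          ring
        · simp only [map_add, TrivSqZeroExt.snd_add, TrivSqZeroExt.snd_inl, TrivSqZeroExt.snd_inr]
          ring }
  have hφ1 : ∀ s : S, (φ s).fst = algebraMap S K s := fun s => by
    show (TrivSqZeroExt.inl (algebraMap S K s) + TrivSqZeroExt.inr (algebraMap S K (d s)) :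
      TrivSqZeroExt K K).fst = _
    rw [TrivSqZeroExt.fst_add, TrivSqZeroExt.fst_inl, TrivSqZeroExt.fst_inr, add_zero]
  have hφ2 : ∀ s : S, (φ s).snd = algebraMap S K (d s) := fun s => by
    show (TrivSqZeroExt.inl (algebraMap S K s) + TrivSqZeroExt.inr (algebraMap S K (d s)) :
      TrivSqZeroExt K K).snd = _
    rw [TrivSqZeroExt.snd_add, TrivSqZeroExt.snd_inl, TrivSqZeroExt.snd_inr, zero_add]
  have hu : ∀ y : nonZeroDivisors S, IsUnit (φ y) := by
    intro y
    rw [TrivSqZeroExt.isUnit_iff_isUnit_fst, hφ1]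
    exact IsLocalization.map_units K y
  let ψ : K →+* TrivSqZeroExt K K := IsLocalization.lift hu
  have hψ : ∀ s : S, ψ (algebraMap S K s) = φ s := fun s => IsLocalization.lift_eq hu s
  have hfst : ∀ x : K, (ψ x).fst = x := by
    have h : (TrivSqZeroExt.fstHom K K K).toRingHom.comp ψ = RingHom.id K := by
      apply IsLocalization.ringHom_ext (nonZeroDivisors S)
      ext s
      show (ψ (algebraMap S K s)).fst = algebraMap S K s
      rw [hψ, hφ1]
    intro x
    exact RingHom.congr_fun h x
  refine ⟨Derivation.mk' (AddMonoidHom.toIntLinearMap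
    { toFun := fun x => (ψ x).snd
      map_zero' := by simp
      map_add' := by intro a b; simp }) ?_, ?_⟩
  · intro a b
    show (ψ (a * b)).snd = a • (ψ b).snd + b • (ψ a).snd
    rw [map_mul, TrivSqZeroExt.snd_mul, hfst, hfst]
    simp [mul_comm]
  · intro s
    show (ψ (algebraMap S K s)).snd = _
    rw [hψ, hφ2]

theorem core_19241
    (h2 : ∀ (k S : Type u) [Field k] [CommRing S] [IsDomain S] [Algebra k S]
      [Algebra.FiniteType k S] (c : S), Transcendental k c →
      {a : k | IsUnit (c - algebraMap k S a)}.Finite)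
    {k : Type u} [Field k] [CharZero k] [IsAlgClosed k] (δ : Derivation ℤ k k)
    {ι : Type} [Fintype ι] [DecidableEq ι] (A : Matrix ι ι k)
    (S : Type u) [CommRing S] [IsDomain S] [Algebra k S] [Algebra.FiniteType k S]
    (K : Type u) [Field K] [Algebra S K] [IsFractionRing S K] [Algebra k K] [IsScalarTower k S K]
    (d : Derivation ℤ S S) (X Y : Matrix ι ι S)
    (hd : ∀ a : k, d (algebraMap k S a) = algebraMap k S (δ a)) (hXY : X * Y = 1) (hYX : Y * X = 1)
    (hdX : ∀ i j, d (X i j) = - ∑ l, algebraMap k S (A i l) * X l j)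
    (hsimp : ∀ I : Ideal S, (∀ x ∈ I, d x ∈ I) → I = ⊥ ∨ I = ⊤) :
    ∃ (d : Derivation ℤ K K) (X Y : Matrix ι ι K),
      (∀ a : k, d (algebraMap k K a) = algebraMap k K (δ a)) ∧ X * Y = 1 ∧ Y * X = 1 ∧
      (∀ i j, d (X i j) = - ∑ l, algebraMap k K (A i l) * X l j) ∧
      ∀ x : K, d x = 0 → ∃ c : k, algebraMap k K c = x := by
  obtain ⟨D, hD⟩ := ext_frac_19241 S K d
  have htow : ∀ a : k, algebraMap k K a =
      algebraMap S K (algebraMap k S a) := fun a =>
    IsScalarTower.algebraMap_apply k S K a
  have hinj : Function.Injective (algebraMap S K) := IsFractionRing.injective S _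
  refine ⟨D,
    X.map (algebraMap S K), Y.map (algebraMap S K), ?_, ?_, ?_, ?_, ?_⟩
  · intro a
    rw [htow, hD, hd, htow]
  · rw [← Matrix.map_mul, hXY, Matrix.map_one _ (map_zero _) (map_one _)]
  · rw [← Matrix.map_mul, hYX, Matrix.map_one _ (map_zero _) (map_one _)]
  · intro i j
    rw [Matrix.map_apply, hD, hdX, map_neg, map_sum]
    congr 1
    refine Finset.sum_congr rfl fun l _ => ?_
    rw [map_mul, htow, Matrix.map_apply]
  · intro x hx
    -- `x` lies in the image of `S`
    let I : Ideal S :=
      { carrier := {s | ∃ t : S, algebraMap S K s * x = algebraMap S K t}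
        add_mem' := by
          rintro a b ⟨t, ht⟩ ⟨t', ht'⟩
          exact ⟨t + t', by rw [map_add, map_add, add_mul, ht, ht']⟩
        zero_mem' := ⟨0, by rw [map_zero, zero_mul]⟩
        smul_mem' := by
          rintro c a ⟨t, ht⟩
          exact ⟨c * t, by rw [smul_eq_mul, map_mul, map_mul, mul_assoc, ht]⟩ }
    have hI : I = ⊥ ∨ I = ⊤ := by
      apply hsimp
      rintro s ⟨t, ht⟩
      refine ⟨d t, ?_⟩
      have h := congrArg D ht
      rw [Derivation.leibniz, hx, smul_zero, zero_add, hD, hD, smul_eq_mul] at h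
      rw [← h, mul_comm]
    have hI2 : I = ⊤ := by
      rcases hI with hI | hI
      · exfalso
        obtain ⟨a, b, hb, hab⟩ := IsFractionRing.div_surjective (A := S) x
        have hbI : b ∈ I := ⟨a, by
          rw [← hab, mul_div_cancel₀]
          exact fun h => nonZeroDivisors.ne_zero hb (hinj (by rw [h, map_zero]))⟩
        rw [hI, Ideal.mem_bot] at hbI
        exact nonZeroDivisors.ne_zero hb hbI
      · exact hI
    obtain ⟨c, hc⟩ : ∃ c : S, algebraMap S K c = x := by
      have h1 : (1 : S) ∈ I := by rw [hI2]; exact Submodule.mem_top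
      obtain ⟨t, ht⟩ := h1
      exact ⟨t, by rw [← ht, map_one, one_mul]⟩
    have hdc : d c = 0 := by
      apply hinj
      rw [← hD, hc, hx, map_zero]
    -- `c` is algebraic over `k`
    have halg : IsAlgebraic k c := by
      by_contra htr
      have hfin := h2 k S c htr
      refine hfin.not_infinite ?_
      refine Set.Infinite.mono (s := Set.range (fun n : ℕ => (n : k))) ?_
        (Set.infinite_range_of_injective Nat.cast_injective)
      rintro _ ⟨n, rfl⟩
      show IsUnit (c - algebraMap k S (n : k))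
      rw [map_natCast]
      have hsp := hsimp (Ideal.span {c - (n : S)}) (by
        intro y hy
        obtain ⟨s, rfl⟩ := Ideal.mem_span_singleton'.1 hy
        rw [Derivation.leibniz, map_sub, hdc, Derivation.map_natCast, sub_zero, smul_zero, zero_add,
          smul_eq_mul]
        exact Ideal.mul_mem_right _ _ (Ideal.mem_span_singleton_self _))
      rcases hsp with h | h
      · exfalso
        rw [Ideal.span_singleton_eq_bot] at h
        apply htr
        have : c = algebraMap k S (n : k) := by rw [map_natCast]; exact sub_eq_zero.1 h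
        rw [this]
        exact isAlgebraic_algebraMap _
      · exact Ideal.span_singleton_eq_top.1 h
    have hint : IsIntegral k c := halg.isIntegral
    obtain ⟨a, ha⟩ := minpoly.mem_range_of_degree_eq_one k c
      (IsAlgClosed.degree_eq_one_of_irreducible k (minpoly.irreducible hint))
    exact ⟨a, by rw [htow, ha, hc]⟩

theorem picard_vessiot
    (h1 : ∀ (S : Type u) [CommRing S] [Algebra ℚ S] [Nontrivial S] (d : Derivation ℤ S S),
      (∀ I : Ideal S, (∀ x ∈ I, d x ∈ I) → I = ⊥ ∨ I = ⊤) → IsDomain S)
    (h2 : ∀ (k S : Type u) [Field k] [CommRing S] [IsDomain S] [Algebra k S]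
      [Algebra.FiniteType k S] (c : S), Transcendental k c →
      {a : k | IsUnit (c - algebraMap k S a)}.Finite)
    (h3 : ∀ {k : Type u} [Field k] [CharZero k] (δ : Derivation ℤ k k)
      {ι : Type} [Fintype ι] [DecidableEq ι] (A : Matrix ι ι k),
      ∃ (S : Type u) (_ : CommRing S) (_ : Nontrivial S) (_ : Algebra k S)
        (_ : Algebra.FiniteType k S) (d : Derivation ℤ S S) (X Y : Matrix ι ι S),
        (∀ a : k, d (algebraMap k S a) = algebraMap k S (δ a)) ∧ X * Y = 1 ∧ Y * X = 1 ∧
        (∀ i j, d (X i j) = - ∑ l, algebraMap k S (A i l) * X l j) ∧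
        (∀ I : Ideal S, (∀ x ∈ I, d x ∈ I) → I = ⊥ ∨ I = ⊤))
    {k : Type u} [Field k] [CharZero k] [IsAlgClosed k] (δ : Derivation ℤ k k)
    {ι : Type} [Fintype ι] [DecidableEq ι] (A : Matrix ι ι k) :
    ∃ (K : Type u) (_ : Field K) (_ : Algebra k K) (d : Derivation ℤ K K) (X Y : Matrix ι ι K),
      (∀ a : k, d (algebraMap k K a) = algebraMap k K (δ a)) ∧ X * Y = 1 ∧ Y * X = 1 ∧
      (∀ i j, d (X i j) = - ∑ l, algebraMap k K (A i l) * X l j) ∧
      ∀ x : K, d x = 0 → ∃ c : k, algebraMap k K c = x := by
  obtain ⟨S, iS, iN, iA, iF, d, X, Y, hd, hXY, hYX, hdX, hsimp⟩ := h3 δ A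
  haveI hdom : IsDomain S := by
    letI : Algebra ℚ S := ((algebraMap k S).comp (algebraMap ℚ k)).toAlgebra
    exact h1 S d hsimp
  exact ⟨FractionRing S, inferInstance, inferInstance,
    core_19241 h2 δ A S (FractionRing S) d X Y hd hXY hYX hdX hsimp⟩

end Cb
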