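import Pool.Agent.Helper462.Cb.Defs

namespace Cb

universe u


theorem ss_hom_sub {k : Type*} [Field k] {H E : Type*} [AddCommGroup H] [Module k H]
    [AddCommGroup E] [Module k E] {DH : H → H} {DE : E → E} (j : H →ₗ[k] E)
    (hj : Function.Injective j) (hc : ∀ h, DE (j h) = j (DH h)) (hE : SS k DE) : SS k DH := by
  intro M hM
  obtain ⟨N, hN, hcompl⟩ := hE (M.map j) (by
    rintro _ ⟨m, hm, rfl⟩
    rw [hc]
    exact ⟨_, hM m hm, rfl⟩)
  refine ⟨N.comap j, ?_, ?_⟩
  · intro h hh
    show j (DH h) ∈ N
    rw [← hc]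
    exact hN _ hh
  · constructor
    · rw [Submodule.disjoint_def]
      intro x hx hx'
      have := Submodule.disjoint_def.1 hcompl.disjoint (j x) ⟨x, hx, rfl⟩ hx'
      exact hj (by rw [this, map_zero])
    · rw [codisjoint_iff, Submodule.eq_top_iff']
      intro x
      have h1 : j x ∈ M.map j ⊔ N := by
        rw [hcompl.sup_eq_top]
        exact Submodule.mem_top
      obtain ⟨y, hy, z, hz, hyz⟩ := Submodule.mem_sup.1 h1
      obtain ⟨m, hm, rfl⟩ := hy
      refine Submodule.mem_sup.2 ⟨m, hm, x - m, ?_, by abel⟩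
      show j (x - m) ∈ N
      rw [map_sub, ← hyz]
      have : j m + z - j m = z := by abel
      rw [this]
      exact hz

theorem ss_hom_zero {k : Type*} [Field k] {δ : Derivation ℤ k k} {V : Type*} [AddCommGroup V]
    [Module k V] {D : V → V} (h : IsConn δ D) : D 0 = 0 := by
  have := h.add 0 0
  rw [add_zero] at this
  exact left_eq_add.1 this

theorem ss_hom_sum {k : Type*} [Field k] {δ : Derivation ℤ k k} {V : Type*} [AddCommGroup V]
    [Module k V] {D : V → V} (h : IsConn δ D) {ι : Type*} (s : Finset ι) (f : ι → V) :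
    D (∑ i ∈ s, f i) = ∑ i ∈ s, D (f i) := by
  let F : V →+ V := { toFun := D, map_zero' := ss_hom_zero h, map_add' := h.add }
  exact map_sum F f s

theorem ss_hom_prod {k : Type*} [Field k] {δ : Derivation ℤ k k}
    {V W : Type*} [AddCommGroup V] [Module k V] [AddCommGroup W] [Module k W]
    {DV : V → V} {DW : W → W} (_hV : IsConn δ DV) (hW : IsConn δ DW)
    (sV : SS k DV) (sW : SS k DW) : SS k (fun u : V × W => (DV u.1, DW u.2)) := by
  intro M hM
  obtain ⟨V', hV', cV⟩ := sV (M.comap (LinearMap.inl k V W)) (by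
    intro v hv
    have h1 : (v, (0 : W)) ∈ M := hv
    have h2 := hM _ h1
    show (DV v, (0 : W)) ∈ M
    simpa [ss_hom_zero hW] using h2)
  obtain ⟨W', hW', cW⟩ := sW (M.map (LinearMap.snd k V W)) (by
    rintro _ ⟨u, hu, rfl⟩
    exact ⟨_, hM u hu, rfl⟩)
  refine ⟨V'.prod W', ?_, ?_⟩
  · rintro ⟨v, w⟩ ⟨hv, hw⟩
    exact ⟨hV' v hv, hW' w hw⟩
  · constructor
    · rw [Submodule.disjoint_def]
      rintro ⟨v, w⟩ hM' ⟨hv, hw⟩
      have hw0 : w = 0 := Submodule.disjoint_def.1 cW.disjoint w ⟨(v, w), hM', rfl⟩ hw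
      subst hw0
      have hv0 : v = 0 := Submodule.disjoint_def.1 cV.disjoint v hM' hv
      rw [hv0]
      rfl
    · rw [codisjoint_iff, Submodule.eq_top_iff']
      rintro ⟨v, w⟩
      have h1 : w ∈ M.map (LinearMap.snd k V W) ⊔ W' := by
        rw [cW.sup_eq_top]
        exact Submodule.mem_top
      obtain ⟨w1, ⟨⟨v1, w1'⟩, hm1, hw1⟩, w2, hw2, hw12⟩ := Submodule.mem_sup.1 h1
      have hw1' : w1' = w1 := hw1
      subst hw1'
      have h2 : v - v1 ∈ M.comap (LinearMap.inl k V W) ⊔ V' := by
        rw [cV.sup_eq_top]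
        exact Submodule.mem_top
      obtain ⟨a, ha, b, hb, hab⟩ := Submodule.mem_sup.1 h2
      have ha' : (a, (0 : W)) ∈ M := ha
      refine Submodule.mem_sup.2 ⟨(v1, w1') + (a, 0), M.add_mem hm1 ha', (b, w2), ⟨hb, hw2⟩, ?_⟩
      refine Prod.ext ?_ ?_
      · show v1 + a + b = v
        rw [add_assoc, hab]
        abel
      · show w1' + 0 + w2 = w
        rw [add_zero, hw12]

theorem ss_hom
    (hchev : ∀ {k : Type u} [Field k] [CharZero k] (δ : Derivation ℤ k k)
      {ι : Type} [Fintype ι] [DecidableEq ι] (A : Matrix ι ι k), SS k (connM δ A) →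
      SS k (connM δ (adM A)))
    {k : Type u} [Field k] [CharZero k] (δ : Derivation ℤ k k)
    {V W : Type u} [AddCommGroup V] [Module k V] [FiniteDimensional k V]
    [AddCommGroup W] [Module k W] [FiniteDimensional k W]
    {DV : V → V} {DW : W → W} (hV : IsConn δ DV) (hW : IsConn δ DW)
    (sV : SS k DV) (sW : SS k DW) (DH : (V →ₗ[k] W) → (V →ₗ[k] W))
    (hDH : ∀ φ v, DH φ v = DW (φ v) - φ (DV v)) : SS k DH := by
  classical
  let D : V × W → V × W := fun u => (DV u.1, DW u.2)
  have hD : IsConn δ D := by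
    refine ⟨?_, ?_⟩
    · intro v w
      exact Prod.ext (hV.add _ _) (hW.add _ _)
    · intro c v
      exact Prod.ext (hV.smul _ _) (hW.smul _ _)
  have sU : SS k D := ss_hom_prod hV hW sV sW
  let b := Module.finBasis k (V × W)
  let n := Module.finrank k (V × W)
  let A : Matrix (Fin n) (Fin n) k := fun i j => b.equivFun (D (b j)) i
  have hcoord : ∀ u : V × W, b.equivFun (D u) = connM δ A (b.equivFun u) := by
    intro u
    have h1 : u = ∑ j, b.equivFun u j • b j := (b.sum_equivFun u).symm
    have h2 : D u = ∑ j, (δ (b.equivFun u j) • b j + b.equivFun u j • D (b j)) := by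
      conv_lhs => rw [h1]
      rw [ss_hom_sum hD]
      apply Finset.sum_congr rfl
      intro j _
      rw [hD.smul]
    rw [h2, map_sum]
    ext i
    rw [Finset.sum_apply]
    simp only [map_add, map_smul, Pi.add_apply, Pi.smul_apply, smul_eq_mul]
    rw [Finset.sum_add_distrib]
    unfold connM
    congr 1
    · rw [Finset.sum_eq_single i]
      · rw [Module.Basis.equivFun_self, if_pos rfl, mul_one]
      · intro j _ hj
        rw [Module.Basis.equivFun_self, if_neg hj, mul_zero]
      · intro h
        exact absurd (Finset.mem_univ i) h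
    · apply Finset.sum_congr rfl
      intro j _
      exact mul_comm _ _
  have sA : SS k (connM δ A) := by
    refine ss_hom_sub (DE := D) (b.equivFun.symm : (Fin n → k) →ₗ[k] V × W)
      b.equivFun.symm.injective ?_ sU
    intro v
    apply b.equivFun.injective
    show b.equivFun (D (b.equivFun.symm v)) = b.equivFun (b.equivFun.symm (connM δ A v))
    rw [hcoord, LinearEquiv.apply_symm_apply, LinearEquiv.apply_symm_apply]
  have sad := hchev δ A sA
  let J : (V →ₗ[k] W) → (V × W) →ₗ[k] (V × W) := fun φ =>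
    (LinearMap.inr k V W).comp (φ.comp (LinearMap.fst k V W))
  let j : (V →ₗ[k] W) →ₗ[k] (Fin n × Fin n → k) :=
    { toFun := fun φ p => b.equivFun (J φ (b p.2)) p.1
      map_add' := by
        intro φ ψ
        ext p
        have : J (φ + ψ) (b p.2) = J φ (b p.2) + J ψ (b p.2) := by
          simp [J]
        simp only [this, map_add, Pi.add_apply]
      map_smul' := by
        intro c φ
        ext p
        have : J (c • φ) (b p.2) = c • J φ (b p.2) := by
          simp [J]
        simp only [this, map_smul, Pi.smul_apply, RingHom.id_apply] }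
  refine ss_hom_sub j ?_ ?_ sad
  · rw [← LinearMap.ker_eq_bot, LinearMap.ker_eq_bot']
    intro φ hφ
    have h1 : J φ = 0 := by
      apply b.ext
      intro l
      apply b.equivFun.injective
      ext i
      have := congrFun hφ (i, l)
      simpa [j] using this
    ext v
    have h2 : J φ (v, 0) = 0 := by rw [h1]; rfl
    have h3 : (J φ (v, 0)).2 = φ v := rfl
    rw [← h3, h2]
    rfl
  · intro φ
    ext ⟨i, l⟩
    have hJ : J (DH φ) (b l) = D (J φ (b l)) - J φ (D (b l)) := by
      refine Prod.ext ?_ ?_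
      · show (0 : V) = DV 0 - 0
        rw [ss_hom_zero hV, sub_zero]
      · show DH φ (b l).1 = DW (φ (b l).1) - φ (DV (b l).1)
        exact hDH φ _
    have hR : j (DH φ) (i, l) = b.equivFun (D (J φ (b l))) i - b.equivFun (J φ (D (b l))) i := by
      show b.equivFun (J (DH φ) (b l)) i = _
      rw [hJ, map_sub, Pi.sub_apply]
    have h5 : b.equivFun (J φ (D (b l))) i = ∑ s, A s l * j φ (i, s) := by
      have h6 : D (b l) = ∑ s, A s l • b s := (b.sum_equivFun (D (b l))).symm
      rw [h6, map_sum, map_sum, Finset.sum_apply]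
      apply Finset.sum_congr rfl
      intro s _
      rw [map_smul, map_smul, Pi.smul_apply, smul_eq_mul]
      rfl
    rw [hR, hcoord, h5]
    show δ (j φ (i, l)) + ∑ y : Fin n × Fin n, adM A (i, l) y * j φ y =
      (δ (b.equivFun (J φ (b l)) i) + ∑ r, A i r * b.equivFun (J φ (b l)) r) - _
    have h7 : ∑ y : Fin n × Fin n, adM A (i, l) y * j φ y =
        ∑ r, A i r * j φ (r, l) - ∑ s, A s l * j φ (i, s) := by
      unfold adM
      simp only [sub_mul, Finset.sum_sub_distrib]
      congr 1
      · rw [Fintype.sum_prod_type]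
        apply Finset.sum_congr rfl
        intro r _
        simp [ite_mul]
      · rw [Fintype.sum_prod_type]
        rw [Finset.sum_eq_single i]
        · simp
        · intro r _ hr
          simp [Ne.symm hr]
        · intro h
          exact absurd (Finset.mem_univ i) h
    rw [h7]
    have h8 : ∀ r s, j φ (r, s) = b.equivFun (J φ (b s)) r := fun r s => rfl
    simp only [h8]
    ring

end Cb
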