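import Pool.Agent.Helper462.Cb.L1
import Pool.Agent.Helper462.Cb.L2
import Pool.Agent.Helper462.Cb.L4
import Pool.Agent.Helper462.Cb.L5
import Pool.Agent.Helper462.Cb.P1
import Pool.Agent.Helper462.Cb.P2
import Pool.Agent.Helper462.Cb.P3
import Pool.Agent.Helper462.Cb.P4
import Pool.Agent.Helper462.Cb.DX
import Pool.Agent.Helper462.Cb.DA
import Pool.Agent.Helper462.Cb.EC
import Pool.Agent.Helper462.Cb.C1
import Pool.Agent.Helper462.Cb.C2
import Pool.Agent.Helper462.Cb.C3
import Pool.Agent.Helper462.Cb.G1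
import Pool.Agent.Helper462.Cb.B1
import Pool.Agent.Helper462.Cb.B2
import Pool.Agent.Helper462.Cb.SH

/-!
# Chevalley's theorem for differential modules: `Hom` of semisimple connections is semisimple
-/

namespace Cb

universe u

theorem splitting_all (C L : Type u) [Field C] [CharZero C] [IsAlgClosed C] [LieRing L]
    [LieAlgebra C L] [FiniteDimensional C L] [LieAlgebra.HasTrivialRadical C L]
    (V : Type u) [AddCommGroup V] [Module C V] [LieRingModule L V] [LieModule C L V]
    [FiniteDimensional C V] (V₁ : LieSubmodule C L V) (h1 : V₁ ≠ ⊤)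
    (h2 : ∀ (x : L) (v : V), ⁅x, v⁆ ∈ V₁) :
    ∃ v : V, v ∉ V₁ ∧ ∀ x : L, ⁅x, v⁆ = 0 :=
  splitting (C := C) (L := L) (fun _ => casimir) V V₁ h1 h2

theorem lie_ad_all (C V : Type u) [Field C] [CharZero C] [IsAlgClosed C]
    [AddCommGroup V] [Module C V] [FiniteDimensional C V]
    (L : Submodule C (Module.End C V)) (hL : ∀ x ∈ L, ∀ y ∈ L, x * y - y * x ∈ L)
    (hV : ∀ W : Submodule C V, (∀ x ∈ L, ∀ w ∈ W, x w ∈ W) →
      ∃ W' : Submodule C V, (∀ x ∈ L, ∀ w ∈ W', x w ∈ W') ∧ IsCompl W W') :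
    ∀ W : Submodule C (Module.End C V), (∀ x ∈ L, ∀ w ∈ W, x * w - w * x ∈ W) →
      ∃ W' : Submodule C (Module.End C V), (∀ x ∈ L, ∀ w ∈ W', x * w - w * x ∈ W') ∧
        IsCompl W W' :=
  lie_ad (C := C) (V := V)
    (fun L _ _ _ _ V _ _ _ _ _ V₁ h1 h2 => splitting_all C L V V₁ h1 h2) L hL hV

theorem chev_closed_all {k : Type u} [Field k] [CharZero k] [IsAlgClosed k]
    (δ : Derivation ℤ k k)
    {ι : Type} [Fintype ι] [DecidableEq ι] (A : Matrix ι ι k) (hA : SS k (connM δ A)) :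
    SS k (connM δ (adM A)) := by
  refine chev_closed ?_ ?_ ?_ ?_ ?_ δ A hA
  · intro k _ _ _ δ ι _ _ A
    exact picard_vessiot (fun S _ _ _ d hs => simple_diff_domain d hs)
      (fun k S _ _ _ _ _ c hc => finite_unit_shift c hc)
      (fun δ _ _ _ A => exists_pv_ring δ A) δ A
  · intro k K _ _ _ _ x hx
    exact exists_derivation_ne_zero x hx
  · intro C k K _ _ _ _ _ _ _ _ δ d hd hC hD ι _ _ B P Q hPQ hQP hP
    rw [cor_one (fun K _ ι _ _ W => echelon W) δ d hd hD B]
    exact cor_two (fun K _ ι _ _ W => echelon W) d hC B P Q hPQ hQP hP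
  · intro C k K _ _ _ _ _ _ _ _ δ d hd hC ι _ _ B P Q hPQ hQP hP
    exact g_lie (fun K _ ι _ _ W => echelon W) δ d hd hC B P Q hPQ hQP hP
  · intro C _ _ _ ι _ _ g hg hV
    exact lie_ad_matrix (fun C V _ _ _ _ _ _ L hL hV => lie_ad_all C V L hL hV) g hg hV

theorem chev {k : Type u} [Field k] [CharZero k] (δ : Derivation ℤ k k)
    {ι : Type} [Fintype ι] [DecidableEq ι] (A : Matrix ι ι k) (hA : SS k (connM δ A)) :
    SS k (connM δ (adM A)) := by
  obtain ⟨d, hd⟩ := exists_ext_derivation (k := k) (K := AlgebraicClosure k) δ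
  obtain ⟨τ, hτ1, hτd⟩ := exists_normalized_trace δ d hd
  have : CharZero (AlgebraicClosure k) :=
    charZero_of_injective_algebraMap (algebraMap k (AlgebraicClosure k)).injective
  have h1 := bc_up (fun K _ ι _ _ W => echelon W)
    (fun δ d hd σ x => ext_derivation_aut δ d hd σ x) δ d hd A hA
  have h2 := chev_closed_all d _ h1
  refine bc_down δ d hd τ hτ1 hτd (adM A) ?_
  have h3 : (adM A).map (algebraMap k (AlgebraicClosure k)) =
      adM (A.map (algebraMap k (AlgebraicClosure k))) := by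
    ext x y
    simp only [Matrix.map_apply, adM, map_sub]
    congr 1 <;> split_ifs <;> simp
  rw [h3]
  exact h2

/-- `Hom` of semisimple connections is semisimple -/
theorem ss_hom_all {k : Type u} [Field k] [CharZero k] (δ : Derivation ℤ k k)
    {V W : Type u} [AddCommGroup V] [Module k V] [FiniteDimensional k V]
    [AddCommGroup W] [Module k W] [FiniteDimensional k W]
    {DV : V → V} {DW : W → W} (hV : IsConn δ DV) (hW : IsConn δ DW)
    (sV : SS k DV) (sW : SS k DW) (DH : (V →ₗ[k] W) → (V →ₗ[k] W))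
    (hDH : ∀ φ v, DH φ v = DW (φ v) - φ (DV v)) : SS k DH :=
  ss_hom (fun δ _ _ _ A hA => chev δ A hA) δ hV hW sV sW DH hDH

end Cb
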