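import Pool.Agent.Helper462.Cb.Defs

namespace Cb

universe u


theorem utb_conn {k : Type u} [Field k] {δ : Derivation ℤ k k} {A : Type u} [Ring A]
    (h : DiffPoly δ A) {V : Type u} [AddCommGroup V] [Module k V] [Module A V]
    (hV : ∀ (a : k) (v : V), h.i a • v = a • v) : IsConn δ (fun v : V => h.X • v) := by
  refine ⟨fun v w => smul_add _ _ _, fun a v => ?_⟩
  change h.X • (a • v) = δ a • v + a • (h.X • v)
  rw [← hV a v, smul_smul, h.comm, add_smul, mul_smul, hV, hV, add_comm]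

theorem utb_ss {k : Type u} [Field k] {δ : Derivation ℤ k k} {A : Type u} [Ring A]
    (h : DiffPoly δ A) {V : Type u} [AddCommGroup V] [Module k V] [Module A V]
    (hs : IsSimpleModule A V)
    (hsub : ∀ W : Submodule k V,
      (∀ w ∈ W, h.X • w ∈ W) → ∃ W' : Submodule A V, ∀ v, v ∈ W' ↔ v ∈ W) :
    ∀ W : Submodule k V, (∀ w ∈ W, h.X • w ∈ W) → W = ⊥ ∨ W = ⊤ := by
  intro W hW
  obtain ⟨W', hW'⟩ := hsub W hW
  rcases eq_bot_or_eq_top W' with h1 | h1
  · left
    rw [Submodule.eq_bot_iff]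
    intro x hx
    have := (hW' x).mpr hx
    rw [h1] at this
    exact (Submodule.mem_bot A).mp this
  · right
    rw [Submodule.eq_top_iff']
    intro x
    rw [← hW' x, h1]
    exact Submodule.mem_top

theorem utb_ss' {k : Type u} [Field k] {δ : Derivation ℤ k k} {A : Type u} [Ring A]
    (h : DiffPoly δ A) {V : Type u} [AddCommGroup V] [Module k V] [Module A V]
    (hs : IsSimpleModule A V)
    (hsub : ∀ W : Submodule k V,
      (∀ w ∈ W, h.X • w ∈ W) → ∃ W' : Submodule A V, ∀ v, v ∈ W' ↔ v ∈ W) :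
    SS k (fun v : V => h.X • v) := by
  intro W hW
  rcases utb_ss h hs hsub W hW with h1 | h1
  · exact ⟨⊤, fun _ _ => Submodule.mem_top, by rw [h1]; exact isCompl_bot_top⟩
  · refine ⟨⊥, fun w hw => ?_, by rw [h1]; exact isCompl_top_bot⟩
    rw [Submodule.mem_bot] at hw ⊢
    change h.X • w = 0
    rw [hw, smul_zero]

/-- the connection on the space of linear maps -/
def utbDH {k : Type u} [Field k] {δ : Derivation ℤ k k} {A : Type u} [Ring A]
    (h : DiffPoly δ A) {V W : Type u} [AddCommGroup V] [Module k V] [Module A V]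
    [AddCommGroup W] [Module k W] [Module A W]
    (hV : ∀ (a : k) (v : V), h.i a • v = a • v) (hW : ∀ (a : k) (v : W), h.i a • v = a • v)
    (φ : V →ₗ[k] W) : V →ₗ[k] W where
  toFun v := h.X • φ v - φ (h.X • v)
  map_add' v w := by
    rw [map_add, smul_add, smul_add, map_add]
    abel
  map_smul' a v := by
    have h1 : h.X • (a • v) = δ a • v + a • (h.X • v) := (utb_conn h hV).smul a v
    have h2 : h.X • (a • φ v) = δ a • φ v + a • (h.X • φ v) := (utb_conn h hW).smul a (φ v)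
    rw [map_smul, h1, h2, map_add, map_smul, map_smul, RingHom.id_apply, smul_sub]
    abel

theorem utb_data {k : Type u} [Field k] {δ : Derivation ℤ k k} {A : Type u} [Ring A]
    (h : DiffPoly δ A)
    (hss : ∀ {V W : Type u} [AddCommGroup V] [Module k V] [FiniteDimensional k V]
      [AddCommGroup W] [Module k W] [FiniteDimensional k W]
      {DV : V → V} {DW : W → W}, IsConn δ DV → IsConn δ DW →
      SS k DV → SS k DW → ∀ DH : (V →ₗ[k] W) → (V →ₗ[k] W),
      (∀ φ v, DH φ v = DW (φ v) - φ (DV v)) → SS k DH)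
    (hfd : ∀ (V : Type u) [AddCommGroup V] [Module k V] [Module A V],
      (∀ (a : k) (v : V), h.i a • v = a • v) → IsSimpleModule A V → FiniteDimensional k V)
    (hsub : ∀ (V : Type u) [AddCommGroup V] [Module k V] [Module A V],
      (∀ (a : k) (v : V), h.i a • v = a • v) → ∀ W : Submodule k V,
      (∀ w ∈ W, h.X • w ∈ W) → ∃ W' : Submodule A V, ∀ v, v ∈ W' ↔ v ∈ W)
    (hlin : ∀ (V W : Type u) [AddCommGroup V] [Module k V] [Module A V] [AddCommGroup W]
      [Module k W] [Module A W], (∀ (a : k) (v : V), h.i a • v = a • v) →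
      (∀ (a : k) (v : W), h.i a • v = a • v) → ∀ f : V →ₗ[k] W,
      (∀ v, f (h.X • v) = h.X • f v) → ∃ g : V →ₗ[A] W, ∀ v, g v = f v)
    (a b : k) (hB : HB δ a b)
    {V Y : Type u} [AddCommGroup V] [Module k V] [Module A V] [AddCommGroup Y] [Module k Y]
    [Module A Y] (hV : ∀ (a : k) (v : V), h.i a • v = a • v)
    (hY : ∀ (a : k) (v : Y), h.i a • v = a • v) (q : Y →ₗ[A] V)
    [Module k (LinearMap.ker q)] (hS : ∀ (a : k) (v : LinearMap.ker q), h.i a • v = a • v)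
    (hVs : IsSimpleModule A V) (hq : Function.Surjective q)
    (hSs : IsSimpleModule A (LinearMap.ker q))
    (hno : ¬ ∃ s : V →ₗ[A] Y, q ∘ₗ s = LinearMap.id) :
    ∃ (σ : V →ₗ[k] Y) (Ψ : V ≃ₗ[k] LinearMap.ker q), (∀ v, q (σ v) = v) ∧
      (∀ v, h.X • σ v = σ (h.X • v) + b • ((Ψ v : LinearMap.ker q) : Y)) ∧
      (∀ v, h.X • Ψ v = Ψ (h.X • v) + a • Ψ v) := by
  have coe_smul : ∀ (a : k) (s : LinearMap.ker q), ((a • s : LinearMap.ker q) : Y) = a • (s : Y) := by
    intro a s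
    rw [← hS, ← hY]
    rfl
  haveI : FiniteDimensional k V := hfd V hV hVs
  haveI : FiniteDimensional k (LinearMap.ker q) := hfd _ hS hSs
  -- the inclusion and the projection as `k`-linear maps
  let ι : LinearMap.ker q →ₗ[k] Y :=
    { toFun := fun s => (s : Y)
      map_add' := fun _ _ => rfl
      map_smul' := fun a s => coe_smul a s }
  let qk : Y →ₗ[k] V :=
    { toFun := fun y => q y
      map_add' := fun x y => map_add q x y
      map_smul' := fun a y => by
        simp only [RingHom.id_apply]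
        rw [← hY, ← hV, map_smul] }
  have hqk : LinearMap.range qk = ⊤ := LinearMap.range_eq_top.mpr hq
  obtain ⟨σ0, hσ0⟩ := qk.exists_rightInverse_of_surjective hqk
  have hσ0' : ∀ v, q (σ0 v) = v := fun v => by
    have := LinearMap.congr_fun hσ0 v
    exact this
  -- the cocycle
  have hmem : ∀ v, h.X • σ0 v - σ0 (h.X • v) ∈ LinearMap.ker q := by
    intro v
    rw [LinearMap.mem_ker, map_sub, map_smul, hσ0', hσ0', sub_self]
  let ω : V →ₗ[k] LinearMap.ker q :=
    { toFun := fun v => ⟨h.X • σ0 v - σ0 (h.X • v), hmem v⟩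
      map_add' := fun v w => by
        apply Subtype.ext
        change h.X • σ0 (v + w) - σ0 (h.X • (v + w))
          = (h.X • σ0 v - σ0 (h.X • v)) + (h.X • σ0 w - σ0 (h.X • w))
        rw [map_add, smul_add, smul_add, map_add]
        abel
      map_smul' := fun c v => by
        apply Subtype.ext
        rw [RingHom.id_apply, coe_smul]
        change h.X • σ0 (c • v) - σ0 (h.X • (c • v)) = c • (h.X • σ0 v - σ0 (h.X • v))
        have := (utbDH h hV hY σ0).map_smul c v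
        exact this }
  have hω : ∀ v, ((ω v : LinearMap.ker q) : Y) = h.X • σ0 v - σ0 (h.X • v) := fun v => rfl
  have hconn : IsConn δ (utbDH h hV hS) := by
    refine ⟨fun φ ψ => ?_, fun c φ => ?_⟩
    · ext1 v
      change h.X • (φ v + ψ v) - (φ (h.X • v) + ψ (h.X • v))
        = (h.X • φ v - φ (h.X • v)) + (h.X • ψ v - ψ (h.X • v))
      rw [smul_add]
      abel
    · ext1 v
      change h.X • (c • φ v) - c • φ (h.X • v)
        = δ c • φ v + c • (h.X • φ v - φ (h.X • v))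
      have h2 : h.X • (c • φ v) = δ c • φ v + c • (h.X • φ v) := (utb_conn h hS).smul c (φ v)
      rw [h2, smul_sub]
      abel
  have hSS : SS k (utbDH h hV hS) :=
    hss (utb_conn h hV) (utb_conn h hS) (utb_ss' h hVs (hsub V hV)) (utb_ss' h hSs (hsub _ hS))
      (utbDH h hV hS) (fun φ v => rfl)
  obtain ⟨Ψ, g, hΨ, hωg⟩ := hB.2 (V →ₗ[k] LinearMap.ker q) (utbDH h hV hS) hconn hSS ω
  have hΨ' : ∀ v, h.X • Ψ v = Ψ (h.X • v) + a • Ψ v := by
    intro v
    have h1 : h.X • Ψ v - Ψ (h.X • v) = a • Ψ v := LinearMap.congr_fun hΨ v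
    rw [← h1]
    abel
  have hωg' : ∀ v, ω v = b • Ψ v + (h.X • g v - g (h.X • v)) := fun v =>
    LinearMap.congr_fun hωg v
  let σ : V →ₗ[k] Y := σ0 - ι ∘ₗ g
  have hσv : ∀ v, σ v = σ0 v - ((g v : LinearMap.ker q) : Y) := fun v => rfl
  have hσ1 : ∀ v, q (σ v) = v := by
    intro v
    rw [hσv, map_sub, hσ0', (LinearMap.mem_ker.mp (g v).2), sub_zero]
  have hσ2 : ∀ v, h.X • σ v = σ (h.X • v) + b • ((Ψ v : LinearMap.ker q) : Y) := by
    intro v
    have h1 : ((ω v : LinearMap.ker q) : Y)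
        = b • ((Ψ v : LinearMap.ker q) : Y) + (h.X • ((g v : LinearMap.ker q) : Y)
          - ((g (h.X • v) : LinearMap.ker q) : Y)) := by
      rw [hωg' v, ← coe_smul]
      rfl
    rw [hω] at h1
    rw [hσv, hσv, smul_sub]
    have h2 : h.X • σ0 v = σ0 (h.X • v) + (b • ((Ψ v : LinearMap.ker q) : Y)
        + (h.X • ((g v : LinearMap.ker q) : Y) - ((g (h.X • v) : LinearMap.ker q) : Y))) := by
      rw [← h1]
      abel
    rw [h2]
    abel
  have hΨ0 : Ψ ≠ 0 := by
    intro h0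
    apply hno
    obtain ⟨s, hs⟩ := hlin V Y hV hY σ (fun v => by
      rw [hσ2 v, h0]
      simp)
    refine ⟨s, LinearMap.ext fun v => ?_⟩
    rw [LinearMap.comp_apply, hs, hσ1]
    rfl
  have hinj : Function.Injective Ψ := by
    rw [← LinearMap.ker_eq_bot]
    rcases utb_ss h hVs (hsub V hV) (LinearMap.ker Ψ) (fun v hv => by
      rw [LinearMap.mem_ker] at hv ⊢
      have := hΨ' v
      rw [hv, smul_zero, smul_zero, add_zero] at this
      exact this.symm) with h1 | h1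
    · exact h1
    · exact absurd (LinearMap.ker_eq_top.mp h1) hΨ0
  have hsurj : Function.Surjective Ψ := by
    rw [← LinearMap.range_eq_top]
    rcases utb_ss h hSs (hsub _ hS) (LinearMap.range Ψ) (fun s hs => by
      obtain ⟨v, rfl⟩ := hs
      refine ⟨h.X • v + a • v, ?_⟩
      rw [map_add, LinearMap.map_smul, hΨ' v]) with h1 | h1
    · exact absurd (LinearMap.range_eq_bot.mp h1) hΨ0
    · exact h1
  exact ⟨σ, LinearEquiv.ofBijective Ψ ⟨hinj, hsurj⟩, hσ1, hσ2, hΨ'⟩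

theorem uniTop_of_HB {k : Type u} [Field k] {δ : Derivation ℤ k k} {A : Type u} [Ring A]
    (h : DiffPoly δ A)
    (hss : ∀ {V W : Type u} [AddCommGroup V] [Module k V] [FiniteDimensional k V]
      [AddCommGroup W] [Module k W] [FiniteDimensional k W]
      {DV : V → V} {DW : W → W}, IsConn δ DV → IsConn δ DW →
      SS k DV → SS k DW → ∀ DH : (V →ₗ[k] W) → (V →ₗ[k] W),
      (∀ φ v, DH φ v = DW (φ v) - φ (DV v)) → SS k DH)
    (hfd : ∀ (V : Type u) [AddCommGroup V] [Module k V] [Module A V],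
      (∀ (a : k) (v : V), h.i a • v = a • v) → IsSimpleModule A V → FiniteDimensional k V)
    (hsub : ∀ (V : Type u) [AddCommGroup V] [Module k V] [Module A V],
      (∀ (a : k) (v : V), h.i a • v = a • v) → ∀ W : Submodule k V,
      (∀ w ∈ W, h.X • w ∈ W) → ∃ W' : Submodule A V, ∀ v, v ∈ W' ↔ v ∈ W)
    (hlin : ∀ (V W : Type u) [AddCommGroup V] [Module k V] [Module A V] [AddCommGroup W]
      [Module k W] [Module A W], (∀ (a : k) (v : V), h.i a • v = a • v) →
      (∀ (a : k) (v : W), h.i a • v = a • v) → ∀ f : V →ₗ[k] W,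
      (∀ v, f (h.X • v) = h.X • f v) → ∃ g : V →ₗ[A] W, ∀ v, g v = f v)
    (a b : k) (hB : HB δ a b) : UniTop A := by
  intro V Y₁ Y₂ _ _ _ _ _ _ q₁ q₂ hVs hq₁ hq₂ hS₁ hS₂ hn₁ hn₂
  letI : Module k V := Module.compHom V h.i
  letI : Module k Y₁ := Module.compHom Y₁ h.i
  letI : Module k Y₂ := Module.compHom Y₂ h.i
  letI : Module k (LinearMap.ker q₁) := Module.compHom (LinearMap.ker q₁) h.i
  letI : Module k (LinearMap.ker q₂) := Module.compHom (LinearMap.ker q₂) h.i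
  have hV : ∀ (a : k) (v : V), h.i a • v = a • v := fun _ _ => rfl
  have hY₁ : ∀ (a : k) (v : Y₁), h.i a • v = a • v := fun _ _ => rfl
  have hY₂ : ∀ (a : k) (v : Y₂), h.i a • v = a • v := fun _ _ => rfl
  have hK₁ : ∀ (a : k) (v : LinearMap.ker q₁), h.i a • v = a • v := fun _ _ => rfl
  have hK₂ : ∀ (a : k) (v : LinearMap.ker q₂), h.i a • v = a • v := fun _ _ => rfl
  obtain ⟨σ₁, Ψ₁, hσ₁, hx₁, hψ₁⟩ := utb_data h hss hfd hsub hlin a b hB hV hY₁ q₁ hK₁ hVs hq₁
    hS₁ hn₁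
  obtain ⟨σ₂, Ψ₂, hσ₂, hx₂, hψ₂⟩ := utb_data h hss hfd hsub hlin a b hB hV hY₂ q₂ hK₂ hVs hq₂
    hS₂ hn₂
  let τ : LinearMap.ker q₁ ≃ₗ[k] LinearMap.ker q₂ := Ψ₁.symm.trans Ψ₂
  have hτΨ : ∀ v, τ (Ψ₁ v) = Ψ₂ v := fun v => by simp [τ]
  have hτX : ∀ s, τ (h.X • s) = h.X • τ s := by
    intro s
    obtain ⟨v, rfl⟩ := Ψ₁.surjective s
    have e1 : τ (a • Ψ₁ v) = a • τ (Ψ₁ v) := LinearEquiv.map_smul τ a (Ψ₁ v)
    rw [hψ₁, map_add, e1, hτΨ, hτΨ, hψ₂]
  have hmem : ∀ y : Y₁, y - σ₁ (q₁ y) ∈ LinearMap.ker q₁ := by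
    intro y
    rw [LinearMap.mem_ker, map_sub, hσ₁, sub_self]
  let r : Y₁ →ₗ[k] LinearMap.ker q₁ :=
    { toFun := fun y => ⟨y - σ₁ (q₁ y), hmem y⟩
      map_add' := fun x y => by
        apply Subtype.ext
        change (x + y) - σ₁ (q₁ (x + y)) = (x - σ₁ (q₁ x)) + (y - σ₁ (q₁ y))
        rw [map_add, map_add]
        abel
      map_smul' := fun c y => by
        apply Subtype.ext
        change c • y - σ₁ (q₁ (h.i c • y)) = c • (y - σ₁ (q₁ y))
        rw [map_smul, hV, map_smul, smul_sub] }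
  have hr : ∀ y, ((r y : LinearMap.ker q₁) : Y₁) = y - σ₁ (q₁ y) := fun _ => rfl
  let e : Y₁ →ₗ[k] Y₂ :=
    { toFun := fun y => ((τ (r y) : LinearMap.ker q₂) : Y₂) + σ₂ (q₁ y)
      map_add' := fun x y => by
        rw [map_add, map_add, map_add, map_add]
        change ((τ (r x) : LinearMap.ker q₂) : Y₂) + ((τ (r y) : LinearMap.ker q₂) : Y₂)
          + (σ₂ (q₁ x) + σ₂ (q₁ y)) = _
        abel
      map_smul' := fun c y => by
        have h1 : q₁ (c • y) = c • q₁ y := map_smul q₁ (h.i c) y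
        rw [map_smul, map_smul, h1, map_smul, RingHom.id_apply, smul_add]
        rfl }
  have he : ∀ y, e y = ((τ (r y) : LinearMap.ker q₂) : Y₂) + σ₂ (q₁ y) := fun _ => rfl
  have heX : ∀ y, e (h.X • y) = h.X • e y := by
    intro y
    have h1 : r (h.X • y) = h.X • r y + b • Ψ₁ (q₁ y) := by
      apply Subtype.ext
      change h.X • y - σ₁ (q₁ (h.X • y)) = h.X • (y - σ₁ (q₁ y))
        + b • ((Ψ₁ (q₁ y) : LinearMap.ker q₁) : Y₁)
      rw [map_smul, smul_sub, hx₁ (q₁ y)]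
      abel
    have h3 : h.X • σ₂ (q₁ y) = σ₂ (h.X • q₁ y) + b • ((Ψ₂ (q₁ y) : LinearMap.ker q₂) : Y₂) :=
      hx₂ (q₁ y)
    have e1 : τ (b • Ψ₁ (q₁ y)) = b • τ (Ψ₁ (q₁ y)) := LinearEquiv.map_smul τ b (Ψ₁ (q₁ y))
    have e2 : q₁ (h.X • y) = h.X • q₁ y := q₁.map_smul h.X y
    rw [he, he, h1, map_add, e1, hτX, hτΨ, e2, smul_add, h3]
    change (h.X • ((τ (r y) : LinearMap.ker q₂) : Y₂) + b • ((Ψ₂ (q₁ y) : LinearMap.ker q₂) : Y₂))
      + σ₂ (h.X • q₁ y) = _
    abel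
  obtain ⟨g, hg⟩ := hlin Y₁ Y₂ hY₁ hY₂ e heX
  have hqe : ∀ y, q₂ (e y) = q₁ y := by
    intro y
    rw [he, map_add, LinearMap.mem_ker.mp (τ (r y)).2, hσ₂, zero_add]
  have hbij : Function.Bijective g := by
    constructor
    · rw [← LinearMap.ker_eq_bot, LinearMap.ker_eq_bot']
      intro y hy
      rw [hg] at hy
      have h1 : q₁ y = 0 := by rw [← hqe, hy, map_zero]
      rw [he, h1, map_zero, add_zero] at hy
      have h2 : τ (r y) = 0 := Subtype.ext hy
      have h3 : r y = 0 := τ.map_eq_zero_iff.mp h2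
      have h4 : y - σ₁ (q₁ y) = 0 := congrArg Subtype.val h3
      rwa [h1, map_zero, sub_zero] at h4
    · intro z
      have hz : z - σ₂ (q₂ z) ∈ LinearMap.ker q₂ := by
        rw [LinearMap.mem_ker, map_sub, hσ₂, sub_self]
      refine ⟨((τ.symm ⟨z - σ₂ (q₂ z), hz⟩ : LinearMap.ker q₁) : Y₁) + σ₁ (q₂ z), ?_⟩
      have h1 : q₁ (((τ.symm ⟨z - σ₂ (q₂ z), hz⟩ : LinearMap.ker q₁) : Y₁) + σ₁ (q₂ z))
          = q₂ z := by
        rw [map_add, LinearMap.mem_ker.mp (τ.symm _).2, hσ₁, zero_add]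
      have h2 : r (((τ.symm ⟨z - σ₂ (q₂ z), hz⟩ : LinearMap.ker q₁) : Y₁) + σ₁ (q₂ z))
          = τ.symm ⟨z - σ₂ (q₂ z), hz⟩ := by
        apply Subtype.ext
        rw [hr, h1]
        abel
      rw [hg, he, h2, h1, LinearEquiv.apply_symm_apply]
      change z - σ₂ (q₂ z) + σ₂ (q₂ z) = z
      abel
  refine ⟨LinearEquiv.ofBijective g hbij, fun y => ?_⟩
  rw [LinearEquiv.ofBijective_apply, hg, hqe]

end Cb
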