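import Mathlib

/-!
# Cantor-Bendixson derivatives and the Cantor-Bendixson rank of a topological space
-/

namespace Cb

section CBDefs

/-- the points of `S` which are not isolated in `S` (for the relative topology) -/
def derive {X : Type*} [TopologicalSpace X] (S : Set X) : Set X :=
  {x | x ∈ S ∧ ∀ U : Set X, IsOpen U → x ∈ U → ∃ y, y ∈ U ∧ y ∈ S ∧ y ≠ x}

universe vo in
/-- the transfinite Cantor-Bendixson derivatives `X^(α)` -/
noncomputable def cb (X : Type*) [TopologicalSpace X] (α : Ordinal.{vo}) : Set X :=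
  Ordinal.limitRecOn α Set.univ (fun _ S => derive S)
    (fun o _ f => {x | ∀ (β : Ordinal.{vo}) (hβ : β < o), x ∈ f β hβ})

end CBDefs

section CBRank

universe vr wr

/-- `x` is a point of rank `α` -/
def HasRank {X : Type wr} [TopologicalSpace X] (x : X) (α : Ordinal.{vr}) : Prop :=
  x ∈ cb X α ∧ x ∉ cb X (Order.succ α)

/-- `r` is the Cantor-Bendixson rank of `X`: if some derivative `X^(β)` is empty then `r` is the
maximum rank of a point, otherwise `r = ∞`. -/
def IsCBRank (X : Type wr) [TopologicalSpace X] (r : WithTop Ordinal.{vr}) : Prop :=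
  ((∃ β : Ordinal.{vr}, cb X β = ∅) ∧
    ∃ α : Ordinal.{vr}, r = (α : WithTop Ordinal.{vr}) ∧ IsGreatest {α | ∃ x : X, HasRank x α} α) ∨
  ((∀ β : Ordinal.{vr}, (cb X β).Nonempty) ∧ r = ⊤)

end CBRank

end Cb
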