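import Pool.Agent.Helper462.Zg.Defs
import Pool.Agent.Helper462.Cb.RankDefs

/-!
# Definitions for the Cantor-Bendixson rank of the Ziegler spectrum of `k[X; δ]`
-/

namespace Cb

section ConnDefs

/-- `D` is a connection on the `k`-vector space `V` over the derivation `δ` of `k` -/
structure IsConn {k : Type*} [Field k] (δ : Derivation ℤ k k) {V : Type*} [AddCommGroup V]
    [Module k V] (D : V → V) : Prop where
  add : ∀ v w, D (v + w) = D v + D w
  smul : ∀ (a : k) (v : V), D (a • v) = δ a • v + a • D v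

/-- every `D`-stable subspace of `V` has a `D`-stable complement -/
def SS (k : Type*) [Field k] {V : Type*} [AddCommGroup V] [Module k V] (D : V → V) : Prop :=
  ∀ W : Submodule k V, (∀ w ∈ W, D w ∈ W) →
    ∃ W' : Submodule k V, (∀ w ∈ W', D w ∈ W') ∧ IsCompl W W'

/-- the connection `v ↦ δ v + A v` on `k^ι` -/
def connM {k : Type*} [Field k] (δ : Derivation ℤ k k) {ι : Type*} [Fintype ι] (A : Matrix ι ι k)
    (v : ι → k) : ι → k :=
  fun i => δ (v i) + ∑ j, A i j * v j

/-- the matrix of `Z ↦ A Z - Z A` -/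
def adM {k : Type*} [Field k] {ι : Type*} [DecidableEq ι] (A : Matrix ι ι k) :
    Matrix (ι × ι) (ι × ι) k :=
  fun x y => (if x.2 = y.2 then A x.1 y.1 else 0) - (if x.1 = y.1 then A y.2 x.2 else 0)

end ConnDefs

section DiffPolyDefs

/-- `A` is the differential polynomial ring `k[X; δ]`: it contains `k`, `X a - a X = δ a`, and
every element is uniquely a polynomial `∑ a_n X ^ n`. -/
structure DiffPoly {k : Type*} [Field k] (δ : Derivation ℤ k k) (A : Type*) [Ring A] where
  /-- the inclusion of `k` -/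
  i : k →+* A
  /-- the indeterminate -/
  X : A
  comm : ∀ a, X * i a = i a * X + i (δ a)
  bij : Function.Bijective (fun p : ℕ →₀ k => p.sum fun n a => i a * X ^ n)

/-- `A` is a (left and right) Euclidean domain with respect to the degree `d` -/
structure Euclid (A : Type*) [Ring A] (d : A → ℕ) : Prop where
  nontriv : (1 : A) ≠ 0
  mul_ne : ∀ a b : A, a ≠ 0 → b ≠ 0 → a * b ≠ 0
  d_mul : ∀ a b : A, a ≠ 0 → b ≠ 0 → d (a * b) = d a + d b
  left_div : ∀ q g : A, g ≠ 0 → ∃ h r, q = h * g + r ∧ (r = 0 ∨ d r < d g)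
  right_div : ∀ q g : A, g ≠ 0 → ∃ h r, q = g * h + r ∧ (r = 0 ∨ d r < d g)

end DiffPolyDefs



section PVDefs

/-- the logarithmic derivative `P⁻¹ D(P)` (with `Q = P⁻¹`) -/
def ld {k K : Type*} [Field k] [Field K] [Algebra k K] {ι : Type*} [Fintype ι]
    (P Q : Matrix ι ι K) (D : Derivation k K K) : Matrix ι ι K :=
  Q * P.map (fun x => D x)

/-- the `K`-span of a subspace of `C^ι` -/
def extS {C : Type*} (K : Type*) [Field C] [Field K] [Algebra C K] {ι : Type*}
    (U : Submodule C (ι → C)) : Submodule K (ι → K) :=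
  Submodule.span K {w | ∃ u ∈ U, w = fun i => algebraMap C K (u i)}

/-- the `K`-span of `U` is stable under all logarithmic derivatives of `P` -/
def StU {C : Type*} (k : Type*) {K : Type*} [Field C] [Field k] [Field K] [Algebra C K]
    [Algebra k K] {ι : Type*} [Fintype ι] (P Q : Matrix ι ι K) (U : Submodule C (ι → C)) : Prop :=
  ∀ D : Derivation k K K, ∀ u ∈ U,
    (ld P Q D).mulVec (fun i => algebraMap C K (u i)) ∈ extS K U

/-- `M ⊆ K^ι` is stable under `d + B` and under all `k`-derivations of `K` -/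
def StM {k : Type*} {K : Type*} [Field k] [Field K] [Algebra k K]
    {ι : Type*} [Fintype ι] (d : Derivation ℤ K K) (B : Matrix ι ι k)
    (M : Submodule K (ι → K)) : Prop :=
  (∀ m ∈ M, connM d (B.map (algebraMap k K)) m ∈ M) ∧
    ∀ D : Derivation k K K, ∀ m ∈ M, (fun i => D (m i)) ∈ M

end PVDefs

section SerialDefs

/-- the submodules form a chain -/
def Uniserial (A : Type*) [Ring A] (M : Type*) [AddCommGroup M] [Module A M] : Prop :=
  ∀ N₁ N₂ : Submodule A M, N₁ ≤ N₂ ∨ N₂ ≤ N₁

/-- any two nonsplit extensions of simple modules with the same kernel `V` are isomorphic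
over `V` -/
def UniBot.{u₁} (A : Type u₁) [Ring A] : Prop :=
  ∀ (V Y₁ Y₂ : Type u₁) [AddCommGroup V] [Module A V] [AddCommGroup Y₁] [Module A Y₁]
    [AddCommGroup Y₂] [Module A Y₂] (j₁ : V →ₗ[A] Y₁) (j₂ : V →ₗ[A] Y₂),
    IsSimpleModule A V → Function.Injective j₁ → Function.Injective j₂ →
    IsSimpleModule A (Y₁ ⧸ LinearMap.range j₁) → IsSimpleModule A (Y₂ ⧸ LinearMap.range j₂) →
    (¬ ∃ r : Y₁ →ₗ[A] V, r ∘ₗ j₁ = LinearMap.id) →
    (¬ ∃ r : Y₂ →ₗ[A] V, r ∘ₗ j₂ = LinearMap.id) →
    ∃ e : Y₁ ≃ₗ[A] Y₂, ∀ v, e (j₁ v) = j₂ v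

/-- any two nonsplit extensions of simple modules with the same cokernel `V` are isomorphic
over `V` -/
def UniTop.{u₁} (A : Type u₁) [Ring A] : Prop :=
  ∀ (V Y₁ Y₂ : Type u₁) [AddCommGroup V] [Module A V] [AddCommGroup Y₁] [Module A Y₁]
    [AddCommGroup Y₂] [Module A Y₂] (q₁ : Y₁ →ₗ[A] V) (q₂ : Y₂ →ₗ[A] V),
    IsSimpleModule A V → Function.Surjective q₁ → Function.Surjective q₂ →
    IsSimpleModule A (LinearMap.ker q₁) → IsSimpleModule A (LinearMap.ker q₂) →
    (¬ ∃ s : V →ₗ[A] Y₁, q₁ ∘ₗ s = LinearMap.id) →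
    (¬ ∃ s : V →ₗ[A] Y₂, q₂ ∘ₗ s = LinearMap.id) →
    ∃ e : Y₁ ≃ₗ[A] Y₂, ∀ y, q₂ (e y) = q₁ y

end SerialDefs

section TriDefs

/-- a simple connection: no nontrivial stable subspaces -/
def SimpleC (k : Type*) [Field k] {V : Type*} [AddCommGroup V] [Module k V] (D : V → V) : Prop :=
  (∃ v : V, v ≠ 0) ∧ ∀ W : Submodule k V, (∀ w ∈ W, D w ∈ W) → W = ⊥ ∨ W = ⊤

/-- case alpha: `H¹` vanishes for all semisimple connections -/
def HA.{u₂} {k : Type u₂} [Field k] (δ : Derivation ℤ k k) : Prop :=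
  ∀ (Q : Type u₂) [AddCommGroup Q] [Module k Q] [FiniteDimensional k Q] (D : Q → Q),
    IsConn δ D → SS k D → ∀ ω : Q, ∃ g : Q, ω = D g

/-- case beta: the class of `b` in the rank one connection `g ↦ δ g + a g` is nonzero, and every
class of a semisimple connection comes from it -/
def HB.{u₂} {k : Type u₂} [Field k] (δ : Derivation ℤ k k) (a b : k) : Prop :=
  (∀ g : k, δ g + a * g ≠ b) ∧
    ∀ (Q : Type u₂) [AddCommGroup Q] [Module k Q] [FiniteDimensional k Q] (D : Q → Q),
      IsConn δ D → SS k D → ∀ ω : Q, ∃ Ψ g : Q, D Ψ = a • Ψ ∧ ω = b • Ψ + D g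

/-- case gamma: there is a nondegenerate pair of rank at least two -/
def HG {k : Type*} [Field k] (δ : Derivation ℤ k k) : Prop :=
  ∃ (n : ℕ) (B : Matrix (Fin n) (Fin n) k) (b : Fin n → k), 2 ≤ n ∧ SS k (connM δ B) ∧
    ∀ W : Submodule k (Fin n → k), (∀ w ∈ W, connM δ B w ∈ W) → W ≠ ⊤ →
      ∀ w ∈ W, ∀ g : Fin n → k, b ≠ w + connM δ B g

end TriDefs

section TreeDefs

variable {k : Type*} [Field k]

/-- the tensor connection on functions on words: `A` is the connection matrix on `T = k^t`, and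
a function supported on the words of length `j` is a multilinear form on `T` of degree `j` -/
def tD (δ : Derivation ℤ k k) {t : ℕ} (A : Matrix (Fin t) (Fin t) k) :
    List (Fin t) → (List (Fin t) → k) → k
  | [], y => δ (y [])
  | a :: l, y => tD δ A l (fun l' => y (a :: l')) - ∑ c, A c a * y (c :: l)

/-- contraction with the vector `u` in the first letter -/
def tI {t : ℕ} (u : Fin t → k) (y : List (Fin t) → k) : List (Fin t) → k :=
  fun l => ∑ a, u a * y (a :: l)

/-- the connection `tD + tI b` -/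
def tF (δ : Derivation ℤ k k) {t : ℕ} (A : Matrix (Fin t) (Fin t) k) (b : Fin t → k)
    (y : List (Fin t) → k) : List (Fin t) → k :=
  fun l => tD δ A l y + tI b y l

/-- the sign of `χ m` -/
def sg (k : Type*) [Field k] (χ : ℕ → Bool) (m : ℕ) : k := if χ m then 1 else -1

/-- the functions on words with the symmetries prescribed by `χ`: two adjacent letters followed by
`2 m` letters may be swapped up to the sign `χ m` -/
def symS (k : Type*) [Field k] (t : ℕ) (χ : ℕ → Bool) : Submodule k (List (Fin t) → k) where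
  carrier := {y | ∀ (p : List (Fin t)) (a b : Fin t) (q : List (Fin t)) (m : ℕ),
    q.length = 2 * m → y (p ++ a :: b :: q) = sg k χ m * y (p ++ b :: a :: q)}
  add_mem' := by
    intro y z hy hz p a b q m hq
    simp only [Pi.add_apply]
    rw [hy p a b q m hq, hz p a b q m hq]
    ring
  zero_mem' := by
    intro p a b q m hq
    simp
  smul_mem' := by
    intro c y hy p a b q m hq
    simp only [Pi.smul_apply, smul_eq_mul]
    rw [hy p a b q m hq]
    ring

/-- the part of word length `j` of `symS` -/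
def homS (k : Type*) [Field k] (t : ℕ) (χ : ℕ → Bool) (j : ℕ) :
    Submodule k (List (Fin t) → k) where
  carrier := {y | y ∈ symS k t χ ∧ ∀ l, l.length ≠ j → y l = 0}
  add_mem' := by
    rintro y z ⟨h1, h2⟩ ⟨h3, h4⟩
    exact ⟨add_mem h1 h3, fun l hl => by simp [h2 l hl, h4 l hl]⟩
  zero_mem' := ⟨zero_mem _, fun l hl => rfl⟩
  smul_mem' := by
    rintro c y ⟨h1, h2⟩
    exact ⟨Submodule.smul_mem _ c h1, fun l hl => by simp [h2 l hl]⟩

/-- the elements of `symS` supported on words of length at most `L` -/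
def boundS (k : Type*) [Field k] (t : ℕ) (χ : ℕ → Bool) (L : ℕ) :
    Submodule k (List (Fin t) → k) where
  carrier := {y | y ∈ symS k t χ ∧ ∀ l, L < l.length → y l = 0}
  add_mem' := by
    rintro y z ⟨h1, h2⟩ ⟨h3, h4⟩
    exact ⟨add_mem h1 h3, fun l hl => by simp [h2 l hl, h4 l hl]⟩
  zero_mem' := ⟨zero_mem _, fun l hl => rfl⟩
  smul_mem' := by
    rintro c y ⟨h1, h2⟩
    exact ⟨Submodule.smul_mem _ c h1, fun l hl => by simp [h2 l hl]⟩

/-- the elements of `symS` supported on words of bounded length -/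
def finS (k : Type*) [Field k] (t : ℕ) (χ : ℕ → Bool) : Submodule k (List (Fin t) → k) where
  carrier := {y | y ∈ symS k t χ ∧ ∃ L : ℕ, ∀ l, L < l.length → y l = 0}
  add_mem' := by
    rintro y z ⟨h1, L, h2⟩ ⟨h3, L', h4⟩
    refine ⟨add_mem h1 h3, max L L', fun l hl => ?_⟩
    simp [h2 l (lt_of_le_of_lt (le_max_left _ _) hl), h4 l (lt_of_le_of_lt (le_max_right _ _) hl)]
  zero_mem' := ⟨zero_mem _, 0, fun l hl => rfl⟩
  smul_mem' := by
    rintro c y ⟨h1, L, h2⟩
    exact ⟨Submodule.smul_mem _ c h1, L, fun l hl => by simp [h2 l hl]⟩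

/-- the part of word length `i` -/
def prS {t : ℕ} (i : ℕ) (y : List (Fin t) → k) : List (Fin t) → k :=
  fun l => if l.length = i then y l else 0

/-- the element `x`: value one at the empty word -/
def x0 (k : Type*) [Field k] (t : ℕ) : List (Fin t) → k :=
  fun l => if l = [] then 1 else 0

end TreeDefs

end Cb

namespace Zg

universe u

section BasicK

variable {R : Type u} [Ring R]

/-- the points of `(φ/ψ)` satisfying all implications in `T` -/
def basicK (T : Set (PPFormula R × PPFormula R)) (φ ψ : PPFormula R) :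
    Set (ZieglerSpectrum R) :=
  {x | ∃ N : IndecPureInjective R, zgPoint N = x ∧
    (∀ p ∈ T, p.1.sol N.carrier ⊆ p.2.sol N.carrier) ∧ ¬ φ.sol N.carrier ⊆ ψ.sol N.carrier}

end BasicK

end Zg
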