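import Pool.Agent.Helper462.Cb.Defs

namespace Cb

universe u


section
variable {A : Type u} [Ring A] {d : A → ℕ}

/-- a generating tuple of minimal length is linearly independent -/
theorem Euclid.free_aux (h : Euclid A d) (M : Type u) [AddCommGroup M] [Module A M]
    (hM : ∀ p : A, p ≠ 0 → ∀ x : M, p • x = 0 → x = 0) (n : ℕ)
    (hmin : ∀ k : ℕ, (∃ m : Fin k → M, Submodule.span A (Set.range m) = ⊤) → n ≤ k) :
    ∀ (e : ℕ) (m : Fin n → M), Submodule.span A (Set.range m) = ⊤ →
      ∀ q : Fin n → A, ∑ j, q j • m j = 0 → ∀ i, q i ≠ 0 → d (q i) = e → False := by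
  classical
  intro e
  induction e using Nat.strong_induction_on with
  | _ e ih =>
  intro m hm q hq i hqi hde
  have hdiv : ∀ j, ∃ hr : A × A, q j = q i * hr.1 + hr.2 ∧ (hr.2 = 0 ∨ d hr.2 < d (q i)) := by
    intro j
    obtain ⟨a, r, h1, h2⟩ := h.right_div (q j) (q i) hqi
    exact ⟨(a, r), h1, h2⟩
  choose hr hr1 hr2 using hdiv
  set m' : Fin n → M := Function.update m i (m i + ∑ j ∈ Finset.univ.erase i, (hr j).1 • m j)
    with hm'
  set q' : Fin n → A := Function.update (fun j => (hr j).2) i (q i) with hq'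
  have hm'i : m' i = m i + ∑ j ∈ Finset.univ.erase i, (hr j).1 • m j := by
    rw [hm', Function.update_self]
  have hm'j : ∀ j, j ≠ i → m' j = m j := by
    intro j hj
    rw [hm', Function.update_of_ne hj]
  have hq'i : q' i = q i := by rw [hq', Function.update_self]
  have hq'j : ∀ j, j ≠ i → q' j = (hr j).2 := by
    intro j hj
    rw [hq', Function.update_of_ne hj]
  have hgen : Submodule.span A (Set.range m') = ⊤ := by
    rw [eq_top_iff, ← hm, Submodule.span_le]
    rintro _ ⟨j, rfl⟩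
    have hj : ∀ j, j ≠ i → m j ∈ Submodule.span A (Set.range m') := by
      intro j hj
      rw [← hm'j j hj]
      exact Submodule.subset_span ⟨j, rfl⟩
    by_cases hji : j = i
    · rw [hji]
      have h1 : m i = m' i - ∑ j ∈ Finset.univ.erase i, (hr j).1 • m j := by
        rw [hm'i]
        abel
      rw [h1]
      refine Submodule.sub_mem _ (Submodule.subset_span ⟨i, rfl⟩) ?_
      refine Submodule.sum_mem _ fun j hj' => Submodule.smul_mem _ _ ?_
      exact hj j (Finset.ne_of_mem_erase hj')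
    · exact hj j hji
  have hrel : ∑ j, q' j • m' j = 0 := by
    rw [← Finset.add_sum_erase _ _ (Finset.mem_univ i), hq'i, hm'i, smul_add, Finset.smul_sum,
      add_assoc, ← Finset.sum_add_distrib]
    rw [← Finset.add_sum_erase _ _ (Finset.mem_univ i)] at hq
    rw [← hq]
    congr 1
    refine Finset.sum_congr rfl fun j hj => ?_
    rw [hq'j j (Finset.ne_of_mem_erase hj), hm'j j (Finset.ne_of_mem_erase hj), smul_smul,
      ← add_smul, ← hr1 j]
  have hzero : ∀ j, j ≠ i → q' j = 0 := by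
    intro j hj
    by_contra hne
    have h1 : (hr j).2 ≠ 0 := by rw [← hq'j j hj]; exact hne
    have h2 : d (q' j) < e := by
      rw [hq'j j hj, ← hde]
      exact (hr2 j).resolve_left h1
    exact ih _ h2 m' hgen q' hrel j hne rfl
  have hm0 : m' i = 0 := by
    rw [Finset.sum_eq_single i (fun j _ hj => by rw [hzero j hj, zero_smul])
      (fun h => absurd (Finset.mem_univ i) h), hq'i] at hrel
    exact hM _ hqi _ hrel
  have hnpos : 0 < n := i.pos
  obtain ⟨k, rfl⟩ : ∃ k, n = k + 1 := ⟨n - 1, by omega⟩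
  have hk : k + 1 ≤ k := by
    refine hmin k ⟨fun j => m' (i.succAbove j), ?_⟩
    rw [eq_top_iff, ← hgen, Submodule.span_le]
    rintro _ ⟨j, rfl⟩
    rcases Fin.eq_self_or_eq_succAbove i j with hj | ⟨j', hj⟩
    · rw [hj, hm0]
      exact Submodule.zero_mem _
    · rw [hj]
      exact Submodule.subset_span ⟨j', rfl⟩
  omega

theorem Euclid.free (h : Euclid A d) (M : Type u) [AddCommGroup M] [Module A M]
    [Module.Finite A M] (hM : ∀ p : A, p ≠ 0 → ∀ x : M, p • x = 0 → x = 0) :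
    ∃ n : ℕ, Nonempty (M ≃ₗ[A] (Fin n → A)) := by
  classical
  have hex : ∃ n : ℕ, ∃ m : Fin n → M, Submodule.span A (Set.range m) = ⊤ :=
    Module.Finite.exists_fin
  obtain ⟨m, hm⟩ := Nat.find_spec hex
  have hli : LinearIndependent A m := by
    rw [Fintype.linearIndependent_iff]
    intro q hq i
    by_contra hqi
    exact Euclid.free_aux h M hM (Nat.find hex) (fun k hk => Nat.find_min' hex hk) _ m hm q hq i
      hqi rfl
  exact ⟨Nat.find hex, ⟨(Module.Basis.mk hli (le_of_eq hm.symm)).equivFun⟩⟩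

/-- a f.g. module is the direct sum of its torsion part and a free module -/
theorem Euclid.structure (h : Euclid A d)
    (hore : ∀ a b : A, a ≠ 0 → b ≠ 0 → ∃ x y : A, x * a = y * b ∧ x * a ≠ 0)
    (M : Type u) [AddCommGroup M] [Module A M] [Module.Finite A M] :
    ∃ (T : Submodule A M) (n : ℕ) (q : M →ₗ[A] (Fin n → A)) (s : (Fin n → A) →ₗ[A] M)
      (t : M →ₗ[A] M),
      (∀ x, x ∈ T ↔ ∃ p : A, p ≠ 0 ∧ p • x = 0) ∧ (∀ x, x ∈ T ↔ q x = 0) ∧ q ∘ₗ s = LinearMap.id ∧
      (∀ x, t x ∈ T) ∧ (∀ x ∈ T, t x = x) ∧ ∀ x, t x + s (q x) = x := by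
  classical
  let T : Submodule A M :=
    { carrier := {x | ∃ p : A, p ≠ 0 ∧ p • x = 0}
      add_mem' := by
        rintro x y ⟨p, hp, hpx⟩ ⟨q, hq, hqy⟩
        obtain ⟨u, v, h1, h2⟩ := hore p q hp hq
        refine ⟨u * p, h2, ?_⟩
        rw [smul_add, mul_smul, hpx, smul_zero, zero_add, h1, mul_smul, hqy, smul_zero]
      zero_mem' := ⟨1, h.nontriv, smul_zero _⟩
      smul_mem' := by
        rintro a x ⟨p, hp, hpx⟩
        by_cases ha : a = 0
        · exact ⟨1, h.nontriv, by rw [ha, zero_smul, smul_zero]⟩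
        · obtain ⟨y, z, h1, h2⟩ := hore a p ha hp
          refine ⟨y, fun hy => h2 (by rw [hy, zero_mul]), ?_⟩
          rw [smul_smul, h1, mul_smul, hpx, smul_zero] }
  have hT : ∀ x, x ∈ T ↔ ∃ p : A, p ≠ 0 ∧ p • x = 0 := fun x => Iff.rfl
  have hfree : ∀ p : A, p ≠ 0 → ∀ x : M ⧸ T, p • x = 0 → x = 0 := by
    intro p hp x hx
    obtain ⟨y, rfl⟩ := Submodule.Quotient.mk_surjective T x
    rw [← Submodule.Quotient.mk_smul, Submodule.Quotient.mk_eq_zero] at hx
    obtain ⟨r, hr, hrx⟩ := hx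
    rw [Submodule.Quotient.mk_eq_zero]
    exact ⟨r * p, h.mul_ne r p hr hp, by rw [mul_smul]; exact hrx⟩
  obtain ⟨n, ⟨e⟩⟩ := Euclid.free h (M ⧸ T) hfree
  let q : M →ₗ[A] (Fin n → A) := e.toLinearMap ∘ₗ T.mkQ
  have hqs : Function.Surjective q := e.surjective.comp T.mkQ_surjective
  have hq0 : ∀ x, x ∈ T ↔ q x = 0 := by
    intro x
    show x ∈ T ↔ e (T.mkQ x) = 0
    rw [LinearEquiv.map_eq_zero_iff, Submodule.mkQ_apply, Submodule.Quotient.mk_eq_zero]
  choose g hg using hqs
  let s : (Fin n → A) →ₗ[A] M :=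
    (Pi.basisFun A (Fin n)).constr ℕ (fun i => g (Pi.single i 1))
  have hs : q ∘ₗ s = LinearMap.id := by
    refine (Pi.basisFun A (Fin n)).ext fun i => ?_
    rw [LinearMap.comp_apply, Module.Basis.constr_basis, hg, LinearMap.id_apply,
      Pi.basisFun_apply]
  have hs' : ∀ y, q (s y) = y := fun y => LinearMap.congr_fun hs y
  refine ⟨T, n, q, s, LinearMap.id - s ∘ₗ q, hT, hq0, hs, ?_, ?_, ?_⟩
  · intro x
    rw [hq0]
    have h1 : q (x - s (q x)) = q x - q (s (q x)) := map_sub q _ _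
    show q (x - s (q x)) = 0
    rw [h1, hs', sub_self]
  · intro x hx
    rw [hq0] at hx
    rw [LinearMap.sub_apply, LinearMap.id_apply, LinearMap.comp_apply, hx, map_zero, sub_zero]
  · intro x
    rw [LinearMap.sub_apply, LinearMap.id_apply, LinearMap.comp_apply, sub_add_cancel]
end

end Cb
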