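import Pool.Agent.Helper462.Cb.Defs

namespace Cb

universe u


section GLie

variable {K : Type*} [Field K] {ι : Type*} [Fintype ι]

theorem gl_mul (f : K → K) (hadd : ∀ a b, f (a + b) = f a + f b)
    (hmul : ∀ a b, f (a * b) = a * f b + b * f a) (M N : Matrix ι ι K) :
    (M * N).map f = M.map f * N + M * N.map f := by
  ext i j
  simp only [Matrix.map_apply, Matrix.mul_apply, Matrix.add_apply]
  have h1 : f (∑ x, M i x * N x j) = ∑ x, f (M i x * N x j) :=
    map_sum (AddMonoidHom.mk' f hadd) _ _
  rw [h1, ← Finset.sum_add_distrib]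
  refine Finset.sum_congr rfl fun x _ => ?_
  rw [hmul]
  ring

theorem gl_add (f : K → K) (hadd : ∀ a b, f (a + b) = f a + f b) (M N : Matrix ι ι K) :
    (M + N).map f = M.map f + N.map f := by
  ext i j
  simp only [Matrix.map_apply, Matrix.add_apply, hadd]

theorem gl_smul (f : K → K)
    (hmul : ∀ a b, f (a * b) = a * f b + b * f a) (a : K) (M : Matrix ι ι K) :
    (a • M).map f = a • M.map f + f a • M := by
  ext i j
  simp only [Matrix.map_apply, Matrix.add_apply, Matrix.smul_apply, smul_eq_mul, hmul]
  ring

/-- stability of spans under a derivation -/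
theorem gl_span (f : K → K) (hadd : ∀ a b, f (a + b) = f a + f b)
    (hmul : ∀ a b, f (a * b) = a * f b + b * f a) (S : Set (Matrix ι ι K))
    (G : Submodule K (Matrix ι ι K)) (hG : Submodule.span K S ≤ G)
    (hS : ∀ x ∈ S, x.map f ∈ G) : ∀ x ∈ Submodule.span K S, x.map f ∈ G := by
  intro x hx
  have h0 : f 0 = 0 := by
    have := hadd 0 0
    rw [add_zero] at this
    exact left_eq_add.1 this
  induction hx using Submodule.span_induction with
  | mem x hx => exact hS x hx
  | zero =>
    have : (0 : Matrix ι ι K).map f = 0 := by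
      ext i j
      simp [h0]
    rw [this]
    exact G.zero_mem
  | add x y _ _ hx hy =>
    rw [gl_add f hadd]
    exact G.add_mem hx hy
  | smul a x hx' hx =>
    rw [gl_smul f hmul]
    exact G.add_mem (G.smul_mem _ hx) (G.smul_mem _ (hG hx'))

theorem gl_inv [DecidableEq ι] (f : K → K) (hadd : ∀ a b, f (a + b) = f a + f b)
    (hmul : ∀ a b, f (a * b) = a * f b + b * f a) (P Q : Matrix ι ι K) (hPQ : P * Q = 1)
    (hQP : Q * P = 1) : Q.map f = -(Q * P.map f * Q) := by
  have h0 : f 0 = 0 := by
    have := hadd 0 0
    rw [add_zero] at this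
    exact left_eq_add.1 this
  have h1 : f 1 = 0 := by
    have := hmul 1 1
    rw [one_mul, one_mul] at this
    exact left_eq_add.1 this
  have h2 := gl_mul f hadd hmul Q P
  rw [hQP] at h2
  have h3 : (1 : Matrix ι ι K).map f = 0 := by
    ext i j
    by_cases hij : i = j
    · subst hij
      simp [h1]
    · simp [hij, h0]
  rw [h3] at h2
  have h4 : Q.map f * P = -(Q * P.map f) := (eq_neg_of_add_eq_zero_left h2.symm)
  calc Q.map f = Q.map f * (P * Q) := by rw [hPQ, Matrix.mul_one]
    _ = (Q.map f * P) * Q := by rw [Matrix.mul_assoc]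
    _ = _ := by rw [h4, Matrix.neg_mul]

/-- matrices as functions on pairs -/
def glV (K : Type*) [Field K] (ι : Type*) : Matrix ι ι K ≃ₗ[K] (ι × ι → K) where
  toFun M p := M p.1 p.2
  invFun w := Matrix.of fun i j => w (i, j)
  map_add' _ _ := rfl
  map_smul' _ _ := rfl
  left_inv _ := rfl
  right_inv _ := rfl

end GLie

section GLie2

variable {k K : Type*} [Field k] [Field K] [Algebra k K]

/-- commutator of `d` and a `k`-derivation -/
def glC (δ : Derivation ℤ k k) (d : Derivation ℤ K K)
    (hd : ∀ a : k, d (algebraMap k K a) = algebraMap k K (δ a)) (D : Derivation k K K) :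
    Derivation k K K :=
  Derivation.mk'
    { toFun := fun x => d (D x) - D (d x)
      map_add' := fun x y => by
        simp only [map_add]
        ring
      map_smul' := fun a x => by
        change d (D (a • x)) - D (d (a • x)) = a • (d (D x) - D (d x))
        have h1 : ∀ (c : k) (z : K), D (c • z) = c • D z := fun c z => D.map_smul c z
        have h2 : ∀ z : K, d (a • z) = a • d z + δ a • z := fun z => by
          rw [Algebra.smul_def, Derivation.leibniz, hd, smul_eq_mul, smul_eq_mul,
            Algebra.smul_def, Algebra.smul_def, mul_comm z]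
        rw [h1, h2, h2, map_add, h1, h1, smul_sub]
        abel }
    (fun a b => by
      simp only [LinearMap.coe_mk, AddHom.coe_mk, smul_eq_mul, Derivation.leibniz, map_add]
      ring)

theorem glC_apply (δ : Derivation ℤ k k) (d : Derivation ℤ K K)
    (hd : ∀ a : k, d (algebraMap k K a) = algebraMap k K (δ a)) (D : Derivation k K K) (x : K) :
    glC δ d hd D x = d (D x) - D (d x) := rfl

end GLie2

theorem g_lie
    (hech : ∀ (K : Type u) [Field K] (ι : Type) [Fintype ι] [DecidableEq ι]
      (W : Submodule K (ι → K)), ∃ B : Set (ι → K), Submodule.span K B = W ∧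
        ∀ f : K →+ K, f 1 = 0 → (∀ w ∈ W, (fun i => f (w i)) ∈ W) → ∀ e ∈ B, ∀ i, f (e i) = 0)
    {C k K : Type u} [Field C] [Field k] [Field K] [CharZero k] [Algebra C k] [Algebra k K]
    [Algebra C K] [IsScalarTower C k K] (δ : Derivation ℤ k k) (d : Derivation ℤ K K)
    (hd : ∀ a : k, d (algebraMap k K a) = algebraMap k K (δ a))
    (hC : ∀ x : K, d x = 0 ↔ ∃ c : C, algebraMap C K c = x)
    {ι : Type} [Fintype ι] [DecidableEq ι] (B : Matrix ι ι k)
    (P Q : Matrix ι ι K) (hPQ : P * Q = 1) (hQP : Q * P = 1)
    (hP : ∀ i j, d (P i j) = - ∑ l, algebraMap k K (B i l) * P l j) :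
    ∃ g : Submodule C (Matrix ι ι C), (∀ x ∈ g, ∀ y ∈ g, x * y - y * x ∈ g) ∧
      Submodule.span K {Z : Matrix ι ι K | ∃ x ∈ g, Z = x.map (algebraMap C K)} =
        Submodule.span K {Z : Matrix ι ι K | ∃ D : Derivation k K K, Z = ld P Q D} := by
  classical
  have dadd : ∀ a b : K, d (a + b) = d a + d b := fun a b => map_add d a b
  have dmul : ∀ a b : K, d (a * b) = a * d b + b * d a := fun a b => by
    rw [Derivation.leibniz, smul_eq_mul, smul_eq_mul]
  have Dadd : ∀ D : Derivation k K K, ∀ a b : K, D (a + b) = D a + D b := fun D a b => map_add D a b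
  have Dmul : ∀ D : Derivation k K K, ∀ a b : K, D (a * b) = a * D b + b * D a := fun D a b => by
    rw [Derivation.leibniz, smul_eq_mul, smul_eq_mul]
  set G : Submodule K (Matrix ι ι K) :=
    Submodule.span K {Z : Matrix ι ι K | ∃ D : Derivation k K K, Z = ld P Q D} with hG
  have hyG : ∀ D : Derivation k K K, ld P Q D ∈ G := fun D => Submodule.subset_span ⟨D, rfl⟩
  -- the derivative of `P` and `Q`
  have hPd : P.map (fun x => d x) = -(B.map (algebraMap k K) * P) := by
    ext i j
    simp only [Matrix.map_apply, Matrix.neg_apply, Matrix.mul_apply]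
    exact hP i j
  have hQd : Q.map (fun x => d x) = Q * B.map (algebraMap k K) := by
    rw [gl_inv (fun x => d x) dadd dmul P Q hPQ hQP, hPd, Matrix.mul_neg, Matrix.neg_mul, neg_neg,
      Matrix.mul_assoc, Matrix.mul_assoc, hPQ, Matrix.mul_one]
  -- (1)
  have hyd : ∀ D : Derivation k K K, (ld P Q D).map (fun x => d x) = ld P Q (glC δ d hd D) := by
    intro D
    have h1 : (P.map (fun x => D x)).map (fun x => d x) =
        -(B.map (algebraMap k K) * P.map (fun x => D x)) + P.map (fun x => glC δ d hd D x) := by
      have h2 : (P.map (fun x => D x)).map (fun x => d x) =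
          (P.map (fun x => d x)).map (fun x => D x) + P.map (fun x => glC δ d hd D x) := by
        ext i j
        simp only [Matrix.map_apply, Matrix.add_apply, glC_apply]
        ring
      have h3 : (B.map (algebraMap k K)).map (fun x => D x) = 0 := by
        ext i j
        simp
      have h4 : (-(B.map (algebraMap k K) * P)).map (fun x => D x) =
          -((B.map (algebraMap k K) * P).map (fun x => D x)) := by
        ext i j
        simp only [Matrix.map_apply, Matrix.neg_apply, map_neg]
      rw [h2, hPd, h4, gl_mul (fun x => D x) (Dadd D) (Dmul D), h3, Matrix.zero_mul, zero_add]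
    unfold ld
    rw [gl_mul (fun x => d x) dadd dmul, hQd, h1, Matrix.mul_add, Matrix.mul_neg,
      Matrix.mul_assoc]
    abel
  have hGd : ∀ x ∈ G, x.map (fun x => d x) ∈ G := by
    apply gl_span (fun x => d x) dadd dmul _ G le_rfl
    rintro _ ⟨D, rfl⟩
    rw [hyd]
    exact hyG _
  -- (2)
  obtain ⟨Bs, hBs, hBd⟩ := hech K (ι × ι) (G.map (glV K ι).toLinearMap)
  have hBd' : ∀ e ∈ Bs, ∀ i, d (e i) = 0 := by
    refine hBd (AddMonoidHom.mk' (fun x => d x) dadd) ?_ ?_
    · exact d.map_one_eq_zero
    · rintro _ ⟨x, hx, rfl⟩
      exact ⟨x.map (fun x => d x), hGd x hx, rfl⟩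
  -- the Lie algebra
  let g : Submodule C (Matrix ι ι C) :=
    { carrier := {x | x.map (algebraMap C K) ∈ G}
      add_mem' := by
        intro x y hx hy
        have h1 : (x + y).map (algebraMap C K) = x.map (algebraMap C K) + y.map (algebraMap C K) := by
          ext i j
          simp
        change (x + y).map (algebraMap C K) ∈ G
        rw [h1]
        exact G.add_mem hx hy
      zero_mem' := by
        have h1 : (0 : Matrix ι ι C).map (algebraMap C K) = 0 := by
          ext i j
          simp
        change (0 : Matrix ι ι C).map (algebraMap C K) ∈ G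
        rw [h1]
        exact G.zero_mem
      smul_mem' := by
        intro c x hx
        have h1 : (c • x).map (algebraMap C K) = algebraMap C K c • x.map (algebraMap C K) := by
          ext i j
          simp
        change (c • x).map (algebraMap C K) ∈ G
        rw [h1]
        exact G.smul_mem _ hx }
  have hgmem : ∀ x : Matrix ι ι C, x ∈ g ↔ x.map (algebraMap C K) ∈ G := fun x => Iff.rfl
  have hspan : Submodule.span K {Z : Matrix ι ι K | ∃ x ∈ g, Z = x.map (algebraMap C K)} = G := by
    apply le_antisymm
    · rw [Submodule.span_le]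
      rintro _ ⟨x, hx, rfl⟩
      exact hx
    · intro x hx
      have h1 : glV K ι x ∈ G.map (glV K ι).toLinearMap := ⟨x, hx, rfl⟩
      rw [← hBs] at h1
      have h2 : ∀ w ∈ Submodule.span K Bs, (glV K ι).symm w ∈
          Submodule.span K {Z : Matrix ι ι K | ∃ x ∈ g, Z = x.map (algebraMap C K)} := by
        intro w hw
        induction hw using Submodule.span_induction with
        | mem e he =>
          apply Submodule.subset_span
          have h3 : ∀ i, ∃ c : C, algebraMap C K c = e i := fun i => (hC _).1 (hBd' e he i)
          choose c hc using h3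
          refine ⟨Matrix.of fun i j => c (i, j), ?_, ?_⟩
          · rw [hgmem]
            have h4 : (Matrix.of fun i j => c (i, j)).map (algebraMap C K) = (glV K ι).symm e := by
              ext i j
              exact hc (i, j)
            rw [h4]
            have h5 : e ∈ G.map (glV K ι).toLinearMap := by
              rw [← hBs]
              exact Submodule.subset_span he
            obtain ⟨y, hy, hye⟩ := h5
            have h6 : (glV K ι).symm e = y := by
              rw [← hye]
              exact (glV K ι).symm_apply_apply y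
            rw [h6]
            exact hy
          · ext i j
            exact (hc (i, j)).symm
        | zero =>
          rw [map_zero]
          exact Submodule.zero_mem _
        | add x y _ _ hx hy =>
          rw [map_add]
          exact Submodule.add_mem _ hx hy
        | smul a x _ hx =>
          rw [map_smul]
          exact Submodule.smul_mem _ _ hx
      have h3 := h2 _ h1
      rwa [LinearEquiv.symm_apply_apply] at h3
  -- (3)
  have hGD : ∀ D : Derivation k K K, ∀ x ∈ G, x.map (fun x => D x) ∈ G := by
    intro D x hx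
    rw [← hspan] at hx
    refine gl_span (fun x => D x) (Dadd D) (Dmul D) _ G hspan.le ?_ x hx
    rintro _ ⟨x, _, rfl⟩
    have h1 : (x.map (algebraMap C K)).map (fun x => D x) = 0 := by
      ext i j
      simp only [Matrix.map_apply, Matrix.zero_apply]
      rw [IsScalarTower.algebraMap_apply C k K, Derivation.map_algebraMap]
    rw [h1]
    exact G.zero_mem
  -- (4)
  have hDy : ∀ D D' : Derivation k K K, (ld P Q D').map (fun x => D x) =
      -(ld P Q D * ld P Q D') + Q * (P.map (fun x => D' x)).map (fun x => D x) := by
    intro D D'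
    unfold ld
    rw [gl_mul (fun x => D x) (Dadd D) (Dmul D), gl_inv (fun x => D x) (Dadd D) (Dmul D) P Q hPQ hQP,
      Matrix.neg_mul]
    simp only [Matrix.mul_assoc]
  have hbr : ∀ D D' : Derivation k K K, ld P Q D * ld P Q D' - ld P Q D' * ld P Q D ∈ G := by
    intro D D'
    have h1 : ld P Q D * ld P Q D' - ld P Q D' * ld P Q D =
        ld P Q ⁅D, D'⁆ - (ld P Q D').map (fun x => D x) + (ld P Q D).map (fun x => D' x) := by
      rw [hDy D D', hDy D' D]
      have h2 : ld P Q ⁅D, D'⁆ = Q * (P.map (fun x => D' x)).map (fun x => D x) -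
          Q * (P.map (fun x => D x)).map (fun x => D' x) := by
        unfold ld
        rw [← Matrix.mul_sub]
        congr 1
      rw [h2]
      abel
    rw [h1]
    exact G.add_mem (G.sub_mem (hyG _) (hGD D _ (hyG _))) (hGD D' _ (hyG _))
  have hGG : ∀ x ∈ G, ∀ y ∈ G, x * y - y * x ∈ G := by
    intro x hx y hy
    induction hx using Submodule.span_induction with
    | mem x hx =>
      obtain ⟨D, rfl⟩ := hx
      induction hy using Submodule.span_induction with
      | mem y hy =>
        obtain ⟨D', rfl⟩ := hy
        exact hbr D D'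
      | zero => simp
      | add y z _ _ hy hz =>
        rw [Matrix.mul_add, Matrix.add_mul, add_sub_add_comm]
        exact G.add_mem hy hz
      | smul a y _ hy =>
        rw [Matrix.mul_smul, Matrix.smul_mul, ← smul_sub]
        exact G.smul_mem _ hy
    | zero => simp
    | add x z _ _ hx hz =>
      rw [Matrix.mul_add, Matrix.add_mul, add_sub_add_comm]
      exact G.add_mem hx hz
    | smul a x _ hx =>
      rw [Matrix.mul_smul, Matrix.smul_mul, ← smul_sub]
      exact G.smul_mem _ hx
  refine ⟨g, ?_, hspan⟩
  intro x hx y hy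
  rw [hgmem] at hx hy ⊢
  have h1 : (x * y - y * x).map (algebraMap C K) =
      x.map (algebraMap C K) * y.map (algebraMap C K) -
        y.map (algebraMap C K) * x.map (algebraMap C K) := by
    rw [← Matrix.map_mul, ← Matrix.map_mul]
    ext i j
    simp only [Matrix.map_apply, Matrix.sub_apply, map_sub]
  rw [h1]
  exact hGG _ hx _ hy


end Cb
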