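import Pool.Agent.Helper462.Cb.Defs

namespace Cb

universe u


section
variable {k : Type u} [Field k] (δ : Derivation ℤ k k) {t : ℕ} (A : Matrix (Fin t) (Fin t) k)

theorem h170_tD_add (l : List (Fin t)) : ∀ y z : List (Fin t) → k,
    tD δ A l (y + z) = tD δ A l y + tD δ A l z := by
  induction l with
  | nil =>
    intro y z
    show δ (y [] + z []) = δ (y []) + δ (z [])
    rw [map_add]
  | cons a l ih =>
    intro y z
    show tD δ A l (fun l' => (y + z) (a :: l')) - ∑ c, A c a * (y + z) (c :: l) =
      (tD δ A l (fun l' => y (a :: l')) - ∑ c, A c a * y (c :: l)) +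
      (tD δ A l (fun l' => z (a :: l')) - ∑ c, A c a * z (c :: l))
    have h1 : (fun l' => (y + z) (a :: l')) = (fun l' => y (a :: l')) + (fun l' => z (a :: l')) := rfl
    have h2 : ∑ c, A c a * (y + z) (c :: l) = ∑ c, A c a * y (c :: l) + ∑ c, A c a * z (c :: l) := by
      rw [← Finset.sum_add_distrib]
      apply Finset.sum_congr rfl
      intro c _
      rw [Pi.add_apply, mul_add]
    rw [h1, ih, h2]
    ring

theorem h170_tD_smul (l : List (Fin t)) : ∀ (r : k) (y : List (Fin t) → k),
    tD δ A l (r • y) = δ r * y l + r * tD δ A l y := by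
  induction l with
  | nil =>
    intro r y
    show δ (r * y []) = δ r * y [] + r * δ (y [])
    rw [Derivation.leibniz, smul_eq_mul, smul_eq_mul]
    ring
  | cons a l ih =>
    intro r y
    show tD δ A l (fun l' => (r • y) (a :: l')) - ∑ c, A c a * (r • y) (c :: l) =
      δ r * y (a :: l) + r * (tD δ A l (fun l' => y (a :: l')) - ∑ c, A c a * y (c :: l))
    have h1 : (fun l' => (r • y) (a :: l')) = r • (fun l' => y (a :: l')) := rfl
    have h2 : ∑ c, A c a * (r • y) (c :: l) = r * ∑ c, A c a * y (c :: l) := by
      rw [Finset.mul_sum]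
      apply Finset.sum_congr rfl
      intro c _
      rw [Pi.smul_apply, smul_eq_mul]
      ring
    rw [h1, ih, h2]
    ring

theorem h170_tD_zero (l : List (Fin t)) : tD δ A l (0 : List (Fin t) → k) = 0 := by
  have h := h170_tD_smul δ A l 0 0
  simpa using h

theorem h170_tD_sum (l : List (Fin t)) {ι : Type*} (s : Finset ι) (f : ι → List (Fin t) → k) :
    tD δ A l (∑ i ∈ s, f i) = ∑ i ∈ s, tD δ A l (f i) := by
  classical
  induction s using Finset.induction_on with
  | empty =>
    rw [Finset.sum_empty, Finset.sum_empty, h170_tD_zero]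
  | insert i s hi ih =>
    rw [Finset.sum_insert hi, Finset.sum_insert hi, h170_tD_add, ih]

theorem tD_conn : IsConn δ (fun (y : List (Fin t) → k) l => tD δ A l y) := by
  constructor
  · intro y z
    funext l
    exact h170_tD_add δ A l y z
  · intro r y
    funext l
    exact h170_tD_smul δ A l r y

theorem tF_conn (b : Fin t → k) : IsConn δ (tF δ A b) := by
  constructor
  · intro y z
    funext l
    show tD δ A l (y + z) + tI b (y + z) l = (tD δ A l y + tI b y l) + (tD δ A l z + tI b z l)
    have h1 : tI b (y + z) l = tI b y l + tI b z l := by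
      unfold tI
      rw [← Finset.sum_add_distrib]
      apply Finset.sum_congr rfl
      intro a _
      rw [Pi.add_apply, mul_add]
    rw [h170_tD_add, h1]
    ring
  · intro r y
    funext l
    show tD δ A l (r • y) + tI b (r • y) l = δ r * y l + r * (tD δ A l y + tI b y l)
    have h1 : tI b (r • y) l = r * tI b y l := by
      unfold tI
      rw [Finset.mul_sum]
      apply Finset.sum_congr rfl
      intro a _
      rw [Pi.smul_apply, smul_eq_mul]
      ring
    rw [h170_tD_smul, h1]
    ring

/-- Leibniz rule for contraction -/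
theorem tD_tI (u : Fin t → k) (y : List (Fin t) → k) (l : List (Fin t)) :
    tD δ A l (tI u y) = tI (connM δ A u) y l + tI u (fun l => tD δ A l y) l := by
  have h1 : tI u y = ∑ a, u a • (fun l' => y (a :: l')) := by
    funext l'
    rw [Finset.sum_apply]
    rfl
  rw [h1, h170_tD_sum]
  have h2 : ∀ a : Fin t, tD δ A l (u a • (fun l' => y (a :: l'))) =
      δ (u a) * y (a :: l) + u a * tD δ A l (fun l' => y (a :: l')) := by
    intro a
    rw [h170_tD_smul]
  simp_rw [h2]
  have h3 : tI (connM δ A u) y l = ∑ a, (δ (u a) * y (a :: l) + ∑ j, A a j * u j * y (a :: l)) := by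
    unfold tI connM
    apply Finset.sum_congr rfl
    intro a _
    rw [add_mul, Finset.sum_mul]
  have h4 : tI u (fun l => tD δ A l y) l =
      ∑ a, (u a * tD δ A l (fun l' => y (a :: l')) - ∑ c, A c a * u a * y (c :: l)) := by
    unfold tI
    apply Finset.sum_congr rfl
    intro a _
    show u a * (tD δ A l (fun l' => y (a :: l')) - ∑ c, A c a * y (c :: l)) = _
    rw [mul_sub, Finset.mul_sum]
    congr 1
    apply Finset.sum_congr rfl
    intro c _
    ring
  rw [h3, h4, Finset.sum_add_distrib, Finset.sum_sub_distrib, Finset.sum_add_distrib]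
  have h5 : ∑ a, ∑ c, A c a * u a * y (c :: l) = ∑ a, ∑ j, A a j * u j * y (a :: l) :=
    Finset.sum_comm
  rw [h5]
  ring

theorem tF_x0 (b : Fin t → k) : tF δ A b (x0 k t) = 0 := by
  funext l
  show tD δ A l (x0 k t) + tI b (x0 k t) l = 0
  have h1 : ∀ (a : Fin t) (l' : List (Fin t)), x0 k t (a :: l') = 0 := by
    intro a l'
    unfold x0
    simp
  have h2 : tI b (x0 k t) l = 0 := by
    unfold tI
    apply Finset.sum_eq_zero
    intro a _
    rw [h1, mul_zero]
  rw [h2, add_zero]
  cases l with
  | nil =>
    show δ (x0 k t []) = 0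
    have h3 : x0 k t [] = 1 := by
      unfold x0
      simp
    rw [h3, Derivation.map_one_eq_zero]
  | cons a l =>
    show tD δ A l (fun l' => x0 k t (a :: l')) - ∑ c, A c a * x0 k t (c :: l) = 0
    have h3 : (fun l' => x0 k t (a :: l')) = (0 : List (Fin t) → k) := by
      funext l'
      exact h1 a l'
    rw [h3, h170_tD_zero]
    simp [h1]

end

end Cb
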