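import Pool.Agent.Helper462.Cb.Defs

namespace Cb

universe u


section
variable {k : Type u} [Field k] (δ : Derivation ℤ k k) {t : ℕ} (A : Matrix (Fin t) (Fin t) k)

theorem aux_tD_congr : ∀ (l : List (Fin t)) (y z : List (Fin t) → k),
    (∀ l', l'.length = l.length → y l' = z l') → tD δ A l y = tD δ A l z := by
  intro l
  induction l with
  | nil =>
    intro y z h
    simp only [tD]
    rw [h [] rfl]
  | cons a l ih =>
    intro y z h
    simp only [tD]
    rw [ih (fun l' => y (a :: l')) (fun l' => z (a :: l'))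
      (fun l' hl' => h _ (by simp [hl']))]
    congr 1
    refine Finset.sum_congr rfl fun c _ => ?_
    rw [h (c :: l) (by simp)]

theorem aux_tD_zero : ∀ (l : List (Fin t)), tD δ A l (fun _ => 0) = 0 := by
  intro l
  induction l with
  | nil => simp [tD]
  | cons a l ih => simp only [tD]; rw [ih]; simp

theorem aux_tD_neg : ∀ (l : List (Fin t)) (y : List (Fin t) → k),
    tD δ A l (fun l' => - y l') = - tD δ A l y := by
  intro l
  induction l with
  | nil => intro y; simp [tD]
  | cons a l ih =>
    intro y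
    simp only [tD]
    rw [ih (fun l' => y (a :: l'))]
    simp only [mul_neg, Finset.sum_neg_distrib]
    ring

theorem aux_tD_sg (χ : ℕ → Bool) (m : ℕ) (l : List (Fin t)) (y : List (Fin t) → k) :
    tD δ A l (fun l' => sg k χ m * y l') = sg k χ m * tD δ A l y := by
  unfold sg
  split
  · simp
  · have := aux_tD_neg δ A l y
    simpa using this

theorem aux_tD_eq_zero (l : List (Fin t)) (y : List (Fin t) → k)
    (h : ∀ l', l'.length = l.length → y l' = 0) : tD δ A l y = 0 := by
  rw [aux_tD_congr δ A l y (fun _ => 0) h, aux_tD_zero]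

omit δ in
theorem aux_cons_symS (χ : ℕ → Bool) {y : List (Fin t) → k} (hy : y ∈ symS k t χ) (c : Fin t) :
    (fun l => y (c :: l)) ∈ symS k t χ := by
  intro p a b q m hq
  exact hy (c :: p) a b q m hq

theorem aux_tD_swap (χ : ℕ → Bool) (a b : Fin t) (q : List (Fin t)) (m : ℕ)
    (hq : q.length = 2 * m) : ∀ (p : List (Fin t)) (y : List (Fin t) → k), y ∈ symS k t χ →
      tD δ A (p ++ a :: b :: q) y = sg k χ m * tD δ A (p ++ b :: a :: q) y := by
  intro p
  induction p with
  | nil =>
    intro y hy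
    simp only [List.nil_append, tD]
    have h1 : tD δ A q (fun l' => y (a :: b :: l')) =
        sg k χ m * tD δ A q (fun l' => y (b :: a :: l')) := by
      rw [← aux_tD_sg]
      apply aux_tD_congr
      intro l' hl'
      exact hy [] a b l' m (by rw [hl', hq])
    have h2 : ∑ c, A c b * y (a :: c :: q) = sg k χ m * ∑ c, A c b * y (c :: a :: q) := by
      rw [Finset.mul_sum]
      refine Finset.sum_congr rfl fun c _ => ?_
      have := hy [] a c q m hq
      simp only [List.nil_append] at this
      rw [this]; ring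
    have h3 : ∑ c, A c a * y (c :: b :: q) = sg k χ m * ∑ c, A c a * y (b :: c :: q) := by
      rw [Finset.mul_sum]
      refine Finset.sum_congr rfl fun c _ => ?_
      have := hy [] c b q m hq
      simp only [List.nil_append] at this
      rw [this]; ring
    rw [h1, h2, h3]; ring
  | cons c p ih =>
    intro y hy
    simp only [List.cons_append, tD]
    rw [ih _ (aux_cons_symS χ hy c)]
    have h2 : ∑ c', A c' c * y (c' :: (p ++ a :: b :: q)) =
        sg k χ m * ∑ c', A c' c * y (c' :: (p ++ b :: a :: q)) := by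
      rw [Finset.mul_sum]
      refine Finset.sum_congr rfl fun c' _ => ?_
      have := hy (c' :: p) a b q m hq
      simp only [List.cons_append] at this
      rw [this]; ring
    rw [h2]; ring

theorem tD_symS (χ : ℕ → Bool) {y : List (Fin t) → k} (hy : y ∈ symS k t χ) :
    (fun l => tD δ A l y) ∈ symS k t χ := by
  intro p a b q m hq
  exact aux_tD_swap δ A χ a b q m hq p y hy

theorem tI_symS (χ : ℕ → Bool) (u : Fin t → k) {y : List (Fin t) → k} (hy : y ∈ symS k t χ) :
    tI u y ∈ symS k t χ := by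
  intro p a b q m hq
  simp only [tI]
  rw [Finset.mul_sum]
  refine Finset.sum_congr rfl fun c _ => ?_
  have := hy (c :: p) a b q m hq
  simp only [List.cons_append] at this
  rw [this]; ring

theorem tD_homS (χ : ℕ → Bool) (j : ℕ) {y : List (Fin t) → k} (hy : y ∈ homS k t χ j) :
    (fun l => tD δ A l y) ∈ homS k t χ j := by
  refine ⟨tD_symS δ A χ hy.1, fun l hl => ?_⟩
  exact aux_tD_eq_zero δ A l y (fun l' hl' => hy.2 l' (by rw [hl']; exact hl))

theorem tI_homS (χ : ℕ → Bool) (j : ℕ) (u : Fin t → k) {y : List (Fin t) → k}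
    (hy : y ∈ homS k t χ (j + 1)) : tI u y ∈ homS k t χ j := by
  refine ⟨tI_symS χ u hy.1, fun l hl => ?_⟩
  simp only [tI]
  refine Finset.sum_eq_zero fun c _ => ?_
  rw [hy.2 (c :: l) (by simpa using hl), mul_zero]

theorem tI_homS_zero (χ : ℕ → Bool) (u : Fin t → k) {y : List (Fin t) → k}
    (hy : y ∈ homS k t χ 0) : tI u y = 0 := by
  funext l
  simp only [tI, Pi.zero_apply]
  refine Finset.sum_eq_zero fun c _ => ?_
  rw [hy.2 (c :: l) (by simp), mul_zero]

theorem tF_boundS (b : Fin t → k) (χ : ℕ → Bool) (L : ℕ) {y : List (Fin t) → k}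
    (hy : y ∈ boundS k t χ L) : tF δ A b y ∈ boundS k t χ L := by
  have h1 : tF δ A b y = (fun l => tD δ A l y) + tI b y := rfl
  refine ⟨?_, fun l hl => ?_⟩
  · rw [h1]; exact add_mem (tD_symS δ A χ hy.1) (tI_symS χ b hy.1)
  · simp only [tF, tI]
    rw [aux_tD_eq_zero δ A l y (fun l' hl' => hy.2 l' (by omega)), zero_add]
    refine Finset.sum_eq_zero fun c _ => ?_
    rw [hy.2 (c :: l) (by simp; omega), mul_zero]

theorem tF_finS (b : Fin t → k) (χ : ℕ → Bool) {y : List (Fin t) → k}
    (hy : y ∈ finS k t χ) : tF δ A b y ∈ finS k t χ := by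
  obtain ⟨h1, L, h2⟩ := hy
  obtain ⟨h3, h4⟩ := tF_boundS δ A b χ L (y := y) ⟨h1, h2⟩
  exact ⟨h3, L, h4⟩

end

end Cb
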