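import Pool.Agent.Helper462.Cb.Defs

namespace Cb

universe u


section
variable {k : Type u} [Field k] (δ : Derivation ℤ k k) {t : ℕ} (A : Matrix (Fin t) (Fin t) k)

theorem tD_zero_aux (l : List (Fin t)) : tD δ A l (fun _ => (0 : k)) = 0 := by
  induction l with
  | nil => simp [tD]
  | cons a l ih => simp [tD, ih]

omit δ A in
theorem boundS_finite_aux (χ : ℕ → Bool) (L : ℕ) : FiniteDimensional k (boundS k t χ L) := by
  let f : boundS k t χ L →ₗ[k] ((Σ j : Fin (L + 1), (Fin j → Fin t)) → k) :=
    { toFun := fun y x => y.1 (List.ofFn x.2)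
      map_add' := by
        intro y z
        funext x
        rfl
      map_smul' := by
        intro c y
        funext x
        rfl }
  refine FiniteDimensional.of_injective f ?_
  intro y z hyz
  apply Subtype.ext
  funext l
  by_cases hl : L < l.length
  · rw [y.2.2 l hl, z.2.2 l hl]
  · have h := congrFun hyz ⟨⟨l.length, by omega⟩, fun i => l.get i⟩
    have h2 : List.ofFn (fun i => l.get i) = l := List.ofFn_get l
    have h3 : y.1 (List.ofFn (fun i => l.get i)) = z.1 (List.ofFn (fun i => l.get i)) := h
    rwa [h2] at h3

theorem prS_tD (i : ℕ) (y : List (Fin t) → k) (l : List (Fin t)) :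
    tD δ A l (prS i y) = prS i (fun l => tD δ A l y) l := by
  induction l generalizing i y with
  | nil =>
    simp only [tD, prS, List.length_nil]
    split_ifs <;> simp
  | cons a l ih =>
    rcases i with _ | j
    · have h1 : (fun l' => prS 0 y (a :: l')) = fun _ => (0 : k) := by
        funext l'
        simp [prS]
      simp only [tD]
      rw [h1, tD_zero_aux]
      simp [prS]
    · have h1 : (fun l' => prS (j + 1) y (a :: l')) = prS j (fun l' => y (a :: l')) := by
        funext l'
        simp [prS]
      simp only [tD]
      rw [h1, ih]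
      simp only [prS, List.length_cons, Nat.add_right_cancel_iff, tD]
      split_ifs <;> simp

theorem prS_tI (i : ℕ) (u : Fin t → k) (y : List (Fin t) → k) :
    prS i (tI u y) = tI u (prS (i + 1) y) := by
  funext l
  simp only [prS, tI, List.length_cons, Nat.add_right_cancel_iff]
  split_ifs <;> simp

theorem prS_symS (χ : ℕ → Bool) (i : ℕ) {y : List (Fin t) → k} (hy : y ∈ symS k t χ) :
    prS i y ∈ homS k t χ i := by
  refine ⟨?_, fun l hl => by simp [prS, hl]⟩
  intro p a b q m hq
  have h := hy p a b q m hq
  have hlen : (p ++ a :: b :: q).length = (p ++ b :: a :: q).length := by simp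
  simp only [prS, hlen]
  split_ifs
  · exact h
  · simp

theorem x0_mem (χ : ℕ → Bool) (L : ℕ) : x0 k t ∈ boundS k t χ L := by
  refine ⟨?_, fun l hl => ?_⟩
  · intro p a b q m hq
    simp [x0]
  · have : l ≠ [] := by
      rintro rfl
      simp at hl
    simp [x0, this]

theorem homS_finite (χ : ℕ → Bool) (j : ℕ) : FiniteDimensional k (homS k t χ j) := by
  have hle : homS k t χ j ≤ boundS k t χ j := by
    rintro y ⟨h1, h2⟩
    exact ⟨h1, fun l hl => h2 l (by omega)⟩
  have := boundS_finite_aux (k := k) (t := t) χ j
  exact Submodule.finiteDimensional_of_le hle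

theorem boundS_finite (χ : ℕ → Bool) (L : ℕ) : FiniteDimensional k (boundS k t χ L) := by
  exact boundS_finite_aux χ L

end

end Cb
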