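import Pool.Agent.Helper462.Cb.Defs

namespace Cb

universe u


section
variable {k : Type u} [Field k] (δ : Derivation ℤ k k) {t : ℕ} (A : Matrix (Fin t) (Fin t) k)

/-- an element of positive degree killed by all contractions vanishes -/
theorem eq_zero_of_tI (χ : ℕ → Bool) (j : ℕ) {y : List (Fin t) → k}
    (hy : y ∈ homS k t χ (j + 1)) (h : ∀ u : Fin t → k, tI u y = 0) : y = 0 := by
  classical
  funext l
  rcases l with _ | ⟨a, q⟩
  · exact hy.2 [] (by simp)
  · have h1 := congrFun (h (Pi.single a 1)) q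
    unfold tI at h1
    rw [Finset.sum_eq_single a] at h1
    · simpa using h1
    · intro b _ hb
      rw [Pi.single_eq_of_ne hb, zero_mul]
    · intro h2
      exact absurd (Finset.mem_univ a) h2

/-- the coefficient of two letters -/
def ws2 (k : Type u) [Field k] {t : ℕ} (c : Bool) (z0 z1 a b : Fin t) : k :=
  if c then (if a = z0 ∧ b = z0 then 1 else 0)
  else ((if a = z0 ∧ b = z1 then 1 else 0) - (if a = z1 ∧ b = z0 then 1 else 0))

/-- an explicit element -/
def wS (k : Type u) [Field k] {t : ℕ} (χ : ℕ → Bool) (z0 z1 : Fin t) : List (Fin t) → k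
  | [] => 1
  | [_] => 0
  | a :: b :: q => ws2 k (χ (q.length / 2)) z0 z1 a b * wS k χ z0 z1 q

theorem wS_odd (χ : ℕ → Bool) (z0 z1 : Fin t) : ∀ (n : ℕ) (l : List (Fin t)), l.length = 2 * n + 1 →
    wS k χ z0 z1 l = 0 := by
  intro n
  induction n with
  | zero =>
    intro l hl
    rcases l with _ | ⟨a, _ | ⟨b, q⟩⟩
    · simp at hl
    · rfl
    · simp at hl
  | succ n ih =>
    intro l hl
    rcases l with _ | ⟨a, _ | ⟨b, q⟩⟩
    · simp at hl
    · simp at hl
    · have : wS k χ z0 z1 (a :: b :: q) = ws2 k (χ (q.length / 2)) z0 z1 a b * wS k χ z0 z1 q := rfl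
      rw [this, ih q (by simp at hl; omega), mul_zero]

theorem ws2_symm (c : Bool) (z0 z1 a b : Fin t) :
    ws2 k c z0 z1 a b = (if c then 1 else -1) * ws2 k c z0 z1 b a := by
  unfold ws2
  cases c
  · simp only [Bool.false_eq_true, if_false]
    have e1 : (a = z0 ∧ b = z1) ↔ (b = z1 ∧ a = z0) := And.comm
    have e2 : (a = z1 ∧ b = z0) ↔ (b = z0 ∧ a = z1) := And.comm
    simp only [e1, e2]
    ring
  · simp only [if_true, one_mul]
    have e1 : (a = z0 ∧ b = z0) ↔ (b = z0 ∧ a = z0) := And.comm
    simp only [e1]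

theorem wS_sym (χ : ℕ → Bool) (z0 z1 : Fin t) (a b : Fin t) (q : List (Fin t)) (m : ℕ)
    (hq : q.length = 2 * m) : ∀ (n : ℕ) (p : List (Fin t)), p.length ≤ n →
    wS k χ z0 z1 (p ++ a :: b :: q) = sg k χ m * wS k χ z0 z1 (p ++ b :: a :: q) := by
  intro n
  induction n using Nat.strong_induction_on with
  | _ n ih =>
    intro p hp
    rcases p with _ | ⟨c, _ | ⟨d, p⟩⟩
    · change ws2 k (χ (q.length / 2)) z0 z1 a b * wS k χ z0 z1 q =
        sg k χ m * (ws2 k (χ (q.length / 2)) z0 z1 b a * wS k χ z0 z1 q)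
      have hm : q.length / 2 = m := by omega
      rw [hm, ws2_symm]
      unfold sg
      ring
    · rw [wS_odd χ z0 z1 (m + 1) _ (by simp; omega), wS_odd χ z0 z1 (m + 1) _ (by simp; omega), mul_zero]
    · change ws2 k (χ ((p ++ a :: b :: q).length / 2)) z0 z1 c d * wS k χ z0 z1 (p ++ a :: b :: q) =
        sg k χ m * (ws2 k (χ ((p ++ b :: a :: q).length / 2)) z0 z1 c d *
          wS k χ z0 z1 (p ++ b :: a :: q))
      simp only [List.length_cons] at hp
      have h1 := ih p.length (by omega) p le_rfl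
      have hlen : (p ++ b :: a :: q).length = (p ++ a :: b :: q).length := by simp
      rw [h1, hlen]
      ring

theorem wS_ne (χ : ℕ → Bool) (z0 z1 : Fin t) (hz : z0 ≠ z1) (m : ℕ) :
    ∃ l : List (Fin t), l.length = 2 * m ∧ wS k χ z0 z1 l = 1 := by
  induction m with
  | zero => exact ⟨[], rfl, rfl⟩
  | succ m ih =>
    obtain ⟨l, hl, hw⟩ := ih
    have hm : l.length / 2 = m := by omega
    by_cases hc : χ m = true
    · refine ⟨z0 :: z0 :: l, by simp; omega, ?_⟩
      change ws2 k (χ (l.length / 2)) z0 z1 z0 z0 * wS k χ z0 z1 l = 1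
      rw [hm, hw, hc]
      unfold ws2
      simp
    · refine ⟨z0 :: z1 :: l, by simp; omega, ?_⟩
      change ws2 k (χ (l.length / 2)) z0 z1 z0 z1 * wS k χ z0 z1 l = 1
      have hc' : χ m = false := by simpa using hc
      rw [hm, hw, hc']
      unfold ws2
      simp [hz]

/-- a nonzero element of `homS` in even degree -/
theorem exists_ne_zero_homS (ht : 2 ≤ t) (χ : ℕ → Bool) (m : ℕ) :
    ∃ y ∈ homS k t χ (2 * m), y ≠ 0 := by
  obtain ⟨z0, hz0⟩ : ∃ z0 : Fin t, z0 = ⟨0, by omega⟩ := ⟨_, rfl⟩
  obtain ⟨z1, hz1⟩ : ∃ z1 : Fin t, z1 = ⟨1, by omega⟩ := ⟨_, rfl⟩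
  have hz : z0 ≠ z1 := by
    rw [hz0, hz1]
    intro h
    simp at h
  refine ⟨prS (2 * m) (wS k χ z0 z1), ⟨?_, ?_⟩, ?_⟩
  · intro p a b q m' hq
    unfold prS
    have hlen : (p ++ b :: a :: q).length = (p ++ a :: b :: q).length := by simp
    rw [hlen]
    split_ifs
    · exact wS_sym χ z0 z1 a b q m' hq p.length p le_rfl
    · rw [mul_zero]
  · intro l hl
    unfold prS
    rw [if_neg hl]
  · intro h
    obtain ⟨l, hl, hw⟩ := wS_ne (k := k) χ z0 z1 hz m
    have h1 := congrFun h l
    unfold prS at h1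
    rw [if_pos hl, hw] at h1
    exact one_ne_zero h1

theorem disjoint_homS [CharZero k] (χ τ : ℕ → Bool) (m : ℕ) (h : χ m ≠ τ m)
    {y : List (Fin t) → k}
    (h1 : y ∈ homS k t χ (2 * m + 2)) (h2 : y ∈ homS k t τ (2 * m + 2)) : y = 0 := by
  have key : ∀ (a b : Fin t) (q : List (Fin t)), q.length = 2 * m → y (a :: b :: q) = 0 := by
    intro a b q hq
    have e1 := h1.1 [] a b q m hq
    have e2 := h2.1 [] a b q m hq
    simp only [List.nil_append] at e1 e2
    unfold sg at e1 e2
    by_cases hc : χ m = true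
    · have ht : τ m = false := by
        by_contra hcon
        apply h
        rw [hc]
        simpa using hcon
      rw [hc] at e1
      rw [ht] at e2
      simp only [if_true, one_mul, Bool.false_eq_true, if_false] at e1 e2
      have : (2 : k) * y (a :: b :: q) = 0 := by
        rw [← e1] at e2
        linear_combination e2
      exact (mul_eq_zero.1 this).resolve_left two_ne_zero
    · have hc' : χ m = false := by simpa using hc
      have ht : τ m = true := by
        by_contra hcon
        apply h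
        rw [hc']
        simpa using hcon
      rw [hc'] at e1
      rw [ht] at e2
      simp only [if_true, one_mul, Bool.false_eq_true, if_false] at e1 e2
      have : (2 : k) * y (a :: b :: q) = 0 := by
        rw [← e2] at e1
        linear_combination e1
      exact (mul_eq_zero.1 this).resolve_left two_ne_zero
  funext l
  by_cases hl : l.length = 2 * m + 2
  · rcases l with _ | ⟨a, _ | ⟨b, q⟩⟩
    · simp at hl
    · simp at hl
    · exact key a b q (by simp at hl; omega)
  · exact h1.2 l hl

end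

end Cb
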