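import Pool.Agent.Helper462.Cb.Defs

namespace Cb

universe u


theorem nd_horizontal {k : Type u} [Field k] (δ : Derivation ℤ k k) {t : ℕ}
    (A : Matrix (Fin t) (Fin t) k) (b : Fin t → k)
    (hnd : ∀ W : Submodule k (Fin t → k), (∀ w ∈ W, connM δ A w ∈ W) → W ≠ ⊤ →
      ∀ w ∈ W, ∀ g : Fin t → k, b ≠ w + connM δ A g)
    {H : Type u} [AddCommGroup H] [Module k H] (D : H → H) (hD : IsConn δ D) (hH : SS k D)
    (ψ : (Fin t → k) →ₗ[k] H) (hψ : ∀ u, ψ (connM δ A u) = D (ψ u)) (h : H)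
    (hb : ψ b = D h) : ψ = 0 := by
  have hD0 : D 0 = 0 := by
    have := hD.smul 0 0
    simpa using this
  have hR : ∀ w ∈ LinearMap.range ψ, D w ∈ LinearMap.range ψ := by
    rintro w ⟨u, rfl⟩
    exact ⟨connM δ A u, hψ u⟩
  obtain ⟨R', hR', hc⟩ := hH (LinearMap.range ψ) hR
  have hh : h ∈ LinearMap.range ψ ⊔ R' := by
    rw [hc.sup_eq_top]
    exact Submodule.mem_top
  obtain ⟨r, hr, r', hr', hsum⟩ := Submodule.mem_sup.1 hh
  obtain ⟨g, rfl⟩ := hr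
  have h1 : D h = D (ψ g) + D r' := by rw [← hsum, hD.add]
  have h2 : D r' ∈ LinearMap.range ψ := by
    have : D r' = ψ b - D (ψ g) := by rw [hb, h1]; abel
    rw [this]
    exact Submodule.sub_mem _ ⟨b, rfl⟩ (hR _ ⟨g, rfl⟩)
  have h3 : D r' = 0 := by
    have h4 : D r' ∈ LinearMap.range ψ ⊓ R' := ⟨h2, hR' _ hr'⟩
    rw [hc.inf_eq_bot] at h4
    exact (Submodule.mem_bot k).1 h4
  have h5 : ψ (b - connM δ A g) = 0 := by
    rw [map_sub, hψ, hb, h1, h3]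
    abel
  by_contra hne
  have hW : LinearMap.ker ψ ≠ ⊤ := fun h => hne (LinearMap.ker_eq_top.1 h)
  refine hnd (LinearMap.ker ψ) ?_ hW (b - connM δ A g) (LinearMap.mem_ker.2 h5) g ?_
  · intro w hw
    rw [LinearMap.mem_ker] at hw ⊢
    rw [hψ, hw, hD0]
  · abel

end Cb
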