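import Pool.Agent.Helper462.Cb.Defs

namespace Cb

universe u


section ws21679

/-- semisimplicity descends along injective intertwining maps -/
theorem ws_inj {k : Type*} [Field k] {U V : Type*} [AddCommGroup U] [Module k U]
    [AddCommGroup V] [Module k V] (f : U →ₗ[k] V) (hf : Function.Injective f)
    {DU : U → U} {DV : V → V} (hint : ∀ u, DV (f u) = f (DU u)) (h : SS k DV) : SS k DU := by
  intro W hW
  obtain ⟨W', hW', hc⟩ := h (W.map f) (by
    rintro _ ⟨w, hw, rfl⟩
    exact ⟨DU w, hW w hw, (hint w).symm⟩)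
  refine ⟨W'.comap f, ?_, ?_⟩
  · intro w hw
    rw [Submodule.mem_comap] at hw ⊢
    rw [← hint]
    exact hW' _ hw
  · rw [isCompl_iff, Submodule.disjoint_def, codisjoint_iff, Submodule.eq_top_iff']
    constructor
    · intro x hx hx'
      rw [Submodule.mem_comap] at hx'
      have : f x = 0 := (Submodule.disjoint_def.1 hc.disjoint) (f x) ⟨x, hx, rfl⟩ hx'
      exact hf (by rw [this, map_zero])
    · intro x
      have hx : f x ∈ W.map f ⊔ W' := by
        rw [hc.sup_eq_top]
        trivial
      obtain ⟨y, ⟨w, hw, rfl⟩, z, hz, hyz⟩ := Submodule.mem_sup.1 hx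
      refine Submodule.mem_sup.2 ⟨w, hw, x - w, ?_, by abel⟩
      rw [Submodule.mem_comap, map_sub, ← hyz, add_sub_cancel_left]
      exact hz

/-- the induced connection on `Hom` -/
def wsH {k : Type*} [Field k] {δ : Derivation ℤ k k} {V W : Type*} [AddCommGroup V]
    [Module k V] [AddCommGroup W] [Module k W] {DV : V → V} {DW : W → W} (hV : IsConn δ DV)
    (hW : IsConn δ DW) (φ : V →ₗ[k] W) : V →ₗ[k] W where
  toFun v := DW (φ v) - φ (DV v)
  map_add' v w := by
    rw [map_add, hW.add, hV.add, map_add]
    abel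
  map_smul' c v := by
    rw [map_smul, hW.smul, hV.smul, map_add, map_smul, map_smul, RingHom.id_apply, smul_sub]
    abel

/-- functions supported on words of length `j` -/
def wsG (k : Type*) [Field k] (t : ℕ) (j : ℕ) : Submodule k (List (Fin t) → k) where
  carrier := {y | ∀ l, l.length ≠ j → y l = 0}
  add_mem' := by
    intro y z h1 h2 l hl
    simp [h1 l hl, h2 l hl]
  zero_mem' := fun l hl => rfl
  smul_mem' := by
    intro c y h l hl
    simp [h l hl]

theorem wsG_fd (k : Type*) [Field k] (t : ℕ) (j : ℕ) : FiniteDimensional k (wsG k t j) := by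
  let f : wsG k t j →ₗ[k] (List.Vector (Fin t) j → k) :=
    { toFun := fun y v => (y : List (Fin t) → k) v.1
      map_add' := fun y z => rfl
      map_smul' := fun c y => rfl }
  refine Module.Finite.of_injective f ?_
  intro y z hyz
  apply Subtype.ext
  funext l
  by_cases hl : l.length = j
  · exact congrFun hyz ⟨l, hl⟩
  · rw [y.2 l hl, z.2 l hl]

theorem ws_tD_zero {k : Type*} [Field k] (δ : Derivation ℤ k k) {t : ℕ}
    (A : Matrix (Fin t) (Fin t) k) : ∀ (l : List (Fin t)) (y : List (Fin t) → k),
    (∀ l' : List (Fin t), l'.length = l.length → y l' = 0) → tD δ A l y = 0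
  | [], y, h => by
      rw [tD, h [] rfl, map_zero]
  | a :: l, y, h => by
      rw [tD, ws_tD_zero δ A l (fun l' => y (a :: l')) (fun l' hl' => h _ (by simp [hl'])),
        Finset.sum_eq_zero (fun c _ => by rw [h (c :: l) (by simp), mul_zero]), sub_zero]

theorem ws_tD_mem {k : Type*} [Field k] (δ : Derivation ℤ k k) {t : ℕ}
    (A : Matrix (Fin t) (Fin t) k) (j : ℕ) {y : List (Fin t) → k} (hy : y ∈ wsG k t j) :
    (fun l => tD δ A l y) ∈ wsG k t j := by
  intro l hl
  exact ws_tD_zero δ A l y (fun l' hl' => hy l' (by rw [hl']; exact hl))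

/-- the connection on `wsG` -/
def wsD {k : Type*} [Field k] (δ : Derivation ℤ k k) {t : ℕ}
    (A : Matrix (Fin t) (Fin t) k) (j : ℕ) (y : wsG k t j) : wsG k t j :=
  ⟨fun l => tD δ A l y, ws_tD_mem δ A j y.2⟩

theorem ws_connM {k : Type*} [Field k] (δ : Derivation ℤ k k) {ι : Type*} [Fintype ι]
    (A : Matrix ι ι k) : IsConn δ (connM δ A) := by
  constructor
  · intro v w
    funext i
    simp only [connM, Pi.add_apply, map_add, mul_add, Finset.sum_add_distrib]
    ring
  · intro a v
    funext i
    simp only [connM, Pi.add_apply, Pi.smul_apply, smul_eq_mul, Derivation.leibniz, mul_add,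
      Finset.mul_sum]
    have : ∀ j, A i j * (a * v j) = a * (A i j * v j) := fun j => by ring
    simp only [this]
    ring

theorem ws_conn {k : Type*} [Field k] (δ : Derivation ℤ k k) {t : ℕ}
    (A : Matrix (Fin t) (Fin t) k)
    (hconn : IsConn δ (fun (y : List (Fin t) → k) l => tD δ A l y))
    (U : Submodule k (List (Fin t) → k)) (DU : U → U)
    (hDU : ∀ y : U, (DU y : List (Fin t) → k) = fun l => tD δ A l y) : IsConn δ DU := by
  constructor
  · intro v w
    apply Subtype.ext
    rw [hDU]
    show _ = (DU v : List (Fin t) → k) + (DU w : List (Fin t) → k)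
    rw [hDU, hDU]
    exact hconn.add _ _
  · intro a v
    apply Subtype.ext
    rw [hDU]
    show _ = δ a • (v : List (Fin t) → k) + a • (DU v : List (Fin t) → k)
    rw [hDU]
    exact hconn.smul _ _

theorem ws_tI_mem {k : Type*} [Field k] {t : ℕ} (j : ℕ) {y : List (Fin t) → k}
    (hy : y ∈ wsG k t (j + 1)) (u : Fin t → k) : tI u y ∈ wsG k t j := by
  intro l hl
  unfold tI
  apply Finset.sum_eq_zero
  intro a _
  rw [hy (a :: l) (by simp [hl]), mul_zero]

/-- `y ↦ (u ↦ tI u y)` -/
def wsF (k : Type*) [Field k] (t : ℕ) (j : ℕ) :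
    wsG k t (j + 1) →ₗ[k] (Fin t → k) →ₗ[k] wsG k t j :=
  LinearMap.mk₂ k (fun y u => ⟨tI u (y : List (Fin t) → k), ws_tI_mem j y.2 u⟩)
    (by
      intro y z u
      apply Subtype.ext
      funext l
      show tI u _ l = tI u _ l + tI u _ l
      simp [tI, mul_add, Finset.sum_add_distrib])
    (by
      intro c y u
      apply Subtype.ext
      funext l
      show tI u _ l = c * tI u _ l
      simp only [tI, Finset.mul_sum]
      refine Finset.sum_congr rfl fun a _ => ?_
      show u a * (c * _) = _
      ring)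
    (by
      intro y u v
      apply Subtype.ext
      funext l
      show tI _ _ l = tI u _ l + tI v _ l
      simp [tI, add_mul, Finset.sum_add_distrib])
    (by
      intro c y u
      apply Subtype.ext
      funext l
      show tI _ _ l = c * tI u _ l
      simp only [tI, Finset.mul_sum]
      refine Finset.sum_congr rfl fun a _ => ?_
      show (c * u a) * _ = _
      ring)

theorem wsF_apply (k : Type*) [Field k] (t : ℕ) (j : ℕ) (y : wsG k t (j + 1)) (u : Fin t → k)
    (l : List (Fin t)) : (wsF k t j y u : List (Fin t) → k) l =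
      ∑ a, u a * (y : List (Fin t) → k) (a :: l) := rfl

theorem wsF_inj (k : Type*) [Field k] (t : ℕ) (j : ℕ) : Function.Injective (wsF k t j) := by
  rw [injective_iff_map_eq_zero]
  intro y hy
  apply Subtype.ext
  funext l
  rcases l with _ | ⟨a, l⟩
  · exact y.2 [] (by simp)
  · have h1 : (wsF k t j y (Pi.single a 1) : List (Fin t) → k) l = 0 := by
      rw [hy]
      rfl
    rw [wsF_apply] at h1
    simp only [Pi.single_apply, ite_mul, one_mul, zero_mul, Finset.sum_ite_eq',
      Finset.mem_univ, if_true] at h1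
    exact h1

theorem ws_comm {k : Type*} [Field k] (δ : Derivation ℤ k k) {t : ℕ}
    (A : Matrix (Fin t) (Fin t) k)
    (hconn : IsConn δ (fun (y : List (Fin t) → k) l => tD δ A l y)) (y : List (Fin t) → k)
    (u : Fin t → k) (l : List (Fin t)) :
    tD δ A l (tI u y) - ∑ a, connM δ A u a * y (a :: l) = ∑ a, u a * tD δ A (a :: l) y := by
  have h0 : tI u y = ∑ a, u a • (fun l' => y (a :: l')) := by
    funext l'
    rw [Finset.sum_apply]
    rfl
  have hs : ∀ F : Fin t → (List (Fin t) → k),
      (fun l => tD δ A l (∑ a, F a)) = ∑ a, fun l => tD δ A l (F a) := fun F =>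
    map_sum (AddMonoidHom.mk' (fun (y : List (Fin t) → k) l => tD δ A l y) hconn.add) F
      Finset.univ
  have h1 : tD δ A l (tI u y) = ∑ a, (δ (u a) * y (a :: l)
      + u a * tD δ A l (fun l' => y (a :: l'))) := by
    rw [h0]
    have h2 := congrFun (hs fun a => u a • (fun l' => y (a :: l'))) l
    rw [Finset.sum_apply] at h2
    refine h2.trans (Finset.sum_congr rfl fun a _ => ?_)
    exact congrFun (hconn.smul (u a) (fun l' => y (a :: l'))) l
  rw [h1]
  have h3 : ∀ a, connM δ A u a * y (a :: l) = δ (u a) * y (a :: l)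
      + ∑ c, u c * (A a c * y (a :: l)) := by
    intro a
    unfold connM
    rw [add_mul, Finset.sum_mul]
    congr 1
    exact Finset.sum_congr rfl fun c _ => by ring
  have h4 : ∀ a, u a * tD δ A (a :: l) y = u a * tD δ A l (fun l' => y (a :: l'))
      - ∑ c, u a * (A c a * y (c :: l)) := by
    intro a
    rw [tD, mul_sub, Finset.mul_sum]
  simp only [h3, h4, Finset.sum_add_distrib, Finset.sum_sub_distrib]
  rw [Finset.sum_comm (f := fun a c => u c * (A a c * y (a :: l)))]
  ring

theorem ws_base {k : Type*} [Field k] (δ : Derivation ℤ k k) {t : ℕ}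
    (A : Matrix (Fin t) (Fin t) k)
    (hconn : IsConn δ (fun (y : List (Fin t) → k) l => tD δ A l y)) : SS k (wsD δ A 0) := by
  have hc := ws_conn δ A hconn (wsG k t 0) (wsD δ A 0) (fun _ => rfl)
  have h0 : wsD δ A 0 0 = 0 := by
    have := hc.smul 0 0
    simpa using this
  intro W _
  by_cases hb : W = ⊥
  · refine ⟨⊤, fun _ _ => trivial, ?_⟩
    rw [hb]
    exact isCompl_bot_top
  · refine ⟨⊥, ?_, ?_⟩
    · intro w hw
      rw [Submodule.mem_bot] at hw
      rw [hw, h0]
      exact Submodule.zero_mem _
    · obtain ⟨w, hw, hw0⟩ := (Submodule.ne_bot_iff W).1 hb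
      have hw1 : (w : List (Fin t) → k) [] ≠ 0 := by
        intro h
        apply hw0
        apply Subtype.ext
        funext l
        rcases l with _ | ⟨a, l⟩
        · exact h
        · exact w.2 (a :: l) (by simp)
      have : W = ⊤ := by
        rw [Submodule.eq_top_iff']
        intro y
        have e : y = ((y : List (Fin t) → k) [] / (w : List (Fin t) → k) []) • w := by
          apply Subtype.ext
          funext l
          show _ = _ * (w : List (Fin t) → k) l
          rcases l with _ | ⟨a, l⟩
          · rw [div_mul_cancel₀ _ hw1]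
          · rw [w.2 (a :: l) (by simp), mul_zero]
            exact y.2 (a :: l) (by simp)
        rw [e]
        exact W.smul_mem _ hw
      rw [this]
      exact isCompl_top_bot

end ws21679

theorem words_ss {k : Type u} [Field k] [CharZero k] (δ : Derivation ℤ k k) {t : ℕ}
    (A : Matrix (Fin t) (Fin t) k) (hA : SS k (connM δ A))
    (hss : ∀ {V W : Type u} [AddCommGroup V] [Module k V] [FiniteDimensional k V]
      [AddCommGroup W] [Module k W] [FiniteDimensional k W]
      {DV : V → V} {DW : W → W}, IsConn δ DV → IsConn δ DW →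
      SS k DV → SS k DW → ∀ DH : (V →ₗ[k] W) → (V →ₗ[k] W),
      (∀ φ v, DH φ v = DW (φ v) - φ (DV v)) → SS k DH)
    (htD : ∀ (χ : ℕ → Bool) (j : ℕ) {y : List (Fin t) → k}, y ∈ homS k t χ j →
      (fun l => tD δ A l y) ∈ homS k t χ j)
    (hconn : IsConn δ (fun (y : List (Fin t) → k) l => tD δ A l y))
    (hfin : ∀ (χ : ℕ → Bool) (j : ℕ), FiniteDimensional k (homS k t χ j))
    (χ τ : ℕ → Bool) (i j : ℕ)
    (DH : (homS k t τ j →ₗ[k] homS k t χ i) → (homS k t τ j →ₗ[k] homS k t χ i))
    (hDH : ∀ φ (y : homS k t τ j), ((DH φ y : homS k t χ i) : List (Fin t) → k) =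
      (fun l => tD δ A l (φ y : homS k t χ i)) -
        (φ ⟨fun l => tD δ A l y, htD τ j y.2⟩ : homS k t χ i)) : SS k DH := by
  have hG : ∀ m : ℕ, SS k (wsD δ A m) := by
    intro m
    induction m with
    | zero => exact ws_base δ A hconn
    | succ m ih =>
      have hc := ws_conn δ A hconn (wsG k t m) (wsD δ A m) (fun _ => rfl)
      haveI := wsG_fd k t m
      have h1 : SS k (wsH (ws_connM δ A) hc) :=
        hss (ws_connM δ A) hc hA ih (wsH (ws_connM δ A) hc) (fun φ v => rfl)
      refine ws_inj (wsF k t m) (wsF_inj k t m) ?_ h1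
      intro y
      apply LinearMap.ext
      intro u
      apply Subtype.ext
      funext l
      exact ws_comm δ A hconn (y : List (Fin t) → k) u l
  have hH : ∀ (σ : ℕ → Bool) (m : ℕ), SS k (fun y : homS k t σ m =>
      (⟨fun l => tD δ A l y, htD σ m y.2⟩ : homS k t σ m)) := by
    intro σ m
    have hle : homS k t σ m ≤ wsG k t m := fun y hy => hy.2
    exact ws_inj (Submodule.inclusion hle) (Submodule.inclusion_injective hle)
      (fun u => Subtype.ext rfl) (hG m)
  have hC : ∀ (σ : ℕ → Bool) (m : ℕ), IsConn δ (fun y : homS k t σ m =>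
      (⟨fun l => tD δ A l y, htD σ m y.2⟩ : homS k t σ m)) := by
    intro σ m
    exact ws_conn δ A hconn (homS k t σ m) _ (fun _ => rfl)
  haveI := hfin τ j
  haveI := hfin χ i
  refine hss (hC τ j) (hC χ i) (hH τ j) (hH χ i) DH ?_
  intro φ v
  apply Subtype.ext
  rw [hDH]
  rfl

end Cb
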