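import Pool.Agent.Helper462.Cb.Defs

namespace Cb

universe u


theorem tree_key_bound {k : Type*} [Field k] {t : ℕ} (V : Submodule k (List (Fin t) → k))
    (hV : FiniteDimensional k V) (f : (List (Fin t) → k) →ₗ[k] (List (Fin t) → k))
    (h : ∀ y ∈ V, ∃ L : ℕ, ∀ l, L < l.length → f y l = 0) :
    ∃ L : ℕ, ∀ y ∈ V, ∀ l, L < l.length → f y l = 0 := by
  classical
  let B := Module.finBasis k V
  choose L hL using fun i => h (B i) (B i).2
  refine ⟨Finset.univ.sup L, fun y hy l hl => ?_⟩
  have h1 : (⟨y, hy⟩ : V) = ∑ i, B.repr ⟨y, hy⟩ i • B i := (B.sum_repr _).symm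
  have h2 : y = ∑ i, B.repr ⟨y, hy⟩ i • (B i : List (Fin t) → k) := by
    have h3 := congrArg (Subtype.val) h1
    rw [Submodule.coe_sum] at h3
    exact h3
  rw [h2, map_sum, Finset.sum_apply]
  refine Finset.sum_eq_zero fun i _ => ?_
  rw [map_smul, Pi.smul_apply, hL i l (lt_of_le_of_lt (Finset.le_sup (Finset.mem_univ i)) hl),
    smul_zero]

section tree_key_lin

variable {k : Type*} [Field k] {t : ℕ}

theorem tree_key_tIadd (u : Fin t → k) (y z : List (Fin t) → k) :
    tI u (y + z) = tI u y + tI u z := by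
  funext l
  simp only [tI, Pi.add_apply, mul_add, Finset.sum_add_distrib]

theorem tree_key_tIsmul (u : Fin t → k) (a : k) (y : List (Fin t) → k) :
    tI u (a • y) = a • tI u y := by
  funext l
  simp only [tI, Pi.smul_apply, smul_eq_mul, Finset.mul_sum]
  exact Finset.sum_congr rfl fun i _ => by ring

theorem tree_key_tIzero (u : Fin t → k) : tI u (0 : List (Fin t) → k) = 0 := by
  funext l
  simp only [tI, Pi.zero_apply, mul_zero, Finset.sum_const_zero]

theorem tree_key_tIuadd (u v : Fin t → k) (y : List (Fin t) → k) :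
    tI (u + v) y = tI u y + tI v y := by
  funext l
  simp only [tI, Pi.add_apply, add_mul, Finset.sum_add_distrib]

theorem tree_key_tIusmul (a : k) (u : Fin t → k) (y : List (Fin t) → k) :
    tI (a • u) y = a • tI u y := by
  funext l
  simp only [tI, Pi.smul_apply, smul_eq_mul, Finset.mul_sum]
  exact Finset.sum_congr rfl fun i _ => by ring

theorem tree_key_prAdd (i : ℕ) (y z : List (Fin t) → k) : prS i (y + z) = prS i y + prS i z := by
  funext l
  simp only [prS, Pi.add_apply]
  split_ifs <;> simp

theorem tree_key_prSmul (i : ℕ) (a : k) (y : List (Fin t) → k) : prS i (a • y) = a • prS i y := by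
  funext l
  simp only [prS, Pi.smul_apply, smul_eq_mul]
  split_ifs <;> simp

theorem tree_key_prZero (i : ℕ) : prS i (0 : List (Fin t) → k) = 0 := by
  funext l
  simp only [prS, Pi.zero_apply, ite_self]

theorem tree_key_x0 (τ : ℕ → Bool) : x0 k t ∈ homS k t τ 0 := by
  refine ⟨?_, ?_⟩
  · intro p a b q m hq
    simp [x0]
  · intro l hl
    unfold x0
    rw [if_neg]
    rintro rfl
    exact hl rfl

/-- a function is determined by its contractions -/
theorem tree_key_ext (y z : List (Fin t) → k) (h0 : y [] = z [])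
    (h : ∀ u : Fin t → k, tI u y = tI u z) : y = z := by
  classical
  funext l
  cases l with
  | nil => exact h0
  | cons a l =>
    have h1 := congrFun (h (Pi.single a 1)) l
    simp only [tI, Pi.single_apply, ite_mul, one_mul, zero_mul, Finset.sum_ite_eq', Finset.mem_univ,
      if_true] at h1
    exact h1

end tree_key_lin

theorem tree_key {k : Type u} [Field k] [CharZero k] (δ : Derivation ℤ k k) {t : ℕ} (ht : 2 ≤ t)
    (A : Matrix (Fin t) (Fin t) k) (b : Fin t → k)
    (hnd : ∀ (H : Type u) [AddCommGroup H] [Module k H] (D : H → H), IsConn δ D → SS k D →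
      ∀ ψ : (Fin t → k) →ₗ[k] H, (∀ u, ψ (connM δ A u) = D (ψ u)) → ∀ h : H,
      ψ b = D h → ψ = 0)
    (hconn : IsConn δ (fun (y : List (Fin t) → k) l => tD δ A l y))
    (htI : ∀ (u : Fin t → k) (y : List (Fin t) → k) (l : List (Fin t)),
      tD δ A l (tI u y) = tI (connM δ A u) y l + tI u (fun l => tD δ A l y) l)
    (htD : ∀ (χ : ℕ → Bool) (j : ℕ) {y : List (Fin t) → k}, y ∈ homS k t χ j →
      (fun l => tD δ A l y) ∈ homS k t χ j)
    (htIh : ∀ (χ : ℕ → Bool) (j : ℕ) (u : Fin t → k) {y : List (Fin t) → k},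
      y ∈ homS k t χ (j + 1) → tI u y ∈ homS k t χ j)
    (htI0 : ∀ (χ : ℕ → Bool) (u : Fin t → k) {y : List (Fin t) → k},
      y ∈ homS k t χ 0 → tI u y = 0)
    (hprD : ∀ (i : ℕ) (y : List (Fin t) → k) (l : List (Fin t)),
      tD δ A l (prS i y) = prS i (fun l => tD δ A l y) l)
    (hprI : ∀ (i : ℕ) (u : Fin t → k) (y : List (Fin t) → k),
      prS i (tI u y) = tI u (prS (i + 1) y))
    (hpr : ∀ (χ : ℕ → Bool) (i : ℕ) {y : List (Fin t) → k}, y ∈ symS k t χ →
      prS i y ∈ homS k t χ i)
    (hfin : ∀ (χ : ℕ → Bool) (j : ℕ), FiniteDimensional k (homS k t χ j))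
    (hzero : ∀ (χ : ℕ → Bool) (j : ℕ) {y : List (Fin t) → k}, y ∈ homS k t χ (j + 1) →
      (∀ u : Fin t → k, tI u y = 0) → y = 0)
    (hne : ∀ (χ : ℕ → Bool) (m : ℕ), ∃ y ∈ homS k t χ (2 * m), y ≠ 0)
    (hdis : ∀ (χ τ : ℕ → Bool) (m : ℕ), χ m ≠ τ m → ∀ {y : List (Fin t) → k},
      y ∈ homS k t χ (2 * m + 2) → y ∈ homS k t τ (2 * m + 2) → y = 0)
    (hss : ∀ (χ τ : ℕ → Bool) (i j : ℕ)
      (DH : (homS k t τ j →ₗ[k] homS k t χ i) → (homS k t τ j →ₗ[k] homS k t χ i)),
      (∀ φ (y : homS k t τ j), ((DH φ y : homS k t χ i) : List (Fin t) → k) =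
        (fun l => tD δ A l (φ y : homS k t χ i)) -
          (φ ⟨fun l => tD δ A l y, htD τ j y.2⟩ : homS k t χ i)) → SS k DH)
    (τ χ : ℕ → Bool) (n : ℕ) (f : (List (Fin t) → k) →ₗ[k] (List (Fin t) → k))
    (hf1 : ∀ y ∈ boundS k t τ (2 * n), f y ∈ finS k t χ)
    (hf2 : ∀ y ∈ boundS k t τ (2 * n), f (tF δ A b y) = tF δ A b (f y)) :
    ∃ c : k, f (x0 k t) = c • x0 k t ∧ ((∃ m, m < n ∧ τ m ≠ χ m) → c = 0) := by
  classical
  let D0 : (List (Fin t) → k) → (List (Fin t) → k) := fun y l => tD δ A l y
  have D0add : ∀ y z : List (Fin t) → k, D0 (y + z) = D0 y + D0 z := hconn.add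
  have D0smul : ∀ (a : k) (y : List (Fin t) → k), D0 (a • y) = δ a • y + a • D0 y := hconn.smul
  have D0zero : D0 0 = 0 := by
    have h := D0add 0 0
    rw [add_zero] at h
    exact left_eq_add.1 h
  have D0sub : ∀ y z : List (Fin t) → k, D0 (y - z) = D0 y - D0 z := by
    intro y z
    have h := D0add (y - z) z
    rw [sub_add_cancel] at h
    rw [h, add_sub_cancel_right]
  have hD0I : ∀ (u : Fin t → k) (y : List (Fin t) → k),
      D0 (tI u y) = tI (connM δ A u) y + tI u (D0 y) := fun u y => funext (htI u y)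
  have hD0pr : ∀ (i : ℕ) (y : List (Fin t) → k), D0 (prS i y) = prS i (D0 y) :=
    fun i y => funext (hprD i y)
  have hD0m : ∀ (χ : ℕ → Bool) (j : ℕ) (y : List (Fin t) → k), y ∈ homS k t χ j →
      D0 y ∈ homS k t χ j := fun χ j y hy => htD χ j hy
  have hmb : ∀ j ≤ 2 * n, ∀ y ∈ homS k t τ j, y ∈ boundS k t τ (2 * n) :=
    fun j hj y hy => ⟨hy.1, fun l hl => hy.2 l (by omega)⟩
  have hIm : ∀ j ≤ 2 * n, ∀ (u : Fin t → k), ∀ y ∈ homS k t τ j, tI u y ∈ boundS k t τ (2 * n) := by
    intro j hj u y hy
    cases j with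
    | zero => rw [htI0 τ u hy]; exact zero_mem _
    | succ j' => exact hmb j' (by omega) _ (htIh τ j' u hy)
  have hfb : ∀ y ∈ boundS k t τ (2 * n), f y ∈ symS k t χ := fun y hy => (hf1 y hy).1
  have F2 : ∀ j ≤ 2 * n, ∀ y ∈ homS k t τ j, ∀ i, prS i (f (D0 y)) + prS i (f (tI b y)) =
      D0 (prS i (f y)) + tI b (prS (i + 1) (f y)) := by
    intro j hj y hy i
    have h := hf2 y (hmb j hj y hy)
    have e1 : tF δ A b y = D0 y + tI b y := rfl
    have e2 : tF δ A b (f y) = D0 (f y) + tI b (f y) := rfl
    rw [e1, e2, map_add] at h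
    rw [← tree_key_prAdd, h, tree_key_prAdd, hD0pr, hprI]
  let R : ℕ → Prop := fun e => ∀ j ≤ 2 * n, ∀ y ∈ homS k t τ j, ∀ i, j + e ≤ i → prS i (f y) = 0
  have S2 : ∀ e, R (e + 1) → ∀ j ≤ 2 * n, ∀ y ∈ homS k t τ j,
      prS (j + e) (f (D0 y)) = D0 (prS (j + e) (f y)) := by
    intro e hR j hj y hy
    have h := F2 j hj y hy (j + e)
    have h1 : prS (j + e + 1) (f y) = 0 := hR j hj y hy _ (by omega)
    have h2 : prS (j + e) (f (tI b y)) = 0 := by
      cases j with
      | zero => rw [htI0 τ b hy, map_zero, tree_key_prZero]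
      | succ j' => exact hR j' (by omega) _ (htIh τ j' b hy) _ (by omega)
    rw [h1, h2, tree_key_tIzero, add_zero, add_zero] at h
    exact h
  have S3 : ∀ e, R (e + 1) → ∀ j ≤ 2 * n, ∀ i, i + 1 = j + e → ∀ (u : Fin t → k),
      ∀ y ∈ homS k t τ j, prS i (f (tI u y)) = tI u (prS (i + 1) (f y)) := by
    intro e hR j hj i hi
    have memψ : ∀ (u : Fin t → k) (y : homS k t τ j),
        prS i (f (tI u (y : List (Fin t) → k))) - tI u (prS (i + 1) (f (y : List (Fin t) → k))) ∈
          homS k t χ i := by
      intro u y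
      exact sub_mem (hpr χ i (hfb _ (hIm j hj u y y.2)))
        (htIh χ i u (hpr χ (i + 1) (hfb _ (hmb j hj y y.2))))
    let ψ : (Fin t → k) →ₗ[k] (homS k t τ j →ₗ[k] homS k t χ i) := LinearMap.mk₂ k
      (fun u y => ⟨prS i (f (tI u (y : List (Fin t) → k))) -
        tI u (prS (i + 1) (f (y : List (Fin t) → k))), memψ u y⟩)
      (by
        intro u v y
        apply Subtype.ext
        change prS i (f (tI (u + v) (y : List (Fin t) → k))) -
          tI (u + v) (prS (i + 1) (f (y : List (Fin t) → k))) =
          (prS i (f (tI u (y : List (Fin t) → k))) -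
            tI u (prS (i + 1) (f (y : List (Fin t) → k)))) +
          (prS i (f (tI v (y : List (Fin t) → k))) -
            tI v (prS (i + 1) (f (y : List (Fin t) → k))))
        rw [tree_key_tIuadd, tree_key_tIuadd, map_add, tree_key_prAdd]
        abel)
      (by
        intro c u y
        apply Subtype.ext
        change prS i (f (tI (c • u) (y : List (Fin t) → k))) -
          tI (c • u) (prS (i + 1) (f (y : List (Fin t) → k))) =
          c • (prS i (f (tI u (y : List (Fin t) → k))) -
            tI u (prS (i + 1) (f (y : List (Fin t) → k))))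
        rw [tree_key_tIusmul, tree_key_tIusmul, map_smul, tree_key_prSmul, smul_sub])
      (by
        intro u y z
        apply Subtype.ext
        change prS i (f (tI u ((y : List (Fin t) → k) + z))) -
          tI u (prS (i + 1) (f ((y : List (Fin t) → k) + z))) =
          (prS i (f (tI u (y : List (Fin t) → k))) -
            tI u (prS (i + 1) (f (y : List (Fin t) → k)))) +
          (prS i (f (tI u (z : List (Fin t) → k))) -
            tI u (prS (i + 1) (f (z : List (Fin t) → k))))
        rw [tree_key_tIadd, map_add, map_add, tree_key_prAdd, tree_key_prAdd, tree_key_tIadd]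
        abel)
      (by
        intro c u y
        apply Subtype.ext
        change prS i (f (tI u (c • (y : List (Fin t) → k)))) -
          tI u (prS (i + 1) (f (c • (y : List (Fin t) → k)))) =
          c • (prS i (f (tI u (y : List (Fin t) → k))) -
            tI u (prS (i + 1) (f (y : List (Fin t) → k))))
        rw [tree_key_tIsmul, map_smul, map_smul, tree_key_prSmul, tree_key_prSmul, tree_key_tIsmul,
          smul_sub])
    have hψ : ∀ (u : Fin t → k) (y : homS k t τ j), ((ψ u y : homS k t χ i) : List (Fin t) → k) =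
        prS i (f (tI u (y : List (Fin t) → k))) -
          tI u (prS (i + 1) (f (y : List (Fin t) → k))) := fun u y => rfl
    let h0 : homS k t τ j →ₗ[k] homS k t χ i :=
      { toFun := fun y => ⟨prS i (f (y : List (Fin t) → k)), hpr χ i (hfb _ (hmb j hj y y.2))⟩
        map_add' := by
          intro y z
          apply Subtype.ext
          change prS i (f ((y : List (Fin t) → k) + z)) = prS i (f (y : List (Fin t) → k)) +
            prS i (f (z : List (Fin t) → k))
          rw [map_add, tree_key_prAdd]
        map_smul' := by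
          intro c y
          apply Subtype.ext
          change prS i (f (c • (y : List (Fin t) → k))) = c • prS i (f (y : List (Fin t) → k))
          rw [map_smul, tree_key_prSmul] }
    let DH : (homS k t τ j →ₗ[k] homS k t χ i) → (homS k t τ j →ₗ[k] homS k t χ i) := fun φ =>
      { toFun := fun y => ⟨D0 (φ y : homS k t χ i) -
          (φ ⟨D0 y, hD0m τ j y y.2⟩ : homS k t χ i), sub_mem (hD0m χ i _ (φ y).2) (φ _).2⟩
        map_add' := by
          intro y z
          apply Subtype.ext
          have e1 : (⟨D0 ((y + z : homS k t τ j) : List (Fin t) → k), hD0m τ j _ (y + z).2⟩ :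
              homS k t τ j) = ⟨D0 y, hD0m τ j y y.2⟩ + ⟨D0 z, hD0m τ j z z.2⟩ :=
            Subtype.ext (D0add _ _)
          change D0 (φ (y + z) : homS k t χ i) - (φ ⟨D0 ((y + z : homS k t τ j) :
            List (Fin t) → k), hD0m τ j _ (y + z).2⟩ : homS k t χ i) =
            (D0 (φ y : homS k t χ i) - (φ ⟨D0 y, hD0m τ j y y.2⟩ : homS k t χ i)) +
            (D0 (φ z : homS k t χ i) - (φ ⟨D0 z, hD0m τ j z z.2⟩ : homS k t χ i))
          rw [e1, map_add, map_add, Submodule.coe_add, Submodule.coe_add, D0add]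
          abel
        map_smul' := by
          intro c y
          apply Subtype.ext
          have e1 : (⟨D0 ((c • y : homS k t τ j) : List (Fin t) → k), hD0m τ j _ (c • y).2⟩ :
              homS k t τ j) = δ c • y + c • ⟨D0 y, hD0m τ j y y.2⟩ :=
            Subtype.ext (D0smul _ _)
          change D0 (φ (c • y) : homS k t χ i) - (φ ⟨D0 ((c • y : homS k t τ j) :
            List (Fin t) → k), hD0m τ j _ (c • y).2⟩ : homS k t χ i) =
            c • (D0 (φ y : homS k t χ i) - (φ ⟨D0 y, hD0m τ j y y.2⟩ : homS k t χ i))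
          rw [e1, map_smul, map_add, map_smul, map_smul, Submodule.coe_add, Submodule.coe_smul,
            Submodule.coe_smul, Submodule.coe_smul, D0smul, smul_sub]
          abel }
    have hDH : ∀ (φ : homS k t τ j →ₗ[k] homS k t χ i) (y : homS k t τ j),
        ((DH φ y : homS k t χ i) : List (Fin t) → k) = D0 (φ y : homS k t χ i) -
          (φ ⟨D0 y, hD0m τ j y y.2⟩ : homS k t χ i) := fun φ y => rfl
    have hDHconn : IsConn δ DH := by
      refine ⟨?_, ?_⟩
      · intro φ φ'
        apply LinearMap.ext
        intro y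
        apply Subtype.ext
        rw [LinearMap.add_apply, Submodule.coe_add, hDH, hDH, hDH, LinearMap.add_apply,
          LinearMap.add_apply, Submodule.coe_add, Submodule.coe_add, D0add]
        abel
      · intro c φ
        apply LinearMap.ext
        intro y
        apply Subtype.ext
        rw [LinearMap.add_apply, Submodule.coe_add, LinearMap.smul_apply, LinearMap.smul_apply,
          Submodule.coe_smul, Submodule.coe_smul, hDH, hDH, LinearMap.smul_apply,
          LinearMap.smul_apply, Submodule.coe_smul, Submodule.coe_smul, D0smul, smul_sub]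
        abel
    have hSS : SS k DH := hss χ τ i j DH (fun φ y => rfl)
    have hcomm : ∀ u : Fin t → k, ψ (connM δ A u) = DH (ψ u) := by
      intro u
      apply LinearMap.ext
      intro y
      apply Subtype.ext
      rw [hψ, hDH, hψ, hψ]
      have C1 : D0 (prS i (f (tI u (y : List (Fin t) → k)))) =
          prS i (f (tI (connM δ A u) (y : List (Fin t) → k))) + prS i (f (tI u (D0 y))) := by
        obtain ⟨y, hy⟩ := y
        change D0 (prS i (f (tI u y))) = prS i (f (tI (connM δ A u) y)) + prS i (f (tI u (D0 y)))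
        cases j with
        | zero =>
          rw [htI0 τ u hy, htI0 τ (connM δ A u) hy, htI0 τ u (hD0m τ 0 y hy), map_zero,
            tree_key_prZero, D0zero, add_zero]
        | succ j' =>
          have h1 := S2 e hR j' (by omega) _ (htIh τ j' u hy)
          have h2 : j' + e = i := by omega
          rw [h2] at h1
          rw [← h1, hD0I, map_add, tree_key_prAdd]
      have C2 : D0 (tI u (prS (i + 1) (f (y : List (Fin t) → k)))) =
          tI (connM δ A u) (prS (i + 1) (f (y : List (Fin t) → k))) +
            tI u (prS (i + 1) (f (D0 y))) := by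
        have h1 := S2 e hR j hj y y.2
        rw [hD0I, hi, h1]
      change _ = D0 (prS i (f (tI u (y : List (Fin t) → k))) -
          tI u (prS (i + 1) (f (y : List (Fin t) → k)))) - (prS i (f (tI u (D0 y))) -
            tI u (prS (i + 1) (f (D0 y))))
      rw [D0sub, C1, C2]
      abel
    have hb : ψ b = DH h0 := by
      apply LinearMap.ext
      intro y
      apply Subtype.ext
      rw [hψ, hDH]
      have h1 := F2 j hj y y.2 i
      change _ = D0 (prS i (f (y : List (Fin t) → k))) - prS i (f (D0 y))
      rw [sub_eq_sub_iff_add_eq_add, add_comm, h1]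
    have hz := hnd (homS k t τ j →ₗ[k] homS k t χ i) DH hDHconn hSS ψ hcomm h0 hb
    intro u y hy
    have h1 := hψ u ⟨y, hy⟩
    rw [hz] at h1
    exact (sub_eq_zero.1 h1.symm)
  have S4 : ∀ e, 1 ≤ e → R (e + 1) → R e := by
    intro e he hR
    have key : ∀ j, j ≤ 2 * n → ∀ y ∈ homS k t τ j, prS (j + e) (f y) = 0 := by
      intro j
      induction j with
      | zero =>
        intro hj y hy
        obtain ⟨i, rfl⟩ : ∃ i, e = i + 1 := ⟨e - 1, by omega⟩
        have h1 : 0 + (i + 1) = i + 1 := by omega
        rw [h1]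
        apply hzero χ i (hpr χ (i + 1) (hfb _ (hmb 0 hj y hy)))
        intro u
        rw [← S3 (i + 1) hR 0 hj i (by omega) u y hy, htI0 τ u hy, map_zero, tree_key_prZero]
      | succ j ih =>
        intro hj y hy
        have h1 : j + 1 + e = (j + e) + 1 := by omega
        rw [h1]
        apply hzero χ (j + e) (hpr χ (j + e + 1) (hfb _ (hmb (j + 1) hj y hy)))
        intro u
        rw [← S3 e hR (j + 1) hj (j + e) (by omega) u y hy]
        exact ih (by omega) _ (htIh τ j u hy)
    intro j hj y hy i hi
    rcases Nat.eq_or_lt_of_le hi with h | h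
    · rw [← h]; exact key j hj y hy
    · exact hR j hj y hy i (by omega)
  have hR1 : R 1 := by
    have hd : ∀ d, R (1 + d) → R 1 := by
      intro d
      induction d with
      | zero => exact fun h => h
      | succ d ih => exact fun h => ih (S4 (1 + d) (by omega) h)
    have hL : ∀ j : Fin (2 * n + 1), ∃ L : ℕ, ∀ y ∈ homS k t τ j, ∀ l, L < l.length → f y l = 0 := by
      intro j
      apply tree_key_bound _ (hfin τ j) f
      intro y hy
      exact (hf1 y (hmb j (by omega) y hy)).2
    choose L hL using hL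
    apply hd (Finset.univ.sup L)
    intro j hj y hy i hi
    funext l
    simp only [prS, Pi.zero_apply]
    split_ifs with hl
    · have h1 : L ⟨j, by omega⟩ ≤ Finset.univ.sup L := Finset.le_sup (Finset.mem_univ _)
      exact hL ⟨j, by omega⟩ y hy l (by omega)
    · rfl
  have h5 : ∀ j, j ≤ 2 * n → ∀ y ∈ homS k t τ j, prS j (f y) = (f (x0 k t) []) • y := by
    intro j
    induction j with
    | zero =>
      intro hj y hy
      have h1 : y = y [] • x0 k t := by
        funext l
        simp only [Pi.smul_apply, x0, smul_eq_mul]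
        split_ifs with hl
        · rw [hl, mul_one]
        · rw [mul_zero]
          apply hy.2
          intro h
          exact hl (List.length_eq_zero_iff.1 h)
      have h2 : prS 0 (f (x0 k t)) = (f (x0 k t) []) • x0 k t := by
        funext l
        simp only [Pi.smul_apply, x0, smul_eq_mul, prS, List.length_eq_zero_iff]
        split_ifs with hl
        · rw [hl, mul_one]
        · rw [mul_zero]
      rw [h1, map_smul, tree_key_prSmul, h2, smul_comm]
    | succ j ih =>
      intro hj y hy
      apply tree_key_ext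
      · have h1 : y [] = 0 := hy.2 [] (by simp)
        simp only [prS, Pi.smul_apply, h1, smul_zero]
        rw [if_neg]
        simp
      · intro u
        rw [← S3 0 hR1 (j + 1) hj j (by omega) u y hy, ih (by omega) _ (htIh τ j u hy),
          tree_key_tIsmul]
  refine ⟨f (x0 k t) [], ?_, ?_⟩
  · funext l
    simp only [Pi.smul_apply, x0, smul_eq_mul]
    split_ifs with hl
    · rw [hl, mul_one]
    · rw [mul_zero]
      have h1 : 1 ≤ l.length := by
        cases l with
        | nil => exact absurd rfl hl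
        | cons a l => simp
      have h2 := congrFun (hR1 0 (by omega) (x0 k t) (tree_key_x0 τ) l.length (by omega)) l
      simp only [prS, if_true, Pi.zero_apply] at h2
      exact h2
  · rintro ⟨m, hmn, hm⟩
    by_contra hc
    obtain ⟨y, hy, hy0⟩ := hne τ (m + 1)
    have h1 := h5 (2 * (m + 1)) (by omega) y hy
    have h2 : prS (2 * (m + 1)) (f y) ∈ homS k t χ (2 * (m + 1)) :=
      hpr χ _ (hfb _ (hmb _ (by omega) y hy))
    rw [h1] at h2
    have h3 : y ∈ homS k t χ (2 * (m + 1)) := by
      have := Submodule.smul_mem _ (f (x0 k t) [])⁻¹ h2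
      rwa [smul_smul, inv_mul_cancel₀ hc, one_smul] at this
    exact hy0 (hdis χ τ m (Ne.symm hm) h3 hy)

end Cb
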