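import Pool.Agent.Helper462.Cb.Defs

namespace Cb

universe u


open Zg

section GammaAux

variable {k : Type u} [Field k] {δ : Derivation ℤ k k} {A : Type u} [Ring A]

theorem gd_bound_le {t : ℕ} {τ χ : ℕ → Bool} {n : ℕ} (h : ∀ m, m < n → τ m = χ m)
    {y : List (Fin t) → k} (hy : y ∈ boundS k t τ (2 * n)) : y ∈ finS k t χ := by
  refine ⟨?_, 2 * n, hy.2⟩
  intro p a b q m hq
  by_cases hm : m < n
  · have e : sg k χ m = sg k τ m := by
      unfold sg
      rw [h m hm]
    rw [e]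
    exact hy.1 p a b q m hq
  · rw [not_lt] at hm
    rw [hy.2 (p ++ a :: b :: q) (by simp only [List.length_append, List.length_cons]; omega),
      hy.2 (p ++ b :: a :: q) (by simp only [List.length_append, List.length_cons]; omega), mul_zero]

theorem gd_x0_nil (t : ℕ) : x0 k t [] = 1 := by
  unfold x0
  rw [if_pos rfl]

theorem gd_bound0 {t : ℕ} {χ : ℕ → Bool} {y : List (Fin t) → k} (hy : y ∈ boundS k t χ (2 * 0)) :
    y = y [] • x0 k t := by
  funext l
  cases l with
  | nil => simp [gd_x0_nil]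
  | cons a l =>
    rw [hy.2 (a :: l) (by simp)]
    simp [x0]

theorem gd3 (h : DiffPoly δ A) {t : ℕ} (B : Matrix (Fin t) (Fin t) k) (b : Fin t → k)
    (hbd : ∀ (χ : ℕ → Bool) (L : ℕ) {y : List (Fin t) → k},
      y ∈ boundS k t χ L → tF δ B b y ∈ boundS k t χ L)
    (hx0m : ∀ (χ : ℕ → Bool) (L : ℕ), x0 k t ∈ boundS k t χ L)
    (htree : ∀ (τ χ : ℕ → Bool) (n : ℕ) (f : (List (Fin t) → k) →ₗ[k] (List (Fin t) → k)),
      (∀ y ∈ boundS k t τ (2 * n), f y ∈ finS k t χ) →
      (∀ y ∈ boundS k t τ (2 * n), f (tF δ B b y) = tF δ B b (f y)) →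
      ∃ c : k, f (x0 k t) = c • x0 k t ∧ ((∃ m, m < n ∧ τ m ≠ χ m) → c = 0))
    (τ χ : ℕ → Bool) (n : ℕ) [Module A (boundS k t τ (2 * n))] [Module A (finS k t χ)]
    (hPi : ∀ (a : k) (v : boundS k t τ (2 * n)), h.i a • v = a • v)
    (hPX : ∀ v : boundS k t τ (2 * n),
      ((h.X • v : boundS k t τ (2 * n)) : List (Fin t) → k) = tF δ B b (v : List (Fin t) → k))
    (hMi : ∀ (a : k) (v : finS k t χ), h.i a • v = a • v)
    (hMX : ∀ v : finS k t χ,
      ((h.X • v : finS k t χ) : List (Fin t) → k) = tF δ B b (v : List (Fin t) → k))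
    (f : boundS k t τ (2 * n) →ₗ[A] finS k t χ) (hd : ∃ m, m < n ∧ τ m ≠ χ m) :
    f ⟨x0 k t, hx0m τ (2 * n)⟩ = 0 := by
  let fk : boundS k t τ (2 * n) →ₗ[k] (List (Fin t) → k) :=
    { toFun := fun y => (f y : List (Fin t) → k)
      map_add' := by
        intro y z
        rw [map_add]
        rfl
      map_smul' := by
        intro a y
        rw [← hPi a y, map_smul, hMi a (f y)]
        rfl }
  obtain ⟨g, hg⟩ := LinearMap.exists_extend fk
  have hgf : ∀ y (hy : y ∈ boundS k t τ (2 * n)), g y = (f ⟨y, hy⟩ : List (Fin t) → k) := by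
    intro y hy
    have := congrArg (fun φ => φ ⟨y, hy⟩) hg
    exact this
  obtain ⟨c, hc, hc0⟩ := htree τ χ n g (fun y hy => by rw [hgf y hy]; exact (f ⟨y, hy⟩).2)
    (fun y hy => by
      rw [hgf y hy, hgf _ (hbd τ (2 * n) hy)]
      have e : (⟨tF δ B b y, hbd τ (2 * n) hy⟩ : boundS k t τ (2 * n)) = h.X • ⟨y, hy⟩ :=
        Subtype.ext (hPX ⟨y, hy⟩).symm
      rw [e, map_smul, hMX])
  apply Subtype.ext
  show (f ⟨x0 k t, hx0m τ (2 * n)⟩ : List (Fin t) → k) = 0
  rw [← hgf _ (hx0m τ (2 * n)), hc, hc0 hd, zero_smul]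

theorem gd2 (h : DiffPoly δ A) {t : ℕ} (B : Matrix (Fin t) (Fin t) k) (b : Fin t → k)
    (hconn : IsConn δ (tF δ B b))
    (hx0 : tF δ B b (x0 k t) = 0)
    (hx0m : ∀ (χ : ℕ → Bool) (L : ℕ), x0 k t ∈ boundS k t χ L)
    (htree : ∀ (τ χ : ℕ → Bool) (n : ℕ) (f : (List (Fin t) → k) →ₗ[k] (List (Fin t) → k)),
      (∀ y ∈ boundS k t τ (2 * n), f y ∈ finS k t χ) →
      (∀ y ∈ boundS k t τ (2 * n), f (tF δ B b y) = tF δ B b (f y)) →
      ∃ c : k, f (x0 k t) = c • x0 k t ∧ ((∃ m, m < n ∧ τ m ≠ χ m) → c = 0))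
    (hlin : ∀ (V W : Type u) [AddCommGroup V] [Module k V] [Module A V] [AddCommGroup W]
      [Module k W] [Module A W], (∀ (a : k) (v : V), h.i a • v = a • v) →
      (∀ (a : k) (v : W), h.i a • v = a • v) → ∀ f : V →ₗ[k] W,
      (∀ v, f (h.X • v) = h.X • f v) → ∃ g : V →ₗ[A] W, ∀ v, g v = f v)
    (τ χ : ℕ → Bool) (n : ℕ) (hτ : ∀ m, m < n → τ m = χ m)
    [Module A (boundS k t τ (2 * n))] [Module A (finS k t χ)]
    (hPi : ∀ (a : k) (v : boundS k t τ (2 * n)), h.i a • v = a • v)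
    (hPX : ∀ v : boundS k t τ (2 * n),
      ((h.X • v : boundS k t τ (2 * n)) : List (Fin t) → k) = tF δ B b (v : List (Fin t) → k))
    (hMi : ∀ (a : k) (v : finS k t χ), h.i a • v = a • v)
    (hMX : ∀ v : finS k t χ,
      ((h.X • v : finS k t χ) : List (Fin t) → k) = tF δ B b (v : List (Fin t) → k))
    (v : finS k t χ) (hv : h.X • v = 0) :
    ∃ f : boundS k t τ (2 * n) →ₗ[A] finS k t χ, f ⟨x0 k t, hx0m τ (2 * n)⟩ = v := by
  have hv' : tF δ B b (v : List (Fin t) → k) = 0 := by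
    rw [← hMX v, hv]
    rfl
  let f0 : (List (Fin t) → k) →ₗ[k] (List (Fin t) → k) :=
    { toFun := fun y => y [] • (v : List (Fin t) → k)
      map_add' := by
        intro y z
        rw [Pi.add_apply, add_smul]
      map_smul' := by
        intro a y
        rw [Pi.smul_apply, smul_eq_mul, mul_smul]
        rfl }
  have hf0 : ∀ y, f0 y = y [] • (v : List (Fin t) → k) := fun y => rfl
  obtain ⟨c, hc, -⟩ := htree χ χ 0 f0 (fun y _ => (finS k t χ).smul_mem _ v.2) (fun y hy => by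
    have e := gd_bound0 hy
    have e2 : tF δ B b y = δ (y []) • x0 k t := by
      conv_lhs => rw [e]
      rw [hconn.smul, hx0, smul_zero, add_zero]
    rw [hf0, hf0, hconn.smul, hv', smul_zero, add_zero, e2]
    simp [gd_x0_nil])
  rw [hf0, gd_x0_nil, one_smul] at hc
  have hδ : δ c = 0 := by
    rw [hc, hconn.smul, hx0, smul_zero, add_zero] at hv'
    have := congrFun hv' []
    simpa [gd_x0_nil] using this
  let fk : boundS k t τ (2 * n) →ₗ[k] finS k t χ :=
    { toFun := fun y => c • ⟨(y : List (Fin t) → k), gd_bound_le hτ y.2⟩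
      map_add' := by
        intro y z
        apply Subtype.ext
        show c • ((y : List (Fin t) → k) + z) = c • (y : List (Fin t) → k) + c • z
        rw [smul_add]
      map_smul' := by
        intro a y
        apply Subtype.ext
        show c • (a • (y : List (Fin t) → k)) = a • (c • (y : List (Fin t) → k))
        rw [smul_comm] }
  obtain ⟨g, hg⟩ := hlin (boundS k t τ (2 * n)) (finS k t χ) hPi hMi fk (fun y => by
    apply Subtype.ext
    rw [hMX]
    show c • ((h.X • y : boundS k t τ (2 * n)) : List (Fin t) → k) =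
      tF δ B b (c • (y : List (Fin t) → k))
    rw [hPX, hconn.smul, hδ, zero_smul, zero_add])
  refine ⟨g, ?_⟩
  rw [hg]
  apply Subtype.ext
  show c • x0 k t = v
  rw [hc]

theorem gd_finite (h : DiffPoly δ A) {V : Type u} [AddCommGroup V] [Module k V] [Module A V]
    [FiniteDimensional k V] (hi : ∀ (a : k) (v : V), h.i a • v = a • v) : Module.Finite A V := by
  obtain ⟨S, hS⟩ := (inferInstance : Module.Finite k V).fg_top
  refine ⟨⟨S, ?_⟩⟩
  rw [eq_top_iff]
  intro v _
  have hv : v ∈ Submodule.span k (S : Set V) := by rw [hS]; trivial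
  induction hv using Submodule.span_induction with
  | mem x hx => exact Submodule.subset_span hx
  | zero => exact zero_mem _
  | add x y _ _ hx hy => exact add_mem (hx trivial) (hy trivial)
  | smul a x _ hx =>
    rw [← hi a x]
    exact Submodule.smul_mem _ _ (hx trivial)

end GammaAux

theorem gamma_data {k : Type u} [Field k] {δ : Derivation ℤ k k} {A : Type u} [Ring A]
    (h : DiffPoly δ A) {t : ℕ} (B : Matrix (Fin t) (Fin t) k) (b : Fin t → k)
    (hconn : IsConn δ (tF δ B b))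
    (hbd : ∀ (χ : ℕ → Bool) (L : ℕ) {y : List (Fin t) → k},
      y ∈ boundS k t χ L → tF δ B b y ∈ boundS k t χ L)
    (hfs : ∀ (χ : ℕ → Bool) {y : List (Fin t) → k},
      y ∈ finS k t χ → tF δ B b y ∈ finS k t χ)
    (hx0 : tF δ B b (x0 k t) = 0)
    (hx0m : ∀ (χ : ℕ → Bool) (L : ℕ), x0 k t ∈ boundS k t χ L)
    (hfd : ∀ (χ : ℕ → Bool) (L : ℕ), FiniteDimensional k (boundS k t χ L))
    (htree : ∀ (τ χ : ℕ → Bool) (n : ℕ) (f : (List (Fin t) → k) →ₗ[k] (List (Fin t) → k)),
      (∀ y ∈ boundS k t τ (2 * n), f y ∈ finS k t χ) →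
      (∀ y ∈ boundS k t τ (2 * n), f (tF δ B b y) = tF δ B b (f y)) →
      ∃ c : k, f (x0 k t) = c • x0 k t ∧ ((∃ m, m < n ∧ τ m ≠ χ m) → c = 0))
    (htomod : ∀ (V : Type u) [AddCommGroup V] [Module k V] (D : V → V), IsConn δ D →
      ∃ _ : Module A V, (∀ (a : k) (v : V), h.i a • v = a • v) ∧ ∀ v : V, h.X • v = D v)
    (hlin : ∀ (V W : Type u) [AddCommGroup V] [Module k V] [Module A V] [AddCommGroup W]
      [Module k W] [Module A W], (∀ (a : k) (v : V), h.i a • v = a • v) →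
      (∀ (a : k) (v : W), h.i a • v = a • v) → ∀ f : V →ₗ[k] W,
      (∀ v, f (h.X • v) = h.X • f v) → ∃ g : V →ₗ[A] W, ∀ v, g v = f v)
    (hann : ∀ p : A, ∃ κ : PPFormula A,
      ∀ (N : Type u) [AddCommGroup N] [Module A N] (v : N), v ∈ κ.sol N ↔ p • v = 0)
    (hpg : ∀ (F : Type u) [AddCommGroup F] [Module A F] [Module.Finite A F] (e : F),
      ∃ θ : PPFormula A, ∀ (N : Type u) [AddCommGroup N] [Module A N] (v : N),
        v ∈ θ.sol N ↔ ∃ f : F →ₗ[A] N, f e = v) :
    ∃ (φ : PPFormula A) (θ : List Bool → PPFormula A) (M : (ℕ → Bool) → Type u)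
      (_ : ∀ χ, AddCommGroup (M χ)) (_ : ∀ χ, Module A (M χ)),
      (∀ χ, ∃ v ∈ φ.sol (M χ), v ≠ 0) ∧
      (∀ χ n, φ.sol (M χ) ⊆ (θ (List.ofFn fun i : Fin n => χ i)).sol (M χ)) ∧
      (∀ χ σ σ', σ.length = σ'.length → σ ≠ σ' → ∀ v : M χ,
        v ∈ (θ σ).sol (M χ) → v ∈ (θ σ').sol (M χ) → v = 0) := by
  classical
  have hconnM : ∀ χ : ℕ → Bool, IsConn δ
      (fun y : finS k t χ => (⟨tF δ B b y, hfs χ y.2⟩ : finS k t χ)) := fun χ =>
    ⟨fun v w => Subtype.ext (hconn.add _ _), fun a v => Subtype.ext (hconn.smul _ _)⟩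
  have hconnP : ∀ (χ : ℕ → Bool) (L : ℕ), IsConn δ
      (fun y : boundS k t χ L => (⟨tF δ B b y, hbd χ L y.2⟩ : boundS k t χ L)) := fun χ L =>
    ⟨fun v w => Subtype.ext (hconn.add _ _), fun a v => Subtype.ext (hconn.smul _ _)⟩
  choose instM hM using fun χ => htomod (finS k t χ) _ (hconnM χ)
  choose instP hP using fun (χ : ℕ → Bool) (L : ℕ) => htomod (boundS k t χ L) _ (hconnP χ L)
  obtain ⟨φ, hφ⟩ := hann h.X
  have hfin : ∀ (χ : ℕ → Bool) (L : ℕ),
      @Module.Finite A (boundS k t χ L) _ _ (instP χ L) := by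
    intro χ L
    letI := instP χ L
    haveI := hfd χ L
    exact gd_finite h (hP χ L).1
  choose θ hθ using fun σ : List Bool =>
    @hpg (boundS k t (fun m => σ.getD m false) (2 * σ.length)) _
      (instP (fun m => σ.getD m false) (2 * σ.length))
      (hfin (fun m => σ.getD m false) (2 * σ.length))
      ⟨x0 k t, hx0m (fun m => σ.getD m false) (2 * σ.length)⟩
  refine ⟨φ, θ, fun χ => finS k t χ, fun χ => inferInstance, instM, ?_, ?_, ?_⟩
  · intro χ
    have hx : x0 k t ∈ finS k t χ := ⟨(hx0m χ 0).1, 0, (hx0m χ 0).2⟩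
    refine ⟨⟨x0 k t, hx⟩, ?_, ?_⟩
    · rw [@hφ (finS k t χ) _ (instM χ), (hM χ).2]
      exact Subtype.ext hx0
    · intro h0
      have h1 := congrArg (fun y : finS k t χ => (y : List (Fin t) → k) []) h0
      have h2 : x0 k t [] = 0 := h1
      rw [gd_x0_nil] at h2
      exact one_ne_zero h2
  · intro χ n v hv
    rw [@hφ (finS k t χ) _ (instM χ)] at hv
    rw [@hθ _ (finS k t χ) _ (instM χ)]
    obtain ⟨σ, hσ⟩ : ∃ σ, σ = List.ofFn fun i : Fin n => χ i := ⟨_, rfl⟩
    rw [← hσ]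
    have hlen : σ.length = n := by rw [hσ, List.length_ofFn]
    letI := instP (fun m => σ.getD m false) (2 * σ.length)
    letI := instM χ
    refine gd2 h B b hconn hx0 hx0m htree hlin (fun m => σ.getD m false) χ σ.length ?_
      (hP _ _).1 (fun v => congrArg Subtype.val ((hP _ _).2 v)) (hM χ).1
      (fun v => congrArg Subtype.val ((hM χ).2 v)) v hv
    intro m hm
    rw [hlen] at hm
    have hm' : m < (List.ofFn fun i : Fin n => χ i).length := by rw [List.length_ofFn]; exact hm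
    show σ.getD m false = χ m
    rw [hσ, List.getD_eq_getElem _ _ hm', List.getElem_ofFn]
  · intro χ σ σ' hlen hne v hv hv'
    have key : ∀ σ : List Bool, @Membership.mem _ _ _
        (@PPFormula.sol A _ (θ σ) (finS k t χ) _ (instM χ)) v →
        (∃ m, m < σ.length ∧ σ.getD m false ≠ χ m) → v = 0 := by
      intro σ hv hd
      rw [@hθ _ (finS k t χ) _ (instM χ)] at hv
      obtain ⟨f, hf⟩ := hv
      rw [← hf]
      letI := instP (fun m => σ.getD m false) (2 * σ.length)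
      letI := instM χ
      exact gd3 h B b hbd hx0m htree (fun m => σ.getD m false) χ σ.length
        (hP _ _).1 (fun v => congrArg Subtype.val ((hP _ _).2 v)) (hM χ).1
        (fun v => congrArg Subtype.val ((hM χ).2 v)) f hd
    obtain ⟨m, hm, hmne⟩ : ∃ m, m < σ.length ∧ σ.getD m false ≠ σ'.getD m false := by
      by_contra hcon
      push Not at hcon
      apply hne
      apply List.ext_getElem hlen
      intro m h1 h2
      have := hcon m h1
      rwa [List.getD_eq_getElem _ _ h1, List.getD_eq_getElem _ _ h2] at this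
    by_cases h1 : σ.getD m false = χ m
    · refine key σ' hv' ⟨m, hlen ▸ hm, ?_⟩
      intro h2
      exact hmne (h1.trans h2.symm)
    · exact key σ hv ⟨m, hm, h1⟩

end Cb
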