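import Pool.Agent.Helper462.Cb.Beta
import Pool.Agent.Helper462.Cb.T1a
import Pool.Agent.Helper462.Cb.T1b
import Pool.Agent.Helper462.Cb.T1c
import Pool.Agent.Helper462.Cb.T1d
import Pool.Agent.Helper462.Cb.T2
import Pool.Agent.Helper462.Cb.T3
import Pool.Agent.Helper462.Cb.T5
import Pool.Agent.Helper462.Cb.T6

/-!
# Case gamma
-/

namespace Cb

open Zg

universe u v

section

variable {k : Type u} [Field k] [CharZero k] {δ : Derivation ℤ k k} {A : Type u} [Ring A]

theorem cb_gamma (h : DiffPoly δ A) (hG : HG δ) (α : Ordinal.{v}) :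
    (cb (ZieglerSpectrum A) α).Nonempty := by
  obtain ⟨t, B, b, ht, hB, hnd⟩ := hG
  obtain ⟨d, he, hd⟩ := h.euclid
  have hn : IsNoetherianRing A := he.noeth
  let _ := h.algC
  obtain ⟨φ, θ, M, _, _, h1, h2, h3⟩ := gamma_data h B b (tF_conn δ B b)
    (fun χ L _ hy => tF_boundS δ B b χ L hy) (fun χ _ hy => tF_finS δ B b χ hy)
    (tF_x0 δ B b) (fun χ L => x0_mem χ L) (fun χ L => boundS_finite χ L)
    (fun τ χ n f hf1 hf2 => tree_key δ ht B b
      (fun H _ _ D hD hH ψ hψ h hb => nd_horizontal δ B b hnd D hD hH ψ hψ h hb)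
      (tD_conn δ B) (tD_tI δ B) (fun χ j _ hy => tD_homS δ B χ j hy)
      (fun χ j u _ hy => tI_homS χ j u hy) (fun χ u _ hy => tI_homS_zero χ u hy)
      (prS_tD δ B) (fun i u y => prS_tI i u y) (fun χ i _ hy => prS_symS χ i hy)
      (fun χ j => homS_finite χ j) (fun χ j _ hy hu => eq_zero_of_tI χ j hy hu)
      (fun χ m => exists_ne_zero_homS ht χ m)
      (fun χ τ m hm _ h1 h2 => disjoint_homS χ τ m hm h1 h2)
      (fun χ τ i j DH hDH => words_ss δ B hB
        (fun hV hW sV sW DH hDH => ss_hom_all δ hV hW sV sW DH hDH)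
        (fun χ j _ hy => tD_homS δ B χ j hy) (tD_conn δ B) (fun χ j => homS_finite χ j)
        χ τ i j DH hDH)
      τ χ n f hf1 hf2)
    (fun V _ _ D hD => h.toModule V D hD)
    (fun V W _ _ _ _ _ _ hV hW f hf => h.lin V W hV hW f hf)
    (fun p => exists_ann p) (fun F _ _ _ e => exists_formula_of_pointed F e)
  have hex : ∀ (T : Set (PPFormula A × PPFormula A)) (Y : Type u) [AddCommGroup Y] [Module A Y]
      (φ ψ : PPFormula A), (∀ p ∈ T, p.1.sol Y ⊆ p.2.sol Y) → ¬ φ.sol Y ⊆ ψ.sol Y →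
      ∃ N : IndecPureInjective A, (∀ p ∈ T, p.1.sol N.carrier ⊆ p.2.sol N.carrier) ∧
        ¬ φ.sol N.carrier ⊆ ψ.sol N.carrier :=
    fun T Y _ _ φ ψ hT hn => exists_point_cl (constF δ) T Y φ ψ hT hn
  refine crit_tree ?_ ?_ hex φ θ M h1 h2 h3 α
  · intro X _ K hK C hC hpre hdisj hne α
    exact tree_top (cb_zero X) (cb_succ X) (cb_limit X) (isClosed_cb X)
      (fun h => cb_antitone X h) K hK C hC hpre hdisj hne α
  · intro T φ ψ
    refine isCompact_basicK ?_ hex T φ ψ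
    intro ι F N _ _
    exact ⟨_, inferInstance, inferInstance, (redK (R := A) F N).mkQ, Submodule.mkQ_surjective _,
      fun θ x => mem_sol_redK F N θ x⟩

theorem rank_gamma (h : DiffPoly δ A) (hG : HG δ) :
    IsCBRank (ZieglerSpectrum A) (⊤ : WithTop Ordinal.{v}) :=
  Or.inr ⟨fun β => cb_gamma h hG β, rfl⟩

/-- the trichotomy for the Cantor-Bendixson rank (left modules) -/
theorem rank_cases (h : DiffPoly δ A) :
    IsCBRank (ZieglerSpectrum A) (1 : WithTop Ordinal.{v}) ∨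
    IsCBRank (ZieglerSpectrum A) (2 : WithTop Ordinal.{v}) ∨
    IsCBRank (ZieglerSpectrum A) (⊤ : WithTop Ordinal.{v}) := by
  rcases trichotomy δ with hA | ⟨a, b, hB⟩ | hG
  · exact Or.inl (rank_alpha h hA)
  · exact Or.inr (Or.inl (rank_beta h a b hB))
  · exact Or.inr (Or.inr (rank_gamma h hG))

end

end Cb
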