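import Pool.Agent.Helper462.Cb.Defs

namespace Cb

universe u

section CasimirAux

attribute [local instance 100] LieRing.ofAssociativeRing

theorem casimir_ad_nil {C I V : Type u} [Field C] [LieRing I] [LieAlgebra C I]
    [AddCommGroup V] [Module C V] [LieRingModule I V] [LieModule C I V]
    (hf : Function.Injective (LieModule.toEnd C I V)) (x : I)
    (h : IsNilpotent (LieModule.toEnd C I V x)) : IsNilpotent (LieAlgebra.ad C I x) := by
  obtain ⟨n, hn⟩ := LieAlgebra.ad_nilpotent_of_nilpotent (R := C) h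
  refine ⟨n, ?_⟩
  have key : ∀ (m : ℕ) (y : I), LieModule.toEnd C I V (((LieAlgebra.ad C I x) ^ m) y) =
      ((LieAlgebra.ad C (Module.End C V) (LieModule.toEnd C I V x)) ^ m)
        (LieModule.toEnd C I V y) := by
    intro m
    induction m with
    | zero => intro y; rfl
    | succ m ih =>
      intro y
      rw [pow_succ', pow_succ', Module.End.mul_apply, Module.End.mul_apply, LieAlgebra.ad_apply,
        LieHom.map_lie, ih]
      rfl
  apply LinearMap.ext
  intro y
  apply hf
  rw [key, hn]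
  simp

end CasimirAux

theorem casimir_nonzero {C L V : Type u} [Field C] [CharZero C] [IsAlgClosed C] [LieRing L]
    [LieAlgebra C L] [FiniteDimensional C L] [LieAlgebra.HasTrivialRadical C L]
    [AddCommGroup V] [Module C V] [LieRingModule L V] [LieModule C L V] [FiniteDimensional C V]
    (I : LieIdeal C L) (hI : IsAtom I) (hK : ¬ I ≤ LieModule.ker C L V)
    (h : ∀ x ∈ I, ∀ y ∈ I, LieModule.traceForm C L V x y = 0) : False := by
  have hss : LieAlgebra.IsSemisimple C L := inferInstance
  have hsimple : LieAlgebra.IsSimple C I := LieAlgebra.IsSemisimple.isSimple_of_isAtom I hI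
  have hinf : I ⊓ LieModule.ker C L V = ⊥ := by
    by_contra hne
    have h1 := (hI.le_iff_eq hne).1 inf_le_left
    exact hK (inf_eq_left.1 h1)
  have hf : Function.Injective (LieModule.toEnd C I V) := by
    have h1 : LieModule.IsFaithful C I V := by
      rw [LieModule.isFaithful_iff']
      intro x hx
      have h2 : (x : L) ∈ I ⊓ LieModule.ker C L V := by
        refine (LieSubmodule.mem_inf _ _ _).2 ⟨x.2, ?_⟩
        rw [LieModule.mem_ker]
        exact hx
      rw [hinf] at h2
      exact Subtype.ext ((LieSubmodule.mem_bot _).1 h2)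
    exact h1.injective_toEnd
  have htf : LieModule.traceForm C I V = 0 := by
    ext ⟨x, hx⟩ ⟨y, hy⟩
    exact h x hx y hy
  have hnil : LieModule.IsNilpotent (LieAlgebra.derivedSeries C I 1) V :=
    LieModule.isNilpotent_derivedSeries_of_traceForm_eq_zero htf
  have hD : LieAlgebra.derivedSeries C I 1 = ⊤ := by
    rcases hsimple.eq_bot_or_eq_top (LieAlgebra.derivedSeries C I 1) with h1 | h1
    · exfalso
      apply hsimple.non_abelian
      refine ⟨fun x y => ?_⟩
      have h2 : ⁅x, y⁆ ∈ LieAlgebra.derivedSeries C I 1 := by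
        rw [LieAlgebra.derivedSeries_def, LieAlgebra.derivedSeriesOfIdeal_succ]
        exact LieSubmodule.lie_mem_lie (LieSubmodule.mem_top x) (LieSubmodule.mem_top y)
      rw [h1] at h2
      exact (LieSubmodule.mem_bot _).1 h2
    · exact h1
  have hx : ∀ x : I, IsNilpotent (LieAlgebra.ad C I x) := by
    intro x
    apply casimir_ad_nil hf
    exact (LieModule.isNilpotent_iff_forall' (R := C)).1 hnil ⟨x, by rw [hD]; exact LieSubmodule.mem_top x⟩
  have hring : LieRing.IsNilpotent I := (LieAlgebra.isNilpotent_iff_forall (R := C)).2 hx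
  have hsol : LieAlgebra.IsSolvable I := inferInstance
  exact hI.1 (LieAlgebra.HasTrivialRadical.eq_bot_of_isSolvable I)

/-- Casimir elements. -/
theorem casimir {C L V : Type u} [Field C] [CharZero C] [IsAlgClosed C] [LieRing L]
    [LieAlgebra C L] [FiniteDimensional C L] [LieAlgebra.HasTrivialRadical C L]
    [AddCommGroup V] [Module C V] [LieRingModule L V] [LieModule C L V] [FiniteDimensional C V]
    (hnt : ∃ (x : L) (v : V), ⁅x, v⁆ ≠ 0) :
    ∃ (n : ℕ) (x y : Fin n → L),
      (∀ (V' : Type u) [AddCommGroup V'] [Module C V'] [LieRingModule L V'] [LieModule C L V'],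
        ∀ (z : L) (v : V'), ⁅z, ∑ i, ⁅x i, ⁅y i, v⁆⁆⁆ = ∑ i, ⁅x i, ⁅y i, ⁅z, v⁆⁆⁆) ∧
      LinearMap.trace C V
        (∑ i, LieModule.toEnd C L V (x i) ∘ₗ LieModule.toEnd C L V (y i)) ≠ 0 := by
  classical
  have hss : LieAlgebra.IsSemisimple C L := inferInstance
  -- an atom acting nontrivially
  obtain ⟨I, hI, hK⟩ : ∃ I : LieIdeal C L, IsAtom I ∧ ¬ I ≤ LieModule.ker C L V := by
    by_contra hcon
    push Not at hcon
    have h1 : (⊤ : LieIdeal C L) ≤ LieModule.ker C L V := by
      rw [← hss.sSup_atoms_eq_top]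
      exact sSup_le fun J hJ => hcon J hJ
    obtain ⟨x, v, hxv⟩ := hnt
    exact hxv ((LieModule.mem_ker C L V x).1 (h1 (LieSubmodule.mem_top x)) v)
  set β := LieModule.traceForm C L V with hβ
  have hinv : β.lieInvariant L := LieModule.traceForm_lieInvariant C L V
  have hJ : I ⊓ LieAlgebra.InvariantForm.orthogonal β hinv I = ⊥ := by
    by_contra hne
    have h1 := (hI.le_iff_eq hne).1 inf_le_left
    have h2 := inf_eq_left.1 h1
    refine casimir_nonzero I hI hK fun x hx y hy => ?_
    exact (LieAlgebra.InvariantForm.mem_orthogonal β hinv I y).1 (h2 hy) x hx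
  set B : LinearMap.BilinForm C I := β.restrict (I : Submodule C L) with hB
  have hBapp : ∀ x y : I, B x y = β (x : L) (y : L) := fun x y => rfl
  have hsym : B.IsSymm := ⟨fun x y => LieModule.traceForm_comm C L V _ _⟩
  have hBn : B.Nondegenerate := by
    have h1 : ∀ y : I, (∀ x : I, B x y = 0) → y = 0 := by
      intro y hy
      have h2 : (y : L) ∈ I ⊓ LieAlgebra.InvariantForm.orthogonal β hinv I := by
        refine (LieSubmodule.mem_inf _ _ _).2 ⟨y.2, ?_⟩
        rw [LieAlgebra.InvariantForm.mem_orthogonal]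
        intro x hx
        exact hy ⟨x, hx⟩
      rw [hJ] at h2
      exact Subtype.ext ((LieSubmodule.mem_bot _).1 h2)
    refine ⟨fun x hx => h1 x fun y => ?_, fun y hy => h1 y hy⟩
    rw [hBapp, LieModule.traceForm_comm]
    exact hx y
  set b := Module.finBasis C I with hb
  set y := B.dualBasis hBn b with hy
  have hyrep : ∀ w : I, w = ∑ i, B w (b i) • y i := by
    intro w
    conv_lhs => rw [← y.sum_repr w]
    refine Finset.sum_congr rfl fun i _ => ?_
    rw [hy, LinearMap.BilinForm.dualBasis_repr_apply]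
  have hbrep : ∀ w : I, w = ∑ j, B (y j) w • b j := by
    intro w
    conv_lhs => rw [← b.sum_repr w]
    refine Finset.sum_congr rfl fun j _ => ?_
    congr 1
    conv_rhs => rw [← b.sum_repr w]
    rw [map_sum]
    simp only [map_smul, smul_eq_mul]
    rw [Finset.sum_eq_single j]
    · rw [hy, LinearMap.BilinForm.apply_dualBasis_left, if_pos rfl, mul_one]
    · intro i _ hij
      rw [hy, LinearMap.BilinForm.apply_dualBasis_left, if_neg hij, mul_zero]
    · intro hj
      exact absurd (Finset.mem_univ j) hj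
  refine ⟨Module.finrank C I, fun i => (b i : L), fun i => (y i : L), ?_, ?_⟩
  · intro V' _ _ _ _ z v
    have hzb : ∀ i, ⁅z, (b i : L)⁆ = ∑ j, β (y j : L) ⁅z, (b i : L)⁆ • (b j : L) := by
      intro i
      have h1 := hbrep ⟨⁅z, (b i : L)⁆, lie_mem_right C L I z _ (b i).2⟩
      have h2 := congrArg (fun w : I => (w : L)) h1
      simp only [hBapp, AddSubmonoidClass.coe_finsetSum, SetLike.val_smul] at h2
      exact h2
    have hzy : ∀ j, ⁅z, (y j : L)⁆ = ∑ i, β ⁅z, (y j : L)⁆ (b i : L) • (y i : L) := by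
      intro j
      have h1 := hyrep ⟨⁅z, (y j : L)⁆, lie_mem_right C L I z _ (y j).2⟩
      have h2 := congrArg (fun w : I => (w : L)) h1
      simp only [hBapp, AddSubmonoidClass.coe_finsetSum, SetLike.val_smul] at h2
      exact h2
    have h1 : ∀ i, ⁅z, ⁅(b i : L), ⁅(y i : L), v⁆⁆⁆ = ⁅⁅z, (b i : L)⁆, ⁅(y i : L), v⁆⁆ +
        ⁅(b i : L), ⁅⁅z, (y i : L)⁆, v⁆⁆ + ⁅(b i : L), ⁅(y i : L), ⁅z, v⁆⁆⁆ := by
      intro i
      rw [leibniz_lie z (b i : L), leibniz_lie z (y i : L), lie_add, add_assoc]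
    rw [lie_sum]
    simp only [h1, Finset.sum_add_distrib]
    have h2 : ∑ i, ⁅⁅z, (b i : L)⁆, ⁅(y i : L), v⁆⁆ =
        ∑ i, ∑ j, β (y j : L) ⁅z, (b i : L)⁆ • ⁅(b j : L), ⁅(y i : L), v⁆⁆ := by
      refine Finset.sum_congr rfl fun i _ => ?_
      conv_lhs => rw [hzb i]
      rw [sum_lie]
      simp only [smul_lie]
    have h3 : ∑ j, ⁅(b j : L), ⁅⁅z, (y j : L)⁆, v⁆⁆ =
        ∑ j, ∑ i, β ⁅z, (y j : L)⁆ (b i : L) • ⁅(b j : L), ⁅(y i : L), v⁆⁆ := by
      refine Finset.sum_congr rfl fun j _ => ?_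
      conv_lhs => rw [hzy j]
      rw [sum_lie, lie_sum]
      simp only [smul_lie, lie_smul]
    have h4 : ∑ i, ⁅⁅z, (b i : L)⁆, ⁅(y i : L), v⁆⁆ +
        ∑ i, ⁅(b i : L), ⁅⁅z, (y i : L)⁆, v⁆⁆ = 0 := by
      rw [h2, h3, Finset.sum_comm, ← Finset.sum_add_distrib]
      refine Finset.sum_eq_zero fun j _ => ?_
      rw [← Finset.sum_add_distrib]
      refine Finset.sum_eq_zero fun i _ => ?_
      rw [← add_smul, hinv z (y j : L) (b i : L), add_neg_cancel, zero_smul]
    rw [h4, zero_add]
  · rw [map_sum]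
    have h1 : ∀ i, LinearMap.trace C V (LieModule.toEnd C L V (b i : L) ∘ₗ
        LieModule.toEnd C L V (y i : L)) = 1 := by
      intro i
      have h2 : B (b i) (y i) = 1 := by
        rw [hy, LinearMap.BilinForm.apply_dualBasis_right hBn hsym, if_pos rfl]
      rw [hBapp, hβ, LieModule.traceForm_apply_apply] at h2
      exact h2
    simp only [h1]
    rw [Finset.sum_const, Finset.card_univ, Fintype.card_fin, nsmul_eq_mul, mul_one]
    have h3 : Nontrivial I := by
      rw [LieSubmodule.nontrivial_iff_ne_bot]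
      exact hI.1
    have h4 : Module.finrank C I ≠ 0 := (Module.finrank_pos (R := C) (M := I)).ne'
    exact_mod_cast h4

end Cb
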