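import Pool.Agent.Helper462.Cb.Defs

namespace Cb

universe u


theorem exists_derOf {S : Type u} [Field S] (Φ : S →+* DualNumber S)
    (h : ∀ x, TrivSqZeroExt.fst (Φ x) = x) :
    ∃ d : Derivation ℤ S S, ∀ x, d x = TrivSqZeroExt.snd (Φ x) := by
  refine ⟨Derivation.mk'
    ({ toFun := fun x => TrivSqZeroExt.snd (Φ x)
       map_zero' := by rw [map_zero, TrivSqZeroExt.snd_zero]
       map_add' := fun x y => by rw [map_add, TrivSqZeroExt.snd_add] } : S →+ S).toIntLinearMap
    ?_, fun x => rfl⟩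
  intro a b
  show TrivSqZeroExt.snd (Φ (a * b)) = a * TrivSqZeroExt.snd (Φ b) +
    b * TrivSqZeroExt.snd (Φ a)
  rw [map_mul, TrivSqZeroExt.snd_mul, h, h, op_smul_eq_smul]
  rfl

theorem exists_der_frac {F k : Type u} [Field F] [Field k] [Algebra (MvPolynomial ℕ F) k]
    [IsFractionRing (MvPolynomial ℕ F) k] (v : ℕ → k) :
    ∃ δ : Derivation ℤ k k,
      ∀ m, δ (algebraMap (MvPolynomial ℕ F) k (MvPolynomial.X m)) = v m := by
  let i1 : MvPolynomial ℕ F →+* k := algebraMap _ _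
  let Φ : MvPolynomial ℕ F →+* DualNumber k :=
    MvPolynomial.eval₂Hom
      ((TrivSqZeroExt.inlHom k k).comp (i1.comp MvPolynomial.C))
      (fun m => (TrivSqZeroExt.inl (i1 (MvPolynomial.X m)) :
        DualNumber k) + TrivSqZeroExt.inr (v m))
  have hC : ∀ a, Φ (MvPolynomial.C a) = TrivSqZeroExt.inl (i1 (MvPolynomial.C a)) := by
    intro a
    show MvPolynomial.eval₂Hom _ _ (MvPolynomial.C a) = _
    rw [MvPolynomial.coe_eval₂Hom, MvPolynomial.eval₂_C]
    rfl
  have hX : ∀ m, Φ (MvPolynomial.X m) = (TrivSqZeroExt.inl (i1 (MvPolynomial.X m)) :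
        DualNumber k) + TrivSqZeroExt.inr (v m) := by
    intro m
    show MvPolynomial.eval₂Hom _ _ (MvPolynomial.X m) = _
    rw [MvPolynomial.coe_eval₂Hom, MvPolynomial.eval₂_X]
  have hfst : ∀ p, TrivSqZeroExt.fst (Φ p) = i1 p := by
    intro p
    induction p using MvPolynomial.induction_on with
    | C a => rw [hC]; simp
    | add p q hp hq => rw [map_add, TrivSqZeroExt.fst_add, hp, hq, map_add]
    | mul_X p i hp => rw [map_mul, TrivSqZeroExt.fst_mul, hp, hX, map_mul]; simp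
  have hinj : Function.Injective i1 := IsFractionRing.injective _ _
  have hunit : ∀ y : nonZeroDivisors (MvPolynomial ℕ F), IsUnit (Φ y) := by
    intro y
    rw [TrivSqZeroExt.isUnit_iff_isUnit_fst, hfst]
    apply IsUnit.mk0
    intro h0
    apply nonZeroDivisors.ne_zero y.2
    apply hinj
    rw [h0, map_zero]
  let Φ' : k →+* DualNumber k :=
    IsLocalization.lift (M := nonZeroDivisors (MvPolynomial ℕ F)) hunit
  have hΦ' : ∀ p, Φ' (i1 p) = Φ p := fun p => IsLocalization.lift_eq hunit p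
  have hfst' : ∀ x, TrivSqZeroExt.fst (Φ' x) = x := by
    intro x
    have h1 : (TrivSqZeroExt.fstHom k k k).toRingHom.comp Φ' = RingHom.id k := by
      apply IsLocalization.ringHom_ext (nonZeroDivisors (MvPolynomial ℕ F))
      refine RingHom.ext ?_
      intro p
      show TrivSqZeroExt.fst (Φ' (i1 p)) = i1 p
      rw [hΦ', hfst]
    exact congrArg (fun G : k →+* k => G x) h1
  obtain ⟨δ, hδ⟩ := exists_derOf Φ' hfst'
  refine ⟨δ, fun m => ?_⟩
  have h2 : δ (i1 (MvPolynomial.X m)) = v m := by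
    rw [hδ, hΦ', hX]
    simp
  exact h2

theorem ex_alpha : ∃ (k : Type u) (_ : Field k) (_ : CharZero k) (δ : Derivation ℤ k k),
    ∀ (n : ℕ) (B : Matrix (Fin n) (Fin n) k) (b : Fin n → k), ∃ g, b = connM δ B g := by
  classical
  have hcF : Countable (ULift.{u} ℚ) := inferInstance
  have hcP : Countable (MvPolynomial ℕ (ULift.{u} ℚ)) :=
    (AddMonoidAlgebra.coeffEquiv (R := ULift.{u} ℚ) (M := ℕ →₀ ℕ)).injective.countable
  have hck : Countable (FractionRing (MvPolynomial ℕ (ULift.{u} ℚ))) := by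
    have hs : Function.Surjective (fun q : MvPolynomial ℕ (ULift.{u} ℚ) ×
        nonZeroDivisors (MvPolynomial ℕ (ULift.{u} ℚ)) =>
        (IsLocalization.mk' (FractionRing (MvPolynomial ℕ (ULift.{u} ℚ))) q.1 q.2)) := by
      intro x
      obtain ⟨a, b, h⟩ := IsLocalization.exists_mk'_eq
        (nonZeroDivisors (MvPolynomial ℕ (ULift.{u} ℚ))) x
      exact ⟨(a, b), h⟩
    exact hs.countable
  have hch : CharZero (FractionRing (MvPolynomial ℕ (ULift.{u} ℚ))) := by
    have h1 : Function.Injective ((algebraMap (MvPolynomial ℕ (ULift.{u} ℚ))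
      (FractionRing (MvPolynomial ℕ (ULift.{u} ℚ)))).comp
        (MvPolynomial.C.comp (ULift.ringEquiv.symm : ℚ ≃+* ULift.{u} ℚ).toRingHom)) :=
      RingHom.injective _
    exact (charZero_of_injective_ringHom h1)
  let Tsk : Type u := Σ (T : Σ n : ℕ, (Fin n → Fin n → FractionRing (MvPolynomial ℕ (ULift.{u} ℚ))) ×
    (Fin n → FractionRing (MvPolynomial ℕ (ULift.{u} ℚ)))), Fin T.1
  have hcT : Countable Tsk := by
    have : Countable (Σ (T : Σ n : ℕ, (Fin n → Fin n →
      FractionRing (MvPolynomial ℕ (ULift.{u} ℚ))) ×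
      (Fin n → FractionRing (MvPolynomial ℕ (ULift.{u} ℚ)))), Fin T.1) := inferInstance
    exact this
  obtain ⟨e, he⟩ := Countable.exists_injective_nat Tsk
  let val : Tsk → FractionRing (MvPolynomial ℕ (ULift.{u} ℚ)) := fun τ =>
    τ.1.2.2 τ.2 - ∑ j, τ.1.2.1 τ.2 j * algebraMap (MvPolynomial ℕ (ULift.{u} ℚ))
      (FractionRing (MvPolynomial ℕ (ULift.{u} ℚ))) (MvPolynomial.X (e ⟨τ.1, j⟩))
  obtain ⟨δ, hδ⟩ := exists_der_frac (F := ULift.{u} ℚ)
    (k := FractionRing (MvPolynomial ℕ (ULift.{u} ℚ))) (Function.extend e val 0)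
  refine ⟨FractionRing (MvPolynomial ℕ (ULift.{u} ℚ)), inferInstance, hch, δ, ?_⟩
  intro n B b
  refine ⟨fun i => algebraMap (MvPolynomial ℕ (ULift.{u} ℚ))
      (FractionRing (MvPolynomial ℕ (ULift.{u} ℚ)))
      (MvPolynomial.X (e ⟨⟨n, (fun i j => B i j, b)⟩, i⟩)), ?_⟩
  funext i
  unfold connM
  rw [hδ, he.extend_apply]
  show b i = (b i - ∑ j, B i j * algebraMap (MvPolynomial ℕ (ULift.{u} ℚ))
      (FractionRing (MvPolynomial ℕ (ULift.{u} ℚ)))
      (MvPolynomial.X (e ⟨⟨n, (fun i j => B i j, b)⟩, j⟩))) + _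
  rw [sub_add_cancel]

theorem HA_of_systems {k : Type u} [Field k] (δ : Derivation ℤ k k)
    (h : ∀ (n : ℕ) (B : Matrix (Fin n) (Fin n) k) (b : Fin n → k), ∃ g, b = connM δ B g) :
    HA δ := by
  intro Q _ _ _ D hD _ ω
  let b := Module.finBasis k Q
  obtain ⟨g, hg⟩ := h (Module.finrank k Q) (fun i j => b.repr (D (b j)) i) (fun i => b.repr ω i)
  refine ⟨∑ i, g i • b i, ?_⟩
  have h1 : D (∑ i, g i • b i) = ∑ i, D (g i • b i) := map_sum (AddMonoidHom.mk' D hD.add) _ _
  apply b.repr.injective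
  ext i
  have h2 := congrFun hg i
  have h3 : b.repr ω i = δ (g i) + ∑ j, b.repr (D (b j)) i * g j := h2
  rw [h3, h1]
  simp only [hD.smul]
  rw [Finset.sum_add_distrib, map_add, Finsupp.add_apply]
  congr 1
  · rw [map_sum, Finsupp.finsetSum_apply]
    simp [Finsupp.single_apply]
  · rw [map_sum, Finsupp.finsetSum_apply]
    apply Finset.sum_congr rfl
    intro j _
    rw [map_smul, Finsupp.smul_apply, smul_eq_mul, mul_comm]

end Cb
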