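import Pool.Agent.Helper462.Cb.Defs

namespace Cb

universe u


theorem ex_beta {k : Type u} [Field k] : HB (0 : Derivation ℤ k k) 0 1 := by
  refine ⟨fun g => by simp, ?_⟩
  intro Q _ _ _ D hD hS ω
  obtain ⟨L, hL⟩ : ∃ L : Q →ₗ[k] Q, ∀ v, L v = D v :=
    ⟨{ toFun := D
       map_add' := hD.add
       map_smul' := fun r v => by rw [hD.smul]; simp }, fun v => rfl⟩
  obtain ⟨W, hW, hc⟩ := hS (LinearMap.ker L) (fun w hw => by
    rw [LinearMap.mem_ker, hL] at hw
    rw [hw]
    exact Submodule.zero_mem _)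
  have hLW : ∀ w ∈ W, L w ∈ W := fun w hw => by rw [hL]; exact hW w hw
  have hinj : Function.Injective (L.restrict hLW) := by
    rw [← LinearMap.ker_eq_bot, LinearMap.ker_eq_bot']
    intro w hw
    have h1 : L (w : Q) = 0 := by
      have := congrArg Subtype.val hw
      simpa using this
    have h2 : (w : Q) ∈ LinearMap.ker L ⊓ W := ⟨h1, w.2⟩
    rw [hc.inf_eq_bot, Submodule.mem_bot] at h2
    exact Subtype.ext h2
  have hsurj : Function.Surjective (L.restrict hLW) := LinearMap.surjective_of_injective hinj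
  have hω : ω ∈ LinearMap.ker L ⊔ W := by
    rw [hc.sup_eq_top]; exact Submodule.mem_top
  obtain ⟨Ψ, hΨ, w, hw, hsum⟩ := Submodule.mem_sup.1 hω
  obtain ⟨g, hg⟩ := hsurj ⟨w, hw⟩
  have hg' : L (g : Q) = w := by
    have := congrArg Subtype.val hg
    simpa using this
  refine ⟨Ψ, g, ?_, ?_⟩
  · rw [zero_smul, ← hL]
    exact hΨ
  · rw [one_smul, ← hL, hg', hsum]

end Cb
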