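import Pool.Agent.Helper462.Cb.Defs

namespace Cb

universe u


section Cb3aux

open Polynomial

/-- the lift of the derivation of `F[X]` to dual numbers -/
noncomputable def cb3phi0 (F K : Type*) [Field F] [Field K] [Algebra F[X] K] :
    F[X] →+* DualNumber K where
  toFun p := TrivSqZeroExt.inl (algebraMap F[X] K p) +
    TrivSqZeroExt.inr (algebraMap F[X] K (derivative p))
  map_one' := by
    ext <;> simp
  map_mul' p q := by
    ext
    · simp
    · simp only [TrivSqZeroExt.snd_add, TrivSqZeroExt.snd_inl, TrivSqZeroExt.snd_inr, zero_add,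
        TrivSqZeroExt.snd_mul, TrivSqZeroExt.fst_add, TrivSqZeroExt.fst_inl,
        TrivSqZeroExt.fst_inr, add_zero, smul_eq_mul, MulOpposite.smul_eq_mul_unop,
        MulOpposite.unop_op, derivative_mul, map_add, map_mul]
      ring
  map_zero' := by
    ext <;> simp
  map_add' p q := by
    ext
    · simp
    · simp only [TrivSqZeroExt.snd_add, TrivSqZeroExt.snd_inl, TrivSqZeroExt.snd_inr, zero_add,
        map_add]

theorem cb3_exists_derivation (F : Type*) [Field F] (K : Type*) [Field K] [Algebra F[X] K]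
    [IsFractionRing F[X] K] :
    ∃ δ : Derivation ℤ K K, ∀ p : F[X], δ (algebraMap F[X] K p) =
      algebraMap F[X] K (derivative p) := by
  have hunit : ∀ y : nonZeroDivisors F[X], IsUnit (cb3phi0 F K (y : F[X])) := by
    intro y
    rw [TrivSqZeroExt.isUnit_iff_isUnit_fst]
    have e : (cb3phi0 F K (y : F[X])).fst = algebraMap F[X] K y := by
      simp [cb3phi0]
    rw [e]
    exact IsLocalization.map_units K y
  let φ : K →+* DualNumber K := IsLocalization.lift hunit
  have hφ : ∀ p : F[X], φ (algebraMap F[X] K p) = cb3phi0 F K p := fun p =>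
    IsLocalization.lift_eq hunit p
  have hfst : ∀ x : K, (φ x).fst = x := by
    have h1 : (TrivSqZeroExt.fstHom ℕ K K).toRingHom.comp φ = RingHom.id K := by
      apply IsLocalization.ringHom_ext (nonZeroDivisors F[X])
      ext p
      · simp only [RingHom.comp_apply, hφ]
        simp [cb3phi0]
      · simp only [RingHom.comp_apply, hφ]
        simp [cb3phi0]
    intro x
    have h2 := RingHom.congr_fun h1 x
    exact h2
  let D : K →ₗ[ℤ] K :=
    { toFun := fun x => (φ x).snd
      map_add' := fun x y => by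
        show (φ (x + y)).snd = _
        rw [map_add, TrivSqZeroExt.snd_add]
      map_smul' := fun n x => by
        show (φ (n • x)).snd = n • (φ x).snd
        rw [map_zsmul, TrivSqZeroExt.snd_smul] }
  refine ⟨Derivation.mk' D ?_, ?_⟩
  · intro a b
    show (φ (a * b)).snd = a • (φ b).snd + b • (φ a).snd
    rw [map_mul, TrivSqZeroExt.snd_mul, hfst, hfst]
    simp only [smul_eq_mul, MulOpposite.smul_eq_mul_unop, MulOpposite.unop_op]
    ring
  · intro p
    show (φ (algebraMap F[X] K p)).snd = _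
    rw [hφ]
    show (TrivSqZeroExt.inl (algebraMap F[X] K p) +
      TrivSqZeroExt.inr (algebraMap F[X] K (derivative p)) : DualNumber K).snd = _
    rw [TrivSqZeroExt.snd_add, TrivSqZeroExt.snd_inl, TrivSqZeroExt.snd_inr, zero_add]

theorem cb3_key {F : Type*} [Field F] [CharZero F] (α : F) (p q u s : F[X])
    (hpq : IsCoprime p q) (hq : q ≠ 0) (hu : u.eval α ≠ 0)
    (h : (X - C α) * (u * (derivative p * q - p * derivative q)) = s * q ^ 2) :
    s.eval α = 0 := by
  by_contra hs
  obtain ⟨r, hr, hr2⟩ := exists_eq_pow_rootMultiplicity_mul_and_not_dvd q hq α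
  have hrα : r.eval α ≠ 0 := fun h0 => hr2 (dvd_iff_isRoot.mpr h0)
  rcases Nat.eq_zero_or_pos (q.rootMultiplicity α) with hm | hm
  · rw [hm, pow_zero, one_mul] at hr
    have h1 := congrArg (eval α) h
    simp only [eval_mul, eval_sub, eval_X, eval_C, sub_self, zero_mul, eval_pow] at h1
    rw [hr] at h1
    exact (mul_ne_zero hs (pow_ne_zero 2 hrα)) h1.symm
  · obtain ⟨n, hn⟩ : ∃ n, q.rootMultiplicity α = n + 1 := ⟨q.rootMultiplicity α - 1, by omega⟩
    rw [hn] at hr
    have hqα : q.eval α = 0 := by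
      rw [hr]
      simp
    have hpα : p.eval α ≠ 0 := by
      intro h0
      obtain ⟨a, b, hab⟩ := hpq
      have h1 := congrArg (eval α) hab
      simp [hqα, h0] at h1
    have hdq : derivative q = (C ((n : F) + 1)) * (X - C α) ^ n * r +
        (X - C α) ^ (n + 1) * derivative r := by
      conv_lhs => rw [hr]
      rw [derivative_mul, derivative_pow]
      simp
    have h2 : (X - C α) ^ (n + 1) * (u * (derivative p * (X - C α) * r -
        C ((n : F) + 1) * p * r - p * (X - C α) * derivative r)) =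
        (X - C α) ^ (n + 1) * (s * (X - C α) ^ (n + 1) * r ^ 2) := by
      rw [hdq] at h
      have h3 : s * q ^ 2 = (X - C α) ^ (n + 1) * (s * (X - C α) ^ (n + 1) * r ^ 2) := by
        rw [hr]
        ring
      rw [← h3, ← h]
      conv_rhs => rw [hr]
      ring
    have h4 := mul_left_cancel₀ (pow_ne_zero _ (X_sub_C_ne_zero α)) h2
    have h5 := congrArg (eval α) h4
    simp only [eval_mul, eval_sub, eval_X, eval_C, sub_self, zero_mul, mul_zero, eval_pow,
      zero_sub, sub_zero, ne_eq, Nat.add_eq_zero_iff, one_ne_zero, and_false, not_false_eq_true,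
      zero_pow] at h5
    have hn1 : ((n : F) + 1) ≠ 0 := by exact_mod_cast Nat.succ_ne_zero n
    exact (mul_ne_zero hu (neg_ne_zero.mpr (mul_ne_zero (mul_ne_zero hn1 hpα) hrα))) h5

theorem cb3_frac {F : Type*} [Field F] {K : Type*} [Field K] [Algebra F[X] K]
    [IsFractionRing F[X] K] (δ : Derivation ℤ K K)
    (hδ : ∀ p : F[X], δ (algebraMap F[X] K p) = algebraMap F[X] K (derivative p)) (x : K) :
    ∃ p q : F[X], IsCoprime p q ∧ q ≠ 0 ∧ x * algebraMap F[X] K q = algebraMap F[X] K p ∧
      δ x * (algebraMap F[X] K q) ^ 2 =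
        algebraMap F[X] K (derivative p * q - p * derivative q) := by
  obtain ⟨p, q, hpq, hx⟩ := IsFractionRing.exists_reduced_fraction (A := F[X]) x
  have hxq : x * algebraMap F[X] K q = algebraMap F[X] K p := by
    rw [← hx]
    exact IsLocalization.mk'_spec K p q
  refine ⟨p, q, hpq.isCoprime, nonZeroDivisors.coe_ne_zero q, hxq, ?_⟩
  have h1 := congrArg δ hxq
  rw [Derivation.leibniz, hδ, hδ, smul_eq_mul, smul_eq_mul] at h1
  rw [map_sub, map_mul, map_mul, ← h1, ← hxq]
  ring

theorem cb3_const {F : Type*} [Field F] [CharZero F] {K : Type*} [Field K] [Algebra F[X] K]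
    [IsFractionRing F[X] K] (δ : Derivation ℤ K K)
    (hδ : ∀ p : F[X], δ (algebraMap F[X] K p) = algebraMap F[X] K (derivative p)) (c : K)
    (hc : δ c = 0) : ∃ a : F, c = algebraMap F[X] K (C a) := by
  obtain ⟨p, q, hpq, hq, hxq, hd⟩ := cb3_frac δ hδ c
  rw [hc, zero_mul] at hd
  have h0 : derivative p * q - p * derivative q = 0 := by
    apply IsFractionRing.injective F[X] K
    rw [← hd, map_zero]
  have h1 : derivative p * q = p * derivative q := sub_eq_zero.mp h0
  have hq' : derivative q = 0 := by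
    have h2 : q ∣ derivative q := by
      have h3 : q ∣ p * derivative q := ⟨derivative p, by rw [← h1]; ring⟩
      exact hpq.symm.dvd_of_dvd_mul_left h3
    exact eq_zero_of_dvd_of_degree_lt h2 (degree_derivative_lt hq)
  have hp' : derivative p = 0 := by
    rw [hq', mul_zero] at h1
    exact (mul_eq_zero.mp h1).resolve_right hq
  have hqC := eq_C_of_natDegree_eq_zero (derivative_eq_zero.mp hq')
  have hpC := eq_C_of_natDegree_eq_zero (derivative_eq_zero.mp hp')
  have hb : q.coeff 0 ≠ 0 := by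
    intro h
    rw [h, C_0] at hqC
    exact hq hqC
  refine ⟨p.coeff 0 / q.coeff 0, ?_⟩
  have hbK : algebraMap F[X] K (C (q.coeff 0)) ≠ 0 := by
    intro h
    rw [← hqC] at h
    exact hq ((IsFractionRing.injective F[X] K) (by rw [h, map_zero]))
  apply mul_right_cancel₀ hbK
  rw [← hqC, hxq, hpC, hqC, ← map_mul, ← C_mul]
  simp only [coeff_C_zero]
  rw [div_mul_cancel₀ _ hb]

theorem cb3_main {F : Type*} [Field F] [CharZero F] {K : Type*} [Field K] [Algebra F[X] K]
    [IsFractionRing F[X] K] (δ : Derivation ℤ K K)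
    (hδ : ∀ p : F[X], δ (algebraMap F[X] K p) = algebraMap F[X] K (derivative p))
    (c₁ c₂ g : K) (h1 : δ c₁ = 0) (h2 : δ c₂ = 0)
    (h : c₁ * (1 / algebraMap F[X] K X) + c₂ * (1 / algebraMap F[X] K (X - C 1)) = δ g) :
    c₁ = 0 ∧ c₂ = 0 := by
  obtain ⟨a₁, rfl⟩ := cb3_const δ hδ c₁ h1
  obtain ⟨a₂, rfl⟩ := cb3_const δ hδ c₂ h2
  obtain ⟨p, q, hpq, hq, hxq, hd⟩ := cb3_frac δ hδ g
  have hX : algebraMap F[X] K X ≠ 0 := by
    intro h0
    exact X_ne_zero ((IsFractionRing.injective F[X] K) (by rw [h0, map_zero]))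
  have hX1 : algebraMap F[X] K (X - C 1) ≠ 0 := by
    intro h0
    exact X_sub_C_ne_zero (1 : F) ((IsFractionRing.injective F[X] K) (by rw [h0, map_zero]))
  have key : (C a₁ * (X - C 1) + C a₂ * X) * q ^ 2 =
      X * (X - C 1) * (derivative p * q - p * derivative q) := by
    apply IsFractionRing.injective F[X] K
    rw [map_mul, map_mul, map_mul, ← hd, ← h, map_add, map_mul, map_mul, map_pow]
    field_simp
  have e0 : (X - C (0 : F)) * ((X - C 1) * (derivative p * q - p * derivative q)) =
      (C a₁ * (X - C 1) + C a₂ * X) * q ^ 2 := by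
    rw [key, C_0]
    ring
  have e1 : (X - C (1 : F)) * (X * (derivative p * q - p * derivative q)) =
      (C a₁ * (X - C 1) + C a₂ * X) * q ^ 2 := by
    rw [key]
    ring
  have r0 := cb3_key 0 p q (X - C 1) _ hpq hq (by simp) e0
  have r1 := cb3_key 1 p q X _ hpq hq (by simp) e1
  simp at r0 r1
  rw [r0, r1]
  simp

end Cb3aux

theorem ex_gamma_classes : ∃ (k : Type u) (_ : Field k) (_ : CharZero k)
    (δ : Derivation ℤ k k) (b₁ b₂ : k), ∀ c₁ c₂ g : k, δ c₁ = 0 → δ c₂ = 0 →
      c₁ * b₁ + c₂ * b₂ = δ g → c₁ = 0 ∧ c₂ = 0 := by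
  have hchar : CharZero (ULift.{u} ℚ) := by
    refine ⟨fun a b hab => ?_⟩
    have h1 := congrArg ULift.down hab
    have h2 : ((a : ℚ)) = (b : ℚ) := by simpa using h1
    exact_mod_cast h2
  obtain ⟨δ, hδ⟩ := cb3_exists_derivation (ULift.{u} ℚ)
    (FractionRing (Polynomial (ULift.{u} ℚ)))
  have hcharP : CharZero (Polynomial (ULift.{u} ℚ)) :=
    charZero_of_injective_ringHom (Polynomial.C_injective (R := ULift.{u} ℚ))
  have hcharK : CharZero (FractionRing (Polynomial (ULift.{u} ℚ))) :=
    charZero_of_injective_algebraMap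
      (IsFractionRing.injective (Polynomial (ULift.{u} ℚ)) (FractionRing (Polynomial (ULift.{u} ℚ))))
  exact ⟨FractionRing (Polynomial (ULift.{u} ℚ)), inferInstance, hcharK, δ, _, _,
    fun c₁ c₂ g h1 h2 h => cb3_main δ hδ c₁ c₂ g h1 h2 h⟩

end Cb
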