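import Pool.Agent.Helper462.Cb.Defs

namespace Cb

universe u


theorem j21892_conn {k : Type u} [Field k] (δ : Derivation ℤ k k) (v : Fin 2 → k) (i : Fin 2) :
    connM δ (0 : Matrix (Fin 2) (Fin 2) k) v i = δ (v i) := by
  simp [connM]

theorem j21892_top {k : Type u} [Field k] (W : Submodule k (Fin 2 → k)) (y z : k)
    (h1 : ![1, y] ∈ W) (hz : z ≠ 0) (h2 : ![0, z] ∈ W) : W = ⊤ := by
  rw [eq_top_iff]
  intro v _
  have e : v = v 0 • ![1, y] + ((v 1 - y * v 0) * z⁻¹) • ![0, z] := by
    ext i
    fin_cases i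
    · simp
    · simp
      field_simp
      ring
  rw [e]
  exact W.add_mem (W.smul_mem _ h1) (W.smul_mem _ h2)

theorem j21892_cls {k : Type u} [Field k] (δ : Derivation ℤ k k) (W : Submodule k (Fin 2 → k))
    (hW : ∀ w ∈ W, connM δ (0 : Matrix (Fin 2) (Fin 2) k) w ∈ W) :
    W = ⊤ ∨ (∀ w ∈ W, w 0 = 0) ∨ ∃ y, δ y = 0 ∧ ![1, y] ∈ W ∧ ∀ w ∈ W, w 1 = y * w 0 := by
  by_cases hA : ∀ w ∈ W, w 0 = 0
  · exact Or.inr (Or.inl hA)
  push Not at hA
  obtain ⟨w₀, hw₀, hne⟩ := hA
  obtain ⟨y, hy⟩ : ∃ y, y = w₀ 1 / w₀ 0 := ⟨_, rfl⟩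
  have h1 : ![1, y] ∈ W := by
    have e : (![1, y] : Fin 2 → k) = (w₀ 0)⁻¹ • w₀ := by
      ext i
      fin_cases i
      · simp [hne]
      · simp [hy]
        field_simp
    rw [e]
    exact W.smul_mem _ hw₀
  by_cases hdy : δ y = 0
  · by_cases hall : ∀ w ∈ W, w 1 = y * w 0
    · exact Or.inr (Or.inr ⟨y, hdy, h1, hall⟩)
    · push Not at hall
      obtain ⟨w, hw, hw2⟩ := hall
      left
      apply j21892_top W y (w 1 - y * w 0) h1 (sub_ne_zero.2 hw2)
      have e : (![0, w 1 - y * w 0] : Fin 2 → k) = w - w 0 • ![1, y] := by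
        ext i
        fin_cases i
        · simp
        · simp
          ring
      rw [e]
      exact W.sub_mem hw (W.smul_mem _ h1)
  · left
    apply j21892_top W y (δ y) h1 hdy
    have h2 := hW _ h1
    have e : connM δ (0 : Matrix (Fin 2) (Fin 2) k) ![1, y] = ![0, δ y] := by
      ext i
      rw [j21892_conn]
      fin_cases i
      · simp
      · simp
    rwa [e] at h2

theorem j21892_SS {k : Type u} [Field k] (δ : Derivation ℤ k k) :
    SS k (connM δ (0 : Matrix (Fin 2) (Fin 2) k)) := by
  intro W hW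
  rcases j21892_cls δ W hW with h | h | ⟨y, hdy, h1, h2⟩
  · refine ⟨⊥, ?_, ?_⟩
    · intro w hw
      rw [Submodule.mem_bot] at hw ⊢
      ext i
      rw [j21892_conn, hw]
      simp
    · rw [h]
      exact isCompl_top_bot
  · by_cases hb : W = ⊥
    · refine ⟨⊤, fun _ _ => Submodule.mem_top, ?_⟩
      rw [hb]
      exact isCompl_bot_top
    · obtain ⟨w, hw, hw0⟩ := (Submodule.ne_bot_iff W).1 hb
      have hw1 : w 1 ≠ 0 := by
        intro h0
        apply hw0
        ext i
        fin_cases i
        · simpa using h w hw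
        · simpa using h0
      have h3 : ![0, 1] ∈ W := by
        have e : (![0, 1] : Fin 2 → k) = (w 1)⁻¹ • w := by
          ext i
          fin_cases i
          · simp [h w hw]
          · simp [hw1]
        rw [e]
        exact W.smul_mem _ hw
      refine ⟨LinearMap.ker (LinearMap.proj (R := k) (φ := fun _ : Fin 2 => k) 1), ?_, ?_⟩
      · intro v hv
        rw [LinearMap.mem_ker, LinearMap.proj_apply] at hv ⊢
        rw [j21892_conn, hv, map_zero]
      · constructor
        · rw [Submodule.disjoint_def]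
          intro v hv hv1
          rw [LinearMap.mem_ker, LinearMap.proj_apply] at hv1
          ext i
          fin_cases i
          · simpa using h v hv
          · simpa using hv1
        · rw [codisjoint_iff, eq_top_iff]
          intro v _
          have e : v = v 1 • ![0, 1] + ![v 0, 0] := by
            ext i
            fin_cases i <;> simp
          rw [e]
          refine Submodule.add_mem_sup (W.smul_mem _ h3) ?_
          rw [LinearMap.mem_ker, LinearMap.proj_apply]
          simp
  · refine ⟨LinearMap.ker (LinearMap.proj (R := k) (φ := fun _ : Fin 2 => k) 0), ?_, ?_⟩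
    · intro v hv
      rw [LinearMap.mem_ker, LinearMap.proj_apply] at hv ⊢
      rw [j21892_conn, hv, map_zero]
    · constructor
      · rw [Submodule.disjoint_def]
        intro v hv hv1
        rw [LinearMap.mem_ker, LinearMap.proj_apply] at hv1
        have h4 := h2 v hv
        rw [hv1, mul_zero] at h4
        ext i
        fin_cases i
        · simpa using hv1
        · simpa using h4
      · rw [codisjoint_iff, eq_top_iff]
        intro v _
        have e : v = v 0 • ![1, y] + ![0, v 1 - y * v 0] := by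
          ext i
          fin_cases i
          · simp
          · simp
            ring
        rw [e]
        refine Submodule.add_mem_sup (W.smul_mem _ h1) ?_
        rw [LinearMap.mem_ker, LinearMap.proj_apply]
        simp

theorem HG_of_classes {k : Type u} [Field k] (δ : Derivation ℤ k k) (b₁ b₂ : k)
    (h : ∀ c₁ c₂ g : k, δ c₁ = 0 → δ c₂ = 0 → c₁ * b₁ + c₂ * b₂ = δ g → c₁ = 0 ∧ c₂ = 0) :
    HG δ := by
  refine ⟨2, 0, ![b₁, b₂], le_rfl, j21892_SS δ, ?_⟩
  intro W hW hne w hw g hb
  have hb1 : b₁ = w 0 + δ (g 0) := by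
    have := congrFun hb 0
    rw [Pi.add_apply, j21892_conn] at this
    simpa using this
  have hb2 : b₂ = w 1 + δ (g 1) := by
    have := congrFun hb 1
    rw [Pi.add_apply, j21892_conn] at this
    simpa using this
  rcases j21892_cls δ W hW with h1 | h1 | ⟨y, hdy, h1, h2⟩
  · exact hne h1
  · have h3 := h 1 0 (g 0) (by simp) (by simp) (by
      rw [hb1, h1 w hw]
      ring)
    exact one_ne_zero h3.1
  · have h3 := h (-y) 1 (-y * g 0 + g 1) (by rw [map_neg, hdy, neg_zero]) (by simp) (by
      rw [hb1, hb2, h2 w hw, map_add, Derivation.leibniz, map_neg, hdy]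
      simp only [smul_eq_mul, neg_zero, mul_zero, add_zero]
      ring)
    exact one_ne_zero h3.2

end Cb
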